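import Pool.Agent.PST.StF

/-!
# PST [MapE]: transport of principal lattices
-/

set_option autoImplicit false

namespace PST

open scoped ComplexConjugate
open GAM (H E F pd pdl PLat IsTh OddTor IsDel Gro IsLat)

theorem thm_MapE (h : St_UGr) : St_MapE := by
  intro α β μ _ _ _ _ _ _ g L χ hg hL
  obtain ⟨-, hmul, hone, hlin, -, hinv, hE⟩ := h α β μ
  obtain ⟨-, hl, hr, -, -⟩ := hinv g hg
  set g' : Matrix (α ⊕ β) (α ⊕ β) ℂ := Jm α β * g.conjTranspose * Jm α β with hg'
  have h1 : ∀ x : Ix α β μ → ℂ, act g' (act g x) = x := fun x => by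
    rw [← hmul, hl, hone]
  have h2 : ∀ x : Ix α β μ → ℂ, act g (act g' x) = x := fun x => by
    rw [← hmul, hr, hone]
  -- the action as a linear equivalence
  have hadd : ∀ x y : Ix α β μ → ℂ, act g (x + y) = act g x + act g y := fun x y =>
    (hlin g x y 0).1
  have hsmul : ∀ (r : ℝ) (x : Ix α β μ → ℂ), act g (r • x) = r • act g x := fun r x => by
    have h3 := (hlin g x x r).2
    have h4 : ∀ y : Ix α β μ → ℂ, (r : ℂ) • y = r • y := fun y => by
      funext p
      rw [Pi.smul_apply, Pi.smul_apply, smul_eq_mul, Complex.real_smul]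
    rwa [h4, h4] at h3
  let e : (Ix α β μ → ℂ) ≃ₗ[ℝ] (Ix α β μ → ℂ) :=
    { toFun := act g
      map_add' := hadd
      map_smul' := hsmul
      invFun := act g'
      left_inv := h1
      right_inv := h2 }
  have he : ∀ x, e x = act g x := fun x => rfl
  have hes : ∀ x, act g (e.symm x) = x := fun x => h2 x
  set f : (Ix α β μ → ℂ) →ₗ[ℤ] (Ix α β μ → ℂ) := (e : (Ix α β μ → ℂ) →ₗ[ℝ] _).restrictScalars ℤ
    with hf
  have hfe : ∀ x, f x = act g x := fun x => rfl
  refine ⟨L.comap f, fun x => χ (act g x), ?_, ⟨hg, fun x => Iff.rfl, fun l _ => rfl⟩⟩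
  refine ⟨?_, ?_, ?_, ?_, ?_⟩
  · obtain ⟨b, hb⟩ := hL.basis
    refine ⟨b.map e.symm, ?_⟩
    ext x
    rw [Submodule.mem_comap, hfe]
    have h3 : Set.range (b.map e.symm) = (e.symm : (Ix α β μ → ℂ) → _) '' Set.range b := by
      ext y
      constructor
      · rintro ⟨i, rfl⟩
        exact ⟨b i, ⟨i, rfl⟩, rfl⟩
      · rintro ⟨_, ⟨i, rfl⟩, rfl⟩
        exact ⟨i, rfl⟩
    have h4 : (e.symm : (Ix α β μ → ℂ) → (Ix α β μ → ℂ)) =
        ((e.symm : (Ix α β μ → ℂ) →ₗ[ℝ] (Ix α β μ → ℂ)).restrictScalars ℤ :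
          (Ix α β μ → ℂ) → (Ix α β μ → ℂ)) := rfl
    rw [h3, h4, ← Submodule.map_span, ← hb]
    constructor
    · intro hx
      exact ⟨act g x, hx, h1 x⟩
    · rintro ⟨y, hy, rfl⟩
      have h5 : act g (((e.symm : (Ix α β μ → ℂ) →ₗ[ℝ] (Ix α β μ → ℂ)).restrictScalars ℤ) y) =
          y := hes y
      rw [h5]
      exact hy
  · intro l hl' m hm
    obtain ⟨n, hn⟩ := hL.int (act g l) hl' (act g m) hm
    exact ⟨n, by rw [← hn, hE g hg]⟩
  · intro v hv
    show act g v ∈ L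
    refine hL.self _ fun l hl' => ?_
    obtain ⟨n, hn⟩ := hv (e.symm l) (by
      show act g (e.symm l) ∈ L
      rw [hes]
      exact hl')
    refine ⟨n, ?_⟩
    rw [← hn, ← hE g hg v (e.symm l), hes]
  · intro l hl'
    exact hL.pm _ hl'
  · intro l hl' m hm
    show χ (act g (l + m)) = χ (act g l) * χ (act g m) * _
    rw [hadd, hL.add (act g l) hl' (act g m) hm, hE g hg]

end PST
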