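import Pool.Agent.PST.StF

/-!
# PST: the indefinite unitary group
-/

set_option autoImplicit false

namespace PST

open scoped ComplexConjugate
open GAM (H E F pd pdl PLat IsTh OddTor IsDel Gro IsLat)

section

variable {α β μ : Type} [Fintype α] [Fintype β] [Fintype μ]
  [DecidableEq α] [DecidableEq β] [DecidableEq μ]

theorem UGr_sw_sw (x : Ix α β μ → ℂ) : sw (sw x) = x := by
  funext p
  obtain ⟨q, k⟩ := p
  rcases q with i | j
  · rfl
  · simp [sw]

theorem UGr_sw_add (x y : Ix α β μ → ℂ) : sw (x + y) = sw x + sw y := by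
  funext p
  obtain ⟨q, k⟩ := p
  rcases q with i | j
  · rfl
  · simp [sw]

theorem UGr_sw_smul (r : ℝ) (x : Ix α β μ → ℂ) : sw ((r : ℂ) • x) = (r : ℂ) • sw x := by
  funext p
  obtain ⟨q, k⟩ := p
  rcases q with i | j
  · rfl
  · simp [sw]

theorem UGr_mu_mul (g h : Matrix (α ⊕ β) (α ⊕ β) ℂ) (X : Ix α β μ → ℂ) :
    mu (g * h) X = mu g (mu h X) := by
  funext p
  simp only [mu, Matrix.mul_apply, Finset.sum_mul, Finset.mul_sum]
  rw [Finset.sum_comm]
  refine Finset.sum_congr rfl fun a _ => Finset.sum_congr rfl fun b _ => ?_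
  ring

theorem UGr_mu_one (X : Ix α β μ → ℂ) : mu (1 : Matrix (α ⊕ β) (α ⊕ β) ℂ) X = X := by
  funext p
  obtain ⟨q, k⟩ := p
  simp only [mu]
  rw [Finset.sum_eq_single q]
  · rw [Matrix.one_apply_eq, one_mul]
  · intro b _ hb
    rw [Matrix.one_apply_ne hb.symm, zero_mul]
  · intro h
    exact absurd (Finset.mem_univ _) h

theorem UGr_mu_add (g : Matrix (α ⊕ β) (α ⊕ β) ℂ) (X Y : Ix α β μ → ℂ) :
    mu g (X + Y) = mu g X + mu g Y := by
  funext p
  simp only [mu, Pi.add_apply, mul_add, Finset.sum_add_distrib]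

theorem UGr_mu_smul (g : Matrix (α ⊕ β) (α ⊕ β) ℂ) (r : ℂ) (X : Ix α β μ → ℂ) :
    mu g (r • X) = r • mu g X := by
  funext p
  simp only [mu, Pi.smul_apply, smul_eq_mul, Finset.mul_sum]
  refine Finset.sum_congr rfl fun a _ => ?_
  ring

theorem UGr_J_sq : Jm α β * Jm α β = 1 := by
  unfold Jm
  rw [Matrix.fromBlocks_multiply]
  simp [Matrix.fromBlocks_one]

theorem UGr_J_star : (Jm α β).conjTranspose = Jm α β := by
  unfold Jm
  rw [Matrix.fromBlocks_conjTranspose]
  simp

theorem UGr_inv {g : Matrix (α ⊕ β) (α ⊕ β) ℂ} (hg : IsU g) :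
    (Jm α β * g.conjTranspose * Jm α β) * g = 1 := by
  have h : g.conjTranspose * Jm α β * g = Jm α β := hg
  calc (Jm α β * g.conjTranspose * Jm α β) * g = Jm α β * (g.conjTranspose * Jm α β * g) := by
        simp only [Matrix.mul_assoc]
    _ = 1 := by rw [h, UGr_J_sq]

theorem UGr_inv' {g : Matrix (α ⊕ β) (α ⊕ β) ℂ} (hg : IsU g) :
    g * (Jm α β * g.conjTranspose * Jm α β) = 1 :=
  mul_eq_one_comm.1 (UGr_inv hg)

theorem UGr_out {g : Matrix (α ⊕ β) (α ⊕ β) ℂ} (hg : IsU g) :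
    g * Jm α β * g.conjTranspose = Jm α β := by
  have h := UGr_inv' hg
  calc g * Jm α β * g.conjTranspose = g * (Jm α β * g.conjTranspose * Jm α β) * Jm α β := by
        simp only [Matrix.mul_assoc, UGr_J_sq, Matrix.mul_one]
    _ = Jm α β := by rw [h, Matrix.one_mul]

theorem UGr_det {g : Matrix (α ⊕ β) (α ⊕ β) ℂ} (hg : IsU g) : ‖g.det‖ = 1 := by
  have h : g.conjTranspose * Jm α β * g = Jm α β := hg
  have h1 := congrArg Matrix.det h
  rw [Matrix.det_mul, Matrix.det_mul, Matrix.det_conjTranspose] at h1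
  have h2 : (Jm α β).det * (Jm α β).det = 1 := by
    rw [← Matrix.det_mul, UGr_J_sq, Matrix.det_one]
  have h3 : (Jm α β).det ≠ 0 := by
    intro h4
    rw [h4, mul_zero] at h2
    exact zero_ne_one h2
  have h4 : star g.det * g.det = 1 := by
    have h5 : (star g.det * g.det) * (Jm α β).det = 1 * (Jm α β).det := by
      rw [one_mul]
      calc (star g.det * g.det) * (Jm α β).det = star g.det * (Jm α β).det * g.det := by ring
        _ = (Jm α β).det := h1
    exact mul_right_cancel₀ h3 h5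
  have h5 : ‖g.det‖ * ‖g.det‖ = 1 := by
    have h6 := congrArg norm h4
    rw [norm_mul, norm_star, norm_one] at h6
    exact h6
  have h6 : 0 ≤ ‖g.det‖ := norm_nonneg _
  nlinarith

theorem UGr_mul {g h : Matrix (α ⊕ β) (α ⊕ β) ℂ} (hg : IsU g) (hh : IsU h) : IsU (g * h) := by
  have h1 : g.conjTranspose * Jm α β * g = Jm α β := hg
  have h2 : h.conjTranspose * Jm α β * h = Jm α β := hh
  show (g * h).conjTranspose * Jm α β * (g * h) = Jm α β
  rw [Matrix.conjTranspose_mul]
  calc h.conjTranspose * g.conjTranspose * Jm α β * (g * h) =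
        h.conjTranspose * (g.conjTranspose * Jm α β * g) * h := by simp only [Matrix.mul_assoc]
    _ = Jm α β := by rw [h1, h2]

theorem UGr_isU_inv {g : Matrix (α ⊕ β) (α ⊕ β) ℂ} (hg : IsU g) :
    IsU (Jm α β * g.conjTranspose * Jm α β) := by
  show (Jm α β * g.conjTranspose * Jm α β).conjTranspose * Jm α β *
    (Jm α β * g.conjTranspose * Jm α β) = Jm α β
  rw [Matrix.conjTranspose_mul, Matrix.conjTranspose_mul, UGr_J_star,
    Matrix.conjTranspose_conjTranspose]
  calc Jm α β * (g * Jm α β) * Jm α β * (Jm α β * g.conjTranspose * Jm α β) =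
        Jm α β * g * (Jm α β * Jm α β) * (Jm α β * g.conjTranspose * Jm α β) := by
        simp only [Matrix.mul_assoc]
    _ = Jm α β * (g * Jm α β * g.conjTranspose) * Jm α β := by
        rw [UGr_J_sq, Matrix.mul_one]
        simp only [Matrix.mul_assoc]
    _ = Jm α β := by rw [UGr_out hg, UGr_J_sq, Matrix.one_mul]

/-- `E` in the coordinates `X` -/
theorem UGr_E (x y : Ix α β μ → ℂ) :
    E x y = (∑ k, star (fun q => sw y (q, k)) ⬝ᵥ
      (Jm α β).mulVec (fun q => sw x (q, k))).im := by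
  have h1 : H x y = ∑ k, (∑ i, x (Sum.inl i, k) * conj (y (Sum.inl i, k)) +
      ∑ j, x (Sum.inr j, k) * conj (y (Sum.inr j, k))) := by
    unfold H
    rw [Fintype.sum_prod_type_right]
    refine Finset.sum_congr rfl fun k _ => ?_
    rw [Fintype.sum_sum_type]
  have h2 : ∀ k, star (fun q => sw y (q, k)) ⬝ᵥ (Jm α β).mulVec (fun q => sw x (q, k)) =
      ∑ i, x (Sum.inl i, k) * conj (y (Sum.inl i, k)) -
        ∑ j, conj (x (Sum.inr j, k) * conj (y (Sum.inr j, k))) := by
    intro k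
    unfold Jm
    rw [Matrix.fromBlocks_mulVec]
    simp only [dotProduct, Fintype.sum_sum_type, Sum.elim_inl, Sum.elim_inr, Matrix.one_mulVec,
      Matrix.zero_mulVec, Matrix.neg_mulVec, add_zero, zero_add, Pi.neg_apply, Function.comp,
      Pi.star_apply, sw, mul_neg, Finset.sum_neg_distrib, map_mul, Complex.conj_conj,
      Complex.star_def]
    rw [← sub_eq_add_neg]
    congr 1
    · exact Finset.sum_congr rfl fun i _ => mul_comm _ _
    · exact Finset.sum_congr rfl fun i _ => mul_comm _ _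
  unfold E
  rw [h1]
  simp only [h2, Complex.im_sum, Complex.add_im, Complex.sub_im, Complex.conj_im]
  refine Finset.sum_congr rfl fun k _ => ?_
  rw [Finset.sum_neg_distrib, sub_neg_eq_add]

theorem UGr_form {g : Matrix (α ⊕ β) (α ⊕ β) ℂ} (hg : IsU g) (X Y : α ⊕ β → ℂ) :
    star (g.mulVec Y) ⬝ᵥ (Jm α β).mulVec (g.mulVec X) = star Y ⬝ᵥ (Jm α β).mulVec X := by
  have h1 : g.conjTranspose * Jm α β * g = Jm α β := hg
  rw [Matrix.star_mulVec, ← Matrix.dotProduct_mulVec, Matrix.mulVec_mulVec, Matrix.mulVec_mulVec,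
    h1]

end

theorem thm_UGr : St_UGr := by
  intro α β μ _ _ _ _ _ _
  refine ⟨UGr_sw_sw, ?_, ?_, ?_, fun g h hg hh => UGr_mul hg hh, ?_, ?_⟩
  · intro g h x
    unfold act
    rw [UGr_sw_sw, UGr_mu_mul]
  · intro x
    unfold act
    rw [UGr_mu_one, UGr_sw_sw]
  · intro g x y r
    unfold act
    rw [UGr_sw_add, UGr_mu_add, UGr_sw_add, UGr_sw_smul, UGr_mu_smul, UGr_sw_smul]
    exact ⟨rfl, rfl⟩
  · intro g hg
    exact ⟨UGr_isU_inv hg, UGr_inv hg, UGr_inv' hg, UGr_det hg, UGr_out hg⟩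
  · intro g hg x y
    rw [UGr_E, UGr_E]
    congr 1
    refine Finset.sum_congr rfl fun k _ => ?_
    have h1 : ∀ z : Ix α β μ → ℂ, (fun q => sw (act g z) (q, k)) =
        g.mulVec (fun q => sw z (q, k)) := by
      intro z
      funext q
      unfold act
      rw [UGr_sw_sw]
      rfl
    rw [h1, h1, UGr_form hg]

end PST
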