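import Pool.Agent.PST.StN
import Pool.Agent.Helper71.AF.Alg

/-!
# PST: the analytic representation of the endomorphism algebra
-/

set_option autoImplicit false

namespace PST

open scoped ComplexConjugate
open GAM (H E F pd pdl PLat IsTh OddTor IsDel Gro IsLat Pre QD qd jac HasExp CMF CMT IsExp IsCM)
open Pool.Agent.GPC (AbVar hermForm bilForm)
open Module
open Pool.Agent.Helper7 (PData pData isAlg_sum IsDRB periodHom period_add isEnd_of_isDRB
  isDRB_of_isEnd isBetti_iff polForm_period polForm_rat mem_pData_Q)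
open Pool.Agent.Helper71.AF (VR betti_VR zz_period period_VR VR_period VR_map exists_decomp DD
  exists_adj)

section

variable (X : AbVar)

/-- `m` is the action of `f` on the Lie algebra -/
def AnR_Rep (f : Module.End ℂ X.H1) (m : Matrix (Fin X.g) (Fin X.g) ℂ) : Prop :=
  ∀ v, X.zz (f v) = m.mulVec (X.zz v)

variable {X}

theorem AnR_uniq {f : Module.End ℂ X.H1} {m m' : Matrix (Fin X.g) (Fin X.g) ℂ}
    (h : AnR_Rep X f m) (h' : AnR_Rep X f m') : m = m' := by
  apply Matrix.toLin'.injective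
  apply LinearMap.ext
  intro z
  rw [Matrix.toLin'_apply, Matrix.toLin'_apply]
  have h1 := h (X.period z)
  have h2 := h' (X.period z)
  rw [zz_period] at h1 h2
  rw [← h1, ← h2]

theorem AnR_ex (f : Module.End ℂ X.H1) (hf : X.IsEnd f) :
    ∃ m, AnR_Rep X f m := by
  let s : (Fin X.g → ℂ) →ₗ[ℂ] X.H1 :=
    { toFun := fun z => Sum.elim z 0
      map_add' := fun z w => by
        funext j
        rcases j with a | a
        · rfl
        · exact (add_zero (0 : ℂ)).symm
      map_smul' := fun c z => by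
        funext j
        rcases j with a | a
        · rfl
        · exact (mul_zero c).symm }
  let l : (Fin X.g → ℂ) →ₗ[ℂ] (Fin X.g → ℂ) := (X.zz : X.H1 →ₗ[ℂ] (Fin X.g → ℂ)) ∘ₗ f ∘ₗ s
  refine ⟨LinearMap.toMatrix' l, fun v => ?_⟩
  rw [LinearMap.toMatrix'_mulVec]
  show X.zz (f v) = X.zz (f (s (X.zz v)))
  have h1 := hf.hodge (v - s (X.zz v)) (fun a => sub_self _)
  funext a
  have h2 := h1 a
  rw [map_sub] at h2
  exact sub_eq_zero.mp h2

theorem AnR_alg {f : Module.End ℂ X.H1} (hf : X.IsEnd f) {m : Matrix (Fin X.g) (Fin X.g) ℂ}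
    (h : AnR_Rep X f m) (i j : Fin X.g) : IsAlgebraic ℚ (m i j) := by
  have h1 := congrFun (h (Pi.single (Sum.inl j) 1)) i
  have h2 : X.zz (Pi.single (Sum.inl j) 1 : X.H1) = Pi.single j 1 := by
    funext a
    show (Pi.single (Sum.inl j) 1 : X.H1) (Sum.inl a) = _
    by_cases ha : a = j
    · subst ha
      rw [Pi.single_eq_same, Pi.single_eq_same]
    · rw [Pi.single_eq_of_ne ha, Pi.single_eq_of_ne (fun h => ha (Sum.inl.inj h))]
  rw [h2, Matrix.mulVec_single_one] at h1
  have h3 : m i j = f (Pi.single (Sum.inl j) 1) (Sum.inl i) := h1.symm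
  rw [h3]
  exact hf.deRham _ (Pool.Agent.Helper7.single_deRham X _) _

theorem AnR_per {f : Module.End ℂ X.H1} (hf : X.IsEnd f) {m : Matrix (Fin X.g) (Fin X.g) ℂ}
    (h : AnR_Rep X f m) (z : Fin X.g → ℂ) : f (X.period z) = X.period (m.mulVec z) := by
  have h1 := VR_map X f hf.betti (period_VR X z)
  rw [← VR_period X h1, h, zz_period]

theorem AnR_ext {f f' : Module.End ℂ X.H1} (hf : X.IsEnd f) (hf' : X.IsEnd f')
    {m : Matrix (Fin X.g) (Fin X.g) ℂ} (h : AnR_Rep X f m) (h' : AnR_Rep X f' m) (v : X.H1) :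
    f v = f' v := by
  have key : ∀ a ∈ VR X, f a = f' a := by
    intro a ha
    rw [← VR_period X ha, AnR_per hf h, AnR_per hf' h']
  obtain ⟨a, ha, b, hb, rfl⟩ := exists_decomp X v
  rw [map_add, map_add, map_smul, map_smul, key a ha, key b hb]

/-- adjoint operators -/
theorem AnR_adj {f f' : Module.End ℂ X.H1} (hf : X.IsEnd f) (hf' : X.IsEnd f')
    {m m' : Matrix (Fin X.g) (Fin X.g) ℂ} (h : AnR_Rep X f m) (h' : AnR_Rep X f' m') :
    (∀ u v, X.pol (f u) v = X.pol u (f' v)) ↔
      ∀ z w, hermForm X.H (m.mulVec z) w = hermForm X.H z (m'.mulVec w) := by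
  constructor
  · intro hp
    have him : ∀ z w, (hermForm X.H (m.mulVec z) w).im = (hermForm X.H z (m'.mulVec w)).im := by
      intro z w
      have h1 := hp (X.period z) (X.period w)
      rw [AnR_per hf h, AnR_per hf' h'] at h1
      have h2 := (polForm_period X (m.mulVec z) w).symm.trans
        (h1.trans (polForm_period X z (m'.mulVec w)))
      have h3 := mul_left_cancel₀ Complex.two_pi_I_ne_zero h2
      exact_mod_cast h3
    intro z w
    apply Complex.ext
    · have h1 := him z (Complex.I • w)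
      rw [Matrix.mulVec_smul, Pool.Agent.Helper7.hermForm_smul_right,
        Pool.Agent.Helper7.hermForm_smul_right, Complex.conj_I] at h1
      simpa using h1
    · exact him z w
  · intro hh
    have key : ∀ a ∈ VR X, ∀ b ∈ VR X, X.polForm (f a) b = X.polForm a (f' b) := by
      intro a ha b hb
      rw [← VR_period X ha, ← VR_period X hb, AnR_per hf h, AnR_per hf' h', polForm_period,
        polForm_period, hh]
    intro u v
    show X.polForm (f u) v = X.polForm u (f' v)
    obtain ⟨a, ha, b, hb, rfl⟩ := exists_decomp X u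
    obtain ⟨a', ha', b', hb', rfl⟩ := exists_decomp X v
    simp only [map_add, map_smul, LinearMap.add_apply, LinearMap.smul_apply, key a ha a' ha',
      key a ha b' hb', key b hb a' ha', key b hb b' hb']

variable (X)

/-- the analytic representation of the endomorphism algebra -/
noncomputable def AnR_A : Subalgebra ℚ (Matrix (Fin X.g) (Fin X.g) ℂ) where
  carrier := {m | ∃ f ∈ DD (pData X), AnR_Rep X f m}
  mul_mem' := by
    rintro m m' ⟨f, hf, h⟩ ⟨f', hf', h'⟩
    refine ⟨f * f', (DD (pData X)).mul_mem hf hf', fun v => ?_⟩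
    rw [Module.End.mul_apply, h, h', Matrix.mulVec_mulVec]
  add_mem' := by
    rintro m m' ⟨f, hf, h⟩ ⟨f', hf', h'⟩
    refine ⟨f + f', (DD (pData X)).add_mem hf hf', fun v => ?_⟩
    rw [LinearMap.add_apply, map_add, h, h', Matrix.add_mulVec]
  algebraMap_mem' := by
    intro q
    refine ⟨algebraMap ℚ _ q, (DD (pData X)).algebraMap_mem q, fun v => ?_⟩
    rw [Algebra.algebraMap_eq_smul_one, Algebra.algebraMap_eq_smul_one, LinearMap.smul_apply,
      Module.End.one_apply, Matrix.smul_mulVec, Matrix.one_mulVec]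
    rfl

theorem AnR_mem (m : Matrix (Fin X.g) (Fin X.g) ℂ) :
    m ∈ AnR_A X ↔ ∃ f : Module.End ℂ X.H1, X.IsEnd f ∧ AnR_Rep X f m := by
  constructor
  · rintro ⟨f, hf, h⟩
    exact ⟨f, isEnd_of_isDRB X f hf, h⟩
  · rintro ⟨f, hf, h⟩
    exact ⟨f, isDRB_of_isEnd X f hf, h⟩

/-- the rational structure -/
noncomputable def AnR_W : Submodule ℚ (Fin X.g → ℂ) :=
  X.betti.comap (periodHom X).toRatLinearMap

theorem AnR_memW (z : Fin X.g → ℂ) : z ∈ AnR_W X ↔ X.IsBetti (X.period z) :=
  (isBetti_iff X _).symm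

theorem AnR_W_iff (z : Fin X.g → ℂ) : z ∈ AnR_W X ↔ ∃ n : ℕ, n ≠ 0 ∧ (n : ℤ) • z ∈ X.Λ := by
  rw [AnR_memW]
  constructor
  · rintro ⟨N, hN, l, hl, h⟩
    refine ⟨N, hN, ?_⟩
    have h1 := congrArg X.zz h
    rw [map_smul, zz_period, zz_period] at h1
    have h2 : ((N : ℤ) • z : Fin X.g → ℂ) = l := by
      rw [← h1]
      funext j
      simp
    rw [h2]
    exact hl
  · rintro ⟨n, hn, h⟩
    refine ⟨n, hn, _, h, ?_⟩
    have h1 : X.period ((n : ℤ) • z) = (n : ℤ) • X.period z := map_zsmul (periodHom X) _ _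
    rw [h1]
    funext j
    simp

theorem AnR_basis : ∃ b : Basis (Fin X.g ⊕ Fin X.g) ℚ (AnR_W X),
    LinearIndependent ℝ fun i => (b i : Fin X.g → ℂ) := by
  classical
  have := X.lattice.discrete
  have : IsZLattice ℝ X.Λ := ⟨X.lattice.spans⟩
  let b₀ := Module.Free.chooseBasis ℤ X.Λ
  let bR : Basis _ ℝ (Fin X.g → ℂ) := b₀.ofZLatticeBasis ℝ X.Λ
  have hbR : ∀ i, bR i = b₀ i := fun i => b₀.ofZLatticeBasis_apply ℝ X.Λ i
  have hcard : Fintype.card (Module.Free.ChooseBasisIndex ℤ X.Λ) =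
      Fintype.card (Fin X.g ⊕ Fin X.g) := by
    have h1 := Module.finrank_eq_card_basis bR
    rw [← h1]
    have h2 : finrank ℝ (Fin X.g → ℂ) = 2 * X.g := by
      rw [Module.finrank_pi_fintype]
      simp [Complex.finrank_real_complex, mul_comm]
    rw [h2]
    simp [two_mul]
  have hmem : ∀ i, (b₀ i : Fin X.g → ℂ) ∈ AnR_W X := by
    intro i
    rw [AnR_W_iff]
    refine ⟨1, one_ne_zero, ?_⟩
    rw [Nat.cast_one, one_smul]
    exact (b₀ i).2
  have hliR : LinearIndependent ℝ fun i => (b₀ i : Fin X.g → ℂ) := by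
    have h1 : (fun i => (b₀ i : Fin X.g → ℂ)) = bR := funext fun i => (hbR i).symm
    rw [h1]
    exact bR.linearIndependent
  have hliQ : LinearIndependent ℚ fun i => (⟨b₀ i, hmem i⟩ : AnR_W X) := by
    apply LinearIndependent.of_comp (AnR_W X).subtype
    exact hliR.restrict_scalars (by
      intro a b h
      simpa using h)
  have hspan : ⊤ ≤ Submodule.span ℚ (Set.range fun i => (⟨b₀ i, hmem i⟩ : AnR_W X)) := by
    rintro ⟨w, hw⟩ -
    obtain ⟨n, hn, hnw⟩ := (AnR_W_iff X w).1 hw
    obtain ⟨c, h2⟩ : ∃ c : Module.Free.ChooseBasisIndex ℤ X.Λ → ℤ,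
        (n : ℤ) • w = ∑ i, c i • (b₀ i : Fin X.g → ℂ) := by
      refine ⟨fun i => b₀.repr ⟨_, hnw⟩ i, ?_⟩
      have h5 := congrArg (X.Λ.subtype) (b₀.sum_repr ⟨_, hnw⟩).symm
      rw [map_sum] at h5
      simp only [map_zsmul] at h5
      exact h5
    have h3 : (⟨w, hw⟩ : AnR_W X) =
        ∑ i, ((c i : ℚ) / n) • (⟨b₀ i, hmem i⟩ : AnR_W X) := by
      apply Subtype.ext
      have hn' : (n : ℂ) ≠ 0 := Nat.cast_ne_zero.mpr hn
      rw [Submodule.coe_sum]
      funext j
      have h4 := congrFun h2 j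
      rw [Finset.sum_apply] at h4 ⊢
      simp only [Pi.smul_apply, zsmul_eq_mul, Int.cast_natCast] at h4
      apply mul_left_cancel₀ hn'
      show (n : ℂ) * w j = _
      rw [h4, Finset.mul_sum]
      refine Finset.sum_congr rfl fun i _ => ?_
      rw [Submodule.coe_smul, Pi.smul_apply, Algebra.smul_def, eq_ratCast]
      push_cast
      field_simp
    rw [h3]
    exact Submodule.sum_mem _ fun i _ => Submodule.smul_mem _ _ (Submodule.subset_span ⟨i, rfl⟩)
  let e : Module.Free.ChooseBasisIndex ℤ X.Λ ≃ Fin X.g ⊕ Fin X.g := Fintype.equivOfCardEq hcard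
  refine ⟨(Basis.mk hliQ hspan).reindex e, ?_⟩
  have h1 : (fun i => (((Basis.mk hliQ hspan).reindex e i : AnR_W X) : Fin X.g → ℂ)) =
      (fun i => (b₀ i : Fin X.g → ℂ)) ∘ e.symm := by
    funext i
    rw [Basis.reindex_apply, Basis.mk_apply]
    rfl
  rw [h1]
  exact hliR.comp _ e.symm.injective

end

theorem thm_AnR : St_AnR := by
  intro X p d J hJ
  obtain ⟨Jz, hJz⟩ := AnR_ex J hJ.endo
  have hJA : Jz ∈ AnR_A X := (AnR_mem X Jz).2 ⟨J, hJ.endo, hJz⟩
  refine ⟨AnR_A X, AnR_W X, Jz, ?_, AnR_W_iff X, hJz, ?_⟩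
  · refine ⟨hJ.prime, hJ.two, hJ.dim, hJ.pos, X.appellHumbert.herm, X.appellHumbert.pos, ?_, hJA,
      ?_, ?_, ?_, ?_, ?_, ?_, ?_, ?_, AnR_basis X, ?_⟩
    · -- alg
      intro m hm
      obtain ⟨f, hf, h⟩ := (AnR_mem X m).1 hm
      exact AnR_alg hf h
    · -- J2
      have h1 : AnR_Rep X (J * J) (Jz * Jz) := by
        intro v
        rw [Module.End.mul_apply, hJz, hJz, Matrix.mulVec_mulVec]
      have h2 : AnR_Rep X (J * J) (-((d : ℂ) • (1 : Matrix (Fin X.g) (Fin X.g) ℂ))) := by
        intro v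
        rw [Module.End.mul_apply, hJ.sq, map_smul, Matrix.neg_mulVec, Matrix.smul_mulVec,
          Matrix.one_mulVec, neg_smul]
      exact AnR_uniq h1 h2
    · -- Jadj
      have hneg : X.IsEnd ((-J : Module.End ℂ X.H1)) := by
        apply isEnd_of_isDRB
        exact (DD (pData X)).neg_mem (isDRB_of_isEnd X J hJ.endo)
      have h1 : AnR_Rep X (-J) (-Jz) := by
        intro v
        rw [LinearMap.neg_apply, map_neg, hJz, Matrix.neg_mulVec]
      have h2 := (AnR_adj hJ.endo hneg hJz h1).1 (fun u v => by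
        rw [hJ.adj, LinearMap.neg_apply]
        show - X.polForm u (J v) = X.polForm u (-(J v))
        rw [map_neg])
      intro z w
      rw [h2, Matrix.neg_mulVec]
      have h3 : -(Jz.mulVec w) = (-1 : ℂ) • Jz.mulVec w := by rw [neg_smul, one_smul]
      rw [h3, Pool.Agent.Helper7.hermForm_smul_right]
      simp
    · -- Jc
      intro m hm
      obtain ⟨f, hf, h⟩ := (AnR_mem X m).1 hm
      have h1 : AnR_Rep X (f * J) (m * Jz) := by
        intro v
        rw [Module.End.mul_apply, h, hJz, Matrix.mulVec_mulVec]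
      have h2 : AnR_Rep X (f * J) (Jz * m) := by
        intro v
        rw [Module.End.mul_apply, hJ.comm f hf, hJz, h, Matrix.mulVec_mulVec]
      exact AnR_uniq h1 h2
    · -- adj
      intro m hm
      obtain ⟨f, hf, h⟩ := (AnR_mem X m).1 hm
      obtain ⟨f', hf', hadj⟩ := exists_adj (pData X) Complex.two_pi_I_ne_zero f
        (isDRB_of_isEnd X f hf)
      have hE := isEnd_of_isDRB X f' hf'
      obtain ⟨m', hm'⟩ := AnR_ex f' hE
      exact ⟨m', (AnR_mem X m').2 ⟨f', hE, hm'⟩, (AnR_adj hf hE h hm').1 hadj⟩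
    · -- cen
      intro m hm hc
      obtain ⟨f, hf, h⟩ := (AnR_mem X m).1 hm
      obtain ⟨a, b, hab⟩ := hJ.center f hf (fun k hk v => by
        let kl : Module.End ℂ X.H1 := hk.linear.mk' k
        have hkl : X.IsEnd kl := hk
        obtain ⟨m', hm'⟩ := AnR_ex kl hkl
        have hA : m' ∈ AnR_A X := (AnR_mem X m').2 ⟨kl, hkl, hm'⟩
        have h1 : AnR_Rep X (f * kl) (m * m') := by
          intro v
          rw [Module.End.mul_apply, h, hm', Matrix.mulVec_mulVec]
        have h2 : AnR_Rep X (kl * f) (m * m') := by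
          intro v
          rw [Module.End.mul_apply, hm', h, Matrix.mulVec_mulVec, hc m' hA]
        have e1 : X.IsEnd (f * kl : Module.End ℂ X.H1) := isEnd_of_isDRB X _
          ((DD (pData X)).mul_mem (isDRB_of_isEnd X f hf) (isDRB_of_isEnd X kl hkl))
        have e2 : X.IsEnd (kl * f : Module.End ℂ X.H1) := isEnd_of_isDRB X _
          ((DD (pData X)).mul_mem (isDRB_of_isEnd X kl hkl) (isDRB_of_isEnd X f hf))
        exact AnR_ext e1 e2 h1 h2 v)
      refine ⟨a, b, AnR_uniq h fun v => ?_⟩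
      rw [hab, map_add, map_smul, map_smul, hJz, Matrix.add_mulVec, Matrix.smul_mulVec,
        Matrix.smul_mulVec, Matrix.one_mulVec]
    · -- div
      intro m hm hm0 hdet
      obtain ⟨f, hf, h⟩ := (AnR_mem X m).1 hm
      have hne : ∃ v, f v ≠ 0 := by
        by_contra hall
        push Not at hall
        apply hm0
        refine AnR_uniq h fun v => ?_
        rw [hall, map_zero, Matrix.zero_mulVec]
      have hinj := hJ.inj f hf hne
      obtain ⟨z, hz, hmz⟩ := Matrix.exists_mulVec_eq_zero_iff.mpr hdet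
      have h1 := AnR_per hf h z
      rw [hmz, Pool.Agent.GPC.period_zero] at h1
      have h2 : X.period z = 0 := hinj (by rw [h1, map_zero])
      apply hz
      rw [← zz_period X z, h2, map_zero]
    · -- stab
      intro m hm w hw
      obtain ⟨f, hf, h⟩ := (AnR_mem X m).1 hm
      rw [AnR_memW] at hw ⊢
      rw [← AnR_per hf h]
      exact hf.betti _ hw
    · -- trans
      intro w hw hw0 w' hw'
      rw [AnR_memW] at hw hw'
      have hne : X.period w ≠ 0 := by
        intro h0
        apply hw0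
        rw [← zz_period X w, h0, map_zero]
      obtain ⟨k, hk, hkw⟩ := hJ.trans _ _ hw hne hw'
      let kl : Module.End ℂ X.H1 := hk.linear.mk' k
      have hkl : X.IsEnd kl := hk
      obtain ⟨m, hm⟩ := AnR_ex kl hkl
      refine ⟨m, (AnR_mem X m).2 ⟨kl, hkl, hm⟩, ?_⟩
      have h1 := hm (X.period w)
      rw [zz_period] at h1
      rw [← h1]
      show X.zz (k (X.period w)) = w'
      rw [hkw, zz_period]
    · -- rat
      intro w hw w' hw'
      obtain ⟨q, hq⟩ := polForm_rat X (X.period w) (X.period w') hw hw'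
      rw [polForm_period] at hq
      refine ⟨q, ?_⟩
      have h1 := mul_left_cancel₀ Complex.two_pi_I_ne_zero hq
      exact_mod_cast h1
  · -- adjoint pairs
    intro m hm m' hm' hadj
    obtain ⟨f, hf, h⟩ := (AnR_mem X m).1 hm
    obtain ⟨f', hf', h'⟩ := (AnR_mem X m').1 hm'
    exact ⟨f, f', hf, hf', (AnR_adj hf hf' h h').2 hadj, h, h'⟩

end PST
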