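import Pool.Agent.PST.StH

/-!
# PST [C2g]: linear algebra of the symmetric relation
-/

set_option autoImplicit false

namespace PST

open scoped ComplexConjugate
open GAM (H E F pd pdl PLat IsTh OddTor IsDel Gro IsLat Pre QD qd jac HasExp)

/-- an additive map on the lattice extends to a real linear map -/
private theorem C2g_ext {ι : Type} [Fintype ι] [DecidableEq ι] (L : Submodule ℤ (ι → ℂ))
    (b : Module.Basis (ι ⊕ ι) ℝ (ι → ℂ))
    (hb : L = Submodule.span ℤ (Set.range b)) (f : (ι → ℂ) → ι → ℂ)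
    (hf : ∀ l ∈ L, ∀ m ∈ L, f (l + m) = f l + f m) :
    ∃ T : (ι → ℂ) →ₗ[ℝ] (ι → ℂ), ∀ l ∈ L, T l = f l := by
  classical
  let g : L →+ (ι → ℂ) := AddMonoidHom.mk' (fun l => f l) (fun l m => hf l l.2 m m.2)
  have hz : ∀ (n : ℤ) (l : ι → ℂ), l ∈ L → f (n • l) = n • f l := by
    intro n l hl
    exact map_zsmul g n ⟨l, hl⟩
  have h0 : f 0 = 0 := map_zero g
  refine ⟨b.constr ℝ (fun i => f (b i)), fun l hl => ?_⟩
  have hl' : l ∈ Submodule.span ℤ (Set.range b) := by rw [← hb]; exact hl
  induction hl' using Submodule.span_induction with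
  | mem x hx => obtain ⟨i, rfl⟩ := hx; exact b.constr_basis ℝ _ i
  | zero => rw [map_zero, h0]
  | add x y hx hy h1 h2 =>
    rw [← hb] at hx hy
    rw [map_add, h1 hx, h2 hy, hf x hx y hy]
  | smul n x hx h1 =>
    rw [← hb] at hx
    rw [hz n x hx, map_zsmul, h1 hx]

/-- extension of a property from a basis -/
private theorem C2g_span {ι : Type} [Fintype ι] (b : Module.Basis (ι ⊕ ι) ℝ (ι → ℂ))
    (p : (ι → ℂ) → Prop) (h1 : ∀ i, p (b i)) (h0 : p 0) (h2 : ∀ x y, p x → p y → p (x + y))
    (h3 : ∀ (r : ℝ) x, p x → p (r • x)) (v : ι → ℂ) : p v := by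
  have hv : v ∈ Submodule.span ℝ (Set.range b) := by
    rw [b.span_eq]
    exact Submodule.mem_top
  induction hv using Submodule.span_induction with
  | mem x hx => obtain ⟨i, rfl⟩ := hx; exact h1 i
  | zero => exact h0
  | add x y _ _ hx hy => exact h2 x y hx hy
  | smul r x _ hx => exact h3 r x hx

/-- extension of a bilinear relation from a basis -/
private theorem C2g_bil {ι : Type} [Fintype ι] (b : Module.Basis (ι ⊕ ι) ℝ (ι → ℂ))
    (B D : (ι → ℂ) →ₗ[ℝ] (ι → ℂ))
    (h : ∀ i k, ∑ j, B (b i) j * b k j + Real.pi * ∑ j, D (b i) j * conj (b k j) =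
      ∑ j, B (b k) j * b i j + Real.pi * ∑ j, D (b k) j * conj (b i j)) (v w : ι → ℂ) :
    ∑ j, B v j * w j + Real.pi * ∑ j, D v j * conj (w j) =
      ∑ j, B w j * v j + Real.pi * ∑ j, D w j * conj (v j) := by
  have hrel1 : ∀ v k, ∑ j, B v j * b k j + Real.pi * ∑ j, D v j * conj (b k j) =
      ∑ j, B (b k) j * v j + Real.pi * ∑ j, D (b k) j * conj (v j) := by
    intro v k
    refine C2g_span b (fun v => ∑ j, B v j * b k j + Real.pi * ∑ j, D v j * conj (b k j) =
      ∑ j, B (b k) j * v j + Real.pi * ∑ j, D (b k) j * conj (v j)) (fun i => h i k)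
      ?_ ?_ ?_ v
    · simp
    · intro x y hx hy
      simp only [map_add, Pi.add_apply, add_mul, mul_add, Finset.sum_add_distrib] at hx hy ⊢
      linear_combination hx + hy
    · intro r x hx
      simp only [map_smul, Pi.smul_apply, Complex.real_smul, map_mul, Complex.conj_ofReal]
      have e1 : ∑ j, (r : ℂ) * B x j * b k j = r * ∑ j, B x j * b k j := by
        rw [Finset.mul_sum]; exact Finset.sum_congr rfl fun j _ => by ring
      have e2 : ∑ j, (r : ℂ) * D x j * conj (b k j) = r * ∑ j, D x j * conj (b k j) := by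
        rw [Finset.mul_sum]; exact Finset.sum_congr rfl fun j _ => by ring
      have e3 : ∑ j, B (b k) j * ((r : ℂ) * x j) = r * ∑ j, B (b k) j * x j := by
        rw [Finset.mul_sum]; exact Finset.sum_congr rfl fun j _ => by ring
      have e4 : ∑ j, D (b k) j * ((r : ℂ) * conj (x j)) = r * ∑ j, D (b k) j * conj (x j) := by
        rw [Finset.mul_sum]; exact Finset.sum_congr rfl fun j _ => by ring
      rw [e1, e2, e3, e4]
      linear_combination (r : ℂ) * hx
  refine C2g_span b (fun w => ∑ j, B v j * w j + Real.pi * ∑ j, D v j * conj (w j) =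
    ∑ j, B w j * v j + Real.pi * ∑ j, D w j * conj (v j)) (fun k => hrel1 v k)
    ?_ ?_ ?_ w
  · simp
  · intro x y hx hy
    simp only [map_add, Pi.add_apply, add_mul, mul_add, Finset.sum_add_distrib] at hx hy ⊢
    linear_combination hx + hy
  · intro r x hx
    simp only [map_smul, Pi.smul_apply, Complex.real_smul, map_mul, Complex.conj_ofReal]
    have e1 : ∑ j, (r : ℂ) * B x j * v j = r * ∑ j, B x j * v j := by
      rw [Finset.mul_sum]; exact Finset.sum_congr rfl fun j _ => by ring
    have e2 : ∑ j, (r : ℂ) * D x j * conj (v j) = r * ∑ j, D x j * conj (v j) := by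
      rw [Finset.mul_sum]; exact Finset.sum_congr rfl fun j _ => by ring
    have e3 : ∑ j, B v j * ((r : ℂ) * x j) = r * ∑ j, B v j * x j := by
      rw [Finset.mul_sum]; exact Finset.sum_congr rfl fun j _ => by ring
    have e4 : ∑ j, D v j * ((r : ℂ) * conj (x j)) = r * ∑ j, D v j * conj (x j) := by
      rw [Finset.mul_sum]; exact Finset.sum_congr rfl fun j _ => by ring
    rw [e1, e2, e3, e4]
    linear_combination (r : ℂ) * hx

theorem thm_C2g : St_C2g := by
  intro ι _ _ L B ld β hL hadd hld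
  obtain ⟨b, hb⟩ := hL
  have hbL : ∀ i, b i ∈ L := fun i => by rw [hb]; exact Submodule.subset_span ⟨i, rfl⟩
  obtain ⟨T, hT⟩ := C2g_ext L b hb β (fun l hl m hm => (hadd l hl m hm).2.1)
  set D : (ι → ℂ) →ₗ[ℝ] (ι → ℂ) := B.mulVecLin.restrictScalars ℝ with hD
  have hDv : ∀ v, D v = B.mulVec v := fun v => rfl
  have hrel := C2g_bil b T D (fun i k => by
    have h := (hadd _ (hbL i) _ (hbL k)).2.2
    rw [← hT _ (hbL i), ← hT _ (hbL k), hld _ (hbL i), hld _ (hbL k)] at h
    exact h)
  have sgl : ∀ (u : ι → ℂ) (j : ι) (z : ℂ), ∑ i, u i * (Pi.single j z : ι → ℂ) i = u j * z := by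
    intro u j z
    rw [Finset.sum_eq_single j]
    · rw [Pi.single_eq_same]
    · intro i _ hi
      rw [Pi.single_eq_of_ne hi, mul_zero]
    · intro hk
      exact absurd (Finset.mem_univ j) hk
  have sglc : ∀ (u : ι → ℂ) (j : ι) (z : ℂ), ∑ i, u i * conj ((Pi.single j z : ι → ℂ) i) =
      u j * conj z := by
    intro u j z
    rw [Finset.sum_eq_single j]
    · rw [Pi.single_eq_same]
    · intro i _ hi
      rw [Pi.single_eq_of_ne hi, map_zero, mul_zero]
    · intro hk
      exact absurd (Finset.mem_univ j) hk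
  have hDs : ∀ (j : ι) (z : ℂ) (i : ι), D (Pi.single j z) i = B i j * z := by
    intro j z i
    rw [hDv]
    exact sgl (fun k => B i k) j z
  let C : Matrix ι ι ℂ := fun j i =>
    (T (Pi.single j 1) i - Complex.I * T (Pi.single j Complex.I) i) / 2
  have hII : Complex.I * Complex.I = -1 := Complex.I_mul_I
  have hTv : ∀ v j, T v j = ∑ i, C j i * v i + Real.pi * ∑ i, B i j * conj (v i) := by
    intro v j
    have h1 := hrel v (Pi.single j 1)
    have h2 := hrel v (Pi.single j Complex.I)
    rw [sgl, sglc] at h1 h2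
    rw [map_one] at h1
    rw [Complex.conj_I] at h2
    simp only [hDs] at h1 h2
    have e : ∑ i, C j i * v i = (∑ i, T (Pi.single j 1) i * v i -
        Complex.I * ∑ i, T (Pi.single j Complex.I) i * v i) / 2 := by
      rw [Finset.mul_sum, ← Finset.sum_sub_distrib, Finset.sum_div]
      refine Finset.sum_congr rfl fun i _ => ?_
      simp only [C]
      ring
    have e1 : ∑ i, B i j * 1 * conj (v i) = ∑ i, B i j * conj (v i) :=
      Finset.sum_congr rfl fun i _ => by rw [mul_one]
    have e2 : ∑ i, B i j * Complex.I * conj (v i) = Complex.I * ∑ i, B i j * conj (v i) := by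
      rw [Finset.mul_sum]
      exact Finset.sum_congr rfl fun i _ => by ring
    rw [e1] at h1
    rw [e2] at h2
    rw [e]
    linear_combination (1 / 2 : ℂ) * h1 - (1 / 2 : ℂ) * Complex.I * h2 +
      ((1 / 2 : ℂ) * T v j - (1 / 2 : ℂ) * Real.pi * D v j -
        (1 / 2 : ℂ) * Real.pi * ∑ i, B i j * conj (v i)) * hII
  refine ⟨C, ?_, fun l hl j => ?_⟩
  · ext i j
    rw [Matrix.transpose_apply]
    have h1 := hrel (Pi.single i 1) (Pi.single j 1)
    rw [sgl, sglc, sgl, sglc, hTv, hTv, sgl, sglc, sgl, sglc, hDs, hDs] at h1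
    simp only [map_one, mul_one] at h1
    linear_combination h1
  · rw [← hT l hl, hTv]

end PST
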