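import Pool.Agent.PST.StN

/-!
# PST, module CMF: the CM field
-/

set_option autoImplicit false

namespace PST

open scoped ComplexConjugate
open GAM (H E F pd pdl PLat IsTh OddTor IsDel Gro IsLat Pre QD qd jac HasExp CMF CMT IsExp IsCM)
open Pool.Agent.GPC (AbVar hermForm bilForm)
open Module

/-! ### subfields of finite dimensional algebras -/

/-- the degree of a subfield divides the dimension -/
private theorem CMF_dvd {K B : Type} [Field K] [CharZero K] [Ring B] [Algebra ℚ B]
    (j : K →+* B) : finrank ℚ K ∣ finrank ℚ B := by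
  letI : Module K B := Module.compHom B j
  haveI : IsScalarTower ℚ K B := ⟨fun q k b => by
    have h1 : j (q • k) = q • j k := map_smul j.toRatAlgHom q k
    show j (q • k) * b = q • (j k * b)
    rw [h1, smul_mul_assoc]⟩
  exact ⟨finrank K B, (Module.finrank_mul_finrank ℚ K B).symm⟩

/-- the field generated by two commuting elements -/
private theorem CMF_fld {B : Type} [Ring B] [IsDomain B] [Algebra ℚ B] [FiniteDimensional ℚ B]
    (x y : B) (h : x * y = y * x) : ∃ (K : Type) (_ : Field K) (j : K →+* B),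
    Set.range j = (Algebra.adjoin ℚ {x, y} : Set B) := by
  letI iC : CommRing (Algebra.adjoin ℚ ({x, y} : Set B)) :=
    Algebra.adjoinCommRingOfComm ℚ (by
      rintro a (rfl | rfl) b (rfl | rfl)
      · rfl
      · exact h
      · exact h.symm
      · rfl)
  haveI : Nontrivial (Algebra.adjoin ℚ ({x, y} : Set B)) := inferInstance
  haveI : NoZeroDivisors (Algebra.adjoin ℚ ({x, y} : Set B)) :=
    ⟨fun {a b} hab => by
      have h1 : (a : B) * (b : B) = 0 := congrArg Subtype.val hab
      rcases mul_eq_zero.1 h1 with h2 | h2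
      · exact Or.inl (Subtype.ext h2)
      · exact Or.inr (Subtype.ext h2)⟩
  haveI : IsDomain (Algebra.adjoin ℚ ({x, y} : Set B)) := NoZeroDivisors.to_isDomain _
  haveI : FiniteDimensional ℚ (Algebra.adjoin ℚ ({x, y} : Set B)) :=
    FiniteDimensional.finiteDimensional_subalgebra _
  letI iF : Field (Algebra.adjoin ℚ ({x, y} : Set B)) := fieldOfFiniteDimensional ℚ _
  refine ⟨Algebra.adjoin ℚ ({x, y} : Set B), iF,
    { toFun := Subtype.val
      map_one' := rfl
      map_mul' := fun _ _ => rfl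
      map_zero' := rfl
      map_add' := fun _ _ => rfl }, ?_⟩
  exact Subtype.range_coe

/-- the rational scalar matrices -/
private theorem CMF_algMap {n : Type} [Fintype n] [DecidableEq n] (q : ℚ) :
    algebraMap ℚ (Matrix n n ℂ) q = (q : ℂ) • 1 := by
  ext i k
  rw [Matrix.algebraMap_matrix_apply, Matrix.smul_apply, Matrix.one_apply]
  split_ifs
  · rw [smul_eq_mul, mul_one]
    rfl
  · rw [smul_zero]

/-- arithmetic -/
private theorem CMF_arith {p m : ℕ} (hp : p.Prime) (h1 : m ∣ 2 * p ^ 2) (h2 : 2 * p ≤ m)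
    (h3 : Even m) (h4 : m ≠ 2 * p ^ 2) : m = 2 * p := by
  obtain ⟨m', rfl⟩ := h3.two_dvd
  have h5 : m' ∣ p ^ 2 := Nat.dvd_of_mul_dvd_mul_left two_pos h1
  obtain ⟨k, hk, rfl⟩ := (Nat.dvd_prime_pow hp).1 h5
  have hp1 := hp.one_lt
  interval_cases k
  · rw [pow_zero] at h2
    omega
  · rw [pow_one]
  · exact absurd rfl h4

/-- an imaginary quadratic element gives an even degree -/
private theorem CMF_even {K : Type} [Field K] [CharZero K] [FiniteDimensional ℚ K] (J : K) (d : ℚ)
    (hd : 0 < d) (hJ : J * J = algebraMap ℚ K (-d)) : Even (finrank ℚ K) := by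
  by_contra h
  rw [Nat.not_even_iff_odd] at h
  have h1 : Algebra.norm ℚ J * Algebra.norm ℚ J = (-d) ^ finrank ℚ K := by
    rw [← map_mul, hJ, Algebra.norm_algebraMap]
  have h2 : (-d) ^ finrank ℚ K < 0 := h.pow_neg (neg_lt_zero.2 hd)
  rw [← h1] at h2
  exact absurd (mul_self_nonneg (Algebra.norm ℚ J)) (not_le.2 h2)

section

variable {n : Type} [Fintype n] [DecidableEq n]

/-- a commutative set of matrices does not span the matrix algebra -/
private theorem CMF_span (S : Set (Matrix n n ℂ)) (hS : Submodule.span ℂ S = ⊤)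
    (hc : ∀ x ∈ S, ∀ y ∈ S, x * y = y * x) : Subsingleton n := by
  have h1 : ∀ (x : Matrix n n ℂ), x ∈ S → ∀ y : Matrix n n ℂ, x * y = y * x := by
    intro x hx y
    have hy : y ∈ Submodule.span ℂ S := by
      rw [hS]
      exact Submodule.mem_top
    induction hy using Submodule.span_induction with
    | mem y hy => exact hc x hx y hy
    | zero => rw [mul_zero, zero_mul]
    | add a b _ _ ha hb => rw [mul_add, add_mul, ha, hb]
    | smul a b _ hb => rw [Matrix.mul_smul, Matrix.smul_mul, hb]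
  have h2 : ∀ x y : Matrix n n ℂ, x * y = y * x := by
    intro x y
    have hx : x ∈ Submodule.span ℂ S := by
      rw [hS]
      exact Submodule.mem_top
    induction hx using Submodule.span_induction with
    | mem x hx => exact h1 x hx y
    | zero => rw [mul_zero, zero_mul]
    | add a b _ _ ha hb => rw [mul_add, add_mul, ha, hb]
    | smul a b _ hb => rw [Matrix.mul_smul, Matrix.smul_mul, hb]
  refine ⟨fun i j => ?_⟩
  by_contra hij
  have h3 := congrFun (congrFun (h2 (Matrix.single i j 1) (Matrix.single j i 1)) i) i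
  rw [Matrix.single_mul_single_same, Matrix.single_mul_single_same, Matrix.single_apply_same,
    mul_one, Matrix.single_apply_of_ne] at h3
  · exact one_ne_zero h3
  · exact fun h => hij h.1.symm

/-- matrices which commute with a diagonal matrix with distinct entries -/
private theorem CMF_diag {t : n → ℝ} (ht : Function.Injective t) {X : Matrix n n ℂ}
    (h : X * (Matrix.diagonal fun k => (t k : ℂ)) = (Matrix.diagonal fun k => (t k : ℂ)) * X) :
    ∀ i j, i ≠ j → X i j = 0 := by
  intro i j hij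
  have h1 := congrFun (congrFun h i) j
  rw [Matrix.mul_diagonal, Matrix.diagonal_mul] at h1
  have h2 : X i j * ((t j : ℂ) - (t i : ℂ)) = 0 := by
    rw [mul_sub, h1, mul_comm (X i j) (t i : ℂ), sub_self]
  rcases mul_eq_zero.1 h2 with h3 | h3
  · exact h3
  · exfalso
    rw [sub_eq_zero] at h3
    exact hij (ht (by exact_mod_cast h3.symm))

/-- entrywise conjugation after a change of basis -/
private noncomputable def CMF_k (P x : Matrix n n ℂ) : Matrix n n ℂ :=
  P⁻¹ * (P * x * P⁻¹).map (starRingEnd ℂ) * P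

variable {P : Matrix n n ℂ}

private theorem CMF_k_mul (hP : IsUnit P.det) (x y : Matrix n n ℂ) :
    CMF_k P (x * y) = CMF_k P x * CMF_k P y := by
  have h1 : P * (x * y) * P⁻¹ = (P * x * P⁻¹) * (P * y * P⁻¹) := by
    calc P * (x * y) * P⁻¹ = P * x * 1 * y * P⁻¹ := by
          simp only [Matrix.mul_assoc, Matrix.one_mul]
      _ = P * x * (P⁻¹ * P) * y * P⁻¹ := by rw [Matrix.nonsing_inv_mul _ hP]
      _ = _ := by simp only [Matrix.mul_assoc]
  unfold CMF_k
  rw [h1, Matrix.map_mul]
  generalize (P * x * P⁻¹).map (starRingEnd ℂ) = A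
  generalize (P * y * P⁻¹).map (starRingEnd ℂ) = B
  calc P⁻¹ * (A * B) * P = P⁻¹ * A * 1 * B * P := by
        simp only [Matrix.mul_assoc, Matrix.one_mul]
    _ = P⁻¹ * A * (P * P⁻¹) * B * P := by rw [Matrix.mul_nonsing_inv _ hP]
    _ = _ := by simp only [Matrix.mul_assoc]

private theorem CMF_k_add (x y : Matrix n n ℂ) :
    CMF_k P (x + y) = CMF_k P x + CMF_k P y := by
  unfold CMF_k
  rw [Matrix.mul_add, Matrix.add_mul, Matrix.map_add _ (map_add _), Matrix.mul_add, Matrix.add_mul]

private theorem CMF_k_diag (hP : IsUnit P.det) {x : Matrix n n ℂ} {f : n → ℂ}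
    (h : P * x * P⁻¹ = Matrix.diagonal f) :
    P * CMF_k P x * P⁻¹ = Matrix.diagonal fun i => conj (f i) := by
  unfold CMF_k
  rw [h, Matrix.diagonal_map (map_zero _)]
  calc P * (P⁻¹ * (Matrix.diagonal fun i => conj (f i)) * P) * P⁻¹ =
      (P * P⁻¹) * (Matrix.diagonal fun i => conj (f i)) * (P * P⁻¹) := by
        simp only [Matrix.mul_assoc]
    _ = _ := by rw [Matrix.mul_nonsing_inv _ hP, Matrix.one_mul, Matrix.mul_one]

private theorem CMF_k_smul_one (hP : IsUnit P.det) (a : ℂ) :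
    CMF_k P (a • (1 : Matrix n n ℂ)) = (conj a) • 1 := by
  have h1 : P * (a • (1 : Matrix n n ℂ)) * P⁻¹ = a • 1 := by
    rw [Matrix.mul_smul, Matrix.mul_one, Matrix.smul_mul, Matrix.mul_nonsing_inv _ hP]
  have h2 : (a • (1 : Matrix n n ℂ)).map (starRingEnd ℂ) = (conj a) • (1 : Matrix n n ℂ) := by
    ext i j
    by_cases hij : i = j
    · subst hij
      simp
    · simp [Matrix.one_apply_ne hij]
  unfold CMF_k
  rw [h1, h2, Matrix.mul_smul, Matrix.mul_one, Matrix.smul_mul, Matrix.nonsing_inv_mul _ hP]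

end

private theorem CMF_zd {d : ℚ} (hd : 0 < d) : zd d ≠ 0 ∧ conj (zd d) = -zd d ∧
    zd d * zd d = -(d : ℂ) := by
  have h1 : (0 : ℝ) < Real.sqrt (d : ℝ) := Real.sqrt_pos.2 (by exact_mod_cast hd)
  refine ⟨?_, ?_, ?_⟩
  · unfold zd
    exact mul_ne_zero (by exact_mod_cast h1.ne') Complex.I_ne_zero
  · unfold zd
    rw [map_mul, Complex.conj_ofReal, Complex.conj_I]
    ring
  · unfold zd
    have h2 : Real.sqrt (d : ℝ) * Real.sqrt (d : ℝ) = d :=
      Real.mul_self_sqrt (by exact_mod_cast hd.le)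
    have h3 : ((Real.sqrt (d : ℝ) : ℝ) : ℂ) * ((Real.sqrt (d : ℝ) : ℝ) : ℂ) = (d : ℂ) := by
      rw [← Complex.ofReal_mul, h2]
      simp
    calc ((Real.sqrt (d : ℝ) : ℝ) : ℂ) * Complex.I * (((Real.sqrt (d : ℝ) : ℝ) : ℂ) * Complex.I) =
        ((Real.sqrt (d : ℝ) : ℝ) : ℂ) * ((Real.sqrt (d : ℝ) : ℝ) : ℂ) * (Complex.I * Complex.I) := by
          ring
      _ = _ := by
        rw [h3, Complex.I_mul_I]
        ring

theorem thm_CMF (_ : St_RBas) : St_CMF := by
  intro α β _ _ _ _ R X₀ d g P r t hD hC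
  obtain ⟨hz0, hzc, hz2⟩ := CMF_zd hD.pos
  have uP : IsUnit P.det := isUnit_iff_ne_zero.2 hC.det
  -- the algebra `R`
  haveI hne : Nonempty (α ⊕ β) := by
    rw [← Fintype.card_pos_iff, Fintype.card_sum]
    exact hD.prime.pos
  haveI : Nontrivial R := by
    refine ⟨0, 1, fun h => ?_⟩
    have h1 : (0 : Matrix (α ⊕ β) (α ⊕ β) ℂ) = 1 := congrArg Subtype.val h
    exact zero_ne_one h1
  haveI : NoZeroDivisors R := ⟨fun {a b} hab => by
    have h1 : (a : Matrix (α ⊕ β) (α ⊕ β) ℂ) * b = 0 := congrArg Subtype.val hab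
    by_contra hcon
    rw [not_or] at hcon
    have h2 : (a : Matrix (α ⊕ β) (α ⊕ β) ℂ).det ≠ 0 :=
      hD.div _ a.2 fun h => hcon.1 (Subtype.ext h)
    have h3 : (b : Matrix (α ⊕ β) (α ⊕ β) ℂ).det ≠ 0 :=
      hD.div _ b.2 fun h => hcon.2 (Subtype.ext h)
    have h4 := congrArg Matrix.det h1
    rw [Matrix.det_mul, Matrix.det_zero] at h4
    exact mul_ne_zero h2 h3 h4⟩
  haveI : IsDomain R := NoZeroDivisors.to_isDomain R
  have hp0 : 0 < Fintype.card α + Fintype.card β := hD.prime.pos
  haveI : FiniteDimensional ℚ R := by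
    refine Module.finite_of_finrank_pos ?_
    rw [hD.dim]
    positivity
  obtain ⟨K, iK, j₀, hj₀⟩ := CMF_fld (⟨r, hC.mem⟩ : R)
    (⟨zd d • (1 : Matrix (α ⊕ β) (α ⊕ β) ℂ), hD.jj⟩ : R) (by
      refine Subtype.ext ?_
      show r * (zd d • (1 : Matrix (α ⊕ β) (α ⊕ β) ℂ)) = (zd d • 1) * r
      rw [Matrix.mul_smul, Matrix.mul_one, Matrix.smul_mul, Matrix.one_mul])
  haveI : CharZero R := algebraRat.charZero R
  haveI : CharZero K := by
    refine ⟨fun a b hab => ?_⟩
    have h1 := congrArg j₀ hab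
    rw [map_natCast, map_natCast] at h1
    exact Nat.cast_injective h1
  haveI : FiniteDimensional ℚ K :=
    FiniteDimensional.of_injective (j₀.toRatAlgHom : K →ₐ[ℚ] R).toLinearMap j₀.injective
  haveI : NumberField K := ⟨⟩
  set ψ : K →+* Matrix (α ⊕ β) (α ⊕ β) ℂ := (R.val : R →+* Matrix (α ⊕ β) (α ⊕ β) ℂ).comp j₀
    with hψ
  have hψi : Function.Injective ψ := ψ.injective
  have hψR : ∀ x, ψ x ∈ R := fun x => (j₀ x).2
  obtain ⟨r', hr'⟩ : ∃ r', ψ r' = r := by
    have h1 : (⟨r, hC.mem⟩ : R) ∈ Set.range j₀ := by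
      rw [hj₀]
      exact Algebra.subset_adjoin (Or.inl rfl)
    obtain ⟨k, hk⟩ := h1
    exact ⟨k, congrArg Subtype.val hk⟩
  obtain ⟨J₀, hJ₀⟩ : ∃ J₀, ψ J₀ = zd d • 1 := by
    have h1 : (⟨zd d • (1 : Matrix (α ⊕ β) (α ⊕ β) ℂ), hD.jj⟩ : R) ∈ Set.range j₀ := by
      rw [hj₀]
      exact Algebra.subset_adjoin (Or.inr rfl)
    obtain ⟨k, hk⟩ := h1
    exact ⟨k, congrArg Subtype.val hk⟩
  -- diagonal form
  have hPr : P * r * P⁻¹ = Matrix.diagonal fun k => (t k : ℂ) := by
    rw [hC.rel, Matrix.mul_assoc, Matrix.mul_nonsing_inv _ uP, Matrix.mul_one]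
  have hconj : ∀ x y : Matrix (α ⊕ β) (α ⊕ β) ℂ,
      P * (x * y) * P⁻¹ = (P * x * P⁻¹) * (P * y * P⁻¹) := by
    intro x y
    calc P * (x * y) * P⁻¹ = P * x * 1 * y * P⁻¹ := by
          simp only [Matrix.mul_assoc, Matrix.one_mul]
      _ = P * x * (P⁻¹ * P) * y * P⁻¹ := by rw [Matrix.nonsing_inv_mul _ uP]
      _ = _ := by simp only [Matrix.mul_assoc]
  have hoff : ∀ x i k, i ≠ k → (P * ψ x * P⁻¹) i k = 0 := by
    intro x
    refine CMF_diag hC.inj ?_
    rw [← hPr, ← hconj, ← hconj, ← hr', ← map_mul, ← map_mul, mul_comm]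
  set χ : α ⊕ β → K →+* ℂ := fun s =>
    { toFun := fun x => (P * ψ x * P⁻¹) s s
      map_one' := by
        rw [map_one, Matrix.mul_one, Matrix.mul_nonsing_inv _ uP, Matrix.one_apply_eq]
      map_mul' := fun x y => by
        rw [map_mul, hconj, Matrix.mul_apply, Finset.sum_eq_single s]
        · intro u _ hu
          rw [hoff x s u (Ne.symm hu), zero_mul]
        · intro h
          exact absurd (Finset.mem_univ s) h
      map_zero' := by
        rw [map_zero, Matrix.mul_zero, Matrix.zero_mul, Matrix.zero_apply]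
      map_add' := fun x y => by
        rw [map_add, Matrix.mul_add, Matrix.add_mul, Matrix.add_apply] } with hχ
  have hχa : ∀ s x, χ s x = (P * ψ x * P⁻¹) s s := fun s x => rfl
  have hdiag : ∀ x, P * ψ x * P⁻¹ = Matrix.diagonal fun s => χ s x := by
    intro x
    ext i k
    by_cases hik : i = k
    · subst hik
      rw [Matrix.diagonal_apply_eq, hχa]
    · rw [Matrix.diagonal_apply_ne _ hik, hoff x i k hik]
  have hχr : ∀ s, χ s r' = (t s : ℂ) := by
    intro s
    rw [hχa, hr', hPr, Matrix.diagonal_apply_eq]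
  have hχJ : ∀ s, χ s J₀ = zd d := by
    intro s
    rw [hχa, hJ₀, Matrix.mul_smul, Matrix.mul_one, Matrix.smul_mul, Matrix.mul_nonsing_inv _ uP,
      Matrix.smul_apply, Matrix.one_apply_eq, smul_eq_mul, mul_one]
  -- the conjugation
  have hk : ∀ x, ∃ y, ψ y = CMF_k P (ψ x) := by
    intro x
    have hx : j₀ x ∈ Algebra.adjoin ℚ ({(⟨r, hC.mem⟩ : R),
        (⟨zd d • (1 : Matrix (α ⊕ β) (α ⊕ β) ℂ), hD.jj⟩ : R)} : Set R) := by
      have h1 : j₀ x ∈ Set.range j₀ := ⟨x, rfl⟩
      rw [hj₀] at h1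
      exact h1
    have h2 : ∀ z ∈ Algebra.adjoin ℚ ({(⟨r, hC.mem⟩ : R),
        (⟨zd d • (1 : Matrix (α ⊕ β) (α ⊕ β) ℂ), hD.jj⟩ : R)} : Set R),
        ∃ y, ψ y = CMF_k P (z : Matrix (α ⊕ β) (α ⊕ β) ℂ) := by
      intro z hz
      induction hz using Algebra.adjoin_induction with
      | mem z hz =>
        rcases hz with rfl | rfl
        · refine ⟨r', ?_⟩
          rw [hr']
          have h3 := CMF_k_diag uP hPr
          have h4 : (fun i => conj ((t i : ℂ))) = fun i => (t i : ℂ) := by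
            funext i
            exact Complex.conj_ofReal _
          have h5 : P * CMF_k P r * P⁻¹ = P * r * P⁻¹ := by
            rw [h3, hPr]
            exact congrArg Matrix.diagonal h4
          calc r = P⁻¹ * (P * r * P⁻¹) * P := by
                simp only [Matrix.mul_assoc]
                rw [Matrix.nonsing_inv_mul _ uP, Matrix.mul_one, ← Matrix.mul_assoc,
                  Matrix.nonsing_inv_mul _ uP, Matrix.one_mul]
            _ = P⁻¹ * (P * CMF_k P r * P⁻¹) * P := by rw [h5]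
            _ = CMF_k P r := by
                simp only [Matrix.mul_assoc]
                rw [Matrix.nonsing_inv_mul _ uP, Matrix.mul_one, ← Matrix.mul_assoc,
                  Matrix.nonsing_inv_mul _ uP, Matrix.one_mul]
        · refine ⟨-J₀, ?_⟩
          rw [map_neg, hJ₀]
          show -(zd d • (1 : Matrix (α ⊕ β) (α ⊕ β) ℂ)) = CMF_k P (zd d • 1)
          rw [CMF_k_smul_one uP, hzc, neg_smul]
      | algebraMap q =>
        refine ⟨algebraMap ℚ K q, ?_⟩
        have h3 : ((algebraMap ℚ R q : R) : Matrix (α ⊕ β) (α ⊕ β) ℂ) = (q : ℂ) • 1 := by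
          rw [Subalgebra.coe_algebraMap]
          exact CMF_algMap q
        have h4 : ψ (algebraMap ℚ K q) = (q : ℂ) • 1 := by
          rw [← h3]
          show ((j₀ (algebraMap ℚ K q) : R) : Matrix (α ⊕ β) (α ⊕ β) ℂ) = _
          have h5 : j₀ (algebraMap ℚ K q) = algebraMap ℚ R q := j₀.toRatAlgHom.commutes q
          rw [h5]
        rw [h3, h4, CMF_k_smul_one uP]
        congr 1
        simp
      | add a b _ _ ha hb =>
        obtain ⟨y, hy⟩ := ha
        obtain ⟨y', hy'⟩ := hb
        refine ⟨y + y', ?_⟩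
        rw [map_add, hy, hy']
        exact (CMF_k_add _ _).symm
      | mul a b _ _ ha hb =>
        obtain ⟨y, hy⟩ := ha
        obtain ⟨y', hy'⟩ := hb
        refine ⟨y * y', ?_⟩
        rw [map_mul, hy, hy']
        exact (CMF_k_mul uP _ _).symm
    exact h2 _ hx
  choose c₀ hc₀ using hk
  have hc1 : c₀ 1 = 1 := hψi (by
    rw [hc₀, map_one]
    have h1 := CMF_k_smul_one uP (1 : ℂ)
    rw [one_smul, map_one, one_smul] at h1
    exact h1)
  have hcm : ∀ x y, c₀ (x * y) = c₀ x * c₀ y := fun x y => hψi (by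
    rw [hc₀, map_mul, map_mul, hc₀, hc₀, CMF_k_mul uP])
  have hca : ∀ x y, c₀ (x + y) = c₀ x + c₀ y := fun x y => hψi (by
    rw [hc₀, map_add, map_add, hc₀, hc₀, CMF_k_add])
  have hcz : c₀ 0 = 0 := by
    have h1 := hca 0 0
    rw [add_zero] at h1
    exact left_eq_add.1 h1
  let c : K →+* K :=
    { toFun := c₀, map_one' := hc1, map_mul' := hcm, map_zero' := hcz, map_add' := hca }
  have hχc : ∀ s x, χ s (c x) = conj (χ s x) := by
    intro s x
    have h1 : P * ψ (c x) * P⁻¹ = Matrix.diagonal fun s => conj (χ s x) := by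
      have h2 : ψ (c x) = CMF_k P (ψ x) := hc₀ x
      rw [h2]
      exact CMF_k_diag uP (hdiag x)
    rw [hχa, h1, Matrix.diagonal_apply_eq]
  -- the embeddings
  let φ : α ⊕ β → K →+* ℂ := Sum.elim (fun i => χ (Sum.inl i))
    fun i => (starRingEnd ℂ).comp (χ (Sum.inr i))
  have hφr : ∀ s, φ s r' = (t s : ℂ) := by
    rintro (i | i)
    · exact hχr _
    · show conj (χ (Sum.inr i) r') = _
      rw [hχr, Complex.conj_ofReal]
  have hφc : ∀ s x, φ s (c x) = conj (φ s x) := by
    rintro (i | i) x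
    · exact hχc _ _
    · show conj (χ (Sum.inr i) (c x)) = conj (conj (χ (Sum.inr i) x))
      rw [hχc]
  have hφJl : ∀ i, φ (Sum.inl i) J₀ = zd d := fun i => hχJ _
  have hφJr : ∀ i, φ (Sum.inr i) J₀ = -zd d := fun i => by
    show conj (χ (Sum.inr i) J₀) = _
    rw [hχJ, hzc]
  have hφJ : ∀ s, φ s J₀ ≠ conj (φ s J₀) := by
    rintro (i | i)
    · rw [hφJl, hzc]
      intro h
      have h1 : zd d + zd d = 0 := by
        nth_rewrite 1 [h]
        ring
      have h2 : (2 : ℂ) * zd d = 0 := by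
        rw [two_mul]
        exact h1
      rcases mul_eq_zero.1 h2 with h3 | h3
      · norm_num at h3
      · exact hz0 h3
    · rw [hφJr, map_neg, hzc, neg_neg]
      intro h
      have h1 : zd d + zd d = 0 := by
        nth_rewrite 1 [← h]
        ring
      have h2 : (2 : ℂ) * zd d = 0 := by
        rw [two_mul]
        exact h1
      rcases mul_eq_zero.1 h2 with h3 | h3
      · norm_num at h3
      · exact hz0 h3
  have hinj : Function.Injective (Sum.elim φ fun s => (φ s).comp c) := by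
    have e1 : ∀ s s', (φ s) r' = (φ s') r' → s = s' := by
      intro s s' h
      rw [hφr, hφr] at h
      exact hC.inj (by exact_mod_cast h)
    have e2 : ∀ s, ((φ s).comp c) r' = (t s : ℂ) := by
      intro s
      show φ s (c r') = _
      rw [hφc, hφr, Complex.conj_ofReal]
    rintro (s | s) (s' | s') h
    · have h1 : φ s = φ s' := h
      rw [e1 s s' (by rw [h1])]
    · exfalso
      have h1 : φ s = (φ s').comp c := h
      have h2 : s = s' := by
        refine hC.inj ?_
        have h3 : (t s : ℂ) = t s' := by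
          rw [← hφr s, h1, e2]
        exact_mod_cast h3
      subst h2
      have h4 : φ s J₀ = φ s (c J₀) := congrArg (fun f : K →+* ℂ => f J₀) h1
      rw [hφc] at h4
      exact hφJ s h4
    · exfalso
      have h1 : (φ s).comp c = φ s' := h
      have h2 : s = s' := by
        refine hC.inj ?_
        have h3 : (t s : ℂ) = t s' := by
          rw [← e2 s, h1, hφr]
        exact_mod_cast h3
      subst h2
      have h4 : φ s (c J₀) = φ s J₀ := congrArg (fun f : K →+* ℂ => f J₀) h1
      rw [hφc] at h4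
      exact hφJ s h4.symm
    · have h1 : (φ s).comp c = (φ s').comp c := h
      have h2 : s = s' := by
        refine hC.inj ?_
        have h3 : (t s : ℂ) = t s' := by
          rw [← e2 s, h1, e2]
        exact_mod_cast h3
      rw [h2]
  -- the degree
  have hcard := NumberField.Embeddings.card K ℂ
  have hm1 : finrank ℚ K ∣ 2 * (Fintype.card α + Fintype.card β) ^ 2 := by
    rw [← hD.dim]
    exact CMF_dvd j₀
  have hm2 : 2 * (Fintype.card α + Fintype.card β) ≤ finrank ℚ K := by
    rw [← hcard]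
    have h1 := Fintype.card_le_of_injective _ hinj
    rw [Fintype.card_sum, Fintype.card_sum] at h1
    omega
  have hm3 : Even (finrank ℚ K) := by
    refine CMF_even J₀ d hD.pos (hψi ?_)
    rw [map_mul, hJ₀]
    have h5 : j₀ (algebraMap ℚ K (-d)) = algebraMap ℚ R (-d) := j₀.toRatAlgHom.commutes (-d)
    show (zd d • (1 : Matrix (α ⊕ β) (α ⊕ β) ℂ)) * (zd d • 1) =
      ((j₀ (algebraMap ℚ K (-d)) : R) : Matrix (α ⊕ β) (α ⊕ β) ℂ)
    rw [h5, Subalgebra.coe_algebraMap, Matrix.smul_mul, Matrix.one_mul, smul_smul, hz2,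
      CMF_algMap]
    congr 1
    simp
  have hm4 : finrank ℚ K ≠ 2 * (Fintype.card α + Fintype.card β) ^ 2 := by
    intro hm
    have h1 : Function.Surjective j₀ := by
      have h2 := (LinearMap.injective_iff_surjective_of_finrank_eq_finrank
        (f := (j₀.toRatAlgHom : K →ₐ[ℚ] R).toLinearMap) (by rw [hm, hD.dim])).1 j₀.injective
      exact h2
    have h3 : Subsingleton (α ⊕ β) := by
      refine CMF_span (R : Set (Matrix (α ⊕ β) (α ⊕ β) ℂ)) hD.span fun x hx y hy => ?_
      obtain ⟨a, ha⟩ := h1 ⟨x, hx⟩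
      obtain ⟨b, hb⟩ := h1 ⟨y, hy⟩
      have h4 : (⟨x, hx⟩ : R) * ⟨y, hy⟩ = ⟨y, hy⟩ * ⟨x, hx⟩ := by
        rw [← ha, ← hb, ← map_mul, ← map_mul, mul_comm]
      exact congrArg Subtype.val h4
    have h5 := Fintype.card_le_one_iff_subsingleton.2 h3
    rw [Fintype.card_sum] at h5
    exact absurd hD.prime.one_lt (not_lt.2 h5)
  have hm := CMF_arith hD.prime hm1 hm2 hm3 hm4
  have hbij : Function.Bijective (Sum.elim φ fun s => (φ s).comp c) := by
    rw [Fintype.bijective_iff_injective_and_card]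
    refine ⟨hinj, ?_⟩
    rw [hcard, hm, Fintype.card_sum, Fintype.card_sum]
    omega
  have hcc : ∀ (σ : K →+* ℂ) (x : K), conj (σ x) = σ (c x) := by
    intro σ x
    obtain ⟨s | s, rfl⟩ := hbij.2 σ
    · exact (hφc s x).symm
    · show conj (φ s (c x)) = φ s (c (c x))
      rw [hφc s (c x)]
  refine ⟨K, iK, inferInstance, c, φ, J₀, ψ, ⟨hcc, fun hid => ?_⟩, hbij, hφJl, hφJr, hψR,
    fun x => ?_⟩
  · obtain ⟨s⟩ := hne
    have h1 := hφc s J₀
    rw [hid] at h1
    exact hφJ s h1
  · have h1 := hdiag x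
    have h2 : P * ψ x = (Matrix.diagonal fun s => χ s x) * P := by
      rw [← h1, Matrix.mul_assoc (P * ψ x), Matrix.nonsing_inv_mul _ uP, Matrix.mul_one]
    rw [h2]
    congr 2
    funext s
    rcases s with i | i
    · rfl
    · show χ (Sum.inr i) x = conj (conj (χ (Sum.inr i) x))
      rw [Complex.conj_conj]

end PST
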