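import Pool.Agent.PST.StN

/-!
# PST-N: complex multiplication at the CM point
-/

set_option autoImplicit false

namespace PST

open scoped ComplexConjugate
open GAM (H E F pd pdl PLat IsTh OddTor IsDel Gro IsLat Pre QD qd jac HasExp CMF CMT IsExp IsCM)
open Module

private theorem CML_conj_zd (d : ℚ) : conj (zd d) = -zd d := by
  unfold zd
  rw [map_mul, Complex.conj_ofReal, Complex.conj_I]
  ring

private theorem CML_im_zd {d : ℚ} (hd : 0 < d) : (zd d).im ≠ 0 := by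
  unfold zd
  have h : (0 : ℝ) < Real.sqrt (d : ℝ) := Real.sqrt_pos.2 (by exact_mod_cast hd)
  simp only [Complex.mul_im, Complex.ofReal_re, Complex.I_im, Complex.ofReal_im, Complex.I_re]
  intro h1
  linarith

/-- a natural number avoiding finitely many coincidences -/
private theorem CML_sep {ν : Type} [Fintype ν] {t u : ν → ℝ} (ht : Function.Injective t)
    (hu : Function.Injective u) :
    ∃ a : ℕ, ∀ p q : ν × ν, t p.1 + (a : ℝ) * u p.2 = t q.1 + (a : ℝ) * u q.2 → p = q := by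
  classical
  obtain ⟨a, ha⟩ : ∃ a : ℕ, (a : ℝ) ∉ (Set.range fun z : (ν × ν) × (ν × ν) =>
      (t z.1.1 - t z.2.1) / (u z.2.2 - u z.1.2)) := by
    have h1 : (Set.range fun z : (ν × ν) × (ν × ν) =>
      (t z.1.1 - t z.2.1) / (u z.2.2 - u z.1.2)).Finite := Set.finite_range _
    have h2 : (Set.range fun n : ℕ => (n : ℝ)).Infinite :=
      Set.infinite_range_of_injective Nat.cast_injective
    obtain ⟨x, ⟨n, hn⟩, hx⟩ := h2.exists_notMem_finite h1
    exact ⟨n, by rwa [show (n : ℝ) = x from hn]⟩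
  refine ⟨a, fun p q h => ?_⟩
  by_cases hk : p.2 = q.2
  · rw [hk] at h
    have h1 : t p.1 = t q.1 := by linarith
    exact Prod.ext (ht h1) hk
  · exfalso
    apply ha
    refine ⟨(p, q), ?_⟩
    have h1 : u q.2 - u p.2 ≠ 0 := fun h2 => hk (hu (by linarith))
    show (t p.1 - t q.1) / (u q.2 - u p.2) = (a : ℝ)
    rw [div_eq_iff h1]
    linarith

theorem thm_CML (h1 : St_OrdN) (h2 : St_CorA) : St_CML := by
  intro α β _ _ _ _ R X₀ d g P r t N e L hD hC hL
  obtain ⟨u, hu, hU⟩ := hD.y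
  obtain ⟨a, ha⟩ := CML_sep hC.inj hu
  obtain ⟨-, hl, hr, -⟩ := h1 α β R N e
  obtain ⟨n₁, hn₁, hm₁⟩ := hl (r + zd d • 1) (R.add_mem hC.mem hD.jj)
  obtain ⟨n₂, hn₂, hm₂⟩ := hr ((a : ℚ) • Matrix.diagonal fun k => (u k : ℂ))
    (R.smul_mem hU _)
  have hN : ((n₁ * n₂ : ℕ) : ℂ) ≠ 0 := by exact_mod_cast Nat.mul_ne_zero hn₁ hn₂
  have hz := CML_im_zd hD.pos
  -- the entries
  have ht : ∀ σ, IsAlgebraic ℚ ((t σ : ℝ) : ℂ) := by
    intro σ
    obtain ⟨k, hk⟩ : ∃ k, P σ k ≠ 0 := by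
      by_contra hcon
      push Not at hcon
      exact hC.det (Matrix.det_eq_zero_of_row_eq_zero σ hcon)
    have h3 : ((t σ : ℝ) : ℂ) * P σ k = (P * r) σ k := by
      rw [hC.rel, Matrix.diagonal_mul]
    have h4 : ((t σ : ℝ) : ℂ) = (P * r) σ k * (P σ k)⁻¹ := by
      rw [← h3, mul_assoc, mul_inv_cancel₀ hk, mul_one]
    rw [h4, Matrix.mul_apply]
    have h5 : IsAlgebraic ℚ (∑ j, P σ j * r j k) :=
      Finset.sum_induction _ (fun z => IsAlgebraic ℚ z) (fun _ _ h h' => h.add h')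
        isAlgebraic_zero fun j _ => (hC.alg σ j).mul (hD.alg r hC.mem j k)
    exact h5.mul (hC.alg σ k).inv
  have hua : ∀ k, IsAlgebraic ℚ ((u k : ℝ) : ℂ) := by
    intro k
    have h3 := hD.alg _ hU k k
    rwa [Matrix.diagonal_apply_eq] at h3
  have hza : ∀ k : α ⊕ β, IsAlgebraic ℚ (zd d) := by
    intro k
    have h3 := hD.alg _ hD.jj k k
    rwa [Matrix.smul_apply, Matrix.one_apply_eq, smul_eq_mul, mul_one] at h3
  -- the multipliers
  obtain ⟨ε, hε⟩ : ∃ ε : α ⊕ β → ℤ, ε = Sum.elim (fun _ => 1) (fun _ => -1) := ⟨_, rfl⟩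
  refine ⟨fun p => ((n₁ * n₂ : ℕ) : ℂ) * (((t p.1 + (a : ℝ) * u p.2 : ℝ) : ℂ) +
    (ε p.1 : ℂ) * zd d), ?_, ?_, ?_, ?_⟩
  · rintro ⟨σ, k⟩
    refine (isAlgebraic_natCast _).mul (IsAlgebraic.add ?_ ((isAlgebraic_intCast _).mul (hza k)))
    rw [Complex.ofReal_add, Complex.ofReal_mul, Complex.ofReal_natCast]
    exact (ht σ).add ((isAlgebraic_natCast _).mul (hua k))
  · intro l hl'
    obtain ⟨x, hx, rfl⟩ := (hL l).1 hl'
    rw [hL]
    refine ⟨(n₂ : ℤ) • (((n₁ : ℤ) • (r + zd d • 1)) * x) +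
      (n₁ : ℤ) • (x * ((n₂ : ℤ) • ((a : ℚ) • Matrix.diagonal fun k => (u k : ℂ)))),
      (lat e).add_mem ((lat e).smul_mem _ (hm₁ x hx)) ((lat e).smul_mem _ (hm₂ x hx)), ?_⟩
    have key : ∀ σ k, (P * ((n₂ : ℤ) • (((n₁ : ℤ) • (r + zd d • 1)) * x) +
        (n₁ : ℤ) • (x * ((n₂ : ℤ) • ((a : ℚ) • Matrix.diagonal fun k => (u k : ℂ)))))) σ k =
        ((n₁ * n₂ : ℕ) : ℂ) * (((t σ + (a : ℝ) * u k : ℝ) : ℂ) + zd d) * (P * x) σ k := by
      intro σ k
      have e1 : P * ((n₂ : ℤ) • (((n₁ : ℤ) • (r + zd d • 1)) * x) +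
          (n₁ : ℤ) • (x * ((n₂ : ℤ) • ((a : ℚ) • Matrix.diagonal fun k => (u k : ℂ))))) =
          (n₂ : ℤ) • (n₁ : ℤ) • ((P * r) * x + zd d • (P * x)) +
          (n₁ : ℤ) • (n₂ : ℤ) • (a : ℚ) • ((P * x) * Matrix.diagonal fun k => (u k : ℂ)) := by
        simp only [Matrix.mul_add, Matrix.add_mul, Matrix.mul_smul, Matrix.smul_mul,
          Matrix.one_mul, smul_add, Matrix.mul_assoc]
      rw [e1, hC.rel, Matrix.mul_assoc]
      simp only [Matrix.add_apply, Matrix.smul_apply, Matrix.diagonal_mul, Matrix.mul_diagonal]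
      simp only [smul_eq_mul, Algebra.smul_def, eq_intCast, eq_ratCast]
      push_cast
      ring
    funext ⟨σ, k⟩
    rcases σ with i | j
    · show (P * ((n₂ : ℤ) • (((n₁ : ℤ) • (r + zd d • 1)) * x) +
        (n₁ : ℤ) • (x * ((n₂ : ℤ) • ((a : ℚ) • Matrix.diagonal fun k => (u k : ℂ))))))
        (Sum.inl i) k = ((n₁ * n₂ : ℕ) : ℂ) * (((t (Sum.inl i) + (a : ℝ) * u k : ℝ) : ℂ) +
        (ε (Sum.inl i) : ℂ) * zd d) * (P * x) (Sum.inl i) k
      rw [key, hε]
      simp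
    · show conj ((P * ((n₂ : ℤ) • (((n₁ : ℤ) • (r + zd d • 1)) * x) +
        (n₁ : ℤ) • (x * ((n₂ : ℤ) • ((a : ℚ) • Matrix.diagonal fun k => (u k : ℂ))))))
        (Sum.inr j) k) = ((n₁ * n₂ : ℕ) : ℂ) * (((t (Sum.inr j) + (a : ℝ) * u k : ℝ) : ℂ) +
        (ε (Sum.inr j) : ℂ) * zd d) * conj ((P * x) (Sum.inr j) k)
      rw [key, hε, map_mul, map_mul, map_add, CML_conj_zd, Complex.conj_ofReal, Complex.conj_natCast]
      simp
  · rintro ⟨σ, k⟩ ⟨τ, l⟩ hne heq
    have h3 := mul_left_cancel₀ hN heq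
    have hre := congrArg Complex.re h3
    have him := congrArg Complex.im h3
    have hzre : (zd d).re = 0 := by
      have h4 := congrArg Complex.re (CML_conj_zd d)
      simp only [Complex.conj_re, Complex.neg_re] at h4
      linarith
    simp only [Complex.add_re, Complex.ofReal_re, Complex.mul_re, Complex.intCast_re,
      Complex.intCast_im, hzre, mul_zero, zero_mul, sub_zero, add_zero] at hre
    exact hne (ha (σ, k) (τ, l) hre)
  · rintro ⟨σ, k⟩ ⟨τ, l⟩ heq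
    rw [map_mul, Complex.conj_natCast] at heq
    have h3 := mul_left_cancel₀ hN heq
    have hre := congrArg Complex.re h3
    have him := congrArg Complex.im h3
    have hzre : (zd d).re = 0 := by
      have h4 := congrArg Complex.re (CML_conj_zd d)
      simp only [Complex.conj_re, Complex.neg_re] at h4
      linarith
    simp only [Complex.conj_re, Complex.add_re, Complex.ofReal_re, Complex.mul_re,
      Complex.intCast_re,
      Complex.intCast_im, hzre, mul_zero, zero_mul, sub_zero, add_zero] at hre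
    have h5 : ((σ, k) : (α ⊕ β) × (α ⊕ β)) = (τ, l) := ha (σ, k) (τ, l) hre
    have h6 : σ = τ := congrArg Prod.fst h5
    simp only [Complex.conj_im, Complex.add_im, Complex.ofReal_im, Complex.mul_im,
      Complex.intCast_re, Complex.intCast_im, hzre, mul_zero, zero_add, add_zero] at him
    rw [h6] at him
    have h7 : (ε τ : ℝ) ≠ 0 := by
      rw [hε]
      rcases τ with i | j <;> simp
    apply mul_ne_zero h7 hz
    linarith

end PST
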