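import Pool.Agent.PST.StN
import Pool.Agent.PST.UGr

/-!
# PST [CMP]: existence of the CM point
-/

set_option autoImplicit false
set_option linter.unusedSectionVars false

namespace PST

open scoped ComplexConjugate
open Module

section

variable {n : Type} [Fintype n] [DecidableEq n]

/-- algebraic entries -/
private def CMP_alg (X : Matrix n n ℂ) : Prop := ∀ i j, IsAlgebraic ℚ (X i j)

private theorem CMP_alg_sum {ι : Type} (s : Finset ι) (f : ι → ℂ)
    (h : ∀ i ∈ s, IsAlgebraic ℚ (f i)) : IsAlgebraic ℚ (∑ i ∈ s, f i) := by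
  classical
  induction s using Finset.induction_on with
  | empty => simpa using isAlgebraic_zero
  | insert a s ha ih =>
    rw [Finset.sum_insert ha]
    exact (h a (Finset.mem_insert_self _ _)).add
      (ih fun i hi => h i (Finset.mem_insert_of_mem hi))

private theorem CMP_alg_mul {X Y : Matrix n n ℂ} (hX : CMP_alg X) (hY : CMP_alg Y) :
    CMP_alg (X * Y) := by
  intro i j
  rw [Matrix.mul_apply]
  exact CMP_alg_sum _ _ fun k _ => (hX i k).mul (hY k j)

private theorem CMP_alg_conj {z : ℂ} (hz : IsAlgebraic ℚ z) : IsAlgebraic ℚ (conj z) := by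
  have h : IsAlgebraic ℚ ((Complex.conjAe.toAlgHom.restrictScalars ℚ) z) :=
    hz.algHom (Complex.conjAe.toAlgHom.restrictScalars ℚ)
  exact h

private theorem CMP_alg_star {X : Matrix n n ℂ} (hX : CMP_alg X) :
    CMP_alg X.conjTranspose := fun i j => by
  rw [Matrix.conjTranspose_apply]
  exact CMP_alg_conj (hX j i)

private theorem CMP_alg_det {X : Matrix n n ℂ} (hX : CMP_alg X) : IsAlgebraic ℚ X.det := by
  rw [Matrix.det_apply]
  refine CMP_alg_sum _ _ fun σ _ => ?_
  have h1 : IsAlgebraic ℚ (∏ i, X (σ i) i) := by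
    have : ∀ s : Finset n, IsAlgebraic ℚ (∏ i ∈ s, X (σ i) i) := by
      intro s
      induction s using Finset.induction_on with
      | empty => simpa using isAlgebraic_one
      | insert a s ha ih =>
        rw [Finset.prod_insert ha]
        exact (hX _ _).mul ih
    exact this _
  rcases Int.units_eq_one_or (Equiv.Perm.sign σ) with h | h
  · rw [h, one_smul]
    exact h1
  · rw [h]
    simpa using h1.neg

private theorem CMP_alg_inv {X : Matrix n n ℂ} (hX : CMP_alg X) : CMP_alg X⁻¹ := by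
  intro i j
  rw [Matrix.inv_def, Matrix.smul_apply, smul_eq_mul, Ring.inverse_eq_inv']
  refine (CMP_alg_det hX).inv.mul ?_
  rw [Matrix.adjugate_apply]
  refine CMP_alg_det fun a b => ?_
  rw [Matrix.updateRow_apply]
  split_ifs
  · by_cases hbi : b = i
    · subst hbi
      simpa using isAlgebraic_one
    · simpa [Pi.single_apply, hbi] using isAlgebraic_zero
  · exact hX a b

/-- a product of linear factors in an algebraic matrix -/
private theorem CMP_prod {r P : Matrix n n ℂ} {t : n → ℂ} (hr : CMP_alg r)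
    (ht : ∀ k, IsAlgebraic ℚ (t k)) (h : P * r = Matrix.diagonal t * P) (T : Finset n) :
    ∃ Q : Matrix n n ℂ, CMP_alg Q ∧
      P * Q = Matrix.diagonal (fun s => ∏ j ∈ T, (t s - t j)) * P := by
  induction T using Finset.induction_on with
  | empty =>
    refine ⟨1, fun i j => ?_, ?_⟩
    · rw [Matrix.one_apply]
      split_ifs
      · exact isAlgebraic_one
      · exact isAlgebraic_zero
    · simp
  | insert a T ha ih =>
    obtain ⟨Q, hQ, h1⟩ := ih
    refine ⟨(r - t a • 1) * Q, CMP_alg_mul (fun i j => ?_) hQ, ?_⟩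
    · rw [Matrix.sub_apply, Matrix.smul_apply, Matrix.one_apply]
      refine (hr i j).sub ?_
      split_ifs
      · simpa using ht a
      · simpa using isAlgebraic_zero
    · have h2 : P * (r - t a • 1) = Matrix.diagonal (fun s => t s - t a) * P := by
        rw [Matrix.mul_sub, h, Matrix.mul_smul, Matrix.mul_one]
        have h3 : Matrix.diagonal (fun s => t s - t a) = Matrix.diagonal t - t a • 1 := by
          rw [← Matrix.diagonal_one, ← Matrix.diagonal_smul, Matrix.diagonal_sub]
          congr 1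
          funext s
          simp
        rw [h3, Matrix.sub_mul, Matrix.smul_mul, Matrix.one_mul]
      rw [← Matrix.mul_assoc, h2, Matrix.mul_assoc, h1, ← Matrix.mul_assoc,
        Matrix.diagonal_mul_diagonal]
      congr 2
      funext s
      rw [Finset.prod_insert ha]

/-- the rows of `P` are multiples of algebraic rows -/
private theorem CMP_rows {r P : Matrix n n ℂ} {t : n → ℂ} (hr : CMP_alg r)
    (ht : ∀ k, IsAlgebraic ℚ (t k)) (hinj : Function.Injective t) (hP : P.det ≠ 0)
    (h : P * r = Matrix.diagonal t * P) :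
    ∃ (c : n → ℂ) (P' : Matrix n n ℂ), (∀ s, c s ≠ 0) ∧ CMP_alg P' ∧
      P = Matrix.diagonal c * P' := by
  have hPu : P⁻¹ * P = 1 := Matrix.nonsing_inv_mul _ (isUnit_iff_ne_zero.mpr hP)
  have hex : ∀ s, ∃ (c : ℂ) (v : n → ℂ), c ≠ 0 ∧ (∀ k, IsAlgebraic ℚ (v k)) ∧
      ∀ k, P s k = c * v k := by
    intro s
    obtain ⟨Q, hQ, h1⟩ := CMP_prod hr ht h (Finset.univ.erase s)
    set dd : n → ℂ := fun s' => ∏ j ∈ Finset.univ.erase s, (t s' - t j) with hdd
    have hds : dd s ≠ 0 := by
      rw [hdd]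
      refine Finset.prod_ne_zero_iff.mpr fun j hj => ?_
      rw [sub_ne_zero]
      exact fun h2 => (Finset.ne_of_mem_erase hj) (hinj h2).symm
    have hdo : ∀ s', s' ≠ s → dd s' = 0 := by
      intro s' hs'
      rw [hdd]
      exact Finset.prod_eq_zero (Finset.mem_erase.mpr ⟨hs', Finset.mem_univ _⟩) (sub_self _)
    have h2 : Q = P⁻¹ * (Matrix.diagonal dd * P) := by
      rw [← h1, ← Matrix.mul_assoc, hPu, Matrix.one_mul]
    have h3 : ∀ a b, Q a b = P⁻¹ a s * dd s * P s b := by
      intro a b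
      rw [h2, Matrix.mul_apply, Finset.sum_eq_single s]
      · rw [Matrix.diagonal_mul, mul_assoc]
      · intro j _ hj
        rw [Matrix.diagonal_mul, hdo j hj, zero_mul, mul_zero]
      · intro h4
        exact absurd (Finset.mem_univ _) h4
    obtain ⟨a, ha⟩ : ∃ a, P⁻¹ a s ≠ 0 := by
      by_contra hcon
      push Not at hcon
      have h4 : (P * P⁻¹) s s = 0 := by
        rw [Matrix.mul_apply]
        exact Finset.sum_eq_zero fun a _ => by rw [hcon a, mul_zero]
      rw [Matrix.mul_nonsing_inv _ (isUnit_iff_ne_zero.mpr hP), Matrix.one_apply_eq] at h4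
      exact one_ne_zero h4
    refine ⟨(P⁻¹ a s * dd s)⁻¹, fun k => Q a k, inv_ne_zero (mul_ne_zero ha hds),
      fun k => hQ a k, fun k => ?_⟩
    show P s k = (P⁻¹ a s * dd s)⁻¹ * Q a k
    rw [h3, ← mul_assoc, inv_mul_cancel₀ (mul_ne_zero ha hds), one_mul]
  choose c v hc hv h1 using hex
  refine ⟨c, Matrix.of v, hc, fun i j => hv i j, ?_⟩
  ext i j
  rw [Matrix.diagonal_mul]
  exact h1 i j

end

private theorem CMP_fg {α β : Type} [Fintype α] [Fintype β] [DecidableEq α] [DecidableEq β]
    {R : Subalgebra ℚ (Matrix (α ⊕ β) (α ⊕ β) ℂ)} {X₀ : Matrix (α ⊕ β) (α ⊕ β) ℂ} {d : ℚ}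
    (hD : Dat R X₀ d) {r P : Matrix (α ⊕ β) (α ⊕ β) ℂ} {t : α ⊕ β → ℂ} (hr : r ∈ R)
    (hP : P.det ≠ 0) (h : P * r = Matrix.diagonal t * P) (s : α ⊕ β) :
    IsAlgebraic ℚ (t s) := by
  have hpos : 0 < Module.finrank ℚ R := by
    rw [hD.dim]
    have := hD.prime.pos
    positivity
  have hfin : Module.Finite ℚ R := Module.finite_of_finrank_pos hpos
  obtain ⟨p, hp0, hp⟩ : IsAlgebraic ℚ (⟨r, hr⟩ : R) :=
    (Algebra.IsIntegral.isIntegral (R := ℚ) (⟨r, hr⟩ : R)).isAlgebraic
  refine ⟨p, hp0, ?_⟩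
  have h1 : Polynomial.aeval r p = 0 := by
    have := congrArg (R.val) hp
    rw [← Polynomial.aeval_algHom_apply] at this
    simpa using this
  -- the row `s` of `P` is a left eigenvector
  have h2 : ∀ q : Polynomial ℚ, P * Polynomial.aeval r q =
      Matrix.diagonal (fun k => Polynomial.aeval (t k) q) * P := by
    intro q
    induction q using Polynomial.induction_on' with
    | add p q hp hq =>
      rw [map_add, Matrix.mul_add, hp, hq, ← Matrix.add_mul, Matrix.diagonal_add]
      congr 2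
      funext k
      rw [map_add]
    | monomial k a =>
      have h3 : P * r ^ k = Matrix.diagonal (fun s => t s ^ k) * P := by
        induction k with
        | zero => simp
        | succ k ih =>
          rw [pow_succ, ← Matrix.mul_assoc, ih, Matrix.mul_assoc, h, ← Matrix.mul_assoc,
            Matrix.diagonal_mul_diagonal]
          congr 2
      rw [Polynomial.aeval_monomial]
      have h4 : (algebraMap ℚ (Matrix (α ⊕ β) (α ⊕ β) ℂ)) a * r ^ k = (a : ℂ) • r ^ k := by
        rw [Algebra.algebraMap_eq_smul_one, smul_mul_assoc, one_mul]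
        ext i j
        simp [Matrix.smul_apply, Rat.smul_def]
      rw [h4, Matrix.mul_smul, h3, ← Matrix.smul_mul, ← Matrix.diagonal_smul]
      congr 2
      funext s
      simp [Polynomial.aeval_monomial]
  have h3 := h2 p
  rw [h1, Matrix.mul_zero] at h3
  by_contra h4
  have h5 : ∀ j, P s j = 0 := by
    intro j
    have h6 := congrFun (congrFun h3 s) j
    rw [Matrix.diagonal_mul, Matrix.zero_apply] at h6
    rcases mul_eq_zero.mp h6.symm with h7 | h7
    · exact absurd h7 h4
    · exact h7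
  exact hP (Matrix.det_eq_zero_of_row_eq_zero s h5)

theorem thm_CMP (h1 : St_DenS) (h2 : St_DiaN) (h3 : St_RAdj) : St_CMP := by
  intro α β _ _ _ _ R X₀ d hD
  obtain ⟨hGalg, hGdet, hGstar, -⟩ := h3 α β R X₀ d hD
  have hX : X₀ * X₀⁻¹ = 1 := Matrix.mul_nonsing_inv _ (isUnit_iff_ne_zero.mpr hD.det)
  have hX' : X₀⁻¹ * X₀ = 1 := Matrix.nonsing_inv_mul _ (isUnit_iff_ne_zero.mpr hD.det)
  -- distinct real numbers
  let t₀ : α ⊕ β → ℝ := fun s => ((Fintype.equivFin (α ⊕ β) s : ℕ) : ℝ)
  have ht₀ : Function.Injective t₀ := fun s s' h =>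
    (Fintype.equivFin (α ⊕ β)).injective (Fin.ext (Nat.cast_injective (R := ℝ) h))
  obtain ⟨ε, hε, hdia⟩ := h2 α β t₀ ht₀
  have hdiagJ : Jm α β * (Matrix.diagonal fun k => (t₀ k : ℂ)).conjTranspose * Jm α β =
      Matrix.diagonal fun k => (t₀ k : ℂ) := by
    have h4 : (Matrix.diagonal fun k => (t₀ k : ℂ)).conjTranspose =
        Matrix.diagonal fun k => (t₀ k : ℂ) := by
      rw [Matrix.diagonal_conjTranspose]
      congr 1
      funext k
      simp
    have h5 : Jm α β = Matrix.diagonal (Sum.elim (fun _ => 1) fun _ => -1) := by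
      rw [Jm, ← Matrix.diagonal_one, ← Matrix.diagonal_one, Matrix.diagonal_neg,
        Matrix.fromBlocks_diagonal]
    rw [h4, h5, Matrix.diagonal_mul_diagonal, Matrix.diagonal_mul_diagonal]
    congr 1
    funext k
    rcases k with k | k <;> simp
  obtain ⟨r, hrR, hGr, hrZ⟩ := h1 α β R X₀ d _ ε hD hdiagJ hε
  have hJadj : Jm α β * (X₀ * r * X₀⁻¹).conjTranspose * Jm α β = X₀ * r * X₀⁻¹ := by
    have h4 : (X₀⁻¹).conjTranspose * X₀.conjTranspose = 1 := by
      rw [← Matrix.conjTranspose_mul, hX, Matrix.conjTranspose_one]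
    have h5 : (X₀ * r * X₀⁻¹).conjTranspose * Jm α β = Jm α β * (X₀ * r * X₀⁻¹) := by
      rw [Matrix.conjTranspose_mul, Matrix.conjTranspose_mul]
      calc (X₀⁻¹).conjTranspose * (r.conjTranspose * X₀.conjTranspose) * Jm α β
          = (X₀⁻¹).conjTranspose * (r.conjTranspose * (X₀.conjTranspose * Jm α β *
            (X₀ * X₀⁻¹))) := by rw [hX]; simp only [Matrix.mul_assoc, Matrix.mul_one]
        _ = (X₀⁻¹).conjTranspose * (r.conjTranspose * Gm X₀) * X₀⁻¹ := by
            unfold Gm
            simp only [Matrix.mul_assoc]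
        _ = (X₀⁻¹).conjTranspose * (Gm X₀ * r) * X₀⁻¹ := by rw [hGr]
        _ = ((X₀⁻¹).conjTranspose * X₀.conjTranspose) * (Jm α β * (X₀ * r * X₀⁻¹)) := by
            unfold Gm
            simp only [Matrix.mul_assoc]
        _ = _ := by rw [h4, Matrix.one_mul]
    rw [Matrix.mul_assoc, h5, ← Matrix.mul_assoc, UGr_J_sq, Matrix.one_mul]
  obtain ⟨g, t, hg, ht, hZg⟩ := hdia (X₀ * r * X₀⁻¹) hJadj hrZ
  -- `P₀ = g⁻¹ X₀`
  have hgg := UGr_inv hg
  have hgg' := UGr_inv' hg
  set gi : Matrix (α ⊕ β) (α ⊕ β) ℂ := Jm α β * g.conjTranspose * Jm α β with hgi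
  have hP₀r : (gi * X₀) * r = (Matrix.diagonal fun k => (t k : ℂ)) * (gi * X₀) := by
    calc (gi * X₀) * r = gi * (X₀ * r * (X₀⁻¹ * X₀)) := by
          rw [hX', Matrix.mul_one, Matrix.mul_assoc]
      _ = gi * ((X₀ * r * X₀⁻¹) * (g * gi)) * X₀ := by
          rw [hgg', Matrix.mul_one]
          simp only [Matrix.mul_assoc]
      _ = gi * ((X₀ * r * X₀⁻¹) * g) * gi * X₀ := by simp only [Matrix.mul_assoc]
      _ = (gi * g) * (Matrix.diagonal fun k => (t k : ℂ)) * (gi * X₀) := by
          rw [hZg]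
          simp only [Matrix.mul_assoc]
      _ = _ := by rw [hgg, Matrix.one_mul]
  have hgidet : gi.det ≠ 0 := by
    intro h4
    have := congrArg Matrix.det hgg
    rw [Matrix.det_mul, h4, zero_mul, Matrix.det_one] at this
    exact zero_ne_one this
  have hP₀det : (gi * X₀).det ≠ 0 := by
    rw [Matrix.det_mul]
    exact mul_ne_zero hgidet hD.det
  have htalg : ∀ s, IsAlgebraic ℚ ((t s : ℂ)) := fun s =>
    CMP_fg (t := fun k => (t k : ℂ)) hD hrR hP₀det hP₀r s
  obtain ⟨c, P', hc, hP', hcP⟩ := CMP_rows (t := fun k => (t k : ℂ)) (hD.alg r hrR) htalg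
    (fun a b hab => ht (Complex.ofReal_injective hab)) hP₀det hP₀r
  have hP'det : P'.det ≠ 0 := by
    intro h4
    rw [hcP, Matrix.det_mul, h4, mul_zero] at hP₀det
    exact hP₀det rfl
  have hP'u : P' * P'⁻¹ = 1 := Matrix.mul_nonsing_inv _ (isUnit_iff_ne_zero.mpr hP'det)
  have hP'u' : P'⁻¹.conjTranspose * P'.conjTranspose = 1 := by
    rw [← Matrix.conjTranspose_mul, hP'u, Matrix.conjTranspose_one]
  have hX₀ : X₀ = g * (Matrix.diagonal c * P') := by
    rw [← hcP, ← Matrix.mul_assoc, hgg', Matrix.one_mul]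
  have hJd : Jm α β = Matrix.diagonal (Sum.elim (fun _ => 1) fun _ => -1) := by
    rw [Jm, ← Matrix.diagonal_one, ← Matrix.diagonal_one, Matrix.diagonal_neg,
      Matrix.fromBlocks_diagonal]
  -- the squares of the absolute values are algebraic
  have hGc : P'⁻¹.conjTranspose * Gm X₀ * P'⁻¹ =
      (Matrix.diagonal c).conjTranspose * Jm α β * Matrix.diagonal c := by
    have hgJ : g.conjTranspose * Jm α β * g = Jm α β := hg
    unfold Gm
    rw [hX₀, Matrix.conjTranspose_mul, Matrix.conjTranspose_mul]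
    calc P'⁻¹.conjTranspose * (P'.conjTranspose * (Matrix.diagonal c).conjTranspose *
          g.conjTranspose * Jm α β * (g * (Matrix.diagonal c * P'))) * P'⁻¹
        = (P'⁻¹.conjTranspose * P'.conjTranspose) * ((Matrix.diagonal c).conjTranspose *
          (g.conjTranspose * Jm α β * g) * Matrix.diagonal c) * (P' * P'⁻¹) := by
          simp only [Matrix.mul_assoc]
      _ = _ := by rw [hP'u, hP'u', hgJ, Matrix.one_mul, Matrix.mul_one]
  have hcalg2 : ∀ s, IsAlgebraic ℚ (conj (c s) * c s) := by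
    intro s
    have h4 := CMP_alg_mul (CMP_alg_mul (CMP_alg_star (CMP_alg_inv hP')) hGalg)
      (CMP_alg_inv hP') s s
    rw [hGc, hJd, Matrix.diagonal_conjTranspose, Matrix.diagonal_mul_diagonal,
      Matrix.diagonal_mul_diagonal, Matrix.diagonal_apply_eq] at h4
    rcases s with s | s
    · simpa using h4
    · simpa using h4.neg
  have hcalg : ∀ s, IsAlgebraic ℚ ((‖c s‖ : ℝ) : ℂ) := by
    intro s
    refine IsAlgebraic.of_pow (n := 2) (by norm_num) ?_
    have : (((‖c s‖ : ℝ) : ℂ)) ^ 2 = conj (c s) * c s := by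
      rw [mul_comm, Complex.mul_conj, Complex.normSq_eq_norm_sq]
      push_cast
      rfl
    rw [this]
    exact hcalg2 s
  have hnc : ∀ s, ((‖c s‖ : ℝ) : ℂ) ≠ 0 := fun s => by
    exact_mod_cast norm_ne_zero_iff.mpr (hc s)
  have hP'r : P' * r = (Matrix.diagonal fun k => (t k : ℂ)) * P' := by
    have hcu : Matrix.diagonal (fun s => (c s)⁻¹) * Matrix.diagonal c = 1 := by
      rw [Matrix.diagonal_mul_diagonal, ← Matrix.diagonal_one]
      congr 1
      funext s
      exact inv_mul_cancel₀ (hc s)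
    have h4 : Matrix.diagonal c * (P' * r) =
        Matrix.diagonal c * ((Matrix.diagonal fun k => (t k : ℂ)) * P') := by
      rw [← Matrix.mul_assoc, ← hcP, hP₀r, hcP, ← Matrix.mul_assoc, ← Matrix.mul_assoc,
        Matrix.diagonal_mul_diagonal, Matrix.diagonal_mul_diagonal]
      congr 2
      funext s
      exact mul_comm _ _
    have h5 := congrArg (fun X => Matrix.diagonal (fun s => (c s)⁻¹) * X) h4
    simpa only [← Matrix.mul_assoc, hcu, Matrix.one_mul] using h5
  refine ⟨g * Matrix.diagonal (fun s => c s / ((‖c s‖ : ℝ) : ℂ)),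
    Matrix.diagonal (fun s => ((‖c s‖ : ℝ) : ℂ)) * P', r, t, hrR, ?_, ?_, ?_, ?_, ht, ?_⟩
  · have hgJ : g.conjTranspose * Jm α β * g = Jm α β := hg
    show (g * _).conjTranspose * Jm α β * (g * _) = Jm α β
    rw [Matrix.conjTranspose_mul]
    calc (Matrix.diagonal (fun s => c s / ((‖c s‖ : ℝ) : ℂ))).conjTranspose *
          g.conjTranspose * Jm α β * (g * Matrix.diagonal (fun s => c s / ((‖c s‖ : ℝ) : ℂ)))
        = (Matrix.diagonal (fun s => c s / ((‖c s‖ : ℝ) : ℂ))).conjTranspose *
          (g.conjTranspose * Jm α β * g) * Matrix.diagonal (fun s => c s / ((‖c s‖ : ℝ) : ℂ)) := by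
          simp only [Matrix.mul_assoc]
      _ = Jm α β := by
          rw [hgJ, hJd, Matrix.diagonal_conjTranspose, Matrix.diagonal_mul_diagonal,
            Matrix.diagonal_mul_diagonal]
          congr 1
          funext s
          have h5 : star (c s / ((‖c s‖ : ℝ) : ℂ)) * (c s / ((‖c s‖ : ℝ) : ℂ)) = 1 := by
            rw [← starRingEnd_apply, map_div₀, Complex.conj_ofReal, div_mul_div_comm,
              mul_comm (conj (c s)), Complex.mul_conj, Complex.normSq_eq_norm_sq,
              ← Complex.ofReal_mul, ← pow_two]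
            refine div_self ?_
            exact_mod_cast pow_ne_zero 2 (norm_ne_zero_iff.mpr (hc s))
          simp only [Pi.star_apply]
          rw [mul_right_comm, h5, one_mul]
  · rw [hX₀, Matrix.mul_assoc, ← Matrix.mul_assoc (Matrix.diagonal _) (Matrix.diagonal _) P',
      Matrix.diagonal_mul_diagonal]
    congr 3
    funext s
    rw [div_mul_cancel₀ _ (hnc s)]
  · intro i j
    rw [Matrix.diagonal_mul]
    exact (hcalg i).mul (hP' i j)
  · rw [Matrix.det_mul, Matrix.det_diagonal]
    exact mul_ne_zero (Finset.prod_ne_zero_iff.mpr fun s _ => hnc s) hP'det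
  · rw [Matrix.mul_assoc, hP'r, ← Matrix.mul_assoc, ← Matrix.mul_assoc,
      Matrix.diagonal_mul_diagonal, Matrix.diagonal_mul_diagonal]
    congr 2
    funext s
    exact mul_comm _ _

end PST
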