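import Pool.Agent.PST.StN

/-!
# PST: finitely many classes of bounded elements
-/

set_option autoImplicit false

namespace PST

open scoped ComplexConjugate
open GAM (H E F pd pdl PLat IsTh OddTor IsDel Gro IsLat Pre QD qd jac HasExp CMF CMT IsExp IsCM)
open Module

section ClsR

variable {ι : Type} [Fintype ι] [DecidableEq ι]

/-- inverses of elements of a finite dimensional division subalgebra -/
theorem ClsR_inv (R : Subalgebra ℚ (Matrix ι ι ℂ)) {N : ℕ} (e : Basis (Fin N) ℚ R)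
    (hdiv : ∀ r ∈ R, r ≠ 0 → r.det ≠ 0) (r : Matrix ι ι ℂ) (hr : r ∈ R) (h0 : r ≠ 0) :
    r⁻¹ ∈ R := by
  have : FiniteDimensional ℚ R := e.finiteDimensional_of_finite
  have hdet := hdiv r hr h0
  have hu : IsUnit r.det := isUnit_iff_ne_zero.2 hdet
  let L : R →ₗ[ℚ] R := LinearMap.mulLeft ℚ (⟨r, hr⟩ : R)
  have hinj : Function.Injective L := by
    intro x y hxy
    have h1 : r * (x : Matrix ι ι ℂ) = r * (y : Matrix ι ι ℂ) := congrArg Subtype.val hxy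
    have h2 := congrArg (fun z => r⁻¹ * z) h1
    simp only [Matrix.nonsing_inv_mul_cancel_left _ _ hu] at h2
    exact Subtype.ext h2
  obtain ⟨s, hs⟩ := (LinearMap.injective_iff_surjective.1 hinj) 1
  have h1 : r * (s : Matrix ι ι ℂ) = 1 := congrArg Subtype.val hs
  have : r⁻¹ = s := Matrix.inv_eq_right_inv h1
  rw [this]
  exact s.2

/-- bounded elements of the lattice -/
theorem ClsR_fin (R : Subalgebra ℚ (Matrix ι ι ℂ)) {N : ℕ} (e : Basis (Fin N) ℚ R)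
    (hli : LinearIndependent ℝ (fun i => (e i : Matrix ι ι ℂ)))
    (hsp : Submodule.span ℝ (Set.range fun i => (e i : Matrix ι ι ℂ)) = ⊤) (C : ℝ) :
    {x : Matrix ι ι ℂ | x ∈ Submodule.span ℤ (Set.range fun i => (e i : Matrix ι ι ℂ)) ∧
      ∀ i j, ‖x i j‖ ≤ C}.Finite := by
  let _ : NormedAddCommGroup (Matrix ι ι ℂ) := Matrix.normedAddCommGroup
  let _ : NormedSpace ℝ (Matrix ι ι ℂ) := Matrix.normedSpace
  let b : Basis (Fin N) ℝ (Matrix ι ι ℂ) := Basis.mk hli hsp.ge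
  have hb : (b : Fin N → Matrix ι ι ℂ) = fun i => (e i : Matrix ι ι ℂ) := Basis.coe_mk _ _
  have hbd : Bornology.IsBounded {x : Matrix ι ι ℂ | ∀ i j, ‖x i j‖ ≤ C} := by
    rcases lt_or_ge C 0 with hC | hC
    · rcases isEmpty_or_nonempty ι with hι | hι
      · exact (Set.toFinite _).isBounded
      · obtain ⟨i⟩ := hι
        have : {x : Matrix ι ι ℂ | ∀ i j, ‖x i j‖ ≤ C} = ∅ := by
          ext x
          simp only [Set.mem_ofPred_eq, Set.mem_empty_iff_false, iff_false, not_forall]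
          exact ⟨i, i, fun h => absurd (norm_nonneg (x i i)) (by linarith)⟩
        rw [this]
        exact Bornology.isBounded_empty
    · refine (Metric.isBounded_closedBall (x := (0 : Matrix ι ι ℂ)) (r := C)).subset ?_
      intro x hx
      rw [Metric.mem_closedBall, dist_zero_right]
      exact (Matrix.norm_le_iff hC).2 hx
  have := ZSpan.setFinite_inter b hbd
  refine this.subset ?_
  rintro x ⟨hx1, hx2⟩
  refine ⟨hx2, ?_⟩
  rw [hb]
  exact hx1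

/-- common multiples -/
theorem ClsR_com {A B : Type} [AddCommGroup A] [AddCommGroup B] {N : ℕ} (v : Fin N → A)
    (φ : A →+ B) (L : Submodule ℤ B) (h : ∀ i, ∃ n : ℕ, n ≠ 0 ∧ (n : ℤ) • φ (v i) ∈ L) :
    ∃ n : ℕ, n ≠ 0 ∧ ∀ x ∈ Submodule.span ℤ (Set.range v), (n : ℤ) • φ x ∈ L := by
  classical
  choose n hn0 hn using h
  refine ⟨∏ i, n i, Finset.prod_ne_zero_iff.2 fun i _ => hn0 i, ?_⟩
  intro x hx
  induction hx using Submodule.span_induction with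
  | mem x hx =>
    obtain ⟨i, rfl⟩ := hx
    obtain ⟨m, hm⟩ : n i ∣ ∏ i, n i := Finset.dvd_prod_of_mem _ (Finset.mem_univ i)
    have h1 : ((∏ i, n i : ℕ) : ℤ) • φ (v i) = (m : ℤ) • ((n i : ℤ) • φ (v i)) := by
      rw [smul_smul, hm]
      push_cast
      rw [mul_comm]
    rw [h1]
    exact L.smul_mem _ (hn i)
  | zero => rw [map_zero, smul_zero]; exact L.zero_mem
  | add x y _ _ hx hy => rw [map_add, smul_add]; exact L.add_mem hx hy
  | smul a x _ hx =>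
    rw [map_zsmul, smul_comm]
    exact L.smul_mem _ hx

/-- classes modulo an integer -/
theorem ClsR_cls {A : Type} [AddCommGroup A] {N : ℕ} (v : Fin N → A) (m : ℕ) :
    ∃ f : A → Fin N → ZMod m, ∀ x ∈ Submodule.span ℤ (Set.range v),
      ∀ y ∈ Submodule.span ℤ (Set.range v), f x = f y →
      ∃ z ∈ Submodule.span ℤ (Set.range v), x = y + (m : ℤ) • z := by
  classical
  have h : ∀ x : A, ∃ c : Fin N → ℤ, x ∈ Submodule.span ℤ (Set.range v) → ∑ i, c i • v i = x := by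
    intro x
    by_cases hx : x ∈ Submodule.span ℤ (Set.range v)
    · obtain ⟨c, hc⟩ := (Submodule.mem_span_range_iff_exists_fun ℤ).1 hx
      exact ⟨c, fun _ => hc⟩
    · exact ⟨0, fun h => absurd h hx⟩
  choose c hc using h
  refine ⟨fun x i => (c x i : ZMod m), fun x hx y hy hxy => ?_⟩
  have h1 : ∀ i, ∃ d : ℤ, c x i = c y i + m * d := by
    intro i
    have h2 := congrFun hxy i
    simp only at h2
    rw [ZMod.intCast_eq_intCast_iff_dvd_sub] at h2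
    obtain ⟨d, hd⟩ := h2
    exact ⟨-d, by linarith⟩
  choose d hd using h1
  refine ⟨∑ i, d i • v i, Submodule.sum_mem _ fun i _ =>
    Submodule.smul_mem _ _ (Submodule.subset_span ⟨i, rfl⟩), ?_⟩
  rw [← hc x hx]
  conv_rhs => rw [← hc y hy]
  rw [Finset.smul_sum, ← Finset.sum_add_distrib]
  refine Finset.sum_congr rfl fun i _ => ?_
  rw [hd i, add_smul, smul_smul]

/-- the adjunction -/
noncomputable def ClsR_ad (G : Matrix ι ι ℂ) : Matrix ι ι ℂ →+ Matrix ι ι ℂ where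
  toFun r := G⁻¹ * r.conjTranspose * G
  map_zero' := by simp
  map_add' x y := by rw [Matrix.conjTranspose_add, mul_add, add_mul]

/-- the order -/
def ClsR_O (L : Submodule ℤ (Matrix ι ι ℂ)) : Submodule ℤ (Matrix ι ι ℂ) where
  carrier := {y | ∀ x ∈ L, y * x ∈ L}
  zero_mem' x _ := by rw [zero_mul]; exact L.zero_mem
  add_mem' {a b} ha hb x hx := by rw [add_mul]; exact L.add_mem (ha x hx) (hb x hx)
  smul_mem' m a ha x hx := by
    have : (m • a) * x = m • (a * x) := smul_mul_assoc m a x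
    rw [this]
    exact L.smul_mem _ (ha x hx)

theorem ClsR_mem_O {L : Submodule ℤ (Matrix ι ι ℂ)} {y : Matrix ι ι ℂ} :
    y ∈ ClsR_O L ↔ ∀ x ∈ L, y * x ∈ L := Iff.rfl

theorem ClsR_mul_O {L : Submodule ℤ (Matrix ι ι ℂ)} {y z : Matrix ι ι ℂ}
    (hy : y ∈ ClsR_O L) (hz : z ∈ ClsR_O L) : y * z ∈ ClsR_O L := by
  intro x hx
  rw [mul_assoc]
  exact hy _ (hz x hx)

theorem ClsR_core (R : Subalgebra ℚ (Matrix ι ι ℂ)) {N : ℕ} (e : Basis (Fin N) ℚ R)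
    (hdiv : ∀ r ∈ R, r ≠ 0 → r.det ≠ 0)
    (hli : LinearIndependent ℝ (fun i => (e i : Matrix ι ι ℂ)))
    (hsp : Submodule.span ℝ (Set.range fun i => (e i : Matrix ι ι ℂ)) = ⊤)
    (G : Matrix ι ι ℂ) (hG : G.det ≠ 0) (hGR : ∀ r ∈ R, G⁻¹ * r.conjTranspose * G ∈ R)
    (L : Submodule ℤ (Matrix ι ι ℂ))
    (hL : L = Submodule.span ℤ (Set.range fun i => (e i : Matrix ι ι ℂ)))
    (o1 : ∀ r ∈ R, ∃ n : ℕ, n ≠ 0 ∧ (n : ℤ) • r ∈ L)
    (o2 : ∀ r ∈ R, ∃ n : ℕ, n ≠ 0 ∧ ∀ x ∈ L, ((n : ℤ) • r) * x ∈ L)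
    (n : ℕ) (C : ℝ) (hn : n ≠ 0) :
    ∃ T : Finset (Matrix ι ι ℂ), (∀ b ∈ T, b ∈ R ∧ b ≠ 0) ∧
    ∀ b ∈ R, b ≠ 0 → (∀ x ∈ L, b * x ∈ L) →
      (∀ i j, ‖(b * G⁻¹ * b.conjTranspose) i j‖ ≤ C) →
      ∃ b' ∈ T, ∃ γ ∈ R, b = b' * γ ∧ γ.conjTranspose * G * γ = G ∧
        (∀ x, x ∈ L ↔ γ * x ∈ L) ∧
        ∀ x ∈ L, ∃ y ∈ L, γ * x = x + (n : ℤ) • y := by
  classical
  have hGu : IsUnit G.det := isUnit_iff_ne_zero.2 hG
  have zs : ∀ (m : ℤ) (x y : Matrix ι ι ℂ), (m • x) * y = m • (x * y) := fun m x y =>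
    smul_mul_assoc m x y
  have sz : ∀ (m : ℤ) (x y : Matrix ι ι ℂ), x * (m • y) = m • (x * y) := fun m x y =>
    mul_smul_comm m x y
  -- constants
  obtain ⟨n1, hn1, h1⟩ := o1 1 R.one_mem
  have k1 : ∀ b ∈ ClsR_O L, (n1 : ℤ) • b ∈ L := by
    intro b hb
    have := hb _ h1
    rwa [sz, mul_one] at this
  obtain ⟨n2, hn2, h2⟩ := ClsR_com (fun i => (e i : Matrix ι ι ℂ)) (ClsR_ad G) L
    (fun i => o1 _ (hGR _ (e i).2))
  obtain ⟨n5, hn5, h5⟩ := ClsR_com (fun i => (e i : Matrix ι ι ℂ)) (ClsR_ad G) (ClsR_O L)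
    (fun i => o2 _ (hGR _ (e i).2))
  obtain ⟨n4, hn4, h4⟩ := ClsR_com (fun i => (e i : Matrix ι ι ℂ)) (AddMonoidHom.id _)
    (ClsR_O L) (fun i => o2 _ (e i).2)
  rw [← hL] at h2 h4 h5
  simp only [AddMonoidHom.id_apply] at h4
  have hadz : ∀ (m : ℤ) (x : Matrix ι ι ℂ), ClsR_ad G (m • x) = m • ClsR_ad G x := fun m x =>
    map_zsmul _ m x
  -- adjoint of an element of the order
  have kad : ∀ b ∈ ClsR_O L, ((n5 * n1 : ℕ) : ℤ) • ClsR_ad G b ∈ ClsR_O L := by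
    intro b hb
    have := h5 _ (k1 b hb)
    rw [hadz, smul_smul] at this
    rw [Nat.cast_mul]
    exact this
  have kq : ∀ b ∈ ClsR_O L, ((n2 * n1 : ℕ) : ℤ) • (b * ClsR_ad G b) ∈ L := by
    intro b hb
    have := h2 _ (k1 b hb)
    rw [hadz, smul_smul] at this
    have h3 := hb _ this
    rw [sz] at h3
    rw [Nat.cast_mul]
    exact h3
  -- the finite set of values of `q`
  set C' : ℝ := ∑ k, ∑ j, |C| * ‖G k j‖ with hC'
  have kb : ∀ b : Matrix ι ι ℂ, (∀ i j, ‖(b * G⁻¹ * b.conjTranspose) i j‖ ≤ C) →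
      ∀ i j, ‖(b * ClsR_ad G b) i j‖ ≤ C' := by
    intro b hb i j
    have e1 : b * ClsR_ad G b = (b * G⁻¹ * b.conjTranspose) * G := by
      show b * (G⁻¹ * b.conjTranspose * G) = _
      simp only [mul_assoc]
    rw [e1, Matrix.mul_apply]
    refine (norm_sum_le _ _).trans (Finset.sum_le_sum fun k _ => ?_)
    rw [norm_mul]
    refine (mul_le_mul_of_nonneg_right ((hb i k).trans (le_abs_self C)) (norm_nonneg _)).trans ?_
    exact Finset.single_le_sum (f := fun j => |C| * ‖G k j‖)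
      (fun j _ => mul_nonneg (abs_nonneg _) (norm_nonneg _)) (Finset.mem_univ j)
  have hn21 : n2 * n1 ≠ 0 := mul_ne_zero hn2 hn1
  set F : Set (Matrix ι ι ℂ) := {y | ((n2 * n1 : ℕ) : ℤ) • y ∈ L ∧ ∀ i j, ‖y i j‖ ≤ C'} with hF
  have hFf : F.Finite := by
    have hf := ClsR_fin R e hli hsp (((n2 * n1 : ℕ) : ℝ) * C')
    have hinj : Function.Injective fun y : Matrix ι ι ℂ => ((n2 * n1 : ℕ) : ℤ) • y := by
      intro x y hxy
      ext i j
      have h6 := congrFun (congrFun hxy i) j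
      simp only [Matrix.smul_apply, zsmul_eq_mul] at h6
      have h7 : (((n2 * n1 : ℕ) : ℤ) : ℂ) ≠ 0 := by exact_mod_cast hn21
      exact mul_left_cancel₀ h7 h6
    refine (hf.preimage hinj.injOn).subset ?_
    rintro y ⟨hy1, hy2⟩
    refine ⟨by rw [← hL]; exact hy1, fun i j => ?_⟩
    show ‖(((n2 * n1 : ℕ) : ℤ) • y) i j‖ ≤ _
    rw [Matrix.smul_apply, zsmul_eq_mul, norm_mul]
    have h7 : ‖(((n2 * n1 : ℕ) : ℤ) : ℂ)‖ = ((n2 * n1 : ℕ) : ℝ) := by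
      rw [Int.cast_natCast]
      exact Complex.norm_natCast _
    rw [h7]
    exact mul_le_mul_of_nonneg_left (hy2 i j) (Nat.cast_nonneg _)
  -- inverses of `q`
  have h3 : ∀ r : Matrix ι ι ℂ, ∃ n : ℕ, n ≠ 0 ∧ (r ∈ R → (n : ℤ) • r ∈ ClsR_O L) := by
    intro r
    by_cases hr : r ∈ R
    · obtain ⟨n, hn, h⟩ := o2 r hr
      exact ⟨n, hn, fun _ => h⟩
    · exact ⟨1, one_ne_zero, fun h => absurd h hr⟩
  choose N3 hN3 hN3' using h3
  let N4 : ℕ := ∏ x ∈ hFf.toFinset, N3 x⁻¹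
  have hN4 : N4 ≠ 0 := Finset.prod_ne_zero_iff.2 fun x _ => hN3 _
  have hN4' : ∀ x ∈ F, x⁻¹ ∈ R → (N4 : ℤ) • x⁻¹ ∈ ClsR_O L := by
    intro x hx hxR
    obtain ⟨m, hm⟩ : N3 x⁻¹ ∣ N4 := Finset.dvd_prod_of_mem _ (hFf.mem_toFinset.2 hx)
    have : (N4 : ℤ) • x⁻¹ = (m : ℤ) • ((N3 x⁻¹ : ℤ) • x⁻¹) := by
      rw [smul_smul, hm]
      push_cast
      rw [mul_comm]
    rw [this]
    exact Submodule.smul_mem _ _ (hN3' _ hxR)
  -- the set of elements under consideration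
  let P : Set (Matrix ι ι ℂ) := {b | b ∈ R ∧ b ≠ 0 ∧ b ∈ ClsR_O L ∧ b * ClsR_ad G b ∈ F}
  have hPdet : ∀ b ∈ P, b.det ≠ 0 := fun b hb => hdiv b hb.1 hb.2.1
  have hadR : ∀ b ∈ R, ClsR_ad G b ∈ R := fun b hb => hGR b hb
  have hPq : ∀ b ∈ P, (b * ClsR_ad G b).det ≠ 0 := by
    intro b hb
    have h6 := hPdet b hb
    show (b * (G⁻¹ * b.conjTranspose * G)).det ≠ 0
    rw [Matrix.det_mul, Matrix.det_mul, Matrix.det_mul, Matrix.det_conjTranspose,
      Matrix.det_nonsing_inv, Ring.inverse_eq_inv']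
    have h7 : star b.det ≠ 0 := star_ne_zero.2 h6
    exact mul_ne_zero h6 (mul_ne_zero (mul_ne_zero (inv_ne_zero hG) h7) hG)
  have hPqR : ∀ b ∈ P, (b * ClsR_ad G b)⁻¹ ∈ R := by
    intro b hb
    refine ClsR_inv R e hdiv _ (R.mul_mem hb.1 (hadR b hb.1)) ?_
    intro h0
    have h6 := hPq b hb
    have : Nonempty ι := by
      by_contra hne
      rw [not_nonempty_iff] at hne
      exact hb.2.1 (Subsingleton.elim _ _)
    rw [h0, Matrix.det_zero] at h6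
    exact h6 rfl
  -- the inverse of `b`
  have hPinv : ∀ b ∈ P, b⁻¹ = ClsR_ad G b * (b * ClsR_ad G b)⁻¹ := by
    intro b hb
    refine Matrix.inv_eq_right_inv ?_
    rw [← mul_assoc]
    exact Matrix.mul_nonsing_inv _ (isUnit_iff_ne_zero.2 (hPq b hb))
  set m : ℕ := (n5 * n1) * N4 with hm
  have hm0 : m ≠ 0 := mul_ne_zero (mul_ne_zero hn5 hn1) hN4
  have hPinvO : ∀ b ∈ P, (m : ℤ) • b⁻¹ ∈ ClsR_O L := by
    intro b hb
    rw [hPinv b hb]
    have e1 : (m : ℤ) • (ClsR_ad G b * (b * ClsR_ad G b)⁻¹) =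
        (((n5 * n1 : ℕ) : ℤ) • ClsR_ad G b) * ((N4 : ℤ) • (b * ClsR_ad G b)⁻¹) := by
      rw [zs, sz, smul_smul, hm]
      congr 1
    rw [e1]
    exact ClsR_mul_O (kad b hb.2.2.1) (hN4' _ hb.2.2.2 (hPqR b hb))
  -- classes
  obtain ⟨f, hf⟩ := ClsR_cls (fun i => (e i : Matrix ι ι ℂ)) (n1 * n4 * (m * n))
  rw [← hL] at hf
  have hmod : ∀ b ∈ P, ∀ b' ∈ P, f ((n1 : ℤ) • b) = f ((n1 : ℤ) • b') →
      ∃ w ∈ ClsR_O L, b = b' + ((m * n : ℕ) : ℤ) • w := by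
    intro b hb b' hb' hbb
    obtain ⟨z, hz, hzz⟩ := hf _ (k1 b hb.2.2.1) _ (k1 b' hb'.2.2.1) hbb
    refine ⟨(n4 : ℤ) • z, h4 z hz, ?_⟩
    have e1 : (n1 : ℤ) • b = (n1 : ℤ) • (b' + ((m * n : ℕ) : ℤ) • ((n4 : ℤ) • z)) := by
      rw [hzz, smul_add, smul_smul, smul_smul]
      congr 2
      push_cast
      ring
    ext i j
    have h6 := congrFun (congrFun e1 i) j
    rw [Matrix.smul_apply, Matrix.smul_apply, zsmul_eq_mul, zsmul_eq_mul] at h6
    have h7 : ((n1 : ℤ) : ℂ) ≠ 0 := by exact_mod_cast hn1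
    exact mul_left_cancel₀ h7 h6
  -- representatives
  let g : Matrix ι ι ℂ → Matrix ι ι ℂ × (Fin N → ZMod (n1 * n4 * (m * n))) := fun b =>
    (b * ClsR_ad G b, f ((n1 : ℤ) • b))
  have : NeZero (n1 * n4 * (m * n)) :=
    ⟨mul_ne_zero (mul_ne_zero hn1 hn4) (mul_ne_zero hm0 hn)⟩
  obtain ⟨T0, hT0, hbij⟩ := Set.exists_subset_bijOn P g
  have himg : (g '' P).Finite := by
    refine (hFf.prod (Set.finite_univ (α := Fin N → ZMod (n1 * n4 * (m * n))))).subset ?_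
    rintro _ ⟨b, hb, rfl⟩
    exact ⟨hb.2.2.2, Set.mem_univ _⟩
  have hT0f : T0.Finite := hbij.finite_iff_finite.2 himg
  refine ⟨hT0f.toFinset, fun b hb => ?_, ?_⟩
  · have := hT0 (hT0f.mem_toFinset.1 hb)
    exact ⟨this.1, this.2.1⟩
  intro b hbR hb0 hbO hbC
  have hbP : b ∈ P := ⟨hbR, hb0, hbO, kq b hbO, kb b hbC⟩
  obtain ⟨b', hb'T, hgg⟩ := hbij.surjOn ⟨b, hbP, rfl⟩
  have hb'P : b' ∈ P := hT0 hb'T
  have hqq : b' * ClsR_ad G b' = b * ClsR_ad G b := (Prod.mk.inj hgg).1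
  have hff : f ((n1 : ℤ) • b') = f ((n1 : ℤ) • b) := (Prod.mk.inj hgg).2
  have hdb := isUnit_iff_ne_zero.2 (hPdet b hbP)
  have hdb' := isUnit_iff_ne_zero.2 (hPdet b' hb'P)
  -- general computation
  have main : ∀ a ∈ P, ∀ a' ∈ P, f ((n1 : ℤ) • a) = f ((n1 : ℤ) • a') → ∀ x ∈ L,
      ∃ y ∈ L, (a'⁻¹ * a) * x = x + (n : ℤ) • y := by
    intro a ha a' ha' haa x hx
    obtain ⟨w, hw, haw⟩ := hmod a ha a' ha' haa
    have hda' := isUnit_iff_ne_zero.2 (hPdet a' ha')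
    refine ⟨(((m : ℤ) • a'⁻¹) * w) * x, ClsR_mul_O (hPinvO a' ha') hw x hx, ?_⟩
    conv_lhs => rw [haw]
    rw [mul_add, Matrix.nonsing_inv_mul _ hda', add_mul, one_mul, sz, zs, zs, zs, smul_smul]
    congr 2
    push_cast
    ring
  have hL1 : ∀ a ∈ P, ∀ a' ∈ P, f ((n1 : ℤ) • a) = f ((n1 : ℤ) • a') → ∀ x ∈ L,
      (a'⁻¹ * a) * x ∈ L := by
    intro a ha a' ha' haa x hx
    obtain ⟨y, hy, hxy⟩ := main a ha a' ha' haa x hx
    rw [hxy]
    exact L.add_mem hx (L.smul_mem _ hy)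
  refine ⟨b', hT0f.mem_toFinset.2 hb'T, b'⁻¹ * b, ?_, ?_, ?_, ?_, ?_⟩
  · exact R.mul_mem (ClsR_inv R e hdiv b' hb'P.1 hb'P.2.1) hbR
  · rw [Matrix.mul_nonsing_inv_cancel_left _ _ hdb']
  · -- unitary
    have e1 : b' * G⁻¹ * b'.conjTranspose = b * G⁻¹ * b.conjTranspose := by
      have h6 : b' * G⁻¹ * b'.conjTranspose * G = b * G⁻¹ * b.conjTranspose * G := by
        have h7 : b' * (G⁻¹ * b'.conjTranspose * G) = b * (G⁻¹ * b.conjTranspose * G) := hqq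
        simp only [mul_assoc] at h7 ⊢
        exact h7
      have h8 := congrArg (fun z => z * G⁻¹) h6
      simp only [Matrix.mul_nonsing_inv_cancel_right _ _ hGu] at h8
      exact h8
    obtain ⟨γ, hγ⟩ : ∃ γ, γ = b'⁻¹ * b := ⟨_, rfl⟩
    rw [← hγ]
    have e2 : b = b' * γ := by rw [hγ, Matrix.mul_nonsing_inv_cancel_left _ _ hdb']
    have e3 : γ * G⁻¹ * γ.conjTranspose = G⁻¹ := by
      have hc' : IsUnit b'.conjTranspose.det := by
        rw [Matrix.det_conjTranspose]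
        exact isUnit_iff_ne_zero.2 (star_ne_zero.2 (hPdet b' hb'P))
      have h6 : b' * (γ * G⁻¹ * γ.conjTranspose) * b'.conjTranspose =
          b' * G⁻¹ * b'.conjTranspose := by
        have e6 : b.conjTranspose = γ.conjTranspose * b'.conjTranspose := by
          rw [← Matrix.conjTranspose_mul, ← e2]
        rw [e1, e6, e2]
        simp only [mul_assoc]
      have h7 := congrArg (fun z => z * (b'.conjTranspose)⁻¹) h6
      simp only [Matrix.mul_nonsing_inv_cancel_right _ _ hc'] at h7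
      have h8 := congrArg (fun z => b'⁻¹ * z) h7
      simp only [Matrix.nonsing_inv_mul_cancel_left _ _ hdb'] at h8
      exact h8
    have e4 : (γ.conjTranspose * G) * (γ * G⁻¹) = 1 := by
      have h6 : (γ * G⁻¹) * (γ.conjTranspose * G) = 1 := by
        rw [← mul_assoc, e3, Matrix.nonsing_inv_mul _ hGu]
      exact mul_eq_one_comm.1 h6
    have h9 : G⁻¹ * G = 1 := Matrix.nonsing_inv_mul _ hGu
    calc γ.conjTranspose * G * γ = γ.conjTranspose * G * (γ * (G⁻¹ * G)) := by rw [h9, mul_one]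
      _ = (γ.conjTranspose * G) * (γ * G⁻¹) * G := by simp only [mul_assoc]
      _ = G := by rw [e4, one_mul]
  · intro x
    refine ⟨fun hx => hL1 b hbP b' hb'P hff.symm x hx, fun hx => ?_⟩
    have h6 := hL1 b' hb'P b hbP hff _ hx
    have h7 : b⁻¹ * b' * (b'⁻¹ * b * x) = x := by
      calc b⁻¹ * b' * (b'⁻¹ * b * x) = b⁻¹ * (b' * b'⁻¹) * b * x := by simp only [mul_assoc]
        _ = x := by
          rw [Matrix.mul_nonsing_inv _ hdb', mul_one, Matrix.nonsing_inv_mul _ hdb, one_mul]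
    rwa [h7] at h6
  · exact fun x hx => main b hbP b' hb'P hff.symm x hx

end ClsR

theorem thm_ClsR (h1 : St_RBas) (h2 : St_RAdj) (h3 : St_OrdN) : St_ClsR := by
  intro α β _ _ _ _ R X₀ d N e n C hD hn
  obtain ⟨_, b1⟩ := h1 α β R X₀ d hD
  obtain ⟨_, b2, b3, _, _⟩ := b1 N e
  obtain ⟨_, a2, _, a4⟩ := h2 α β R X₀ d hD
  obtain ⟨o1, o2, _, _⟩ := h3 α β R N e
  exact ClsR_core R e hD.div b2 b3 (Gm X₀) a2 a4 (lat e) rfl o1 o2 n C hn

end PST
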