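import Pool.Agent.PST.StN

/-!
# PST [CocR]: cocompactness
-/

set_option autoImplicit false

namespace PST

open scoped ComplexConjugate
open GAM (H E F pd pdl PLat IsTh OddTor IsDel Gro IsLat Pre QD qd jac HasExp CMF CMT IsExp IsCM)
open Pool.Agent.GPC (AbVar hermForm bilForm)
open Module

section norm

variable {κ : Type} [Fintype κ]

/-- the sum of the absolute values of the entries -/
noncomputable def CocR_mx (A : Matrix κ κ ℂ) : ℝ := ∑ i, ∑ j, ‖A i j‖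

theorem CocR_mx_nonneg (A : Matrix κ κ ℂ) : 0 ≤ CocR_mx A :=
  Finset.sum_nonneg fun _ _ => Finset.sum_nonneg fun _ _ => norm_nonneg _

theorem CocR_le_mx (A : Matrix κ κ ℂ) (i j : κ) : ‖A i j‖ ≤ CocR_mx A :=
  (Finset.single_le_sum (f := fun j => ‖A i j‖) (fun _ _ => norm_nonneg _)
    (Finset.mem_univ j)).trans
    (Finset.single_le_sum (f := fun i => ∑ j, ‖A i j‖)
      (fun _ _ => Finset.sum_nonneg fun _ _ => norm_nonneg _) (Finset.mem_univ i))

theorem CocR_mx_mul (A B : Matrix κ κ ℂ) : CocR_mx (A * B) ≤ CocR_mx A * CocR_mx B := by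
  have h1 : CocR_mx (A * B) ≤ ∑ i, ∑ j, ∑ k, ‖A i k‖ * ‖B k j‖ := by
    refine Finset.sum_le_sum fun i _ => Finset.sum_le_sum fun j _ => ?_
    rw [Matrix.mul_apply]
    refine (norm_sum_le _ _).trans ?_
    refine Finset.sum_le_sum fun k _ => ?_
    rw [norm_mul]
  refine h1.trans ?_
  have h2 : CocR_mx A * CocR_mx B = ∑ i, ∑ k, ‖A i k‖ * CocR_mx B := by
    unfold CocR_mx
    rw [Finset.sum_mul]
    refine Finset.sum_congr rfl fun i _ => ?_
    rw [Finset.sum_mul]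
  rw [h2]
  refine Finset.sum_le_sum fun i _ => ?_
  rw [Finset.sum_comm]
  refine Finset.sum_le_sum fun k _ => ?_
  rw [← Finset.mul_sum]
  refine mul_le_mul_of_nonneg_left ?_ (norm_nonneg _)
  exact Finset.single_le_sum (f := fun k => ∑ j, ‖B k j‖)
    (fun _ _ => Finset.sum_nonneg fun _ _ => norm_nonneg _) (Finset.mem_univ k)

theorem CocR_mx_le {A : Matrix κ κ ℂ} {C : ℝ} (h : ∀ i j, ‖A i j‖ ≤ C) :
    CocR_mx A ≤ (Fintype.card κ : ℝ) * ((Fintype.card κ : ℝ) * C) := by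
  unfold CocR_mx
  have h1 : ∀ i ∈ (Finset.univ : Finset κ), ∑ j, ‖A i j‖ ≤ (Fintype.card κ : ℝ) * C := by
    intro i _
    have h2 := Finset.sum_le_card_nsmul Finset.univ (fun j => ‖A i j‖) C fun j _ => h i j
    rwa [Finset.card_univ, nsmul_eq_mul] at h2
  have h2 := Finset.sum_le_card_nsmul _ _ _ h1
  rwa [Finset.card_univ, nsmul_eq_mul] at h2

theorem CocR_mx_conj (A : Matrix κ κ ℂ) : CocR_mx A.conjTranspose = CocR_mx A := by
  unfold CocR_mx
  rw [Finset.sum_comm]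
  refine Finset.sum_congr rfl fun i _ => Finset.sum_congr rfl fun j _ => ?_
  rw [Matrix.conjTranspose_apply]
  exact norm_star _

end norm

section cjg

variable {κ : Type} [Fintype κ] [DecidableEq κ]

/-- conjugation by an invertible matrix -/
noncomputable def CocR_eq (X : Matrix κ κ ℂ) (hX : X.det ≠ 0) :
    Matrix κ κ ℂ ≃ₗ[ℝ] Matrix κ κ ℂ where
  toFun M := X * M * X⁻¹
  map_add' M N := by rw [mul_add, add_mul]
  map_smul' r M := by rw [RingHom.id_apply, Matrix.mul_smul, Matrix.smul_mul]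
  invFun M := X⁻¹ * M * X
  left_inv M := by
    have h : X⁻¹ * X = 1 := Matrix.nonsing_inv_mul X (isUnit_iff_ne_zero.mpr hX)
    show X⁻¹ * (X * M * X⁻¹) * X = M
    rw [← Matrix.mul_assoc, ← Matrix.mul_assoc, h, Matrix.one_mul, Matrix.mul_assoc, h,
      Matrix.mul_one]
  right_inv M := by
    have h : X * X⁻¹ = 1 := Matrix.mul_nonsing_inv X (isUnit_iff_ne_zero.mpr hX)
    show X * (X⁻¹ * M * X) * X⁻¹ = M
    rw [← Matrix.mul_assoc, ← Matrix.mul_assoc, h, Matrix.one_mul, Matrix.mul_assoc, h,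
      Matrix.mul_one]

end cjg

theorem thm_CocR (h1 : St_UGr) (h2 : St_UAl) (h3 : St_UTr) (h4 : St_CorA) (h5 : St_RBas)
    (h6 : St_RAdj) (h7 : St_OrdN) (h8 : St_DetU) (h9 : St_MinkR) (h10 : St_ClsR)
    (h11 : St_MobB) : St_CocR := by
  classical
  intro α β _ _ _ _ R X₀ d N e L hD hL n hn
  obtain ⟨-, -, -, -, hUmul, hUinv, -⟩ := h1 α β (α ⊕ β)
  obtain ⟨hcb, hcadd, hcsm, hcact, -⟩ := h4 α β
  obtain ⟨-, hb⟩ := h5 α β R X₀ d hD
  obtain ⟨hN, -, -, -, -⟩ := hb N e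
  obtain ⟨-, -, -, f, hf⟩ := h7 α β R N e
  obtain ⟨-, hli, hsp, -, -⟩ := hb N f
  have hN0 : 0 < N := by
    rw [hN]
    have := hD.prime.pos
    positivity
  have hXd := hD.det
  have hXi : X₀⁻¹ * X₀ = 1 := Matrix.nonsing_inv_mul X₀ (isUnit_iff_ne_zero.mpr hXd)
  have hXi' : X₀ * X₀⁻¹ = 1 := Matrix.mul_nonsing_inv X₀ (isUnit_iff_ne_zero.mpr hXd)
  -- the real basis
  let bf : Basis (Fin N) ℝ (Matrix (α ⊕ β) (α ⊕ β) ℂ) := Basis.mk hli hsp.ge
  let b : Basis (Fin N) ℝ (Matrix (α ⊕ β) (α ⊕ β) ℂ) := bf.map (CocR_eq X₀ hXd)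
  have hbi : ∀ i, b i = X₀ * (f i : Matrix (α ⊕ β) (α ⊕ β) ℂ) * X₀⁻¹ := by
    intro i
    show CocR_eq X₀ hXd (bf i) = _
    rw [Basis.mk_apply]
    rfl
  obtain ⟨C, hC⟩ := h9 α β N b hN0
  have hspan : ∀ x ∈ Submodule.span ℤ (Set.range b), ∃ y ∈ lat f, x = X₀ * y * X₀⁻¹ := by
    intro x hx
    induction hx using Submodule.span_induction with
    | mem x hx =>
      obtain ⟨i, rfl⟩ := hx
      exact ⟨f i, Submodule.subset_span ⟨i, rfl⟩, hbi i⟩
    | zero => exact ⟨0, Submodule.zero_mem _, by simp⟩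
    | add x y _ _ hx hy =>
      obtain ⟨x', hx', rfl⟩ := hx
      obtain ⟨y', hy', rfl⟩ := hy
      exact ⟨x' + y', Submodule.add_mem _ hx' hy', by rw [mul_add, add_mul]⟩
    | smul r x _ hx =>
      obtain ⟨x', hx', rfl⟩ := hx
      exact ⟨r • x', Submodule.smul_mem _ r hx', by rw [Matrix.mul_smul, Matrix.smul_mul]⟩
  have hlatR : ∀ y ∈ lat f, y ∈ R := by
    intro y hy
    induction hy using Submodule.span_induction with
    | mem x hx =>
      obtain ⟨i, rfl⟩ := hx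
      exact (f i).2
    | zero => exact R.zero_mem
    | add x y _ _ hx hy => exact R.add_mem hx hy
    | smul r x _ hx => exact zsmul_mem hx r
  set J := Jm α β with hJ
  -- the Gram matrix
  have hJJ : J * J = 1 := by
    rw [hJ]
    unfold Jm
    rw [Matrix.fromBlocks_multiply]
    simp
  have hGd : (Gm X₀).det ≠ 0 := (h6 α β R X₀ d hD).2.1
  have hGi : (Gm X₀)⁻¹ = X₀⁻¹ * J * (X₀⁻¹).conjTranspose := by
    apply Matrix.inv_eq_left_inv
    unfold Gm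
    have e1 : (X₀⁻¹).conjTranspose * X₀.conjTranspose = 1 := by
      rw [← Matrix.conjTranspose_mul, hXi', Matrix.conjTranspose_one]
    calc X₀⁻¹ * J * (X₀⁻¹).conjTranspose * (X₀.conjTranspose * J * X₀)
        = X₀⁻¹ * J * ((X₀⁻¹).conjTranspose * X₀.conjTranspose) * J * X₀ := by
          simp only [Matrix.mul_assoc]
      _ = 1 := by
          rw [e1, Matrix.mul_one, Matrix.mul_assoc X₀⁻¹ J J, hJJ, Matrix.mul_one, hXi]
  set K : ℝ := (Fintype.card (α ⊕ β) : ℝ) * ((Fintype.card (α ⊕ β) : ℝ) * C) with hK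
  set C' : ℝ := CocR_mx X₀⁻¹ * K * CocR_mx J * K * CocR_mx X₀⁻¹ with hC'
  obtain ⟨T, hTR, hT⟩ := h10 α β R X₀ d N e n C' hD hn
  set C'' : ℝ := (∑ b' ∈ T, CocR_mx ((X₀ * b' * X₀⁻¹)⁻¹)) * K with hC''
  obtain ⟨ρ, hρ0, hρ1, hρ⟩ := h11 α β C''
  refine ⟨ρ, hρ0, hρ1, fun w hw => ?_⟩
  obtain ⟨h, hhU, hhw⟩ := h3 α β w hw
  obtain ⟨x, hx, hx0, hxC⟩ := hC h hhU
  obtain ⟨y, hy, rfl⟩ := hspan x hx
  have hyR := hlatR y hy
  have hy0 : y ≠ 0 := by
    rintro rfl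
    apply hx0
    simp
  have hmx : CocR_mx (X₀ * y * X₀⁻¹ * h) ≤ K := CocR_mx_le hxC
  have hK0 : 0 ≤ K := (CocR_mx_nonneg _).trans hmx
  -- the form
  have hform : y * (Gm X₀)⁻¹ * y.conjTranspose =
      X₀⁻¹ * ((X₀ * y * X₀⁻¹ * h) * J * (X₀ * y * X₀⁻¹ * h).conjTranspose) *
        (X₀⁻¹).conjTranspose := by
    have e1 : (X₀⁻¹).conjTranspose * X₀.conjTranspose = 1 := by
      rw [← Matrix.conjTranspose_mul, hXi', Matrix.conjTranspose_one]
    have e1' : X₀.conjTranspose * (X₀⁻¹).conjTranspose = 1 := by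
      rw [← Matrix.conjTranspose_mul, hXi, Matrix.conjTranspose_one]
    have e2 : h * J * h.conjTranspose = J := (hUinv h hhU).2.2.2.2
    have e3 : (X₀ * y * X₀⁻¹ * h) * J * (X₀ * y * X₀⁻¹ * h).conjTranspose =
        X₀ * y * X₀⁻¹ * (h * J * h.conjTranspose) * ((X₀⁻¹).conjTranspose *
          y.conjTranspose * X₀.conjTranspose) := by
      rw [Matrix.conjTranspose_mul, Matrix.conjTranspose_mul, Matrix.conjTranspose_mul]
      simp only [Matrix.mul_assoc]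
    rw [e3, e2, hGi]
    calc y * (X₀⁻¹ * J * (X₀⁻¹).conjTranspose) * y.conjTranspose
        = 1 * y * X₀⁻¹ * J * (X₀⁻¹).conjTranspose * y.conjTranspose * 1 := by
          rw [Matrix.one_mul, Matrix.mul_one]
          simp only [Matrix.mul_assoc]
      _ = (X₀⁻¹ * X₀) * y * X₀⁻¹ * J * (X₀⁻¹).conjTranspose * y.conjTranspose *
            (X₀.conjTranspose * (X₀⁻¹).conjTranspose) := by rw [hXi, e1']
      _ = X₀⁻¹ * (X₀ * y * X₀⁻¹ * J * ((X₀⁻¹).conjTranspose *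
          y.conjTranspose * X₀.conjTranspose)) * (X₀⁻¹).conjTranspose := by
          simp only [Matrix.mul_assoc]
  have hbound : ∀ i j, ‖(y * (Gm X₀)⁻¹ * y.conjTranspose) i j‖ ≤ C' := by
    intro i j
    refine (CocR_le_mx _ i j).trans ?_
    rw [hform]
    have m1 := CocR_mx_nonneg (X₀⁻¹)
    have m2 := CocR_mx_nonneg J
    have m3 := CocR_mx_nonneg (X₀ * y * X₀⁻¹ * h)
    calc CocR_mx (X₀⁻¹ * ((X₀ * y * X₀⁻¹ * h) * J * (X₀ * y * X₀⁻¹ * h).conjTranspose) *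
        (X₀⁻¹).conjTranspose)
        ≤ CocR_mx (X₀⁻¹ * ((X₀ * y * X₀⁻¹ * h) * J * (X₀ * y * X₀⁻¹ * h).conjTranspose)) *
          CocR_mx (X₀⁻¹).conjTranspose := CocR_mx_mul _ _
      _ ≤ (CocR_mx X₀⁻¹ * ((CocR_mx (X₀ * y * X₀⁻¹ * h) * CocR_mx J) *
          CocR_mx (X₀ * y * X₀⁻¹ * h).conjTranspose)) * CocR_mx (X₀⁻¹).conjTranspose := by
          refine mul_le_mul_of_nonneg_right ?_ (CocR_mx_nonneg _)
          refine (CocR_mx_mul _ _).trans (mul_le_mul_of_nonneg_left ?_ m1)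
          refine (CocR_mx_mul _ _).trans (mul_le_mul_of_nonneg_right ?_ (CocR_mx_nonneg _))
          exact CocR_mx_mul _ _
      _ ≤ C' := by
          rw [CocR_mx_conj, CocR_mx_conj, hC']
          have m4 : CocR_mx (X₀ * y * X₀⁻¹ * h) * CocR_mx J * CocR_mx (X₀ * y * X₀⁻¹ * h) ≤
              K * CocR_mx J * K := by
            refine mul_le_mul (mul_le_mul_of_nonneg_right hmx m2) hmx m3
              (mul_nonneg hK0 m2)
          calc CocR_mx X₀⁻¹ * (CocR_mx (X₀ * y * X₀⁻¹ * h) * CocR_mx J *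
                CocR_mx (X₀ * y * X₀⁻¹ * h)) * CocR_mx X₀⁻¹
              ≤ CocR_mx X₀⁻¹ * (K * CocR_mx J * K) * CocR_mx X₀⁻¹ :=
                mul_le_mul_of_nonneg_right (mul_le_mul_of_nonneg_left m4 m1) m1
            _ = CocR_mx X₀⁻¹ * K * CocR_mx J * K * CocR_mx X₀⁻¹ := by ring
  obtain ⟨b', hb'T, γ, hγR, hyγ, hγG, hγL, hγn⟩ := hT y hyR hy0 (fun x hx => (hf y hy x hx).1)
    hbound
  obtain ⟨hb'R, hb'0⟩ := hTR b' hb'T
  have hb'd : b'.det ≠ 0 := hD.div b' hb'R hb'0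
  set g := X₀ * γ * X₀⁻¹ with hg
  have hgU : IsU g := by
    unfold IsU
    have e1 : (X₀⁻¹).conjTranspose * X₀.conjTranspose = 1 := by
      rw [← Matrix.conjTranspose_mul, hXi', Matrix.conjTranspose_one]
    rw [hg, Matrix.conjTranspose_mul, Matrix.conjTranspose_mul]
    calc (X₀⁻¹).conjTranspose * (γ.conjTranspose * X₀.conjTranspose) * Jm α β *
          (X₀ * γ * X₀⁻¹)
        = (X₀⁻¹).conjTranspose * (γ.conjTranspose * Gm X₀ * γ) * X₀⁻¹ := by
          unfold Gm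
          simp only [Matrix.mul_assoc]
      _ = ((X₀⁻¹).conjTranspose * X₀.conjTranspose) * Jm α β * (X₀ * X₀⁻¹) := by
          rw [hγG]
          unfold Gm
          simp only [Matrix.mul_assoc]
      _ = Jm α β := by rw [e1, hXi', Matrix.one_mul, Matrix.mul_one]
  have hdet : g.det = γ.det := by
    rw [hg, Matrix.det_mul, Matrix.det_mul, mul_comm X₀.det, mul_assoc, ← Matrix.det_mul, hXi',
      Matrix.det_one, mul_one]
  have hact : ∀ X : Matrix (α ⊕ β) (α ⊕ β) ℂ, act g (cor (X₀ * X)) = cor (X₀ * (γ * X)) := by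
    intro X
    rw [hcact, hg]
    congr 1
    rw [Matrix.mul_assoc (X₀ * γ), ← Matrix.mul_assoc X₀⁻¹, hXi, Matrix.one_mul,
      Matrix.mul_assoc]
  have hmemL : ∀ X : Matrix (α ⊕ β) (α ⊕ β) ℂ, cor (X₀ * X) ∈ L ↔ X ∈ lat e := by
    intro X
    rw [hL]
    constructor
    · rintro ⟨r, hr, hrX⟩
      have e1 : X₀ * r = X₀ * X := hcb.1 hrX
      have e2 : r = X := by
        have e3 := congrArg (fun M => X₀⁻¹ * M) e1
        simp only [← Matrix.mul_assoc, hXi, Matrix.one_mul] at e3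
        exact e3
      rw [← e2]
      exact hr
    · intro hX
      exact ⟨X, hX, rfl⟩
  have hsurj : ∀ v : Ix α β (α ⊕ β) → ℂ, ∃ X, cor (X₀ * X) = v := by
    intro v
    obtain ⟨X, hX⟩ := hcb.2 v
    refine ⟨X₀⁻¹ * X, ?_⟩
    rw [← Matrix.mul_assoc, hXi', Matrix.one_mul]
    exact hX
  refine ⟨g, hgU, ?_, ?_, ?_, ?_⟩
  · rw [hdet]
    refine h8 α β R X₀ d N e γ hD hγR (fun x hx => (hγL x).mp hx) ?_
    rw [← hdet]
    exact (hUinv g hgU).2.2.2.1
  · intro v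
    obtain ⟨X, rfl⟩ := hsurj v
    rw [hact, hmemL, hmemL]
    exact hγL X
  · intro l hl
    obtain ⟨X, rfl⟩ := hsurj l
    rw [hmemL] at hl
    obtain ⟨z, hz, hzX⟩ := hγn X hl
    refine ⟨cor (X₀ * z), (hmemL z).mpr hz, ?_⟩
    rw [hact, hzX, Matrix.mul_add, hcadd]
    congr 1
    have e1 : X₀ * ((n : ℤ) • z) = (((n : ℤ) : ℝ) : ℂ) • (X₀ * z) := by
      rw [Matrix.mul_smul]
      ext i j
      simp [Matrix.smul_apply]
    rw [e1, hcsm]
    funext q
    simp [Pi.smul_apply]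
  · have h0 : (0 : α × β → ℂ) ∈ Om α β := by
      refine ⟨0, le_refl 0, zero_lt_one, fun y => ?_⟩
      simp
    have e1 : mob (g * h) 0 = mob g w := by
      have e2 := (h2 α β (α ⊕ β) h hhU 0 h0).2.2.2.2.2.2.2 g hgU
      rw [e2, hhw]
    rw [← e1]
    refine hρ (g * h) (hUmul g h hgU hhU) fun i j => ?_
    have e3 : g * h = (X₀ * b' * X₀⁻¹)⁻¹ * (X₀ * y * X₀⁻¹ * h) := by
      have e4 : (X₀ * b' * X₀⁻¹)⁻¹ * (X₀ * b' * X₀⁻¹) = 1 := by
        apply Matrix.nonsing_inv_mul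
        rw [Matrix.det_mul, Matrix.det_mul, mul_comm X₀.det, mul_assoc, ← Matrix.det_mul, hXi',
          Matrix.det_one, mul_one]
        exact isUnit_iff_ne_zero.mpr hb'd
      have e5 : X₀ * y * X₀⁻¹ = (X₀ * b' * X₀⁻¹) * g := by
        rw [hg, hyγ]
        calc X₀ * (b' * γ) * X₀⁻¹ = X₀ * b' * 1 * γ * X₀⁻¹ := by
              rw [Matrix.mul_one]
              simp only [Matrix.mul_assoc]
          _ = X₀ * b' * (X₀⁻¹ * X₀) * γ * X₀⁻¹ := by rw [hXi]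
          _ = X₀ * b' * X₀⁻¹ * (X₀ * γ * X₀⁻¹) := by simp only [Matrix.mul_assoc]
      rw [e5, ← Matrix.mul_assoc, ← Matrix.mul_assoc, e4, Matrix.one_mul]
    rw [e3]
    refine (CocR_le_mx _ i j).trans ((CocR_mx_mul _ _).trans ?_)
    rw [hC'']
    refine mul_le_mul ?_ hmx (CocR_mx_nonneg _)
      (Finset.sum_nonneg fun _ _ => CocR_mx_nonneg _)
    exact Finset.single_le_sum (f := fun b' => CocR_mx ((X₀ * b' * X₀⁻¹)⁻¹))
      (fun _ _ => CocR_mx_nonneg _) hb'T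

end PST
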