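import Pool.Agent.PST.StN

/-!
# PST [CorA]: coordinates and actions
-/

set_option autoImplicit false
set_option linter.unusedSectionVars false

namespace PST

open scoped ComplexConjugate
open GAM (H E F pd pdl PLat IsTh OddTor IsDel Gro IsLat Pre QD qd jac HasExp CMF CMT IsExp IsCM)
open Pool.Agent.GPC (AbVar hermForm bilForm)
open Module

section

variable {α β : Type} [Fintype α] [Fintype β] [DecidableEq α] [DecidableEq β]

private theorem CorA_inl (X : Matrix (α ⊕ β) (α ⊕ β) ℂ) (i : α) (k : α ⊕ β) :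
    cor X (Sum.inl i, k) = X (Sum.inl i) k := rfl

private theorem CorA_inr (X : Matrix (α ⊕ β) (α ⊕ β) ℂ) (j : β) (k : α ⊕ β) :
    cor X (Sum.inr j, k) = conj (X (Sum.inr j) k) := rfl

private theorem CorA_sw (X : Matrix (α ⊕ β) (α ⊕ β) ℂ) : sw (cor X) = fun p => X p.1 p.2 := by
  funext p
  obtain ⟨i | j, k⟩ := p
  · rfl
  · exact Complex.conj_conj _

private theorem CorA_bij :
    Function.Bijective (cor : Matrix (α ⊕ β) (α ⊕ β) ℂ → Ix α β (α ⊕ β) → ℂ) := by
  constructor
  · intro X Y h
    have h1 : sw (cor X) = sw (cor Y) := by rw [h]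
    rw [CorA_sw, CorA_sw] at h1
    ext a k
    exact congrFun h1 (a, k)
  · intro x
    refine ⟨Matrix.of fun a k => sw x (a, k), ?_⟩
    funext p
    obtain ⟨i | j, k⟩ := p
    · rfl
    · exact Complex.conj_conj _

private theorem CorA_act (g X : Matrix (α ⊕ β) (α ⊕ β) ℂ) : act g (cor X) = cor (g * X) := by
  unfold act
  rw [CorA_sw]
  rfl

private theorem CorA_rgt_inl (r : Matrix (α ⊕ β) (α ⊕ β) ℂ) (i : α) (k : α ⊕ β)
    (q : Ix α β (α ⊕ β)) : rgt α β r (Sum.inl i, k) q =
      if Sum.inl i = q.1 then r q.2 k else 0 := rfl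

private theorem CorA_rgt_inr (r : Matrix (α ⊕ β) (α ⊕ β) ℂ) (j : β) (k : α ⊕ β)
    (q : Ix α β (α ⊕ β)) : rgt α β r (Sum.inr j, k) q =
      if Sum.inr j = q.1 then conj (r q.2 k) else 0 := rfl

private theorem CorA_rgt (r X : Matrix (α ⊕ β) (α ⊕ β) ℂ) :
    (rgt α β r).mulVec (cor X) = cor (X * r) := by
  funext p
  obtain ⟨i | j, k⟩ := p
  · rw [CorA_inl, Matrix.mul_apply, Matrix.mulVec, dotProduct, Fintype.sum_prod_type]
    rw [Finset.sum_eq_single (Sum.inl i)]
    · refine Finset.sum_congr rfl fun b _ => ?_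
      rw [CorA_rgt_inl, if_pos rfl, CorA_inl, mul_comm]
    · intro b _ hb
      refine Finset.sum_eq_zero fun c _ => ?_
      rw [CorA_rgt_inl, if_neg (Ne.symm hb), zero_mul]
    · intro h
      exact absurd (Finset.mem_univ _) h
  · rw [CorA_inr, Matrix.mul_apply, Matrix.mulVec, dotProduct, Fintype.sum_prod_type]
    rw [Finset.sum_eq_single (Sum.inr j), map_sum]
    · refine Finset.sum_congr rfl fun b _ => ?_
      rw [CorA_rgt_inr, if_pos rfl, CorA_inr, mul_comm, map_mul]
    · intro b _ hb
      refine Finset.sum_eq_zero fun c _ => ?_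
      rw [CorA_rgt_inr, if_neg (Ne.symm hb), zero_mul]
    · intro h
      exact absurd (Finset.mem_univ _) h

private theorem CorA_ext {M N : Matrix (Ix α β (α ⊕ β)) (Ix α β (α ⊕ β)) ℂ}
    (h : ∀ X : Matrix (α ⊕ β) (α ⊕ β) ℂ, M.mulVec (cor X) = N.mulVec (cor X)) : M = N := by
  have h1 : ∀ x, M.mulVec x = N.mulVec x := by
    intro x
    obtain ⟨X, rfl⟩ := (CorA_bij (α := α) (β := β)).2 x
    exact h X
  ext p q
  have h2 := congrFun (h1 (Pi.single q 1)) p
  rw [Matrix.mulVec_single_one, Matrix.mulVec_single_one] at h2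
  exact h2

private theorem CorA_E (X Y : Matrix (α ⊕ β) (α ⊕ β) ℂ) :
    E (cor X) (cor Y) = (Y.conjTranspose * Jm α β * X).trace.im := by
  have h1 : (Y.conjTranspose * Jm α β * X).trace =
      ∑ k, (∑ i, conj (Y (Sum.inl i) k) * X (Sum.inl i) k -
        ∑ j, conj (Y (Sum.inr j) k) * X (Sum.inr j) k) := by
    rw [Matrix.trace]
    refine Finset.sum_congr rfl fun k _ => ?_
    rw [Matrix.diag_apply, Matrix.mul_apply, Fintype.sum_sum_type]
    have h2 : ∀ i : α, (Y.conjTranspose * Jm α β) k (Sum.inl i) = conj (Y (Sum.inl i) k) := by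
      intro i
      rw [Matrix.mul_apply, Fintype.sum_sum_type, Finset.sum_eq_single i]
      · rw [Finset.sum_eq_zero]
        · rw [add_zero]
          unfold Jm
          rw [Matrix.fromBlocks_apply₁₁, Matrix.one_apply_eq, mul_one]
          rfl
        · intro j _
          unfold Jm
          rw [Matrix.fromBlocks_apply₂₁, Matrix.zero_apply, mul_zero]
      · intro i' _ hi'
        unfold Jm
        rw [Matrix.fromBlocks_apply₁₁, Matrix.one_apply_ne hi', mul_zero]
      · intro h
        exact absurd (Finset.mem_univ _) h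
    have h3 : ∀ j : β, (Y.conjTranspose * Jm α β) k (Sum.inr j) = -conj (Y (Sum.inr j) k) := by
      intro j
      rw [Matrix.mul_apply, Fintype.sum_sum_type, Finset.sum_eq_zero, zero_add,
        Finset.sum_eq_single j]
      · unfold Jm
        rw [Matrix.fromBlocks_apply₂₂, Matrix.neg_apply, Matrix.one_apply_eq, mul_neg, mul_one]
        rfl
      · intro j' _ hj'
        unfold Jm
        rw [Matrix.fromBlocks_apply₂₂, Matrix.neg_apply, Matrix.one_apply_ne hj', neg_zero,
          mul_zero]
      · intro h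
        exact absurd (Finset.mem_univ _) h
      · intro i _
        unfold Jm
        rw [Matrix.fromBlocks_apply₁₂, Matrix.zero_apply, mul_zero]
    simp only [h2, h3, neg_mul, Finset.sum_neg_distrib]
    rw [sub_eq_add_neg]
  have h4 : H (cor X) (cor Y) = ∑ k, (∑ i, conj (Y (Sum.inl i) k) * X (Sum.inl i) k +
        ∑ j, Y (Sum.inr j) k * conj (X (Sum.inr j) k)) := by
    unfold H
    rw [Fintype.sum_prod_type_right]
    refine Finset.sum_congr rfl fun k _ => ?_
    rw [Fintype.sum_sum_type]
    congr 1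
    · refine Finset.sum_congr rfl fun i _ => ?_
      rw [CorA_inl, CorA_inl, mul_comm]
    · refine Finset.sum_congr rfl fun j _ => ?_
      rw [CorA_inr, CorA_inr, Complex.conj_conj, mul_comm]
  unfold E
  rw [h1, h4, Complex.im_sum, Complex.im_sum]
  refine Finset.sum_congr rfl fun k _ => ?_
  rw [Complex.add_im, Complex.sub_im, sub_eq_add_neg]
  congr 1
  rw [Complex.im_sum, Complex.im_sum, ← Finset.sum_neg_distrib]
  refine Finset.sum_congr rfl fun j _ => ?_
  rw [Complex.mul_im, Complex.mul_im, Complex.conj_re, Complex.conj_im, Complex.conj_re,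
    Complex.conj_im]
  ring

private theorem CorA_star (r : Matrix (α ⊕ β) (α ⊕ β) ℂ) :
    rgt α β r.conjTranspose = (rgt α β r).conjTranspose := by
  ext p q
  rw [Matrix.conjTranspose_apply]
  obtain ⟨i | j, k⟩ := p <;> obtain ⟨i' | j', k'⟩ := q
  · rw [CorA_rgt_inl, CorA_rgt_inl]
    by_cases h : i = i'
    · subst h
      rw [if_pos rfl, if_pos rfl]
      rfl
    · rw [if_neg, if_neg, star_zero]
      · exact fun h1 => h (Sum.inl_injective h1).symm
      · exact fun h1 => h (Sum.inl_injective h1)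
  · rw [CorA_rgt_inl, CorA_rgt_inr, if_neg (by simp), if_neg (by simp), star_zero]
  · rw [CorA_rgt_inl, CorA_rgt_inr, if_neg (by simp), if_neg (by simp), star_zero]
  · rw [CorA_rgt_inr, CorA_rgt_inr]
    by_cases h : j = j'
    · subst h
      rw [if_pos rfl, if_pos rfl]
      rfl
    · rw [if_neg, if_neg, star_zero]
      · exact fun h1 => h (Sum.inr_injective h1).symm
      · exact fun h1 => h (Sum.inr_injective h1)

private theorem CorA_det (r : Matrix (α ⊕ β) (α ⊕ β) ℂ) : (rgt α β r).det =
    r.det ^ Fintype.card α * (conj r.det) ^ Fintype.card β := by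
  let B : α ⊕ β → Matrix (α ⊕ β) (α ⊕ β) ℂ := fun a =>
    Sum.elim (fun _ => r.transpose) (fun _ => r.transpose.map conj) a
  have h1 : rgt α β r = (Matrix.blockDiagonal B).submatrix (Equiv.prodComm _ _)
      (Equiv.prodComm _ _) := by
    ext p q
    rw [Matrix.submatrix_apply, Matrix.blockDiagonal_apply]
    obtain ⟨i | j, k⟩ := p <;> rfl
  rw [h1, Matrix.det_submatrix_equiv_self, Matrix.det_blockDiagonal, Fintype.prod_sum_type]
  have h2 : ∀ i : α, (B (Sum.inl i)).det = r.det := fun i => Matrix.det_transpose r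
  have h3 : ∀ j : β, (B (Sum.inr j)).det = conj r.det := fun j => by
    change (r.transpose.map conj).det = _
    rw [← Matrix.det_transpose r, RingHom.map_det]
    rfl
  simp only [h2, h3, Finset.prod_const, Finset.card_univ]

end

theorem thm_CorA : St_CorA := by
  intro α β _ _ _ _
  refine ⟨CorA_bij, ?_, ?_, CorA_act, CorA_rgt, CorA_E, ?_, CorA_star, CorA_det⟩
  · intro X Y
    funext p
    obtain ⟨i | j, k⟩ := p
    · rfl
    · exact map_add conj _ _
  · intro s X
    funext p
    obtain ⟨i | j, k⟩ := p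
    · rfl
    · change conj ((s : ℂ) * X (Sum.inr j) k) = (s : ℂ) * conj (X (Sum.inr j) k)
      rw [map_mul, Complex.conj_ofReal]
  · intro r r'
    apply CorA_ext
    intro X
    rw [← Matrix.mulVec_mulVec, CorA_rgt, CorA_rgt, CorA_rgt, Matrix.mul_assoc]

end PST
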