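import Pool.Agent.PST.StF
import Pool.Agent.GAM.Core
import Pool.Agent.GAM.Hol
import Pool.Agent.GAM.GroF
import Pool.Agent.GAM.GroU
import Pool.Agent.GAM.GroC

/-!
# PST [Core]: the core theorem
-/

set_option autoImplicit false

namespace PST

open scoped ComplexConjugate
open GAM (H E F pd pdl PLat IsTh OddTor IsDel Gro IsLat)

lemma Core_evD {ι κ : Type} [Fintype ι] {U : Set (ι → ℂ)} (P : MvPolynomial κ ℂ)
    (f : κ → (ι → ℂ) → ℂ) (hf : ∀ i, DifferentiableOn ℂ (f i) U) :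
    DifferentiableOn ℂ (fun z => MvPolynomial.eval (fun i => f i z) P) U := by
  induction P using MvPolynomial.induction_on with
  | C a => simp only [MvPolynomial.eval_C]; exact differentiableOn_const a
  | add p q hp hq => simp only [map_add]; exact hp.fun_add hq
  | mul_X p i hp => simp only [map_mul, MvPolynomial.eval_X]; exact hp.fun_mul (hf i)

lemma Core_homN {τ : Type} [Fintype τ] {P : MvPolynomial (Option τ) ℂ} {m : ℕ}
    (hP : P.IsHomogeneous m) (c : ℂ) (x y : Option τ → ℂ) (hxy : ∀ i, x i = c * y i) :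
    x none * MvPolynomial.eval x (MvPolynomial.pderiv none P) =
      c ^ m * (y none * MvPolynomial.eval y (MvPolynomial.pderiv none P)) := by
  have h1 : (MvPolynomial.X none * MvPolynomial.pderiv none P :
      MvPolynomial (Option τ) ℂ).IsHomogeneous m := by
    rcases Nat.eq_zero_or_pos m with rfl | hm
    · have h2 : P.totalDegree = 0 := Nat.le_zero.1 hP.totalDegree_le
      have h3 := MvPolynomial.totalDegree_eq_zero_iff_eq_C.1 h2
      rw [h3, MvPolynomial.pderiv_C, mul_zero]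
      exact MvPolynomial.isHomogeneous_zero _ _ _
    · have h2 := (MvPolynomial.isHomogeneous_X ℂ (none : Option τ)).mul
        (hP.pderiv (i := (none : Option τ)))
      rwa [Nat.add_sub_cancel' hm] at h2
  have h2 := GAM.Core_hom h1 c x y hxy
  rw [map_mul, map_mul, MvPolynomial.eval_X, MvPolynomial.eval_X] at h2
  exact h2

section

variable {α β μ : Type} [Fintype α] [Fintype β] [Fintype μ]
  [DecidableEq α] [DecidableEq β] [DecidableEq μ]

lemma Core_gro {L : Submodule ℤ (Ix α β μ → ℂ)} {χ θ : (Ix α β μ → ℂ) → ℂ} (hL : PLat L χ)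
    (hθ : IsTh L χ θ) (x : Ix α β μ → ℂ) : Gro (F θ x) :=
  (GAM.thm_GroF GAM.thm_GroU GAM.thm_GroC (Ix α β μ)).1 L χ θ hL hθ x

lemma Core_groD {L : Submodule ℤ (Ix α β μ → ℂ)} {χ θ : (Ix α β μ → ℂ) → ℂ} (hL : PLat L χ)
    (hθ : IsTh L χ θ) (p : Ix α β μ) (x : Ix α β μ → ℂ) : Gro (pd p (F θ x)) :=
  (GAM.thm_GroF GAM.thm_GroU GAM.thm_GroC (Ix α β μ)).2.1 _ (Core_gro hL hθ x) p

lemma Core_psiD (h10 : St_Ell) {L : Submodule ℤ (Ix α β μ → ℂ)} {χ θ : (Ix α β μ → ℂ) → ℂ}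
    (hL : PLat L χ) (hθ : IsTh L χ θ) (x : Ix α β μ → ℂ) :
    DifferentiableOn ℂ (fun w => psi θ w x) (Om α β) :=
  (h10 α β μ (F θ x) (Core_gro hL hθ x)).1

lemma Core_dpsiD (h10 : St_Ell) {L : Submodule ℤ (Ix α β μ → ℂ)} {χ θ : (Ix α β μ → ℂ) → ℂ}
    (hL : PLat L χ) (hθ : IsTh L χ θ) (p : Ix α β μ) (x : Ix α β μ → ℂ) :
    DifferentiableOn ℂ (fun w => dpsi p θ w x) (Om α β) :=
  (h10 α β μ (pd p (F θ x)) (Core_groD hL hθ p x)).1

/-- holomorphic dependence of determinants -/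
lemma Core_det {ι κ : Type} [Fintype ι] [Fintype κ] [DecidableEq κ] {U : Set (ι → ℂ)}
    (M : κ → κ → (ι → ℂ) → ℂ) (hM : ∀ i j, DifferentiableOn ℂ (M i j) U) :
    DifferentiableOn ℂ (fun w => (Matrix.of fun i j : κ => M i j w).det) U := by
  have h : (fun w => (Matrix.of fun i j : κ => M i j w).det) = fun w =>
      ∑ σ : Equiv.Perm κ, (Equiv.Perm.sign σ : ℤ) * ∏ i, M (σ i) i w := by
    funext w
    rw [Matrix.det_apply']
    rfl
  rw [h]
  refine DifferentiableOn.fun_sum fun σ _ => ?_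
  refine (differentiableOn_const _).fun_mul ?_
  have h2 : ∀ s : Finset κ, DifferentiableOn ℂ (fun w => ∏ i ∈ s, M (σ i) i w) U := by
    intro s
    induction s using Finset.induction_on with
    | empty => simp only [Finset.prod_empty]; exact differentiableOn_const 1
    | insert a s ha ih => simp only [Finset.prod_insert ha]; exact (hM (σ a) a).fun_mul ih
  exact h2 Finset.univ

lemma Core_XFD (h10 : St_Ell) {L : Submodule ℤ (Ix α β μ → ℂ)} {χ θ : (Ix α β μ → ℂ) → ℂ}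
    (hL : PLat L χ) (hθ : IsTh L χ θ) (e : ℕ) (k : μ) (y : Option (α × β) → Ix α β μ → ℂ)
    (x : α → Ix α β μ → ℂ) (x' : β → Ix α β μ → ℂ) (o : Option (Option (α × β))) :
    DifferentiableOn ℂ (fun w => XF e k θ y x x' w o) (Om α β) := by
  have hp := Core_psiD h10 hL hθ
  rcases o with _ | i
  · have h1 : DifferentiableOn ℂ (fun w => fp k θ w x) (Om α β) :=
      Core_det (fun i b w => dpsi (Sum.inl i, k) θ w (x b)) fun i b => Core_dpsiD h10 hL hθ _ _
    exact ((hp _).fun_mul ((hp _).fun_pow _)).fun_mul (h1.fun_pow _)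
  · have h1 : DifferentiableOn ℂ (fun w => fm k θ w x') (Om α β) :=
      Core_det (fun i b w => dpsi (Sum.inr i, k) θ w (x' b)) fun i b => Core_dpsiD h10 hL hθ _ _
    exact ((hp _).fun_mul ((hp _).fun_pow _)).fun_mul (h1.fun_pow _)

/-- functions on the domain vanishing near the origin vanish -/
lemma Core_id (h11 : St_OmT) {f : (α × β → ℂ) → ℂ} (hf : DifferentiableOn ℂ f (Om α β))
    (h : ∀ᶠ w in nhds 0, f w = 0) {w : α × β → ℂ} (hw : w ∈ Om α β) : f w = 0 := by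
  obtain ⟨hO, hC, h0, -⟩ := h11 α β
  have hGa := GAM.analyticOnNhd_of_differentiableOn hO hf
  exact hGa.eqOn_zero_of_preconnected_of_eventuallyEq_zero hC.isPreconnected h0 h hw

lemma Core_mob1 (w : α × β → ℂ) : mob (1 : Matrix (α ⊕ β) (α ⊕ β) ℂ) w = w := by
  funext p
  unfold mob
  rw [← Matrix.fromBlocks_one, Matrix.toBlocks_fromBlocks₁₁, Matrix.toBlocks_fromBlocks₁₂,
    Matrix.toBlocks_fromBlocks₂₁, Matrix.toBlocks_fromBlocks₂₂, Matrix.one_mul, Matrix.zero_mul,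
    add_zero, zero_add, inv_one, Matrix.mul_one]
  rfl

lemma Core_zsmul (h7 : St_UGr) (g : Matrix (α ⊕ β) (α ⊕ β) ℂ) (n : ℤ) (x : Ix α β μ → ℂ) :
    act g (n • x) = n • act g x := by
  have h1 := (h7 α β μ).2.2.2.1 g x 0 (n : ℝ)
  have h2 : ∀ z : Ix α β μ → ℂ, (((n : ℝ) : ℂ) • z) = n • z := by
    intro z
    rw [Complex.ofReal_intCast, Int.cast_smul_eq_zsmul]
  have h3 := h1.2
  rw [h2, h2] at h3
  exact h3

lemma Core_odd (h7 : St_UGr) {g : Matrix (α ⊕ β) (α ⊕ β) ℂ} {L₀ L₁ : Submodule ℤ (Ix α β μ → ℂ)}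
    {χ₀ χ₁ : (Ix α β μ → ℂ) → ℂ} (hM : Maps g L₁ L₀ χ₁ χ₀) {x : Ix α β μ → ℂ}
    (hx : OddTor L₀ x) : OddTor L₁ (act (Jm α β * g.conjTranspose * Jm α β) x) := by
  obtain ⟨n, hn, hnx⟩ := hx
  refine ⟨n, hn, ?_⟩
  rw [hM.lat, Core_zsmul h7]
  have h1 := (h7 α β μ).2.1 g (Jm α β * g.conjTranspose * Jm α β) x
  have h2 := (h7 α β μ).2.2.2.2.2.1 g hM.uni
  rw [h2.2.2.1, (h7 α β μ).2.2.1] at h1
  rw [← h1]
  exact hnx

/-- the inverse of an element of the group -/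
lemma Core_act (h7 : St_UGr) {g : Matrix (α ⊕ β) (α ⊕ β) ℂ} (hg : IsU g) (x : Ix α β μ → ℂ) :
    act g (act (Jm α β * g.conjTranspose * Jm α β) x) = x := by
  have h1 := (h7 α β μ).2.1 g (Jm α β * g.conjTranspose * Jm α β) x
  have h2 := (h7 α β μ).2.2.2.2.2.1 g hg
  rw [h2.2.2.1, (h7 α β μ).2.2.1] at h1
  exact h1.symm

lemma Core_delc (δ : Derivation ℚ ℂ ℂ) {d : ℂ} (hd : δ d = 0) (e : ℕ) : δ (d ^ e)⁻¹ = 0 := by
  rw [Derivation.leibniz_inv, Derivation.leibniz_pow, hd]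
  simp

lemma Core_alg (j a b p mm d : ℂ) (e A B : ℕ) (hmm : mm ≠ 0) (hd : d ≠ 0) :
    j * a * (j * b) ^ (e * B) * (j ^ A * p / (d * mm)) ^ e =
      j ^ (1 + e * (A + B)) / mm ^ e * ((d ^ e)⁻¹ * (a * b ^ (e * B) * p ^ e)) := by
  have h1 : (j ^ A * p / (d * mm)) ^ e = j ^ (A * e) * p ^ e / (d ^ e * mm ^ e) := by
    rw [div_pow, mul_pow, mul_pow, ← pow_mul]
  rw [h1, mul_pow]
  have h2 := pow_ne_zero e hmm
  have h3 := pow_ne_zero e hd
  generalize mm ^ e = M at *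
  generalize d ^ e = D at *
  generalize p ^ e = Q at *
  have h4 : j ^ (1 + e * (A + B)) = j * j ^ (e * B) * j ^ (A * e) := by ring
  rw [h4]
  generalize j ^ (e * B) = J1
  generalize j ^ (A * e) = J2
  field_simp

lemma Core_alg2 (j a b p mm : ℂ) (e A B : ℕ) (hmm : mm ≠ 0) :
    j * a * (j * b) ^ (e * B) * (j ^ A * p / mm) ^ e =
      j ^ (1 + e * (B + A)) / mm ^ e * (1 * (a * b ^ (e * B) * p ^ e)) := by
  have h1 := Core_alg j a b p mm 1 e A B hmm one_ne_zero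
  rw [one_mul, one_pow, inv_one, add_comm A B] at h1
  exact h1

/-- multiplication of `IsDelG` by a constant killed by `δ` -/
lemma Core_cm (h5 : St_DelGR) {κ : Type} [Fintype κ] [DecidableEq κ] {δ : Derivation ℚ ℂ ℂ}
    {c : ℂ} (hc : δ c = 0) {f : (κ → ℂ) → ℂ} {K : (κ → ℂ) → ℂ} {Ξ : κ → (κ → ℂ) → ℂ}
    (hf : IsDelG δ f (fun z => K z * f z + ∑ p, Ξ p z * pd p f z)) :
    IsDelG δ (fun z => c * f z) (fun z => K z * (c * f z) +
      ∑ p, Ξ p z * pd p (fun z => c * f z) z) := by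
  have h1 := (h5 κ δ).mul _ _ _ _ ((h5 κ δ).const c) hf
  have h2 : ∀ p z, pd p (fun z => c * f z) z = c * pd p f z := by
    intro p z
    have h3 : (fun z => c * f z) = c • f := rfl
    unfold GAM.pd
    rw [h3, fderiv_const_smul_field]
    rfl
  have h4 : (fun z => K z * (c * f z) + ∑ p, Ξ p z * pd p (fun z => c * f z) z) =
      fun v => δ c * f v + c * (K v * f v + ∑ p, Ξ p v * pd p f v) := by
    funext z
    rw [hc, zero_mul, zero_add, mul_add, Finset.mul_sum]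
    congr 1
    · ring
    · refine Finset.sum_congr rfl fun p _ => ?_
      rw [h2]
      ring
  rw [h4]
  exact h1

end

theorem thm_Core (h1 : St_Rel) (h2 : St_Pts) (h3 : St_DelX) (h4 : St_DelPG) (h5 : St_DelGR)
    (h6 : St_Equi) (h7 : St_UGr) (h8 : St_UAl) (_h9 : St_UTr) (h10 : St_Ell) (h11 : St_OmT)
    (_h12 : St_EllZ) : St_Core := by
  intro α β μ _ _ _ _ _ _ δ g L₀ L₁ χ₀ θ₀ χ₁ θ₁ e k₀ k₁ Bp₀ Bp₁ Bm₀ Bm₁ c₀ c₁ hμ he hL₀ hL₁ hθ₀
    hθ₁ hn₀ hn₁ hM hdg hC hE₀ hE₁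
  obtain ⟨k⟩ := hμ
  have hU := hM.uni
  obtain ⟨hiU, hig, hgi, hdet1, -⟩ := (h7 α β μ).2.2.2.2.2.1 g hU
  set gi : Matrix (α ⊕ β) (α ⊕ β) ℂ := Jm α β * g.conjTranspose * Jm α β with hgi'
  have hdg0 : g.det ≠ 0 := by
    intro h
    rw [h, norm_zero] at hdet1
    exact zero_ne_one hdet1
  obtain ⟨y, x, x', hy, hx, hx', hpsi, hfp, hfm, hdet⟩ := h2 α β μ L₀ χ₀ θ₀ k hL₀ hθ₀ hn₀
  obtain ⟨m, P, hPm, hP, z₁, hz₁, hPz₁⟩ := h1 α β μ L₀ χ₀ θ₀ e k y x x' hL₀ hθ₀ hn₀ hC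
    hy hx hx' hpsi hfp hfm hdet
  obtain ⟨K₀, Ξ₀, hB₀⟩ := h3 α β μ δ L₀ χ₀ θ₀ k₀ Bp₀ Bm₀ c₀ e k hL₀ hθ₀ hE₀
  obtain ⟨K₁, Ξ₁, hB₁⟩ := h3 α β μ δ L₁ χ₁ θ₁ k₁ Bp₁ Bm₁ c₁ e k hL₁ hθ₁ hE₁
  obtain ⟨hO, hCv, h0, -⟩ := h11 α β
  -- the two systems of functions
  set f₀ : Option (Option (α × β)) → (α × β → ℂ) → ℂ := fun o w => XF e k θ₀ y x x' w o with hf₀
  set X₁ : Option (Option (α × β)) → (α × β → ℂ) → ℂ := fun o w =>
    XF e k θ₁ (fun i => act gi (y i)) (fun i => act gi (x i)) (fun i => act gi (x' i)) w o with hX₁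
  set ce : Option (Option (α × β)) → ℂ := fun o => if o = none then (g.det ^ e)⁻¹ else 1 with hce
  set f₁ : Option (Option (α × β)) → (α × β → ℂ) → ℂ := fun o w => ce o * X₁ o w with hf₁
  have hdce : ∀ o, δ (ce o) = 0 := by
    intro o
    simp only [hce]
    split_ifs
    · exact Core_delc δ hdg e
    · exact Derivation.map_one_eq_zero δ
  have hf₀D : ∀ o, DifferentiableOn ℂ (f₀ o) (Om α β) := fun o =>
    Core_XFD h10 hL₀ hθ₀ e k y x x' o
  have hf₁D : ∀ o, DifferentiableOn ℂ (f₁ o) (Om α β) := fun o =>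
    (differentiableOn_const _).fun_mul (Core_XFD h10 hL₁ hθ₁ e k _ _ _ o)
  -- comparison
  have hj : ∀ w ∈ Om α β, ∃ j : ℂ, j ≠ 0 ∧ ∀ o, f₀ o (mob g w) = j * f₁ o w := by
    intro w hw
    obtain ⟨j, mp, mm, hj0, hmp, hmm, hpm, hjp, hjf, hjm⟩ := h6 α β μ g L₀ L₁ χ₀ θ₀ χ₁ θ₁ hL₀ hL₁
      hθ₀ hθ₁ hn₀ hn₁ hM w hw
    have hq : ∀ t, psi θ₀ (mob g w) t = j * psi θ₁ w (act gi t) := by
      intro t
      rw [← hjp, Core_act h7 hU]
    have hqp : mp * fp k θ₀ (mob g w) x = j ^ Fintype.card α * fp k θ₁ w fun i => act gi (x i) := by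
      rw [← hjf]
      simp only [hgi', Core_act h7 hU]
    have hqm : mm * fm k θ₀ (mob g w) x' =
        j ^ Fintype.card β * fm k θ₁ w fun i => act gi (x' i) := by
      rw [← hjm]
      simp only [hgi', Core_act h7 hU]
    refine ⟨j ^ (1 + e * (Fintype.card α + Fintype.card β)) / mm ^ e,
      div_ne_zero (pow_ne_zero _ hj0) (pow_ne_zero _ hmm), fun o => ?_⟩
    have hqp' : fp k θ₀ (mob g w) x =
        j ^ Fintype.card α * (fp k θ₁ w fun i => act gi (x i)) / mp := by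
      rw [← hqp]; field_simp
    have hqm' : fm k θ₀ (mob g w) x' =
        j ^ Fintype.card β * (fm k θ₁ w fun i => act gi (x' i)) / mm := by
      rw [← hqm]; field_simp
    rcases o with _ | i
    · simp only [hf₀, hf₁, hX₁, hce, XF, if_true, hq]
      rw [hqp', hpm]
      exact Core_alg j _ _ _ mm g.det e _ _ hmm hdg0
    · simp only [hf₀, hf₁, hX₁, hce, XF, hq]
      rw [hqm']
      simp only [reduceCtorEq, if_false]
      exact Core_alg2 j _ _ _ mm e _ _ hmm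
  have hP1 : ∀ w ∈ Om α β, MvPolynomial.eval (fun i => f₁ i w) P = 0 := by
    intro w hw
    obtain ⟨j, hj0, hj1⟩ := hj w hw
    have h13 := hP (mob g w) (h8 α β μ g hU w hw).1
    have h14 := GAM.Core_hom hPm j (fun i => f₀ i (mob g w)) (fun i => f₁ i w) hj1
    have h15 : MvPolynomial.eval (fun i => f₀ i (mob g w)) P = 0 := h13
    rw [h14] at h15
    exact (mul_eq_zero.1 h15).resolve_left (pow_ne_zero m hj0)
  have hIO : Om α β ∈ nhds (0 : α × β → ℂ) := hO.mem_nhds h0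
  have hd₀ := h4 (α × β) (Option (α × β)) δ f₀ K₀ Ξ₀ (e * Bp₀.trace) (e * Bm₀.trace) m P hPm
    (fun o => hB₀ y x x' hy hx hx' o) (by
      filter_upwards [hIO] with w hw using hP w hw)
  have hd₁ := h4 (α × β) (Option (α × β)) δ f₁ K₁ Ξ₁ (e * Bp₁.trace) (e * Bm₁.trace) m P hPm
    (fun o => Core_cm h5 (hdce o) (hB₁ (fun i => act gi (y i)) (fun i => act gi (x i))
      (fun i => act gi (x' i)) (fun i => Core_odd h7 hM (hy i)) (fun i => Core_odd h7 hM (hx i))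
      (fun i => Core_odd h7 hM (hx' i)) o)) (by
      filter_upwards [hIO] with w hw using hP1 w hw)
  have hext : ∀ (f : Option (Option (α × β)) → (α × β → ℂ) → ℂ) (a : ℂ),
      (∀ o, DifferentiableOn ℂ (f o) (Om α β)) →
      (∀ᶠ z in nhds 0, (∑ m ∈ P.support, δ (P.coeff m) * MvPolynomial.eval (fun i => f i z)
        (MvPolynomial.monomial m 1)) +
        a * (f none z * MvPolynomial.eval (fun i => f i z) (MvPolynomial.pderiv none P)) = 0) →
      ∀ z ∈ Om α β, (∑ m ∈ P.support, δ (P.coeff m) * MvPolynomial.eval (fun i => f i z)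
        (MvPolynomial.monomial m 1)) +
        a * (f none z * MvPolynomial.eval (fun i => f i z) (MvPolynomial.pderiv none P)) = 0 := by
    intro f a hf hz z hzO
    refine Core_id h11 ?_ hz hzO
    refine DifferentiableOn.fun_add (DifferentiableOn.fun_sum fun d _ =>
      (differentiableOn_const _).fun_mul (Core_evD _ f hf)) ?_
    exact (differentiableOn_const _).fun_mul ((hf none).fun_mul (Core_evD _ f hf))
  have hA := hext f₀ _ hf₀D hd₀
  have hB := hext f₁ _ hf₁D hd₁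
  by_contra hne
  have he0 : (e : ℂ) ≠ 0 := by exact_mod_cast he
  have hne' : (e * Bp₀.trace - e * Bm₀.trace - (e * Bp₁.trace - e * Bm₁.trace) : ℂ) ≠ 0 := by
    intro h
    apply hne
    have : (e : ℂ) * ((Bp₀.trace - Bm₀.trace) - (Bp₁.trace - Bm₁.trace)) = 0 := by
      linear_combination h
    exact sub_eq_zero.1 ((mul_eq_zero.1 this).resolve_left he0)
  have hR1 : ∀ w ∈ Om α β, f₁ none w *
      MvPolynomial.eval (fun i => f₁ i w) (MvPolynomial.pderiv none P) = 0 := by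
    intro w hw
    obtain ⟨j, hj0, hj1⟩ := hj w hw
    have h13 := hA (mob g w) (h8 α β μ g hU w hw).1
    have h14 := GAM.Core_mon hPm δ j (fun i => f₀ i (mob g w)) (fun i => f₁ i w) hj1
    have h15 := Core_homN hPm j (fun i => f₀ i (mob g w)) (fun i => f₁ i w) hj1
    rw [h14, h15] at h13
    have h16 := hB w hw
    have h17 : j ^ m * ((e * Bp₀.trace - e * Bm₀.trace - (e * Bp₁.trace - e * Bm₁.trace) : ℂ) *
        (f₁ none w * MvPolynomial.eval (fun i => f₁ i w) (MvPolynomial.pderiv none P))) = 0 := by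
      linear_combination h13 - j ^ m * h16
    rcases mul_eq_zero.1 h17 with h18 | h18
    · exact absurd h18 (pow_ne_zero m hj0)
    · exact (mul_eq_zero.1 h18).resolve_left hne'
  have hR0 : ∀ w ∈ Om α β, f₀ none w *
      MvPolynomial.eval (fun i => f₀ i w) (MvPolynomial.pderiv none P) = 0 := by
    intro w hw
    have h13 := h8 α β μ gi hiU w hw
    have hw' := h13.1
    have h14 : mob g (mob gi w) = w := by
      rw [← h13.2.2.2.2.2.2.2 g hU, hgi, Core_mob1]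
    obtain ⟨j, hj0, hj1⟩ := hj _ hw'
    rw [h14] at hj1
    have h15 := Core_homN hPm j (fun i => f₀ i w) (fun i => f₁ i (mob gi w)) hj1
    rw [h15, hR1 _ hw', mul_zero]
  have h30 : f₀ none 0 ≠ 0 := by
    have h31 : f₀ none 0 = psi θ₀ 0 (y none) * psi θ₀ 0 (y none) ^ (e * Fintype.card β) *
      fp k θ₀ 0 x ^ e := rfl
    rw [h31]
    exact mul_ne_zero (mul_ne_zero hpsi (pow_ne_zero _ hpsi)) (pow_ne_zero _ hfp)
  have hc3 : ContinuousAt (f₀ none) 0 := ((hf₀D none).continuousOn).continuousAt hIO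
  have hev : ∀ᶠ z in nhds (0 : α × β → ℂ),
      MvPolynomial.eval (fun i => f₀ i z) (MvPolynomial.pderiv none P) = 0 := by
    filter_upwards [hc3.eventually_ne h30, hIO] with z hz1 hz2
    exact (mul_eq_zero.1 (hR0 z hz2)).resolve_left hz1
  exact hPz₁ (Core_id h11 (Core_evD _ f₀ hf₀D) hev hz₁)

end PST
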