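import Pool.Agent.PST.StF
import Pool.Agent.GAM.DelPsi
import Pool.Agent.GAM.EulW

/-!
# PST [DelE]: `δ` and the Fock functional
-/

set_option autoImplicit false

namespace PST

open scoped ComplexConjugate
open GAM (H E F pd pdl PLat IsTh OddTor IsDel Gro IsLat)

theorem DelE_sum {ι κ : Type} [Fintype ι] [DecidableEq ι] (δ : Derivation ℚ ℂ ℂ) (s : Finset κ)
    {f f' : κ → (ι → ℂ) → ℂ} (hf : ∀ k, IsDel δ (f k) (f' k)) :
    IsDel δ (fun v => ∑ k ∈ s, f k v) (fun v => ∑ k ∈ s, f' k v) := by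
  classical
  have hR := GAM.thm_DelR GAM.thm_Hol ι δ
  induction s using Finset.induction_on with
  | empty =>
    simp only [Finset.sum_empty]
    have h := hR.const 0
    rw [map_zero] at h
    exact h
  | insert k s hk ih =>
    simp only [Finset.sum_insert hk]
    exact hR.add _ _ _ _ (hf k) ih

section

variable {α β μ : Type} [Fintype α] [Fintype β] [Fintype μ] [DecidableEq α] [DecidableEq β]
  [DecidableEq μ]

theorem DelE_Dij {δ : Derivation ℚ ℂ ℂ} {G G' : (Ix α β μ → ℂ) → ℂ} (h : IsDel δ G G')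
    (p : α × β) : IsDel δ (Dij p G) (Dij p G') := by
  have hR := GAM.thm_DelR GAM.thm_Hol (Ix α β μ) δ
  exact DelE_sum δ Finset.univ fun k => hR.pd _ _ _ (hR.pd _ _ _ h)

theorem DelE_Dw {δ : Derivation ℚ ℂ ℂ} {G G' : (Ix α β μ → ℂ) → ℂ} (h : IsDel δ G G')
    (l : List (α × β)) : IsDel δ (Dw l G) (Dw l G') := by
  induction l with
  | nil => exact h
  | cons p l ih => exact DelE_Dij ih p

end

theorem thm_DelE (h1 : St_Ell) (h2 : St_EllW) (h3 : St_OmT) : St_DelE := by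
  intro α β μ _ _ _ _ _ _ δ G G' hG hG' hD
  obtain ⟨hopen, -, hmem, -⟩ := h3 α β
  have a1 : AnalyticAt ℂ (fun w => ell w G) 0 :=
    GAM.thm_Hol (α × β) (Om α β) _ hopen (h1 α β μ G hG).1 0 hmem
  have a2 : AnalyticAt ℂ (fun w => ell w G') 0 :=
    GAM.thm_Hol (α × β) (Om α β) _ hopen (h1 α β μ G' hG').1 0 hmem
  set c : ℂ := δ (Real.pi : ℂ) / Real.pi with hc
  set f : (α × β → ℂ) → ℂ := fun w => ell w G with hf
  set f' : (α × β → ℂ) → ℂ := fun w => ell w G' with hf'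
  have e : (fun w => ell w G' - c * ∑ p, w p * pd p f w) =
      fun w => f' w + (-c) * GAM.eul (fun _ => 1) f w := by
    funext w
    unfold GAM.eul
    simp only [one_mul]
    ring
  have a3 : AnalyticAt ℂ (GAM.eul (fun _ => 1) f) 0 := GAM.DelPsi_eul_an a1 _
  show IsDelG δ f (fun w => ell w G' - c * ∑ p, w p * pd p f w)
  rw [e]
  refine ⟨a1, a2.add (analyticAt_const.mul a3), fun l => ?_⟩
  rw [GAM.DelPsi_add (f := f') (g := fun w => (-c) * GAM.eul (fun _ => 1) f w) a2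
    (analyticAt_const.mul a3) l, GAM.DelPsi_mul a3, GAM.thm_EulW (α × β) (fun _ => 1) f l a1]
  have w1 : pdl l f 0 = (1 / Real.pi : ℂ) ^ l.length * Dw l G 0 := h2 α β μ G hG l
  have w2 : pdl l f' 0 = (1 / Real.pi : ℂ) ^ l.length * Dw l G' 0 := h2 α β μ G' hG' l
  have w3 : Dw l G' 0 = δ (Dw l G 0) := (DelE_Dw hD l).del []
  have w4 : (l.map fun _ : α × β => (1 : ℂ)).sum = l.length := by
    rw [List.map_const', List.sum_replicate, nsmul_eq_mul, mul_one]
  rw [w1, w2, w3, w4, Derivation.leibniz, GAM.DelPsi_pow, smul_eq_mul, smul_eq_mul]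
  ring

end PST
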