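import Pool.Agent.PST.StF
import Pool.Agent.GAM.DelDR

/-!
# PST [DelGR]: rules for germs of derivatives by `δ`
-/

set_option autoImplicit false
set_option linter.unusedSectionVars false

namespace PST

open scoped ComplexConjugate Topology
open Filter
open GAM (H E F pd pdl PLat IsTh OddTor IsDel Gro IsLat)

section gen

variable {ι : Type} [Fintype ι] [DecidableEq ι]

/-- a common neighbourhood -/
theorem DelGR_nhd {a b c d : (ι → ℂ) → ℂ} (ha : AnalyticAt ℂ a 0) (hb : AnalyticAt ℂ b 0)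
    (hc : AnalyticAt ℂ c 0) (hd : AnalyticAt ℂ d 0) :
    ∃ U : Set (ι → ℂ), IsOpen U ∧ 0 ∈ U ∧ DifferentiableOn ℂ a U ∧ DifferentiableOn ℂ b U ∧
      DifferentiableOn ℂ c U ∧ DifferentiableOn ℂ d U := by
  have h := (ha.eventually_analyticAt.and hb.eventually_analyticAt).and
    (hc.eventually_analyticAt.and hd.eventually_analyticAt)
  obtain ⟨U, h1, h2, h3⟩ := eventually_nhds_iff.1 h
  exact ⟨U, h2, h3, fun z hz => (h1 z hz).1.1.differentiableAt.differentiableWithinAt,
    fun z hz => (h1 z hz).1.2.differentiableAt.differentiableWithinAt,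
    fun z hz => (h1 z hz).2.1.differentiableAt.differentiableWithinAt,
    fun z hz => (h1 z hz).2.2.differentiableAt.differentiableWithinAt⟩

/-- a holomorphic function on a ball with vanishing Taylor coefficients vanishes -/
theorem DelGR_zero {r : ℝ} {h : (ι → ℂ) → ℂ} (hd : DifferentiableOn ℂ h (Metric.ball 0 r))
    (hl : ∀ l, pdl l h 0 = 0) {z : ι → ℂ} (hz : z ∈ Metric.ball (0 : ι → ℂ) r) : h z = 0 := by
  by_cases hz0 : z = 0
  · rw [hz0]
    exact hl []
  have hn : 0 < ‖z‖ := norm_pos_iff.mpr hz0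
  have hn1 : ‖z‖ < r := by simpa using hz
  have h1 : DifferentiableOn ℂ (fun t : ℂ => h (t • z)) (Metric.ball 0 (r / ‖z‖)) := by
    have h2 : Set.MapsTo (fun t : ℂ => t • z) (Metric.ball 0 (r / ‖z‖))
        (Metric.ball (0 : ι → ℂ) r) := by
      intro t ht
      rw [mem_ball_zero_iff] at ht ⊢
      rw [norm_smul]
      rwa [lt_div_iff₀ hn] at ht
    exact hd.comp (by fun_prop) h2
  have h3 := Complex.hasSum_taylorSeries_on_ball h1 (z := 1) (by
    rw [mem_ball_zero_iff, norm_one]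
    rwa [lt_div_iff₀ hn, one_mul])
  have h4 : ∀ n, iteratedDeriv n (fun t : ℂ => h (t • z)) 0 = 0 := fun n =>
    GAM.DelDR_line Metric.isOpen_ball (Metric.mem_ball_self (hn.trans hn1)) z n hd hl
  simp only [h4, smul_zero, one_smul] at h3
  exact h3.unique hasSum_zero

variable {δ : Derivation ℚ ℂ ℂ}

theorem DelGR_rconst (c : ℂ) : IsDelG δ (fun _ : ι → ℂ => c) (fun _ => δ c) := by
  refine ⟨analyticAt_const, analyticAt_const, fun l => ?_⟩
  by_cases hl : l = []
  · subst hl
    rfl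
  · rw [GAM.DelDR_pdl_const _ _ hl, GAM.DelDR_pdl_const _ _ hl, map_zero]

theorem DelGR_radd {a a' b b' : (ι → ℂ) → ℂ} (ha : IsDelG δ a a') (hb : IsDelG δ b b') :
    IsDelG δ (fun v => a v + b v) (fun v => a' v + b' v) := by
  obtain ⟨U, hU, h0, d1, d2, d3, d4⟩ := DelGR_nhd ha.an ha.an' hb.an hb.an'
  refine ⟨ha.an.add hb.an, ha.an'.add hb.an', fun l => ?_⟩
  rw [GAM.DelDR_pdl_add hU l d2 d4 0 h0, GAM.DelDR_pdl_add hU l d1 d3 0 h0, ha.del, hb.del,
    map_add]

theorem DelGR_rmul {a a' b b' : (ι → ℂ) → ℂ} (ha : IsDelG δ a a') (hb : IsDelG δ b b') :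
    IsDelG δ (fun v => a v * b v) (fun v => a' v * b v + a v * b' v) := by
  obtain ⟨U, hU, h0, d1, d2, d3, d4⟩ := DelGR_nhd ha.an ha.an' hb.an hb.an'
  exact ⟨ha.an.mul hb.an, (ha.an'.mul hb.an).add (ha.an.mul hb.an'), fun l =>
    GAM.DelDR_mul hU h0 δ l d1 d2 d3 d4 ha.del hb.del⟩

/-- equality near the origin is enough -/
theorem DelGR_congr {a a' b b' : (ι → ℂ) → ℂ} (ha : IsDelG δ a a') (h1 : a =ᶠ[𝓝 0] b)
    (h2 : a' =ᶠ[𝓝 0] b') : IsDelG δ b b' := by
  refine ⟨ha.an.congr h1, ha.an'.congr h2, fun l => ?_⟩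
  rw [← (GAM.DelDR_pdl_congr h1 l).eq_of_nhds, ← (GAM.DelDR_pdl_congr h2 l).eq_of_nhds]
  exact ha.del l

theorem DelGR_rpoly {κ : Type} [Fintype κ] [DecidableEq κ] (P : MvPolynomial κ ℂ)
    {f f' : κ → (ι → ℂ) → ℂ} (hf : ∀ i, IsDelG δ (f i) (f' i)) :
    IsDelG δ (fun z => MvPolynomial.eval (fun i => f i z) P)
      (fun z => GAM.DelDR_q δ P (fun i => f i z) +
        ∑ i, MvPolynomial.eval (fun i => f i z) (MvPolynomial.pderiv i P) * f' i z) := by
  induction P using MvPolynomial.induction_on with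
  | C c =>
    refine DelGR_congr (DelGR_rconst c) (Eventually.of_forall fun v => by simp)
      (Eventually.of_forall fun v => ?_)
    simp only
    rw [GAM.DelDR_q_C]
    simp
  | add P Q hP hQ =>
    refine DelGR_congr (DelGR_radd hP hQ) (Eventually.of_forall fun v => by simp)
      (Eventually.of_forall fun v => ?_)
    simp only [map_add, add_mul, Finset.sum_add_distrib, GAM.DelDR_q_add]
    ring
  | mul_X P i hP =>
    refine DelGR_congr (DelGR_rmul hP (hf i)) (Eventually.of_forall fun v => by simp)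
      (Eventually.of_forall fun v => ?_)
    simp only [MvPolynomial.pderiv_mul, map_add, map_mul, MvPolynomial.eval_X, add_mul,
      Finset.sum_add_distrib, GAM.DelDR_q_mul_X]
    have h1 : ∑ k, MvPolynomial.eval (fun i => f i v) P *
        MvPolynomial.eval (fun i => f i v) (MvPolynomial.pderiv k (MvPolynomial.X i)) * f' k v =
        MvPolynomial.eval (fun i => f i v) P * f' i v := by
      rw [Finset.sum_eq_single i]
      · simp
      · intro k _ hk
        rw [MvPolynomial.pderiv_X_of_ne (Ne.symm hk)]; simp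
      · intro h; exact absurd (Finset.mem_univ _) h
    have h2 : ∑ k, MvPolynomial.eval (fun i => f i v) (MvPolynomial.pderiv k P) * f i v *
        f' k v =
        (∑ k, MvPolynomial.eval (fun i => f i v) (MvPolynomial.pderiv k P) * f' k v) * f i v := by
      rw [Finset.sum_mul]
      exact Finset.sum_congr rfl fun k _ => by ring
    rw [h1, h2]
    ring

theorem DelGR_runiq {a b a' b' : (ι → ℂ) → ℂ} (h : IsDelG δ a b) (h' : IsDelG δ a' b')
    (he : ∀ᶠ z in 𝓝 0, a z = a' z) : ∀ᶠ z in 𝓝 0, b z = b' z := by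
  have h1 : IsDelG δ a b' := DelGR_congr h' (he.mono fun z hz => hz.symm) (Eventually.of_forall
    fun _ => rfl)
  obtain ⟨U, hU, h0, -, d2, -, d4⟩ := DelGR_nhd h.an h.an' h1.an h1.an'
  obtain ⟨r, hr, hrU⟩ := Metric.isOpen_iff.1 hU 0 h0
  filter_upwards [Metric.ball_mem_nhds (0 : ι → ℂ) hr] with z hz
  have h2 : b z + (-1) * b' z = 0 := by
    refine DelGR_zero (r := r) (h := fun v => b v + (-1) * b' v) ?_ (fun l => ?_) hz
    · exact (d2.add (d4.const_mul _)).mono hrU
    · have h3 := GAM.DelDR_pdl_add hU l (f := b) (g := fun v => (-1) * b' v) d2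
        (d4.const_mul _) 0 h0
      have h4 := GAM.DelDR_pdl_const_mul hU (-1) l d4 0 h0
      rw [h3, h4, h.del, h1.del]
      ring
  linear_combination h2

end gen

theorem thm_DelGR : St_DelGR := by
  intro κ _ _ δ
  exact ⟨DelGR_rconst, fun a a' b b' ha hb => DelGR_radd ha hb,
    fun a a' b b' ha hb => DelGR_rmul ha hb, fun τ _ _ P f f' hf => DelGR_rpoly P hf,
    fun a b a' b' h h' he => DelGR_runiq h h' he⟩

end PST
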