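import Pool.Agent.PST.StF
import Pool.Agent.GAM.Hol
import Pool.Agent.GAM.DelR
import Pool.Agent.GAM.EulW
import Pool.Agent.GAM.GroF
import Pool.Agent.GAM.GroU
import Pool.Agent.GAM.GroC

/-!
# PST [DelX]: the action of `δ` on the functions `XF`
-/

set_option autoImplicit false

namespace PST

open scoped ComplexConjugate
open GAM (H E F pd pdl PLat IsTh OddTor IsDel Gro IsLat)

/-! ## Derivatives of entire functions -/

section pds

variable {ι : Type} [Fintype ι] [DecidableEq ι]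

lemma DelX_pd_add {f g : (ι → ℂ) → ℂ} (hf : ∀ z, AnalyticAt ℂ f z) (hg : ∀ z, AnalyticAt ℂ g z)
    (q : ι) (z : ι → ℂ) : pd q (fun v => f v + g v) z = pd q f z + pd q g z :=
  GAM.DelR_pdl_add hf hg [q] z

lemma DelX_pd_mulc {f : (ι → ℂ) → ℂ} (hf : ∀ z, AnalyticAt ℂ f z) (c : ℂ)
    (q : ι) (z : ι → ℂ) : pd q (fun v => c * f v) z = c * pd q f z :=
  GAM.DelR_pdl_mul hf c [q] z

lemma DelX_pd_sum {a : Type} (s : Finset a) {f : a → (ι → ℂ) → ℂ}
    (hf : ∀ a z, AnalyticAt ℂ (f a) z) (q : ι) (z : ι → ℂ) :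
    pd q (fun v => ∑ a ∈ s, f a v) z = ∑ a ∈ s, pd q (f a) z :=
  GAM.DelR_pdl_sum s hf [q] z

omit [DecidableEq ι] in
lemma DelX_coord_an (a : ι) (z : ι → ℂ) : AnalyticAt ℂ (fun v : ι → ℂ => v a) z :=
  (ContinuousLinearMap.proj a : (ι → ℂ) →L[ℂ] ℂ).analyticAt z

omit [DecidableEq ι] in
lemma DelX_sum_an {a : Type} (s : Finset a) {f : a → (ι → ℂ) → ℂ}
    (hf : ∀ a z, AnalyticAt ℂ (f a) z) (z : ι → ℂ) :
    AnalyticAt ℂ (fun v => ∑ a ∈ s, f a v) z := by
  have h2 : (∑ a ∈ s, f a) = fun v => ∑ a ∈ s, f a v := by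
    funext v; rw [Finset.sum_apply]
  rw [← h2]
  exact Finset.analyticAt_sum _ fun a _ => hf a z

lemma DelX_pd_coord {f : (ι → ℂ) → ℂ} (hf : ∀ z, AnalyticAt ℂ f z) (a q : ι) (z : ι → ℂ) :
    pd q (fun v => v a * f v) z = (if a = q then 1 else 0) * f z + z a * pd q f z := by
  have h1 := GAM.DelR_pd_mul (fun z => DelX_coord_an a z) hf q
  rw [h1, GAM.DelR_pd_coord]

lemma DelX_pd_an {f : (ι → ℂ) → ℂ} (hf : ∀ z, AnalyticAt ℂ f z) (q : ι) :
    ∀ z, AnalyticAt ℂ (pd q f) z := GAM.DelR_pd_an hf q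

omit [DecidableEq ι] in
lemma DelX_coord_mul {f : (ι → ℂ) → ℂ} (hf : ∀ z, AnalyticAt ℂ f z) (a : ι) :
    ∀ z, AnalyticAt ℂ (fun v => v a * f v) z := fun z => (DelX_coord_an a z).mul (hf z)

omit [DecidableEq ι] in
lemma DelX_const_mul {f : (ι → ℂ) → ℂ} (hf : ∀ z, AnalyticAt ℂ f z) (c : ℂ) :
    ∀ z, AnalyticAt ℂ (fun v => c * f v) z := fun z => analyticAt_const.mul (hf z)

end pds

section hops

variable {α β μ : Type} [Fintype α] [Fintype β] [Fintype μ]
  [DecidableEq α] [DecidableEq β] [DecidableEq μ]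

/-- the commutator of a derivative and the operator `hop` -/
noncomputable def DelX_ex (Bp : Matrix α α ℂ) (Bm : Matrix β β ℂ) (c : Matrix α β ℂ)
    (G : (Ix α β μ → ℂ) → ℂ) (q : Ix α β μ) (v : Ix α β μ → ℂ) : ℂ :=
  ∑ m, ∑ i, ∑ i', Bp i i' * ((if ((Sum.inl i', m) : Ix α β μ) = q then 1 else 0) *
      pd (Sum.inl i, m) G v) +
    ∑ m, ∑ j, ∑ j', Bm j j' * ((if ((Sum.inr j', m) : Ix α β μ) = q then 1 else 0) *
      pd (Sum.inr j, m) G v) +
    ∑ m, ∑ i, ∑ j, c i j * ((if ((Sum.inl i, m) : Ix α β μ) = q then 1 else 0) *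
      (v (Sum.inr j, m) * G v) + v (Sum.inl i, m) *
      ((if ((Sum.inr j, m) : Ix α β μ) = q then 1 else 0) * G v))

lemma DelX_pd_hop (k : ℂ) (Bp : Matrix α α ℂ) (Bm : Matrix β β ℂ) (c : Matrix α β ℂ)
    {G : (Ix α β μ → ℂ) → ℂ} (hG : ∀ z, AnalyticAt ℂ G z) (q : Ix α β μ) (v : Ix α β μ → ℂ) :
    pd q (hop k Bp Bm c G) v = hop k Bp Bm c (pd q G) v + DelX_ex Bp Bm c G q v := by
  have hsw : ∀ p, pd q (pd p G) v = pd p (pd q G) v := fun p => GAM.EulW_comm (hG v) q p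
  -- analyticity
  have a1 := DelX_const_mul hG k
  have a2 : ∀ (m : μ) (i i' : α), ∀ z, AnalyticAt ℂ
      (fun v => Bp i i' * (v (Sum.inl i', m) * pd (Sum.inl i, m) G v)) z := fun m i i' =>
    DelX_const_mul (DelX_coord_mul (DelX_pd_an hG _) _) _
  have a3 : ∀ (m : μ) (j j' : β), ∀ z, AnalyticAt ℂ
      (fun v => Bm j j' * (v (Sum.inr j', m) * pd (Sum.inr j, m) G v)) z := fun m j j' =>
    DelX_const_mul (DelX_coord_mul (DelX_pd_an hG _) _) _
  have a4 : ∀ (m : μ) (i : α) (j : β), ∀ z, AnalyticAt ℂ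
      (fun v => c i j * (v (Sum.inl i, m) * (v (Sum.inr j, m) * G v))) z := fun m i j =>
    DelX_const_mul (DelX_coord_mul (DelX_coord_mul hG _) _) _
  have b2 := fun m i => DelX_sum_an Finset.univ (fun i' => a2 m i i')
  have b3 := fun m j => DelX_sum_an Finset.univ (fun j' => a3 m j j')
  have b4 := fun m i => DelX_sum_an Finset.univ (fun j => a4 m i j)
  have c2 := fun m => DelX_sum_an Finset.univ (fun i => b2 m i)
  have c3 := fun m => DelX_sum_an Finset.univ (fun j => b3 m j)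
  have c4 := fun m => DelX_sum_an Finset.univ (fun i => b4 m i)
  have d2 := DelX_sum_an Finset.univ c2
  have d3 := DelX_sum_an Finset.univ c3
  have d4 := DelX_sum_an Finset.univ c4
  have e2 : pd q (fun v => ∑ m, ∑ i, ∑ i', Bp i i' * (v (Sum.inl i', m) *
      pd (Sum.inl i, m) G v)) v = ∑ m, ∑ i, ∑ i', (Bp i i' * (v (Sum.inl i', m) *
      pd (Sum.inl i, m) (pd q G) v) + Bp i i' *
      ((if ((Sum.inl i', m) : Ix α β μ) = q then 1 else 0) * pd (Sum.inl i, m) G v)) := by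
    rw [DelX_pd_sum _ c2]
    refine Finset.sum_congr rfl fun m _ => ?_
    rw [DelX_pd_sum _ (b2 m)]
    refine Finset.sum_congr rfl fun i _ => ?_
    rw [DelX_pd_sum _ (a2 m i)]
    refine Finset.sum_congr rfl fun i' _ => ?_
    rw [DelX_pd_mulc (DelX_coord_mul (DelX_pd_an hG _) _), DelX_pd_coord (DelX_pd_an hG _), hsw]
    ring
  have e3 : pd q (fun v => ∑ m, ∑ j, ∑ j', Bm j j' * (v (Sum.inr j', m) *
      pd (Sum.inr j, m) G v)) v = ∑ m, ∑ j, ∑ j', (Bm j j' * (v (Sum.inr j', m) *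
      pd (Sum.inr j, m) (pd q G) v) + Bm j j' *
      ((if ((Sum.inr j', m) : Ix α β μ) = q then 1 else 0) * pd (Sum.inr j, m) G v)) := by
    rw [DelX_pd_sum _ c3]
    refine Finset.sum_congr rfl fun m _ => ?_
    rw [DelX_pd_sum _ (b3 m)]
    refine Finset.sum_congr rfl fun j _ => ?_
    rw [DelX_pd_sum _ (a3 m j)]
    refine Finset.sum_congr rfl fun j' _ => ?_
    rw [DelX_pd_mulc (DelX_coord_mul (DelX_pd_an hG _) _), DelX_pd_coord (DelX_pd_an hG _), hsw]
    ring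
  have e4 : pd q (fun v => ∑ m, ∑ i, ∑ j, c i j * (v (Sum.inl i, m) * (v (Sum.inr j, m) *
      G v))) v = ∑ m, ∑ i, ∑ j, (c i j * (v (Sum.inl i, m) * (v (Sum.inr j, m) * pd q G v)) +
      c i j * ((if ((Sum.inl i, m) : Ix α β μ) = q then 1 else 0) *
      (v (Sum.inr j, m) * G v) + v (Sum.inl i, m) *
      ((if ((Sum.inr j, m) : Ix α β μ) = q then 1 else 0) * G v))) := by
    rw [DelX_pd_sum _ c4]
    refine Finset.sum_congr rfl fun m _ => ?_
    rw [DelX_pd_sum _ (b4 m)]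
    refine Finset.sum_congr rfl fun i _ => ?_
    rw [DelX_pd_sum _ (a4 m i)]
    refine Finset.sum_congr rfl fun j _ => ?_
    rw [DelX_pd_mulc (DelX_coord_mul (DelX_coord_mul hG _) _),
      DelX_pd_coord (DelX_coord_mul hG _), DelX_pd_coord hG]
    ring
  have e : pd q (hop k Bp Bm c G) v = k * pd q G v +
      pd q (fun v => ∑ m, ∑ i, ∑ i', Bp i i' * (v (Sum.inl i', m) * pd (Sum.inl i, m) G v)) v +
      pd q (fun v => ∑ m, ∑ j, ∑ j', Bm j j' * (v (Sum.inr j', m) * pd (Sum.inr j, m) G v)) v +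
      pd q (fun v => ∑ m, ∑ i, ∑ j, c i j * (v (Sum.inl i, m) * (v (Sum.inr j, m) * G v))) v := by
    have f1 := DelX_pd_add (fun z => ((a1 z).add (d2 z)).add (d3 z)) d4 q v
    have f2 := DelX_pd_add (fun z => (a1 z).add (d2 z)) d3 q v
    have f3 := DelX_pd_add a1 d2 q v
    have f4 := DelX_pd_mulc hG k q v
    exact f1.trans (by
      congr 1
      exact f2.trans (by
        congr 1
        exact f3.trans (by rw [f4])))
  rw [e, e2, e3, e4]
  unfold hop DelX_ex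
  simp only [Finset.sum_add_distrib]
  ring

lemma DelX_ex_inl (Bp : Matrix α α ℂ) (Bm : Matrix β β ℂ) (c : Matrix α β ℂ)
    (G : (Ix α β μ → ℂ) → ℂ) (i₀ : α) (m₀ : μ) (v : Ix α β μ → ℂ) :
    DelX_ex Bp Bm c G (Sum.inl i₀, m₀) v = ∑ i, Bp i i₀ * pd (Sum.inl i, m₀) G v +
      ∑ j, c i₀ j * (v (Sum.inr j, m₀) * G v) := by
  unfold DelX_ex
  simp only [Prod.mk.injEq, Sum.inl.injEq, reduceCtorEq, false_and, if_false, zero_mul, mul_zero,
    Finset.sum_const_zero, add_zero, ite_and, ite_mul, mul_ite, one_mul]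
  congr 1
  · simp only [Finset.sum_ite_eq', Finset.mem_univ, if_true]
    rw [Finset.sum_comm]
    simp only [Finset.sum_ite_eq', Finset.mem_univ, if_true]
  · rw [Finset.sum_comm]
    simp only [Finset.sum_ite_irrel, Finset.sum_const_zero, Finset.sum_ite_eq', Finset.mem_univ,
      if_true]

lemma DelX_ex_inr (Bp : Matrix α α ℂ) (Bm : Matrix β β ℂ) (c : Matrix α β ℂ)
    (G : (Ix α β μ → ℂ) → ℂ) (j₀ : β) (m₀ : μ) (v : Ix α β μ → ℂ) :
    DelX_ex Bp Bm c G (Sum.inr j₀, m₀) v = ∑ j, Bm j j₀ * pd (Sum.inr j, m₀) G v +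
      ∑ i, c i j₀ * (v (Sum.inl i, m₀) * G v) := by
  unfold DelX_ex
  simp only [Prod.mk.injEq, Sum.inr.injEq, reduceCtorEq, false_and, if_false, zero_mul, mul_zero,
    Finset.sum_const_zero, zero_add, ite_and, ite_mul, mul_ite, one_mul]
  congr 1
  · simp only [Finset.sum_ite_eq', Finset.mem_univ, if_true]
    rw [Finset.sum_comm]
    simp only [Finset.sum_ite_eq', Finset.mem_univ, if_true]
  · rw [Finset.sum_comm]
    simp only [Finset.sum_ite_eq', Finset.mem_univ, if_true]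

end hops

/-! ## Functions of growth at most Gaussian -/

section gros

variable {ι : Type} [Fintype ι] [DecidableEq ι]

lemma DelX_Gro : GAM.St_GroF := GAM.thm_GroF GAM.thm_GroU GAM.thm_GroC

lemma DelX_groc {G : (ι → ℂ) → ℂ} (hG : Gro G) (c : ℂ) : Gro fun v => c * G v :=
  (DelX_Gro ι).2.2.2.1 G hG c

lemma DelX_groa {G G' : (ι → ℂ) → ℂ} (hG : Gro G) (hG' : Gro G') : Gro fun v => G v + G' v :=
  (DelX_Gro ι).2.2.2.2 G G' hG hG'

lemma DelX_grop {G : (ι → ℂ) → ℂ} (hG : Gro G) (q : ι) : Gro (pd q G) :=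
  (DelX_Gro ι).2.1 G hG q

lemma DelX_grov {G : (ι → ℂ) → ℂ} (hG : Gro G) (q : ι) : Gro fun v => v q * G v :=
  (DelX_Gro ι).2.2.1 G hG q

lemma DelX_gro0 {G : (ι → ℂ) → ℂ} (hG : Gro G) : Gro fun _ : ι → ℂ => (0 : ℂ) := by
  have h := DelX_groc hG 0
  simpa only [zero_mul] using h

lemma DelX_gros {G : (ι → ℂ) → ℂ} (hG : Gro G) {a : Type} (s : Finset a)
    {f : a → (ι → ℂ) → ℂ} (hf : ∀ i, Gro (f i)) : Gro fun v => ∑ i ∈ s, f i v := by
  classical
  induction s using Finset.induction_on with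
  | empty => simpa using DelX_gro0 hG
  | insert b s hb ih =>
    simp only [Finset.sum_insert hb]
    exact DelX_groa (hf b) ih

end gros

section ells

variable {α β μ : Type} [Fintype α] [Fintype β] [Fintype μ]
  [DecidableEq α] [DecidableEq β] [DecidableEq μ]

omit [Fintype α] [DecidableEq α] [DecidableEq β] [DecidableEq μ] in
lemma DelX_ell0 (w : α × β → ℂ) : ell w (fun _ : Ix α β μ → ℂ => (0 : ℂ)) = 0 := by
  unfold ell
  simp

lemma DelX_ells (h1 : St_Ell) {G : (Ix α β μ → ℂ) → ℂ} (hG : Gro G) {w : α × β → ℂ}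
    (hw : w ∈ Om α β) {a : Type} (s : Finset a) {f : a → (Ix α β μ → ℂ) → ℂ} (c : a → ℂ)
    (hf : ∀ i, Gro (f i)) :
    ell w (fun v => ∑ i ∈ s, c i * f i v) = ∑ i ∈ s, c i * ell w (f i) := by
  classical
  induction s using Finset.induction_on with
  | empty => simp [DelX_ell0]
  | insert b s hb ih =>
    simp only [Finset.sum_insert hb]
    obtain ⟨-, -, h2⟩ := h1 α β μ (fun v => c b * f b v) (DelX_groc (hf b) _)
    obtain ⟨-, -, h3⟩ := h1 α β μ (f b) (hf b)
    rw [(h2 w hw).2.2.2.2 _ (DelX_gros hG s fun i => DelX_groc (hf i) (c i)),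
      (h3 w hw).2.2.2.1, ih]

lemma DelX_ex_gro (Bp : Matrix α α ℂ) (Bm : Matrix β β ℂ) (c : Matrix α β ℂ)
    {G : (Ix α β μ → ℂ) → ℂ} (hG : Gro G) (q : Ix α β μ) : Gro (DelX_ex Bp Bm c G q) := by
  obtain ⟨i₀ | j₀, m₀⟩ := q
  · have h : DelX_ex Bp Bm c G (Sum.inl i₀, m₀) = fun v => ∑ i, Bp i i₀ * pd (Sum.inl i, m₀) G v +
        ∑ j, c i₀ j * (v (Sum.inr j, m₀) * G v) := by
      funext v
      rw [DelX_ex_inl]
    rw [h]
    exact DelX_groa (DelX_gros hG _ fun i => DelX_groc (DelX_grop hG _) _)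
      (DelX_gros hG _ fun i => DelX_groc (DelX_grov hG _) _)
  · have h : DelX_ex Bp Bm c G (Sum.inr j₀, m₀) = fun v => ∑ j, Bm j j₀ * pd (Sum.inr j, m₀) G v +
        ∑ i, c i j₀ * (v (Sum.inl i, m₀) * G v) := by
      funext v
      rw [DelX_ex_inr]
    rw [h]
    exact DelX_groa (DelX_gros hG _ fun i => DelX_groc (DelX_grop hG _) _)
      (DelX_gros hG _ fun i => DelX_groc (DelX_grov hG _) _)

/-- the matrix `N` -/
noncomputable def DelX_Np (Bp : Matrix α α ℂ) (c : Matrix α β ℂ) (w : α × β → ℂ) :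
    Matrix α α ℂ := Matrix.of fun i i₀ => Bp i i₀ + 1 / Real.pi * ∑ j, c i₀ j * w (i, j)

noncomputable def DelX_Nm (Bm : Matrix β β ℂ) (c : Matrix α β ℂ) (w : α × β → ℂ) :
    Matrix β β ℂ := Matrix.of fun j j₀ => Bm j j₀ + 1 / Real.pi * ∑ i, c i j₀ * w (i, j)

lemma DelX_ell_inl (h1 : St_Ell) (Bp : Matrix α α ℂ) (Bm : Matrix β β ℂ) (c : Matrix α β ℂ)
    {G : (Ix α β μ → ℂ) → ℂ} (hG : Gro G) (i₀ : α) (m₀ : μ) {w : α × β → ℂ} (hw : w ∈ Om α β) :
    ell w (DelX_ex Bp Bm c G (Sum.inl i₀, m₀)) =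
      ∑ i, DelX_Np Bp c w i i₀ * ell w (pd (Sum.inl i, m₀) G) := by
  have h : DelX_ex Bp Bm c G (Sum.inl i₀, m₀) = fun v => ∑ i, Bp i i₀ * pd (Sum.inl i, m₀) G v +
      ∑ j, c i₀ j * (v (Sum.inr j, m₀) * G v) := by
    funext v
    rw [DelX_ex_inl]
  have g1 : Gro fun v => ∑ i, Bp i i₀ * pd (Sum.inl i, m₀) G v :=
    DelX_gros hG _ fun i => DelX_groc (DelX_grop hG _) _
  have g2 : Gro fun v : Ix α β μ → ℂ => ∑ j, c i₀ j * (v (Sum.inr j, m₀) * G v) :=
    DelX_gros hG _ fun i => DelX_groc (DelX_grov hG _) _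
  obtain ⟨-, -, h2⟩ := h1 α β μ _ g1
  obtain ⟨-, -, h3⟩ := h1 α β μ G hG
  rw [h, (h2 w hw).2.2.2.2 _ g2, DelX_ells h1 hG hw Finset.univ (fun i => Bp i i₀)
    (fun i => DelX_grop hG _), DelX_ells h1 hG hw Finset.univ (fun j => c i₀ j)
    (f := fun j v => v (Sum.inr j, m₀) * G v) (fun j => DelX_grov hG _)]
  simp only [(h3 w hw).2.2.1]
  have h4 : ∀ i, DelX_Np Bp c w i i₀ * ell w (pd (Sum.inl i, m₀) G) =
      Bp i i₀ * ell w (pd (Sum.inl i, m₀) G) +
        ∑ j, c i₀ j * (1 / Real.pi * (w (i, j) * ell w (pd (Sum.inl i, m₀) G))) := by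
    intro i
    unfold DelX_Np
    rw [Matrix.of_apply, add_mul, mul_assoc, Finset.sum_mul, Finset.mul_sum]
    congr 1
    refine Finset.sum_congr rfl fun j _ => ?_
    ring
  rw [Finset.sum_congr rfl fun i _ => h4 i, Finset.sum_add_distrib]
  congr 1
  rw [Finset.sum_comm]
  refine Finset.sum_congr rfl fun j _ => ?_
  rw [Finset.mul_sum, Finset.mul_sum]

lemma DelX_ell_inr (h1 : St_Ell) (Bp : Matrix α α ℂ) (Bm : Matrix β β ℂ) (c : Matrix α β ℂ)
    {G : (Ix α β μ → ℂ) → ℂ} (hG : Gro G) (j₀ : β) (m₀ : μ) {w : α × β → ℂ} (hw : w ∈ Om α β) :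
    ell w (DelX_ex Bp Bm c G (Sum.inr j₀, m₀)) =
      ∑ j, DelX_Nm Bm c w j j₀ * ell w (pd (Sum.inr j, m₀) G) := by
  have h : DelX_ex Bp Bm c G (Sum.inr j₀, m₀) = fun v => ∑ j, Bm j j₀ * pd (Sum.inr j, m₀) G v +
      ∑ i, c i j₀ * (v (Sum.inl i, m₀) * G v) := by
    funext v
    rw [DelX_ex_inr]
  have g1 : Gro fun v => ∑ i, Bm i j₀ * pd (Sum.inr i, m₀) G v :=
    DelX_gros hG _ fun i => DelX_groc (DelX_grop hG _) _
  have g2 : Gro fun v : Ix α β μ → ℂ => ∑ i, c i j₀ * (v (Sum.inl i, m₀) * G v) :=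
    DelX_gros hG _ fun i => DelX_groc (DelX_grov hG _) _
  obtain ⟨-, -, h2⟩ := h1 α β μ _ g1
  obtain ⟨-, -, h3⟩ := h1 α β μ G hG
  rw [h, (h2 w hw).2.2.2.2 _ g2, DelX_ells h1 hG hw Finset.univ (fun i => Bm i j₀)
    (fun i => DelX_grop hG _), DelX_ells h1 hG hw Finset.univ (fun i => c i j₀)
    (f := fun i v => v (Sum.inl i, m₀) * G v) (fun j => DelX_grov hG _)]
  simp only [(h3 w hw).2.1]
  have h4 : ∀ j, DelX_Nm Bm c w j j₀ * ell w (pd (Sum.inr j, m₀) G) =
      Bm j j₀ * ell w (pd (Sum.inr j, m₀) G) +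
        ∑ i, c i j₀ * (1 / Real.pi * (w (i, j) * ell w (pd (Sum.inr j, m₀) G))) := by
    intro j
    unfold DelX_Nm
    rw [Matrix.of_apply, add_mul, mul_assoc, Finset.sum_mul, Finset.mul_sum]
    congr 1
    refine Finset.sum_congr rfl fun j _ => ?_
    ring
  rw [Finset.sum_congr rfl fun i _ => h4 i, Finset.sum_add_distrib]
  congr 1
  rw [Finset.sum_comm]
  refine Finset.sum_congr rfl fun j _ => ?_
  rw [Finset.mul_sum, Finset.mul_sum]

end ells

/-! ## Congruence for `IsDelG` -/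

section cong

variable {κ : Type} [Fintype κ] [DecidableEq κ]

omit [Fintype κ] in
lemma DelX_pdl_congr {f g : (κ → ℂ) → ℂ} (h : f =ᶠ[nhds 0] g) (l : List κ) :
    pdl l f =ᶠ[nhds 0] pdl l g := by
  induction l with
  | nil => exact h
  | cons a l ih =>
    have h1 := ih.fderiv (𝕜 := ℂ)
    refine h1.mono fun z hz => ?_
    change fderiv ℂ (pdl l f) z (Pi.single a 1) = fderiv ℂ (pdl l g) z (Pi.single a 1)
    rw [hz]

lemma DelX_congr {δ : Derivation ℚ ℂ ℂ} {a b a' b' : (κ → ℂ) → ℂ} (h : IsDelG δ a b)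
    (ha : a' =ᶠ[nhds 0] a) (hb : b' =ᶠ[nhds 0] b) : IsDelG δ a' b' where
  an := h.an.congr ha.symm
  an' := h.an'.congr hb.symm
  del l := by
    rw [(DelX_pdl_congr hb l).eq_of_nhds, (DelX_pdl_congr ha l).eq_of_nhds, h.del l]

/-- `δ f = r f + Ξ ∂ f` -/
def DelX_T (δ : Derivation ℚ ℂ ℂ) (Ξ : κ → (κ → ℂ) → ℂ) (r f : (κ → ℂ) → ℂ) : Prop :=
  IsDelG δ f fun z => r z * f z + ∑ p, Ξ p z * pd p f z

lemma DelX_Tmul {δ : Derivation ℚ ℂ ℂ} (hR : DelGRules κ δ) {Ξ : κ → (κ → ℂ) → ℂ}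
    {r s f g : (κ → ℂ) → ℂ} (hf : DelX_T δ Ξ r f) (hg : DelX_T δ Ξ s g) :
    DelX_T δ Ξ (fun z => r z + s z) (fun z => f z * g z) := by
  refine DelX_congr (hR.mul _ _ _ _ hf hg) Filter.EventuallyEq.rfl ?_
  filter_upwards [hf.an.eventually_analyticAt, hg.an.eventually_analyticAt] with z hz1 hz2
  have h1 : ∀ p, pd p (fun z => f z * g z) z = pd p f z * g z + f z * pd p g z := fun p =>
    Pool.Agent.Helper8.dd_mul hz1 hz2 _
  simp only [h1, mul_add, add_mul, Finset.sum_add_distrib]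
  rw [Finset.sum_mul, Finset.mul_sum]
  have h2 : ∀ p, Ξ p z * (pd p f z * g z) = Ξ p z * pd p f z * g z := fun p => by ring
  have h3 : ∀ p, Ξ p z * (f z * pd p g z) = f z * (Ξ p z * pd p g z) := fun p => by ring
  simp only [h2, h3]
  ring

lemma DelX_Tone {δ : Derivation ℚ ℂ ℂ} (hR : DelGRules κ δ) (Ξ : κ → (κ → ℂ) → ℂ) :
    DelX_T δ Ξ (fun _ => 0) (fun _ => 1) := by
  refine DelX_congr (hR.const 1) Filter.EventuallyEq.rfl (Filter.Eventually.of_forall fun z => ?_)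
  simp [GAM.DelR_pd_const]

lemma DelX_Tpow {δ : Derivation ℚ ℂ ℂ} (hR : DelGRules κ δ) {Ξ : κ → (κ → ℂ) → ℂ}
    {r f : (κ → ℂ) → ℂ} (hf : DelX_T δ Ξ r f) (n : ℕ) :
    DelX_T δ Ξ (fun z => n * r z) (fun z => f z ^ n) := by
  induction n with
  | zero =>
    have h := DelX_Tone hR Ξ
    simpa only [Nat.cast_zero, zero_mul, pow_zero] using h
  | succ n ih =>
    have h := DelX_Tmul hR ih hf
    have e1 : (fun z => ((n + 1 : ℕ) : ℂ) * r z) = fun z => n * r z + r z := by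
      funext z; push_cast; ring
    have e2 : (fun z => f z ^ (n + 1)) = fun z => f z ^ n * f z := by
      funext z; rw [pow_succ]
    rw [e1, e2]
    exact h

end cong

/-! ## Determinants -/

section dets

lemma DelX_tr {ν : Type} [Fintype ν] [DecidableEq ν] (M V : Matrix ν ν ℂ) :
    ∑ σ : Equiv.Perm ν, ((Equiv.Perm.sign σ : ℤ) : ℂ) *
      ∑ b, ∏ i, (if i = b then V (σ i) i else M (σ i) i) = (M.adjugate * V).trace := by
  have h1 : ∀ b, (M.adjugate * V) b b = ∑ σ : Equiv.Perm ν, ((Equiv.Perm.sign σ : ℤ) : ℂ) *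
      ∏ i, (if i = b then V (σ i) i else M (σ i) i) := by
    intro b
    have h2 : (M.adjugate * V) b b = (M.adjugate.mulVec fun i => V i b) b := rfl
    rw [h2, ← Matrix.cramer_eq_adjugate_mulVec, Matrix.cramer_apply, Matrix.det_apply']
    refine Finset.sum_congr rfl fun σ _ => ?_
    congr 1
    refine Finset.prod_congr rfl fun i _ => ?_
    rw [Matrix.updateCol_apply]
    split_ifs with h
    · rw [h]
    · rfl
  unfold Matrix.trace
  simp only [Matrix.diag_apply]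
  rw [Finset.sum_congr rfl fun b _ => h1 b, Finset.sum_comm]
  refine Finset.sum_congr rfl fun σ _ => ?_
  rw [Finset.mul_sum]

lemma DelX_prodR {X ν : Type} [DecidableEq ν] (R : (X → ℂ) → (X → ℂ) → Prop)
    (hint : ∀ n : ℤ, R (fun _ => (n : ℂ)) (fun _ => 0))
    (hmul : ∀ a a' b b', R a a' → R b b' →
      R (fun v => a v * b v) (fun v => a' v * b v + a v * b' v))
    (g g' : ν → X → ℂ) (h : ∀ i, R (g i) (g' i)) (s : Finset ν) :
    R (fun w => ∏ i ∈ s, g i w)
      (fun w => ∑ b ∈ s, ∏ i ∈ s, (if i = b then g' i w else g i w)) := by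
  induction s using Finset.induction_on with
  | empty =>
    have h1 := hint 1
    simpa using h1
  | insert a s ha ih =>
    have h1 := hmul _ _ _ _ (h a) ih
    have e1 : (fun w => ∏ i ∈ insert a s, g i w) = fun w => g a w * ∏ i ∈ s, g i w := by
      funext w
      rw [Finset.prod_insert ha]
    have e2 : (fun w => ∑ b ∈ insert a s, ∏ i ∈ insert a s, (if i = b then g' i w else g i w)) =
        fun w => g' a w * ∏ i ∈ s, g i w +
          g a w * ∑ b ∈ s, ∏ i ∈ s, (if i = b then g' i w else g i w) := by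
      funext w
      rw [Finset.sum_insert ha, Finset.prod_insert ha, if_pos rfl, Finset.mul_sum]
      congr 1
      · congr 1
        refine Finset.prod_congr rfl fun i hi => ?_
        rw [if_neg]
        rintro rfl
        exact ha hi
      · refine Finset.sum_congr rfl fun b hb => ?_
        rw [Finset.prod_insert ha, if_neg]
        rintro rfl
        exact ha hb
    rw [e1, e2]
    exact h1

lemma DelX_detR {X ν : Type} [Fintype ν] [DecidableEq ν] (R : (X → ℂ) → (X → ℂ) → Prop)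
    (hint : ∀ n : ℤ, R (fun _ => (n : ℂ)) (fun _ => 0))
    (hadd : ∀ a a' b b', R a a' → R b b' → R (fun v => a v + b v) (fun v => a' v + b' v))
    (hmul : ∀ a a' b b', R a a' → R b b' →
      R (fun v => a v * b v) (fun v => a' v * b v + a v * b' v))
    (f f' : ν → ν → X → ℂ) (h : ∀ i b, R (f i b) (f' i b)) :
    R (fun w => (Matrix.of fun i b : ν => f i b w).det)
      (fun w => ((Matrix.of fun i b : ν => f i b w).adjugate *
        (Matrix.of fun i b : ν => f' i b w)).trace) := by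
  have hsum : ∀ (s : Finset (Equiv.Perm ν)) (F F' : Equiv.Perm ν → X → ℂ),
      (∀ σ, R (F σ) (F' σ)) → R (fun w => ∑ σ ∈ s, F σ w) (fun w => ∑ σ ∈ s, F' σ w) := by
    intro s F F' hF
    induction s using Finset.induction_on with
    | empty =>
      have h1 := hint 0
      simpa using h1
    | insert a s ha ih =>
      simp only [Finset.sum_insert ha]
      exact hadd _ _ _ _ (hF a) ih
  have h1 : ∀ σ : Equiv.Perm ν, R (fun w => ((Equiv.Perm.sign σ : ℤ) : ℂ) * ∏ i, f (σ i) i w)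
      (fun w => ((Equiv.Perm.sign σ : ℤ) : ℂ) *
        ∑ b, ∏ i, (if i = b then f' (σ i) i w else f (σ i) i w)) := by
    intro σ
    have h2 := hmul _ _ _ _ (hint (Equiv.Perm.sign σ : ℤ))
      (DelX_prodR R hint hmul (fun i => f (σ i) i) (fun i => f' (σ i) i)
        (fun i => h (σ i) i) Finset.univ)
    simpa only [zero_mul, zero_add] using h2
  have h3 := hsum Finset.univ _ _ h1
  have e1 : (fun w => (Matrix.of fun i b : ν => f i b w).det) = fun w =>
      ∑ σ : Equiv.Perm ν, ((Equiv.Perm.sign σ : ℤ) : ℂ) * ∏ i, f (σ i) i w := by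
    funext w
    rw [Matrix.det_apply']
    rfl
  have e2 : (fun w => ((Matrix.of fun i b : ν => f i b w).adjugate *
        (Matrix.of fun i b : ν => f' i b w)).trace) = fun w =>
      ∑ σ : Equiv.Perm ν, ((Equiv.Perm.sign σ : ℤ) : ℂ) *
        ∑ b, ∏ i, (if i = b then f' (σ i) i w else f (σ i) i w) := by
    funext w
    rw [← DelX_tr]
    rfl
  rw [e1, e2]
  exact h3

lemma DelX_adda {κ : Type} [Fintype κ] [DecidableEq κ] {f g : (κ → ℂ) → ℂ} {z : κ → ℂ}
    (hf : AnalyticAt ℂ f z) (hg : AnalyticAt ℂ g z) (p : κ) :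
    pd p (fun v => f v + g v) z = pd p f z + pd p g z := by
  unfold GAM.pd
  rw [fderiv_fun_add hf.differentiableAt hg.differentiableAt]
  rfl

lemma DelX_Tdet {κ ν : Type} [Fintype κ] [DecidableEq κ] [Fintype ν] [DecidableEq ν]
    {δ : Derivation ℚ ℂ ℂ} (hR : DelGRules κ δ) {Ξ : κ → (κ → ℂ) → ℂ} {r : (κ → ℂ) → ℂ}
    (N : (κ → ℂ) → Matrix ν ν ℂ) (f : ν → ν → (κ → ℂ) → ℂ)
    (hf : ∀ i b, IsDelG δ (f i b) fun z => r z * f i b z + ∑ p, Ξ p z * pd p (f i b) z +
      ∑ i', N z i' i * f i' b z) :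
    DelX_T δ Ξ (fun z => Fintype.card ν * r z + (N z).trace)
      (fun z => (Matrix.of fun i b : ν => f i b z).det) := by
  have hint : ∀ n : ℤ, IsDelG δ (fun _ : κ → ℂ => (n : ℂ)) (fun _ => 0) := by
    intro n
    have h := hR.const (n : ℂ)
    rwa [Derivation.map_intCast] at h
  have h1 := DelX_detR (IsDelG δ) hint hR.add hR.mul f _ hf
  refine DelX_congr h1 Filter.EventuallyEq.rfl ?_
  have hev : ∀ᶠ z in nhds (0 : κ → ℂ), ∀ i b, AnalyticAt ℂ (f i b) z :=
    Filter.eventually_all.2 fun i => Filter.eventually_all.2 fun b =>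
      (hf i b).an.eventually_analyticAt
  filter_upwards [hev] with z hz
  have hpd : ∀ p, pd p (fun z => (Matrix.of fun i b : ν => f i b z).det) z =
      ((Matrix.of fun i b : ν => f i b z).adjugate *
        (Matrix.of fun i b : ν => pd p (f i b) z)).trace := by
    intro p
    have h2 := DelX_detR (fun a a' : (κ → ℂ) → ℂ => AnalyticAt ℂ a z ∧ pd p a z = a' z)
      (fun n => ⟨analyticAt_const, by rw [GAM.DelR_pd_const]⟩)
      (fun a a' b b' ha hb => ⟨ha.1.add hb.1, by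
        change pd p (fun v => a v + b v) z = a' z + b' z
        rw [← ha.2, ← hb.2]
        exact DelX_adda ha.1 hb.1 p⟩)
      (fun a a' b b' ha hb => ⟨ha.1.mul hb.1, by
        change pd p (fun v => a v * b v) z = a' z * b z + a z * b' z
        rw [← ha.2, ← hb.2]
        exact Pool.Agent.Helper8.dd_mul ha.1 hb.1 _⟩)
      f (fun i b => pd p (f i b)) (fun i b => ⟨hz i b, rfl⟩)
    exact h2.2
  simp only [hpd]
  set M : Matrix ν ν ℂ := Matrix.of fun i b : ν => f i b z with hM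
  have h3 : (Matrix.of fun i b : ν => r z * f i b z + ∑ p, Ξ p z * pd p (f i b) z +
      ∑ i', N z i' i * f i' b z) = r z • M + ∑ p, Ξ p z • (Matrix.of fun i b : ν =>
        pd p (f i b) z) + (N z).transpose * M := by
    ext i b
    simp only [Matrix.of_apply, Matrix.add_apply, Matrix.smul_apply, Matrix.sum_apply,
      Matrix.mul_apply, Matrix.transpose_apply, smul_eq_mul, hM]
  rw [h3, Matrix.mul_add, Matrix.mul_add, Matrix.trace_add, Matrix.trace_add]
  have h4 : (M.adjugate * (r z • M)).trace = Fintype.card ν * r z * M.det := by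
    rw [Matrix.mul_smul, Matrix.adjugate_mul, Matrix.trace_smul, Matrix.trace_smul,
      Matrix.trace_one, smul_eq_mul, smul_eq_mul]
    ring
  have h5 : (M.adjugate * ∑ p, Ξ p z • (Matrix.of fun i b : ν => pd p (f i b) z)).trace =
      ∑ p, Ξ p z * (M.adjugate * (Matrix.of fun i b : ν => pd p (f i b) z)).trace := by
    rw [Matrix.mul_sum, Matrix.trace_sum]
    refine Finset.sum_congr rfl fun p _ => ?_
    rw [Matrix.mul_smul, Matrix.trace_smul, smul_eq_mul]
  have h6 : (M.adjugate * ((N z).transpose * M)).trace = (N z).trace * M.det := by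
    rw [← Matrix.mul_assoc, Matrix.trace_mul_comm, ← Matrix.mul_assoc, Matrix.mul_adjugate,
      Matrix.smul_mul, Matrix.one_mul, Matrix.trace_smul, Matrix.trace_transpose, smul_eq_mul,
      mul_comm]
  rw [h4, h5, h6]
  ring

end dets

section main

variable {α β μ : Type} [Fintype α] [Fintype β] [Fintype μ]
  [DecidableEq α] [DecidableEq β] [DecidableEq μ]

/-- the factor -/
noncomputable def DelX_kap (μ : Type) [Fintype μ] (k : ℂ) (c : Matrix α β ℂ) (w : α × β → ℂ) : ℂ :=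
  k + Fintype.card μ / Real.pi * ∑ i, ∑ j, c i j * w (i, j)

/-- the vector field -/
noncomputable def DelX_Xi (δ : Derivation ℚ ℂ ℂ) (Bp : Matrix α α ℂ) (Bm : Matrix β β ℂ)
    (c : Matrix α β ℂ) (p : α × β) (w : α × β → ℂ) : ℂ :=
  xi Bp Bm c w p - δ Real.pi / Real.pi * w p

lemma DelX_gen (h1 : St_Ell) (h2 : St_OmT) (h3 : St_DelE) (h4 : St_HatE)
    (δ : Derivation ℚ ℂ ℂ) (k : ℂ) (Bp : Matrix α α ℂ) (Bm : Matrix β β ℂ) (c : Matrix α β ℂ)
    {G R : (Ix α β μ → ℂ) → ℂ} (hG : Gro G) (hR : Gro R)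
    (h : IsDel δ G fun v => hop k Bp Bm c G v + R v) :
    IsDelG δ (fun w => ell w G) fun w => DelX_kap μ k c w * ell w G +
      ∑ p, DelX_Xi δ Bp Bm c p w * pd p (fun w => ell w G) w + ell w R := by
  obtain ⟨g1, g2⟩ := h4 α β μ k Bp Bm c G hG
  have h5 := h3 α β μ δ G _ hG (DelX_groa g1 hR) h
  obtain ⟨hO, -, h0, -⟩ := h2 α β
  refine DelX_congr h5 Filter.EventuallyEq.rfl ?_
  filter_upwards [hO.mem_nhds h0] with w hw
  obtain ⟨-, -, h6⟩ := h1 α β μ _ g1
  rw [(h6 w hw).2.2.2.2 _ hR, g2 w hw]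
  unfold DelX_kap DelX_Xi
  have e1 : δ ↑Real.pi / ↑Real.pi * ∑ p, w p * pd p (fun w => ell w G) w =
      ∑ p, δ ↑Real.pi / ↑Real.pi * w p * pd p (fun w => ell w G) w := by
    rw [Finset.mul_sum]
    exact Finset.sum_congr rfl fun p _ => by ring
  rw [e1]
  simp only [sub_mul, Finset.sum_sub_distrib]
  ring

omit [DecidableEq α] [DecidableEq β] in
lemma DelX_trp (Bp : Matrix α α ℂ) (c : Matrix α β ℂ) (w : α × β → ℂ) :
    (DelX_Np Bp c w).trace = Bp.trace + 1 / Real.pi * ∑ i, ∑ j, c i j * w (i, j) := by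
  unfold Matrix.trace DelX_Np
  simp only [Matrix.diag_apply, Matrix.of_apply, Finset.sum_add_distrib, Finset.mul_sum]

omit [DecidableEq α] [DecidableEq β] in
lemma DelX_trm (Bm : Matrix β β ℂ) (c : Matrix α β ℂ) (w : α × β → ℂ) :
    (DelX_Nm Bm c w).trace = Bm.trace + 1 / Real.pi * ∑ i, ∑ j, c i j * w (i, j) := by
  unfold Matrix.trace DelX_Nm
  simp only [Matrix.diag_apply, Matrix.of_apply, Finset.sum_add_distrib, Finset.mul_sum]
  rw [Finset.sum_comm]

end main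

theorem thm_DelX (h1 : St_Ell) (h2 : St_OmT) (h3 : St_DelE) (h4 : St_HatE) (h5 : St_DelGR) :
    St_DelX := by
  intro α β μ _ _ _ _ _ _ δ L χ θ k Bp Bm c e k₀ hL hθ hH
  have hR := h5 (α × β) δ
  have hGro : ∀ x, Gro (F θ x) := fun x => (DelX_Gro (Ix α β μ)).1 L χ θ hL hθ x
  have han : ∀ x z, AnalyticAt ℂ (F θ x) z := fun x z =>
    GAM.DelR_an GAM.thm_Hol (hGro x).ent z
  -- Fock vectors
  have hpsi : ∀ x, OddTor L x → DelX_T δ (DelX_Xi δ Bp Bm c) (DelX_kap μ k c)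
      (fun w => psi θ w x) := by
    intro x hx
    have h6 : IsDel δ (F θ x) fun v => hop k Bp Bm c (F θ x) v + 0 := by
      simpa only [add_zero] using hH x hx
    have h7 := DelX_gen h1 h2 h3 h4 δ k Bp Bm c (hGro x) (DelX_gro0 (hGro x)) h6
    simp only [DelX_ell0, add_zero] at h7
    exact h7
  have hdp : ∀ x, OddTor L x → ∀ q, IsDelG δ (fun w => dpsi q θ w x) fun w =>
      DelX_kap μ k c w * dpsi q θ w x + ∑ p, DelX_Xi δ Bp Bm c p w *
        pd p (fun w => dpsi q θ w x) w + ell w (DelX_ex Bp Bm c (F θ x) q) := by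
    intro x hx q
    have h6 : IsDel δ (pd q (F θ x)) fun v => hop k Bp Bm c (pd q (F θ x)) v +
        DelX_ex Bp Bm c (F θ x) q v := by
      have h7 := (GAM.thm_DelR GAM.thm_Hol (Ix α β μ) δ).pd q _ _ (hH x hx)
      have h8 : pd q (hop k Bp Bm c (F θ x)) = fun v => hop k Bp Bm c (pd q (F θ x)) v +
          DelX_ex Bp Bm c (F θ x) q v := by
        funext v
        exact DelX_pd_hop k Bp Bm c (han x) q v
      rw [← h8]
      exact h7
    exact DelX_gen h1 h2 h3 h4 δ k Bp Bm c (DelX_grop (hGro x) q)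
      (DelX_ex_gro Bp Bm c (hGro x) q) h6
  obtain ⟨hO, -, h0, -⟩ := h2 α β
  have hIO : Om α β ∈ nhds (0 : α × β → ℂ) := hO.mem_nhds h0
  -- determinants
  have hfp : ∀ x : α → Ix α β μ → ℂ, (∀ i, OddTor L (x i)) →
      DelX_T δ (DelX_Xi δ Bp Bm c) (fun w => Fintype.card α * DelX_kap μ k c w +
        (DelX_Np Bp c w).trace) (fun w => fp k₀ θ w x) := by
    intro x hx
    refine DelX_Tdet hR (DelX_Np Bp c) (fun i b w => dpsi (Sum.inl i, k₀) θ w (x b))
      fun i b => ?_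
    refine DelX_congr (hdp (x b) (hx b) (Sum.inl i, k₀)) Filter.EventuallyEq.rfl ?_
    filter_upwards [hIO] with w hw
    rw [DelX_ell_inl h1 Bp Bm c (hGro (x b)) i k₀ hw]
    rfl
  have hfm : ∀ x : β → Ix α β μ → ℂ, (∀ i, OddTor L (x i)) →
      DelX_T δ (DelX_Xi δ Bp Bm c) (fun w => Fintype.card β * DelX_kap μ k c w +
        (DelX_Nm Bm c w).trace) (fun w => fm k₀ θ w x) := by
    intro x hx
    refine DelX_Tdet hR (DelX_Nm Bm c) (fun i b w => dpsi (Sum.inr i, k₀) θ w (x b))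
      fun i b => ?_
    refine DelX_congr (hdp (x b) (hx b) (Sum.inr i, k₀)) Filter.EventuallyEq.rfl ?_
    filter_upwards [hIO] with w hw
    rw [DelX_ell_inr h1 Bp Bm c (hGro (x b)) i k₀ hw]
    rfl
  refine ⟨fun w => (1 + e * (Fintype.card α + Fintype.card β)) * DelX_kap μ k c w +
    e * (1 / Real.pi * ∑ i, ∑ j, c i j * w (i, j)), DelX_Xi δ Bp Bm c,
    fun y x x' hy hx hx' o => ?_⟩
  rcases o with _ | i
  · have h6 := DelX_Tmul hR (DelX_Tmul hR (hpsi _ (hy none))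
      (DelX_Tpow hR (hpsi _ (hy none)) (e * Fintype.card β))) (DelX_Tpow hR (hfp x hx) e)
    have h7 : (fun w => (DelX_kap μ k c w + ((e * Fintype.card β : ℕ) : ℂ) * DelX_kap μ k c w) +
        e * (Fintype.card α * DelX_kap μ k c w + (DelX_Np Bp c w).trace)) = fun w =>
        ((1 + e * (Fintype.card α + Fintype.card β)) * DelX_kap μ k c w +
        e * (1 / Real.pi * ∑ i, ∑ j, c i j * w (i, j)) + if (none : Option (Option (α × β))) =
          none then (e : ℂ) * Bp.trace else e * Bm.trace) := by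
      funext w
      rw [DelX_trp, if_pos rfl]
      push_cast
      ring
    rw [h7] at h6
    exact h6
  · have h6 := DelX_Tmul hR (DelX_Tmul hR (hpsi _ (hy i))
      (DelX_Tpow hR (hpsi _ (hy none)) (e * Fintype.card α))) (DelX_Tpow hR (hfm x' hx') e)
    have h7 : (fun w => (DelX_kap μ k c w + ((e * Fintype.card α : ℕ) : ℂ) * DelX_kap μ k c w) +
        e * (Fintype.card β * DelX_kap μ k c w + (DelX_Nm Bm c w).trace)) = fun w =>
        ((1 + e * (Fintype.card α + Fintype.card β)) * DelX_kap μ k c w +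
        e * (1 / Real.pi * ∑ i, ∑ j, c i j * w (i, j)) + if (some i : Option (Option (α × β))) =
          none then (e : ℂ) * Bp.trace else e * Bm.trace) := by
      funext w
      rw [DelX_trm, if_neg (by simp)]
      push_cast
      ring
    rw [h7] at h6
    exact h6

end PST
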