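import Pool.Agent.PST.StN

/-!
# PST: the determinant of the periods (assembly)
-/

set_option autoImplicit false

namespace PST

theorem zd_ne_zero {d : ℚ} (hd : 0 < d) : zd d ≠ 0 := by
  unfold zd
  have h1 : (0 : ℝ) < (d : ℝ) := by exact_mod_cast hd
  have h2 : Real.sqrt (d : ℝ) ≠ 0 := (Real.sqrt_pos.2 h1).ne'
  exact mul_ne_zero (by exact_mod_cast h2) Complex.I_ne_zero

theorem thm_Det (h1 : St_NF) (h2 : St_Fin) (h3 : St_TrN) : Pool.Agent.GPC.St_Det := by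
  intro A p d J hA
  obtain ⟨α, β, _, _, _, _, T, S, Tp, Tm, Ta, R, X₀, hN⟩ := h1 A p d J hA
  obtain ⟨δ, hδ⟩ := h2 A p d J α β T S Tp Tm Ta R X₀ hN
  refine ⟨δ, ?_⟩
  rw [h3 A p d J α β T S Tp Tm Ta R X₀ δ hA hN]
  have hp : (p : ℂ) ≠ 0 := by exact_mod_cast hA.prime.ne_zero
  exact mul_ne_zero (mul_ne_zero (mul_ne_zero two_ne_zero hp) (zd_ne_zero hA.pos)) hδ

end PST
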