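import Pool.Agent.PST.StF

/-!
# PST [DetPt]: points at which independent functions have non zero determinant
-/

set_option autoImplicit false

namespace PST

/-- Vectors spanning `κ → ℂ` contain a basis indexed by `κ`. -/
lemma DetPt_basis {κ : Type} [Fintype κ] [DecidableEq κ] (S : Set (κ → ℂ))
    (hS : Submodule.span ℂ S = ⊤) : ∃ v : κ → κ → ℂ, (∀ i, v i ∈ S) ∧
      (Matrix.of v).det ≠ 0 := by
  obtain ⟨b, hbS, hspan, hli⟩ := exists_linearIndependent ℂ S
  rw [hS] at hspan
  let B : Module.Basis b ℂ (κ → ℂ) := Module.Basis.mk hli (by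
    rw [Subtype.range_coe]
    exact hspan.ge)
  let e : κ ≃ b := (Pi.basisFun ℂ κ).indexEquiv B
  refine ⟨fun i => (e i : κ → ℂ), fun i => hbS (e i).2, ?_⟩
  have h1 : LinearIndependent ℂ (fun i => (e i : κ → ℂ)) := hli.comp e e.injective
  have h2 := (Matrix.linearIndependent_rows_iff_isUnit
    (A := Matrix.of fun i => (e i : κ → ℂ))).1 h1
  rw [Matrix.isUnit_iff_isUnit_det] at h2
  exact h2.ne_zero

theorem thm_DetPt : St_DetPt := by
  intro X κ _ _ D f h
  have hS : Submodule.span ℂ ((fun x : X => fun i => f i x) '' D) = ⊤ := by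
    by_contra hne
    have hlt : Submodule.span ℂ ((fun x : X => fun i => f i x) '' D) < ⊤ :=
      lt_of_le_of_ne le_top hne
    obtain ⟨g, hg0, hg⟩ := Submodule.exists_le_ker_of_lt_top _ hlt
    have h1 : (fun i => g (Pi.single i 1)) ≠ 0 := by
      intro h0
      apply hg0
      refine (Pi.basisFun ℂ κ).ext fun i => ?_
      have := congrFun h0 i
      simpa using this
    obtain ⟨x, hx, h2⟩ := h _ h1
    apply h2
    have h3 : g (fun i => f i x) = 0 :=
      hg (Submodule.subset_span ⟨x, hx, rfl⟩)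
    rw [← h3]
    have h4 : (fun i => f i x) = ∑ i, f i x • (Pi.single i 1 : κ → ℂ) := by
      funext j
      simp [Finset.sum_apply, Pi.single_apply]
    rw [h4, map_sum]
    refine Finset.sum_congr rfl fun i _ => ?_
    rw [map_smul, smul_eq_mul, mul_comm]
  obtain ⟨v, hv, hdet⟩ := DetPt_basis _ hS
  choose x hx hxv using hv
  refine ⟨x, hx, ?_⟩
  have h5 : (Matrix.of fun i j : κ => f j (x i)) = Matrix.of v := by
    ext i j
    exact congrFun (hxv i) j
  rw [h5]
  exact hdet

end PST
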