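import Pool.Agent.PST.StN

/-!
# PST: determinants of units of the order are roots of unity
-/

set_option autoImplicit false

namespace PST

open scoped ComplexConjugate
open GAM (H E F pd pdl PLat IsTh OddTor IsDel Gro IsLat Pre QD qd jac HasExp CMF CMT IsExp IsCM)
open Module

section DetU

variable {ι : Type} [Fintype ι] [DecidableEq ι]

/-- the determinant of a matrix preserving a lattice is integral -/
theorem DetU_int (R : Subalgebra ℚ (Matrix ι ι ℂ)) {N : ℕ} (e : Basis (Fin N) ℚ R)
    (r : Matrix ι ι ℂ) (L : Submodule ℤ (Matrix ι ι ℂ))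
    (hL : L = Submodule.span ℤ (Set.range fun i => (e i : Matrix ι ι ℂ)))
    (hr : ∀ x ∈ L, r * x ∈ L) : IsIntegral ℤ r.det := by
  classical
  have hfin : Module.Finite ℤ L := by
    rw [hL]
    exact Module.Finite.span_of_finite ℤ (Set.finite_range _)
  let T : Module.End ℤ L :=
    { toFun := fun x => ⟨r * x, hr x x.2⟩
      map_add' := fun x y => Subtype.ext (by
        show r * ((x : Matrix ι ι ℂ) + y) = r * x + r * y
        rw [mul_add])
      map_smul' := fun m x => Subtype.ext (by
        show r * (m • (x : Matrix ι ι ℂ)) = m • (r * (x : Matrix ι ι ℂ))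
        exact mul_smul_comm m r (x : Matrix ι ι ℂ)) }
  obtain ⟨p, hp, hp0⟩ := (Module.End.isIntegral (R := ℤ) (M := L)).isIntegral T
  have hpow : ∀ (k : ℕ) (x : L), (((T ^ k) x : L) : Matrix ι ι ℂ) = r ^ k * x := by
    intro k
    induction k with
    | zero => intro x; simp
    | succ k ih =>
      intro x
      rw [pow_succ', Module.End.mul_apply]
      show r * (((T ^ k) x : L) : Matrix ι ι ℂ) = _
      rw [ih, pow_succ', mul_assoc]
  have hae : ∀ (q : Polynomial ℤ) (x : L),
      (((Polynomial.aeval T q) x : L) : Matrix ι ι ℂ) = Polynomial.aeval r q * x := by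
    intro q
    induction q using Polynomial.induction_on' with
    | add p q hp hq =>
      intro x
      rw [map_add, map_add, LinearMap.add_apply, Submodule.coe_add, hp, hq, add_mul]
    | monomial n a =>
      intro x
      rw [Polynomial.aeval_monomial, Polynomial.aeval_monomial, Module.End.mul_apply,
        Module.algebraMap_end_apply, Submodule.coe_smul, hpow, mul_assoc, ← Algebra.smul_def]
  have h1 : Polynomial.aeval r p = 0 := by
    have h2 : ∀ i, Polynomial.aeval r p * (e i : Matrix ι ι ℂ) = 0 := by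
      intro i
      have hi : (e i : Matrix ι ι ℂ) ∈ L := by
        rw [hL]
        exact Submodule.subset_span ⟨i, rfl⟩
      rw [← hae p ⟨_, hi⟩]
      have h3 : Polynomial.aeval T p = 0 := hp0
      rw [h3]
      rfl
    have h3 : (1 : Matrix ι ι ℂ) = ∑ i, e.repr 1 i • (e i : Matrix ι ι ℂ) := by
      have h4 := congrArg Subtype.val (e.sum_repr 1)
      simp only [AddSubmonoidClass.coe_finsetSum] at h4
      exact h4.symm
    rw [← mul_one (Polynomial.aeval r p), h3, Finset.mul_sum]
    refine Finset.sum_eq_zero fun i _ => ?_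
    rw [mul_smul_comm, h2, smul_zero]
  rw [Matrix.det_eq_prod_roots_charpoly]
  refine IsIntegral.multiset_prod fun μ hμ => ?_
  have hroot : r.charpoly.IsRoot μ := (Polynomial.mem_roots'.1 hμ).2
  have hs := Matrix.mem_spectrum_of_isRoot_charpoly hroot
  have h2 := spectrum.subset_polynomial_aeval r (p.map (Int.castRingHom ℂ)) ⟨μ, hs, rfl⟩
  have h3 : Polynomial.aeval r (p.map (Int.castRingHom ℂ)) = 0 := by
    rw [← h1]
    exact Polynomial.aeval_map_algebraMap ℂ r p
  have hne : Nontrivial (Matrix ι ι ℂ) := by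
    by_contra hn
    rw [not_nontrivial_iff_subsingleton] at hn
    have h5 : IsEmpty ι := by
      by_contra hne
      rw [not_isEmpty_iff] at hne
      obtain ⟨i⟩ := hne
      have h6 := congrFun (congrFun (Subsingleton.elim (1 : Matrix ι ι ℂ) 0) i) i
      rw [Matrix.one_apply_eq, Matrix.zero_apply] at h6
      exact one_ne_zero h6
    rw [Matrix.charpoly_isEmpty] at hroot
    simp at hroot
  rw [h3, spectrum.zero_eq] at h2
  refine ⟨p, hp, ?_⟩
  have h4 : Polynomial.eval μ (p.map (Int.castRingHom ℂ)) = 0 := h2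
  rw [Polynomial.eval_map] at h4
  exact h4

/-- the determinant of the left multiplication -/
theorem DetU_left (r : Matrix ι ι ℂ) :
    LinearMap.det (LinearMap.mulLeft ℂ r) = r.det ^ Fintype.card ι := by
  rw [← LinearMap.det_toMatrix (Matrix.stdBasis ℂ ι ι)]
  have h : LinearMap.toMatrix (Matrix.stdBasis ℂ ι ι) (Matrix.stdBasis ℂ ι ι)
      (LinearMap.mulLeft ℂ r) = Matrix.kroneckerMap (fun x y => x * y) r (1 : Matrix ι ι ℂ) := by
    ext ⟨i, j⟩ ⟨k, l⟩
    rw [LinearMap.toMatrix_apply, Matrix.stdBasis_eq_single, LinearMap.mulLeft_apply,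
      Matrix.kroneckerMap_apply]
    have h1 : ∀ M : Matrix ι ι ℂ, (Matrix.stdBasis ℂ ι ι).repr M (i, j) = M i j := by
      intro M
      rfl
    rw [h1]
    by_cases hjl : j = l
    · subst hjl
      rw [Matrix.mul_single_apply_same, mul_one, Matrix.one_apply_eq, mul_one]
    · rw [Matrix.mul_single_apply_of_ne _ _ _ _ _ hjl, Matrix.one_apply_ne hjl, mul_zero]
  rw [h, Matrix.det_kronecker, Matrix.det_one, one_pow, mul_one]

omit [DecidableEq ι] in
/-- an endomorphism preserving a form over a subfield -/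
theorem DetU_form (F : IntermediateField ℚ ℂ) (M : Submodule F (Matrix ι ι ℂ)) {k : ℕ}
    (c : Basis (Fin k) F M)
    (hk : k = Fintype.card ι ^ 2) (hsp : Submodule.span ℂ (M : Set (Matrix ι ι ℂ)) = ⊤)
    (T : Matrix ι ι ℂ →ₗ[ℂ] Matrix ι ι ℂ) (hT : ∀ x ∈ M, T x ∈ M) :
    LinearMap.det T ∈ F := by
  classical
  have h1 : (⊤ : Submodule ℂ (Matrix ι ι ℂ)) ≤
      Submodule.span ℂ (Set.range fun i => (c i : Matrix ι ι ℂ)) := by
    rw [← hsp, Submodule.span_le]
    intro x hx
    have h2 := congrArg Subtype.val (c.sum_repr ⟨x, hx⟩)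
    simp only [AddSubmonoidClass.coe_finsetSum] at h2
    rw [← h2]
    refine Submodule.sum_mem _ fun i _ => ?_
    have h3 : ((c.repr ⟨x, hx⟩ i • c i : M) : Matrix ι ι ℂ) =
        ((c.repr ⟨x, hx⟩ i : F) : ℂ) • (c i : Matrix ι ι ℂ) := rfl
    rw [h3]
    exact Submodule.smul_mem _ _ (Submodule.subset_span ⟨i, rfl⟩)
  have h2 : Fintype.card (Fin k) = finrank ℂ (Matrix ι ι ℂ) := by
    rw [Fintype.card_fin, Module.finrank_matrix, Module.finrank_self, mul_one, hk, sq]
  let b := basisOfTopLeSpanOfCardEqFinrank (fun i => (c i : Matrix ι ι ℂ)) h1 h2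
  have hb : ∀ i, b i = (c i : Matrix ι ι ℂ) := fun i => by
    rw [coe_basisOfTopLeSpanOfCardEqFinrank]
  let A : Matrix (Fin k) (Fin k) F := fun i j => c.repr ⟨T (c j), hT _ (c j).2⟩ i
  have h3 : LinearMap.toMatrix b b T = A.map (algebraMap F ℂ) := by
    ext i j
    rw [LinearMap.toMatrix_apply, Matrix.map_apply]
    have h4 : T (b j) = ∑ i, ((A i j : F) : ℂ) • b i := by
      have h5 := congrArg Subtype.val (c.sum_repr ⟨T (c j), hT _ (c j).2⟩)
      simp only [AddSubmonoidClass.coe_finsetSum] at h5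
      rw [hb, ← h5]
      refine Finset.sum_congr rfl fun i _ => ?_
      rw [hb]
      rfl
    rw [h4, b.repr_sum_self]
    rfl
  rw [← LinearMap.det_toMatrix b T, h3]
  have h6 : (A.map (algebraMap F ℂ)).det = algebraMap F ℂ A.det := by
    rw [RingHom.map_det]
    rfl
  rw [h6]
  exact (A.det : F).2

/-- elements of `ℚ(i√d)` -/
theorem DetU_mem (d : ℚ) (hd : 0 < d) (F : IntermediateField ℚ ℂ)
    (hF : F = IntermediateField.adjoin ℚ {zd d}) :
    (∀ x ∈ F, ∃ a b : ℚ, x = a + b * zd d) ∧ finrank ℚ F = 2 := by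
  have hz2 : zd d * zd d = -(d : ℂ) := by
    have h1 : Real.sqrt (d : ℝ) * Real.sqrt (d : ℝ) = (d : ℝ) :=
      Real.mul_self_sqrt (by exact_mod_cast hd.le)
    have h2 : ((Real.sqrt (d : ℝ) : ℝ) : ℂ) * ((Real.sqrt (d : ℝ) : ℝ) : ℂ) = (d : ℂ) := by
      rw [← Complex.ofReal_mul, h1]
      simp
    unfold zd
    calc _ = ((Real.sqrt (d : ℝ) : ℝ) : ℂ) * ((Real.sqrt (d : ℝ) : ℝ) : ℂ) *
        (Complex.I * Complex.I) := by ring
      _ = -(d : ℂ) := by rw [h2, Complex.I_mul_I]; ring
  let p : Polynomial ℚ := Polynomial.X ^ 2 + Polynomial.C d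
  have hpm : p.Monic := Polynomial.monic_X_pow_add_C d two_ne_zero
  have hpd : p.natDegree = 2 := Polynomial.natDegree_X_pow_add_C
  have hp0 : Polynomial.aeval (zd d) p = 0 := by
    simp only [p, map_add, map_pow, Polynomial.aeval_X, Polynomial.aeval_C]
    rw [sq, hz2]
    simp
  have hirr : Irreducible p := by
    rw [Polynomial.irreducible_iff_roots_eq_zero_of_degree_le_three (by rw [hpd])
      (by rw [hpd]; norm_num)]
    refine Multiset.eq_zero_of_forall_notMem fun x hx => ?_
    have h1 := (Polynomial.mem_roots'.1 hx).2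
    have h2 : x ^ 2 + d = 0 := by
      have h3 : Polynomial.eval x p = 0 := h1
      simpa [p] using h3
    nlinarith [sq_nonneg x]
  have hint : IsIntegral ℚ (zd d) := ⟨p, hpm, hp0⟩
  have hmin : p = minpoly ℚ (zd d) := minpoly.eq_of_irreducible_of_monic hirr hp0 hpm
  refine ⟨fun x hx => ?_, ?_⟩
  · rw [hF] at hx
    have h1 : x ∈ Algebra.adjoin ℚ {zd d} := by
      have h2 := IntermediateField.adjoin_simple_toSubalgebra_of_isAlgebraic
        (hint.isAlgebraic)
      rw [← h2]
      exact hx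
    clear hx
    induction h1 using Algebra.adjoin_induction with
    | mem x hx =>
      rw [Set.mem_singleton_iff] at hx
      exact ⟨0, 1, by rw [hx]; simp⟩
    | algebraMap r => exact ⟨r, 0, by simp⟩
    | add x y _ _ hx hy =>
      obtain ⟨a, b, rfl⟩ := hx
      obtain ⟨a', b', rfl⟩ := hy
      exact ⟨a + a', b + b', by push_cast; ring⟩
    | mul x y _ _ hx hy =>
      obtain ⟨a, b, rfl⟩ := hx
      obtain ⟨a', b', rfl⟩ := hy
      refine ⟨a * a' - b * b' * d, a * b' + b * a', ?_⟩
      push_cast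
      linear_combination (b : ℂ) * b' * hz2
  · rw [hF, IntermediateField.adjoin.finrank hint, ← hmin, hpd]

/-- a root of unity -/
theorem DetU_unit (d : ℚ) (u : ℂ) (a b : ℚ) (hu : u = a + b * zd d)
    (hint : IsIntegral ℤ u) (h1 : ‖u‖ = 1) : u ^ 12 = 1 := by
  have hzc : conj (zd d) = -zd d := by
    unfold zd
    rw [map_mul, Complex.conj_ofReal, Complex.conj_I]
    ring
  have hc : conj u = a - b * zd d := by
    rw [hu, map_add, map_mul, hzc]
    have e1 : ∀ q : ℚ, conj (q : ℂ) = q := fun q => by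
      rw [← Complex.ofReal_ratCast, Complex.conj_ofReal]
    rw [e1, e1]
    ring
  have huc : u * conj u = 1 := by
    rw [Complex.mul_conj, Complex.normSq_eq_norm_sq, h1]
    norm_num
  have hci : IsIntegral ℤ (conj u) := by
    have := hint.map ((starRingEnd ℂ).toIntAlgHom)
    exact this
  have hs : u + conj u = ((2 * a : ℚ) : ℂ) := by
    rw [hc, hu]
    push_cast
    ring
  have hsi : IsIntegral ℤ ((2 * a : ℚ) : ℂ) := by
    rw [← hs]
    exact hint.add hci
  have hsq : IsIntegral ℤ (2 * a : ℚ) := by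
    have h3 : Function.Injective (algebraMap ℚ ℂ) := (algebraMap ℚ ℂ).injective
    refine (isIntegral_algebraMap_iff h3).1 ?_
    exact hsi
  obtain ⟨m, hm⟩ := IsIntegrallyClosed.isIntegral_iff.1 hsq
  have hm' : (m : ℂ) = u + conj u := by
    rw [hs, ← hm]
    simp
  have hre : (m : ℝ) = 2 * u.re := by
    have h4 := congrArg Complex.re hm'
    simp only [Complex.intCast_re, Complex.add_re, Complex.conj_re] at h4
    linarith
  have hle : |u.re| ≤ 1 := by
    rw [← h1]
    exact Complex.abs_re_le_norm u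
  have hm2 : (m : ℝ) ≤ 2 := by
    have := (abs_le.1 hle).2
    linarith
  have hm2' : (-2 : ℝ) ≤ m := by
    have := (abs_le.1 hle).1
    linarith
  have h5 : m ≤ 2 := by exact_mod_cast hm2
  have h6 : -2 ≤ m := by exact_mod_cast hm2'
  have hq : u ^ 2 = m * u - 1 := by
    rw [hm', ← huc]
    ring
  have h7 : m = -2 ∨ m = -1 ∨ m = 0 ∨ m = 1 ∨ m = 2 := by omega
  rcases h7 with h | h | h | h | h <;> rw [h] at hq
  · push_cast at hq
    have h8 : (u + 1) ^ 2 = 0 := by linear_combination hq
    have h9 : u = -1 := by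
      have := pow_eq_zero_iff (two_ne_zero) |>.1 h8
      linear_combination this
    rw [h9]; norm_num
  · push_cast at hq
    have h8 : u ^ 3 = 1 := by linear_combination (u - 1) * hq
    calc u ^ 12 = (u ^ 3) ^ 4 := by ring
      _ = 1 := by rw [h8, one_pow]
  · push_cast at hq
    have h8 : u ^ 4 = 1 := by linear_combination (u ^ 2 - 1) * hq
    calc u ^ 12 = (u ^ 4) ^ 3 := by ring
      _ = 1 := by rw [h8, one_pow]
  · push_cast at hq
    have h8 : u ^ 3 = -1 := by linear_combination (u + 1) * hq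
    calc u ^ 12 = (u ^ 3) ^ 4 := by ring
      _ = 1 := by rw [h8]; norm_num
  · push_cast at hq
    have h8 : (u - 1) ^ 2 = 0 := by linear_combination hq
    have h9 : u = 1 := by
      have := pow_eq_zero_iff (two_ne_zero) |>.1 h8
      linear_combination this
    rw [h9]; norm_num

theorem DetU_core (R : Subalgebra ℚ (Matrix ι ι ℂ)) {N : ℕ} (e : Basis (Fin N) ℚ R)
    (d : ℚ) (hd : 0 < d) (hdim : finrank ℚ R = 2 * Fintype.card ι ^ 2)
    (hsp : Submodule.span ℂ (R : Set (Matrix ι ι ℂ)) = ⊤)
    (hz : zd d • (1 : Matrix ι ι ℂ) ∈ R) (r : Matrix ι ι ℂ) (hr : r ∈ R)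
    (L : Submodule ℤ (Matrix ι ι ℂ))
    (hL : L = Submodule.span ℤ (Set.range fun i => (e i : Matrix ι ι ℂ)))
    (hrL : ∀ x ∈ L, r * x ∈ L) (h1 : ‖r.det‖ = 1) : r.det ^ (12 * Fintype.card ι) = 1 := by
  classical
  set F : IntermediateField ℚ ℂ := IntermediateField.adjoin ℚ {zd d} with hF
  obtain ⟨hF1, hF2⟩ := DetU_mem d hd F hF
  have hfR : Module.Finite ℚ R := Module.Finite.of_basis e
  let M : Submodule F (Matrix ι ι ℂ) :=
    { carrier := R
      add_mem' := fun {a b} ha hb => R.add_mem ha hb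
      zero_mem' := R.zero_mem
      smul_mem' := fun c x hx => by
        obtain ⟨a, b, hab⟩ := hF1 (c : ℂ) c.2
        have h2 : c • x = a • x + b • ((zd d • (1 : Matrix ι ι ℂ)) * x) := by
          have h3 : c • x = (c : ℂ) • x := rfl
          rw [h3, hab, add_smul]
          ext i j
          simp only [Matrix.add_apply, Matrix.smul_apply, smul_mul_assoc, one_mul, smul_eq_mul,
            Rat.smul_def]
          ring
        rw [h2]
        exact R.add_mem (R.smul_mem hx a) (R.smul_mem (R.mul_mem hz hx) b) }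
  have hMR : ∀ x, x ∈ M ↔ x ∈ R := fun x => Iff.rfl
  let E : M ≃ₗ[ℚ] R :=
    { toFun := fun x => ⟨x, x.2⟩
      invFun := fun x => ⟨x, x.2⟩
      left_inv := fun _ => rfl
      right_inv := fun _ => rfl
      map_add' := fun _ _ => rfl
      map_smul' := fun _ _ => rfl }
  have hfM : Module.Finite ℚ M := Module.Finite.equiv E.symm
  have hfM' : Module.Finite F M := Module.Finite.of_restrictScalars_finite ℚ F M
  have hk : finrank F M = Fintype.card ι ^ 2 := by
    have h2 := Module.finrank_mul_finrank ℚ F M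
    rw [hF2, E.finrank_eq, hdim] at h2
    omega
  have h3 := DetU_form F M (Module.finBasis F M) hk hsp (LinearMap.mulLeft ℂ r)
    (fun x hx => R.mul_mem hr hx)
  rw [DetU_left] at h3
  obtain ⟨a, b, hab⟩ := hF1 _ h3
  have h4 := DetU_unit d _ a b hab ((DetU_int R e r L hL hrL).pow _) (by
    rw [norm_pow, h1, one_pow])
  rw [← pow_mul, mul_comm] at h4
  exact h4

end DetU

theorem thm_DetU : St_DetU := by
  intro α β _ _ _ _ R X₀ d N e r hD hr hl h1
  have h := DetU_core R e d hD.pos (by rw [hD.dim, Fintype.card_sum]) hD.span hD.jj r hr (lat e)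
    rfl hl h1
  rw [Fintype.card_sum] at h
  exact h

end PST
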