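import Pool.Agent.PST.StN

/-!
# PST: DiaN, diagonalisation near a diagonal matrix for the indefinite unitary group
-/

set_option autoImplicit false

namespace PST

open scoped ComplexConjugate BigOperators
open Matrix

section general

variable {ι : Type} [Fintype ι] [DecidableEq ι]

/-- separation of the numbers -/
private theorem DiaN_sep (t₀ : ι → ℝ) (ht : Function.Injective t₀) :
    ∃ δ : ℝ, 0 < δ ∧ ∀ s k, s ≠ k → 3 * δ ≤ |t₀ s - t₀ k| := by
  have h : ∀ᶠ δ : ℝ in nhdsWithin 0 (Set.Ioi 0), ∀ s k, s ≠ k → 3 * δ ≤ |t₀ s - t₀ k| := by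
    rw [Filter.eventually_all]
    intro s
    rw [Filter.eventually_all]
    intro k
    by_cases hsk : s = k
    · exact Filter.Eventually.of_forall fun δ h => absurd hsk h
    · have h1 : 0 < |t₀ s - t₀ k| := abs_pos.2 (sub_ne_zero.2 fun h => hsk (ht h))
      have h2 : Filter.Tendsto (fun δ : ℝ => 3 * δ) (nhdsWithin 0 (Set.Ioi 0)) (nhds 0) := by
        have h3 : Filter.Tendsto (fun δ : ℝ => 3 * δ) (nhds 0) (nhds (3 * 0)) :=
          (continuous_const.mul continuous_id).tendsto 0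
        rw [mul_zero] at h3
        exact h3.mono_left nhdsWithin_le_nhds
      filter_upwards [h2.eventually (gt_mem_nhds h1)] with δ hδ _
      exact hδ.le
  obtain ⟨δ, h1, h2⟩ := (h.and self_mem_nhdsWithin).exists
  exact ⟨δ, h2, h1⟩

/-- the sign change of the characteristic polynomial of the diagonal matrix -/
private theorem DiaN_sign (t₀ : ι → ℝ) (δ : ℝ) (hδ : 0 < δ)
    (h : ∀ s k, s ≠ k → 3 * δ ≤ |t₀ s - t₀ k|) (s : ι) :
    (∏ k, (t₀ s - δ - t₀ k)) * (∏ k, (t₀ s + δ - t₀ k)) < 0 := by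
  rw [← Finset.prod_mul_distrib, ← Finset.mul_prod_erase _ _ (Finset.mem_univ s)]
  refine mul_neg_of_neg_of_pos ?_ ?_
  · have : (t₀ s - δ - t₀ s) * (t₀ s + δ - t₀ s) = -(δ * δ) := by ring
    rw [this]
    have := mul_pos hδ hδ
    linarith
  · refine Finset.prod_pos fun k hk => ?_
    have h1 := h s k (Finset.ne_of_mem_erase hk).symm
    have h2 : (t₀ s - δ - t₀ k) * (t₀ s + δ - t₀ k) = |t₀ s - t₀ k| ^ 2 - δ ^ 2 := by
      rw [sq_abs]
      ring
    rw [h2]
    nlinarith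

/-- the determinant is real -/
private theorem DiaN_real (e : ι → ℝ) (he : ∀ k, e k = 1 ∨ e k = -1) (Z : Matrix ι ι ℂ)
    (hZ : Matrix.diagonal (fun k => (e k : ℂ)) * Z.conjTranspose *
      Matrix.diagonal (fun k => (e k : ℂ)) = Z) (x : ℝ) :
    (Matrix.det ((x : ℂ) • (1 : Matrix ι ι ℂ) - Z)).im = 0 := by
  set J : Matrix ι ι ℂ := Matrix.diagonal (fun k => (e k : ℂ)) with hJ
  have hJJ : J * J = 1 := by
    rw [hJ, Matrix.diagonal_mul_diagonal, ← Matrix.diagonal_one]
    congr 1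
    funext k
    rcases he k with h | h <;> simp [h]
  have h1 : (x : ℂ) • (1 : Matrix ι ι ℂ) - Z =
      J * ((x : ℂ) • (1 : Matrix ι ι ℂ) - Z).conjTranspose * J := by
    have h2 : ((x : ℂ) • (1 : Matrix ι ι ℂ) - Z).conjTranspose =
        (x : ℂ) • (1 : Matrix ι ι ℂ) - Z.conjTranspose := by
      rw [Matrix.conjTranspose_sub, Matrix.conjTranspose_smul, Matrix.conjTranspose_one]
      simp
    rw [h2, mul_sub, sub_mul, hZ, Matrix.mul_smul, Matrix.smul_mul, Matrix.mul_one, hJJ]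
  have h3 : Matrix.det ((x : ℂ) • (1 : Matrix ι ι ℂ) - Z) =
      star (Matrix.det ((x : ℂ) • (1 : Matrix ι ι ℂ) - Z)) := by
    conv_lhs => rw [h1]
    rw [Matrix.det_mul, Matrix.det_mul, Matrix.det_conjTranspose, mul_right_comm,
      ← Matrix.det_mul, hJJ, Matrix.det_one, one_mul]
  have h4 := congrArg Complex.im h3
  rw [Complex.star_def, Complex.conj_im] at h4
  linarith

/-- real eigenvalue near every number -/
private theorem DiaN_root (e : ι → ℝ) (he : ∀ k, e k = 1 ∨ e k = -1) (Z : Matrix ι ι ℂ)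
    (hZ : Matrix.diagonal (fun k => (e k : ℂ)) * Z.conjTranspose *
      Matrix.diagonal (fun k => (e k : ℂ)) = Z) (a b : ℝ) (hab : a ≤ b)
    (h : (Matrix.det ((a : ℂ) • (1 : Matrix ι ι ℂ) - Z)).re *
      (Matrix.det ((b : ℂ) • (1 : Matrix ι ι ℂ) - Z)).re < 0) :
    ∃ x ∈ Set.Icc a b, Matrix.det ((x : ℂ) • (1 : Matrix ι ι ℂ) - Z) = 0 := by
  have hc : Continuous fun x : ℝ => (Matrix.det ((x : ℂ) • (1 : Matrix ι ι ℂ) - Z)).re := by
    refine Complex.continuous_re.comp (Continuous.matrix_det ?_)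
    fun_prop
  have h1 : ∃ x ∈ Set.Icc a b, (Matrix.det ((x : ℂ) • (1 : Matrix ι ι ℂ) - Z)).re = 0 := by
    rcases mul_neg_iff.1 h with ⟨h2, h3⟩ | ⟨h2, h3⟩
    · exact intermediate_value_Icc' hab hc.continuousOn ⟨h3.le, h2.le⟩
    · exact intermediate_value_Icc hab hc.continuousOn ⟨h2.le, h3.le⟩
  obtain ⟨x, hx, h2⟩ := h1
  exact ⟨x, hx, Complex.ext h2 (DiaN_real e he Z hZ x)⟩

/-- the open condition -/
private theorem DiaN_open (t₀ : ι → ℝ) (δ : ℝ) (hδ : 0 < δ)
    (h : ∀ s k, s ≠ k → 3 * δ ≤ |t₀ s - t₀ k|) :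
    ∃ ε : ℝ, 0 < ε ∧ ∀ Z : Matrix ι ι ℂ,
      (∀ i j, ‖(Z - Matrix.diagonal fun k => (t₀ k : ℂ)) i j‖ < ε) → ∀ s,
      (Matrix.det (((t₀ s - δ : ℝ) : ℂ) • (1 : Matrix ι ι ℂ) - Z)).re *
      (Matrix.det (((t₀ s + δ : ℝ) : ℂ) • (1 : Matrix ι ι ℂ) - Z)).re < 0 := by
  have hc : ∀ x : ℝ, Continuous fun Z : ι → ι → ℂ =>
      (Matrix.det ((x : ℂ) • (1 : Matrix ι ι ℂ) - Matrix.of Z)).re := by
    intro x
    refine Complex.continuous_re.comp (Continuous.matrix_det ?_)
    exact continuous_const.sub (by exact continuous_id)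
  have ho : IsOpen (⋂ s : ι, {Z : ι → ι → ℂ |
      (Matrix.det (((t₀ s - δ : ℝ) : ℂ) • (1 : Matrix ι ι ℂ) - Matrix.of Z)).re *
      (Matrix.det (((t₀ s + δ : ℝ) : ℂ) • (1 : Matrix ι ι ℂ) - Matrix.of Z)).re < 0}) :=
    isOpen_iInter_of_finite fun s => isOpen_lt ((hc _).mul (hc _)) continuous_const
  have hm : (fun i j => (Matrix.diagonal fun k => (t₀ k : ℂ)) i j) ∈ (⋂ s : ι, {Z : ι → ι → ℂ |
      (Matrix.det (((t₀ s - δ : ℝ) : ℂ) • (1 : Matrix ι ι ℂ) - Matrix.of Z)).re *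
      (Matrix.det (((t₀ s + δ : ℝ) : ℂ) • (1 : Matrix ι ι ℂ) - Matrix.of Z)).re < 0}) := by
    rw [Set.mem_iInter]
    intro s
    rw [Set.mem_ofPred_eq]
    have h1 : ∀ x : ℝ, (Matrix.det ((x : ℂ) • (1 : Matrix ι ι ℂ) -
        Matrix.of (fun i j => (Matrix.diagonal fun k => (t₀ k : ℂ)) i j))).re =
        ∏ k, (x - t₀ k) := by
      intro x
      have h2 : (x : ℂ) • (1 : Matrix ι ι ℂ) -
          Matrix.of (fun i j => (Matrix.diagonal fun k => (t₀ k : ℂ)) i j) =
          Matrix.diagonal fun k => ((x - t₀ k : ℝ) : ℂ) := by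
        ext i j
        rw [Matrix.sub_apply, Matrix.smul_apply, Matrix.of_apply]
        by_cases hij : i = j
        · subst hij
          simp
        · simp [Matrix.diagonal_apply_ne _ hij, Matrix.one_apply_ne hij]
      rw [h2, Matrix.det_diagonal, ← Complex.ofReal_prod, Complex.ofReal_re]
    rw [h1, h1]
    exact DiaN_sign t₀ δ hδ h s
  obtain ⟨ε, hε, hb⟩ := Metric.isOpen_iff.1 ho _ hm
  refine ⟨ε, hε, fun Z hZ s => ?_⟩
  have h1 : (fun i j => Z i j) ∈ Metric.ball
      (fun i j => (Matrix.diagonal fun k => (t₀ k : ℂ)) i j) ε := by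
    rw [Metric.mem_ball, dist_pi_lt_iff hε]
    intro i
    rw [dist_pi_lt_iff hε]
    intro j
    have h2 := hZ i j
    rw [Matrix.sub_apply] at h2
    rw [dist_eq_norm]
    exact h2
  have h2 := Set.mem_iInter.1 (hb h1) s
  exact h2

/-- the eigenvectors are almost coordinate vectors -/
private theorem DiaN_vec (e : ι → ℝ) (he : ∀ k, e k = 1 ∨ e k = -1) (t₀ : ι → ℝ) (δ : ℝ)
    (hδ : 0 < δ) (h : ∀ s k, s ≠ k → 3 * δ ≤ |t₀ s - t₀ k|) (Z : Matrix ι ι ℂ)
    (hZ : ∀ i j, ‖(Z - Matrix.diagonal fun k => (t₀ k : ℂ)) i j‖ ≤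
      δ / ((Fintype.card ι : ℝ) + 1) ^ 2) (s : ι) (x : ℝ) (hx : x ∈ Set.Icc (t₀ s - δ) (t₀ s + δ))
    (v : ι → ℂ) (hv : v ≠ 0) (hZv : Z.mulVec v = (x : ℂ) • v) :
    0 < e s * ∑ k, e k * ‖v k‖ ^ 2 := by
  set n : ℝ := (Fintype.card ι : ℝ) with hn
  have hn0 : 0 ≤ n := Nat.cast_nonneg _
  obtain ⟨j, -, hj⟩ := Finset.exists_max_image Finset.univ (fun k => ‖v k‖) ⟨s, Finset.mem_univ s⟩
  have hMpos : 0 < ‖v j‖ := by
    obtain ⟨k, hk⟩ := Function.ne_iff.1 hv
    exact lt_of_lt_of_le (norm_pos_iff.2 hk) (hj k (Finset.mem_univ k))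
  have key : ∀ k, k ≠ s → ‖v k‖ ≤ ‖v j‖ / (2 * (n + 1)) := by
    intro k hk
    have h1 : ((x : ℂ) - (t₀ k : ℂ)) * v k =
        ∑ l, (Z - Matrix.diagonal fun k => (t₀ k : ℂ)) k l * v l := by
      have h2 := congrFun hZv k
      simp only [Matrix.mulVec, dotProduct, Pi.smul_apply, smul_eq_mul] at h2
      simp only [Matrix.sub_apply, sub_mul, Finset.sum_sub_distrib]
      rw [h2]
      congr 1
      rw [Finset.sum_eq_single k]
      · rw [Matrix.diagonal_apply_eq]
      · intro l _ hl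
        rw [Matrix.diagonal_apply_ne _ hl.symm, zero_mul]
      · intro h
        exact absurd (Finset.mem_univ k) h
    have h2 : ‖((x : ℂ) - (t₀ k : ℂ)) * v k‖ ≤ n * (δ / (n + 1) ^ 2 * ‖v j‖) := by
      rw [h1]
      refine (norm_sum_le _ _).trans ?_
      calc ∑ l, ‖(Z - Matrix.diagonal fun k => (t₀ k : ℂ)) k l * v l‖
          ≤ ∑ _l : ι, δ / (n + 1) ^ 2 * ‖v j‖ := by
            refine Finset.sum_le_sum fun l _ => ?_
            rw [norm_mul]
            exact mul_le_mul (hZ k l) (hj l (Finset.mem_univ l)) (norm_nonneg _) (by positivity)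
        _ = n * (δ / (n + 1) ^ 2 * ‖v j‖) := by
            rw [Finset.sum_const, nsmul_eq_mul, Finset.card_univ]
    have h3 : 2 * δ ≤ ‖(x : ℂ) - (t₀ k : ℂ)‖ := by
      rw [← Complex.ofReal_sub, Complex.norm_real, Real.norm_eq_abs]
      have h4 := h s k hk.symm
      have h5 : |t₀ s - t₀ k| ≤ |t₀ s - x| + |x - t₀ k| := abs_sub_le _ _ _
      have h6 : |t₀ s - x| ≤ δ := by
        rw [abs_le]
        constructor
        · linarith [hx.2]
        · linarith [hx.1]
      linarith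
    rw [norm_mul] at h2
    have h7 : 2 * δ * ‖v k‖ ≤ n * (δ / (n + 1) ^ 2 * ‖v j‖) :=
      (mul_le_mul_of_nonneg_right h3 (norm_nonneg _)).trans h2
    have h8 : n * (δ / (n + 1) ^ 2 * ‖v j‖) ≤ δ * (‖v j‖ / (n + 1)) := by
      have h9 : n * (δ / (n + 1) ^ 2 * ‖v j‖) = δ * (‖v j‖ / (n + 1)) * (n / (n + 1)) := by
        field_simp
      rw [h9]
      have h10 : n / (n + 1) ≤ 1 := by
        rw [div_le_one (by positivity)]
        linarith
      have h11 : 0 ≤ δ * (‖v j‖ / (n + 1)) := by positivity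
      nlinarith
    have h12 : 2 * ‖v k‖ ≤ ‖v j‖ / (n + 1) := by
      have h13 : δ * (2 * ‖v k‖) ≤ δ * (‖v j‖ / (n + 1)) := by linarith
      exact le_of_mul_le_mul_left h13 hδ
    have h14 : ‖v j‖ / (2 * (n + 1)) = ‖v j‖ / (n + 1) / 2 := by
      rw [div_div, mul_comm 2 (n + 1)]
    rw [h14]
    linarith
  have hjs : j = s := by
    by_contra hne
    have h1 := key j hne
    rw [le_div_iff₀ (by positivity)] at h1
    nlinarith
  rw [hjs] at key hMpos
  have hsq : ∀ k, e k * e k = 1 := fun k => by rcases he k with h | h <;> rw [h] <;> norm_num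
  rw [← Finset.add_sum_erase _ _ (Finset.mem_univ s), mul_add, ← mul_assoc, hsq, one_mul]
  have h1 : |e s * ∑ k ∈ Finset.univ.erase s, e k * ‖v k‖ ^ 2| ≤ n * (‖v s‖ / (2 * (n + 1))) ^ 2 := by
    rw [abs_mul]
    have h2 : |e s| = 1 := by rcases he s with h | h <;> rw [h] <;> norm_num
    rw [h2, one_mul]
    refine (Finset.abs_sum_le_sum_abs _ _).trans ?_
    calc ∑ k ∈ Finset.univ.erase s, |e k * ‖v k‖ ^ 2|
        ≤ ∑ _k ∈ Finset.univ.erase s, (‖v s‖ / (2 * (n + 1))) ^ 2 := by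
          refine Finset.sum_le_sum fun k hk => ?_
          have h3 : |e k| = 1 := by rcases he k with h | h <;> rw [h] <;> norm_num
          rw [abs_mul, h3, one_mul, abs_of_nonneg (by positivity)]
          exact pow_le_pow_left₀ (norm_nonneg _) (key k (Finset.ne_of_mem_erase hk)) 2
      _ ≤ n * (‖v s‖ / (2 * (n + 1))) ^ 2 := by
          rw [Finset.sum_const, nsmul_eq_mul]
          refine mul_le_mul_of_nonneg_right ?_ (by positivity)
          rw [hn]
          exact_mod_cast Finset.card_le_univ _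
  have h2 : n * (‖v s‖ / (2 * (n + 1))) ^ 2 < ‖v s‖ ^ 2 := by
    have h3 : n * (‖v s‖ / (2 * (n + 1))) ^ 2 = ‖v s‖ ^ 2 * (n / (4 * (n + 1) ^ 2)) := by
      field_simp
      ring
    rw [h3]
    have h4 : n / (4 * (n + 1) ^ 2) < 1 := by
      rw [div_lt_one (by positivity)]
      nlinarith
    have h5 : 0 < ‖v s‖ ^ 2 := by positivity
    nlinarith
  have h3 := neg_abs_le (e s * ∑ k ∈ Finset.univ.erase s, e k * ‖v k‖ ^ 2)
  linarith

/-- diagonalisation near a diagonal matrix, general form -/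
private theorem DiaN_gen (e : ι → ℝ) (he : ∀ k, e k = 1 ∨ e k = -1) (t₀ : ι → ℝ)
    (ht₀ : Function.Injective t₀) : ∃ ε : ℝ, 0 < ε ∧
    ∀ Z : Matrix ι ι ℂ, Matrix.diagonal (fun k => (e k : ℂ)) * Z.conjTranspose *
      Matrix.diagonal (fun k => (e k : ℂ)) = Z →
      (∀ i j, ‖(Z - Matrix.diagonal fun k => (t₀ k : ℂ)) i j‖ < ε) →
      ∃ (g : Matrix ι ι ℂ) (t : ι → ℝ),
        g.conjTranspose * Matrix.diagonal (fun k => (e k : ℂ)) * g =
          Matrix.diagonal (fun k => (e k : ℂ)) ∧ Function.Injective t ∧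
        Z * g = g * Matrix.diagonal fun k => (t k : ℂ) := by
  obtain ⟨δ, hδ, hsep⟩ := DiaN_sep t₀ ht₀
  obtain ⟨ε, hε, hopen⟩ := DiaN_open t₀ δ hδ hsep
  have hpos : 0 < δ / ((Fintype.card ι : ℝ) + 1) ^ 2 := by positivity
  refine ⟨min ε (δ / ((Fintype.card ι : ℝ) + 1) ^ 2), lt_min hε hpos, fun Z hZ hnear => ?_⟩
  have h1 := hopen Z fun i j => (hnear i j).trans_le (min_le_left _ _)
  have h2 : ∀ s, ∃ x ∈ Set.Icc (t₀ s - δ) (t₀ s + δ),
      Matrix.det ((x : ℂ) • (1 : Matrix ι ι ℂ) - Z) = 0 := fun s =>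
    DiaN_root e he Z hZ _ _ (by linarith) (h1 s)
  choose t ht hdet using h2
  have h3 : ∀ s, ∃ v : ι → ℂ, v ≠ 0 ∧ Z.mulVec v = (t s : ℂ) • v := by
    intro s
    obtain ⟨v, hv, h⟩ := Matrix.exists_mulVec_eq_zero_iff.2 (hdet s)
    refine ⟨v, hv, ?_⟩
    rw [Matrix.sub_mulVec, Matrix.smul_mulVec, Matrix.one_mulVec, sub_eq_zero] at h
    exact h.symm
  choose v hv hZv using h3
  have hvec := fun s => DiaN_vec e he t₀ δ hδ hsep Z
    (fun i j => (hnear i j).le.trans (min_le_right _ _)) s (t s) (ht s) (v s) (hv s) (hZv s)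
  have hinj : Function.Injective t := by
    intro s k hsk
    by_contra hne
    have h4 := hsep s k hne
    have h5 : |t₀ s - t₀ k| ≤ |t₀ s - t s| + |t s - t₀ k| := abs_sub_le _ _ _
    have h6 : |t₀ s - t s| ≤ δ := by
      rw [abs_le]
      constructor
      · linarith [(ht s).2]
      · linarith [(ht s).1]
    have h7 : |t s - t₀ k| ≤ δ := by
      rw [hsk, abs_le]
      constructor
      · linarith [(ht k).1]
      · linarith [(ht k).2]
    linarith
  set J : Matrix ι ι ℂ := Matrix.diagonal (fun k => (e k : ℂ)) with hJ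
  set T : Matrix ι ι ℂ := Matrix.diagonal (fun k => (t k : ℂ)) with hT
  set V : Matrix ι ι ℂ := Matrix.of fun i s => v s i with hV
  have hJJ : J * J = 1 := by
    rw [hJ, Matrix.diagonal_mul_diagonal, ← Matrix.diagonal_one]
    congr 1
    funext k
    rcases he k with h | h <;> simp [h]
  have hZV : Z * V = V * T := by
    ext i s
    rw [hT, Matrix.mul_diagonal, Matrix.mul_apply]
    have h4 := congrFun (hZv s) i
    simp only [Matrix.mulVec, dotProduct, Pi.smul_apply, smul_eq_mul] at h4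
    simp only [hV, Matrix.of_apply]
    rw [h4, mul_comm]
  have hTH : T.conjTranspose = T := by
    rw [hT, Matrix.diagonal_conjTranspose]
    congr 1
    funext k
    simp
  have hJZ : Z.conjTranspose * J = J * Z := by
    conv_rhs => rw [← hZ]
    rw [mul_assoc J, ← mul_assoc J J, hJJ, one_mul]
  have hG : (V.conjTranspose * J * V) * T = T * (V.conjTranspose * J * V) := by
    calc (V.conjTranspose * J * V) * T = V.conjTranspose * J * (V * T) := by
          rw [mul_assoc]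
      _ = V.conjTranspose * (J * Z) * V := by
          rw [← hZV]
          simp only [mul_assoc]
      _ = (Z * V).conjTranspose * J * V := by
          rw [← hJZ, Matrix.conjTranspose_mul]
          simp only [mul_assoc]
      _ = T * (V.conjTranspose * J * V) := by
          rw [hZV, Matrix.conjTranspose_mul, hTH]
          simp only [mul_assoc]
  have hoff : ∀ r s, r ≠ s → (V.conjTranspose * J * V) r s = 0 := by
    intro r s hrs
    have h4 := congrFun (congrFun hG r) s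
    rw [hT, Matrix.mul_diagonal, Matrix.diagonal_mul] at h4
    have h5 : ((t s : ℂ) - (t r : ℂ)) * (V.conjTranspose * J * V) r s = 0 := by
      rw [sub_mul, sub_eq_zero, ← h4, mul_comm]
    rcases mul_eq_zero.1 h5 with h6 | h6
    · exact absurd (hinj (Complex.ofReal_injective (sub_eq_zero.1 h6))).symm hrs
    · exact h6
  have hdiag : ∀ s, (V.conjTranspose * J * V) s s = ((∑ k, e k * ‖v s k‖ ^ 2 : ℝ) : ℂ) := by
    intro s
    rw [Matrix.mul_apply, Complex.ofReal_sum]
    refine Finset.sum_congr rfl fun k _ => ?_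
    rw [hJ, Matrix.mul_diagonal, Matrix.conjTranspose_apply]
    simp only [hV, Matrix.of_apply]
    rw [Complex.ofReal_mul, mul_comm (star (v s k)), mul_assoc]
    congr 1
    rw [Complex.star_def, mul_comm, Complex.mul_conj, Complex.normSq_eq_norm_sq]
  set c : ι → ℝ := fun s => (Real.sqrt (e s * ∑ k, e k * ‖v s k‖ ^ 2))⁻¹ with hc
  have hc2 : ∀ s, c s * c s * (∑ k, e k * ‖v s k‖ ^ 2) = e s := by
    intro s
    have h4 := hvec s
    have h5 : c s * c s = (e s * ∑ k, e k * ‖v s k‖ ^ 2)⁻¹ := by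
      rw [hc]
      simp only
      rw [← mul_inv, Real.mul_self_sqrt h4.le]
    rw [h5, inv_mul_eq_iff_eq_mul₀ h4.ne', mul_right_comm]
    rcases he s with h | h <;> rw [h] <;> ring
  refine ⟨V * Matrix.diagonal fun k => (c k : ℂ), t, ?_, hinj, ?_⟩
  · have hCH : (Matrix.diagonal fun k => (c k : ℂ)).conjTranspose =
        Matrix.diagonal fun k => (c k : ℂ) := by
      rw [Matrix.diagonal_conjTranspose]
      congr 1
      funext k
      simp
    rw [Matrix.conjTranspose_mul, hCH]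
    have h4 : (Matrix.diagonal fun k => (c k : ℂ)) * V.conjTranspose * J *
        (V * Matrix.diagonal fun k => (c k : ℂ)) =
        (Matrix.diagonal fun k => (c k : ℂ)) * (V.conjTranspose * J * V) *
          Matrix.diagonal fun k => (c k : ℂ) := by
      simp only [mul_assoc]
    rw [h4]
    ext r s
    rw [Matrix.mul_diagonal, Matrix.diagonal_mul]
    by_cases hrs : r = s
    · subst hrs
      rw [hdiag, hJ, Matrix.diagonal_apply_eq, mul_right_comm, ← Complex.ofReal_mul,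
        ← Complex.ofReal_mul, hc2]
    · rw [hoff r s hrs, hJ, Matrix.diagonal_apply_ne _ hrs, mul_zero, zero_mul]
  · rw [← mul_assoc, hZV, mul_assoc, mul_assoc, hT, Matrix.diagonal_mul_diagonal,
      Matrix.diagonal_mul_diagonal]
    congr 2
    funext k
    rw [mul_comm]

end general

/-- diagonalisation near a diagonal matrix -/
theorem thm_DiaN : St_DiaN := by
  intro α β _ _ _ _ t₀ ht₀
  have hJ : Jm α β = Matrix.diagonal
      (fun k : α ⊕ β => ((Sum.elim (fun _ => (1 : ℝ)) (fun _ => -1) k : ℝ) : ℂ)) := by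
    unfold Jm
    ext i j
    rcases i with i | i <;> rcases j with j | j
    · by_cases h : i = j
      · subst h
        simp
      · simp [h]
    · simp
    · simp
    · by_cases h : i = j
      · subst h
        simp
      · simp [h]
  obtain ⟨ε, hε, h⟩ := DiaN_gen (ι := α ⊕ β) (Sum.elim (fun _ => (1 : ℝ)) (fun _ => -1))
    (by rintro (k | k) <;> simp) t₀ ht₀
  refine ⟨ε, hε, fun Z hZ hnear => ?_⟩
  rw [hJ] at hZ
  obtain ⟨g, t, h1, h2, h3⟩ := h Z hZ hnear
  refine ⟨g, t, ?_, h2, h3⟩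
  unfold IsU
  rw [hJ]
  exact h1

end PST
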