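import Pool.Agent.PST.StF
import Pool.Agent.GAM.GroC

/-!
# PST [Ell]: the properties of the Fock functional
-/

set_option autoImplicit false
set_option linter.unusedSectionVars false

namespace PST

open scoped ComplexConjugate
open MeasureTheory
open GAM (H E F pd pdl PLat IsTh OddTor IsDel Gro IsLat)

section

variable {α β μ : Type} [Fintype α] [Fintype β] [Fintype μ] [DecidableEq α]
  [DecidableEq β] [DecidableEq μ]

private theorem Ell_emb_cont (w : α × β → ℂ) :
    Continuous (emb w : (β × μ → ℂ) → Ix α β μ → ℂ) := by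
  refine continuous_pi fun p => ?_
  obtain ⟨i | j, k⟩ := p
  · exact continuous_finsetSum _ fun j _ => continuous_const.mul
      (Complex.continuous_conj.comp (continuous_apply (j, k)))
  · exact continuous_apply (j, k)

private theorem Ell_gw_cont {κ : Type} [Fintype κ] : Continuous (gw : (κ → ℂ) → ℂ) := by
  unfold gw
  refine Complex.continuous_exp.comp ?_
  refine Continuous.neg (continuous_const.mul ?_)
  exact continuous_finsetSum _ fun p _ =>
    (continuous_apply p).mul (Complex.continuous_conj.comp (continuous_apply p))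

private theorem Ell_int (h4 : St_EllI) (h5 : St_Gau) {G : (Ix α β μ → ℂ) → ℂ} (hG : Gro G)
    {w : α × β → ℂ} (hw : w ∈ Om α β) :
    Integrable (fun ξ : β × μ → ℂ => G (emb w ξ) * gw ξ) ∧
    ∀ q : β × μ, Integrable (fun ξ : β × μ → ℂ => conj (ξ q) * (G (emb w ξ) * gw ξ)) := by
  obtain ⟨ρ, hρ0, hρ1, hρ⟩ := hw
  obtain ⟨C, c, hC, hc, hb⟩ := h4 α β μ G hG ρ hρ0 hρ1
  have hcont : Continuous (fun ξ : β × μ → ℂ => G (emb w ξ) * gw ξ) :=
    (hG.ent.continuous.comp (Ell_emb_cont w)).mul Ell_gw_cont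
  constructor
  · refine Integrable.mono' (((h5 (β × μ)).1 c hc).const_mul C)
      hcont.aestronglyMeasurable (Filter.Eventually.of_forall fun ξ => hb w hρ ξ)
  · intro q
    obtain ⟨C', hC', hb'⟩ := (h5 (β × μ)).2.1 c 0 hc
    refine Integrable.mono' (((h5 (β × μ)).1 (c / 2) (half_pos hc)).const_mul (C * C'))
      ((Complex.continuous_conj.comp (continuous_apply q)).mul hcont).aestronglyMeasurable
      (Filter.Eventually.of_forall fun ξ => ?_)
    have e1 := hb w hρ ξ
    have e2 := hb' ξ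
    rw [zero_mul, zero_sub] at e2
    have e3 : ‖ξ q‖ ≤ 1 + ∑ p, ‖ξ p‖ := by
      have := Finset.single_le_sum (f := fun p => ‖ξ p‖) (fun p _ => norm_nonneg _)
        (Finset.mem_univ q)
      linarith
    calc ‖conj (ξ q) * (G (emb w ξ) * gw ξ)‖ = ‖ξ q‖ * ‖G (emb w ξ) * gw ξ‖ := by
          rw [norm_mul, RCLike.norm_conj]
      _ ≤ (1 + ∑ p, ‖ξ p‖) * (C * Real.exp (-(c * ∑ p, ‖ξ p‖ ^ 2))) :=
          mul_le_mul e3 e1 (norm_nonneg _) (by positivity)
      _ = C * ((1 + ∑ p, ‖ξ p‖) * Real.exp (-(c * ∑ p, ‖ξ p‖ ^ 2))) := by ring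
      _ ≤ C * (C' * Real.exp (-(c / 2 * ∑ p, ‖ξ p‖ ^ 2))) :=
          mul_le_mul_of_nonneg_left e2 hC.le
      _ = C * C' * Real.exp (-(c / 2 * ∑ p, ‖ξ p‖ ^ 2)) := by ring

end

theorem thm_Ell (h1 : St_EllH) (h2 : St_EllB) (h3 : St_EllZ) (h4 : St_EllI) (h5 : St_Gau) :
    St_Ell := by
  intro α β μ _ _ _ _ _ _ G hG
  obtain ⟨g1, -, g3, g4⟩ := GAM.thm_GroC (Ix α β μ)
  refine ⟨(h1 α β μ G hG).1, h3 α β μ G hG, fun w hw => ⟨?_, ?_, ?_, ?_, ?_⟩⟩
  · rintro ⟨i, j⟩
    rw [(h1 α β μ G hG).2 w hw i j]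
    have e1 : ell w (Dij (i, j) G) =
        ∑ k : μ, ell w (pd (Sum.inr j, k) (pd (Sum.inl i, k) G)) := by
      unfold ell Dij
      rw [← integral_finsetSum]
      · refine integral_congr_ae (Filter.Eventually.of_forall fun ξ => ?_)
        dsimp only
        rw [Finset.sum_mul]
      · intro k _
        exact (Ell_int h4 h5 (g1 _ (g1 _ hG _) _) hw).1
    rw [e1, Finset.mul_sum]
    refine Finset.sum_congr rfl fun k _ => ?_
    exact (h2 α β μ _ (g1 G hG (Sum.inl i, k)) w hw (j, k)).1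
  · intro i k
    have e1 : ell w (fun v => v (Sum.inl i, k) * G v) =
        ∑ j, w (i, j) * ∫ ξ : β × μ → ℂ, conj (ξ (j, k)) * (G (emb w ξ) * gw ξ) := by
      unfold ell
      have e2 : ∀ j, w (i, j) * ∫ ξ : β × μ → ℂ, conj (ξ (j, k)) * (G (emb w ξ) * gw ξ) =
          ∫ ξ : β × μ → ℂ, w (i, j) * (conj (ξ (j, k)) * (G (emb w ξ) * gw ξ)) := fun j =>
        (integral_const_mul _ _).symm
      simp only [e2]
      rw [← integral_finsetSum]
      · refine integral_congr_ae (Filter.Eventually.of_forall fun ξ => ?_)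
        dsimp only
        rw [mul_assoc]
        change (∑ j, w (i, j) * conj (ξ (j, k))) * (G (emb w ξ) * gw ξ) = _
        rw [Finset.sum_mul]
        exact Finset.sum_congr rfl fun j _ => by ring
      · intro j _
        exact ((Ell_int h4 h5 hG hw).2 (j, k)).const_mul _
    rw [e1, Finset.mul_sum]
    refine Finset.sum_congr rfl fun j _ => ?_
    rw [(h2 α β μ G hG w hw (j, k)).1]
    ring
  · intro j k
    rw [← (h2 α β μ G hG w hw (j, k)).2]
    unfold ell
    refine integral_congr_ae (Filter.Eventually.of_forall fun ξ => ?_)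
    dsimp only
    rw [mul_assoc]
    rfl
  · intro c
    unfold ell
    rw [← integral_const_mul]
    refine integral_congr_ae (Filter.Eventually.of_forall fun ξ => ?_)
    dsimp only
    rw [mul_assoc]
  · intro G' hG'
    unfold ell
    rw [← integral_add (Ell_int h4 h5 hG hw).1 (Ell_int h4 h5 hG' hw).1]
    refine integral_congr_ae (Filter.Eventually.of_forall fun ξ => ?_)
    dsimp only
    rw [add_mul]

end PST
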