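import Pool.Agent.PST.StF
import Pool.Agent.GAM.GroC

/-!
# PST [EllB]: integration by parts (Wirtinger)
-/

set_option autoImplicit false
set_option linter.unusedSectionVars false

namespace PST

open scoped ComplexConjugate
open MeasureTheory
open GAM (H E F pd pdl PLat IsTh OddTor IsDel Gro IsLat)

section

variable {α β μ : Type} [Fintype α] [Fintype β] [Fintype μ] [DecidableEq α]
  [DecidableEq β] [DecidableEq μ]

/-- `emb` is real linear. -/
private noncomputable def EllB_L (w : α × β → ℂ) : (β × μ → ℂ) →L[ℝ] (Ix α β μ → ℂ) :=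
  LinearMap.toContinuousLinearMap
    { toFun := emb w
      map_add' := by
        intro x y
        funext p
        obtain ⟨q, k⟩ := p
        cases q with
        | inl i =>
          simp only [emb, Sum.elim_inl, Pi.add_apply, map_add, mul_add, Finset.sum_add_distrib]
        | inr j => simp only [emb, Sum.elim_inr, Pi.add_apply]
      map_smul' := by
        intro c x
        funext p
        obtain ⟨q, k⟩ := p
        cases q with
        | inl i =>
          simp only [emb, Sum.elim_inl, Pi.smul_apply, RingHom.id_apply, Complex.real_smul,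
            map_mul, Complex.conj_ofReal, Finset.mul_sum]
          refine Finset.sum_congr rfl fun j _ => ?_
          ring
        | inr j => simp only [emb, Sum.elim_inr, Pi.smul_apply, RingHom.id_apply] }

private theorem EllB_L_apply (w : α × β → ℂ) (ξ : β × μ → ℂ) : EllB_L w ξ = emb w ξ := rfl

private theorem EllB_emb_cont (w : α × β → ℂ) : Continuous (emb w : (β × μ → ℂ) → Ix α β μ → ℂ) :=
  (EllB_L w).continuous

private theorem EllB_emb1 (w : α × β → ℂ) (q : β × μ) (t : ℂ) :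
    emb w (Pi.single q t) = t • (Pi.single (Sum.inr q.1, q.2) 1 : Ix α β μ → ℂ) +
      ∑ i, (w (i, q.1) * conj t) • (Pi.single (Sum.inl i, q.2) 1 : Ix α β μ → ℂ) := by
  funext p
  obtain ⟨s, k⟩ := p
  cases s with
  | inl i =>
    simp only [emb, Sum.elim_inl, Pi.add_apply, Pi.smul_apply, smul_eq_mul, Finset.sum_apply]
    have h1 : (Pi.single (Sum.inr q.1, q.2) 1 : Ix α β μ → ℂ) (Sum.inl i, k) = 0 := by
      rw [Pi.single_eq_of_ne]
      intro h
      exact absurd (congrArg Prod.fst h) (by simp)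
    rw [h1, mul_zero, zero_add]
    by_cases hk : k = q.2
    · subst hk
      rw [Finset.sum_eq_single q.1, Finset.sum_eq_single i]
      · rw [Pi.single_eq_same, Pi.single_eq_same, mul_one]
      · intro i' _ hi'
        rw [Pi.single_eq_of_ne, mul_zero]
        intro h
        exact hi' (Sum.inl_injective (congrArg Prod.fst h)).symm
      · intro h; exact absurd (Finset.mem_univ _) h
      · intro j _ hj
        rw [Pi.single_eq_of_ne, map_zero, mul_zero]
        intro h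
        exact hj (congrArg Prod.fst h)
      · intro h; exact absurd (Finset.mem_univ _) h
    · rw [Finset.sum_eq_zero, Finset.sum_eq_zero]
      · intro i' _
        rw [Pi.single_eq_of_ne, mul_zero]
        intro h
        exact hk (congrArg Prod.snd h)
      · intro j _
        rw [Pi.single_eq_of_ne, map_zero, mul_zero]
        intro h
        exact hk (congrArg Prod.snd h)
  | inr j =>
    simp only [emb, Sum.elim_inr, Pi.add_apply, Pi.smul_apply, smul_eq_mul, Finset.sum_apply]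
    rw [Finset.sum_eq_zero, add_zero]
    · by_cases h : (j, k) = q
      · subst h
        rw [Pi.single_eq_same, Pi.single_eq_same, mul_one]
      · rw [Pi.single_eq_of_ne h, Pi.single_eq_of_ne, mul_zero]
        intro h'
        apply h
        have e1 : j = q.1 := Sum.inr_injective (congrArg Prod.fst h')
        have e2 : k = q.2 := congrArg Prod.snd h'
        exact Prod.ext e1 e2
    · intro i' _
      rw [Pi.single_eq_of_ne, mul_zero]
      intro h
      exact absurd (congrArg Prod.fst h) (by simp)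

private theorem EllB_gw_cont {κ : Type} [Fintype κ] : Continuous (gw : (κ → ℂ) → ℂ) := by
  unfold gw
  refine Complex.continuous_exp.comp ?_
  refine Continuous.neg (continuous_const.mul ?_)
  exact continuous_finsetSum _ fun p _ =>
    (continuous_apply p).mul (Complex.continuous_conj.comp (continuous_apply p))

/-- derivative of the Gaussian -/
private theorem EllB_gw_deriv {κ : Type} [Fintype κ] (ξ : κ → ℂ) :
    ∃ D : (κ → ℂ) →L[ℝ] ℂ, HasFDerivAt gw D ξ ∧
    ∀ h : κ → ℂ, D h = gw ξ * -(Real.pi * ∑ p, (h p * conj (ξ p) + ξ p * conj (h p))) := by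
  have h1 : ∀ p, HasFDerivAt (fun ξ : κ → ℂ => ξ p)
      (ContinuousLinearMap.proj (R := ℝ) (φ := fun _ : κ => ℂ) p) ξ := fun p =>
    (ContinuousLinearMap.proj (R := ℝ) (φ := fun _ : κ => ℂ) p).hasFDerivAt
  have h1c : ∀ p, HasFDerivAt (fun ξ : κ → ℂ => conj (ξ p))
      ((Complex.conjCLE : ℂ →L[ℝ] ℂ).comp
        (ContinuousLinearMap.proj (R := ℝ) (φ := fun _ : κ => ℂ) p)) ξ := fun p =>
    (Complex.conjCLE : ℂ →L[ℝ] ℂ).hasFDerivAt.comp ξ (h1 p)
  have h3 := ((HasFDerivAt.fun_sum (u := Finset.univ) fun p _ =>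
    (h1 p).mul (h1c p)).const_mul (Real.pi : ℂ)).neg.cexp
  refine ⟨_, h3, fun h => ?_⟩
  unfold gw
  simp only [smul_apply, neg_apply, add_apply, smul_eq_mul, ContinuousLinearMap.comp_apply,
    ContinuousLinearMap.proj_apply, ContinuousLinearEquiv.coe_coe, Complex.conjCLE_apply,
    _root_.sum_apply]
  congr 1
  congr 1
  congr 1
  refine Finset.sum_congr rfl fun p _ => ?_
  ring

/-- derivative of the integrand -/
private theorem EllB_deriv (G : (Ix α β μ → ℂ) → ℂ) (hG : Differentiable ℂ G)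
    (w : α × β → ℂ) (ξ : β × μ → ℂ) : ∃ D : (β × μ → ℂ) →L[ℝ] ℂ,
    HasFDerivAt (fun ξ => G (emb w ξ) * gw ξ) D ξ ∧
    ∀ h : β × μ → ℂ, D h = G (emb w ξ) * (gw ξ * -(Real.pi *
      ∑ p, (h p * conj (ξ p) + ξ p * conj (h p)))) +
      gw ξ * fderiv ℂ G (emb w ξ) (emb w h) := by
  obtain ⟨D, hD1, hD2⟩ := EllB_gw_deriv ξ
  have h1 : HasFDerivAt (fun ξ => G (emb w ξ))
      (((fderiv ℂ G (emb w ξ)).restrictScalars ℝ).comp (EllB_L w)) ξ := by
    have h2 : HasFDerivAt G ((fderiv ℂ G (emb w ξ)).restrictScalars ℝ) (EllB_L w ξ) :=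
      (hG (emb w ξ)).hasFDerivAt.restrictScalars ℝ
    exact h2.comp ξ (EllB_L w).hasFDerivAt
  refine ⟨_, h1.mul hD1, fun h => ?_⟩
  rw [add_apply, smul_apply,
    smul_apply, hD2, ContinuousLinearMap.comp_apply, EllB_L_apply,
    ContinuousLinearMap.coe_restrictScalars', smul_eq_mul, smul_eq_mul]

/-- the integral of a derivative is zero -/
private theorem EllB_int_zero {κ : Type} [Fintype κ] (Φ : (κ → ℂ) → ℂ) (h : κ → ℂ)
    (f : (κ → ℂ) → ℂ)
    (hD : ∀ ξ, ∃ D : (κ → ℂ) →L[ℝ] ℂ, HasFDerivAt Φ D ξ ∧ D h = f ξ)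
    (hΦ : Integrable Φ) (hf : Integrable f) : ∫ ξ, f ξ = 0 := by
  choose D hD1 hD2 using hD
  have h1 := integral_bilinear_hasFDerivAt_right_eq_neg_left_of_integrable
    (μ := (volume : Measure (κ → ℂ))) (f := fun _ => (1 : ℂ)) (f' := fun _ => 0) (g := Φ) (g' := D)
    (v := h) (B := ContinuousLinearMap.mul ℝ ℂ) (by simp) (by simpa [hD2] using hf)
    (by simpa using hΦ) (fun ξ _ => hasFDerivAt_const _ _) (fun ξ _ => hD1 ξ)
  simpa [hD2] using h1

private theorem EllB_integrable {κ : Type} [Fintype κ] (hGau : St_Gau) (f : (κ → ℂ) → ℂ)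
    (hf : Continuous f) (C c : ℝ)
    (hc : 0 < c) (hb : ∀ ξ, ‖f ξ‖ ≤ C * Real.exp (-(c * ∑ p, ‖ξ p‖ ^ 2))) :
    Integrable f :=
  (((hGau κ).1 c hc).const_mul C).mono' hf.aestronglyMeasurable (Filter.Eventually.of_forall hb)

private theorem EllB_integrable1 {κ : Type} [Fintype κ] (hGau : St_Gau) (f m : (κ → ℂ) → ℂ)
    (hf : Continuous f)
    (hm : Continuous m) (C c : ℝ) (hC : 0 < C)
    (hc : 0 < c) (hb : ∀ ξ, ‖f ξ‖ ≤ C * Real.exp (-(c * ∑ p, ‖ξ p‖ ^ 2)))
    (hmb : ∀ ξ, ‖m ξ‖ ≤ 1 + ∑ p, ‖ξ p‖) :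
    Integrable (fun ξ => m ξ * f ξ) := by
  obtain ⟨C', hC', h2⟩ := (hGau κ).2.1 c 0 hc
  refine EllB_integrable hGau _ (hm.mul hf) (C * C') (c / 2) (by positivity) fun ξ => ?_
  rw [norm_mul]
  have h3 := h2 ξ
  rw [zero_mul, zero_sub] at h3
  have h4 : 0 ≤ ∑ p, ‖ξ p‖ := Finset.sum_nonneg fun _ _ => norm_nonneg _
  calc ‖m ξ‖ * ‖f ξ‖ ≤ (1 + ∑ p, ‖ξ p‖) *
        (C * Real.exp (-(c * ∑ p, ‖ξ p‖ ^ 2))) :=
        mul_le_mul (hmb ξ) (hb ξ) (norm_nonneg _) (by linarith)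
    _ = C * ((1 + ∑ p, ‖ξ p‖) * Real.exp (-(c * ∑ p, ‖ξ p‖ ^ 2))) := by ring
    _ ≤ C * (C' * Real.exp (-(c / 2 * ∑ p, ‖ξ p‖ ^ 2))) :=
        mul_le_mul_of_nonneg_left h3 hC.le
    _ = C * C' * Real.exp (-(c / 2 * ∑ p, ‖ξ p‖ ^ 2)) := by ring

end

theorem thm_EllB (h1 : St_Gau) (h2 : St_EllI) : St_EllB := by
  intro α β μ _ _ _ _ _ _ G hG w hw q
  have hpi : (Real.pi : ℂ) ≠ 0 := Complex.ofReal_ne_zero.2 Real.pi_ne_zero
  obtain ⟨ρ, hρ0, hρ1, hwρ⟩ := hw
  -- integrability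
  have hI : ∀ G' : (Ix α β μ → ℂ) → ℂ, Gro G' →
      Integrable (fun ξ : β × μ → ℂ => G' (emb w ξ) * gw ξ) := by
    intro G' hG'
    obtain ⟨C, c, hC, hc, hb⟩ := h2 α β μ G' hG' ρ hρ0 hρ1
    exact EllB_integrable h1 _ ((hG'.ent.continuous.comp (EllB_emb_cont w)).mul EllB_gw_cont)
      C c hc fun ξ => hb w hwρ ξ
  have hI1 : ∀ m : (β × μ → ℂ) → ℂ, Continuous m → (∀ ξ, ‖m ξ‖ ≤ 1 + ∑ p, ‖ξ p‖) →
      Integrable (fun ξ : β × μ → ℂ => m ξ * (G (emb w ξ) * gw ξ)) := by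
    intro m hm hmb
    obtain ⟨C, c, hC, hc, hb⟩ := h2 α β μ G hG ρ hρ0 hρ1
    exact EllB_integrable1 h1 (fun ξ => G (emb w ξ) * gw ξ) m
      ((hG.ent.continuous.comp (EllB_emb_cont w)).mul EllB_gw_cont) hm
      C c hC hc (fun ξ => hb w hwρ ξ) hmb
  have hm1 : Continuous fun ξ : β × μ → ℂ => ξ q := continuous_apply q
  have hm1c : Continuous fun ξ : β × μ → ℂ => conj (ξ q) :=
    Complex.continuous_conj.comp (continuous_apply q)
  have hb1 : ∀ ξ : β × μ → ℂ, ‖ξ q‖ ≤ 1 + ∑ p, ‖ξ p‖ := fun ξ => by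
    have h4 : ‖ξ q‖ ≤ ∑ p, ‖ξ p‖ := Finset.single_le_sum (f := fun p => ‖ξ p‖)
      (fun _ _ => norm_nonneg _) (Finset.mem_univ q)
    linarith
  have hb1c : ∀ ξ : β × μ → ℂ, ‖conj (ξ q)‖ ≤ 1 + ∑ p, ‖ξ p‖ := fun ξ => by
    rw [RCLike.norm_conj]
    exact hb1 ξ
  have hII : Complex.I * Complex.I = -1 := Complex.I_mul_I
  have hA := hI _ ((GAM.thm_GroC (Ix α β μ)).1 G hG (Sum.inr q.1, q.2))
  have hB := fun i => hI _ ((GAM.thm_GroC (Ix α β μ)).1 G hG (Sum.inl i, q.2))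
  have hX := hI1 _ hm1 hb1
  have hXc := hI1 _ hm1c hb1c
  have hfd : ∀ (t : ℂ) (ξ : β × μ → ℂ), fderiv ℂ G (emb w ξ) (emb w (Pi.single q t)) =
      t * pd (Sum.inr q.1, q.2) G (emb w ξ) +
        ∑ i, w (i, q.1) * conj t * pd (Sum.inl i, q.2) G (emb w ξ) := by
    intro t ξ
    rw [EllB_emb1 w q t, map_add, map_smul, map_sum, smul_eq_mul]
    simp only [map_smul, smul_eq_mul]
    rfl
  have hsum : ∀ (t : ℂ) (ξ : β × μ → ℂ), ∑ p, ((Pi.single q t : β × μ → ℂ) p * conj (ξ p) +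
      ξ p * conj ((Pi.single q t : β × μ → ℂ) p)) = t * conj (ξ q) + ξ q * conj t := by
    intro t ξ
    rw [Finset.sum_eq_single q]
    · rw [Pi.single_eq_same]
    · intro p _ hp
      rw [Pi.single_eq_of_ne hp, zero_mul, map_zero, mul_zero, add_zero]
    · intro h; exact absurd (Finset.mem_univ _) h
  have e : ∀ t : ℂ, (fun ξ : β × μ → ℂ => G (emb w ξ) * (gw ξ * -(Real.pi *
      ∑ p, ((Pi.single q t : β × μ → ℂ) p * conj (ξ p) +
        ξ p * conj ((Pi.single q t : β × μ → ℂ) p)))) +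
      gw ξ * fderiv ℂ G (emb w ξ) (emb w (Pi.single q t))) =
      fun ξ => ((-Real.pi * t) * (conj (ξ q) * (G (emb w ξ) * gw ξ)) +
        (-Real.pi * conj t) * (ξ q * (G (emb w ξ) * gw ξ))) +
        (t * (pd (Sum.inr q.1, q.2) G (emb w ξ) * gw ξ) +
        ∑ i, (w (i, q.1) * conj t) * (pd (Sum.inl i, q.2) G (emb w ξ) * gw ξ)) := by
    intro t
    funext ξ
    rw [hfd, hsum, mul_add (gw ξ), Finset.mul_sum]
    have h5 : ∀ i, gw ξ * (w (i, q.1) * conj t * pd (Sum.inl i, q.2) G (emb w ξ)) =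
        (w (i, q.1) * conj t) * (pd (Sum.inl i, q.2) G (emb w ξ) * gw ξ) := fun i => by ring
    rw [Finset.sum_congr rfl fun i _ => h5 i]
    ring
  have hint : ∀ t : ℂ, Integrable (fun ξ : β × μ → ℂ => ((-Real.pi * t) *
        (conj (ξ q) * (G (emb w ξ) * gw ξ)) +
        (-Real.pi * conj t) * (ξ q * (G (emb w ξ) * gw ξ))) +
        (t * (pd (Sum.inr q.1, q.2) G (emb w ξ) * gw ξ) +
        ∑ i, (w (i, q.1) * conj t) * (pd (Sum.inl i, q.2) G (emb w ξ) * gw ξ))) := fun t =>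
    ((hXc.const_mul _).add (hX.const_mul _)).add ((hA.const_mul _).add
      (integrable_finsetSum _ fun i _ => (hB i).const_mul _))
  have hval : ∀ t : ℂ, (-Real.pi * t) * (∫ ξ : β × μ → ℂ, conj (ξ q) * (G (emb w ξ) * gw ξ)) +
        (-Real.pi * conj t) * (∫ ξ : β × μ → ℂ, ξ q * (G (emb w ξ) * gw ξ)) +
        (t * (∫ ξ : β × μ → ℂ, pd (Sum.inr q.1, q.2) G (emb w ξ) * gw ξ) +
        conj t * ∑ i, w (i, q.1) * (∫ ξ : β × μ → ℂ, pd (Sum.inl i, q.2) G (emb w ξ) * gw ξ)) =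
        0 := by
    intro t
    have h5 : ∫ ξ : β × μ → ℂ, (G (emb w ξ) * (gw ξ * -(Real.pi *
      ∑ p, ((Pi.single q t : β × μ → ℂ) p * conj (ξ p) +
        ξ p * conj ((Pi.single q t : β × μ → ℂ) p)))) +
      gw ξ * fderiv ℂ G (emb w ξ) (emb w (Pi.single q t))) = 0 := by
      refine EllB_int_zero (fun ξ => G (emb w ξ) * gw ξ) (Pi.single q t) _ (fun ξ => ?_) (hI G hG)
        (by rw [e t]; exact hint t)
      obtain ⟨D, hD1, hD2⟩ := EllB_deriv G hG.ent w ξ
      exact ⟨D, hD1, hD2 _⟩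
    rw [e t] at h5
    have h12 : Integrable (fun ξ : β × μ → ℂ => (-Real.pi * t) *
        (conj (ξ q) * (G (emb w ξ) * gw ξ)) + (-Real.pi * conj t) *
        (ξ q * (G (emb w ξ) * gw ξ))) := (hXc.const_mul _).add (hX.const_mul _)
    have h3' : Integrable (fun ξ : β × μ → ℂ =>
        ∑ i, (w (i, q.1) * conj t) * (pd (Sum.inl i, q.2) G (emb w ξ) * gw ξ)) :=
      integrable_finsetSum _ fun i _ => (hB i).const_mul _
    have h34 : Integrable (fun ξ : β × μ → ℂ =>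
        t * (pd (Sum.inr q.1, q.2) G (emb w ξ) * gw ξ) +
        ∑ i, (w (i, q.1) * conj t) * (pd (Sum.inl i, q.2) G (emb w ξ) * gw ξ)) :=
      (hA.const_mul _).add h3'
    rw [integral_add h12 h34, integral_add (hXc.const_mul _) (hX.const_mul _),
      integral_add (hA.const_mul _) h3', integral_finsetSum _ fun i _ => (hB i).const_mul _,
      integral_const_mul, integral_const_mul, integral_const_mul] at h5
    simp only [integral_const_mul] at h5
    rw [Finset.mul_sum]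
    have h6 : ∀ i, conj t * (w (i, q.1) *
        (∫ ξ : β × μ → ℂ, pd (Sum.inl i, q.2) G (emb w ξ) * gw ξ)) = w (i, q.1) * conj t *
        (∫ ξ : β × μ → ℂ, pd (Sum.inl i, q.2) G (emb w ξ) * gw ξ) := fun i => by ring
    rw [Finset.sum_congr rfl fun i _ => h6 i]
    exact h5
  have v1 := hval 1
  have vI := hval Complex.I
  rw [map_one] at v1
  rw [Complex.conj_I] at vI
  have hell : ell w (pd (Sum.inr q.1, q.2) G) =
    ∫ ξ : β × μ → ℂ, pd (Sum.inr q.1, q.2) G (emb w ξ) * gw ξ := rfl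
  have hell' : ∀ i, ell w (pd (Sum.inl i, q.2) G) =
    ∫ ξ : β × μ → ℂ, pd (Sum.inl i, q.2) G (emb w ξ) * gw ξ := fun i => rfl
  simp only [hell, hell']
  set X := ∫ ξ : β × μ → ℂ, conj (ξ q) * (G (emb w ξ) * gw ξ)
  set Y := ∫ ξ : β × μ → ℂ, ξ q * (G (emb w ξ) * gw ξ)
  set A := ∫ ξ : β × μ → ℂ, pd (Sum.inr q.1, q.2) G (emb w ξ) * gw ξ
  set B := ∑ i, w (i, q.1) * ∫ ξ : β × μ → ℂ, pd (Sum.inl i, q.2) G (emb w ξ) * gw ξ
  have h6 : (Real.pi : ℂ) * X = A := by
    linear_combination (-1 / 2 : ℂ) * v1 + (1 / 2 : ℂ) * Complex.I * vI +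
      (1 / 2 : ℂ) * (Real.pi * X - Real.pi * Y - A + B) * hII
  have h7 : (Real.pi : ℂ) * Y = B := by
    linear_combination (-1 / 2 : ℂ) * v1 - (1 / 2 : ℂ) * Complex.I * vI -
      (1 / 2 : ℂ) * (Real.pi * X - Real.pi * Y - A + B) * hII
  constructor
  · rw [← h6]
    field_simp
  · rw [← h7]
    field_simp

end PST
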