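import Pool.Agent.PST.StF
import Pool.Agent.GAM.GroC

/-!
# PST [EllH]: derivatives of the Fock functional under the integral sign
-/

set_option autoImplicit false
set_option linter.unusedSectionVars false

namespace PST

open scoped ComplexConjugate
open GAM (H E F pd pdl PLat IsTh OddTor IsDel Gro IsLat)

section

variable {α β μ : Type} [Fintype α] [Fintype β] [Fintype μ]
  [DecidableEq α] [DecidableEq β] [DecidableEq μ]

/-- the linear part of the embedding -/
private noncomputable def EllH_lin (ξ : β × μ → ℂ) : (α × β → ℂ) →ₗ[ℂ] (Ix α β μ → ℂ) where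
  toFun w := fun p => Sum.elim (fun i => ∑ j, w (i, j) * conj (ξ (j, p.2))) (fun _ => 0) p.1
  map_add' w w' := by
    funext p
    obtain ⟨s, k⟩ := p
    rcases s with i | j
    · show ∑ j, (w (i, j) + w' (i, j)) * conj (ξ (j, k)) =
        ∑ j, w (i, j) * conj (ξ (j, k)) + ∑ j, w' (i, j) * conj (ξ (j, k))
      rw [← Finset.sum_add_distrib]
      exact Finset.sum_congr rfl fun j _ => by ring
    · exact (add_zero (0 : ℂ)).symm
  map_smul' c w := by
    funext p
    obtain ⟨s, k⟩ := p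
    rcases s with i | j
    · show ∑ j, (c * w (i, j)) * conj (ξ (j, k)) = c * ∑ j, w (i, j) * conj (ξ (j, k))
      rw [Finset.mul_sum]
      exact Finset.sum_congr rfl fun j _ => by ring
    · exact (mul_zero c).symm

private theorem EllH_emb (w : α × β → ℂ) (ξ : β × μ → ℂ) :
    (emb w ξ : Ix α β μ → ℂ) = emb 0 ξ + EllH_lin ξ w := by
  funext p
  obtain ⟨s, k⟩ := p
  rcases s with i | j
  · show ∑ j, w (i, j) * conj (ξ (j, k)) = ∑ j, (0 : ℂ) * conj (ξ (j, k)) +
      ∑ j, w (i, j) * conj (ξ (j, k))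
    simp
  · show ξ (j, k) = ξ (j, k) + 0
    rw [add_zero]

private theorem EllH_single (ξ : β × μ → ℂ) (i : α) (j : β) :
    (EllH_lin ξ (Pi.single (i, j) 1) : Ix α β μ → ℂ) =
      ∑ k : μ, conj (ξ (j, k)) • Pi.single (Sum.inl i, k) (1 : ℂ) := by
  funext p
  obtain ⟨s, k⟩ := p
  rw [Finset.sum_apply]
  rcases s with i' | j'
  · show ∑ j', (Pi.single (i, j) 1 : α × β → ℂ) (i', j') * conj (ξ (j', k)) = _
    rw [Finset.sum_eq_single j, Finset.sum_eq_single k]
    · by_cases h : i' = i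
      · subst h
        simp
      · rw [Pi.single_eq_of_ne (fun h' => h (congrArg Prod.fst h')), Pi.smul_apply,
          Pi.single_eq_of_ne (fun h' => h (Sum.inl_injective (congrArg Prod.fst h')))]
        simp
    · intro k' _ hk
      rw [Pi.smul_apply, Pi.single_eq_of_ne (fun h' => hk (congrArg Prod.snd h').symm), smul_zero]
    · intro h
      exact absurd (Finset.mem_univ k) h
    · intro b _ hb
      rw [Pi.single_eq_of_ne (fun h' => hb (congrArg Prod.snd h')), zero_mul]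
    · intro h
      exact absurd (Finset.mem_univ j) h
  · refine (Finset.sum_eq_zero fun k' _ => ?_).symm
    rw [Pi.smul_apply, Pi.single_eq_of_ne (fun h' => by
      have := congrArg Prod.fst h'
      exact Sum.inr_ne_inl this), smul_zero]

private theorem EllH_deriv (w : α × β → ℂ) (ξ : β × μ → ℂ) :
    HasFDerivAt (𝕜 := ℂ) (fun w => (emb w ξ : Ix α β μ → ℂ))
      (LinearMap.toContinuousLinearMap (EllH_lin (α := α) ξ)) w := by
  have h0 : (fun w => (emb w ξ : Ix α β μ → ℂ)) = fun w => emb 0 ξ +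
      LinearMap.toContinuousLinearMap (EllH_lin (α := α) ξ) w := by
    funext w
    rw [EllH_emb]
    rfl
  rw [h0]
  exact (ContinuousLinearMap.hasFDerivAt _).const_add _

private theorem EllH_cont :
    Continuous fun p : (α × β → ℂ) × (β × μ → ℂ) => (emb p.1 p.2 : Ix α β μ → ℂ) := by
  refine continuous_pi fun q => ?_
  obtain ⟨s, k⟩ := q
  have hc : Continuous (starRingEnd ℂ) := Complex.continuous_conj
  rcases s with i | j
  · show Continuous fun p : (α × β → ℂ) × (β × μ → ℂ) => ∑ j, p.1 (i, j) * conj (p.2 (j, k))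
    fun_prop
  · show Continuous fun p : (α × β → ℂ) × (β × μ → ℂ) => p.2 (j, k)
    fun_prop

private theorem EllH_gw {κ : Type} [Fintype κ] : Continuous (gw : (κ → ℂ) → ℂ) := by
  have hc : Continuous (starRingEnd ℂ) := Complex.continuous_conj
  unfold gw
  fun_prop

private theorem EllH_pd {G : (Ix α β μ → ℂ) → ℂ} (hG : Differentiable ℂ G) (w : α × β → ℂ)
    (ξ : β × μ → ℂ) (i : α) (j : β) :
    pd (i, j) (fun w => G (emb w ξ) * gw ξ) w =
      ∑ k : μ, conj (ξ (j, k)) * (pd (Sum.inl i, k) G (emb w ξ) * gw ξ) := by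
  have h1 := (hG (emb w ξ)).hasFDerivAt.comp w (EllH_deriv w ξ)
  have h2 := (h1.mul_const (gw ξ)).fderiv
  unfold pd
  have h3 : (fun w => G (emb w ξ) * gw ξ) = fun y => (G ∘ fun w => emb w ξ) y * gw ξ := rfl
  rw [h3, h2]
  show gw ξ * fderiv ℂ G (emb w ξ) (EllH_lin ξ (Pi.single (i, j) 1)) = _
  rw [EllH_single, map_sum, Finset.mul_sum]
  refine Finset.sum_congr rfl fun k _ => ?_
  rw [map_smul, smul_eq_mul]
  ring

end

theorem thm_EllH (h1 : St_OmT) (h2 : St_HolP) (h3 : St_Gau) (h4 : St_EllI) : St_EllH := by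
  intro α β μ _ _ _ _ _ _ G hG
  obtain ⟨hopen, -, -, -, hnhds, -⟩ := h1 α β
  have key := h2 (α × β) (β × μ) (Om α β) (fun w ξ => G (emb w ξ) * gw ξ) hopen
    ((hG.ent.continuous.comp EllH_cont).mul (EllH_gw.comp continuous_snd))
    (fun ξ => (hG.ent.comp fun w => (EllH_deriv w ξ).differentiableAt).mul_const _)
    (by
      intro w₀ hw₀
      obtain ⟨ρ, hρ, hρ1, hn⟩ := hnhds w₀ hw₀
      obtain ⟨C, c, hC, hc, hb⟩ := h4 α β μ G hG ρ hρ hρ1
      obtain ⟨δ, hδ, hball⟩ := Metric.mem_nhds_iff.1 hn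
      refine ⟨δ, fun ξ => C * Real.exp (-(c * ∑ p, ‖ξ p‖ ^ 2)), hδ,
        ((h3 (β × μ)).1 c hc).const_mul C, ?_⟩
      intro w hw ξ
      exact hb w (hball (by rw [Metric.mem_ball, dist_eq_norm]; exact hw)) ξ)
  refine ⟨key.1, ?_⟩
  intro w hw i j
  have h5 := (key.2 w hw (i, j)).2
  simp only [EllH_pd hG.ent] at h5
  show pd (i, j) (fun w => ∫ ξ, G (emb w ξ) * gw ξ) w = _
  rw [h5]
  -- integrability of the summands
  obtain ⟨ρ, hρ, hρ1, hn⟩ := hnhds w hw
  refine MeasureTheory.integral_finsetSum _ fun k _ => ?_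
  have hGk : Gro (pd (Sum.inl i, k) G) := (GAM.thm_GroC (Ix α β μ)).1 G hG _
  obtain ⟨C, c, hC, hc, hb⟩ := h4 α β μ _ hGk ρ hρ hρ1
  obtain ⟨C', hC', hb'⟩ := (h3 (β × μ)).2.1 c 0 hc
  refine (((h3 (β × μ)).1 (c / 2) (half_pos hc)).const_mul (C * C')).mono' ?_ ?_
  · refine Continuous.aestronglyMeasurable ?_
    have hc' : Continuous (starRingEnd ℂ) := Complex.continuous_conj
    have h6 : Continuous fun ξ : β × μ → ℂ => (emb w ξ : Ix α β μ → ℂ) :=
      EllH_cont.comp (Continuous.prodMk_right w)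
    exact (hc'.comp (continuous_apply (j, k))).mul
      ((hGk.ent.continuous.comp h6).mul EllH_gw)
  · refine Filter.Eventually.of_forall fun ξ => ?_
    have h7 := hb w (mem_of_mem_nhds hn) ξ
    have h8 := hb' ξ
    rw [zero_mul, zero_sub] at h8
    have h9 : ‖ξ (j, k)‖ ≤ 1 + ∑ p, ‖ξ p‖ := by
      have := Finset.single_le_sum (f := fun p => ‖ξ p‖) (fun p _ => norm_nonneg _)
        (Finset.mem_univ (j, k))
      linarith
    calc ‖conj (ξ (j, k)) * (pd (Sum.inl i, k) G (emb w ξ) * gw ξ)‖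
        = ‖ξ (j, k)‖ * ‖pd (Sum.inl i, k) G (emb w ξ) * gw ξ‖ := by
          rw [norm_mul, Complex.norm_conj]
      _ ≤ (1 + ∑ p, ‖ξ p‖) * (C * Real.exp (-(c * ∑ p, ‖ξ p‖ ^ 2))) :=
          mul_le_mul h9 h7 (norm_nonneg _) ((norm_nonneg _).trans h9)
      _ = C * ((1 + ∑ p, ‖ξ p‖) * Real.exp (-(c * ∑ p, ‖ξ p‖ ^ 2))) := by ring
      _ ≤ C * (C' * Real.exp (-(c / 2 * ∑ p, ‖ξ p‖ ^ 2))) :=
          mul_le_mul_of_nonneg_left h8 hC.le
      _ = C * C' * Real.exp (-(c / 2 * ∑ p, ‖ξ p‖ ^ 2)) := by ring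

end PST
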