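import Pool.Agent.PST.StF

/-!
# PST [EllI]: Gaussian bounds for the integrand of the Fock functional
-/

set_option autoImplicit false

namespace PST

open scoped ComplexConjugate
open GAM (H E F pd pdl PLat IsTh OddTor IsDel Gro IsLat)

section elli

variable {α β μ : Type} [Fintype α] [Fintype β] [Fintype μ]

private lemma EllI_norm {ρ : ℝ} {w : α × β → ℂ} (hw : w ∈ OmC α β ρ) (ξ : β × μ → ℂ) :
    (H (emb w ξ) (emb w ξ)).re ≤ (1 + ρ ^ 2) * ∑ p, ‖ξ p‖ ^ 2 := by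
  rw [GAM.H_self_re, Fintype.sum_prod_type, Fintype.sum_sum_type]
  have h1 : ∑ i : α, ∑ k : μ, ‖(emb w ξ : Ix α β μ → ℂ) (Sum.inl i, k)‖ ^ 2 ≤
      ρ ^ 2 * ∑ p, ‖ξ p‖ ^ 2 := by
    rw [Finset.sum_comm, Fintype.sum_prod_type_right, Finset.mul_sum]
    refine Finset.sum_le_sum fun k _ => ?_
    have h2 := hw fun j => conj (ξ (j, k))
    simp only [RCLike.norm_conj] at h2
    exact h2
  have h3 : ∑ j : β, ∑ k : μ, ‖(emb w ξ : Ix α β μ → ℂ) (Sum.inr j, k)‖ ^ 2 =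
      ∑ p, ‖ξ p‖ ^ 2 := by
    rw [Fintype.sum_prod_type]
    rfl
  rw [h3]
  linarith

private lemma EllI_gw {κ : Type} [Fintype κ] (ξ : κ → ℂ) :
    ‖gw ξ‖ = Real.exp (-(Real.pi * ∑ p, ‖ξ p‖ ^ 2)) := by
  have h : gw ξ = ((Real.exp (-(Real.pi * ∑ p, ‖ξ p‖ ^ 2)) : ℝ) : ℂ) := by
    unfold gw
    have h : ∀ p, ξ p * conj (ξ p) = ((‖ξ p‖ ^ 2 : ℝ) : ℂ) := by
      intro p
      rw [Complex.mul_conj, Complex.normSq_eq_norm_sq]
    simp only [h]
    push_cast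
    rfl
  rw [h, Complex.norm_real, Real.norm_of_nonneg (Real.exp_pos _).le]

end elli

theorem thm_EllI : St_EllI := by
  intro α β μ _ _ _ _ _ _ G hG r hr0 hr1
  have hpi := Real.pi_pos
  have hr2 : r ^ 2 < 1 := by nlinarith
  obtain ⟨C, hC⟩ := hG.bd (Real.pi * (1 - r ^ 2) / (4 * (1 + r ^ 2)))
    (by apply div_pos <;> nlinarith [mul_pos hpi (sub_pos.2 hr2)])
  have hC0 : 0 ≤ C := by
    have := hC 0
    rw [GAM.H_zero_left, Complex.zero_re, mul_zero, Real.exp_zero, mul_one] at this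
    exact (norm_nonneg _).trans this
  refine ⟨C + 1, Real.pi * (1 - r ^ 2) / 4, by linarith,
    by apply div_pos (mul_pos hpi (sub_pos.2 hr2)) (by norm_num), ?_⟩
  intro w hw ξ
  rw [norm_mul, EllI_gw]
  have h1 := hC (emb w ξ)
  have h2 := EllI_norm (μ := μ) hw ξ
  set N : ℝ := ∑ p, ‖ξ p‖ ^ 2 with hN
  have hr3 : 0 < 1 + r ^ 2 := by positivity
  have hk : 0 ≤ Real.pi / 2 + Real.pi * (1 - r ^ 2) / (4 * (1 + r ^ 2)) := by
    have := mul_pos hpi (sub_pos.2 hr2)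
    positivity
  have h3 : ‖G (emb w ξ)‖ ≤ (C + 1) * Real.exp ((Real.pi - Real.pi * (1 - r ^ 2) / 4) * N) := by
    refine h1.trans ?_
    have h4 : (Real.pi / 2 + Real.pi * (1 - r ^ 2) / (4 * (1 + r ^ 2))) *
        (H (emb w ξ) (emb w ξ)).re ≤
        (Real.pi - Real.pi * (1 - r ^ 2) / 4) * N := by
      refine (mul_le_mul_of_nonneg_left h2 hk).trans (le_of_eq ?_)
      field_simp
      ring
    gcongr
    linarith
  calc ‖G (emb w ξ)‖ * Real.exp (-(Real.pi * N))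
      ≤ (C + 1) * Real.exp ((Real.pi - Real.pi * (1 - r ^ 2) / 4) * N) *
        Real.exp (-(Real.pi * N)) := by gcongr
    _ = (C + 1) * Real.exp (-(Real.pi * (1 - r ^ 2) / 4 * N)) := by
      rw [mul_assoc, ← Real.exp_add]
      congr 2
      ring

end PST
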