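import Pool.Agent.PST.StF
import Pool.Agent.GAM.GroC

/-!
# PST [EllW]: Taylor coefficients of the Fock functional
-/

set_option autoImplicit false

namespace PST

open scoped ComplexConjugate
open GAM (H E F pd pdl PLat IsTh OddTor IsDel Gro IsLat)

theorem EllW_gro_sum {ι κ : Type} [Fintype ι] [DecidableEq ι] (s : Finset κ)
    {f : κ → (ι → ℂ) → ℂ} (hf : ∀ k, Gro (f k)) : Gro fun v => ∑ k ∈ s, f k v := by
  classical
  obtain ⟨-, -, -, h4⟩ := GAM.thm_GroC ι
  induction s using Finset.induction_on with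
  | empty =>
    simp only [Finset.sum_empty]
    refine ⟨differentiable_const _, fun ε _ => ⟨0, fun v => ?_⟩⟩
    simp
  | insert k s hk ih =>
    simp only [Finset.sum_insert hk]
    exact h4 _ _ (hf k) ih

section

variable {α β μ : Type} [Fintype α] [Fintype β] [Fintype μ] [DecidableEq α] [DecidableEq β]
  [DecidableEq μ]

theorem EllW_gro_Dij {G : (Ix α β μ → ℂ) → ℂ} (hG : Gro G) (p : α × β) : Gro (Dij p G) := by
  have h1 := (GAM.thm_GroC (Ix α β μ)).1
  exact EllW_gro_sum Finset.univ fun k => h1 _ (h1 G hG _) _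

theorem EllW_gro_Dw {G : (Ix α β μ → ℂ) → ℂ} (hG : Gro G) (l : List (α × β)) :
    Gro (Dw l G) := by
  induction l with
  | nil => exact hG
  | cons p l ih => exact EllW_gro_Dij ih p

/-- the iterated derivatives on the domain -/
theorem EllW_main (h1 : St_Ell) (h2 : St_OmT) {G : (Ix α β μ → ℂ) → ℂ} (hG : Gro G)
    (l : List (α × β)) : ∀ w ∈ Om α β, pdl l (fun w => ell w G) w =
      (1 / Real.pi : ℂ) ^ l.length * ell w (Dw l G) := by
  have hopen := (h2 α β).1
  induction l with
  | nil =>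
    intro w _
    simp [pdl, Dw]
  | cons p l ih =>
    intro w hw
    obtain ⟨e1, -, e3⟩ := h1 α β μ (Dw l G) (EllW_gro_Dw hG l)
    have hev : pdl l (fun w => ell w G) =ᶠ[nhds w]
        fun w => (1 / Real.pi : ℂ) ^ l.length * ell w (Dw l G) := by
      filter_upwards [hopen.mem_nhds hw] with y hy
      exact ih y hy
    have hd : DifferentiableAt ℂ (fun w => ell w (Dw l G)) w :=
      (e1 w hw).differentiableAt (hopen.mem_nhds hw)
    have hpd : pd p (pdl l fun w => ell w G) w = (1 / Real.pi : ℂ) ^ l.length *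
        pd p (fun w => ell w (Dw l G)) w := by
      unfold pd
      rw [hev.fderiv_eq, fderiv_const_mul hd]
      rfl
    have hcons : pdl (p :: l) (fun w => ell w G) = pd p (pdl l fun w => ell w G) := rfl
    have hD : Dw (p :: l) G = Dij p (Dw l G) := rfl
    rw [hcons, hpd, hD, (e3 w hw).1 p, List.length_cons, pow_succ, mul_assoc]

end

theorem thm_EllW (h1 : St_Ell) (h2 : St_OmT) : St_EllW := by
  intro α β μ _ _ _ _ _ _ G hG l
  rw [EllW_main h1 h2 hG l 0 (h2 α β).2.2.1, (h1 α β μ (Dw l G) (EllW_gro_Dw hG l)).2.1]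

end PST
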