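import Pool.Agent.PST.StF

/-!
# PST [EllZ]: the mean value property
-/

set_option autoImplicit false

open MeasureTheory

namespace PST

open scoped ComplexConjugate
open GAM (H E F pd pdl PLat IsTh OddTor IsDel Gro IsLat)

private lemma EllZ_mp (u : ℂ) (hu : ‖u‖ = 1) :
    MeasurePreserving (fun z : ℂ => u * z) volume volume := by
  have h1 : u ∈ Submonoid.unitSphere ℂ := by
    simpa [Submonoid.unitSphere] using hu
  have h2 := (rotation ⟨u, h1⟩).measurePreserving
  exact h2

private lemma EllZ_rot {κ : Type} [Fintype κ] (u : ℂ) (hu : ‖u‖ = 1) (g : (κ → ℂ) → ℂ) :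
    ∫ ξ : κ → ℂ, g (u • ξ) = ∫ ξ, g ξ := by
  have hu0 : u ≠ 0 := by
    intro h
    rw [h, norm_zero] at hu
    exact zero_ne_one hu
  have h2 : MeasurePreserving (fun ξ : κ → ℂ => u • ξ) volume volume :=
    volume_preserving_pi (f := fun (_ : κ) (z : ℂ) => u * z) fun _ => EllZ_mp u hu
  have h3 : MeasurableEmbedding (fun ξ : κ → ℂ => u • ξ) :=
    (Homeomorph.smulOfNeZero u hu0).measurableEmbedding
  exact MeasurePreserving.integral_comp h2 h3 g

section ellz

variable {α β μ : Type} [Fintype α] [Fintype β] [Fintype μ]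

private lemma EllZ_emb (ζ : ℂ) (ξ : β × μ → ℂ) :
    (emb 0 (ζ • ξ) : Ix α β μ → ℂ) = ζ • emb 0 ξ := by
  funext p
  obtain ⟨s, k⟩ := p
  rcases s with i | j
  · simp [emb]
  · simp [emb]

private lemma EllZ_cont : Continuous fun ξ : β × μ → ℂ => (emb 0 ξ : Ix α β μ → ℂ) := by
  refine continuous_pi fun q => ?_
  obtain ⟨s, k⟩ := q
  rcases s with i | j
  · simp only [emb, Sum.elim_inl, Pi.zero_apply, zero_mul, Finset.sum_const_zero]
    exact continuous_const
  · simp only [emb, Sum.elim_inr]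
    exact continuous_apply _

end ellz

private lemma EllZ_gwc {κ : Type} [Fintype κ] : Continuous (gw : (κ → ℂ) → ℂ) := by
  have hc : Continuous (starRingEnd ℂ) := Complex.continuous_conj
  unfold gw
  fun_prop

private lemma EllZ_gw {κ : Type} [Fintype κ] (u : ℂ) (hu : ‖u‖ = 1) (ξ : κ → ℂ) :
    gw (u • ξ) = gw ξ := by
  unfold gw
  have h1 : u * conj u = 1 := by rw [Complex.mul_conj', hu]; simp
  congr 3
  refine Finset.sum_congr rfl fun p _ => ?_
  simp only [Pi.smul_apply, smul_eq_mul, map_mul]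
  linear_combination (ξ p * conj (ξ p)) * h1

theorem thm_EllZ (h1 : St_Gau) (h2 : St_EllI) (_ : St_EllB) : St_EllZ := by
  intro α β μ _ _ _ _ _ _ G hG
  have hpi := Real.pi_pos
  obtain ⟨C, c, hC, hc, hb⟩ := h2 α β μ G hG 0 le_rfl zero_lt_one
  set f : ℝ → (β × μ → ℂ) → ℂ := fun t ξ => G (circleMap 0 1 t • emb 0 ξ) * gw ξ with hf
  have hcm : ∀ t : ℝ, ‖circleMap 0 1 t‖ = 1 := fun t => by simp [circleMap]
  have h0 : (0 : α × β → ℂ) ∈ OmC α β 0 := by
    intro y
    simp
  have hbd : ∀ t ξ, ‖f t ξ‖ ≤ C * Real.exp (-(c * ∑ p, ‖ξ p‖ ^ 2)) := by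
    intro t ξ
    have h3 := hb 0 h0 (circleMap 0 1 t • ξ)
    rw [EllZ_gw _ (hcm t), EllZ_emb] at h3
    simpa only [hf, norm_mul, Pi.smul_apply, smul_eq_mul, hcm, one_mul] using h3
  have hcont : Continuous (Function.uncurry f) := by
    have h3 : Continuous fun p : ℝ × (β × μ → ℂ) =>
        circleMap 0 1 p.1 • (emb 0 p.2 : Ix α β μ → ℂ) :=
      ((continuous_circleMap 0 1).comp continuous_fst).smul (EllZ_cont.comp continuous_snd)
    exact (hG.ent.continuous.comp h3).mul (EllZ_gwc.comp continuous_snd)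
  have hint : Integrable (Function.uncurry f)
      ((volume.restrict (Set.Ioc 0 (2 * Real.pi))).prod (volume : Measure (β × μ → ℂ))) := by
    refine Integrable.mono' ((((h1 (β × μ)).1 c hc).const_mul C).comp_snd _)
      hcont.aestronglyMeasurable ?_
    exact Filter.Eventually.of_forall fun p => hbd p.1 p.2
  have hI : ∀ t, ∫ ξ, f t ξ = ell 0 G := by
    intro t
    have h3 := EllZ_rot (circleMap 0 1 t) (hcm t)
      (fun ξ : β × μ → ℂ => G (emb 0 ξ) * gw ξ)
    simp only [EllZ_emb, EllZ_gw _ (hcm t)] at h3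
    exact h3
  have hmv : ∀ ξ, ∫ t in Set.Ioc 0 (2 * Real.pi), f t ξ = 2 * Real.pi * (G 0 * gw ξ) := by
    intro ξ
    have hd : Differentiable ℂ fun ζ : ℂ => G (ζ • emb 0 ξ) * gw ξ :=
      (hG.ent.comp (differentiable_id.smul_const _)).mul_const _
    have h3 := circleAverage_of_differentiable_on_off_countable (f := fun ζ : ℂ =>
      G (ζ • emb 0 ξ) * gw ξ) (c := 0) (R := 1) (s := ∅) Set.countable_empty
      hd.continuous.continuousOn (fun z _ => hd z)
    rw [Real.circleAverage_def, zero_smul, intervalIntegral.integral_of_le (by positivity)] at h3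
    have h4 : (2 * Real.pi) ≠ 0 := by positivity
    rw [← h3]
    rw [Complex.real_smul]
    have h5 : (Real.pi : ℂ) ≠ 0 := by exact_mod_cast hpi.ne'
    push_cast
    field_simp
    rfl
  have h3 := integral_integral_swap hint
  simp only [hI, hmv] at h3
  rw [integral_const, integral_const_mul, integral_const_mul, (h1 (β × μ)).2.2.2,
    mul_one] at h3
  have h5 : (Real.pi : ℂ) ≠ 0 := by exact_mod_cast hpi.ne'
  have h6 : (volume.restrict (Set.Ioc (0 : ℝ) (2 * Real.pi))).real Set.univ = 2 * Real.pi := by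
    rw [measureReal_def, Measure.restrict_apply_univ, Real.volume_Ioc, sub_zero,
      ENNReal.toReal_ofReal (by positivity)]
  rw [h6, Complex.real_smul] at h3
  push_cast at h3
  have h7 : (2 * (Real.pi : ℂ)) ≠ 0 := by
    simp [h5]
  exact mul_left_cancel₀ h7 h3

end PST
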