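import Pool.Agent.PST.StF

/-!
# PST [EquD]: equivariance of the derivatives
-/

set_option autoImplicit false
set_option linter.unusedSectionVars false

namespace PST

open scoped ComplexConjugate
open GAM (H E F pd pdl PLat IsTh OddTor IsDel Gro IsLat)

private theorem EquD_sum {κ : Type} [Fintype κ] [DecidableEq κ] (f : (κ → ℂ) → ℂ)
    (z h : κ → ℂ) : ∑ p, h p * pd p f z = fderiv ℂ f z h := by
  have h1 : h = ∑ p, h p • (Pi.single p (1 : ℂ) : κ → ℂ) := by
    funext q
    rw [Finset.sum_apply, Finset.sum_eq_single q]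
    · simp
    · intro p _ hp
      simp [Pi.single_eq_of_ne hp.symm]
    · intro hq
      exact absurd (Finset.mem_univ q) hq
  conv_rhs => rw [h1]
  rw [map_sum]
  refine Finset.sum_congr rfl fun p _ => ?_
  rw [map_smul, smul_eq_mul]
  rfl

/-- the derivative along a line -/
private theorem EquD_line {κ : Type} [Fintype κ] {f : (κ → ℂ) → ℂ} (hf : Differentiable ℂ f)
    (z h : κ → ℂ) : HasDerivAt (fun t : ℂ => f (z + t • h)) (fderiv ℂ f z h) 0 := by
  have h1 : HasDerivAt (fun t : ℂ => z + t • h) h 0 := by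
    have h2 := ((hasDerivAt_id (0 : ℂ)).smul_const h).const_add z
    simpa using h2
  have h2 : HasFDerivAt f (fderiv ℂ f z) (z + (0 : ℂ) • h) := by
    rw [zero_smul, add_zero]
    exact (hf z).hasFDerivAt
  exact h2.comp_hasDerivAt (0 : ℂ) h1

section

variable {α β μ : Type} [Fintype α] [Fintype β] [Fintype μ] [DecidableEq α] [DecidableEq β]
  [DecidableEq μ]

private theorem EquD_Cm (g : Matrix (α ⊕ β) (α ⊕ β) ℂ) (w : α × β → ℂ) (U h : Ix α β μ → ℂ)
    (t : ℂ) : Cm g w (U + t • h) = Cm g w U + t • Cm g w h := by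
  funext p
  rcases p with ⟨i | j, k⟩
  · show ∑ i', ca g w i i' * (U (Sum.inl i', k) + t * h (Sum.inl i', k)) =
      ∑ i', ca g w i i' * U (Sum.inl i', k) + t * ∑ i', ca g w i i' * h (Sum.inl i', k)
    rw [Finset.mul_sum, ← Finset.sum_add_distrib]
    refine Finset.sum_congr rfl fun i' _ => ?_
    ring
  · show ∑ j', ((cd g w)⁻¹) j' j * (U (Sum.inr j', k) + t * h (Sum.inr j', k)) =
      ∑ j', ((cd g w)⁻¹) j' j * U (Sum.inr j', k) +
        t * ∑ j', ((cd g w)⁻¹) j' j * h (Sum.inr j', k)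
    rw [Finset.mul_sum, ← Finset.sum_add_distrib]
    refine Finset.sum_congr rfl fun i' _ => ?_
    ring

private theorem EquD_qf (M : Matrix α β ℂ) (U h : Ix α β μ → ℂ) (t : ℂ) :
    qf M (U + t • h) (U + t • h) =
      qf M U U + t * (qf M h U + qf M U h) + t * (t * qf M h h) := by
  unfold qf
  simp only [Finset.mul_sum, ← Finset.sum_add_distrib, mul_add]
  refine Finset.sum_congr rfl fun i _ => Finset.sum_congr rfl fun j _ =>
    Finset.sum_congr rfl fun k _ => ?_
  simp only [Pi.add_apply, Pi.smul_apply, smul_eq_mul]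
  ring

end

theorem thm_EquD (h1 : St_UAl) (h2 : St_OmT) (h3 : St_PsiC) (h4 : St_PsiE) (h5 : St_PsiD) :
    St_EquD := by
  intro α β μ _ _ _ _ _ _ g L₀ L₁ χ₀ θ₀ χ₁ θ₁ hL₀ hL₁ hθ₀ hθ₁ hg w hw j hj h x
  obtain ⟨hw', -, -, -, hUw, hH, hS, -⟩ := h1 α β μ g hg w hw
  have hΦ₀ : Differentiable ℂ (Phi θ₀ (mob g w)) := h4 α β μ L₀ χ₀ θ₀ hL₀ hθ₀ _ hw'
  have hΦ₁ : Differentiable ℂ (Phi θ₁ w) := h4 α β μ L₁ χ₁ θ₁ hL₁ hθ₁ _ hw
  have hex : ∀ x : Ix α β μ → ℂ, ex (mob g w) (act g x) =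
      ex w x * Complex.exp (-(Real.pi * qf (Mq g w) (Uw w x) (Uw w x))) := by
    intro x
    unfold ex
    rw [← Complex.exp_add]
    congr 1
    linear_combination (-(Real.pi / 2 : ℂ)) * hH x
  have hexne : ∀ x : Ix α β μ → ℂ, ex w x ≠ 0 := fun x => Complex.exp_ne_zero _
  have hbij : Function.Bijective (Uw w : (Ix α β μ → ℂ) → Ix α β μ → ℂ) :=
    (h2 α β).2.2.2.2.2 μ w hw
  have key : ∀ U : Ix α β μ → ℂ, Phi θ₀ (mob g w) (Cm g w U) =
      j * (Complex.exp (Real.pi * qf (Mq g w) U U) * Phi θ₁ w U) := by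
    intro U
    obtain ⟨x, rfl⟩ := hbij.2 U
    have e1 := h3 α β μ θ₀ (mob g w) (act g x)
    have e2 := h3 α β μ θ₁ w x
    have e3 := hj x
    rw [e1, e2, hUw, hex] at e3
    have e4 : Complex.exp (-(Real.pi * qf (Mq g w) (Uw w x) (Uw w x))) *
        Complex.exp (Real.pi * qf (Mq g w) (Uw w x) (Uw w x)) = 1 := by
      rw [← Complex.exp_add, neg_add_cancel, Complex.exp_zero]
    refine mul_left_cancel₀ (hexne x) ?_
    linear_combination Complex.exp (Real.pi * qf (Mq g w) (Uw w x) (Uw w x)) * e3 -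
      ex w x * Phi θ₀ (mob g w) (Cm g w (Uw w x)) * e4
  -- the derivatives
  have hder : ∀ U : Ix α β μ → ℂ, fderiv ℂ (Phi θ₀ (mob g w)) (Cm g w U) (Cm g w h) =
      j * (Complex.exp (Real.pi * qf (Mq g w) U U) *
        (Real.pi * (qf (Mq g w) h U + qf (Mq g w) U h) * Phi θ₁ w U +
          fderiv ℂ (Phi θ₁ w) U h)) := by
    intro U
    have d1 := EquD_line hΦ₀ (Cm g w U) (Cm g w h)
    have d2 := EquD_line hΦ₁ U h
    have d3 : HasDerivAt (fun t : ℂ => Complex.exp (Real.pi * qf (Mq g w) (U + t • h) (U + t • h)))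
        (Complex.exp (Real.pi * qf (Mq g w) U U) *
          (Real.pi * (qf (Mq g w) h U + qf (Mq g w) U h))) 0 := by
      have e1 : (fun t : ℂ => Complex.exp (Real.pi * qf (Mq g w) (U + t • h) (U + t • h))) =
          fun t : ℂ => Complex.exp (Real.pi * (qf (Mq g w) U U +
            t * (qf (Mq g w) h U + qf (Mq g w) U h) + t * (t * qf (Mq g w) h h))) := by
        funext t
        rw [EquD_qf]
      have e2 : HasDerivAt (fun t : ℂ => (Real.pi : ℂ) * (qf (Mq g w) U U +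
          t * (qf (Mq g w) h U + qf (Mq g w) U h) + t * (t * qf (Mq g w) h h)))
          (Real.pi * (qf (Mq g w) h U + qf (Mq g w) U h)) 0 := by
        have e3 := (((((hasDerivAt_id (0 : ℂ)).mul_const
          (qf (Mq g w) h U + qf (Mq g w) U h)).const_add (qf (Mq g w) U U)).add
          ((hasDerivAt_id (0 : ℂ)).mul ((hasDerivAt_id (0 : ℂ)).mul_const
            (qf (Mq g w) h h)))).const_mul (Real.pi : ℂ))
        simpa using e3
      rw [e1]
      have e3 := e2.cexp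
      simpa using e3
    have d4 := (d3.mul d2).const_mul j
    have e1 : (fun t : ℂ => Phi θ₀ (mob g w) (Cm g w U + t • Cm g w h)) =
        fun t : ℂ => j * (Complex.exp (Real.pi * qf (Mq g w) (U + t • h) (U + t • h)) *
          Phi θ₁ w (U + t • h)) := by
      funext t
      rw [← EquD_Cm, key]
    rw [e1] at d1
    have d5 := d1.unique d4
    rw [d5]
    simp only [zero_smul, add_zero]
    ring
  -- conclusion
  have c1 : Dpsi (Cm g w h) θ₀ (mob g w) (act g x) = ex (mob g w) (act g x) *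
      (fderiv ℂ (Phi θ₀ (mob g w)) (Cm g w (Uw w x)) (Cm g w h) -
        Real.pi * (∑ p, Cm g w h p * conj (act g x p)) *
          Phi θ₀ (mob g w) (Cm g w (Uw w x))) := by
    unfold Dpsi
    rw [← EquD_sum, Finset.mul_sum, Finset.sum_mul, ← Finset.sum_sub_distrib, Finset.mul_sum]
    refine Finset.sum_congr rfl fun p _ => ?_
    rw [h5 α β μ L₀ χ₀ θ₀ hL₀ hθ₀ _ hw' (act g x) p, hUw]
    ring
  have c2 : Dpsi h θ₁ w x = ex w x * (fderiv ℂ (Phi θ₁ w) (Uw w x) h -
        Real.pi * (∑ p, h p * conj (x p)) * Phi θ₁ w (Uw w x)) := by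
    unfold Dpsi
    rw [← EquD_sum, Finset.mul_sum, Finset.sum_mul, ← Finset.sum_sub_distrib, Finset.mul_sum]
    refine Finset.sum_congr rfl fun p _ => ?_
    rw [h5 α β μ L₁ χ₁ θ₁ hL₁ hθ₁ _ hw x p]
    ring
  have e4 : Complex.exp (-(Real.pi * qf (Mq g w) (Uw w x) (Uw w x))) *
      Complex.exp (Real.pi * qf (Mq g w) (Uw w x) (Uw w x)) = 1 := by
    rw [← Complex.exp_add, neg_add_cancel, Complex.exp_zero]
  rw [c1, c2, hder, hS, key, hex]
  linear_combination (j * ex w x * (fderiv ℂ (Phi θ₁ w) (Uw w x) h -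
        Real.pi * (∑ p, h p * conj (x p)) * Phi θ₁ w (Uw w x))) * e4

end PST
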