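import Pool.Agent.PST.StF
import Pool.Agent.GAM.ThUn
import Pool.Agent.GAM.Four
import Pool.Agent.GAM.Avg

/-!
# PST [EquP]: equivariance of the Fock vectors `psi`
-/

set_option autoImplicit false

namespace PST

open scoped ComplexConjugate
open GAM (H E F pd pdl PLat IsTh OddTor IsDel Gro IsLat)

theorem EquP_surj (h1 : St_UGr) {α β μ : Type} [Fintype α] [Fintype β] [Fintype μ]
    [DecidableEq α] [DecidableEq β] [DecidableEq μ] {g : Matrix (α ⊕ β) (α ⊕ β) ℂ}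
    (hg : IsU g) (x : Ix α β μ → ℂ) : ∃ u, act g u = x := by
  obtain ⟨-, hmul, hone, -, -, hinv, -⟩ := h1 α β μ
  refine ⟨act (Jm α β * g.conjTranspose * Jm α β) x, ?_⟩
  rw [← hmul, (hinv g hg).2.2.1, hone]

theorem EquP_comp (h1 : St_UGr) {α β μ : Type} [Fintype α] [Fintype β] [Fintype μ]
    [DecidableEq α] [DecidableEq β] [DecidableEq μ] {g h : Matrix (α ⊕ β) (α ⊕ β) ℂ}
    {L₂ L₁ L₀ : Submodule ℤ (Ix α β μ → ℂ)} {χ₂ χ₁ χ₀ : (Ix α β μ → ℂ) → ℂ}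
    (hg : Maps g L₁ L₀ χ₁ χ₀) (hh : Maps h L₂ L₁ χ₂ χ₁) : Maps (g * h) L₂ L₀ χ₂ χ₀ := by
  obtain ⟨-, hmul, -, -, hU, -, -⟩ := h1 α β μ
  refine ⟨hU g h hg.uni hh.uni, fun x => ?_, fun l hl => ?_⟩
  · rw [hmul, ← hg.lat, ← hh.lat]
  · rw [hmul, hg.chi _ ((hh.lat l).1 hl), hh.chi l hl]

theorem EquP_zero (α β : Type) [Fintype α] [Fintype β] : (0 : α × β → ℂ) ∈ Om α β :=
  ⟨0, le_refl 0, zero_lt_one, fun y => by simp⟩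

theorem thm_EquP (h1 : St_UGr) (h2 : St_UAl) (h3 : St_UTr) (h4 : St_MapE) (h5 : St_PsiT)
    (h6 : St_PsiN) : St_EquP := by
  intro α β μ _ _ _ _ _ _ g L₀ L₁ χ₀ θ₀ χ₁ θ₁ hP₀ hP₁ hT₀ hT₁ hn₀ hn₁ hM w hw
  obtain ⟨-, hmul, -, -, -, -, -⟩ := h1 α β μ
  obtain ⟨h, hh, rfl⟩ := h3 α β w hw
  obtain ⟨L', χ', hP', hM1⟩ := h4 α β μ h L₁ χ₁ hh hP₁
  have hM0 : Maps (g * h) L' L₀ χ' χ₀ := EquP_comp h1 hM hM1
  have hA := h5 α β μ h L₁ L' χ₁ χ' θ₁ hP₁ hT₁ hM1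
  have hB := h5 α β μ (g * h) L₀ L' χ₀ χ' θ₀ hP₀ hT₀ hM0
  have hz := EquP_zero α β
  rw [(h2 α β μ h hh 0 hz).2.2.2.2.2.2.2 g hM.uni] at hB
  have hAne : ∃ u, psi θ₁ (mob h 0) (act h u) * Complex.exp (Real.pi / 2 * H u u) ≠ 0 := by
    obtain ⟨x, hx⟩ := h6 α β μ L₁ χ₁ θ₁ hP₁ hT₁ hn₁ (mob h 0) hw
    obtain ⟨u, rfl⟩ := EquP_surj h1 hh x
    exact ⟨u, mul_ne_zero hx (Complex.exp_ne_zero _)⟩
  have hThUn : GAM.St_ThUn := GAM.thm_ThUn GAM.thm_Four GAM.thm_Avg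
  obtain ⟨j, hj⟩ := hThUn (Ix α β μ) L' χ' _ _ hP' hA hB hAne
  have key : ∀ x, psi θ₀ (mob g (mob h 0)) (act g x) = j * psi θ₁ (mob h 0) x := by
    intro x
    obtain ⟨u, rfl⟩ := EquP_surj h1 hh x
    have e := hj u
    simp only [hmul] at e
    have hne := Complex.exp_ne_zero (Real.pi / 2 * H u u)
    have e' : psi θ₀ (mob g (mob h 0)) (act g (act h u)) * Complex.exp (Real.pi / 2 * H u u) =
        (j * psi θ₁ (mob h 0) (act h u)) * Complex.exp (Real.pi / 2 * H u u) := by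
      rw [e]; ring
    exact mul_right_cancel₀ hne e'
  refine ⟨j, ?_, key⟩
  rintro rfl
  obtain ⟨x, hx⟩ := h6 α β μ L₀ χ₀ θ₀ hP₀ hT₀ hn₀ (mob g (mob h 0))
    (h2 α β μ g hM.uni (mob h 0) hw).1
  obtain ⟨u, rfl⟩ := EquP_surj h1 hM.uni x
  rw [key u, zero_mul] at hx
  exact hx rfl

end PST
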