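import Pool.Agent.PST.StF

/-!
# PST [Equi]: equivariance of the determinants
-/

set_option autoImplicit false
set_option linter.unusedSectionVars false

namespace PST

open scoped ComplexConjugate
open GAM (H E F pd pdl PLat IsTh OddTor IsDel Gro IsLat)

section

variable {α β μ : Type} [Fintype α] [Fintype β] [Fintype μ] [DecidableEq α] [DecidableEq β]
  [DecidableEq μ]

private theorem Equi_ix (f : Ix α β μ → ℂ) : ∑ p, f p =
    ∑ i, ∑ k, f (Sum.inl i, k) + ∑ j, ∑ k, f (Sum.inr j, k) := by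
  rw [Fintype.sum_prod_type, Fintype.sum_sum_type]

private theorem Equi_one (p : Ix α β μ) (f : Ix α β μ → ℂ) :
    ∑ q, (Pi.single p (1 : ℂ) : Ix α β μ → ℂ) q * f q = f p := by
  rw [Finset.sum_eq_single p]
  · rw [Pi.single_eq_same, one_mul]
  · intro q _ hq
    rw [Pi.single_eq_of_ne hq, zero_mul]
  · intro h
    exact absurd (Finset.mem_univ p) h

private theorem Equi_l (g : Matrix (α ⊕ β) (α ⊕ β) ℂ) (w : α × β → ℂ) (i : α) (k : μ)
    (f : Ix α β μ → ℂ) :
    ∑ q, Cm g w (Pi.single (Sum.inl i, k) (1 : ℂ)) q * f q =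
      ∑ i', ca g w i' i * f (Sum.inl i', k) := by
  rw [Equi_ix]
  have h1 : ∀ i' k', Cm g w (Pi.single ((Sum.inl i, k) : Ix α β μ) (1 : ℂ)) (Sum.inl i', k') =
      if k' = k then ca g w i' i else 0 := by
    intro i' k'
    show ∑ i'', ca g w i' i'' *
      (Pi.single ((Sum.inl i, k) : Ix α β μ) (1 : ℂ) : Ix α β μ → ℂ) (Sum.inl i'', k') = _
    split_ifs with hk
    · subst hk
      rw [Finset.sum_eq_single i]
      · rw [Pi.single_eq_same, mul_one]
      · intro i'' _ hi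
        rw [Pi.single_eq_of_ne, mul_zero]
        intro h
        exact hi (Sum.inl_injective (congrArg Prod.fst h))
      · intro h
        exact absurd (Finset.mem_univ i) h
    · refine Finset.sum_eq_zero fun i'' _ => ?_
      rw [Pi.single_eq_of_ne, mul_zero]
      intro h
      exact hk (congrArg Prod.snd h)
  have h2 : ∀ j' k', Cm g w (Pi.single ((Sum.inl i, k) : Ix α β μ) (1 : ℂ)) (Sum.inr j', k') =
      0 := by
    intro j' k'
    show ∑ j'', ((cd g w)⁻¹) j'' j' *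
      (Pi.single ((Sum.inl i, k) : Ix α β μ) (1 : ℂ) : Ix α β μ → ℂ) (Sum.inr j'', k') = _
    refine Finset.sum_eq_zero fun j'' _ => ?_
    rw [Pi.single_eq_of_ne, mul_zero]
    intro h
    exact Sum.inr_ne_inl (congrArg Prod.fst h)
  simp only [h1, h2, zero_mul, Finset.sum_const_zero, add_zero, ite_mul]
  refine Finset.sum_congr rfl fun i' _ => ?_
  rw [Finset.sum_ite_eq' Finset.univ k, if_pos (Finset.mem_univ k)]

private theorem Equi_r (g : Matrix (α ⊕ β) (α ⊕ β) ℂ) (w : α × β → ℂ) (j : β) (k : μ)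
    (f : Ix α β μ → ℂ) :
    ∑ q, Cm g w (Pi.single (Sum.inr j, k) (1 : ℂ)) q * f q =
      ∑ j', ((cd g w)⁻¹) j j' * f (Sum.inr j', k) := by
  rw [Equi_ix]
  have h1 : ∀ i' k', Cm g w (Pi.single ((Sum.inr j, k) : Ix α β μ) (1 : ℂ)) (Sum.inl i', k') =
      0 := by
    intro i' k'
    show ∑ i'', ca g w i' i'' *
      (Pi.single ((Sum.inr j, k) : Ix α β μ) (1 : ℂ) : Ix α β μ → ℂ) (Sum.inl i'', k') = _
    refine Finset.sum_eq_zero fun i'' _ => ?_
    rw [Pi.single_eq_of_ne, mul_zero]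
    intro h
    exact Sum.inl_ne_inr (congrArg Prod.fst h)
  have h2 : ∀ j' k', Cm g w (Pi.single ((Sum.inr j, k) : Ix α β μ) (1 : ℂ)) (Sum.inr j', k') =
      if k' = k then ((cd g w)⁻¹) j j' else 0 := by
    intro j' k'
    show ∑ j'', ((cd g w)⁻¹) j'' j' *
      (Pi.single ((Sum.inr j, k) : Ix α β μ) (1 : ℂ) : Ix α β μ → ℂ) (Sum.inr j'', k') = _
    split_ifs with hk
    · subst hk
      rw [Finset.sum_eq_single j]
      · rw [Pi.single_eq_same, mul_one]
      · intro j'' _ hj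
        rw [Pi.single_eq_of_ne, mul_zero]
        intro h
        exact hj (Sum.inr_injective (congrArg Prod.fst h))
      · intro h
        exact absurd (Finset.mem_univ j) h
    · refine Finset.sum_eq_zero fun j'' _ => ?_
      rw [Pi.single_eq_of_ne, mul_zero]
      intro h
      exact hk (congrArg Prod.snd h)
  simp only [h1, h2, zero_mul, Finset.sum_const_zero, zero_add, ite_mul]
  refine Finset.sum_congr rfl fun j' _ => ?_
  rw [Finset.sum_ite_eq' Finset.univ k, if_pos (Finset.mem_univ k)]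

end

theorem thm_Equi (h1 : St_UAl) (h2 : St_EquP) (h3 : St_EquD) : St_Equi := by
  intro α β μ _ _ _ _ _ _ g L₀ L₁ χ₀ θ₀ χ₁ θ₁ hL₀ hL₁ hθ₀ hθ₁ hn₀ hn₁ hg w hw
  obtain ⟨-, hD, hA, hdet, -, -, -, -⟩ := h1 α β μ g hg.uni w hw
  obtain ⟨j, hj0, hj⟩ := h2 α β μ g L₀ L₁ χ₀ θ₀ χ₁ θ₁ hL₀ hL₁ hθ₀ hθ₁ hn₀ hn₁ hg w hw
  have hd := h3 α β μ g L₀ L₁ χ₀ θ₀ χ₁ θ₁ hL₀ hL₁ hθ₀ hθ₁ hg.uni w hw j hj
  have hDD : (cd g w).det * ((cd g w)⁻¹).det = 1 := by
    rw [← Matrix.det_mul, Matrix.mul_nonsing_inv _ hD, Matrix.det_one]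
  refine ⟨j, (ca g w).det, ((cd g w)⁻¹).det, hj0, hA.ne_zero, right_ne_zero_of_mul_eq_one hDD,
    ?_, hj, ?_, ?_⟩
  · rw [← hdet, mul_assoc, hDD, mul_one]
  · intro k x
    have e1 : (ca g w).transpose * (Matrix.of fun i b : α =>
        dpsi (Sum.inl i, k) θ₀ (mob g w) (act g (x b))) =
        j • Matrix.of fun i b : α => dpsi (Sum.inl i, k) θ₁ w (x b) := by
      ext i b
      have e2 := hd (Pi.single (Sum.inl i, k) 1) (x b)
      unfold Dpsi at e2
      rw [Equi_l, Equi_one] at e2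
      rw [Matrix.mul_apply, Matrix.smul_apply, Matrix.of_apply, smul_eq_mul, ← e2]
      rfl
    have e3 := congrArg Matrix.det e1
    rw [Matrix.det_mul, Matrix.det_transpose, Matrix.det_smul] at e3
    exact e3
  · intro k x
    have e1 : (cd g w)⁻¹ * (Matrix.of fun i b : β =>
        dpsi (Sum.inr i, k) θ₀ (mob g w) (act g (x b))) =
        j • Matrix.of fun i b : β => dpsi (Sum.inr i, k) θ₁ w (x b) := by
      ext i b
      have e2 := hd (Pi.single (Sum.inr i, k) 1) (x b)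
      unfold Dpsi at e2
      rw [Equi_r, Equi_one] at e2
      rw [Matrix.mul_apply, Matrix.smul_apply, Matrix.of_apply, smul_eq_mul, ← e2]
      rfl
    have e3 := congrArg Matrix.det e1
    rw [Matrix.det_mul, Matrix.det_smul] at e3
    exact e3

end PST
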