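import Pool.Agent.PST.StH

/-!
# PST: [ExpD] the operator of a CM point is a scalar on the blocks
-/

set_option autoImplicit false
set_option linter.unusedSectionVars false

namespace PST

open scoped ComplexConjugate
open GAM (H E F pd pdl PLat IsTh OddTor IsDel eul HasExp)

section

variable {α β μ : Type} [Fintype α] [Fintype β] [Fintype μ]
  [DecidableEq α] [DecidableEq β] [DecidableEq μ]

/-- the block of `rgt` -/
noncomputable def ExpD_b (r : Matrix μ μ ℂ) (s : α ⊕ β) : Matrix μ μ ℂ :=
  Matrix.of fun k l => Sum.elim (fun _ => r l k) (fun _ => conj (r l k)) s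

theorem ExpD_rgt (r : Matrix μ μ ℂ) (s s' : α ⊕ β) (k l : μ) :
    rgt α β r (s, k) (s', l) = if s = s' then ExpD_b r s k l else 0 := rfl

theorem ExpD_det_b (r : Matrix μ μ ℂ) (hr : r.det ≠ 0) (s : α ⊕ β) :
    (ExpD_b r s).det ≠ 0 := by
  rcases s with i | j
  · have e : ExpD_b r (Sum.inl i : α ⊕ β) = r.transpose := rfl
    rw [e, Matrix.det_transpose]
    exact hr
  · have e : ExpD_b r (Sum.inr j : α ⊕ β) = r.conjTranspose := rfl
    rw [e, Matrix.det_conjTranspose]
    exact star_ne_zero.2 hr

theorem ExpD_det (r : Matrix μ μ ℂ) (hr : r.det ≠ 0) : (rgt α β r).det ≠ 0 := by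
  intro h0
  obtain ⟨v, hv, h1⟩ := Matrix.exists_mulVec_eq_zero_iff.2 h0
  apply hv
  have h2 : ∀ s : α ⊕ β, (fun l => v (s, l)) = 0 := by
    intro s
    refine Matrix.eq_zero_of_mulVec_eq_zero (ExpD_det_b r hr s) ?_
    funext k
    have h3 := congrFun h1 (s, k)
    change ∑ q, rgt α β r (s, k) q * v q = 0 at h3
    rw [Fintype.sum_prod_type, Finset.sum_eq_single s] at h3
    · change ∑ l, ExpD_b r s k l * v (s, l) = 0
      rw [← h3]
      refine Finset.sum_congr rfl fun l _ => ?_
      rw [ExpD_rgt, if_pos rfl]
    · intro s' _ hs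
      refine Finset.sum_eq_zero fun l _ => ?_
      rw [ExpD_rgt, if_neg (Ne.symm hs), zero_mul]
    · intro h
      exact absurd (Finset.mem_univ _) h
  funext p
  exact congrFun (h2 p.1) p.2

end

theorem thm_ExpD (h : St_GopR) : St_ExpD := by
  intro α β μ _ _ _ _ _ _ δ L χ θ A k R hP hT h0 hA hspan halg hdet hL hμ
  obtain ⟨k₀⟩ := hμ
  -- the operator
  have hG : HasGop δ L θ k (Matrix.diagonal A) 0 := by
    refine ⟨Matrix.transpose_zero, fun x hx => ?_⟩
    have h1 := hA x hx
    have e : gop k (Matrix.diagonal A) 0 (F θ x) = fun v => k * F θ x v + eul A (F θ x) v := by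
      funext v
      unfold gop eul
      simp only [Matrix.zero_apply, zero_mul, Finset.sum_const_zero, mul_zero, add_zero]
      congr 1
      refine Finset.sum_congr rfl fun a _ => ?_
      rw [Finset.sum_eq_single a]
      · rw [Matrix.diagonal_apply_eq, mul_assoc]
      · intro b _ hb
        rw [Matrix.diagonal_apply_ne' _ hb, zero_mul]
      · intro h
        exact absurd (Finset.mem_univ _) h
    rw [e]
    exact h1
  -- the blocks
  have key : ∀ (s : α ⊕ β) (k l : μ), A (s, k) = A (s, l) := by
    intro s a b
    -- an element with a non-zero entry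
    obtain ⟨r, hr, hab⟩ : ∃ r ∈ R, r b a ≠ 0 := by
      by_contra hcon
      push Not at hcon
      have h1 : ∀ M ∈ Submodule.span ℂ R, M b a = 0 := by
        intro M hM
        induction hM using Submodule.span_induction with
        | mem x hx => exact hcon x hx
        | zero => rfl
        | add x y _ _ hx hy => rw [Matrix.add_apply, hx, hy, add_zero]
        | smul c x _ hx => rw [Matrix.smul_apply, hx, smul_zero]
      have h2 := h1 (Matrix.single b a 1) (by rw [hspan]; exact Submodule.mem_top)
      rw [Matrix.single_apply_same] at h2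
      exact one_ne_zero h2
    have hr0 : r ≠ 0 := by
      rintro rfl
      exact hab rfl
    have hal : ∀ p q, IsAlgebraic ℚ (rgt α β r p q) := by
      rintro ⟨s, k⟩ ⟨s', l⟩
      rw [ExpD_rgt]
      split_ifs
      · rcases s with i | j
        · exact halg r hr l k
        · change IsAlgebraic ℚ (conj (r l k))
          have h1 := halg r hr l k
          exact h1.algHom ((starRingEnd ℂ).toRatAlgHom)
      · exact isAlgebraic_zero
    have h1 := h (Ix α β μ) δ L χ θ k (Matrix.diagonal A) 0 (rgt α β r) hP hT h0 hG
      (ExpD_det r (hdet r hr hr0)) hal (hL r hr)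
    have h2 := congrFun (congrFun h1 (s, a)) (s, b)
    rw [Matrix.mul_diagonal, Matrix.diagonal_mul, ExpD_rgt, if_pos rfl] at h2
    have h3 : ExpD_b r s a b ≠ 0 := by
      rcases s with i | j
      · exact hab
      · exact star_ne_zero.2 hab
    have h4 : ExpD_b r s a b * (A (s, b) - A (s, a)) = 0 := by
      rw [mul_sub, h2]
      ring
    exact (sub_eq_zero.1 ((mul_eq_zero.1 h4).resolve_left h3)).symm
  refine ⟨fun s => A (s, k₀), fun p => key p.1 p.2 k₀, fun x hx => ?_⟩
  have h1 := hA x hx
  have e : hop k (Matrix.diagonal fun i => A (Sum.inl i, k₀))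
      (Matrix.diagonal fun j => A (Sum.inr j, k₀)) 0 (F θ x) =
      fun v => k * F θ x v + eul A (F θ x) v := by
    funext v
    unfold hop eul
    simp only [Matrix.zero_apply, zero_mul, Finset.sum_const_zero, add_zero]
    rw [Fintype.sum_prod_type, Fintype.sum_sum_type, add_assoc]
    congr 2
    · rw [Finset.sum_comm]
      refine Finset.sum_congr rfl fun i _ => Finset.sum_congr rfl fun m _ => ?_
      rw [Finset.sum_eq_single i]
      · rw [Matrix.diagonal_apply_eq, key (Sum.inl i) m k₀, mul_assoc]
      · intro b _ hb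
        rw [Matrix.diagonal_apply_ne' _ hb, zero_mul]
      · intro h
        exact absurd (Finset.mem_univ _) h
    · rw [Finset.sum_comm]
      refine Finset.sum_congr rfl fun i _ => Finset.sum_congr rfl fun m _ => ?_
      rw [Finset.sum_eq_single i]
      · rw [Matrix.diagonal_apply_eq, key (Sum.inr i) m k₀, mul_assoc]
      · intro b _ hb
        rw [Matrix.diagonal_apply_ne' _ hb, zero_mul]
      · intro h
        exact absurd (Finset.mem_univ _) h
  rw [e]
  exact h1

end PST
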