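import Pool.Agent.PST.StN
import Pool.Agent.GAM.Asm

/-!
# PST, module ExpP: the exponents of the CM point
-/

set_option autoImplicit false

namespace PST

open scoped ComplexConjugate
open GAM (PLat IsTh)

theorem thm_ExpP (h1 : St_CML) (h2 : St_CMF) (h3 : St_LevE) (h4 : St_ExpD) (h5 : St_ExpS)
    (h6 : St_OrdN) (h7 : St_CorA) : St_ExpP := by
  intro α β _ _ _ _ R X₀ d g P r t N e L₁ χ₁ θ₁ hD hC hP₁ hT₁ hz₁ hL₁
  obtain ⟨K, i1, i2, c, φ, J₀, j, hcm, hct, hJ1, hJ2, hjR, hjP⟩ := h2 α β R X₀ d g P r t hD hC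
  obtain ⟨s, hs⟩ := h1 α β R X₀ d g P r t N e L₁ hD hC hL₁
  obtain ⟨M, ρ, hM, hρa, hρn, hρL⟩ := h3 α β R P N e L₁ K φ j hL₁ hC.det hC.alg hjR hjP
  obtain ⟨-, -, c3, -, c5, -⟩ := h7 α β
  have hne : Nonempty (α ⊕ β) := by
    by_contra hne
    rw [not_nonempty_iff] at hne
    have e1 : Fintype.card (α ⊕ β) = 0 := Fintype.card_eq_zero
    rw [Fintype.card_sum] at e1
    have := hD.prime
    rw [e1] at this
    exact Nat.not_prime_zero this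
  -- the right order
  set R' : Set (Matrix (α ⊕ β) (α ⊕ β) ℂ) := {x | x ∈ R ∧ ∀ y ∈ lat e, y * x ∈ lat e} with hR'
  have hspan : Submodule.span ℂ R' = ⊤ := by
    rw [eq_top_iff, ← hD.span, Submodule.span_le]
    intro x hx
    obtain ⟨n, hn, hn'⟩ := (h6 α β R N e).2.2.1 x hx
    have e1 : ((n : ℤ) • x) ∈ R' := by
      refine ⟨?_, fun y hy => hn' y hy⟩
      exact zsmul_mem hx _
    have e2 : x = (n : ℂ)⁻¹ • ((n : ℤ) • x) := by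
      have hn0 : (n : ℂ) ≠ 0 := Nat.cast_ne_zero.2 hn
      rw [← Int.cast_smul_eq_zsmul ℂ, smul_smul]
      push_cast
      rw [inv_mul_cancel₀ hn0, one_smul]
    show x ∈ Submodule.span ℂ R'
    rw [e2]
    exact Submodule.smul_mem _ _ (Submodule.subset_span e1)
  have hδ : ∀ δ : Derivation ℚ ℂ ℂ, ∃ (A' : α ⊕ β → ℂ) (k : ℂ), GAM.IsExp δ K φ A' ∧
      HasHat δ L₁ θ₁ k (Matrix.diagonal fun i => A' (Sum.inl i))
        (Matrix.diagonal fun j => A' (Sum.inr j)) 0 := by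
    intro δ
    obtain ⟨A, k, hA⟩ := GAM.All.CM_ (Ix α β (α ⊕ β)) δ L₁ χ₁ θ₁ s hP₁ hT₁ hz₁ hs
    obtain ⟨A', hA', hH⟩ := h4 α β (α ⊕ β) δ L₁ χ₁ θ₁ A k R' hP₁ hT₁ hz₁ hA hspan
      (fun x hx => hD.alg x hx.1) (fun x hx h0 => hD.div x hx.1 h0) (by
        rintro x ⟨hxR, hx⟩ l hl
        obtain ⟨y, hy, rfl⟩ := (hL₁ l).1 hl
        rw [c5, Matrix.mul_assoc]
        exact (hL₁ _).2 ⟨y * x, hx y hy, rfl⟩) hne
    refine ⟨A', k, ?_, hH⟩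
    have hA2 : GAM.HasExp δ L₁ θ₁ (fun q => A' q.1) k := by
      have e1 : A = fun q => A' q.1 := funext hA'
      rw [← e1]
      exact hA
    exact h5 K c (α ⊕ β) (Ix α β (α ⊕ β)) φ δ L₁ χ₁ θ₁ A' k (fun q => q.1) ρ M hcm hct hP₁ hT₁
      hz₁ hA2 hρa hρn hM hρL
  choose A k hE hH using hδ
  exact ⟨K, i1, i2, c, φ, J₀, A, hcm, hct, hJ1, hJ2, hE, fun δ => ⟨k δ, hH δ⟩⟩

end PST
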