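import Pool.Agent.PST.StH
import Pool.Agent.PST.DelX

/-!
# PST [ExpQ]: `δ` and exponentials of quadratic forms
-/

set_option autoImplicit false

namespace PST

open scoped ComplexConjugate
open GAM (H E F pd pdl PLat IsTh OddTor IsDel Gro IsLat)

section

variable {ι : Type} [Fintype ι]

/-- quadratic form -/
noncomputable def ExpQ_p (Q : Matrix ι ι ℂ) (v : ι → ℂ) : ℂ := ∑ a, ∑ b, Q a b * v a * v b

/-- its derivatives -/
noncomputable def ExpQ_q (Q : Matrix ι ι ℂ) (j : ι) (v : ι → ℂ) : ℂ :=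
  ∑ b, (Q j b + Q b j) * v b

theorem ExpQ_p_an (Q : Matrix ι ι ℂ) (z : ι → ℂ) : AnalyticAt ℂ (ExpQ_p Q) z :=
  DelX_sum_an Finset.univ (f := fun a v => ∑ b, Q a b * v a * v b)
    (fun a z => DelX_sum_an Finset.univ (f := fun b v => Q a b * v a * v b)
      (fun b z => (analyticAt_const.mul (DelX_coord_an a z)).mul (DelX_coord_an b z)) z) z

theorem ExpQ_q_an (Q : Matrix ι ι ℂ) (j : ι) (z : ι → ℂ) : AnalyticAt ℂ (ExpQ_q Q j) z :=
  DelX_sum_an Finset.univ (f := fun b v => (Q j b + Q b j) * v b)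
    (fun b z => analyticAt_const.mul (DelX_coord_an b z)) z

/-- the exponential -/
noncomputable def ExpQ_e (Q : Matrix ι ι ℂ) (v : ι → ℂ) : ℂ := Complex.exp (ExpQ_p Q v)

theorem ExpQ_e_an (Q : Matrix ι ι ℂ) (z : ι → ℂ) : AnalyticAt ℂ (ExpQ_e Q) z :=
  (ExpQ_p_an Q z).cexp

variable [DecidableEq ι]

theorem ExpQ_p_pd (Q : Matrix ι ι ℂ) (j : ι) : pd j (ExpQ_p Q) = ExpQ_q Q j := by
  funext z
  have h1 : ∀ a b, ∀ z, AnalyticAt ℂ (fun v : ι → ℂ => Q a b * v a * v b) z := fun a b z =>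
    (analyticAt_const.mul (DelX_coord_an a z)).mul (DelX_coord_an b z)
  have h2 : ∀ a b, pd j (fun v : ι → ℂ => Q a b * v a * v b) z =
      (if a = j then Q a b * z b else 0) + if b = j then Q a b * z a else 0 := by
    intro a b
    have h3 : (fun v : ι → ℂ => Q a b * v a * v b) = fun v => Q a b * (v a * v b) := by
      funext v
      ring
    rw [h3, DelX_pd_mulc (f := fun v : ι → ℂ => v a * v b)
      (fun z => (DelX_coord_an a z).mul (DelX_coord_an b z)),
      DelX_pd_coord (f := fun v : ι → ℂ => v b) (DelX_coord_an b), GAM.DelR_pd_coord]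
    by_cases ha : a = j <;> by_cases hb : b = j <;> simp [ha, hb] <;> ring
  unfold ExpQ_p
  rw [DelX_pd_sum Finset.univ (f := fun a v => ∑ b, Q a b * v a * v b)
    (fun a z => DelX_sum_an Finset.univ (h1 a) z)]
  rw [Finset.sum_congr rfl fun a _ => DelX_pd_sum Finset.univ
    (f := fun b v => Q a b * v a * v b) (h1 a) j z]
  simp only [h2, Finset.sum_add_distrib]
  unfold ExpQ_q
  simp only [add_mul, Finset.sum_add_distrib]
  congr 1
  · rw [Finset.sum_comm]
    refine Finset.sum_congr rfl fun b _ => ?_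
    rw [Finset.sum_ite_eq' Finset.univ j fun a => Q a b * z b, if_pos (Finset.mem_univ _)]
  · refine Finset.sum_congr rfl fun a _ => ?_
    rw [Finset.sum_ite_eq' Finset.univ j fun b => Q a b * z a, if_pos (Finset.mem_univ _)]

theorem ExpQ_e_pd (Q : Matrix ι ι ℂ) (j : ι) :
    pd j (ExpQ_e Q) = fun v => ExpQ_q Q j v * ExpQ_e Q v := by
  funext z
  have h1 := ((ExpQ_p_an Q z).differentiableAt.hasFDerivAt.cexp).fderiv
  have h2 : pd j (ExpQ_e Q) z = Complex.exp (ExpQ_p Q z) * pd j (ExpQ_p Q) z := by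
    unfold pd
    change fderiv ℂ (fun v => Complex.exp (ExpQ_p Q v)) z _ = _
    rw [h1]
    rfl
  rw [h2, ExpQ_p_pd, mul_comm]
  rfl

theorem ExpQ_q_del (δ : Derivation ℚ ℂ ℂ) (Q : Matrix ι ι ℂ) (j : ι) :
    IsDel δ (ExpQ_q Q j) (ExpQ_q (Q.map δ) j) := by
  have hR := GAM.thm_DelR GAM.thm_Hol ι δ
  have h1 : ∀ s : Finset ι, IsDel δ (fun v : ι → ℂ => ∑ b ∈ s, (Q j b + Q b j) * v b)
      (fun v => ∑ b ∈ s, ((Q.map δ) j b + (Q.map δ) b j) * v b) := by
    intro s
    induction s using Finset.induction_on with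
    | empty =>
      have h2 := hR.const 0
      rw [map_zero] at h2
      simpa using h2
    | insert b s hb ih =>
      have h2 := hR.mul _ _ _ _ (hR.const (Q j b + Q b j)) (hR.coord b)
      have h3 := hR.add _ _ _ _ h2 ih
      have e1 : (fun v : ι → ℂ => ∑ b ∈ insert b s, (Q j b + Q b j) * v b) =
          fun v => (Q j b + Q b j) * v b + ∑ b ∈ s, (Q j b + Q b j) * v b := by
        funext v
        rw [Finset.sum_insert hb]
      have e2 : (fun v : ι → ℂ => ∑ b ∈ insert b s, ((Q.map δ) j b + (Q.map δ) b j) * v b) =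
          fun v => (δ (Q j b + Q b j) * v b + (Q j b + Q b j) * 0) +
            ∑ b ∈ s, ((Q.map δ) j b + (Q.map δ) b j) * v b := by
        funext v
        rw [Finset.sum_insert hb, mul_zero, add_zero, map_add]
        rfl
      rw [e1, e2]
      exact h3
  exact h1 Finset.univ

theorem ExpQ_aux (δ : Derivation ℚ ℂ ℂ) (Q : Matrix ι ι ℂ) (n : ℕ) : ∀ (l : List ι),
    l.length = n → ∀ (f f' : (ι → ℂ) → ℂ), IsDel δ f f' →
    pdl l (fun v => f' v * ExpQ_e Q v + f v * (ExpQ_p (Q.map δ) v * ExpQ_e Q v)) 0 =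
      δ (pdl l (fun v => f v * ExpQ_e Q v) 0) := by
  have hR := GAM.thm_DelR GAM.thm_Hol ι δ
  induction n with
  | zero =>
    intro l hl f f' hf
    rw [List.length_eq_zero_iff] at hl
    subst hl
    have h2 := hf.del []
    change f' 0 = δ (f 0) at h2
    change f' 0 * ExpQ_e Q 0 + f 0 * (ExpQ_p (Q.map δ) 0 * ExpQ_e Q 0) =
      δ (f 0 * ExpQ_e Q 0)
    have h3 : ∀ R : Matrix ι ι ℂ, ExpQ_p R 0 = 0 := by
      intro R
      unfold ExpQ_p
      simp
    have h4 : ExpQ_e Q 0 = 1 := by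
      unfold ExpQ_e
      rw [h3, Complex.exp_zero]
    rw [h4, h3, h2]
    simp
  | succ n ih =>
    intro l hl f f' hf
    rcases List.eq_nil_or_concat l with rfl | ⟨l', j, rfl⟩
    · simp at hl
    · rw [List.concat_eq_append] at hl ⊢
      have hl' : l'.length = n := by simpa using hl
      have hA := GAM.DelR_an GAM.thm_Hol hf.ent
      have hA' := GAM.DelR_an GAM.thm_Hol hf.ent'
      have hE := ExpQ_e_an Q
      have hP := ExpQ_p_an (Q.map δ)
      have hq := hR.mul _ _ _ _ hf (ExpQ_q_del δ Q j)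
      have h1 := hR.add _ _ _ _ (hR.pd j _ _ hf) hq
      have h2 := ih l' hl' _ _ h1
      rw [GAM.DelR_snoc, GAM.DelR_snoc]
      have e1 : pd j (fun v => f v * ExpQ_e Q v) =
          fun v => (pd j f v + f v * ExpQ_q Q j v) * ExpQ_e Q v := by
        rw [GAM.DelR_pd_mul hA hE, ExpQ_e_pd]
        funext v
        ring
      have e2 : pd j (fun v => f' v * ExpQ_e Q v + f v * (ExpQ_p (Q.map δ) v * ExpQ_e Q v)) =
          fun v => (pd j f' v + (f' v * ExpQ_q Q j v + f v * ExpQ_q (Q.map δ) j v)) *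
            ExpQ_e Q v + (pd j f v + f v * ExpQ_q Q j v) *
              (ExpQ_p (Q.map δ) v * ExpQ_e Q v) := by
        funext z
        rw [DelX_pd_add (f := fun v => f' v * ExpQ_e Q v)
          (g := fun v => f v * (ExpQ_p (Q.map δ) v * ExpQ_e Q v))
          (fun z => (hA' z).mul (hE z)) (fun z => (hA z).mul ((hP z).mul (hE z))),
          GAM.DelR_pd_mul hA' hE, GAM.DelR_pd_mul (g := fun v => ExpQ_p (Q.map δ) v * ExpQ_e Q v)
            hA (fun z => (hP z).mul (hE z)), GAM.DelR_pd_mul hP hE, ExpQ_e_pd, ExpQ_p_pd]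
        ring
      rw [e1, e2]
      exact h2

end

theorem thm_ExpQ : St_ExpQ := by
  intro ι _ _ δ Q
  have hR := GAM.thm_DelR GAM.thm_Hol ι δ
  have hE := ExpQ_e_an Q
  have hP := ExpQ_p_an (Q.map δ)
  refine ⟨fun z => (hE z).differentiableAt, fun z => ((hP z).mul (hE z)).differentiableAt,
    fun l => ?_⟩
  have h1 := ExpQ_aux δ Q l.length l rfl _ _ (hR.const 1)
  simp only [Derivation.map_one_eq_zero, zero_mul, zero_add, one_mul] at h1
  exact h1

end PST
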