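import Pool.Agent.PST.StN
import Pool.Agent.PST.Det
import Pool.Agent.GAM.ThEx
import Pool.Agent.GAM.Der

/-!
# PST, module Fin: the final contradiction
-/

set_option autoImplicit false

namespace PST

open scoped ComplexConjugate
open GAM (PLat IsTh)

private lemma Fin_det_alg {n : Type} [Fintype n] [DecidableEq n] (M : Matrix n n ℂ)
    (h : ∀ i j, IsAlgebraic ℚ (M i j)) : IsAlgebraic ℚ M.det := by
  have e : ∀ z : ℂ, z ∈ algebraicClosure ℚ ℂ ↔ IsAlgebraic ℚ z := fun z => by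
    rw [mem_algebraicClosure_iff]
  rw [← e, Matrix.det_apply]
  refine Subalgebra.sum_mem (algebraicClosure ℚ ℂ).toSubalgebra fun σ _ => ?_
  refine Subalgebra.zsmul_mem _ (Subalgebra.prod_mem _ fun i _ => ?_) _
  exact (e _).2 (h _ _)

private lemma Fin_card {a b : ℕ} (h : (a + b).Prime) (h2 : a + b ≠ 2) : a ≠ b := by
  rintro rfl
  have h3 : 2 ∣ a + a := ⟨a, by ring⟩
  rcases (Nat.dvd_prime h).1 h3 with h4 | h4
  · omega
  · exact h2 h4.symm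

theorem thm_Fin (h1 : St_Core) (h2 : St_Prin) (h3 : St_HatN) (h4 : St_CMP) (h5 : St_MapE)
    (h6 : St_ExpP) (h7 : St_CocR) (h8 : St_FinQ) (h9 : St_UGr) (h10 : St_CorA) : St_Fin := by
  intro X p d J α β _ _ _ _ T S Tp Tm Ta R X₀ hN
  by_contra hcon
  push Not at hcon
  have hD := hN.dat
  obtain ⟨N, e, L₀, χ₀, hP₀, hL₀⟩ := h2 α β R X₀ d hD
  obtain ⟨θ₀, hT₀, hz₀⟩ := GAM.thm_ThEx (Ix α β (α ⊕ β)) L₀ χ₀ hP₀
  obtain ⟨g, P, r, t, hC⟩ := h4 α β R X₀ d hD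
  obtain ⟨L₁, χ₁, hP₁, hM⟩ := h5 α β (α ⊕ β) g L₀ χ₀ hC.uni hP₀
  obtain ⟨θ₁, hT₁, hz₁⟩ := GAM.thm_ThEx (Ix α β (α ⊕ β)) L₁ χ₁ hP₁
  obtain ⟨-, u2, u3, -, -, u6, -⟩ := h9 α β (α ⊕ β)
  obtain ⟨-, -, -, c4, -⟩ := h10 α β
  have hinj : Function.Injective (act g : (Ix α β (α ⊕ β) → ℂ) → Ix α β (α ⊕ β) → ℂ) := by
    intro x y hxy
    obtain ⟨-, k1, -⟩ := u6 g hC.uni
    have e1 : ∀ z : Ix α β (α ⊕ β) → ℂ,
        act (Jm α β * g.conjTranspose * Jm α β) (act g z) = z := by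
      intro z
      rw [← u2, k1, u3]
    rw [← e1 x, ← e1 y]
    exact congrArg _ hxy
  have hL₁ : IsL e P L₁ := by
    intro v
    have e1 : ∀ s : Matrix (α ⊕ β) (α ⊕ β) ℂ, cor (X₀ * s) = act g (cor (P * s)) := by
      intro s
      rw [c4, hC.eq, Matrix.mul_assoc]
    rw [hM.lat, hL₀ (act g v)]
    constructor
    · rintro ⟨s, hs, hs'⟩
      rw [e1] at hs'
      exact ⟨s, hs, hinj hs'⟩
    · rintro ⟨s, hs, hs'⟩
      exact ⟨s, hs, by rw [e1, hs']⟩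
  obtain ⟨K, _, _, c, φ, J₀, A, hcm, hct, hJ1, hJ2, hE, hH⟩ :=
    h6 α β R X₀ d g P r t N e L₁ χ₁ θ₁ hD hC hP₁ hT₁ hz₁ hL₁
  have hcard : Fintype.card α ≠ Fintype.card β := Fin_card hD.prime hD.two
  refine h8 K c α β φ J₀ d A hcm hct hD.pos hJ1 hJ2 hcard hE ?_
  intro δ
  obtain ⟨k₀, c₀, hh₀⟩ := h3 X p d J α β T S Tp Tm Ta R X₀ N e L₀ χ₀ θ₀ δ hN hP₀ hT₀ hz₀ hL₀
  obtain ⟨k₁, hh₁⟩ := hH δ
  have hdet : δ g.det = 0 := by
    have e1 : g.det = X₀.det / P.det := by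
      rw [hC.eq, Matrix.det_mul, mul_div_cancel_right₀ _ hC.det]
    have e2 : IsAlgebraic ℚ g.det := by
      rw [e1, div_eq_mul_inv]
      exact hD.detA.mul (Fin_det_alg P hC.alg).inv
    exact (GAM.thm_Der _).1 e2 δ
  have hne : Nonempty (α ⊕ β) := by
    by_contra hne
    rw [not_nonempty_iff] at hne
    have e1 : Fintype.card (α ⊕ β) = 0 := Fintype.card_eq_zero
    rw [Fintype.card_sum] at e1
    have := hD.prime
    rw [e1] at this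
    exact Nat.not_prime_zero this
  have he : 12 * (Fintype.card α + Fintype.card β) ≠ 0 :=
    mul_ne_zero (by norm_num) hD.prime.ne_zero
  have key := h1 α β (α ⊕ β) δ g L₀ L₁ χ₀ θ₀ χ₁ θ₁ _ k₀ k₁ _ _ _ _ c₀ 0 hne he hP₀ hP₁ hT₀ hT₁
    hz₀ hz₁ hM hdet (h7 α β R X₀ d N e L₀ hD hL₀) hh₀ hh₁
  rw [Matrix.trace_diagonal, Matrix.trace_diagonal] at key
  have h := hcon δ
  rw [Finset.sum_sub_distrib, Finset.sum_sub_distrib, Finset.sum_const, Finset.sum_const,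
    Finset.card_univ, Finset.card_univ, nsmul_eq_mul, nsmul_eq_mul]
  have hpi : (Real.pi : ℂ) ≠ 0 := by exact_mod_cast Real.pi_ne_zero
  have e3 : δ Real.pi / (2 * Real.pi) = 1 / 2 * (δ Real.pi / Real.pi) := by
    field_simp
  rw [e3]
  linear_combination -key + h

end PST
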