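import Pool.Agent.PST.StN
import Pool.Agent.GAM.Asm
import Pool.Agent.Helper84.AutC

/-!
# PST [FinQ]: the exponents do not satisfy the relation
-/

set_option autoImplicit false
set_option linter.unusedSectionVars false
set_option linter.unusedVariables false

namespace PST

open scoped ComplexConjugate
open GAM (H E F pd pdl PLat IsTh OddTor IsDel Gro IsLat Pre QD qd jac HasExp CMF CMT IsExp IsCM)
open Pool.Agent.GPC (AbVar hermForm bilForm)
open Module
open GAM (hfun OddF IsPsiK St_ExpL St_PsiK St_Iso)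

section one

variable {K : Type} [Field K] [NumberField K] {c : K →+* K}

private lemma FinQ_comp_apply {K L : Type} [Field K] [Field L] (σ : L →+* ℂ) (g : K →+* L) (x : K) :
    σ.comp g x = σ (g x) := rfl

private lemma FinQ_cc (hc : CMF K c) (σ : K →+* ℂ) : (σ.comp c).comp c = σ := by
  ext x
  rw [FinQ_comp_apply, FinQ_comp_apply, ← hc.cc, ← hc.cc, Complex.conj_conj]

private lemma FinQ_c_inj (hc : CMF K c) {σ σ' : K →+* ℂ} (h : σ.comp c = σ'.comp c) : σ = σ' := by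
  rw [← FinQ_cc hc σ, h, FinQ_cc hc]

/-- complex conjugation commutes with isomorphisms -/
private lemma FinQ_comm (hc : CMF K c) (σ : K →+* ℂ) (g : K →+* K) :
    (σ.comp c).comp g = (σ.comp g).comp c := by
  ext x
  rw [FinQ_comp_apply, FinQ_comp_apply, FinQ_comp_apply, FinQ_comp_apply, ← hc.cc σ (g x)]
  have h := hc.cc (σ.comp g) x
  rw [FinQ_comp_apply, FinQ_comp_apply] at h
  exact h

variable {S : Type} [Fintype S] {φ : S → K →+* ℂ}

private lemma FinQ_inj (hT : CMT K c φ) {s s' : S} (h : φ s = φ s') : s = s' := by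
  have h1 : (Sum.inl s : S ⊕ S) = Sum.inl s' := hT.1 h
  exact Sum.inl_injective h1

private lemma FinQ_ne (hT : CMT K c φ) {s s' : S} (h : φ s = (φ s').comp c) : False := by
  have h1 : (Sum.inl s : S ⊕ S) = Sum.inr s' := hT.1 h
  exact absurd h1 (by simp)

private lemma FinQ_surj (hT : CMT K c φ) (σ : K →+* ℂ) :
    (∃ s, σ = φ s) ∨ ∃ s, σ = (φ s).comp c := by
  obtain ⟨x, hx⟩ := hT.2 σ
  rcases x with s | s
  · exact Or.inl ⟨s, hx.symm⟩
  · exact Or.inr ⟨s, hx.symm⟩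

private lemma FinQ_sum (hT : CMT K c φ) {M : Type} [AddCommMonoid M] (F : (K →+* ℂ) → M) :
    ∑ ρ, F ρ = ∑ s, F (φ s) + ∑ s, F ((φ s).comp c) := by
  rw [← (Equiv.ofBijective _ hT).sum_comp F, Fintype.sum_sum_type]
  rfl

end one

section two

variable {K L : Type} [Field K] [NumberField K] [Field L] [NumberField L] [Algebra K L]
  {c : K →+* K} {c' : L →+* L}

private lemma FinQ_res_c (hc : CMF K c) (hc' : CMF L c') (σ : L →+* ℂ) :
    (σ.comp c').comp (algebraMap K L) = (σ.comp (algebraMap K L)).comp c := by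
  ext x
  rw [FinQ_comp_apply, FinQ_comp_apply, ← hc'.cc]
  exact hc.cc (σ.comp (algebraMap K L)) x

/-- all fibres of the restriction of embeddings have the same size -/
private lemma FinQ_fib (K L : Type) [Field K] [NumberField K] [Field L] [NumberField L]
    [Algebra K L] : ∃ m : ℕ, m ≠ 0 ∧ ∀ (M : Type) [AddCommMonoid M] (F : (K →+* ℂ) → M),
    ∑ t : L →+* ℂ, F (t.comp (algebraMap K L)) = m • ∑ ρ, F ρ := by
  classical
  obtain ⟨t0⟩ : Nonempty (L →+* ℂ) := inferInstance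
  set ρ0 : K →+* ℂ := t0.comp (algebraMap K L) with hρ0
  set fib : (K →+* ℂ) → Finset (L →+* ℂ) := fun ρ =>
    Finset.univ.filter fun t => t.comp (algebraMap K L) = ρ with hfib
  have hcard : ∀ ρ, (fib ρ).card = (fib ρ0).card := by
    intro ρ
    obtain ⟨τ, hτ⟩ := Pool.Agent.Helper84.exists_aut ρ ρ0
    refine Finset.card_bij' (fun t _ => (τ : ℂ →+* ℂ).comp t)
      (fun t _ => ((τ.symm : ℂ ≃+* ℂ) : ℂ →+* ℂ).comp t) ?_ ?_ ?_ ?_
    · intro t ht
      simp only [hfib, Finset.mem_filter, Finset.mem_univ, true_and] at ht ⊢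
      rw [RingHom.comp_assoc, ht, hτ]
    · intro t ht
      simp only [hfib, Finset.mem_filter, Finset.mem_univ, true_and] at ht ⊢
      rw [RingHom.comp_assoc, ht, ← hτ]
      ext x
      simp
    · intro t _
      ext x
      simp
    · intro t _
      ext x
      simp
  refine ⟨(fib ρ0).card, ?_, ?_⟩
  · have h1 : t0 ∈ fib ρ0 := by simp [hfib, hρ0]
    exact (Finset.card_pos.2 ⟨t0, h1⟩).ne'
  · intro M _ F
    rw [← Finset.sum_fiberwise (s := Finset.univ) (g := fun t : L →+* ℂ => t.comp (algebraMap K L))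
      (f := fun t => F (t.comp (algebraMap K L)))]
    rw [Finset.smul_sum]
    refine Finset.sum_congr rfl fun ρ _ => ?_
    rw [← hcard ρ, ← Finset.sum_const]
    refine Finset.sum_congr rfl fun t ht => ?_
    rw [(Finset.mem_filter.1 ht).2]

variable {S : Type} [Fintype S] {φ : S → K →+* ℂ}

/-- the embeddings of `L` above the CM type `φ` -/
private abbrev FinQ_S (K L : Type) [Field K] [Field L] [Algebra K L] {S : Type}
    (φ : S → K →+* ℂ) : Type :=
  {σ : L →+* ℂ // ∃ s, σ.comp (algebraMap K L) = φ s}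

private lemma FinQ_CMT (hc : CMF K c) (hc' : CMF L c') (hT : CMT K c φ) :
    CMT L c' (fun s' : FinQ_S K L φ => s'.1) := by
  constructor
  · rintro (⟨σ, s, hs⟩ | ⟨σ, s, hs⟩) (⟨σ', s', hs'⟩ | ⟨σ', s', hs'⟩) h
    · have h1 : σ = σ' := h
      subst h1; rfl
    · have h1 : σ = σ'.comp c' := h
      rw [h1, FinQ_res_c hc hc', hs'] at hs
      exact (FinQ_ne hT hs.symm).elim
    · have h1 : σ.comp c' = σ' := h
      rw [← h1, FinQ_res_c hc hc', hs] at hs'
      exact (FinQ_ne hT hs'.symm).elim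
    · have h1 : σ.comp c' = σ'.comp c' := h
      have h2 := FinQ_c_inj hc' h1
      subst h2; rfl
  · intro σ
    rcases FinQ_surj hT (σ.comp (algebraMap K L)) with ⟨s, hs⟩ | ⟨s, hs⟩
    · exact ⟨Sum.inl ⟨σ, s, hs⟩, rfl⟩
    · refine ⟨Sum.inr ⟨σ.comp c', s, ?_⟩, FinQ_cc hc' σ⟩
      rw [FinQ_res_c hc hc', hs, FinQ_cc hc]

private noncomputable def FinQ_H (L : Type) [Field L] [Algebra K L] (φ : S → K →+* ℂ) :
    (L →+* ℂ) → ℚ :=
  hfun (fun s' : FinQ_S K L φ => s'.1)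

private lemma FinQ_H_pos {t : L →+* ℂ} {s : S} (h : t.comp (algebraMap K L) = φ s) :
    FinQ_H L φ t = 1 / 2 := by
  unfold FinQ_H hfun
  rw [if_pos]
  exact ⟨⟨t, s, h⟩, rfl⟩

private lemma FinQ_H_neg (hT : CMT K c φ) {t : L →+* ℂ} {s : S}
    (h : t.comp (algebraMap K L) = (φ s).comp c) : FinQ_H L φ t = -1 / 2 := by
  unfold FinQ_H hfun
  rw [if_neg]
  rintro ⟨⟨t', s', h'⟩, ht⟩
  have h1 : t' = t := ht
  rw [h1, h] at h'
  exact FinQ_ne hT h'.symm

private lemma FinQ_H_odd (hc : CMF K c) (hc' : CMF L c') (hT : CMT K c φ) :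
    OddF c' (FinQ_H L φ) := by
  intro σ
  rcases FinQ_surj hT (σ.comp (algebraMap K L)) with ⟨s, hs⟩ | ⟨s, hs⟩
  · rw [FinQ_H_pos hs, FinQ_H_neg hT (s := s) (by rw [FinQ_res_c hc hc', hs])]
    norm_num
  · rw [FinQ_H_neg hT hs, FinQ_H_pos (s := s) (by rw [FinQ_res_c hc hc', hs, FinQ_cc hc])]
    norm_num

/-- `Ψ_t` of `H` -/
private lemma FinQ_psi [DecidableEq S] (hL : St_ExpL) (hc : CMF K c) (hc' : CMF L c')
    (hT : CMT K c φ) {δ : Derivation ℚ ℂ ℂ} {A : S → ℂ} (hE : IsExp δ K φ A)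
    {Ψ : (L →+* ℂ) → ((L →+* ℂ) → ℚ) →ₗ[ℚ] ℂ} (hΨ : IsPsiK δ L c' Ψ) (t : L →+* ℂ) (s : S) :
    (t.comp (algebraMap K L) = φ s → Ψ t (FinQ_H L φ) = A s - δ Real.pi / (2 * Real.pi)) ∧
    (t.comp (algebraMap K L) = (φ s).comp c →
      Ψ t (FinQ_H L φ) = -(A s - δ Real.pi / (2 * Real.pi))) := by
  classical
  have hT' := FinQ_CMT hc hc' hT
  have key : ∀ t : L →+* ℂ, t.comp (algebraMap K L) = φ s →
      Ψ t (FinQ_H L φ) = A s - δ Real.pi / (2 * Real.pi) := by
    intro t ht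
    have hr : ∀ s' : FinQ_S K L φ, ∃ s, s'.1.comp (algebraMap K L) = φ s := fun s' => s'.2
    choose r hr using hr
    have h1 := hL K L c c' S (FinQ_S K L φ) φ (fun s' => s'.1) r δ A hc hc' hT hT' hr hE
    have h2 := hΨ.val (FinQ_S K L φ) (fun s' => s'.1) (fun s' => A (r s')) ⟨t, s, ht⟩ hT' h1
    have h3 : r ⟨t, s, ht⟩ = s := by
      have h4 := hr ⟨t, s, ht⟩
      exact FinQ_inj hT (h4.symm.trans ht)
    rw [h3] at h2
    exact h2.symm
  refine ⟨key t, fun ht => ?_⟩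
  have h1 : (t.comp c').comp (algebraMap K L) = φ s := by
    rw [FinQ_res_c hc hc', ht, FinQ_cc hc]
  have h2 := key (t.comp c') h1
  have h3 := hΨ.cj t (FinQ_H L φ) (FinQ_H_odd hc hc' hT)
  rw [h3] at h2
  rw [← h2, neg_neg]

private lemma FinQ_gal [IsGalois ℚ L] (t0 t : L →+* ℂ) :
    ∃ g : L ≃+* L, t0.comp (g : L →+* L) = t := by
  obtain ⟨g, hg⟩ := NumberField.ComplexEmbedding.exists_comp_symm_eq_of_comp_eq (k := ℚ) t0 t
    (Subsingleton.elim _ _)
  exact ⟨g.symm.toRingEquiv, hg⟩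

end two


section sgn

variable {K : Type} [Field K]

/-- the sign of an embedding at `J` -/
noncomputable def FinQ_f (J : K) (d : ℚ) (σ : K →+* ℂ) : ℚ :=
  open Classical in if σ J = zd d then 1 / 2 else -1 / 2

theorem FinQ_zd_sq {d : ℚ} (hd : 0 < d) : zd d ^ 2 = -(d : ℂ) := by
  have h1 : (Real.sqrt (d : ℝ)) ^ 2 = (d : ℝ) := Real.sq_sqrt (by exact_mod_cast hd.le)
  have h2 : ((Real.sqrt (d : ℝ) : ℂ)) ^ 2 = (d : ℂ) := by
    rw [← Complex.ofReal_pow, h1]
    simp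
  rw [zd, mul_pow, h2, Complex.I_sq]
  ring

theorem FinQ_zd_ne {d : ℚ} (hd : 0 < d) : -zd d ≠ zd d := by
  intro h
  have h1 : zd d = 0 := by
    have : (2 : ℂ) * zd d = 0 := by linear_combination -h
    exact (mul_eq_zero.1 this).resolve_left two_ne_zero
  have h2 := FinQ_zd_sq hd
  rw [h1] at h2
  have h3 : (d : ℂ) = 0 := by linear_combination h2
  have h4 : d = 0 := by exact_mod_cast h3
  exact hd.ne' h4

theorem FinQ_zd_conj (d : ℚ) : (starRingEnd ℂ) (zd d) = -zd d := by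
  rw [zd, map_mul, Complex.conj_ofReal, Complex.conj_I]
  ring

theorem FinQ_f_pos {J : K} {d : ℚ} {σ : K →+* ℂ} (h : σ J = zd d) : FinQ_f J d σ = 1 / 2 := by
  rw [FinQ_f, if_pos h]

theorem FinQ_f_neg {J : K} {d : ℚ} (hd : 0 < d) {σ : K →+* ℂ} (h : σ J = -zd d) :
    FinQ_f J d σ = -1 / 2 := by
  rw [FinQ_f, if_neg]
  rw [h]
  exact FinQ_zd_ne hd

/-- `J ^ 2 = -d` -/
theorem FinQ_sq {J : K} {d : ℚ} (hd : 0 < d) {τ : K →+* ℂ} (hτ : τ J ^ 2 = -(d : ℂ))
    (σ : K →+* ℂ) : σ J = zd d ∨ σ J = -zd d := by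
  have h1 : (d.den : K) * J ^ 2 = -(d.num : K) := by
    apply τ.injective
    rw [map_mul, map_pow, hτ, map_neg, map_natCast, map_intCast]
    have h2 : (d.den : ℂ) ≠ 0 := by exact_mod_cast d.den_ne_zero
    have h3 : (d : ℂ) = (d.num : ℂ) / (d.den : ℂ) := by
      exact_mod_cast congrArg (fun q : ℚ => (q : ℂ)) d.num_div_den.symm
    rw [h3]
    field_simp
  have h4 : σ J ^ 2 = zd d ^ 2 := by
    have h2 : (d.den : ℂ) ≠ 0 := by exact_mod_cast d.den_ne_zero
    have h3 : (d : ℂ) = (d.num : ℂ) / (d.den : ℂ) := by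
      exact_mod_cast congrArg (fun q : ℚ => (q : ℂ)) d.num_div_den.symm
    have h5 := congrArg σ h1
    rw [map_mul, map_pow, map_neg, map_natCast, map_intCast] at h5
    rw [FinQ_zd_sq hd, h3]
    field_simp
    linear_combination h5
  exact sq_eq_sq_iff_eq_or_eq_neg.1 h4

end sgn

section core

variable {K L : Type} [Field K] [NumberField K] [Field L] [NumberField L] [Algebra K L]
  {c : K →+* K} {c' : L →+* L}

/-- the function `f` is odd -/
theorem FinQ_f_odd {J : K} {d : ℚ} (hd : 0 < d) (hc : CMF K c)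
    (hv : ∀ σ : K →+* ℂ, σ J = zd d ∨ σ J = -zd d) (σ : K →+* ℂ) :
    FinQ_f J d (σ.comp c) = -FinQ_f J d σ := by
  have h1 : (σ.comp c) J = (starRingEnd ℂ) (σ J) := (hc.cc σ J).symm
  rcases hv σ with h | h
  · rw [h, FinQ_zd_conj] at h1
    rw [FinQ_f_neg hd h1, FinQ_f_pos h]
    norm_num
  · rw [h, map_neg, FinQ_zd_conj, neg_neg] at h1
    rw [FinQ_f_neg hd h, FinQ_f_pos h1]
    norm_num

/-- automorphisms change the sign of all embeddings or of none -/
theorem FinQ_f_aut {J : L} {d : ℚ} (hd : 0 < d)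
    (hv : ∀ σ : L →+* ℂ, σ J = zd d ∨ σ J = -zd d) (g : L ≃+* L) (σ τ : L →+* ℂ) :
    FinQ_f J d σ * FinQ_f J d (σ.comp (g : L →+* L)) =
      FinQ_f J d τ * FinQ_f J d (τ.comp (g : L →+* L)) := by
  have hg : g J = J ∨ g J = -J := by
    have h1 : g J ^ 2 = J ^ 2 := by
      apply τ.injective
      rw [map_pow, map_pow]
      have h2 : ∀ z : ℂ, z = zd d ∨ z = -zd d → z ^ 2 = zd d ^ 2 := by
        rintro z (rfl | rfl)
        · rfl
        · ring
      rw [h2 _ (hv τ)]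
      exact h2 _ (hv (τ.comp (g : L →+* L)))
    exact sq_eq_sq_iff_eq_or_eq_neg.1 h1
  have key : ∀ ρ : L →+* ℂ, (g J = J → FinQ_f J d ρ * FinQ_f J d (ρ.comp (g : L →+* L)) = 1 / 4) ∧
      (g J = -J → FinQ_f J d ρ * FinQ_f J d (ρ.comp (g : L →+* L)) = -1 / 4) := by
    intro ρ
    have h3 : (ρ.comp (g : L →+* L)) J = ρ (g J) := rfl
    refine ⟨fun h => ?_, fun h => ?_⟩
    · rw [h] at h3
      rcases hv ρ with h4 | h4
      · rw [FinQ_f_pos h4, FinQ_f_pos (h3.trans h4)]; norm_num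
      · rw [FinQ_f_neg hd h4, FinQ_f_neg hd (h3.trans h4)]; norm_num
    · rw [h, map_neg] at h3
      rcases hv ρ with h4 | h4
      · rw [h4] at h3
        rw [FinQ_f_pos h4, FinQ_f_neg hd h3]; norm_num
      · rw [h4, neg_neg] at h3
        rw [FinQ_f_neg hd h4, FinQ_f_pos h3]; norm_num
  rcases hg with h | h
  · rw [(key σ).1 h, (key τ).1 h]
  · rw [(key σ).2 h, (key τ).2 h]

end core

theorem FinQ_core (hL : St_ExpL) (hP : St_PsiK) (hI : St_Iso) (hG : St_GalC) : St_FinQ := by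
  intro K _ _ c α β _ _ _ _ φ J₀ d A hc hT hd hα hβ hcard hE hrel
  classical
  obtain ⟨L, iF, iN, iA, c', hc', hGal⟩ := hG K c hc
  -- an embedding of `K`
  obtain ⟨s₀⟩ : Nonempty (α ⊕ β) := by
    by_contra hne
    rw [not_nonempty_iff] at hne
    have h1 : IsEmpty α := ⟨fun a => hne.false (Sum.inl a)⟩
    have h2 : IsEmpty β := ⟨fun b => hne.false (Sum.inr b)⟩
    exact hcard (by simp)
  have hs₀ : φ s₀ J₀ ^ 2 = -(d : ℂ) := by
    rcases s₀ with i | j
    · rw [hα, FinQ_zd_sq hd]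
    · rw [hβ, neg_sq, FinQ_zd_sq hd]
  have hvK : ∀ σ : K →+* ℂ, σ J₀ = zd d ∨ σ J₀ = -zd d := FinQ_sq hd hs₀
  set J : L := algebraMap K L J₀ with hJ
  have hvL : ∀ σ : L →+* ℂ, σ J = zd d ∨ σ J = -zd d := fun σ => hvK (σ.comp (algebraMap K L))
  have hfL : ∀ σ : L →+* ℂ, FinQ_f J d σ = FinQ_f J₀ d (σ.comp (algebraMap K L)) := fun σ => rfl
  -- the functions
  have hΨ : ∀ δ, ∃ Ψ, IsPsiK δ L c' Ψ := fun δ => hP L c' δ hc'
  choose Ψ hΨ using hΨ
  obtain ⟨m, hm0, hm⟩ := FinQ_fib K L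
  -- the sum of the exponents
  have hsum : ∀ δ, ∑ t : L →+* ℂ, (FinQ_f J d t : ℂ) * Ψ δ t (FinQ_H L φ) = 0 := by
    intro δ
    set G : (K →+* ℂ) → ℂ := fun ρ : K →+* ℂ => (FinQ_f J₀ d ρ : ℂ) *
          (if h : ∃ s, ρ = φ s then A δ h.choose - δ Real.pi / (2 * Real.pi) else
            if h : ∃ s, ρ = (φ s).comp c then
              -(A δ h.choose - δ Real.pi / (2 * Real.pi)) else 0) with hG'
    have h5 : ∀ t : L →+* ℂ, (FinQ_f J d t : ℂ) * Ψ δ t (FinQ_H L φ) =
        G (t.comp (algebraMap K L)) := by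
      intro t
      rw [hG']
      simp only
      rw [hfL]
      congr 1
      split_ifs with h6 h7
      · exact (FinQ_psi hL hc hc' hT (hE δ) (hΨ δ) t _).1 h6.choose_spec
      · exact (FinQ_psi hL hc hc' hT (hE δ) (hΨ δ) t _).2 h7.choose_spec
      · rcases FinQ_surj hT (t.comp (algebraMap K L)) with h8 | h8
        · exact absurd h8 h6
        · exact absurd h8 h7
    rw [Finset.sum_congr rfl fun t _ => h5 t, hm ℂ G, FinQ_sum hT, hG']
    have h9 : ∀ s, (if h : ∃ s', φ s = φ s' then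
        A δ h.choose - δ Real.pi / (2 * Real.pi) else
            if h : ∃ s', φ s = (φ s').comp c then
              -(A δ h.choose - δ Real.pi / (2 * Real.pi)) else 0) =
        A δ s - δ Real.pi / (2 * Real.pi) := by
      intro s
      have h10 : ∃ s', φ s = φ s' := ⟨s, rfl⟩
      rw [dif_pos h10, ← FinQ_inj hT h10.choose_spec]
    have h11 : ∀ s, (if h : ∃ s', (φ s).comp c = φ s' then
        A δ h.choose - δ Real.pi / (2 * Real.pi) else
            if h : ∃ s', (φ s).comp c = (φ s').comp c then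
              -(A δ h.choose - δ Real.pi / (2 * Real.pi)) else 0) =
        -(A δ s - δ Real.pi / (2 * Real.pi)) := by
      intro s
      have h12 : ¬ ∃ s', (φ s).comp c = φ s' := by
        rintro ⟨s', hs'⟩
        exact FinQ_ne hT hs'.symm
      have h13 : ∃ s', (φ s).comp c = (φ s').comp c := ⟨s, rfl⟩
      rw [dif_neg h12, dif_pos h13,
        ← FinQ_inj hT (FinQ_c_inj hc h13.choose_spec)]
    simp only [h9, h11, FinQ_f_odd hd hc hvK]
    rw [← Finset.sum_add_distrib, Fintype.sum_sum_type]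
    simp only [FinQ_f_pos (hα _), FinQ_f_neg hd (hβ _)]
    have h14 := hrel δ
    have h15 : (∑ x : α, (((1 / 2 : ℚ) : ℂ) * (A δ (Sum.inl x) - δ Real.pi / (2 * Real.pi)) +
          ((-(1 / 2) : ℚ) : ℂ) * -(A δ (Sum.inl x) - δ Real.pi / (2 * Real.pi))) +
        ∑ x : β, (((-1 / 2 : ℚ) : ℂ) * (A δ (Sum.inr x) - δ Real.pi / (2 * Real.pi)) +
          ((-(-1 / 2) : ℚ) : ℂ) * -(A δ (Sum.inr x) - δ Real.pi / (2 * Real.pi)))) = 0 := by
      rw [← h14, sub_eq_add_neg, ← Finset.sum_neg_distrib]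
      congr 1
      · refine Finset.sum_congr rfl fun x _ => ?_
        push_cast
        ring
      · refine Finset.sum_congr rfl fun x _ => ?_
        push_cast
        ring
    rw [h15, smul_zero]
  -- the constant
  set C : ℚ := ∑ t : L →+* ℂ, FinQ_f J d t * FinQ_H L φ t with hC
  have hC0 : C ≠ 0 := by
    set G : (K →+* ℂ) → ℚ := fun ρ : K →+* ℂ =>
      FinQ_f J₀ d ρ * (if ∃ s, ρ = φ s then 1 / 2 else -1 / 2) with hG'
    have h3 : ∀ t : L →+* ℂ, FinQ_f J d t * FinQ_H L φ t = G (t.comp (algebraMap K L)) := by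
      intro t
      rw [hG']
      simp only
      rw [hfL]
      congr 1
      split_ifs with h4
      · exact FinQ_H_pos h4.choose_spec
      · rcases FinQ_surj hT (t.comp (algebraMap K L)) with h8 | h8
        · exact absurd h8 h4
        · exact FinQ_H_neg hT h8.choose_spec
    rw [hC, Finset.sum_congr rfl fun t _ => h3 t, hm ℚ G, FinQ_sum hT, hG']
    have h9 : ∀ s, (if ∃ s', φ s = φ s' then (1 / 2 : ℚ) else -1 / 2) = 1 / 2 := fun s =>
      if_pos ⟨s, rfl⟩
    have h11 : ∀ s, (if ∃ s', (φ s).comp c = φ s' then (1 / 2 : ℚ) else -1 / 2) =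
        -1 / 2 := by
      intro s
      rw [if_neg]
      rintro ⟨s', hs'⟩
      exact FinQ_ne hT hs'.symm
    simp only [h9, h11, FinQ_f_odd hd hc hvK]
    rw [← Finset.sum_add_distrib, Fintype.sum_sum_type]
    simp only [FinQ_f_pos (hα _), FinQ_f_neg hd (hβ _), Finset.sum_const, Finset.card_univ,
      nsmul_eq_mul]
    intro h
    rcases mul_eq_zero.1 h with h | h
    · exact hm0 (by exact_mod_cast h)
    · apply hcard
      have : (Fintype.card α : ℚ) = Fintype.card β := by linarith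
      exact_mod_cast this
  -- `Ψ_t f = 0`
  have hzero : ∀ δ t₀, Ψ δ t₀ (FinQ_f J d) = 0 := by
    intro δ t₀
    have hg : ∀ t : L →+* ℂ, ∃ g : L ≃+* L, t₀.comp (g : L →+* L) = t := fun t => FinQ_gal t₀ t
    choose g hg using hg
    set F : (L →+* ℂ) → ℚ := fun σ => ∑ t : L →+* ℂ,
      FinQ_f J d t * FinQ_H L φ (σ.comp (g t : L →+* L)) with hF
    have h1 : Ψ δ t₀ F = 0 := by
      have h2 : F = ∑ t : L →+* ℂ, FinQ_f J d t •
          (fun σ : L →+* ℂ => FinQ_H L φ (σ.comp (g t : L →+* L))) := by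
        funext σ
        rw [hF]
        simp only [Finset.sum_apply, Pi.smul_apply, smul_eq_mul]
      rw [h2, map_sum, ← hsum δ]
      refine Finset.sum_congr rfl fun t _ => ?_
      rw [map_smul, ← (hΨ δ).gal (g t) t₀ _ (FinQ_H_odd hc hc' hT), hg, Algebra.smul_def]
      rfl
    have hf4 : ∀ σ : L →+* ℂ, FinQ_f J d σ * FinQ_f J d σ = 1 / 4 := by
      intro σ
      rcases hvL σ with h | h
      · rw [FinQ_f_pos h]; norm_num
      · rw [FinQ_f_neg hd h]; norm_num
    have h2 : ∀ σ, FinQ_f J d t₀ * F σ = FinQ_f J d σ * C := by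
      intro σ
      have hbij : Function.Bijective (fun t : L →+* ℂ => σ.comp (g t : L →+* L)) := by
        apply Finite.injective_iff_bijective.1
        intro t t' htt
        rw [← hg t, ← hg t']
        ext x
        have h3 := RingHom.congr_fun htt x
        exact congrArg t₀ (σ.injective h3)
      rw [hC, ← hbij.sum_comp (fun t => FinQ_f J d t * FinQ_H L φ t), hF]
      simp only
      rw [Finset.mul_sum, Finset.mul_sum]
      refine Finset.sum_congr rfl fun t _ => ?_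
      have h3 := FinQ_f_aut hd hvL (g t) σ t₀
      rw [hg] at h3
      rw [← mul_assoc, ← mul_assoc, h3]
    have h3 : FinQ_f J d = (FinQ_f J d t₀ / C) • F := by
      funext σ
      have h4 := h2 σ
      rw [Pi.smul_apply, smul_eq_mul, div_mul_eq_mul_div, h4, mul_div_assoc, div_self hC0, mul_one]
    rw [h3, map_smul, h1, smul_zero]
  -- the CM type `σ J = i √d`
  let S : Type := {σ : L →+* ℂ // σ J = zd d}
  have hvc : ∀ σ : L →+* ℂ, (σ.comp c') J = (starRingEnd ℂ) (σ J) := fun σ => (hc'.cc σ J).symm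
  have hTJ : CMT L c' (fun s : S => s.1) := by
    constructor
    · rintro (⟨σ, hs⟩ | ⟨σ, hs⟩) (⟨σ', hs'⟩ | ⟨σ', hs'⟩) h
      · have h1 : σ = σ' := h
        subst h1; rfl
      · have h1 : σ = σ'.comp c' := h
        rw [h1, hvc, hs', FinQ_zd_conj] at hs
        exact absurd hs (FinQ_zd_ne hd)
      · have h1 : σ.comp c' = σ' := h
        rw [← h1, hvc, hs, FinQ_zd_conj] at hs'
        exact absurd hs' (FinQ_zd_ne hd)
      · have h1 : σ.comp c' = σ'.comp c' := h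
        have h2 := FinQ_c_inj hc' h1
        subst h2; rfl
    · intro σ
      rcases hvL σ with h | h
      · exact ⟨Sum.inl ⟨σ, h⟩, rfl⟩
      · refine ⟨Sum.inr ⟨σ.comp c', ?_⟩, FinQ_cc hc' σ⟩
        rw [hvc, h, map_neg, FinQ_zd_conj, neg_neg]
  have hTJ' : CMT L c' (fun s : S => s.1.comp c') := by
    constructor
    · rintro (⟨σ, hs⟩ | ⟨σ, hs⟩) (⟨σ', hs'⟩ | ⟨σ', hs'⟩) h
      · have h1 : σ.comp c' = σ'.comp c' := h
        have h2 := FinQ_c_inj hc' h1
        subst h2; rfl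
      · have h1 : σ.comp c' = (σ'.comp c').comp c' := h
        rw [FinQ_cc hc'] at h1
        rw [← h1, hvc, hs, FinQ_zd_conj] at hs'
        exact absurd hs' (FinQ_zd_ne hd)
      · have h1 : (σ.comp c').comp c' = σ'.comp c' := h
        rw [FinQ_cc hc'] at h1
        rw [h1, hvc, hs', FinQ_zd_conj] at hs
        exact absurd hs (FinQ_zd_ne hd)
      · have h1 : (σ.comp c').comp c' = (σ'.comp c').comp c' := h
        rw [FinQ_cc hc', FinQ_cc hc'] at h1
        subst h1; rfl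
    · intro σ
      rcases hvL σ with h | h
      · exact ⟨Sum.inr ⟨σ, h⟩, FinQ_cc hc' σ⟩
      · refine ⟨Sum.inl ⟨σ.comp c', ?_⟩, FinQ_cc hc' σ⟩
        rw [hvc, h, map_neg, FinQ_zd_conj, neg_neg]
  have hh1 : hfun (fun s : S => s.1) = FinQ_f J d := by
    funext σ
    unfold hfun FinQ_f
    by_cases h : σ J = zd d
    · rw [if_pos h, if_pos]
      exact ⟨⟨σ, h⟩, rfl⟩
    · rw [if_neg h, if_neg]
      rintro ⟨⟨τ, hτ⟩, h1⟩
      have h2 : τ = σ := h1
      exact h (h2 ▸ hτ)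
  have hh2 : hfun (fun s : S => s.1.comp c') = -FinQ_f J d := by
    funext σ
    rw [Pi.neg_apply]
    unfold hfun
    rcases hvL σ with h | h
    · rw [FinQ_f_pos h, if_neg]
      · norm_num
      · rintro ⟨⟨τ, hτ⟩, h1⟩
        have h2 : τ.comp c' = σ := h1
        rw [← h2, hvc, hτ, FinQ_zd_conj] at h
        exact FinQ_zd_ne hd h
    · rw [FinQ_f_neg hd h, if_pos]
      · norm_num
      · refine ⟨⟨σ.comp c', ?_⟩, FinQ_cc hc' σ⟩
        rw [hvc, h, map_neg, FinQ_zd_conj, neg_neg]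
  have hran := hI L c' S (fun s : S => s.1) (fun s : S => s.1.comp c') hc' hTJ hTJ' (by
    intro δ B B' hB hB' s s'
    have e1 := (hΨ δ).val S _ B s hTJ hB
    have e2 := (hΨ δ).val S _ B' s' hTJ' hB'
    rw [hh1, hzero] at e1
    rw [hh2, map_neg, hzero, neg_zero] at e2
    have e3 : B s = δ Real.pi / (2 * Real.pi) := sub_eq_zero.1 e1
    have e4 : B' s' = δ Real.pi / (2 * Real.pi) := sub_eq_zero.1 e2
    refine ⟨fun _ => by rw [e3, e4], fun _ => ?_⟩
    rw [e3, e4]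
    have hpi : (Real.pi : ℂ) ≠ 0 := by exact_mod_cast Real.pi_ne_zero
    field_simp
    ring)
  obtain ⟨t₀⟩ : Nonempty (L →+* ℂ) := inferInstance
  have hne : ∃ σ : L →+* ℂ, σ J = zd d := by
    rcases hvL t₀ with h | h
    · exact ⟨t₀, h⟩
    · refine ⟨t₀.comp c', ?_⟩
      rw [hvc, h, map_neg, FinQ_zd_conj, neg_neg]
  obtain ⟨σ, hσ⟩ := hne
  have h1 : σ ∈ Set.range (fun s : S => s.1) := ⟨⟨σ, hσ⟩, rfl⟩
  rw [hran] at h1
  obtain ⟨⟨τ, hτ⟩, h2⟩ := h1
  have h3 : τ.comp c' = σ := h2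
  rw [← h3, hvc, hτ, FinQ_zd_conj] at hσ
  exact FinQ_zd_ne hd hσ

/-- the exponents do not satisfy the relation -/
theorem thm_FinQ (h : St_GalC) : St_FinQ :=
  FinQ_core GAM.All.ExpL_ GAM.All.PsiK_ GAM.All.Iso_ h

end PST
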