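import Pool.Agent.PST.StN

/-!
# PST [GalC]: the Galois closure of a CM field
-/

set_option autoImplicit false

namespace PST

open scoped ComplexConjugate
open GAM (CMF)

theorem thm_GalC : St_GalC := by
  intro K _ _ c hc
  classical
  let N : IntermediateField ℚ ℂ := IntermediateField.normalClosure ℚ K ℂ
  have hfd : FiniteDimensional ℚ N := by
    have h1 : ∀ f : K →ₐ[ℚ] ℂ, FiniteDimensional ℚ f.fieldRange := fun f =>
      f.toLinearMap.finiteDimensional_range
    exact IntermediateField.finiteDimensional_iSup_of_finite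
  have hnc : IsNormalClosure ℚ K N :=
    Algebra.IsAlgebraic.isNormalClosure_normalClosure fun x => IsAlgClosed.splits _
  have hnorm : Normal ℚ N := hnc.normal
  have hgal : IsGalois ℚ N := IsGalois.mk
  have key : ∀ (f : K →+* ℂ) (e : K), conj (f e) = f (c e) := fun f e => hc.cc f e
  have hmem : ∀ (f : K →ₐ[ℚ] ℂ) (e : K), f e ∈ N := fun f e =>
    (AlgHom.fieldRange_le_normalClosure f) ⟨e, rfl⟩
  -- the embeddings of `K` in the closure
  have hst : ∀ x : N, (starRingEnd ℂ) (x : ℂ) ∈ N := by
    intro x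
    have h1 : N ≤ N.comap ((starRingEnd ℂ).toRatAlgHom) := by
      refine iSup_le fun f => ?_
      rintro y ⟨e, rfl⟩
      show (starRingEnd ℂ) (f e) ∈ N
      rw [show (starRingEnd ℂ) (f e) = f (c e) from key f.toRingHom e]
      exact hmem f (c e)
    exact h1 x.2
  let c' : N →+* N := ((starRingEnd ℂ).comp N.val.toRingHom).codRestrict N hst
  have hc' : ∀ x : N, ((c' x : N) : ℂ) = (starRingEnd ℂ) (x : ℂ) := fun x => rfl
  -- the embeddings
  let fN : (K →ₐ[ℚ] ℂ) → K →+* N := fun f => f.toRingHom.codRestrict N (hmem f)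
  have hfN : ∀ f e, ((fN f e : N) : ℂ) = f e := fun f e => rfl
  have hcf : ∀ f e, c' (fN f e) = fN f (c e) := by
    intro f e
    apply Subtype.ext
    rw [hc', hfN, hfN]
    exact key f.toRingHom e
  have hcc : ∀ (σ : N →+* ℂ) (x : N), (starRingEnd ℂ) (σ x) = σ (c' x) := by
    intro σ x
    let S : Subfield N := RingHom.eqLocusField ((starRingEnd ℂ).comp σ) (σ.comp c')
    let E : IntermediateField ℚ N := S.toIntermediateField fun q => by
      show (starRingEnd ℂ) (σ (algebraMap ℚ N q)) = σ (c' (algebraMap ℚ N q))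
      rw [eq_ratCast (algebraMap ℚ N) q]
      simp
    have h2 : N ≤ E.map N.val := by
      refine iSup_le fun f => ?_
      rintro y ⟨e, rfl⟩
      refine ⟨fN f e, ?_, rfl⟩
      show (starRingEnd ℂ) (σ (fN f e)) = σ (c' (fN f e))
      rw [hcf]
      exact key (σ.comp (fN f)) e
    obtain ⟨y, hy, hyx⟩ := h2 x.2
    have h3 : y = x := Subtype.ext hyx
    rw [h3] at hy
    exact hy
  have f₀ : K →ₐ[ℚ] ℂ := IsAlgClosed.lift
  have hne : c' ≠ RingHom.id N := by
    intro h
    apply hc.ne
    ext e
    have h1 := hcf f₀ e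
    rw [h] at h1
    exact ((fN f₀).injective h1).symm
  have ha : (DivisionRing.toRatAlgebra : Algebra ℚ N) = N.algebra' := Subsingleton.elim _ _
  have hnf : NumberField N := by
    refine @NumberField.mk N _ inferInstance ?_
    rw [ha]
    exact hfd
  refine ⟨N, inferInstance, hnf, (fN f₀).toAlgebra, c', ⟨hcc, hne⟩, ?_⟩
  rw [ha]
  exact hgal

end PST
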