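import Pool.Agent.PST.Defs
import Pool.Agent.GAM.StD2

/-!
# PST: frozen statements, Fock vectors on the domain of type `I_{r,q}` and the core theorem
-/

set_option autoImplicit false

namespace PST

open scoped ComplexConjugate
open GAM (H E F pd pdl PLat IsTh OddTor IsDel Gro IsLat)

/-- Form attached to a matrix: `∑ M_ij x_ik y_jk`. -/
def qf {α β μ : Type} [Fintype α] [Fintype β] [Fintype μ] (M : Matrix α β ℂ)
    (x y : Ix α β μ → ℂ) : ℂ :=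
  ∑ i, ∑ j, ∑ k, M i j * x (Sum.inl i, k) * y (Sum.inr j, k)

/-- The exponent `- H(x,x) / 2 + ∑ w_ij conj(x_ik) conj(x_jk)`, times `π`. -/
noncomputable def ex {α β μ : Type} [Fintype α] [Fintype β] [Fintype μ] (w : α × β → ℂ)
    (x : Ix α β μ → ℂ) : ℂ :=
  Complex.exp (-(Real.pi / 2 * H x x) + Real.pi * qf (mt w) (star x) (star x))

/-- The point `(U⁺ + w conj y, y)`. -/
def emU {α β μ : Type} [Fintype α] [Fintype β] [Fintype μ] (w : α × β → ℂ)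
    (U : Ix α β μ → ℂ) (y : β × μ → ℂ) : Ix α β μ → ℂ := fun p =>
  Sum.elim (fun i => U (Sum.inl i, p.2) + ∑ j, w (i, j) * conj (y (j, p.2)))
    (fun j => y (j, p.2)) p.1

/-- The holomorphic form of the Fock vector. -/
noncomputable def Phi {α β μ : Type} [Fintype α] [Fintype β] [Fintype μ]
    (θ : (Ix α β μ → ℂ) → ℂ) (w : α × β → ℂ) (U : Ix α β μ → ℂ) : ℂ :=
  ∫ y : β × μ → ℂ, θ (emU w U y) *
    Complex.exp (Real.pi * ∑ q : β × μ, conj (y q) * U (Sum.inr q.1, q.2)) * gw y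

/-- The matrix `(a - w' c)ᵀ conj b`. -/
noncomputable def Mq {α β : Type} [Fintype α] [Fintype β] [DecidableEq α] [DecidableEq β]
    (g : Matrix (α ⊕ β) (α ⊕ β) ℂ) (w : α × β → ℂ) : Matrix α β ℂ :=
  (ca g w).transpose * g.toBlocks₁₂.map conj

/-! ## The group and the domain -/

/-- [UGr] -/
def St_UGr : Prop := ∀ (α β μ : Type) [Fintype α] [Fintype β] [Fintype μ] [DecidableEq α]
  [DecidableEq β] [DecidableEq μ],
  (∀ x : Ix α β μ → ℂ, sw (sw x) = x) ∧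
  (∀ (g h : Matrix (α ⊕ β) (α ⊕ β) ℂ) (x : Ix α β μ → ℂ), act (g * h) x = act g (act h x)) ∧
  (∀ x : Ix α β μ → ℂ, act (1 : Matrix (α ⊕ β) (α ⊕ β) ℂ) x = x) ∧
  (∀ (g : Matrix (α ⊕ β) (α ⊕ β) ℂ) (x y : Ix α β μ → ℂ) (r : ℝ),
    act g (x + y) = act g x + act g y ∧ act g ((r : ℂ) • x) = (r : ℂ) • act g x) ∧
  (∀ g h : Matrix (α ⊕ β) (α ⊕ β) ℂ, IsU g → IsU h → IsU (g * h)) ∧
  (∀ g : Matrix (α ⊕ β) (α ⊕ β) ℂ, IsU g → IsU (Jm α β * g.conjTranspose * Jm α β) ∧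
    (Jm α β * g.conjTranspose * Jm α β) * g = 1 ∧ g * (Jm α β * g.conjTranspose * Jm α β) = 1 ∧
    ‖g.det‖ = 1 ∧ g * Jm α β * g.conjTranspose = Jm α β) ∧
  (∀ g : Matrix (α ⊕ β) (α ⊕ β) ℂ, IsU g → ∀ x y : Ix α β μ → ℂ, E (act g x) (act g y) = E x y)

/-- [UAl] the action on the domain -/
def St_UAl : Prop := ∀ (α β μ : Type) [Fintype α] [Fintype β] [Fintype μ] [DecidableEq α]
  [DecidableEq β] [DecidableEq μ] (g : Matrix (α ⊕ β) (α ⊕ β) ℂ), IsU g → ∀ w ∈ Om α β,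
  mob g w ∈ Om α β ∧ IsUnit (cd g w).det ∧ IsUnit (ca g w).det ∧
  (ca g w).det * (cd g w).det = g.det ∧
  (∀ x : Ix α β μ → ℂ, Uw (mob g w) (act g x) = Cm g w (Uw w x)) ∧
  (∀ x : Ix α β μ → ℂ, H (act g x) (act g x) -
      2 * qf (mt (mob g w)) (star (act g x)) (star (act g x)) =
    H x x - 2 * qf (mt w) (star x) (star x) + 2 * qf (Mq g w) (Uw w x) (Uw w x)) ∧
  (∀ h x : Ix α β μ → ℂ, ∑ p, Cm g w h p * conj (act g x p) =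
    ∑ p, h p * conj (x p) + qf (Mq g w) h (Uw w x) + qf (Mq g w) (Uw w x) h) ∧
  ∀ h : Matrix (α ⊕ β) (α ⊕ β) ℂ, IsU h → mob (h * g) w = mob h (mob g w)

/-- [UTr] transitivity -/
def St_UTr : Prop := ∀ (α β : Type) [Fintype α] [Fintype β] [DecidableEq α] [DecidableEq β],
  ∀ w ∈ Om α β, ∃ g : Matrix (α ⊕ β) (α ⊕ β) ℂ, IsU g ∧ mob g 0 = w

/-- [OmT] the topology of the domain -/
def St_OmT : Prop := ∀ (α β : Type) [Fintype α] [Fintype β] [DecidableEq α] [DecidableEq β],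
  IsOpen (Om α β) ∧ Convex ℝ (Om α β) ∧ 0 ∈ Om α β ∧
  (∀ ρ : ℝ, 0 ≤ ρ → ρ < 1 → IsCompact (OmC α β ρ) ∧ OmC α β ρ ⊆ Om α β) ∧
  (∀ w ∈ Om α β, ∃ ρ : ℝ, 0 ≤ ρ ∧ ρ < 1 ∧ OmC α β ρ ∈ nhds w) ∧
  ∀ (μ : Type) [Fintype μ] [DecidableEq μ], ∀ w ∈ Om α β,
    Function.Bijective (Uw w : (Ix α β μ → ℂ) → Ix α β μ → ℂ)

/-! ## Integrals -/

/-- [HolP] holomorphic parameter integrals -/
def St_HolP : Prop := ∀ (ι κ : Type) [Fintype ι] [DecidableEq ι] [Fintype κ] (U : Set (ι → ℂ))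
  (f : (ι → ℂ) → (κ → ℂ) → ℂ), IsOpen U →
  Continuous (fun p : (ι → ℂ) × (κ → ℂ) => f p.1 p.2) →
  (∀ ξ, Differentiable ℂ fun z => f z ξ) →
  (∀ z₀ ∈ U, ∃ (δ : ℝ) (B : (κ → ℂ) → ℝ), 0 < δ ∧ MeasureTheory.Integrable B ∧
    ∀ z, ‖z - z₀‖ < δ → ∀ ξ, ‖f z ξ‖ ≤ B ξ) →
  DifferentiableOn ℂ (fun z => ∫ ξ, f z ξ) U ∧
  ∀ z ∈ U, ∀ j, MeasureTheory.Integrable (fun ξ => pd j (fun z => f z ξ) z) ∧
    pd j (fun z => ∫ ξ, f z ξ) z = ∫ ξ, pd j (fun z => f z ξ) z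

/-- [Gau] Gaussian integrals -/
def St_Gau : Prop := ∀ (κ : Type) [Fintype κ],
  (∀ c : ℝ, 0 < c → MeasureTheory.Integrable fun ξ : κ → ℂ =>
    Real.exp (-(c * ∑ p, ‖ξ p‖ ^ 2))) ∧
  (∀ c A : ℝ, 0 < c → ∃ C : ℝ, 0 < C ∧ ∀ ξ : κ → ℂ,
    (1 + ∑ p, ‖ξ p‖) * Real.exp (A * ∑ p, ‖ξ p‖ - c * ∑ p, ‖ξ p‖ ^ 2) ≤
      C * Real.exp (-(c / 2 * ∑ p, ‖ξ p‖ ^ 2))) ∧
  (∀ ξ : κ → ℂ, ‖gw ξ‖ = Real.exp (-(Real.pi * ∑ p, ‖ξ p‖ ^ 2))) ∧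
  (∫ ξ : κ → ℂ, gw ξ) = 1

/-- [EllI] Gaussian bounds for the integrand -/
def St_EllI : Prop := ∀ (α β μ : Type) [Fintype α] [Fintype β] [Fintype μ] [DecidableEq α]
  [DecidableEq β] [DecidableEq μ] (G : (Ix α β μ → ℂ) → ℂ), Gro G → ∀ ρ : ℝ, 0 ≤ ρ → ρ < 1 →
  ∃ C c : ℝ, 0 < C ∧ 0 < c ∧ ∀ w ∈ OmC α β ρ, ∀ ξ : β × μ → ℂ,
    ‖G (emb w ξ) * gw ξ‖ ≤ C * Real.exp (-(c * ∑ p, ‖ξ p‖ ^ 2))

/-- [EllH] derivatives of the Fock functional under the integral sign -/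
def St_EllH : Prop := ∀ (α β μ : Type) [Fintype α] [Fintype β] [Fintype μ] [DecidableEq α]
  [DecidableEq β] [DecidableEq μ] (G : (Ix α β μ → ℂ) → ℂ), Gro G →
  DifferentiableOn ℂ (fun w => ell w G) (Om α β) ∧
  ∀ w ∈ Om α β, ∀ i j, pd (i, j) (fun w => ell w G) w =
    ∑ k : μ, ∫ ξ : β × μ → ℂ, conj (ξ (j, k)) * (pd (Sum.inl i, k) G (emb w ξ) * gw ξ)

/-- [EllB] integration by parts -/
def St_EllB : Prop := ∀ (α β μ : Type) [Fintype α] [Fintype β] [Fintype μ] [DecidableEq α]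
  [DecidableEq β] [DecidableEq μ] (G : (Ix α β μ → ℂ) → ℂ), Gro G → ∀ w ∈ Om α β,
  ∀ q : β × μ,
  (∫ ξ : β × μ → ℂ, conj (ξ q) * (G (emb w ξ) * gw ξ)) =
    1 / Real.pi * ell w (pd (Sum.inr q.1, q.2) G) ∧
  (∫ ξ : β × μ → ℂ, ξ q * (G (emb w ξ) * gw ξ)) =
    1 / Real.pi * ∑ i, w (i, q.1) * ell w (pd (Sum.inl i, q.2) G)

/-- [EllZ] the mean value property -/
def St_EllZ : Prop := ∀ (α β μ : Type) [Fintype α] [Fintype β] [Fintype μ] [DecidableEq α]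
  [DecidableEq β] [DecidableEq μ] (G : (Ix α β μ → ℂ) → ℂ), Gro G → ell 0 G = G 0

/-- [Ell] the properties of the Fock functional -/
def St_Ell : Prop := ∀ (α β μ : Type) [Fintype α] [Fintype β] [Fintype μ] [DecidableEq α]
  [DecidableEq β] [DecidableEq μ] (G : (Ix α β μ → ℂ) → ℂ), Gro G →
  DifferentiableOn ℂ (fun w => ell w G) (Om α β) ∧ ell 0 G = G 0 ∧
  ∀ w ∈ Om α β,
    (∀ p, pd p (fun w => ell w G) w = 1 / Real.pi * ell w (Dij p G)) ∧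
    (∀ i k, ell w (fun v => v (Sum.inl i, k) * G v) =
      1 / Real.pi * ∑ j, w (i, j) * ell w (pd (Sum.inr j, k) G)) ∧
    (∀ j k, ell w (fun v => v (Sum.inr j, k) * G v) =
      1 / Real.pi * ∑ i, w (i, j) * ell w (pd (Sum.inl i, k) G)) ∧
    (∀ c : ℂ, ell w (fun v => c * G v) = c * ell w G) ∧
    ∀ G', Gro G' → ell w (fun v => G v + G' v) = ell w G + ell w G'

/-! ## Fock vectors -/

/-- [PsiC] closed formula -/
def St_PsiC : Prop := ∀ (α β μ : Type) [Fintype α] [Fintype β] [Fintype μ] [DecidableEq α]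
  [DecidableEq β] [DecidableEq μ] (θ : (Ix α β μ → ℂ) → ℂ) (w : α × β → ℂ)
  (x : Ix α β μ → ℂ), psi θ w x = ex w x * Phi θ w (Uw w x)

/-- [PsiE] -/
def St_PsiE : Prop := ∀ (α β μ : Type) [Fintype α] [Fintype β] [Fintype μ] [DecidableEq α]
  [DecidableEq β] [DecidableEq μ] (L : Submodule ℤ (Ix α β μ → ℂ))
  (χ θ : (Ix α β μ → ℂ) → ℂ), PLat L χ → IsTh L χ θ → ∀ w ∈ Om α β,
  Differentiable ℂ (Phi θ w)

/-- [PsiD] the derivatives -/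
def St_PsiD : Prop := ∀ (α β μ : Type) [Fintype α] [Fintype β] [Fintype μ] [DecidableEq α]
  [DecidableEq β] [DecidableEq μ] (L : Submodule ℤ (Ix α β μ → ℂ))
  (χ θ : (Ix α β μ → ℂ) → ℂ), PLat L χ → IsTh L χ θ → ∀ w ∈ Om α β,
  ∀ (x : Ix α β μ → ℂ) (p : Ix α β μ), dpsi p θ w x =
    ex w x * (pd p (Phi θ w) (Uw w x) - Real.pi * conj (x p) * Phi θ w (Uw w x))

/-- [PsiL] quasi-periodicity -/
def St_PsiL : Prop := ∀ (α β μ : Type) [Fintype α] [Fintype β] [Fintype μ] [DecidableEq α]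
  [DecidableEq β] [DecidableEq μ] (L : Submodule ℤ (Ix α β μ → ℂ))
  (χ θ : (Ix α β μ → ℂ) → ℂ), PLat L χ → IsTh L χ θ → ∀ w, ∀ l ∈ L, ∀ x,
  psi θ w (x + l) = χ l * Complex.exp (Real.pi * Complex.I * E x l) * psi θ w x ∧
  ∀ p, dpsi p θ w (x + l) = χ l * Complex.exp (Real.pi * Complex.I * E x l) * dpsi p θ w x

/-- [PsiT] the Fock vector at `g 0` is a theta function for the lattice `g⁻¹ L` -/
def St_PsiT : Prop := ∀ (α β μ : Type) [Fintype α] [Fintype β] [Fintype μ] [DecidableEq α]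
  [DecidableEq β] [DecidableEq μ] (g : Matrix (α ⊕ β) (α ⊕ β) ℂ)
  (L L' : Submodule ℤ (Ix α β μ → ℂ)) (χ χ' θ : (Ix α β μ → ℂ) → ℂ), PLat L χ →
  IsTh L χ θ → Maps g L' L χ' χ →
  IsTh L' χ' fun u => psi θ (mob g 0) (act g u) * Complex.exp (Real.pi / 2 * H u u)

/-- [MapE] transport of lattices -/
def St_MapE : Prop := ∀ (α β μ : Type) [Fintype α] [Fintype β] [Fintype μ] [DecidableEq α]
  [DecidableEq β] [DecidableEq μ] (g : Matrix (α ⊕ β) (α ⊕ β) ℂ)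
  (L : Submodule ℤ (Ix α β μ → ℂ)) (χ : (Ix α β μ → ℂ) → ℂ), IsU g → PLat L χ →
  ∃ (L' : Submodule ℤ (Ix α β μ → ℂ)) (χ' : (Ix α β μ → ℂ) → ℂ), PLat L' χ' ∧
    Maps g L' L χ' χ

/-- [PsiN] the Fock vectors are not zero -/
def St_PsiN : Prop := ∀ (α β μ : Type) [Fintype α] [Fintype β] [Fintype μ] [DecidableEq α]
  [DecidableEq β] [DecidableEq μ] (L : Submodule ℤ (Ix α β μ → ℂ))
  (χ θ : (Ix α β μ → ℂ) → ℂ), PLat L χ → IsTh L χ θ → (∃ v, θ v ≠ 0) → ∀ w ∈ Om α β,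
  ∃ x, psi θ w x ≠ 0

/-- [PsiJ] joint continuity -/
def St_PsiJ : Prop := ∀ (α β μ : Type) [Fintype α] [Fintype β] [Fintype μ] [DecidableEq α]
  [DecidableEq β] [DecidableEq μ] (L : Submodule ℤ (Ix α β μ → ℂ))
  (χ θ : (Ix α β μ → ℂ) → ℂ), PLat L χ → IsTh L χ θ →
  ContinuousOn (fun p : (α × β → ℂ) × (Ix α β μ → ℂ) => psi θ p.1 p.2)
    (Om α β ×ˢ Set.univ) ∧
  ∀ q, ContinuousOn (fun p : (α × β → ℂ) × (Ix α β μ → ℂ) => dpsi q θ p.1 p.2)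
    (Om α β ×ˢ Set.univ)

/-- [EquP] equivariance of `psi` -/
def St_EquP : Prop := ∀ (α β μ : Type) [Fintype α] [Fintype β] [Fintype μ] [DecidableEq α]
  [DecidableEq β] [DecidableEq μ] (g : Matrix (α ⊕ β) (α ⊕ β) ℂ)
  (L₀ L₁ : Submodule ℤ (Ix α β μ → ℂ)) (χ₀ θ₀ χ₁ θ₁ : (Ix α β μ → ℂ) → ℂ),
  PLat L₀ χ₀ → PLat L₁ χ₁ → IsTh L₀ χ₀ θ₀ → IsTh L₁ χ₁ θ₁ → (∃ v, θ₀ v ≠ 0) →
  (∃ v, θ₁ v ≠ 0) → Maps g L₁ L₀ χ₁ χ₀ → ∀ w ∈ Om α β, ∃ j : ℂ, j ≠ 0 ∧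
    ∀ x, psi θ₀ (mob g w) (act g x) = j * psi θ₁ w x

/-- [EquD] equivariance of the derivatives -/
def St_EquD : Prop := ∀ (α β μ : Type) [Fintype α] [Fintype β] [Fintype μ] [DecidableEq α]
  [DecidableEq β] [DecidableEq μ] (g : Matrix (α ⊕ β) (α ⊕ β) ℂ)
  (L₀ L₁ : Submodule ℤ (Ix α β μ → ℂ)) (χ₀ θ₀ χ₁ θ₁ : (Ix α β μ → ℂ) → ℂ),
  PLat L₀ χ₀ → PLat L₁ χ₁ → IsTh L₀ χ₀ θ₀ → IsTh L₁ χ₁ θ₁ → IsU g → ∀ w ∈ Om α β,
  ∀ j : ℂ, (∀ x, psi θ₀ (mob g w) (act g x) = j * psi θ₁ w x) →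
  ∀ h x, Dpsi (Cm g w h) θ₀ (mob g w) (act g x) = j * Dpsi h θ₁ w x

/-- [Equi] equivariance of the determinants -/
def St_Equi : Prop := ∀ (α β μ : Type) [Fintype α] [Fintype β] [Fintype μ] [DecidableEq α]
  [DecidableEq β] [DecidableEq μ] (g : Matrix (α ⊕ β) (α ⊕ β) ℂ)
  (L₀ L₁ : Submodule ℤ (Ix α β μ → ℂ)) (χ₀ θ₀ χ₁ θ₁ : (Ix α β μ → ℂ) → ℂ),
  PLat L₀ χ₀ → PLat L₁ χ₁ → IsTh L₀ χ₀ θ₀ → IsTh L₁ χ₁ θ₁ → (∃ v, θ₀ v ≠ 0) →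
  (∃ v, θ₁ v ≠ 0) → Maps g L₁ L₀ χ₁ χ₀ → ∀ w ∈ Om α β, ∃ j mp mm : ℂ, j ≠ 0 ∧ mp ≠ 0 ∧
    mm ≠ 0 ∧ mp = g.det * mm ∧ (∀ x, psi θ₀ (mob g w) (act g x) = j * psi θ₁ w x) ∧
    (∀ k x, mp * fp k θ₀ (mob g w) (fun b => act g (x b)) =
      j ^ Fintype.card α * fp k θ₁ w x) ∧
    ∀ k x, mm * fm k θ₀ (mob g w) (fun b => act g (x b)) = j ^ Fintype.card β * fm k θ₁ w x

/-- [NonM] the determinants are not identically zero -/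
def St_NonM : Prop := ∀ (α β μ : Type) [Fintype α] [Fintype β] [Fintype μ] [DecidableEq α]
  [DecidableEq β] [DecidableEq μ] (L : Submodule ℤ (Ix α β μ → ℂ))
  (χ θ : (Ix α β μ → ℂ) → ℂ), PLat L χ → IsTh L χ θ → (∃ v, θ v ≠ 0) → ∀ w ∈ Om α β,
  ∀ k, ∃ x, fm k θ w x ≠ 0

/-- [Sup] the suprema depend continuously on `w` -/
def St_Sup : Prop := ∀ (α β μ : Type) [Fintype α] [Fintype β] [Fintype μ] [DecidableEq α]
  [DecidableEq β] [DecidableEq μ] (L : Submodule ℤ (Ix α β μ → ℂ))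
  (χ θ : (Ix α β μ → ℂ) → ℂ), PLat L χ → IsTh L χ θ → (∃ v, θ v ≠ 0) →
  (∃ N : (α × β → ℂ) → ℝ, ContinuousOn N (Om α β) ∧
    ∀ w ∈ Om α β, IsLUB (Set.range fun x => ‖psi θ w x‖) (Real.exp (N w))) ∧
  ∀ k, ∃ N : (α × β → ℂ) → ℝ, ContinuousOn N (Om α β) ∧
    ∀ w ∈ Om α β, IsLUB (Set.range fun x => ‖fm k θ w x‖) (Real.exp (N w))

/-! ## Derivations -/

/-- [EllW] Taylor coefficients of the Fock functional -/
def St_EllW : Prop := ∀ (α β μ : Type) [Fintype α] [Fintype β] [Fintype μ] [DecidableEq α]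
  [DecidableEq β] [DecidableEq μ] (G : (Ix α β μ → ℂ) → ℂ), Gro G → ∀ l : List (α × β),
  pdl l (fun w => ell w G) 0 = (1 / Real.pi : ℂ) ^ l.length * Dw l G 0

/-- Rules for `IsDelG`. -/
structure DelGRules (κ : Type) [Fintype κ] [DecidableEq κ] (δ : Derivation ℚ ℂ ℂ) : Prop where
  const : ∀ c : ℂ, IsDelG δ (fun _ : κ → ℂ => c) (fun _ => δ c)
  add : ∀ a a' b b' : (κ → ℂ) → ℂ, IsDelG δ a a' → IsDelG δ b b' →
    IsDelG δ (fun v => a v + b v) (fun v => a' v + b' v)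
  mul : ∀ a a' b b' : (κ → ℂ) → ℂ, IsDelG δ a a' → IsDelG δ b b' →
    IsDelG δ (fun v => a v * b v) (fun v => a' v * b v + a v * b' v)
  poly : ∀ (τ : Type) [Fintype τ] [DecidableEq τ] (P : MvPolynomial τ ℂ)
    (f f' : τ → (κ → ℂ) → ℂ), (∀ i, IsDelG δ (f i) (f' i)) →
    IsDelG δ (fun z => MvPolynomial.eval (fun i => f i z) P)
      (fun z => ∑ m ∈ P.support, δ (P.coeff m) * MvPolynomial.eval (fun i => f i z)
        (MvPolynomial.monomial m 1) +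
        ∑ i, MvPolynomial.eval (fun i => f i z) (MvPolynomial.pderiv i P) * f' i z)
  uniq : ∀ a b a' b' : (κ → ℂ) → ℂ, IsDelG δ a b → IsDelG δ a' b' → (∀ᶠ z in nhds 0, a z = a' z) →
    ∀ᶠ z in nhds 0, b z = b' z

/-- [DelGR] -/
def St_DelGR : Prop := ∀ (κ : Type) [Fintype κ] [DecidableEq κ] (δ : Derivation ℚ ℂ ℂ),
  DelGRules κ δ

/-- [DelE] `δ` and the Fock functional -/
def St_DelE : Prop := ∀ (α β μ : Type) [Fintype α] [Fintype β] [Fintype μ] [DecidableEq α]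
  [DecidableEq β] [DecidableEq μ] (δ : Derivation ℚ ℂ ℂ) (G G' : (Ix α β μ → ℂ) → ℂ),
  Gro G → Gro G' → IsDel δ G G' →
  IsDelG δ (fun w => ell w G) (fun w => ell w G' -
    δ Real.pi / Real.pi * ∑ p, w p * pd p (fun w => ell w G) w)

/-- The vector field of the operator `hop`. -/
noncomputable def xi {α β : Type} [Fintype α] [Fintype β] (Bp : Matrix α α ℂ)
    (Bm : Matrix β β ℂ) (c : Matrix α β ℂ) (w : α × β → ℂ) (p : α × β) : ℂ :=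
  ∑ i, Bp p.1 i * w (i, p.2) + ∑ j, Bm p.2 j * w (p.1, j) +
    1 / Real.pi * ∑ i, ∑ j, c i j * w (i, p.2) * w (p.1, j)

/-- [HatE] the operator `hop` and the Fock functional -/
def St_HatE : Prop := ∀ (α β μ : Type) [Fintype α] [Fintype β] [Fintype μ] [DecidableEq α]
  [DecidableEq β] [DecidableEq μ] (k : ℂ) (Bp : Matrix α α ℂ) (Bm : Matrix β β ℂ)
  (c : Matrix α β ℂ) (G : (Ix α β μ → ℂ) → ℂ), Gro G → Gro (hop k Bp Bm c G) ∧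
  ∀ w ∈ Om α β, ell w (hop k Bp Bm c G) =
    (k + Fintype.card μ / Real.pi * ∑ i, ∑ j, c i j * w (i, j)) * ell w G +
      ∑ p, xi Bp Bm c w p * pd p (fun w => ell w G) w

/-- [DelX] the action of `δ` on the functions `XF` -/
def St_DelX : Prop := ∀ (α β μ : Type) [Fintype α] [Fintype β] [Fintype μ] [DecidableEq α]
  [DecidableEq β] [DecidableEq μ] (δ : Derivation ℚ ℂ ℂ) (L : Submodule ℤ (Ix α β μ → ℂ))
  (χ θ : (Ix α β μ → ℂ) → ℂ) (k : ℂ) (Bp : Matrix α α ℂ) (Bm : Matrix β β ℂ)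
  (c : Matrix α β ℂ) (e : ℕ) (k₀ : μ), PLat L χ → IsTh L χ θ → HasHat δ L θ k Bp Bm c →
  ∃ (K : (α × β → ℂ) → ℂ) (Ξ : α × β → (α × β → ℂ) → ℂ),
    ∀ (y : Option (α × β) → Ix α β μ → ℂ) (x : α → Ix α β μ → ℂ) (x' : β → Ix α β μ → ℂ),
    (∀ i, OddTor L (y i)) → (∀ i, OddTor L (x i)) → (∀ i, OddTor L (x' i)) →
    ∀ o, IsDelG δ (fun w => XF e k₀ θ y x x' w o) (fun w =>
      (K w + if o = none then e * Bp.trace else e * Bm.trace) * XF e k₀ θ y x x' w o +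
        ∑ p, Ξ p w * pd p (fun w => XF e k₀ θ y x x' w o) w)

/-- [DelPG] `δ` applied to a homogeneous relation -/
def St_DelPG : Prop := ∀ (κ τ : Type) [Fintype κ] [DecidableEq κ] [Fintype τ] [DecidableEq τ]
  (δ : Derivation ℚ ℂ ℂ) (f : Option τ → (κ → ℂ) → ℂ) (K : (κ → ℂ) → ℂ)
  (Ξ : κ → (κ → ℂ) → ℂ) (a b : ℂ) (m : ℕ) (P : MvPolynomial (Option τ) ℂ),
  P.IsHomogeneous m →
  (∀ o, IsDelG δ (f o) (fun z => (K z + if o = none then a else b) * f o z +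
    ∑ p, Ξ p z * pd p (f o) z)) →
  (∀ᶠ z in nhds 0, MvPolynomial.eval (fun i => f i z) P = 0) →
  ∀ᶠ z in nhds 0, (∑ m ∈ P.support, δ (P.coeff m) * MvPolynomial.eval (fun i => f i z)
      (MvPolynomial.monomial m 1)) +
    (a - b) * (f none z * MvPolynomial.eval (fun i => f i z) (MvPolynomial.pderiv none P)) = 0

/-! ## The algebraic relation -/

/-- [DetPt] points at which finitely many linearly independent functions have non zero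
determinant -/
def St_DetPt : Prop := ∀ (X κ : Type) [Fintype κ] [DecidableEq κ] (D : Set X)
  (f : κ → X → ℂ), (∀ c : κ → ℂ, c ≠ 0 → ∃ x ∈ D, ∑ i, c i * f i x ≠ 0) →
  ∃ x : κ → X, (∀ i, x i ∈ D) ∧ (Matrix.of fun i j : κ => f j (x i)).det ≠ 0

/-- [Ind3] independence of `1` and the second order operators `D_ij` -/
def St_Ind3 : Prop := ∀ (α β μ : Type) [Fintype α] [Fintype β] [Fintype μ] [DecidableEq α]
  [DecidableEq β] [DecidableEq μ] (L : Submodule ℤ (Ix α β μ → ℂ))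
  (χ θ : (Ix α β μ → ℂ) → ℂ), Nonempty μ → PLat L χ → IsTh L χ θ → (∃ v, θ v ≠ 0) →
  ∀ (c : ℂ) (b : α × β → ℂ), ¬ (c = 0 ∧ b = 0) → ∃ x, OddTor L x ∧
    c * F θ x 0 + ∑ p, b p * Dij p (F θ x) 0 ≠ 0

/-- [Pts] choice of the points of odd order -/
def St_Pts : Prop := ∀ (α β μ : Type) [Fintype α] [Fintype β] [Fintype μ] [DecidableEq α]
  [DecidableEq β] [DecidableEq μ] (L : Submodule ℤ (Ix α β μ → ℂ))
  (χ θ : (Ix α β μ → ℂ) → ℂ) (k : μ), PLat L χ → IsTh L χ θ → (∃ v, θ v ≠ 0) →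
  ∃ (y : Option (α × β) → Ix α β μ → ℂ) (x : α → Ix α β μ → ℂ) (x' : β → Ix α β μ → ℂ),
    (∀ i, OddTor L (y i)) ∧ (∀ i, OddTor L (x i)) ∧ (∀ i, OddTor L (x' i)) ∧
    psi θ 0 (y none) ≠ 0 ∧ fp k θ 0 x ≠ 0 ∧ fm k θ 0 x' ≠ 0 ∧
    (Matrix.of fun i j : Option (α × β) =>
      Option.elim j (F θ (y i) 0) fun p => Dij p (F θ (y i)) 0).det ≠ 0

/-- [HomI] homogeneous algebraic independence -/
def St_HomI : Prop := ∀ (κ : Type) [Fintype κ] [DecidableEq κ]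
  (f : Option κ → (κ → ℂ) → ℂ), (∀ i, AnalyticAt ℂ (f i) 0) →
  (Matrix.of fun i j : Option κ => Option.elim j (f i 0) fun p => pd p (f i) 0).det ≠ 0 →
  ∀ (m : ℕ) (P : MvPolynomial (Option κ) ℂ), P.IsHomogeneous m →
    (∀ᶠ z in nhds (0 : κ → ℂ), MvPolynomial.eval (fun i => f i z) P = 0) → P = 0

/-- [MinP] a relation of minimal degree in the last variable -/
def St_MinP : Prop := ∀ (X τ : Type) [Fintype τ] [DecidableEq τ] (f : Option τ → X → ℂ)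
  (D : Set X),
  (∀ (m : ℕ) (P : MvPolynomial τ ℂ), P.IsHomogeneous m →
    (∀ z ∈ D, MvPolynomial.eval (fun i : τ => f (some i) z) P = 0) → P = 0) →
  (∃ (m : ℕ) (P : MvPolynomial (Option τ) ℂ), P ≠ 0 ∧ P.IsHomogeneous m ∧
    ∀ z ∈ D, MvPolynomial.eval (fun i => f i z) P = 0) →
  ∃ (m : ℕ) (P : MvPolynomial (Option τ) ℂ), P.IsHomogeneous m ∧
    (∀ z ∈ D, MvPolynomial.eval (fun i => f i z) P = 0) ∧
    ∃ z ∈ D, MvPolynomial.eval (fun i => f i z) (MvPolynomial.pderiv none P) ≠ 0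

/-- [GamI] invariance under the congruence subgroup -/
def St_GamI : Prop := ∀ (α β μ : Type) [Fintype α] [Fintype β] [Fintype μ] [DecidableEq α]
  [DecidableEq β] [DecidableEq μ] (g : Matrix (α ⊕ β) (α ⊕ β) ℂ)
  (L : Submodule ℤ (Ix α β μ → ℂ)) (χ θ : (Ix α β μ → ℂ) → ℂ) (n e : ℕ) (k : μ)
  (y : Option (α × β) → Ix α β μ → ℂ) (x : α → Ix α β μ → ℂ) (x' : β → Ix α β μ → ℂ),
  PLat L χ → IsTh L χ θ → (∃ v, θ v ≠ 0) → (∀ i, (n : ℤ) • y i ∈ L) →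
  (∀ i, (n : ℤ) • x i ∈ L) → (∀ i, (n : ℤ) • x' i ∈ L) → n ≠ 0 → IsU g → g.det ^ e = 1 →
  (∀ x : Ix α β μ → ℂ, x ∈ L ↔ act g x ∈ L) →
  (∀ l ∈ L, ∃ m ∈ L, act g l = l + ((2 * n ^ 2 : ℕ) : ℤ) • m) →
  ∀ w ∈ Om α β, ∃ j mm : ℂ, j ≠ 0 ∧ mm ≠ 0 ∧
    (∀ t, psi θ (mob g w) (act g t) = j * psi θ w t) ∧
    (∀ t, mm * fm k θ (mob g w) (fun b => act g (t b)) = j ^ Fintype.card β * fm k θ w t) ∧
    ∀ o, mm ^ e * XF e k θ y x x' (mob g w) o =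
      j ^ (1 + e * (Fintype.card α + Fintype.card β)) * XF e k θ y x x' w o

/-- [SieR] existence of an algebraic relation -/
def St_SieR : Prop := ∀ (α β μ : Type) [Fintype α] [Fintype β] [Fintype μ] [DecidableEq α]
  [DecidableEq β] [DecidableEq μ] (L : Submodule ℤ (Ix α β μ → ℂ))
  (χ θ : (Ix α β μ → ℂ) → ℂ) (e : ℕ) (k : μ)
  (y : Option (α × β) → Ix α β μ → ℂ) (x : α → Ix α β μ → ℂ) (x' : β → Ix α β μ → ℂ),
  PLat L χ → IsTh L χ θ → (∃ v, θ v ≠ 0) → Coc e L → (∀ i, OddTor L (y i)) →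
  (∀ i, OddTor L (x i)) → (∀ i, OddTor L (x' i)) →
  ∃ (m : ℕ) (P : MvPolynomial (Option (Option (α × β))) ℂ), P ≠ 0 ∧ P.IsHomogeneous m ∧
    ∀ w ∈ Om α β, MvPolynomial.eval (fun i => XF e k θ y x x' w i) P = 0

/-- [Rel] the algebraic relation -/
def St_Rel : Prop := ∀ (α β μ : Type) [Fintype α] [Fintype β] [Fintype μ] [DecidableEq α]
  [DecidableEq β] [DecidableEq μ] (L : Submodule ℤ (Ix α β μ → ℂ))
  (χ θ : (Ix α β μ → ℂ) → ℂ) (e : ℕ) (k : μ)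
  (y : Option (α × β) → Ix α β μ → ℂ) (x : α → Ix α β μ → ℂ) (x' : β → Ix α β μ → ℂ),
  PLat L χ → IsTh L χ θ → (∃ v, θ v ≠ 0) → Coc e L → (∀ i, OddTor L (y i)) →
  (∀ i, OddTor L (x i)) → (∀ i, OddTor L (x' i)) → psi θ 0 (y none) ≠ 0 →
  fp k θ 0 x ≠ 0 → fm k θ 0 x' ≠ 0 →
  (Matrix.of fun i j : Option (α × β) =>
    Option.elim j (F θ (y i) 0) fun p => Dij p (F θ (y i)) 0).det ≠ 0 →
  ∃ (m : ℕ) (P : MvPolynomial (Option (Option (α × β))) ℂ), P.IsHomogeneous m ∧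
    (∀ w ∈ Om α β, MvPolynomial.eval (fun i => XF e k θ y x x' w i) P = 0) ∧
    ∃ w ∈ Om α β, MvPolynomial.eval (fun i => XF e k θ y x x' w i)
      (MvPolynomial.pderiv none P) ≠ 0

/-- [Core] the core theorem: the difference of the traces is the same at all points of the
domain at which `δ` acts by operators `hop` -/
def St_Core : Prop := ∀ (α β μ : Type) [Fintype α] [Fintype β] [Fintype μ] [DecidableEq α]
  [DecidableEq β] [DecidableEq μ] (δ : Derivation ℚ ℂ ℂ) (g : Matrix (α ⊕ β) (α ⊕ β) ℂ)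
  (L₀ L₁ : Submodule ℤ (Ix α β μ → ℂ)) (χ₀ θ₀ χ₁ θ₁ : (Ix α β μ → ℂ) → ℂ)
  (e : ℕ) (k₀ k₁ : ℂ) (Bp₀ Bp₁ : Matrix α α ℂ) (Bm₀ Bm₁ : Matrix β β ℂ)
  (c₀ c₁ : Matrix α β ℂ), Nonempty μ → e ≠ 0 → PLat L₀ χ₀ → PLat L₁ χ₁ → IsTh L₀ χ₀ θ₀ →
  IsTh L₁ χ₁ θ₁ → (∃ v, θ₀ v ≠ 0) → (∃ v, θ₁ v ≠ 0) → Maps g L₁ L₀ χ₁ χ₀ → δ g.det = 0 →
  Coc e L₀ → HasHat δ L₀ θ₀ k₀ Bp₀ Bm₀ c₀ → HasHat δ L₁ θ₁ k₁ Bp₁ Bm₁ c₁ →
  Bp₀.trace - Bm₀.trace = Bp₁.trace - Bm₁.trace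

end PST
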