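import Mathlib
import Pool.Agent.PST.StF
import Pool.Agent.GAM.Bas

/-!
# PST / GamI: invariance under the congruence subgroup

Module of helper86, written by helper73.
-/

set_option autoImplicit false

namespace PST

open scoped ComplexConjugate
open GAM (H E F pd pdl PLat IsTh OddTor IsDel Gro IsLat)

private theorem GamI_zsmul (h1 : St_UGr) {α β μ : Type} [Fintype α] [Fintype β] [Fintype μ]
    [DecidableEq α] [DecidableEq β] [DecidableEq μ] (g : Matrix (α ⊕ β) (α ⊕ β) ℂ) (n : ℤ)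
    (x : Ix α β μ → ℂ) : act g (n • x) = n • act g x := by
  have e : ∀ y : Ix α β μ → ℂ, n • y = ((n : ℝ) : ℂ) • y := by
    intro y
    rw [← Int.cast_smul_eq_zsmul ℂ n y]
    congr 1
  rw [e, e]
  exact ((h1 α β μ).2.2.2.1 g x x n).2

/-- an element of order `n` is moved by an element of `2 n L` -/
private theorem GamI_move (h1 : St_UGr) {α β μ : Type} [Fintype α] [Fintype β] [Fintype μ]
    [DecidableEq α] [DecidableEq β] [DecidableEq μ] {g : Matrix (α ⊕ β) (α ⊕ β) ℂ}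
    {L : Submodule ℤ (Ix α β μ → ℂ)} {n : ℕ} (hn : n ≠ 0)
    (hg : ∀ l ∈ L, ∃ m ∈ L, act g l = l + ((2 * n ^ 2 : ℕ) : ℤ) • m)
    {t : Ix α β μ → ℂ} (ht : (n : ℤ) • t ∈ L) :
    ∃ m ∈ L, act g t = t + ((n : ℤ) • m + (n : ℤ) • m) := by
  obtain ⟨m, hm, h⟩ := hg _ ht
  refine ⟨m, hm, ?_⟩
  rw [GamI_zsmul h1] at h
  have hn' : (n : ℤ) ≠ 0 := by exact_mod_cast hn
  apply smul_right_injective (Ix α β μ → ℂ) hn'
  simp only
  rw [h, smul_add, ← add_smul, smul_smul]
  congr 2
  push_cast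
  ring

/-- translation by `2 n m` does nothing at points of order `n` -/
private theorem GamI_fac {α β μ : Type} [Fintype α] [Fintype β] [Fintype μ]
    [DecidableEq α] [DecidableEq β] [DecidableEq μ]
    {L : Submodule ℤ (Ix α β μ → ℂ)} {χ : (Ix α β μ → ℂ) → ℂ} (hL : PLat L χ) {n : ℕ}
    {t m : Ix α β μ → ℂ} (ht : (n : ℤ) • t ∈ L) (hm : m ∈ L) :
    χ ((n : ℤ) • m + (n : ℤ) • m) *
      Complex.exp (Real.pi * Complex.I * E t ((n : ℤ) • m + (n : ℤ) • m)) = 1 := by
  rw [hL.chi_two (L.smul_mem _ hm), one_mul, GAM.E_add_right, GAM.E_zsmul_right,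
    ← GAM.E_zsmul_left]
  rw [← GAM.exp_two_pi_int (hL.int _ ht _ hm)]
  congr 1
  push_cast
  ring

theorem thm_GamI (h1 : St_UGr) (_h2 : St_UAl) (h3 : St_Equi) (h4 : St_PsiL) : St_GamI := by
  intro α β μ _ _ _ _ _ _ g L χ θ n e k y x x' hL hθ hne hy hx hx' hn hU hdet hgL hg w hw
  have hM : Maps g L L χ χ := by
    refine ⟨hU, hgL, ?_⟩
    intro l hl
    obtain ⟨m, hm, h⟩ := hg l hl
    have e : ((2 * n ^ 2 : ℕ) : ℤ) • m = ((n ^ 2 : ℕ) : ℤ) • m + ((n ^ 2 : ℕ) : ℤ) • m := by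
      rw [← add_smul]
      congr 1
      push_cast
      ring
    rw [h, e]
    exact hL.chi_add_two hl (L.smul_mem _ hm)
  obtain ⟨j, mp, mm, hj, -, hmm, hmp, e1, e2, e3⟩ :=
    h3 α β μ g L L χ θ χ θ hL hL hθ hθ hne hne hM w hw
  have key : ∀ (t : Ix α β μ → ℂ), (n : ℤ) • t ∈ L → ∀ w' : α × β → ℂ,
      psi θ w' (act g t) = psi θ w' t ∧ ∀ p, dpsi p θ w' (act g t) = dpsi p θ w' t := by
    intro t ht w'
    obtain ⟨m, hm, h⟩ := GamI_move h1 hn hg ht
    have hmem : (n : ℤ) • m + (n : ℤ) • m ∈ L := L.add_mem (L.smul_mem _ hm) (L.smul_mem _ hm)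
    obtain ⟨k1, k2⟩ := h4 α β μ L χ θ hL hθ w' _ hmem t
    have hf := GamI_fac hL ht hm
    constructor
    · rw [h, k1, hf, one_mul]
    · intro p
      rw [h, k2, hf, one_mul]
  refine ⟨j, mm, hj, hmm, e1, fun t => e3 k t, ?_⟩
  have hp : ∀ i, psi θ (mob g w) (y i) = j * psi θ w (y i) := by
    intro i
    rw [← e1, (key (y i) (hy i) (mob g w)).1]
  have hfm : mm * fm k θ (mob g w) x' = j ^ Fintype.card β * fm k θ w x' := by
    rw [← e3]
    congr 1
    unfold fm
    congr 1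
    ext a b
    exact ((key (x' b) (hx' b) (mob g w)).2 _).symm
  have hfp : mp * fp k θ (mob g w) x = j ^ Fintype.card α * fp k θ w x := by
    rw [← e2]
    congr 1
    unfold fp
    congr 1
    ext a b
    exact ((key (x b) (hx b) (mob g w)).2 _).symm
  have hmpe : mp ^ e = mm ^ e := by
    rw [hmp, mul_pow, hdet, one_mul]
  intro o
  cases o with
  | some i =>
    show mm ^ e * (psi θ (mob g w) (y i) * psi θ (mob g w) (y none) ^ (e * Fintype.card α) *
      fm k θ (mob g w) x' ^ e) = j ^ (1 + e * (Fintype.card α + Fintype.card β)) *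
      (psi θ w (y i) * psi θ w (y none) ^ (e * Fintype.card α) * fm k θ w x' ^ e)
    have h5 : (mm * fm k θ (mob g w) x') ^ e = (j ^ Fintype.card β * fm k θ w x') ^ e := by
      rw [hfm]
    rw [mul_pow, mul_pow, ← pow_mul] at h5
    rw [hp, hp, mul_pow, pow_add, pow_one, Nat.mul_add, pow_add]
    rw [mul_comm (Fintype.card β)] at h5
    linear_combination (j * psi θ w (y i) * (j ^ (e * Fintype.card α) *
      psi θ w (y none) ^ (e * Fintype.card α))) * h5
  | none =>
    show mm ^ e * (psi θ (mob g w) (y none) * psi θ (mob g w) (y none) ^ (e * Fintype.card β) *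
      fp k θ (mob g w) x ^ e) = j ^ (1 + e * (Fintype.card α + Fintype.card β)) *
      (psi θ w (y none) * psi θ w (y none) ^ (e * Fintype.card β) * fp k θ w x ^ e)
    have h5 : (mp * fp k θ (mob g w) x) ^ e = (j ^ Fintype.card α * fp k θ w x) ^ e := by
      rw [hfp]
    rw [mul_pow, mul_pow, ← pow_mul, hmpe] at h5
    rw [hp, mul_pow, pow_add, pow_one, Nat.mul_add, pow_add]
    rw [mul_comm (Fintype.card α)] at h5
    linear_combination (j * psi θ w (y none) * (j ^ (e * Fintype.card β) *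
      psi θ w (y none) ^ (e * Fintype.card β))) * h5

end PST
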