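import Pool.Agent.PST.StF

/-!
# PST [Gau]: Gaussian integrals over `κ → ℂ`
-/

set_option autoImplicit false

namespace PST

open scoped ComplexConjugate

private lemma gau_one (c : ℝ) (hc : 0 < c) :
    MeasureTheory.Integrable fun z : ℂ => Real.exp (-(c * ‖z‖ ^ 2)) := by
  have h := (GaussianFourier.integrable_cexp_neg_mul_sq_norm_add (V := ℂ) (b := (c : ℂ))
    (by simpa using hc) 0 0).norm
  refine h.congr (Filter.Eventually.of_forall fun z => ?_)
  simp only
  rw [Complex.norm_exp]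
  congr 1
  simp only [inner_zero_left, Complex.ofReal_zero, mul_zero, add_zero]
  rw [← Complex.ofReal_pow, ← Complex.ofReal_neg, ← Complex.ofReal_mul, Complex.ofReal_re]
  ring

private lemma gau_int1 : ∫ z : ℂ, Real.exp (-(Real.pi * ‖z‖ ^ 2)) = 1 := by
  have h := GaussianFourier.integral_rexp_neg_mul_sq_norm (V := ℂ) (b := Real.pi) Real.pi_pos
  have e1 : (fun z : ℂ => Real.exp (-(Real.pi * ‖z‖ ^ 2))) =
      fun z : ℂ => Real.exp (-Real.pi * ‖z‖ ^ 2) := by
    funext z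
    rw [neg_mul]
  rw [e1, h, div_self Real.pi_ne_zero, Real.one_rpow]

variable {κ : Type} [Fintype κ]

private lemma gau_prod (c : ℝ) : (fun ξ : κ → ℂ => Real.exp (-(c * ∑ p, ‖ξ p‖ ^ 2))) =
    fun ξ : κ → ℂ => ∏ p, Real.exp (-(c * ‖ξ p‖ ^ 2)) := by
  funext ξ
  rw [← Real.exp_sum]
  congr 1
  rw [Finset.mul_sum, Finset.sum_neg_distrib]

private lemma gau_norm (ξ : κ → ℂ) :
    gw ξ = ((Real.exp (-(Real.pi * ∑ p, ‖ξ p‖ ^ 2)) : ℝ) : ℂ) := by
  unfold gw
  have h : ∀ p, ξ p * conj (ξ p) = ((‖ξ p‖ ^ 2 : ℝ) : ℂ) := by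
    intro p
    rw [Complex.mul_conj, Complex.normSq_eq_norm_sq]
  simp only [h]
  push_cast
  rfl

theorem thm_Gau : St_Gau := by
  intro κ _
  refine ⟨?_, ?_, ?_, ?_⟩
  · intro c hc
    rw [gau_prod c]
    exact MeasureTheory.Integrable.fintype_prod (f := fun _ : κ => fun z : ℂ =>
      Real.exp (-(c * ‖z‖ ^ 2))) (fun _ => gau_one c hc)
  · intro c A hc
    -- complete the square
    set K : ℝ := (1 + |A|) ^ 2 / (2 * c) with hK
    refine ⟨Real.exp (Fintype.card κ * K), Real.exp_pos _, ?_⟩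
    intro ξ
    set s : ℝ := ∑ p, ‖ξ p‖ with hs
    set q : ℝ := ∑ p, ‖ξ p‖ ^ 2 with hq
    have h1 : 1 + s ≤ Real.exp s := by
      have := Real.add_one_le_exp s
      linarith
    have h2 : s + (A * s - c * q) ≤ Fintype.card κ * K + -(c / 2 * q) := by
      have h4 : ∀ x : ℝ, 0 ≤ x → x + A * x ≤ c / 2 * x ^ 2 + K := by
        intro x hx
        have hA : A ≤ |A| := le_abs_self A
        have h5 : 0 ≤ (c * x - (1 + |A|)) ^ 2 / (2 * c) := by positivity
        have h6 : (c * x - (1 + |A|)) ^ 2 / (2 * c) = c / 2 * x ^ 2 + K - (1 + |A|) * x := by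
          rw [hK]
          field_simp
          ring
        nlinarith
      have h7 : ∑ p, (‖ξ p‖ + A * ‖ξ p‖) ≤ ∑ p : κ, (c / 2 * ‖ξ p‖ ^ 2 + K) :=
        Finset.sum_le_sum fun p _ => h4 _ (norm_nonneg _)
      rw [Finset.sum_add_distrib, Finset.sum_add_distrib, ← Finset.mul_sum, ← Finset.mul_sum,
        Finset.sum_const, Finset.card_univ, nsmul_eq_mul, ← hs, ← hq] at h7
      linarith
    calc (1 + s) * Real.exp (A * s - c * q)
        ≤ Real.exp s * Real.exp (A * s - c * q) :=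
          mul_le_mul_of_nonneg_right h1 (Real.exp_pos _).le
      _ = Real.exp (s + (A * s - c * q)) := by rw [← Real.exp_add]
      _ ≤ Real.exp (Fintype.card κ * K + -(c / 2 * q)) := Real.exp_le_exp.mpr h2
      _ = _ := by rw [Real.exp_add]
  · intro ξ
    rw [gau_norm, Complex.norm_real, Real.norm_of_nonneg (Real.exp_pos _).le]
  · have h1 : (fun ξ : κ → ℂ => gw ξ) = fun ξ : κ → ℂ =>
        ((∏ p, Real.exp (-(Real.pi * ‖ξ p‖ ^ 2)) : ℝ) : ℂ) := by
      funext ξ
      rw [gau_norm]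
      exact congrArg _ (congrFun (gau_prod Real.pi) ξ)
    rw [h1, integral_complex_ofReal]
    have h2 := MeasureTheory.integral_fintype_prod_volume_eq_prod (𝕜 := ℝ) (ι := κ)
      (f := fun _ : κ => fun z : ℂ => Real.exp (-(Real.pi * ‖z‖ ^ 2)))
    rw [h2]
    simp [gau_int1]

end PST
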