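import Pool.Agent.PST.StH
import Pool.Agent.GAM.C2

/-!
# PST [GopE]: existence of the operator
-/

set_option autoImplicit false

namespace PST

open scoped ComplexConjugate
open GAM (H E F pd pdl PLat IsTh OddTor IsDel Gro IsLat Pre QD qd jac HasExp)

theorem thm_GopE (h1 : St_C2g) (h2 : St_C3g) (h3 : St_C5g) : St_GopE := by
  intro ι _ _ δ L χ θ G ld β₀ β B hP hT h0 hPre hld
  have hA := GAM.thm_C2a GAM.thm_Lin ι δ L χ θ G ld β₀ β hP hT h0 hPre
  obtain ⟨C, hC, hβ⟩ := h1 ι L B ld β hP.lat (fun l hl m hm =>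
    ⟨(hA l hl m hm).1, (hA l hl m hm).2.1, (hA l hl m hm).2.2.2⟩) hld
  obtain ⟨k, hk⟩ := h2 ι δ L χ θ G ld β₀ β B C hP hT h0 hPre hC hld hβ
  have hdel : ∀ x, OddTor L x → IsDel δ (F θ x) (gop (k x) B C (F θ x)) := fun x hx => by
    have e : G x = gop (k x) B C (F θ x) := funext (hk x hx)
    rw [← e]
    exact hPre.del x hx
  have h00 : OddTor L 0 := ⟨1, odd_one, by
    rw [smul_zero]
    exact L.zero_mem⟩
  refine ⟨k 0, C, hC, fun x hx => ?_⟩
  rw [h3 ι δ L χ θ B C k hP hT h0 hdel 0 x h00 hx]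
  exact hdel x hx

end PST
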