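import Pool.Agent.PST.LdG

/-!
# PST: [GopR], the operator and endomorphisms
-/

set_option autoImplicit false
set_option linter.unusedSectionVars false
set_option linter.unusedVariables false

namespace PST

open scoped ComplexConjugate
open GAM (H E F pd pdl PLat IsTh OddTor IsDel Gro IsLat Pre QD qd jac HasExp DelRules)

section GopR

variable {ι : Type} [Fintype ι] [DecidableEq ι] {δ : Derivation ℚ ℂ ℂ}
  {L Λ : Submodule ℤ (ι → ℂ)} {χ θ : (ι → ℂ) → ℂ}

/-- chain rule -/
theorem GopR_pd (R : Matrix ι ι ℂ) (f : (ι → ℂ) → ℂ) (v : ι → ℂ)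
    (hf : DifferentiableAt ℂ f (R.mulVec v)) (s : ι) :
    pd s (fun z => f (R.mulVec z)) v = ∑ i, R i s * pd i f (R.mulVec v) := by
  have h1 : HasFDerivAt (fun z => f (R.mulVec z))
      ((fderiv ℂ f (R.mulVec v)).comp (LinearMap.toContinuousLinearMap (Matrix.mulVecLin R))) v :=
    HasFDerivAt.comp v (g := f) (f := fun z => R.mulVec z) hf.hasFDerivAt
      (LinearMap.toContinuousLinearMap (Matrix.mulVecLin R)).hasFDerivAt
  unfold pd
  rw [h1.fderiv, ContinuousLinearMap.comp_apply, LinearMap.coe_toContinuousLinearMap',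
    Matrix.mulVecLin_apply]
  have h2 : R.mulVec (Pi.single s 1) = ∑ i, R i s • (Pi.single i 1 : ι → ℂ) := by
    funext t
    rw [Matrix.mulVec_single_one, Finset.sum_apply, Finset.sum_eq_single t]
    · simp
    · intro i _ hi
      rw [Pi.smul_apply, Pi.single_eq_of_ne (Ne.symm hi), smul_zero]
    · simp
  rw [h2, map_sum]
  exact Finset.sum_congr rfl fun i _ => by rw [map_smul, smul_eq_mul]

/-- substitution of an algebraic endomorphism of the lattice -/
theorem GopR_QD {a b a' b' : (ι → ℂ) → ℂ} (hQ : QD δ L a b a' b') {R : Matrix ι ι ℂ}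
    (hR : R.det ≠ 0) (halg : ∀ i j, IsAlgebraic ℚ (R i j)) (hL : ∀ l ∈ L, R.mulVec l ∈ L) :
    QD δ L (fun v => a (R.mulVec v)) (fun v => b (R.mulVec v)) (fun v => a' (R.mulVec v))
      (fun v => b' (R.mulVec v)) where
  da := (LdG_DelR ι δ).lin ι R _ _ halg hQ.da
  db := (LdG_DelR ι δ).lin ι R _ _ halg hQ.db
  nz := by
    obtain ⟨v, hv⟩ := hQ.nz
    refine ⟨R⁻¹.mulVec v, ?_⟩
    rw [Matrix.mulVec_mulVec, Matrix.mul_nonsing_inv _ (Ne.isUnit hR), Matrix.one_mulVec]
    exact hv
  fac := by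
    obtain ⟨e, N, h1, h2, h3⟩ := hQ.fac
    have hc : Differentiable ℂ fun v : ι → ℂ => R.mulVec v :=
      (LinearMap.toContinuousLinearMap (Matrix.mulVecLin R)).differentiable
    refine ⟨fun l v => e (R.mulVec l) (R.mulVec v), fun v => N (R.mulVec v), ⟨?_, ?_, ?_⟩, ?_, ?_⟩
    · exact h1.cont.comp hc.continuous
    · intro l hl
      exact (h1.hol _ (hL l hl)).comp hc
    · intro l hl v
      rw [h1.norm _ (hL l hl), Matrix.mulVec_add]
    · intro l hl v
      simp only [Matrix.mulVec_add]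
      exact h2 _ (hL l hl) _
    · intro l hl v
      simp only [Matrix.mulVec_add]
      exact h3 _ (hL l hl) _

end GopR

theorem thm_GopR (h : St_LdG) : St_GopR := by
  intro ι _ _ δ L χ θ k B C R hP hT h0 hG hR halg hL
  have hLd := h ι δ L χ θ k B C hP hT h0 hG L hP.isLat (fun _ h => h)
  obtain ⟨a, b, a', b', v₀, hQ, hb, hJ, hq⟩ := LdG_coord hP hT h0 hG
  have hinv : R.mulVec (R⁻¹.mulVec v₀) = v₀ := by
    rw [Matrix.mulVec_mulVec, Matrix.mul_nonsing_inv _ (Ne.isUnit hR), Matrix.one_mulVec]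
  have key : ∀ l ∈ L, (R * B).mulVec l = (B * R).mulVec l := by
    intro l hl
    apply LdG_det hJ
    intro i
    have hd : DifferentiableAt ℂ (fun z => a i z / b i z) (R.mulVec (R⁻¹.mulVec v₀)) := by
      rw [hinv]
      exact GAM.diff_div ((hQ i).da.ent v₀) ((hQ i).db.ent v₀) (hb i)
    have e1 := hLd _ _ _ _ (GopR_QD (hQ i) hR halg hL) l hl (R⁻¹.mulVec v₀)
      (by simp only [hinv]; exact hb i)
    have e2 := hLd _ _ _ _ (hQ i) (R.mulVec l) (hL l hl) v₀ (hb i)
    have e3 : ∀ v, qd (fun v => a i (R.mulVec v)) (fun v => b i (R.mulVec v))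
        (fun v => a' i (R.mulVec v)) (fun v => b' i (R.mulVec v)) v =
        qd (a i) (b i) (a' i) (b' i) (R.mulVec v) := fun v => rfl
    rw [e3, e3, Matrix.mulVec_add, hinv, e2] at e1
    rw [← Matrix.mulVec_mulVec, ← Matrix.mulVec_mulVec, e1]
    have e4 : ∀ j, pd j (fun z => a i (R.mulVec z) / b i (R.mulVec z)) (R⁻¹.mulVec v₀) =
        ∑ s, R s j * pd s (fun z => a i z / b i z) v₀ := by
      intro j
      rw [GopR_pd R (fun z => a i z / b i z) (R⁻¹.mulVec v₀) hd j, hinv]
    simp only [e4, Finset.mul_sum]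
    rw [Finset.sum_comm]
    refine Finset.sum_congr rfl fun s _ => ?_
    rw [Matrix.mulVec, dotProduct, Finset.sum_mul]
    exact Finset.sum_congr rfl fun j _ => by ring
  ext i j
  have h1 := GAM.lat_zero hP.isLat (p := fun j => (R * B - B * R) i j) (q := 0) (by
    intro l hl
    have e1 := congrFun (key l hl) i
    rw [← sub_eq_zero] at e1
    simp only [Pi.zero_apply, zero_mul, Finset.sum_const_zero, add_zero]
    rw [← e1]
    simp only [Matrix.mulVec, dotProduct, Matrix.sub_apply, sub_mul, Finset.sum_sub_distrib])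
  have h2 := congrFun h1.1 j
  simp only [Matrix.sub_apply, Pi.zero_apply] at h2
  exact sub_eq_zero.1 h2

end PST
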