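import Pool.Agent.PST.StN

set_option autoImplicit false

namespace PST

open scoped ComplexConjugate
open Module

theorem GramA_conj {x : ℂ} (h : IsAlgebraic ℚ x) : IsAlgebraic ℚ (conj x) :=
  h.algHom ((starRingEnd ℂ : ℂ →+* ℂ).toRatAlgHom)

/-- a set of matrices with algebraic entries that spans over `ℂ` spans over the algebraic numbers -/
theorem GramA_span {n : Type} [Fintype n] [DecidableEq n] (R : Set (Matrix n n ℂ))
    (halg : ∀ r ∈ R, ∀ i j, IsAlgebraic ℚ (r i j)) (hspan : Submodule.span ℂ R = ⊤) :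
    Submodule.span (algebraicClosure ℚ ℂ)
      {X : Matrix n n (algebraicClosure ℚ ℂ) |
        X.map (algebraMap (algebraicClosure ℚ ℂ) ℂ) ∈ R} = ⊤ := by
  by_contra hne
  obtain ⟨f, hf, hle⟩ := Submodule.exists_le_ker_of_lt_top _ (lt_top_iff_ne_top.2 hne)
  have hfX : ∀ X, f X = ∑ i, ∑ j, X i j * f (Matrix.single i j 1) := by
    intro X
    conv_lhs => rw [Matrix.matrix_eq_sum_single X]
    rw [map_sum]
    refine Finset.sum_congr rfl fun i _ => ?_
    rw [map_sum]
    refine Finset.sum_congr rfl fun j _ => ?_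
    have : Matrix.single i j (X i j) = X i j • Matrix.single i j (1 : algebraicClosure ℚ ℂ) := by
      rw [Matrix.smul_single, smul_eq_mul, mul_one]
    rw [this, map_smul, smul_eq_mul]
  let g : Matrix n n ℂ →ₗ[ℂ] ℂ :=
    { toFun := fun X => ∑ i, ∑ j, X i j * (f (Matrix.single i j 1) : ℂ)
      map_add' := by
        intro X Y
        simp only [Matrix.add_apply, add_mul, Finset.sum_add_distrib]
      map_smul' := by
        intro c X
        simp only [Matrix.smul_apply, smul_eq_mul, Finset.mul_sum, RingHom.id_apply, mul_assoc] }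
  have hg : ∀ r ∈ R, g r = 0 := by
    intro r hr
    let X : Matrix n n (algebraicClosure ℚ ℂ) :=
      Matrix.of fun i j => ⟨r i j, mem_algebraicClosure_iff.2 (halg r hr i j)⟩
    have hX : X.map (algebraMap (algebraicClosure ℚ ℂ) ℂ) = r := by
      ext i j; rfl
    have h1 : f X = 0 := hle (Submodule.subset_span (by
      show X.map (algebraMap (algebraicClosure ℚ ℂ) ℂ) ∈ R
      rw [hX]; exact hr))
    have h2 : algebraMap (algebraicClosure ℚ ℂ) ℂ (f X) = 0 := by rw [h1, map_zero]
    rw [hfX, map_sum] at h2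
    rw [← h2]
    refine Finset.sum_congr rfl fun i _ => ?_
    rw [map_sum]
    refine Finset.sum_congr rfl fun j _ => ?_
    rw [map_mul]
    rfl
  have hg0 : ∀ X, g X = 0 := by
    intro X
    have hX : X ∈ Submodule.span ℂ R := by rw [hspan]; trivial
    have : Submodule.span ℂ R ≤ LinearMap.ker g := Submodule.span_le.2 fun r hr => hg r hr
    exact this hX
  apply hf
  ext X
  have h3 : ∀ i j, f (Matrix.single i j 1) = 0 := by
    intro i j
    have h4 := hg0 (Matrix.single i j 1)
    have h5 : g (Matrix.single i j 1) = (f (Matrix.single i j 1) : ℂ) := by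
      show (∑ i', ∑ j', (Matrix.single i j (1 : ℂ)) i' j' * (f (Matrix.single i' j' 1) : ℂ)) = _
      rw [Finset.sum_eq_single i, Finset.sum_eq_single j]
      · rw [Matrix.single_apply_same, one_mul]
      · intro j' _ hj'
        rw [Matrix.single_apply_of_col_ne _ _ hj'.symm, zero_mul]
      · intro h; exact absurd (Finset.mem_univ _) h
      · intro i' _ hi'
        refine Finset.sum_eq_zero fun j' _ => ?_
        rw [Matrix.single_apply_of_row_ne hi'.symm, zero_mul]
      · intro h; exact absurd (Finset.mem_univ _) h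
    rw [h5] at h4
    exact_mod_cast h4
  rw [hfX]
  simp [h3]

theorem thm_GramA : St_GramA := by
  intro α β _ _ _ _ R X₀ d hd halg hspan hjj hrat a b
  set G := Gm X₀ with hG
  -- the values of the form on `R`
  have hform : ∀ r r' : Matrix (α ⊕ β) (α ⊕ β) ℂ,
      ((X₀ * r').conjTranspose * Jm α β * (X₀ * r)).trace = (r'.conjTranspose * G * r).trace := by
    intro r r'
    rw [hG, Gm, Matrix.conjTranspose_mul]
    simp only [Matrix.mul_assoc]
  have hR : ∀ r ∈ R, ∀ r' ∈ R, IsAlgebraic ℚ (r'.conjTranspose * G * r).trace := by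
    intro r hr r' hr'
    obtain ⟨q, hq⟩ := hrat r hr r' hr'
    rw [hform] at hq
    have hz : zd d • r ∈ R := by
      have := R.mul_mem hjj hr
      rwa [smul_mul_assoc, one_mul] at this
    obtain ⟨q', hq'⟩ := hrat (zd d • r) hz r' hr'
    rw [hform, Matrix.mul_smul, Matrix.trace_smul, smul_eq_mul] at hq'
    set z := (r'.conjTranspose * G * r).trace with hzdef
    have hs : (0 : ℝ) < Real.sqrt (d : ℝ) := Real.sqrt_pos.2 (by exact_mod_cast hd)
    have hsA : IsAlgebraic ℚ ((Real.sqrt (d : ℝ) : ℝ) : ℂ) := by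
      refine IsAlgebraic.of_pow (n := 2) (by norm_num) ?_
      have : ((Real.sqrt (d : ℝ) : ℝ) : ℂ) ^ 2 = algebraMap ℚ ℂ d := by
        rw [← Complex.ofReal_pow, Real.sq_sqrt (by exact_mod_cast hd.le)]
        simp
      rw [this]
      exact isAlgebraic_algebraMap d
    have hIA : IsAlgebraic ℚ Complex.I := by
      refine IsAlgebraic.of_pow (n := 2) (by norm_num) ?_
      rw [Complex.I_sq]
      exact (isAlgebraic_one).neg
    have him : (zd d * z).im = Real.sqrt (d : ℝ) * z.re := by
      rw [zd]; simp [Complex.mul_im, Complex.mul_re]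
    rw [him] at hq'
    have hre : (z.re : ℂ) = ((Real.sqrt (d : ℝ) : ℝ) : ℂ)⁻¹ * algebraMap ℚ ℂ q' := by
      have h1 : z.re = (Real.sqrt (d : ℝ))⁻¹ * q' := by
        rw [← hq', ← mul_assoc, inv_mul_cancel₀ hs.ne', one_mul]
      rw [h1]; simp
    have himz : (z.im : ℂ) = algebraMap ℚ ℂ q := by rw [hq]; simp
    rw [← Complex.re_add_im z, hre, himz]
    exact ((hsA.inv).mul (isAlgebraic_algebraMap _)).add ((isAlgebraic_algebraMap _).mul hIA)
  have hone : ∀ X : Matrix (α ⊕ β) (α ⊕ β) (algebraicClosure ℚ ℂ),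
      IsAlgebraic ℚ ((X.map (algebraMap (algebraicClosure ℚ ℂ) ℂ)).conjTranspose * G).trace := by
    intro X
    have hX : X ∈ Submodule.span (algebraicClosure ℚ ℂ)
        {X : Matrix (α ⊕ β) (α ⊕ β) (algebraicClosure ℚ ℂ) |
          X.map (algebraMap (algebraicClosure ℚ ℂ) ℂ) ∈
            (R : Set (Matrix (α ⊕ β) (α ⊕ β) ℂ))} := by
      rw [GramA_span (R : Set (Matrix (α ⊕ β) (α ⊕ β) ℂ)) halg hspan]; trivial
    induction hX using Submodule.span_induction with
    | mem x hx =>
      have := hR 1 R.one_mem _ hx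
      rwa [Matrix.mul_one] at this
    | zero =>
      rw [Matrix.map_zero _ (map_zero _), Matrix.conjTranspose_zero, Matrix.zero_mul, Matrix.trace_zero]
      exact isAlgebraic_zero
    | add x y _ _ hx hy =>
      rw [Matrix.map_add _ (map_add _), Matrix.conjTranspose_add, Matrix.add_mul, Matrix.trace_add]
      exact hx.add hy
    | smul c x _ hx =>
      have h1 : (c • x).map (algebraMap (algebraicClosure ℚ ℂ) ℂ) =
          (c : ℂ) • x.map (algebraMap (algebraicClosure ℚ ℂ) ℂ) := by
        ext i j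
        simp [Matrix.map_apply, Matrix.smul_apply]
      rw [h1, Matrix.conjTranspose_smul, Matrix.smul_mul, Matrix.trace_smul, smul_eq_mul]
      exact (GramA_conj (mem_algebraicClosure_iff.1 c.2)).mul hx
  have h1 := hone (Matrix.single a b 1)
  have h2 : (Matrix.single a b (1 : algebraicClosure ℚ ℂ)).map
      (algebraMap (algebraicClosure ℚ ℂ) ℂ) = Matrix.single a b 1 := by
    rw [Matrix.map_single, map_one]
  rw [h2, Matrix.conjTranspose_single, star_one, Matrix.trace_single_mul, one_smul] at h1
  exact h1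

end PST
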