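import Pool.Agent.PST.StH
import Pool.Agent.GAM.C1
import Pool.Agent.GAM.DelEx
import Pool.Agent.GAM.Dup
import Pool.Agent.GAM.BasQ
import Pool.Agent.GAM.Quar
import Pool.Agent.GAM.ThUn
import Pool.Agent.GAM.Four
import Pool.Agent.GAM.Avg
import Pool.Agent.GAM.Imm
import Pool.Agent.GAM.Ind1
import Pool.Agent.GAM.OddD
import Pool.Agent.GAM.FinD
import Pool.Agent.GAM.Per
import Pool.Agent.GAM.TorD
import Pool.Agent.GAM.Sieg
import Pool.Agent.GAM.Hol
import Pool.Agent.GAM.DelR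

/-!
# PST / HatA: the operator for the lattice of an abelian variety
-/

set_option autoImplicit false

namespace PST

open scoped ComplexConjugate
open GAM (H E F pd pdl PLat IsTh OddTor IsDel Gro IsLat Pre QD qd jac HasExp)
open Pool.Agent.GPC (AbVar hermForm bilForm)

private theorem HatA_DelR : GAM.St_DelR := GAM.thm_DelR GAM.thm_Hol

private theorem HatA_Bas : GAM.St_Bas := GAM.thm_Bas (GAM.thm_FinD GAM.thm_Hol) GAM.thm_OddD

private theorem HatA_DelEx : GAM.St_DelEx :=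
  GAM.thm_DelEx (GAM.thm_Dup HatA_Bas (GAM.thm_ThUn GAM.thm_Four GAM.thm_Avg) GAM.thm_OddD)
    (GAM.thm_Quar HatA_DelR) HatA_DelR

private theorem HatA_C1 : GAM.St_C1 :=
  GAM.thm_C1 (GAM.thm_C1a HatA_DelEx (GAM.thm_Imm (GAM.thm_Ind1 GAM.thm_OddD) GAM.thm_OddD)
    (GAM.thm_Per (GAM.thm_TorD GAM.thm_Sieg) HatA_DelR) HatA_DelR)
    (GAM.thm_C1b HatA_DelR) (GAM.thm_C1c HatA_DelR)

/-- a sublattice which is mapped to the lattice of the abelian variety -/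
theorem HatA_lat {g : ℕ} {ι : Type} [Fintype ι] (L : Submodule ℤ (ι → ℂ))
    (Λ : Submodule ℤ (Fin g → ℂ)) (S : Matrix (Fin g) ι ℂ) (hL : IsLat L)
    (h : ∀ l ∈ L, ∃ n : ℕ, n ≠ 0 ∧ S.mulVec ((n : ℤ) • l) ∈ Λ) :
    ∃ Λ' : Submodule ℤ (ι → ℂ), IsLat Λ' ∧ (∀ l ∈ Λ', l ∈ L) ∧ ∀ l ∈ Λ', S.mulVec l ∈ Λ := by
  obtain ⟨b, hb⟩ := hL
  have hbL : ∀ i, b i ∈ L := fun i => by
    rw [hb]
    exact Submodule.subset_span (Set.mem_range_self i)
  choose n hn0 hn using fun i => h (b i) (hbL i)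
  let b' : Module.Basis (ι ⊕ ι) ℝ (ι → ℂ) := b.isUnitSMul (w := fun i => (n i : ℝ))
    (fun i => isUnit_iff_ne_zero.2 (by exact_mod_cast hn0 i))
  have hb' : ∀ i, b' i = ((n i : ℕ) : ℤ) • b i := fun i => by
    rw [show b' i = (n i : ℝ) • b i from Module.Basis.isUnitSMul_apply _ i]
    funext j
    simp
  refine ⟨Submodule.span ℤ (Set.range b'), ⟨b', rfl⟩, ?_, ?_⟩
  · intro l hl
    have h1 : Submodule.span ℤ (Set.range b') ≤ L := by
      rw [Submodule.span_le]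
      rintro _ ⟨i, rfl⟩
      rw [hb']
      exact L.smul_mem _ (hbL i)
    exact h1 hl
  · intro l hl
    have h1 : Submodule.span ℤ (Set.range b') ≤
        Λ.comap ((Matrix.mulVecLin S).restrictScalars ℤ) := by
      rw [Submodule.span_le]
      rintro _ ⟨i, rfl⟩
      rw [hb']
      exact hn i
    exact h1 hl

theorem thm_HatA (h1 : St_LdA) (h2 : St_GopE) (h3 : St_QuC) (h4 : St_AVT) : St_HatA := by
  intro X ι _ _ δ S T L χ θ hST hTS hP hT h0 hH hL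
  obtain ⟨G, ld, β₀, β, hPre⟩ := HatA_C1 ι δ L χ θ hP hT h0
  have hld := h1 X ι δ S T L χ θ G ld β₀ β hST hTS hP hT h0 hPre hL
  obtain ⟨k, C, hk⟩ := h2 ι δ L χ θ G ld β₀ β _ hP hT h0 hPre hld
  obtain ⟨t, ht0, htδ, htf⟩ := h4 X ι δ S T hST hTS
  obtain ⟨Λ, hΛ, hΛL, hΛX⟩ := HatA_lat L X.Λ S hP.basis hL
  have hTSv : ∀ v : ι → ℂ, T.mulVec (S.mulVec v) = v := fun v => by
    rw [Matrix.mulVec_mulVec, hTS, Matrix.one_mulVec]
  have hsym : (-(2 : ℂ) • (S.transpose * X.q.map δ * S)).transpose =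
      -(2 : ℂ) • (S.transpose * X.q.map δ * S) := by
    rw [Matrix.transpose_smul, Matrix.transpose_mul, Matrix.transpose_mul,
      Matrix.transpose_transpose, ← Matrix.transpose_map, X.q_symm.eq, Matrix.mul_assoc]
  have hC := h3 ι δ L Λ χ θ k 0 (T * S.map δ) C (-(2 : ℂ) • (S.transpose * X.q.map δ * S)) t
    hP hT h0 hk hΛ hΛL ht0 hsym htδ (by
      intro l hl v
      have h5 := htf (S.mulVec v) (S.mulVec l) (hΛX l hl)
      rw [← Matrix.mulVec_add, hH, hH, hTSv, hTSv, hTSv] at h5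
      exact h5)
  have hC' : C = -(S.transpose * X.q.map δ * S) := by
    have h5 : (2 : ℂ) • C = (2 : ℂ) • -(S.transpose * X.q.map δ * S) := by
      rw [← hC, smul_neg, neg_smul]
    exact smul_right_injective _ (two_ne_zero (α := ℂ)) h5
  rw [hC'] at hk
  exact ⟨k, hk⟩

end PST
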