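import Pool.Agent.PST.StH

/-!
# PST / HatC: the quadratic part in block form
-/

set_option autoImplicit false

namespace PST

open scoped ComplexConjugate
open GAM (H E F pd pdl PLat IsTh OddTor IsDel Gro IsLat Pre QD qd jac HasExp)

section

variable {α β μ : Type} [Fintype α] [Fintype β] [Fintype μ]
  [DecidableEq α] [DecidableEq β]

private theorem HatC_left (C : Matrix (Ix α β μ) (Ix α β μ) ℂ) (r : Matrix μ μ ℂ)
    (p q : Ix α β μ) : (C * rgt α β r) p q = ∑ m, C p (q.1, m) *
      Sum.elim (fun _ => r q.2 m) (fun _ => conj (r q.2 m)) q.1 := by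
  rw [Matrix.mul_apply, Fintype.sum_prod_type, Finset.sum_eq_single q.1]
  · refine Finset.sum_congr rfl fun m _ => ?_
    simp only [rgt, Matrix.of_apply, if_true]
  · intro x _ hx
    refine Finset.sum_eq_zero fun m _ => ?_
    simp only [rgt, Matrix.of_apply, if_neg hx, mul_zero]
  · intro h
    exact absurd (Finset.mem_univ _) h

private theorem HatC_right (C : Matrix (Ix α β μ) (Ix α β μ) ℂ) (r : Matrix μ μ ℂ)
    (p q : Ix α β μ) : ((rgt α β r.conjTranspose).transpose * C) p q = ∑ m,
      Sum.elim (fun _ => conj (r m p.2)) (fun _ => r m p.2) p.1 * C (p.1, m) q := by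
  rw [Matrix.mul_apply, Fintype.sum_prod_type, Finset.sum_eq_single p.1]
  · refine Finset.sum_congr rfl fun m _ => ?_
    congr 1
    rcases hp : p.1 with i | j
    · simp [rgt, Matrix.conjTranspose_apply, Matrix.transpose_apply, hp]
    · simp [rgt, Matrix.conjTranspose_apply, Matrix.transpose_apply, hp]
  · intro x _ hx
    refine Finset.sum_eq_zero fun m _ => ?_
    simp only [rgt, Matrix.of_apply, Matrix.transpose_apply, if_neg hx, zero_mul]
  · intro h
    exact absurd (Finset.mem_univ _) h

/-- a matrix which commutes with all `rᴴ` is scalar -/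
private theorem HatC_scal [DecidableEq μ] (R : Set (Matrix μ μ ℂ)) (hR : Submodule.span ℂ R = ⊤)
    (N : Matrix μ μ ℂ) (hN : ∀ r ∈ R, N * r.conjTranspose = r.conjTranspose * N) :
    ∃ c : ℂ, ∀ a b, N a b = if a = b then c else 0 := by
  have h1 : ∀ X : Matrix μ μ ℂ, N.conjTranspose * X = X * N.conjTranspose := by
    intro X
    have hX : X ∈ Submodule.span ℂ R := by
      rw [hR]
      exact Submodule.mem_top
    induction hX using Submodule.span_induction with
    | mem r hr =>
      have h2 := congrArg Matrix.conjTranspose (hN r hr)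
      rw [Matrix.conjTranspose_mul, Matrix.conjTranspose_mul,
        Matrix.conjTranspose_conjTranspose] at h2
      exact h2.symm
    | zero => simp
    | add x y _ _ hx hy => rw [mul_add, add_mul, hx, hy]
    | smul c x _ hx => rw [Matrix.mul_smul, Matrix.smul_mul, hx]
  have h2 : N.conjTranspose ∈ Set.range (Matrix.scalar μ) := by
    rw [Matrix.mem_range_scalar_iff_commute_single]
    intro i j _
    exact (h1 _).symm
  obtain ⟨c, hc⟩ := h2
  refine ⟨conj c, fun a b => ?_⟩
  have h3 : N a b = conj (N.conjTranspose b a) := by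
    rw [Matrix.conjTranspose_apply]
    simp
  rw [h3, ← hc]
  by_cases hab : a = b
  · subst hab
    simp [Matrix.scalar_apply]
  · simp [Matrix.scalar_apply, hab, Ne.symm hab]

end

theorem thm_HatC : St_HatC := by
  intro α β μ _ _ _ _ _ _ C R s hC hs hR hsR hCR
  have hsI : (s * Complex.I : ℂ) ≠ 0 := by
    refine mul_ne_zero ?_ Complex.I_ne_zero
    exact_mod_cast hs
  have hconj : conj (s * Complex.I : ℂ) = -(s * Complex.I : ℂ) := by
    simp
  -- the relation for the scalar matrix
  have h0 : ∀ p q : Ix α β μ, C p q * Sum.elim (fun _ => (s * Complex.I : ℂ))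
      (fun _ => -(s * Complex.I : ℂ)) q.1 =
      Sum.elim (fun _ => -(s * Complex.I : ℂ)) (fun _ => (s * Complex.I : ℂ)) p.1 * C p q := by
    intro p q
    have h1 := congrFun (congrFun (hCR _ hsR) p) q
    rw [HatC_left, HatC_right, Finset.sum_eq_single q.2, Finset.sum_eq_single p.2] at h1
    · rcases p with ⟨i | i, m⟩ <;> rcases q with ⟨j | j, m'⟩ <;>
        simpa [Matrix.smul_apply] using h1
    · intro m _ hm
      rcases p with ⟨i | i, m'⟩ <;> simp [Matrix.smul_apply, Matrix.one_apply_ne hm]
    · intro h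
      exact absurd (Finset.mem_univ _) h
    · intro m _ hm
      rcases q with ⟨i | i, m'⟩ <;> simp [Matrix.smul_apply, Matrix.one_apply_ne (Ne.symm hm)]
    · intro h
      exact absurd (Finset.mem_univ _) h
  have hpp : ∀ (i i' : α) (m m' : μ), C (Sum.inl i, m) (Sum.inl i', m') = 0 := by
    intro i i' m m'
    have h1 := h0 (Sum.inl i, m) (Sum.inl i', m')
    simp only [Sum.elim_inl] at h1
    have h2 : C (Sum.inl i, m) (Sum.inl i', m') * (2 * (s * Complex.I : ℂ)) = 0 := by
      linear_combination h1
    exact (mul_eq_zero.1 h2).resolve_right (mul_ne_zero two_ne_zero hsI)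
  have hmm : ∀ (i i' : β) (m m' : μ), C (Sum.inr i, m) (Sum.inr i', m') = 0 := by
    intro i i' m m'
    have h1 := h0 (Sum.inr i, m) (Sum.inr i', m')
    simp only [Sum.elim_inr] at h1
    have h2 : C (Sum.inr i, m) (Sum.inr i', m') * (2 * (s * Complex.I : ℂ)) = 0 := by
      linear_combination -h1
    exact (mul_eq_zero.1 h2).resolve_right (mul_ne_zero two_ne_zero hsI)
  have hpm : ∀ (i : α) (j : β), ∃ c : ℂ, ∀ a b, C (Sum.inl i, a) (Sum.inr j, b) =
      if a = b then c else 0 := by
    intro i j
    refine HatC_scal R hR (Matrix.of fun a b => C (Sum.inl i, a) (Sum.inr j, b)) ?_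
    intro r hr
    ext a b
    have h1 := congrFun (congrFun (hCR r hr) (Sum.inl i, a)) (Sum.inr j, b)
    rw [HatC_left, HatC_right] at h1
    simp only [Sum.elim_inl, Sum.elim_inr] at h1
    rw [Matrix.mul_apply, Matrix.mul_apply]
    simp only [Matrix.of_apply, Matrix.conjTranspose_apply]
    exact h1
  choose c hc using hpm
  have hmp : ∀ (i : α) (j : β) (a b : μ), C (Sum.inr j, a) (Sum.inl i, b) =
      if a = b then c i j else 0 := by
    intro i j a b
    have h1 : C (Sum.inr j, a) (Sum.inl i, b) = C (Sum.inl i, b) (Sum.inr j, a) :=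
      congrFun (congrFun hC.symm (Sum.inr j, a)) (Sum.inl i, b)
    rw [h1, hc]
    by_cases hab : a = b
    · rw [if_pos hab, if_pos hab.symm]
    · rw [if_neg hab, if_neg (Ne.symm hab)]
  refine ⟨Matrix.of c, fun k Bp Bm G => funext fun v => ?_⟩
  unfold gop hop
  have e1 : ∑ a, ∑ b, blk μ Bp Bm a b * (v b * pd a G v) =
      ∑ m, ∑ i, ∑ i', Bp i i' * (v (Sum.inl i', m) * pd (Sum.inl i, m) G v) +
      ∑ m, ∑ j, ∑ j', Bm j j' * (v (Sum.inr j', m) * pd (Sum.inr j, m) G v) := by
    rw [Fintype.sum_prod_type_right, ← Finset.sum_add_distrib]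
    refine Finset.sum_congr rfl fun m _ => ?_
    have e2 : ∀ x : α ⊕ β, ∑ b, blk μ Bp Bm (x, m) b * (v b * pd (x, m) G v) =
        ∑ y, Matrix.fromBlocks Bp 0 0 Bm x y * (v (y, m) * pd (x, m) G v) := by
      intro x
      rw [Fintype.sum_prod_type_right, Finset.sum_eq_single m]
      · refine Finset.sum_congr rfl fun y _ => ?_
        simp [blk]
      · intro m' _ hm'
        refine Finset.sum_eq_zero fun y _ => ?_
        simp [blk, Ne.symm hm']
      · intro h
        exact absurd (Finset.mem_univ _) h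
    rw [Finset.sum_congr rfl fun x _ => e2 x, Fintype.sum_sum_type]
    congr 1
    · refine Finset.sum_congr rfl fun i _ => ?_
      rw [Fintype.sum_sum_type]
      simp
    · refine Finset.sum_congr rfl fun i _ => ?_
      rw [Fintype.sum_sum_type]
      simp
  have e3 : ∑ a, ∑ b, C a b * v a * v b =
      2 * ∑ m, ∑ i, ∑ j, c i j * (v (Sum.inl i, m) * v (Sum.inr j, m)) := by
    rw [Fintype.sum_prod_type_right, Finset.mul_sum]
    refine Finset.sum_congr rfl fun m _ => ?_
    rw [Fintype.sum_sum_type]
    have e4 : ∀ i : α, ∑ b, C (Sum.inl i, m) b * v (Sum.inl i, m) * v b =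
        ∑ j, c i j * (v (Sum.inl i, m) * v (Sum.inr j, m)) := by
      intro i
      rw [Fintype.sum_prod_type_right, Finset.sum_eq_single m]
      · rw [Fintype.sum_sum_type]
        have : ∑ x, C (Sum.inl i, m) (Sum.inl x, m) * v (Sum.inl i, m) * v (Sum.inl x, m) = 0 :=
          Finset.sum_eq_zero fun x _ => by rw [hpp]; ring
        rw [this, zero_add]
        refine Finset.sum_congr rfl fun j _ => ?_
        rw [hc, if_pos rfl]
        ring
      · intro m' _ hm'
        rw [Fintype.sum_sum_type]
        have h1 : ∑ x, C (Sum.inl i, m) (Sum.inl x, m') * v (Sum.inl i, m) * v (Sum.inl x, m') = 0 :=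
          Finset.sum_eq_zero fun x _ => by rw [hpp]; ring
        have h2 : ∑ x, C (Sum.inl i, m) (Sum.inr x, m') * v (Sum.inl i, m) * v (Sum.inr x, m') = 0 :=
          Finset.sum_eq_zero fun x _ => by rw [hc, if_neg (Ne.symm hm')]; ring
        rw [h1, h2, add_zero]
      · intro h
        exact absurd (Finset.mem_univ _) h
    have e5 : ∀ j : β, ∑ b, C (Sum.inr j, m) b * v (Sum.inr j, m) * v b =
        ∑ i, c i j * (v (Sum.inl i, m) * v (Sum.inr j, m)) := by
      intro j
      rw [Fintype.sum_prod_type_right, Finset.sum_eq_single m]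
      · rw [Fintype.sum_sum_type]
        have : ∑ x, C (Sum.inr j, m) (Sum.inr x, m) * v (Sum.inr j, m) * v (Sum.inr x, m) = 0 :=
          Finset.sum_eq_zero fun x _ => by rw [hmm]; ring
        rw [this, add_zero]
        refine Finset.sum_congr rfl fun i _ => ?_
        rw [hmp, if_pos rfl]
        ring
      · intro m' _ hm'
        rw [Fintype.sum_sum_type]
        have h1 : ∑ x, C (Sum.inr j, m) (Sum.inr x, m') * v (Sum.inr j, m) * v (Sum.inr x, m') = 0 :=
          Finset.sum_eq_zero fun x _ => by rw [hmm]; ring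
        have h2 : ∑ x, C (Sum.inr j, m) (Sum.inl x, m') * v (Sum.inr j, m) * v (Sum.inl x, m') = 0 :=
          Finset.sum_eq_zero fun x _ => by rw [hmp, if_neg (Ne.symm hm')]; ring
        rw [h1, h2, add_zero]
      · intro h
        exact absurd (Finset.mem_univ _) h
    rw [Finset.sum_congr rfl fun i _ => e4 i, Finset.sum_congr rfl fun j _ => e5 j,
      Finset.sum_comm (s := (Finset.univ : Finset β))]
    ring
  rw [e1, e3]
  have e6 : ∑ m, ∑ i, ∑ j, (Matrix.of c) i j * (v (Sum.inl i, m) * (v (Sum.inr j, m) * G v)) =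
      (∑ m, ∑ i, ∑ j, c i j * (v (Sum.inl i, m) * v (Sum.inr j, m))) * G v := by
    simp only [Finset.sum_mul]
    refine Finset.sum_congr rfl fun m _ => Finset.sum_congr rfl fun i _ =>
      Finset.sum_congr rfl fun j _ => ?_
    simp only [Matrix.of_apply]
    ring
  rw [e6]
  ring

end PST
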