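import Pool.Agent.PST.StF
import Pool.Agent.GAM.FCalc
import Pool.Agent.GAM.GroC

/-!
# PST [HatE]: the operator `hop` and the Fock functional
-/

set_option autoImplicit false

namespace PST

open scoped ComplexConjugate
open GAM (H E F pd pdl PLat IsTh OddTor IsDel Gro IsLat)

section

variable {α β μ : Type} [Fintype α] [Fintype β] [Fintype μ]
  [DecidableEq α] [DecidableEq β] [DecidableEq μ]

/-- finite sums -/
private theorem HatE_sum (h : St_Ell) {σ : Type} (s : Finset σ)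
    (f : σ → (Ix α β μ → ℂ) → ℂ) (hf : ∀ i ∈ s, Gro (f i)) :
    Gro (fun v => ∑ i ∈ s, f i v) ∧
    ∀ w ∈ Om α β, ell w (fun v => ∑ i ∈ s, f i v) = ∑ i ∈ s, ell w (f i) := by
  classical
  induction s using Finset.induction_on with
  | empty =>
    refine ⟨⟨?_, ?_⟩, ?_⟩
    · simp only [Finset.sum_empty]
      exact differentiable_const _
    · intro ε _
      refine ⟨0, fun v => ?_⟩
      rw [Finset.sum_empty, norm_zero, zero_mul]
    · intro w _
      unfold ell
      simp only [Finset.sum_empty, zero_mul, MeasureTheory.integral_zero]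
  | insert a s ha ih =>
    obtain ⟨h1, h2⟩ := ih fun i hi => hf i (Finset.mem_insert_of_mem hi)
    have h3 : Gro (f a) := hf a (Finset.mem_insert_self _ _)
    have e : (fun v => ∑ i ∈ insert a s, f i v) = fun v => f a v + ∑ i ∈ s, f i v := by
      funext v
      rw [Finset.sum_insert ha]
    rw [e]
    refine ⟨(GAM.thm_GroC (Ix α β μ)).2.2.2 _ _ h3 h1, fun w hw => ?_⟩
    rw [((h α β μ (f a) h3).2.2 w hw).2.2.2.2 _ h1, h2 w hw, Finset.sum_insert ha]

/-- bilinear sums -/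
private theorem HatE_alg {A B C : Type} [Fintype A] [Fintype B] [Fintype C] (b : B → ℂ)
    (w : B → C → ℂ) (D : C → A → ℂ) (q : ℂ) :
    ∑ m : A, ∑ i : B, b i * (q * ∑ j : C, w i j * D j m) =
      ∑ j : C, (∑ i : B, b i * w i j) * (q * ∑ m : A, D j m) := by
  have r : ∀ j, (∑ i : B, b i * w i j) * (q * ∑ m : A, D j m) =
      ∑ i : B, ∑ m : A, b i * w i j * (q * D j m) := by
    intro j
    rw [Finset.sum_mul]
    refine Finset.sum_congr rfl fun i _ => ?_
    rw [Finset.mul_sum, Finset.mul_sum]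
  have l : ∀ m i, b i * (q * ∑ j : C, w i j * D j m) =
      ∑ j : C, b i * w i j * (q * D j m) := by
    intro m i
    rw [Finset.mul_sum, Finset.mul_sum]
    exact Finset.sum_congr rfl fun j _ => by ring
  simp only [r, l]
  rw [Finset.sum_comm]
  have e : ∀ i : B, ∑ m : A, ∑ j : C, b i * w i j * (q * D j m) =
      ∑ j : C, ∑ m : A, b i * w i j * (q * D j m) := fun i => Finset.sum_comm
  simp only [e]
  exact Finset.sum_comm

/-- exchange of two double sums -/
private theorem HatE_swap {A B C D : Type} [Fintype A] [Fintype B] [Fintype C] [Fintype D]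
    (Z : A → B → C → D → ℂ) :
    ∑ a, ∑ b, ∑ c, ∑ d, Z a b c d = ∑ c, ∑ d, ∑ a, ∑ b, Z a b c d := by
  have e1 : ∀ a, ∑ b, ∑ c, ∑ d, Z a b c d = ∑ c, ∑ b, ∑ d, Z a b c d := fun a =>
    Finset.sum_comm
  simp only [e1]
  rw [Finset.sum_comm]
  refine Finset.sum_congr rfl fun c _ => ?_
  have e2 : ∀ a, ∑ b, ∑ d, Z a b c d = ∑ d, ∑ b, Z a b c d := fun a => Finset.sum_comm
  simp only [e2]
  exact Finset.sum_comm

/-- the quadratic term -/
private theorem HatE_alg4 {A B M : Type} [Fintype A] [Fintype B] [Fintype M] (c : A → B → ℂ)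
    (w : A → B → ℂ) (D : A → B → M → ℂ) (q E : ℂ) :
    ∑ m : M, ∑ i, ∑ j, c i j * (q * (w i j * E + ∑ j', w i j' *
      (q * ∑ i', w i' j * D i' j' m))) =
    Fintype.card M * q * (∑ i, ∑ j, c i j * w i j) * E +
      ∑ i', ∑ j', (q * ∑ i, ∑ j, c i j * w i j' * w i' j) * (q * ∑ m, D i' j' m) := by
  have e0 : ∀ (m : M) (i : A) (j : B), c i j * (q * (w i j * E + ∑ j', w i j' *
      (q * ∑ i', w i' j * D i' j' m))) = q * E * (c i j * w i j) +
        ∑ j', ∑ i', c i j * (q * (w i j' * (q * (w i' j * D i' j' m)))) := by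
    intro m i j
    have e1 : ∑ j', ∑ i', c i j * (q * (w i j' * (q * (w i' j * D i' j' m)))) =
        c i j * (q * ∑ j', w i j' * (q * ∑ i', w i' j * D i' j' m)) := by
      simp only [Finset.mul_sum]
    rw [e1]
    ring
  simp only [e0, Finset.sum_add_distrib]
  congr 1
  · simp only [← Finset.mul_sum]
    rw [Finset.sum_const, Finset.card_univ, nsmul_eq_mul]
    ring
  · have e2 : ∀ m : M, ∑ i, ∑ j, ∑ j', ∑ i', c i j * (q * (w i j' * (q * (w i' j * D i' j' m)))) =
        ∑ j', ∑ i', ∑ i, ∑ j, c i j * (q * (w i j' * (q * (w i' j * D i' j' m)))) := fun m =>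
      HatE_swap _
    simp only [e2]
    have e3 : ∀ i' j', (q * ∑ i, ∑ j, c i j * w i j' * w i' j) * (q * ∑ m, D i' j' m) =
        ∑ m, ∑ i, ∑ j, c i j * (q * (w i j' * (q * (w i' j * D i' j' m)))) := by
      intro i' j'
      rw [Finset.mul_sum Finset.univ (fun m => D i' j' m) q, Finset.mul_sum]
      refine Finset.sum_congr rfl fun m _ => ?_
      rw [Finset.mul_sum, Finset.sum_mul]
      refine Finset.sum_congr rfl fun i _ => ?_
      rw [Finset.mul_sum, Finset.sum_mul]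
      exact Finset.sum_congr rfl fun j _ => by ring
    simp only [e3]
    rw [Finset.sum_comm, Finset.sum_comm (s := (Finset.univ : Finset A))]
    refine Finset.sum_congr rfl fun j' _ => ?_
    exact Finset.sum_comm

end

theorem thm_HatE (h : St_Ell) : St_HatE := by
  intro α β μ _ _ _ _ _ _ k Bp Bm c G hG
  obtain ⟨gpd, gco, gcm, gad⟩ := GAM.thm_GroC (Ix α β μ)
  -- the terms
  have g1 : Gro (fun v => k * G v) := gcm G hG k
  have g2 : ∀ (m : μ) (i i' : α),
      Gro (fun v : Ix α β μ → ℂ => Bp i i' * (v (Sum.inl i', m) * pd (Sum.inl i, m) G v)) :=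
    fun m i i' => gcm _ (gco _ (gpd G hG _) _) _
  have g3 : ∀ (m : μ) (j j' : β),
      Gro (fun v : Ix α β μ → ℂ => Bm j j' * (v (Sum.inr j', m) * pd (Sum.inr j, m) G v)) :=
    fun m j j' => gcm _ (gco _ (gpd G hG _) _) _
  have g4' : ∀ (m : μ) (j : β), Gro (fun v : Ix α β μ → ℂ => v (Sum.inr j, m) * G v) :=
    fun m j => gco G hG _
  have g4 : ∀ (m : μ) (i : α) (j : β), Gro (fun v : Ix α β μ → ℂ =>
      c i j * (v (Sum.inl i, m) * (v (Sum.inr j, m) * G v))) :=
    fun m i j => gcm _ (gco _ (g4' m j) _) _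
  have s2 : ∀ (m : μ) (i : α), Gro (fun v : Ix α β μ → ℂ =>
      ∑ i', Bp i i' * (v (Sum.inl i', m) * pd (Sum.inl i, m) G v)) := fun m i =>
    (HatE_sum h Finset.univ _ fun i' _ => g2 m i i').1
  have s2' : ∀ m : μ, Gro (fun v : Ix α β μ → ℂ =>
      ∑ i, ∑ i', Bp i i' * (v (Sum.inl i', m) * pd (Sum.inl i, m) G v)) := fun m =>
    (HatE_sum h Finset.univ _ fun i _ => s2 m i).1
  have s2'' : Gro (fun v : Ix α β μ → ℂ =>
      ∑ m, ∑ i, ∑ i', Bp i i' * (v (Sum.inl i', m) * pd (Sum.inl i, m) G v)) :=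
    (HatE_sum h Finset.univ _ fun m _ => s2' m).1
  have s3 : ∀ (m : μ) (j : β), Gro (fun v : Ix α β μ → ℂ =>
      ∑ j', Bm j j' * (v (Sum.inr j', m) * pd (Sum.inr j, m) G v)) := fun m j =>
    (HatE_sum h Finset.univ _ fun j' _ => g3 m j j').1
  have s3' : ∀ m : μ, Gro (fun v : Ix α β μ → ℂ =>
      ∑ j, ∑ j', Bm j j' * (v (Sum.inr j', m) * pd (Sum.inr j, m) G v)) := fun m =>
    (HatE_sum h Finset.univ _ fun j _ => s3 m j).1
  have s3'' : Gro (fun v : Ix α β μ → ℂ =>
      ∑ m, ∑ j, ∑ j', Bm j j' * (v (Sum.inr j', m) * pd (Sum.inr j, m) G v)) :=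
    (HatE_sum h Finset.univ _ fun m _ => s3' m).1
  have s4 : ∀ (m : μ) (i : α), Gro (fun v : Ix α β μ → ℂ =>
      ∑ j, c i j * (v (Sum.inl i, m) * (v (Sum.inr j, m) * G v))) := fun m i =>
    (HatE_sum h Finset.univ _ fun j _ => g4 m i j).1
  have s4' : ∀ m : μ, Gro (fun v : Ix α β μ → ℂ =>
      ∑ i, ∑ j, c i j * (v (Sum.inl i, m) * (v (Sum.inr j, m) * G v))) := fun m =>
    (HatE_sum h Finset.univ _ fun i _ => s4 m i).1
  have s4'' : Gro (fun v : Ix α β μ → ℂ =>
      ∑ m, ∑ i, ∑ j, c i j * (v (Sum.inl i, m) * (v (Sum.inr j, m) * G v))) :=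
    (HatE_sum h Finset.univ _ fun m _ => s4' m).1
  have g12 := gad _ _ g1 s2''
  have g123 := gad _ _ g12 s3''
  have hh : Gro (hop k Bp Bm c G) := gad _ _ g123 s4''
  refine ⟨hh, fun w hw => ?_⟩
  -- the second derivatives
  set D : α → β → μ → ℂ := fun i j m => ell w (pd (Sum.inr j, m) (pd (Sum.inl i, m) G)) with hD
  have hP : ∀ p : α × β, pd p (fun w => ell w G) w = 1 / Real.pi * ∑ m, D p.1 p.2 m := by
    intro p
    rw [((h α β μ G hG).2.2 w hw).1 p]
    congr 1
    exact (HatE_sum h Finset.univ (fun m => pd (Sum.inr p.2, m) (pd (Sum.inl p.1, m) G))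
      fun m _ => gpd _ (gpd G hG _) _).2 w hw
  have hcomm : ∀ (i : α) (j : β) (m : μ), pd (Sum.inl i, m) (pd (Sum.inr j, m) G) =
      pd (Sum.inr j, m) (pd (Sum.inl i, m) G) := by
    intro i j m
    funext v
    exact GAM.pd_comm hG.ent _ _ v
  have e2 : ∀ (m : μ) (i i' : α),
      ell w (fun v : Ix α β μ → ℂ => Bp i i' * (v (Sum.inl i', m) * pd (Sum.inl i, m) G v)) =
        Bp i i' * (1 / Real.pi * ∑ j, w (i', j) * D i j m) := by
    intro m i i'
    have hG' := gpd G hG (Sum.inl i, m)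
    rw [((h α β μ _ (gco _ hG' (Sum.inl i', m))).2.2 w hw).2.2.2.1,
      ((h α β μ _ hG').2.2 w hw).2.1]
  have e3 : ∀ (m : μ) (j j' : β),
      ell w (fun v : Ix α β μ → ℂ => Bm j j' * (v (Sum.inr j', m) * pd (Sum.inr j, m) G v)) =
        Bm j j' * (1 / Real.pi * ∑ i, w (i, j') * D i j m) := by
    intro m j j'
    have hG' := gpd G hG (Sum.inr j, m)
    rw [((h α β μ _ (gco _ hG' (Sum.inr j', m))).2.2 w hw).2.2.2.1,
      ((h α β μ _ hG').2.2 w hw).2.2.1]
    simp only [hcomm]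
    rfl
  have e4 : ∀ (m : μ) (i : α) (j : β),
      ell w (fun v : Ix α β μ → ℂ => c i j * (v (Sum.inl i, m) * (v (Sum.inr j, m) * G v))) =
        c i j * (1 / Real.pi * (w (i, j) * ell w G + ∑ j', w (i, j') *
          (1 / Real.pi * ∑ i', w (i', j) * D i' j' m))) := by
    intro m i j
    rw [((h α β μ _ (gco _ (g4' m j) (Sum.inl i, m))).2.2 w hw).2.2.2.1,
      ((h α β μ _ (g4' m j)).2.2 w hw).2.1]
    have e5 : ∀ j' : β, ell w (pd (Sum.inr j', m) fun v : Ix α β μ → ℂ =>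
        v (Sum.inr j, m) * G v) = (if j' = j then ell w G else 0) +
          1 / Real.pi * ∑ i', w (i', j) * D i' j' m := by
      intro j'
      have hG' := gpd G hG (Sum.inr j', m)
      have e6 : (pd (Sum.inr j', m) fun v : Ix α β μ → ℂ => v (Sum.inr j, m) * G v) =
          fun v => (if j' = j then 1 else 0) * G v + v (Sum.inr j, m) * pd (Sum.inr j', m) G v := by
        funext v
        rw [GAM.pd_mul (f := fun v : Ix α β μ → ℂ => v (Sum.inr j, m)) (g := G) (by fun_prop)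
          (hG.ent v), GAM.pd_coord]
        by_cases hj : j' = j
        · subst hj
          simp
        · have hne : ¬ ((Sum.inr j', m) : Ix α β μ) = (Sum.inr j, m) := by
            intro h0
            apply hj
            exact Sum.inr_injective (Prod.ext_iff.1 h0).1
          rw [if_neg hne, if_neg hj]
      rw [e6, ((h α β μ _ (gcm G hG (if j' = j then 1 else 0))).2.2 w hw).2.2.2.2 _
        (gco _ hG' (Sum.inr j, m)), ((h α β μ G hG).2.2 w hw).2.2.2.1,
        ((h α β μ _ hG').2.2 w hw).2.2.1]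
      simp only [hcomm]
      congr 1
      split_ifs <;> simp
    simp only [e5]
    congr 2
    simp only [mul_add, Finset.sum_add_distrib, mul_ite, mul_zero, Finset.sum_ite_eq',
      Finset.mem_univ, if_true]
  -- the functional of the sum
  have t : ell w (hop k Bp Bm c G) = k * ell w G +
      ∑ m, ∑ i, ∑ i', Bp i i' * (1 / Real.pi * ∑ j, w (i', j) * D i j m) +
      ∑ m, ∑ j, ∑ j', Bm j j' * (1 / Real.pi * ∑ i, w (i, j') * D i j m) +
      ∑ m, ∑ i, ∑ j, c i j * (1 / Real.pi * (w (i, j) * ell w G + ∑ j', w (i, j') *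
          (1 / Real.pi * ∑ i', w (i', j) * D i' j' m))) := by
    have e7 : ell w (hop k Bp Bm c G) = ell w (fun v => k * G v) +
        ell w (fun v : Ix α β μ → ℂ =>
          ∑ m, ∑ i, ∑ i', Bp i i' * (v (Sum.inl i', m) * pd (Sum.inl i, m) G v)) +
        ell w (fun v : Ix α β μ → ℂ =>
          ∑ m, ∑ j, ∑ j', Bm j j' * (v (Sum.inr j', m) * pd (Sum.inr j, m) G v)) +
        ell w (fun v : Ix α β μ → ℂ =>
          ∑ m, ∑ i, ∑ j, c i j * (v (Sum.inl i, m) * (v (Sum.inr j, m) * G v))) := by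
      rw [← ((h α β μ _ g1).2.2 w hw).2.2.2.2 _ s2'', ← ((h α β μ _ g12).2.2 w hw).2.2.2.2 _ s3'',
        ← ((h α β μ _ g123).2.2 w hw).2.2.2.2 _ s4'']
      rfl
    rw [e7, ((h α β μ G hG).2.2 w hw).2.2.2.1]
    congr 1
    · congr 1
      · congr 1
        rw [(HatE_sum h Finset.univ _ fun m _ => s2' m).2 w hw]
        refine Finset.sum_congr rfl fun m _ => ?_
        rw [(HatE_sum h Finset.univ _ fun i _ => s2 m i).2 w hw]
        refine Finset.sum_congr rfl fun i _ => ?_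
        rw [(HatE_sum h Finset.univ _ fun i' _ => g2 m i i').2 w hw]
        exact Finset.sum_congr rfl fun i' _ => e2 m i i'
      · rw [(HatE_sum h Finset.univ _ fun m _ => s3' m).2 w hw]
        refine Finset.sum_congr rfl fun m _ => ?_
        rw [(HatE_sum h Finset.univ _ fun j _ => s3 m j).2 w hw]
        refine Finset.sum_congr rfl fun j _ => ?_
        rw [(HatE_sum h Finset.univ _ fun j' _ => g3 m j j').2 w hw]
        exact Finset.sum_congr rfl fun j' _ => e3 m j j'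
    · rw [(HatE_sum h Finset.univ _ fun m _ => s4' m).2 w hw]
      refine Finset.sum_congr rfl fun m _ => ?_
      rw [(HatE_sum h Finset.univ _ fun i _ => s4 m i).2 w hw]
      refine Finset.sum_congr rfl fun i _ => ?_
      rw [(HatE_sum h Finset.univ _ fun j _ => g4 m i j).2 w hw]
      exact Finset.sum_congr rfl fun j _ => e4 m i j
  rw [t, HatE_alg4 c (fun i j => w (i, j)) D (1 / Real.pi) (ell w G)]
  have T2 : ∑ m, ∑ i, ∑ i', Bp i i' * (1 / (Real.pi : ℂ) * ∑ j, w (i', j) * D i j m) =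
      ∑ i, ∑ j, (∑ i', Bp i i' * w (i', j)) * (1 / (Real.pi : ℂ) * ∑ m, D i j m) := by
    rw [Finset.sum_comm]
    exact Finset.sum_congr rfl fun i _ =>
      HatE_alg (fun i' => Bp i i') (fun i' j => w (i', j)) (fun j m => D i j m) _
  have T3 : ∑ m, ∑ j, ∑ j', Bm j j' * (1 / (Real.pi : ℂ) * ∑ i, w (i, j') * D i j m) =
      ∑ i, ∑ j, (∑ j', Bm j j' * w (i, j')) * (1 / (Real.pi : ℂ) * ∑ m, D i j m) := by
    rw [Finset.sum_comm, Finset.sum_comm (s := (Finset.univ : Finset α))]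
    exact Finset.sum_congr rfl fun j _ =>
      HatE_alg (fun j' => Bm j j') (fun j' i => w (i, j')) (fun i m => D i j m) _
  rw [T2, T3, Fintype.sum_prod_type]
  have T : ∑ i, ∑ j, xi Bp Bm c w (i, j) * pd (i, j) (fun w => ell w G) w =
      ∑ i, ∑ j, (∑ i', Bp i i' * w (i', j)) * (1 / (Real.pi : ℂ) * ∑ m, D i j m) +
      ∑ i, ∑ j, (∑ j', Bm j j' * w (i, j')) * (1 / (Real.pi : ℂ) * ∑ m, D i j m) +
      ∑ i', ∑ j', (1 / (Real.pi : ℂ) * ∑ i, ∑ j, c i j * w (i, j') * w (i', j)) *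
        (1 / (Real.pi : ℂ) * ∑ m, D i' j' m) := by
    rw [← Finset.sum_add_distrib, ← Finset.sum_add_distrib]
    refine Finset.sum_congr rfl fun i _ => ?_
    rw [← Finset.sum_add_distrib, ← Finset.sum_add_distrib]
    refine Finset.sum_congr rfl fun j _ => ?_
    rw [hP]
    unfold xi
    ring
  rw [T]
  ring

end PST
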