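import Pool.Agent.PST.StN

/-!
# PST: the operator in the normal form
-/

set_option autoImplicit false
set_option linter.unusedSectionVars false

namespace PST

open scoped ComplexConjugate
open GAM (H E F pd pdl PLat IsTh OddTor IsDel Gro IsLat Pre QD qd jac HasExp CMF CMT IsExp IsCM)
open Pool.Agent.GPC (AbVar hermForm bilForm)
open Module Matrix

section mat

variable {l m n : Type} [Fintype m]

/-- product rule for matrices -/
private theorem HatN_mul (δ : Derivation ℚ ℂ ℂ) (A : Matrix l m ℂ) (B : Matrix m n ℂ) :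
    (A * B).map δ = A * B.map δ + A.map δ * B := by
  ext i j
  simp only [Matrix.map_apply, Matrix.add_apply, Matrix.mul_apply, map_sum]
  rw [← Finset.sum_add_distrib]
  refine Finset.sum_congr rfl fun k _ => ?_
  rw [Derivation.leibniz, smul_eq_mul, smul_eq_mul]
  ring

private theorem HatN_alg (δ : Derivation ℚ ℂ ℂ) (A : Matrix l n ℂ)
    (h : ∀ i j, IsAlgebraic ℚ (A i j)) : A.map δ = 0 := by
  ext i j
  exact Pool.Agent.Helper7.derivation_eq_zero δ _ (h i j)

private theorem HatN_one [DecidableEq n] (δ : Derivation ℚ ℂ ℂ) :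
    (1 : Matrix n n ℂ).map δ = 0 := by
  refine HatN_alg δ _ fun i j => ?_
  by_cases h : i = j
  · subst h
    rw [Matrix.one_apply_eq]
    exact isAlgebraic_one
  · rw [Matrix.one_apply_ne h]
    exact isAlgebraic_zero

end mat

section blk

variable {α β μ : Type} [Fintype α] [Fintype β] [Fintype μ] [DecidableEq α] [DecidableEq β]
  [DecidableEq μ]

private theorem HatN_blk_mul (P P' : Matrix α α ℂ) (Q Q' : Matrix β β ℂ) :
    blk μ P Q * blk μ P' Q' = blk μ (P * P') (Q * Q') := by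
  ext ⟨p, k⟩ ⟨q, l⟩
  rw [Matrix.mul_apply]
  simp only [blk, Matrix.of_apply, Fintype.sum_prod_type, ite_mul, zero_mul, mul_ite, mul_zero]
  simp only [Finset.sum_ite_eq', Finset.mem_univ, if_true]
  by_cases h : k = l
  · subst h
    simp only [if_true]
    rw [← Matrix.mul_apply, Matrix.fromBlocks_multiply]
    simp
  · simp [h]

private theorem HatN_blk_one : blk μ (1 : Matrix α α ℂ) (1 : Matrix β β ℂ) = 1 := by
  ext ⟨p, k⟩ ⟨q, l⟩
  rw [blk, Matrix.of_apply, Matrix.fromBlocks_one]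
  simp only [Matrix.one_apply, Prod.mk.injEq]
  by_cases h : k = l <;> by_cases h' : p = q <;> simp [h, h']

private theorem HatN_blk_map (δ : Derivation ℚ ℂ ℂ) (P : Matrix α α ℂ) (Q : Matrix β β ℂ) :
    (blk μ P Q).map δ = blk μ (P.map δ) (Q.map δ) := by
  ext ⟨p, k⟩ ⟨q, l⟩
  simp only [blk, Matrix.map_apply, Matrix.of_apply]
  by_cases h : k = l
  · rw [if_pos h, if_pos h]
    rcases p with p | p <;> rcases q with q | q <;> simp
  · rw [if_neg h, if_neg h, map_zero]

end blk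

theorem thm_HatN (h1 : St_HatA) (h2 : St_QRel) (h3 : St_HatC) : St_HatN := by
  intro X p d J α β _ _ _ _ T S Tp Tm Ta R X₀ N e L χ θ δ hN hL hθ hne hLe
  -- the blocks
  have b1 : blk (α ⊕ β) Tp Tm * blk (α ⊕ β) Tp⁻¹ Tm⁻¹ = 1 := by
    rw [HatN_blk_mul, Matrix.mul_nonsing_inv _ (isUnit_iff_ne_zero.mpr hN.dp),
      Matrix.mul_nonsing_inv _ (isUnit_iff_ne_zero.mpr hN.dm), HatN_blk_one]
  obtain ⟨Bl, hBl⟩ : ∃ Bl, Bl = blk (α ⊕ β) Tp Tm := ⟨_, rfl⟩
  obtain ⟨Bi, hBi⟩ : ∃ Bi, Bi = blk (α ⊕ β) Tp⁻¹ Tm⁻¹ := ⟨_, rfl⟩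
  have hfac := hN.fac
  rw [← hBl] at hfac
  rw [← hBl, ← hBi] at b1
  have b2 : Bi * Bl = 1 := mul_eq_one_comm.mp b1
  have ts := hN.ts
  have st := hN.st
  -- the algebraic inverse
  have a1 : Ta * S = Bi := by
    have e1 : Bl * (Ta * S) = 1 := by
      rw [← Matrix.mul_assoc, ← hfac, ts]
    calc Ta * S = Bi * Bl * (Ta * S) := by rw [b2, Matrix.one_mul]
      _ = Bi * (Bl * (Ta * S)) := Matrix.mul_assoc _ _ _
      _ = Bi := by rw [e1, Matrix.mul_one]
  have a2 : (S * Bl) * Ta = 1 := by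
    rw [Matrix.mul_assoc, ← hfac, st]
  have a3 : Ta * (S * Bl) = 1 := by
    rw [← Matrix.mul_assoc, a1, b2]
  have a4 : (S * Bl).map δ = 0 := by
    have e1 := HatN_mul δ (S * Bl) Ta
    rw [a2, HatN_one, HatN_alg δ Ta hN.alg, Matrix.mul_zero, zero_add] at e1
    calc (S * Bl).map δ = (S * Bl).map δ * (Ta * (S * Bl)) := by rw [a3, Matrix.mul_one]
      _ = ((S * Bl).map δ * Ta) * (S * Bl) := (Matrix.mul_assoc _ _ _).symm
      _ = 0 := by rw [← e1, Matrix.zero_mul]
  have a5 : S = (S * Bl) * Bi := by rw [Matrix.mul_assoc, b1, Matrix.mul_one]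
  have hB : T * S.map δ = blk (α ⊕ β) (Tp * Tp⁻¹.map δ) (Tm * Tm⁻¹.map δ) := by
    have e1 : S.map δ = (S * Bl) * Bi.map δ := by
      have e2 := HatN_mul δ (S * Bl) Bi
      rw [← a5, a4, Matrix.zero_mul, add_zero] at e2
      exact e2
    rw [e1, ← Matrix.mul_assoc, ← Matrix.mul_assoc, ts, Matrix.one_mul, hBi, HatN_blk_map, hBl,
      HatN_blk_mul]
  -- the operator
  have hlat : ∀ l ∈ L, ∃ n : ℕ, n ≠ 0 ∧ S.mulVec ((n : ℤ) • l) ∈ X.Λ := by
    intro l hl
    obtain ⟨r, hr, hrl⟩ := (hLe l).mp hl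
    have hrR : r ∈ R := by
      have e1 : lat e ≤ (Subalgebra.toSubmodule R).restrictScalars ℤ := by
        refine Submodule.span_le.mpr ?_
        rintro _ ⟨i, rfl⟩
        exact (e i).2
      exact e1 hr
    obtain ⟨n, hn, hn'⟩ := (hN.lat (S.mulVec l)).mpr ⟨r, hrR, by
      rw [Matrix.mulVec_mulVec, ts, Matrix.one_mulVec, hrl]⟩
    refine ⟨n, hn, ?_⟩
    have e2 : S.mulVec ((n : ℤ) • l) = (n : ℤ) • S.mulVec l := by
      rw [Matrix.mulVec_smul]
    rw [e2]
    exact hn'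
  obtain ⟨k, hk⟩ := h1 X (Ix α β (α ⊕ β)) δ S T L χ θ st ts hL hθ hne hN.herm hlat
  rw [hB] at hk
  -- the relation
  have hM : ∀ r ∈ R, ∃ f f' : X.H1 → X.H1, X.IsEnd f ∧ X.IsEnd f' ∧ X.IsAdjoint f f' ∧
      (∀ v, X.zz (f v) = (S * rgt α β r * T).mulVec (X.zz v)) ∧
      ∀ v, X.zz (f' v) = (S * rgt α β r.conjTranspose * T).mulVec (X.zz v) := by
    intro r hr
    obtain ⟨f, f', c1, c2, c3, c4, c5⟩ := hN.act r hr
    refine ⟨f, f', c1, c2, c3, fun v => ?_, fun v => ?_⟩
    · rw [← Matrix.mulVec_mulVec, ← Matrix.mulVec_mulVec, ← c4 v, Matrix.mulVec_mulVec, st,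
        Matrix.one_mulVec]
    · rw [← Matrix.mulVec_mulVec, ← Matrix.mulVec_mulVec, ← c5 v, Matrix.mulVec_mulVec, st,
        Matrix.one_mulVec]
  have hMa : ∀ r ∈ R, (S * rgt α β r * T).map δ = 0 := by
    intro r hr
    obtain ⟨f, f', c1, c2, c3, c4, c5⟩ := hM r hr
    exact HatN_alg δ _ (h2 X f f' _ _ c1 c2 c3 c4 c5).1
  have hq : ∀ r ∈ R, X.q.map δ * (S * rgt α β r * T) =
      (S * rgt α β r.conjTranspose * T).transpose * X.q.map δ := by
    intro r hr
    obtain ⟨f, f', c1, c2, c3, c4, c5⟩ := hM r hr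
    have e1 := HatN_alg δ _ (h2 X f f' _ _ c1 c2 c3 c4 c5).2
    have e2 : (S * rgt α β r.conjTranspose * T).transpose.map δ = 0 := by
      rw [Matrix.transpose_map, hMa _ (hN.dat.star r hr), Matrix.transpose_zero]
    have e3 := HatN_mul δ X.q (S * rgt α β r * T)
    have e4 := HatN_mul δ (S * rgt α β r.conjTranspose * T).transpose X.q
    rw [hMa r hr, Matrix.mul_zero, zero_add] at e3
    rw [e2, Matrix.zero_mul, add_zero] at e4
    rw [← e3, ← e4, ← sub_eq_zero, ← Matrix.map_sub _ (fun a b => map_sub δ a b)]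
    exact e1
  obtain ⟨c, hc⟩ := h3 α β (α ⊕ β) (-(S.transpose * X.q.map δ * S)) (R : Set _)
    (Real.sqrt (d : ℝ)) hk.symm (Real.sqrt_ne_zero'.mpr (by exact_mod_cast hN.dat.pos))
    hN.dat.span hN.dat.jj fun r hr => by
      have e1 : ∀ A : Matrix (Ix α β (α ⊕ β)) (Ix α β (α ⊕ β)) ℂ, S * A * T * S = S * A :=
        fun A => by rw [Matrix.mul_assoc, ts, Matrix.mul_one]
      have e2 : (rgt α β r.conjTranspose).transpose * S.transpose =
          S.transpose * (S * rgt α β r.conjTranspose * T).transpose := by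
        rw [← Matrix.transpose_mul, ← Matrix.transpose_mul, e1]
      rw [Matrix.neg_mul, Matrix.mul_neg, neg_inj]
      calc S.transpose * X.q.map δ * S * rgt α β r
          = S.transpose * X.q.map δ * (S * rgt α β r * T * S) := by
            rw [e1, Matrix.mul_assoc]
        _ = S.transpose * (X.q.map δ * (S * rgt α β r * T)) * S := by
            simp only [Matrix.mul_assoc]
        _ = S.transpose * (S * rgt α β r.conjTranspose * T).transpose * X.q.map δ * S := by
            rw [hq r hr]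
            simp only [Matrix.mul_assoc]
        _ = (rgt α β r.conjTranspose).transpose * (S.transpose * X.q.map δ * S) := by
            rw [← e2]
            simp only [Matrix.mul_assoc]
  refine ⟨k, c, fun x hx => ?_⟩
  rw [← hc]
  exact hk.del x hx

end PST
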