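import Pool.Agent.PST.StF
import Pool.Agent.GAM.Hol

/-!
# PST [HolP]: holomorphic parameter integrals over `κ → ℂ`
-/

set_option autoImplicit false

namespace PST

open scoped ComplexConjugate Topology
open MeasureTheory Metric Filter
open GAM (pd)

section holp

variable {ι : Type} [Fintype ι] {κ : Type} [Fintype κ]

private lemma HolP_fderiv_bound {g : (ι → ℂ) → ℂ} (hg : Differentiable ℂ g) {z : ι → ℂ}
    {s C : ℝ} (hs : 0 < s) (hC : ∀ y, ‖y - z‖ ≤ s → ‖g y‖ ≤ C) : ‖fderiv ℂ g z‖ ≤ C / s := by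
  have h1 := GAM.norm_iter_le (U := Set.univ) isOpen_univ hg.differentiableOn (x := z) (ρ := s)
    (C := C) (Set.subset_univ _) (fun y hy => hC y (by
      rw [← dist_eq_norm]; exact mem_closedBall.1 hy)) hs 1 z (by simp)
  rw [pow_one] at h1
  have h2 : ‖iteratedFDeriv ℂ 1 g z‖ = ‖fderiv ℂ g z‖ := by
    rw [← norm_fderiv_iteratedFDeriv (n := 0), iteratedFDeriv_zero_eq_comp,
      LinearIsometryEquiv.comp_fderiv]
    exact LinearIsometry.norm_toContinuousLinearMap_comp _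
  rwa [h2] at h1

private lemma HolP_main (U : Set (ι → ℂ)) (f : (ι → ℂ) → (κ → ℂ) → ℂ)
    (hf : Continuous (fun p : (ι → ℂ) × (κ → ℂ) => f p.1 p.2))
    (hd : ∀ ξ, Differentiable ℂ fun z => f z ξ)
    (hB : ∀ z₀ ∈ U, ∃ (δ : ℝ) (B : (κ → ℂ) → ℝ), 0 < δ ∧ MeasureTheory.Integrable B ∧
      ∀ z, ‖z - z₀‖ < δ → ∀ ξ, ‖f z ξ‖ ≤ B ξ) (z : ι → ℂ) (hz : z ∈ U) :
    Integrable (fun ξ => fderiv ℂ (fun z => f z ξ) z) ∧
      HasFDerivAt (fun z => ∫ ξ, f z ξ) (∫ ξ, fderiv ℂ (fun z => f z ξ) z) z := by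
  obtain ⟨δ, B, hδ, hBi, hBd⟩ := hB z hz
  have hcont : Continuous (Function.uncurry fun (ξ : κ → ℂ) (z : ι → ℂ) => f z ξ) := by
    have : Continuous fun q : (κ → ℂ) × (ι → ℂ) => f q.2 q.1 :=
      hf.comp (continuous_snd.prodMk continuous_fst)
    exact this
  have hmeas : ∀ y : ι → ℂ, AEStronglyMeasurable (f y) := fun y =>
    (hf.comp (Continuous.prodMk_right y)).aestronglyMeasurable
  have hmeas' : AEStronglyMeasurable (fun ξ => fderiv ℂ (fun z => f z ξ) z) :=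
    ((measurable_fderiv_with_param ℂ hcont).comp
      (measurable_id.prodMk measurable_const)).aestronglyMeasurable
  have hbd : ∀ y ∈ ball z (δ / 2), ∀ ξ, ‖fderiv ℂ (fun z => f z ξ) y‖ ≤ B ξ / (δ / 4) := by
    intro y hy ξ
    refine HolP_fderiv_bound (hd ξ) (by positivity) fun x hx => hBd x ?_ ξ
    have h1 : ‖y - z‖ < δ / 2 := by rw [← dist_eq_norm]; exact mem_ball.1 hy
    have h2 : ‖x - z‖ ≤ ‖x - y‖ + ‖y - z‖ := by
      have := norm_add_le (x - y) (y - z)
      rwa [sub_add_sub_cancel] at this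
    linarith
  have hint : Integrable (fun ξ => B ξ / (δ / 4)) := hBi.div_const _
  have hz' : z ∈ ball z (δ / 2) := mem_ball_self (by positivity)
  refine ⟨hint.mono' hmeas' (ae_of_all _ fun ξ => hbd z hz' ξ), ?_⟩
  refine hasFDerivAt_integral_of_dominated_of_fderiv_le (bound := fun ξ => B ξ / (δ / 4))
    (F' := fun y ξ => fderiv ℂ (fun z => f z ξ) y)
    (ball_mem_nhds z (by positivity : 0 < δ / 2)) (Eventually.of_forall hmeas) ?_ hmeas'
    (ae_of_all _ fun ξ y hy => hbd y hy ξ) hint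
    (ae_of_all _ fun ξ y _ => (hd ξ y).hasFDerivAt)
  exact hBi.mono' (hmeas z) (ae_of_all _ fun ξ => hBd z (by simpa using hδ) ξ)

end holp

theorem thm_HolP : St_HolP := by
  intro ι κ _ _ _ U f _ hf hd hB
  refine ⟨fun z hz => ?_, fun z hz j => ?_⟩
  · exact (HolP_main U f hf hd hB z hz).2.differentiableAt.differentiableWithinAt
  · obtain ⟨h1, h2⟩ := HolP_main U f hf hd hB z hz
    have h3 : Integrable (fun ξ => (fderiv ℂ (fun z => f z ξ) z) (Pi.single j 1)) :=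
      h1.apply_continuousLinearMap _
    refine ⟨h3, ?_⟩
    unfold pd
    rw [h2.fderiv, ContinuousLinearMap.integral_apply h1]

end PST
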