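import Pool.Agent.PST.StF
import Pool.Agent.GAM.Ind2
import Pool.Agent.GAM.OddD

/-!
# PST [Ind3]: independence of `1` and the second order operators `D_ij`
-/

set_option autoImplicit false

namespace PST

open scoped ComplexConjugate
open GAM (H E F pd pdl PLat IsTh OddTor IsDel Gro IsLat)

section

variable {α β μ : Type} [Fintype α] [Fintype β] [Fintype μ] [DecidableEq α] [DecidableEq β]
  [DecidableEq μ]

/-- the coefficient of `exp` in the second derivative of `F_x`, with `conj x` replaced by `y` -/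
private noncomputable def Ind3T (θ : (Ix α β μ → ℂ) → ℂ) (p : α × β) (k : μ)
    (x y : Ix α β μ → ℂ) : ℂ :=
  pd (Sum.inr p.2, k) (pd (Sum.inl p.1, k) θ) x -
    Real.pi * y (Sum.inl p.1, k) * pd (Sum.inr p.2, k) θ x -
    Real.pi * y (Sum.inr p.2, k) * pd (Sum.inl p.1, k) θ x +
    Real.pi ^ 2 * (y (Sum.inr p.2, k) * y (Sum.inl p.1, k)) * θ x

private noncomputable def Ind3Q (θ : (Ix α β μ → ℂ) → ℂ) (c : ℂ) (b : α × β → ℂ)
    (x y : Ix α β μ → ℂ) : ℂ :=
  c * θ x + ∑ p, b p * ∑ k, Ind3T θ p k x y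

private theorem Ind3_F {θ : (Ix α β μ → ℂ) → ℂ} (hθ : Differentiable ℂ θ) (c : ℂ)
    (b : α × β → ℂ) (x : Ix α β μ → ℂ) :
    c * F θ x 0 + ∑ p, b p * Dij p (F θ x) 0 =
      Ind3Q θ c b x (star x) * Complex.exp (-(Real.pi / 2 * H x x)) := by
  unfold Ind3Q Dij
  rw [add_mul, Finset.sum_mul, GAM.F_at_zero]
  refine congrArg₂ (· + ·) (by ring) (Finset.sum_congr rfl fun p _ => ?_)
  rw [mul_assoc, Finset.sum_mul]
  refine congrArg₂ (· * ·) rfl (Finset.sum_congr rfl fun k _ => ?_)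
  rw [GAM.Ind2_pd2 hθ]
  unfold Ind3T
  simp only [Pi.star_apply, Complex.star_def]

private theorem Ind3_diff {θ : (Ix α β μ → ℂ) → ℂ} (hθ : Differentiable ℂ θ) (c : ℂ)
    (b : α × β → ℂ) : Differentiable ℂ fun p : (Ix α β μ → ℂ) × (Ix α β μ → ℂ) =>
    Ind3Q θ c b p.1 p.2 := by
  unfold Ind3Q Ind3T
  have e0 := hθ.comp (differentiable_fst (𝕜 := ℂ) (E := Ix α β μ → ℂ) (F := Ix α β μ → ℂ))
  have e1 : ∀ q, Differentiable ℂ fun p : (Ix α β μ → ℂ) × (Ix α β μ → ℂ) => pd q θ p.1 :=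
    fun q => (GAM.pd_diff hθ q).comp
      (differentiable_fst (𝕜 := ℂ) (E := Ix α β μ → ℂ) (F := Ix α β μ → ℂ))
  have e2 : ∀ q r, Differentiable ℂ fun p : (Ix α β μ → ℂ) × (Ix α β μ → ℂ) =>
      pd q (pd r θ) p.1 :=
    fun q r => (GAM.pd_diff (GAM.pd_diff hθ r) q).comp
      (differentiable_fst (𝕜 := ℂ) (E := Ix α β μ → ℂ) (F := Ix α β μ → ℂ))
  have e3 : ∀ q, Differentiable ℂ fun p : (Ix α β μ → ℂ) × (Ix α β μ → ℂ) => p.2 q := by
    intro q
    fun_prop
  simp only [Function.comp_def] at e0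
  refine (e0.const_mul c).add ?_
  refine Differentiable.fun_sum fun p _ => Differentiable.const_mul ?_ _
  refine Differentiable.fun_sum fun k _ => ?_
  refine ((((e2 _ _).sub (((e3 _).const_mul _).mul (e1 _))).sub
    (((e3 _).const_mul _).mul (e1 _))).add ?_)
  exact (((e3 _).mul (e3 _)).const_mul _).mul e0

private theorem Ind3_rel {θ : (Ix α β μ → ℂ) → ℂ} (c : ℂ) (b : α × β → ℂ)
    (x : Ix α β μ → ℂ) (i : α) (j : β) (k : μ) :
    Ind3Q θ c b x (Pi.single (Sum.inl i, k) 1 + Pi.single (Sum.inr j, k) 1) -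
      Ind3Q θ c b x (Pi.single (Sum.inl i, k) 1) - Ind3Q θ c b x (Pi.single (Sum.inr j, k) 1) +
      Ind3Q θ c b x 0 = b (i, j) * (Real.pi ^ 2 * θ x) := by
  set s : Ix α β μ → ℂ := Pi.single (Sum.inl i, k) 1 with hs
  set t : Ix α β μ → ℂ := Pi.single (Sum.inr j, k) 1 with ht
  have hT : ∀ (p : α × β) (m : μ), Ind3T θ p m x (s + t) - Ind3T θ p m x s - Ind3T θ p m x t +
      Ind3T θ p m x 0 = if p = (i, j) then (if m = k then Real.pi ^ 2 * θ x else 0) else 0 := by
    intro p m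
    have h1 : s (Sum.inr p.2, m) = 0 := by
      rw [hs, Pi.single_apply, if_neg]
      intro h
      exact absurd (congrArg Prod.fst h) (by simp)
    have h2 : t (Sum.inl p.1, m) = 0 := by
      rw [ht, Pi.single_apply, if_neg]
      intro h
      exact absurd (congrArg Prod.fst h) (by simp)
    have h3 : s (Sum.inl p.1, m) * t (Sum.inr p.2, m) =
        if p = (i, j) then (if m = k then 1 else 0) else 0 := by
      rw [hs, ht, Pi.single_apply, Pi.single_apply]
      obtain ⟨i', j'⟩ := p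
      by_cases hi : i' = i
      · by_cases hj : j' = j
        · by_cases hk : m = k
          · simp [hi, hj, hk]
          · simp [hi, hj, hk]
        · simp [hj]
      · simp [hi]
    have h4 : Ind3T θ p m x (s + t) - Ind3T θ p m x s - Ind3T θ p m x t + Ind3T θ p m x 0 =
        (s (Sum.inl p.1, m) * t (Sum.inr p.2, m)) * (Real.pi ^ 2 * θ x) := by
      unfold Ind3T
      simp only [Pi.add_apply, Pi.zero_apply, h1, h2]
      ring
    rw [h4, h3]
    split_ifs <;> ring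
  have h1 : Ind3Q θ c b x (s + t) - Ind3Q θ c b x s - Ind3Q θ c b x t + Ind3Q θ c b x 0 =
      ∑ p, b p * ∑ m, (Ind3T θ p m x (s + t) - Ind3T θ p m x s - Ind3T θ p m x t +
        Ind3T θ p m x 0) := by
    unfold Ind3Q
    simp only [Finset.sum_add_distrib, Finset.sum_sub_distrib, mul_add, mul_sub]
    ring
  rw [h1]
  simp only [hT]
  rw [Finset.sum_eq_single (i, j)]
  · simp
  · intro p _ hp
    simp [hp]
  · intro h
    exact absurd (Finset.mem_univ _) h

end

theorem thm_Ind3 : St_Ind3 := by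
  intro α β μ _ _ _ _ _ _ L χ θ hμ hP hT hne c b hnz
  by_contra hcon
  push Not at hcon
  have hθ := hT.ent
  obtain ⟨k⟩ := hμ
  have hodd : ∀ x, OddTor L x → Ind3Q θ c b x (star x) = 0 := by
    intro x hx
    have e1 := hcon x hx
    rw [Ind3_F hθ] at e1
    exact (mul_eq_zero.1 e1).resolve_right (Complex.exp_ne_zero _)
  have hQd := Ind3_diff hθ c b
  have hall : ∀ x : Ix α β μ → ℂ, Ind3Q θ c b x (star x) = 0 := by
    have hc : Continuous (fun x : Ix α β μ → ℂ => Ind3Q θ c b x (star x)) :=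
      hQd.continuous.comp (continuous_id.prodMk continuous_star)
    have hdense := GAM.thm_OddD (Ix α β μ) L (GAM.PLat.isLat hP)
    have e1 := Continuous.ext_on hdense hc (continuous_const (y := (0 : ℂ)))
      (fun x hx => hodd x hx)
    exact fun x => congrFun e1 x
  have hQ0 : ∀ x y : Ix α β μ → ℂ, Ind3Q θ c b x y = 0 := GAM.Ind2_pol hQd hall
  obtain ⟨x, hx⟩ := hne
  have hpi : (Real.pi : ℂ) ≠ 0 := by exact_mod_cast Real.pi_ne_zero
  have hk : (Real.pi : ℂ) ^ 2 * θ x ≠ 0 := mul_ne_zero (pow_ne_zero 2 hpi) hx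
  have hb : b = 0 := by
    funext p
    have h1 := Ind3_rel (θ := θ) c b x p.1 p.2 k
    rw [hQ0, hQ0, hQ0, hQ0] at h1
    have h2 : b (p.1, p.2) * ((Real.pi : ℂ) ^ 2 * θ x) = 0 := by rw [← h1]; ring
    exact (mul_eq_zero.1 h2).resolve_right hk
  refine hnz ⟨?_, hb⟩
  have h1 := hQ0 x 0
  unfold Ind3Q at h1
  rw [hb] at h1
  simp only [Pi.zero_apply, zero_mul, Finset.sum_const_zero, add_zero] at h1
  exact (mul_eq_zero.1 h1).resolve_right hx

end PST
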