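import Pool.Agent.PST.StH
import Pool.Agent.GAM.AVDel
import Pool.Agent.GAM.AVFac
import Pool.Agent.GAM.AVNz
import Pool.Agent.GAM.AVJac
import Pool.Agent.GAM.ExpAV
import Pool.Agent.GAM.Mer
import Pool.Agent.GAM.DelR
import Pool.Agent.GAM.Hol

/-!
# PST [LdA]: `ld` for the lattice of an abelian variety
-/

set_option autoImplicit false

namespace PST

open scoped ComplexConjugate
open GAM (H E F pd pdl PLat IsTh OddTor IsDel Gro IsLat Pre QD qd jac HasExp)
open Pool.Agent.GPC (AbVar hermForm bilForm)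

section LdA

variable {ι : Type} [Fintype ι] [DecidableEq ι]

omit [DecidableEq ι] in
/-- a sublattice which is mapped into a given lattice -/
theorem LdA_lat {g : ℕ} (S : Matrix (Fin g) ι ℂ) (Γ : Submodule ℤ (Fin g → ℂ))
    (b0 : Module.Basis (ι ⊕ ι) ℝ (ι → ℂ))
    (hL : ∀ l ∈ Submodule.span ℤ (Set.range b0), ∃ n : ℕ, n ≠ 0 ∧
      S.mulVec ((n : ℤ) • l) ∈ Γ) :
    ∃ (M : ℕ) (Λ : Submodule ℤ (ι → ℂ)), M ≠ 0 ∧ IsLat Λ ∧
      (∀ l ∈ Λ, l ∈ Submodule.span ℤ (Set.range b0)) ∧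
      (∀ l ∈ Submodule.span ℤ (Set.range b0), (M : ℤ) • l ∈ Λ) ∧
      ∀ l ∈ Λ, S.mulVec l ∈ Γ := by
  classical
  choose n hn0 hn using fun i : ι ⊕ ι => hL (b0 i) (Submodule.subset_span ⟨i, rfl⟩)
  set M : ℕ := ∏ i, n i with hM
  have hM0 : M ≠ 0 := Finset.prod_ne_zero_iff.2 fun i _ => hn0 i
  have hMR : (M : ℝ) ≠ 0 := Nat.cast_ne_zero.2 hM0
  set b1 : Module.Basis (ι ⊕ ι) ℝ (ι → ℂ) :=
    b0.isUnitSMul (w := fun _ => (M : ℝ)) (fun _ => isUnit_iff_ne_zero.2 hMR) with hb1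
  have hb1i : ∀ i, b1 i = (M : ℤ) • b0 i := by
    intro i
    rw [hb1, Module.Basis.isUnitSMul_apply]
    funext s
    simp
  refine ⟨M, Submodule.span ℤ (Set.range b1), hM0, ⟨b1, rfl⟩, ?_, ?_, ?_⟩
  · intro l hl
    refine Submodule.span_le.2 ?_ hl
    rintro _ ⟨i, rfl⟩
    rw [hb1i]
    exact Submodule.smul_mem _ _ (Submodule.subset_span ⟨i, rfl⟩)
  · intro l hl
    induction hl using Submodule.span_induction with
    | mem x hx =>
      obtain ⟨i, rfl⟩ := hx
      rw [← hb1i]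
      exact Submodule.subset_span ⟨i, rfl⟩
    | zero =>
      rw [smul_zero]
      exact zero_mem _
    | add x y _ _ hx hy =>
      rw [smul_add]
      exact add_mem hx hy
    | smul a x _ hx =>
      rw [smul_comm]
      exact Submodule.smul_mem _ _ hx
  · intro l hl
    induction hl using Submodule.span_induction with
    | mem x hx =>
      obtain ⟨i, rfl⟩ := hx
      rw [hb1i]
      have hd : n i ∣ M := Finset.dvd_prod_of_mem n (Finset.mem_univ i)
      obtain ⟨k, hk⟩ := hd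
      have e : (M : ℤ) • b0 i = (k : ℤ) • ((n i : ℤ) • b0 i) := by
        rw [smul_smul]
        congr 1
        rw [hk]
        push_cast
        ring
      rw [e, Matrix.mulVec_smul]
      exact Submodule.smul_mem _ _ (hn i)
    | zero =>
      rw [Matrix.mulVec_zero]
      exact zero_mem _
    | add x y _ _ hx hy =>
      rw [Matrix.mulVec_add]
      exact add_mem hx hy
    | smul a x _ hx =>
      rw [Matrix.mulVec_smul]
      exact Γ.smul_mem a hx

/-- the derivative of a quotient by an operator of Euler type -/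
theorem LdA_qd (B : Matrix ι ι ℂ) {a b : (ι → ℂ) → ℂ} {v : ι → ℂ}
    (ha : DifferentiableAt ℂ a v) (hb : DifferentiableAt ℂ b v) (h0 : b v ≠ 0) :
    qd a b (gop 0 B 0 a) (gop 0 B 0 b) v =
      ∑ c, ∑ e, B c e * (v e * pd c (fun z => a z / b z) v) := by
  have h1 : ∀ G : (ι → ℂ) → ℂ, gop 0 B 0 G v = ∑ c, ∑ e, B c e * (v e * pd c G v) := by
    intro G
    simp [gop]
  unfold qd
  rw [h1, h1, Finset.sum_mul, Finset.mul_sum, ← Finset.sum_sub_distrib, Finset.sum_div]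
  refine Finset.sum_congr rfl fun c _ => ?_
  rw [Finset.sum_mul, Finset.mul_sum, ← Finset.sum_sub_distrib, Finset.sum_div]
  refine Finset.sum_congr rfl fun e _ => ?_
  rw [GAM.pd_div' ha hb h0]
  ring

end LdA

theorem thm_LdA (h1 : St_LinS) (h2 : St_LdB) : St_LdA := by
  intro X ι _ _ δ S T L χ θ G ld β₀ β hST hTS hP hθ hnz hpre hL
  classical
  obtain ⟨b0, hb0L⟩ := hP.basis
  obtain ⟨M, Λ, hM0, hΛ, hΛL, hMΛ, hΛX⟩ := LdA_lat S X.Λ b0 (by rw [← hb0L]; exact hL)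
  rw [← hb0L] at hΛL hMΛ
  have hSi : ∀ v, S.mulVec v = 0 → v = 0 := by
    intro v hv
    have h3 : T.mulVec (S.mulVec v) = v := by
      rw [Matrix.mulVec_mulVec, hTS, Matrix.one_mulVec]
    rw [← h3, hv, Matrix.mulVec_zero]
  obtain ⟨i₀, c, hd, hdel⟩ := GAM.thm_AVDel GAM.thm_Hol X
  obtain ⟨e₀, N₀, hfac, hhas⟩ := GAM.thm_AVFac X c (X.θ i₀ 0)
  obtain ⟨n, hn⟩ := GAM.thm_AVNz X {S.mulVec (0 : ι → ℂ)}
  have hn' : ∑ j, (n j : ℂ) * X.θ j (S.mulVec (0 : ι → ℂ)) ≠ 0 :=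
    hn _ (Finset.mem_singleton_self _)
  obtain ⟨j, hj⟩ := GAM.thm_AVJac X ι S c (X.θ i₀ 0) n 0 hd hSi hn'
  set u : Fin (X.N + 1) → (Fin X.g → ℂ) → ℂ := fun j z =>
    Complex.exp (-∑ a, c a * z a) * X.θ j z / X.θ i₀ 0 with hu
  set b : (ι → ℂ) → ℂ := fun v => ∑ j, (n j : ℂ) * u j (S.mulVec v) with hb
  have hb0 : b 0 ≠ 0 := by
    have e : b 0 = Complex.exp (-∑ a, c a * S.mulVec (0 : ι → ℂ) a) / X.θ i₀ 0 *
        ∑ j, (n j : ℂ) * X.θ j (S.mulVec (0 : ι → ℂ)) := by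
      rw [hb, Finset.mul_sum]
      refine Finset.sum_congr rfl fun j _ => ?_
      simp only [hu]
      ring
    rw [e]
    exact mul_ne_zero (div_ne_zero (Complex.exp_ne_zero _) hd) hn'
  have hRg := GAM.thm_DelR GAM.thm_Hol (Fin X.g) δ
  have hda : ∀ j, IsDel δ (fun v : ι → ℂ => u j (S.mulVec v))
      (gop 0 (T * S.map δ) 0 fun v => u j (S.mulVec v)) := fun j =>
    h1 ι (Fin X.g) δ S T (u j) hST (hdel j δ)
  have hdb0 : IsDel δ (fun w : Fin X.g → ℂ => ∑ j, (n j : ℂ) * u j w) (fun _ => 0) := by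
    have := GAM.ExpAV_dsum hRg Finset.univ (fun j (w : Fin X.g → ℂ) => (n j : ℂ) * u j w)
      (fun j w => δ (n j : ℂ) * u j w + (n j : ℂ) * 0)
      fun j _ => hRg.mul _ _ _ _ (hRg.const _) (hdel j δ)
    simpa using this
  have hdb : IsDel δ b (gop 0 (T * S.map δ) 0 b) := by
    have := h1 ι (Fin X.g) δ S T _ hST hdb0
    exact this
  refine h2 ι δ L Λ χ θ G ld β₀ β (T * S.map δ) M (fun i v => u (j i) (S.mulVec v)) (fun _ => b)
    (fun i => gop 0 (T * S.map δ) 0 fun v => u (j i) (S.mulVec v))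
    (fun _ => gop 0 (T * S.map δ) 0 b) 0 hP hθ hnz hpre hΛ hΛL hM0 hMΛ (fun i => ?_)
    (fun i => hb0) hj (fun i v hv => ?_)
  · refine ⟨hda (j i), hdb, ⟨0, hb0⟩, fun l v => e₀ (S.mulVec l) (S.mulVec v),
      fun v => N₀ (S.mulVec v), ⟨?_, ?_, ?_⟩, ?_, ?_⟩
    · have : Continuous (fun v : ι → ℂ => S.mulVec v) := by fun_prop
      exact hfac.cont.comp this
    · intro l hl
      have : Differentiable ℂ (fun v : ι → ℂ => S.mulVec v) :=
        (LinearMap.toContinuousLinearMap (Matrix.mulVecLin S)).differentiable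
      exact (hfac.hol _ (hΛX l hl)).comp this
    · intro l hl v
      have := hfac.norm _ (hΛX l hl) (S.mulVec v)
      rw [← Matrix.mulVec_add] at this
      exact this
    · intro l hl v
      have := hhas (j i) _ (hΛX l hl) (S.mulVec v)
      rw [← Matrix.mulVec_add] at this
      exact this
    · intro l hl v
      simp only [hb]
      rw [Finset.mul_sum]
      refine Finset.sum_congr rfl fun j _ => ?_
      have := hhas j _ (hΛX l hl) (S.mulVec v)
      rw [← Matrix.mulVec_add] at this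
      rw [show u j (S.mulVec (v + l)) = e₀ (S.mulVec l) (S.mulVec v) * u j (S.mulVec v) from
        this]
      ring
  · exact LdA_qd (T * S.map δ) ((hda (j i)).ent v) (hdb.ent v) hv

end PST
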