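import Pool.Agent.PST.StH
import Pool.Agent.GAM.QDF
import Pool.Agent.GAM.TorD
import Pool.Agent.GAM.Sieg
import Pool.Agent.GAM.Imm
import Pool.Agent.GAM.Ind1
import Pool.Agent.GAM.OddD
import Pool.Agent.GAM.DelR

/-!
# PST: [LdG], `ld` from the operator, on sublattices
-/

set_option autoImplicit false
set_option linter.unusedSectionVars false
set_option linter.unusedVariables false

namespace PST

open scoped ComplexConjugate
open GAM (H E F pd pdl PLat IsTh OddTor IsDel Gro IsLat Pre QD qd jac HasExp DelRules)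

section LdG

variable {ι : Type} [Fintype ι] [DecidableEq ι] {δ : Derivation ℚ ℂ ℂ}
  {L Λ : Submodule ℤ (ι → ℂ)} {χ θ : (ι → ℂ) → ℂ}

theorem LdG_DelR : GAM.St_DelR := GAM.thm_DelR GAM.thm_Hol

theorem LdG_Per : GAM.St_Per := GAM.thm_Per (GAM.thm_TorD GAM.thm_Sieg) LdG_DelR

theorem LdG_Imm : GAM.St_Imm := GAM.thm_Imm (GAM.thm_Ind1 GAM.thm_OddD) GAM.thm_OddD

/-- The Euler type operator `∑ B_ab v_b ∂_a`. -/
noncomputable def LdG_eb (B : Matrix ι ι ℂ) (G : (ι → ℂ) → ℂ) (v : ι → ℂ) : ℂ :=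
  ∑ a, ∑ b, B a b * (v b * pd a G v)

theorem LdG_eb_eq (B : Matrix ι ι ℂ) (G : (ι → ℂ) → ℂ) (v : ι → ℂ) :
    LdG_eb B G v = ∑ a, B.mulVec v a * pd a G v := by
  unfold LdG_eb
  refine Finset.sum_congr rfl fun a _ => ?_
  rw [Matrix.mulVec, dotProduct, Finset.sum_mul]
  exact Finset.sum_congr rfl fun b _ => by ring

theorem LdG_gop (k : ℂ) (B C : Matrix ι ι ℂ) (G : (ι → ℂ) → ℂ) (v : ι → ℂ) :
    gop k B C G v = (k + 1 / 2 * (∑ a, ∑ b, C a b * v a * v b)) * G v + LdG_eb B G v := by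
  unfold gop LdG_eb
  ring

theorem LdG_eb_pow (B : Matrix ι ι ℂ) {f : (ι → ℂ) → ℂ} (hf : Differentiable ℂ f) (n : ℕ)
    (v : ι → ℂ) : LdG_eb B (fun z => f z ^ n) v = n * f v ^ (n - 1) * LdG_eb B f v := by
  simp only [LdG_eb_eq, Finset.mul_sum]
  refine Finset.sum_congr rfl fun a _ => ?_
  rw [GAM.pd_pow (hf v)]
  ring

theorem LdG_eb_mul (B : Matrix ι ι ℂ) {f g : (ι → ℂ) → ℂ} (hf : Differentiable ℂ f)
    (hg : Differentiable ℂ g) (v : ι → ℂ) :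
    LdG_eb B (fun z => f z * g z) v = LdG_eb B f v * g v + f v * LdG_eb B g v := by
  simp only [LdG_eb_eq, Finset.mul_sum, Finset.sum_mul, ← Finset.sum_add_distrib]
  refine Finset.sum_congr rfl fun a _ => ?_
  rw [GAM.pd_mul' (hf v) (hg v)]
  ring

/-- if `a' = s a + E_B a` and `b' = t b + E_B b` at `v`, then the quotient has the derivative
`(s - t) (a / b) + E_B (a / b)` -/
theorem LdG_qd (B : Matrix ι ι ℂ) {a b a' b' : (ι → ℂ) → ℂ} (ha : Differentiable ℂ a)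
    (hb : Differentiable ℂ b) {v : ι → ℂ} (h0 : b v ≠ 0) {s t : ℂ}
    (h1 : a' v = s * a v + LdG_eb B a v) (h2 : b' v = t * b v + LdG_eb B b v) :
    qd a b a' b' v = (s - t) * (a v / b v) + LdG_eb B (fun z => a z / b z) v := by
  have h3 : LdG_eb B (fun z => a z / b z) v =
      (LdG_eb B a v * b v - a v * LdG_eb B b v) / b v ^ 2 := by
    simp only [LdG_eb_eq]
    rw [Finset.sum_mul, Finset.mul_sum, ← Finset.sum_sub_distrib, Finset.sum_div]
    refine Finset.sum_congr rfl fun c _ => ?_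
    rw [GAM.pd_div' (ha v) (hb v) h0]
    ring
  rw [h3, GAM.qd, h1, h2]
  field_simp
  ring

/-- periodicity of the derivatives -/
theorem LdG_pd_per {a b a' b' : (ι → ℂ) → ℂ} (hQ : QD δ Λ a b a' b') {l : ι → ℂ} (hl : l ∈ Λ)
    (v : ι → ℂ) (j : ι) :
    pd j (fun z => a z / b z) (v + l) = pd j (fun z => a z / b z) v := by
  have h1 : pd j (fun z => a (z + l) / b (z + l)) v = pd j (fun z => a z / b z) (v + l) :=
    GAM.pd_shift' (fun z => a z / b z) l v j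
  have h2 : (fun z => a (z + l) / b (z + l)) = fun z => a z / b z :=
    funext fun z => hQ.per hl z
  rw [← h1, h2]

/-- differences of `E_B (a / b)` -/
theorem LdG_eb_per (B : Matrix ι ι ℂ) {a b a' b' : (ι → ℂ) → ℂ} (hQ : QD δ Λ a b a' b')
    {l : ι → ℂ} (hl : l ∈ Λ) (v : ι → ℂ) :
    LdG_eb B (fun z => a z / b z) (v + l) - LdG_eb B (fun z => a z / b z) v =
      ∑ j, B.mulVec l j * pd j (fun z => a z / b z) v := by
  simp only [LdG_eb_eq]
  rw [← Finset.sum_sub_distrib]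
  refine Finset.sum_congr rfl fun j _ => ?_
  rw [LdG_pd_per hQ hl, Matrix.mulVec_add, Pi.add_apply]
  ring

theorem LdG_mono (h : ∀ l ∈ Λ, l ∈ L) {a b a' b' : (ι → ℂ) → ℂ}
    (hQ : QD δ L a b a' b') : QD δ Λ a b a' b' where
  da := hQ.da
  db := hQ.db
  nz := hQ.nz
  fac := by
    obtain ⟨e, N, h1, h2, h3⟩ := hQ.fac
    exact ⟨e, N, ⟨h1.cont, fun l hl => h1.hol l (h l hl), fun l hl => h1.norm l (h l hl)⟩,
      fun l hl => h2 l (h l hl), fun l hl => h3 l (h l hl)⟩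

/-- coordinates with `qd = E_B` -/
theorem LdG_coord (hP : PLat L χ) (hT : IsTh L χ θ) (h0 : ∃ v, θ v ≠ 0) {k : ℂ}
    {B C : Matrix ι ι ℂ} (hG : HasGop δ L θ k B C) :
    ∃ (a b a' b' : ι → (ι → ℂ) → ℂ) (v₀ : ι → ℂ), (∀ i, QD δ L (a i) (b i) (a' i) (b' i)) ∧
      (∀ i, b i v₀ ≠ 0) ∧ (jac a b v₀).det ≠ 0 ∧
      ∀ i v, b i v ≠ 0 → qd (a i) (b i) (a' i) (b' i) v = LdG_eb B (fun z => a i z / b i z) v := by
  obtain ⟨v₀, hv₀⟩ := h0
  have hy0 : F θ 0 v₀ ≠ 0 := by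
    rw [GAM.F_ne_iff]
    simpa using hv₀
  have hodd0 : OddTor L (0 : ι → ℂ) := ⟨1, odd_one, by simp⟩
  obtain ⟨n, c, hn, hn0, hnc, hdet⟩ := LdG_Imm ι L χ θ hP hT ⟨v₀, hv₀⟩ 0 v₀ hodd0 hy0
  have hodd : ∀ i, OddTor L (c i) := fun i => ⟨n, hn, hnc i⟩
  refine ⟨fun i z => F θ (c i) z ^ n, fun _ z => F θ 0 z ^ n,
    fun i v => n * F θ (c i) v ^ (n - 1) * gop k B C (F θ (c i)) v,
    fun _ v => n * F θ 0 v ^ (n - 1) * gop k B C (F θ 0) v, v₀, fun i =>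
      GAM.QD_pow (LdG_DelR ι δ) hP hT ⟨v₀, hv₀⟩ (hnc i) hn0 (hG.del _ (hodd i)) (hG.del _ hodd0),
    fun _ => pow_ne_zero n hy0, hdet, fun i v hv => ?_⟩
  have hd1 := GAM.F_differentiable hT (c i)
  have hd2 := GAM.F_differentiable hT (0 : ι → ℂ)
  have hpow : ∀ x : ι → ℂ, Differentiable ℂ (F θ x) →
      (n : ℂ) * F θ x v ^ (n - 1) * gop k B C (F θ x) v =
      (n * (k + 1 / 2 * (∑ a, ∑ b, C a b * v a * v b))) * F θ x v ^ n +
        LdG_eb B (fun z => F θ x z ^ n) v := by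
    intro x hx
    rw [LdG_eb_pow B hx, LdG_gop]
    obtain ⟨m, hm⟩ : ∃ m, n = m + 1 := ⟨n - 1, by have := hn.pos; omega⟩
    subst hm
    simp only [Nat.add_sub_cancel]
    ring
  have := LdG_qd B (a := fun z => F θ (c i) z ^ n) (b := fun z => F θ 0 z ^ n)
    (a' := fun v => n * F θ (c i) v ^ (n - 1) * gop k B C (F θ (c i)) v)
    (b' := fun v => n * F θ 0 v ^ (n - 1) * gop k B C (F θ 0) v)
    (hd1.pow n) (hd2.pow n) hv (hpow _ hd1) (hpow _ hd2)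
  rw [this, sub_self, zero_mul, zero_add]

/-- a vector is determined by the derivatives of coordinates -/
theorem LdG_det {a b : ι → (ι → ℂ) → ℂ} {v₀ : ι → ℂ} (hJ : (jac a b v₀).det ≠ 0)
    {p q : ι → ℂ} (h : ∀ i, ∑ j, p j * pd j (fun z => a i z / b i z) v₀ =
      ∑ j, q j * pd j (fun z => a i z / b i z) v₀) : p = q := by
  have h4 : (fun j => p j - q j) = 0 := by
    apply Matrix.eq_zero_of_mulVec_eq_zero hJ
    funext i
    simp only [Matrix.mulVec, dotProduct, jac, Matrix.of_apply, Pi.zero_apply]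
    have := h i
    rw [← sub_eq_zero, ← Finset.sum_sub_distrib] at this
    rw [← this]
    exact Finset.sum_congr rfl fun j _ => by ring
  funext s
  exact sub_eq_zero.1 (congrFun h4 s)

end LdG

theorem thm_LdG : St_LdG := by
  intro ι _ _ δ L χ θ k B C hP hT h0 hG Λ hΛ hΛL a b a' b' hQ l hl v hv
  obtain ⟨a₁, b₁, a₁', b₁', v₀, hQ1, hb1, hJ, hq⟩ := LdG_coord hP hT h0 hG
  have hQ1' := fun i => LdG_mono hΛL (hQ1 i)
  obtain ⟨ld, hld⟩ := LdG_Per ι δ Λ a₁ b₁ a₁' b₁' v₀ hΛ hQ1' hb1 hJ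
  have h1 : ld l = B.mulVec l := by
    apply LdG_det hJ
    intro i
    have e1 := hld _ _ _ _ (hQ1' i) l hl v₀ (hb1 i)
    rw [hq i _ ((hQ1' i).ne hl (hb1 i)), hq i _ (hb1 i), LdG_eb_per B (hQ1' i) hl] at e1
    exact e1.symm
  rw [hld a b a' b' hQ l hl v hv, h1]

end PST
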