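import Pool.Agent.PST.StN

/-!
# PST: the torus of the CM field in the torus of the CM point
-/

set_option autoImplicit false

namespace PST

open scoped ComplexConjugate
open Module

private theorem LevE_conj {z : ℂ} (h : IsAlgebraic ℚ z) : IsAlgebraic ℚ (conj z) :=
  h.algHom (Complex.conjAe.toAlgHom.restrictScalars ℚ)

theorem thm_LevE (h1 : St_OrdN) (h2 : St_CorA) : St_LevE := by
  intro α β _ _ _ _ R P N e L K _ _ φ j hL hdet halg hj hP
  classical
  obtain ⟨hO, -⟩ := h1 α β R N e
  let b := NumberField.RingOfIntegers.basis K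
  choose n hn0 hn using fun i => hO (j ((b i : NumberField.RingOfIntegers K) : K)) (hj _)
  let M := ∏ i, n i
  have hM : M ≠ 0 := Finset.prod_ne_zero_iff.mpr fun i _ => hn0 i
  have hb : ∀ i, (M : ℤ) • j ((b i : NumberField.RingOfIntegers K) : K) ∈ lat e := by
    intro i
    obtain ⟨m, hm⟩ : n i ∣ M := Finset.dvd_prod_of_mem n (Finset.mem_univ i)
    have h3 : (M : ℤ) = (m : ℤ) * (n i : ℤ) := by
      rw [hm]
      push_cast
      ring
    rw [h3, mul_smul]
    exact (lat e).smul_mem _ (hn i)
  have key : ∀ x : NumberField.RingOfIntegers K, j ((M : K) * (x : K)) ∈ lat e := by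
    intro x
    have h3 : (x : K) = ∑ i, ((b.repr x i : ℤ) : K) *
        ((b i : NumberField.RingOfIntegers K) : K) := by
      conv_lhs => rw [← b.sum_repr x]
      simp only [map_sum, zsmul_eq_mul, map_mul, map_intCast]
    have h4 : j ((M : K) * (x : K)) = ∑ i, (b.repr x i : ℤ) •
        ((M : ℤ) • j ((b i : NumberField.RingOfIntegers K) : K)) := by
      rw [h3, Finset.mul_sum, map_sum]
      refine Finset.sum_congr rfl fun i _ => ?_
      rw [mul_left_comm, map_mul, map_mul, map_intCast, map_natCast, zsmul_eq_mul,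
        zsmul_eq_mul]
      push_cast
      rfl
    rw [h4]
    exact Submodule.sum_mem _ fun i _ => (lat e).smul_mem _ (hb i)
  refine ⟨M, cor P, hM, ?_, ?_, ?_⟩
  · rintro ⟨i | i, k⟩
    · exact halg (Sum.inl i) k
    · exact LevE_conj (halg (Sum.inr i) k)
  · intro s
    have h5 : ∃ k, P s k ≠ 0 := by
      by_contra h6
      push Not at h6
      exact hdet (Matrix.det_eq_zero_of_row_eq_zero s h6)
    obtain ⟨k, hk⟩ := h5
    refine ⟨(s, k), rfl, ?_⟩
    rcases s with i | i
    · exact hk
    · exact (map_ne_zero _).mpr hk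
  · intro x
    refine (hL _).mpr ⟨_, key x, ?_⟩
    have h7 : ∀ (D : α ⊕ β → ℂ) (i : α) (k : α ⊕ β),
        cor (Matrix.diagonal D * P) (Sum.inl i, k) = D (Sum.inl i) * P (Sum.inl i) k :=
      fun D i k => Matrix.diagonal_mul D P (Sum.inl i) k
    have h8 : ∀ (D : α ⊕ β → ℂ) (i : β) (k : α ⊕ β),
        cor (Matrix.diagonal D * P) (Sum.inr i, k) =
          conj (D (Sum.inr i)) * conj (P (Sum.inr i) k) := fun D i k => by
      rw [← map_mul, ← Matrix.diagonal_mul]
      rfl
    rw [hP]
    funext q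
    obtain ⟨i | i, k⟩ := q
    · rw [h7]
      exact mul_comm _ _
    · rw [h8, Sum.elim_inr, Complex.conj_conj]
      exact mul_comm _ _

end PST
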