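import Pool.Agent.PST.StH
import Pool.Agent.PST.DelX

/-!
# PST [LinS]: `δ` and bijective linear substitutions
-/

set_option autoImplicit false

namespace PST

open scoped ComplexConjugate
open GAM (H E F pd pdl PLat IsTh OddTor IsDel Gro IsLat)

theorem thm_LinS (h : St_LinT) : St_LinS := by
  intro ι κ _ _ _ _ δ S T a hST ha
  have h1 := h κ ι δ S a (fun _ => 0) ha
  have hA := GAM.DelR_an GAM.thm_Hol ha.ent
  have h2 : gop 0 (T * S.map δ) 0 (fun v => a (S.mulVec v)) = fun v : ι → ℂ =>
      (0 : ℂ) + ∑ i, (∑ b, δ (S i b) * v b) * pd i a (S.mulVec v) := by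
    funext v
    have h3 : ∀ c : ι, pd c (fun v : ι → ℂ => a (S.mulVec v)) v =
        Matrix.vecMul (fun i => pd i a (S.mulVec v)) S c := by
      intro c
      rw [congrFun (GAM.DelR_pd_lin S hA c) v]
      unfold Matrix.vecMul dotProduct
      exact Finset.sum_congr rfl fun i _ => mul_comm _ _
    have h4 : ∑ c, ∑ b, (T * S.map δ) c b *
        (v b * pd c (fun v : ι → ℂ => a (S.mulVec v)) v) =
        dotProduct (Matrix.vecMul (fun i => pd i a (S.mulVec v)) S)
          ((T * S.map δ).mulVec v) := by
      unfold dotProduct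
      refine Finset.sum_congr rfl fun c _ => ?_
      have h6 : (T * S.map δ).mulVec v c = ∑ b, (T * S.map δ) c b * v b := rfl
      rw [h3, h6, Finset.mul_sum]
      exact Finset.sum_congr rfl fun b _ => by ring
    have h5 : dotProduct (Matrix.vecMul (fun i => pd i a (S.mulVec v)) S)
        ((T * S.map δ).mulVec v) =
        ∑ i, (∑ b, δ (S i b) * v b) * pd i a (S.mulVec v) := by
      rw [← Matrix.dotProduct_mulVec, Matrix.mulVec_mulVec, ← Matrix.mul_assoc, hST,
        Matrix.one_mul]
      unfold dotProduct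
      exact Finset.sum_congr rfl fun i _ => mul_comm _ _
    unfold gop
    rw [h4, h5]
    simp
  rw [h2]
  exact h1

end PST
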