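import Pool.Agent.PST.StH
import Pool.Agent.PST.DelX

/-!
# PST [LinT]: `δ` and linear substitutions
-/

set_option autoImplicit false

namespace PST

open scoped ComplexConjugate
open GAM (H E F pd pdl PLat IsTh OddTor IsDel Gro IsLat)

section

variable {ι κ : Type} [Fintype ι] [DecidableEq ι] [Fintype κ] [DecidableEq κ]

/-- the function with the Taylor coefficients `δ` of those of `a ∘ T` -/
noncomputable def LinT_Phi (δ : Derivation ℚ ℂ ℂ) (T : Matrix ι κ ℂ) (a a' : (ι → ℂ) → ℂ)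
    (v : κ → ℂ) : ℂ :=
  a' (T.mulVec v) + ∑ i, (∑ b, δ (T i b) * v b) * pd i a (T.mulVec v)

theorem LinT_Tan (T : Matrix ι κ ℂ) (z : κ → ℂ) :
    AnalyticAt ℂ (fun v : κ → ℂ => T.mulVec v) z :=
  (LinearMap.toContinuousLinearMap (Matrix.mulVecLin T)).analyticAt z

theorem LinT_comp (T : Matrix ι κ ℂ) {f : (ι → ℂ) → ℂ} (hf : ∀ z, AnalyticAt ℂ f z)
    (z : κ → ℂ) : AnalyticAt ℂ (fun v : κ → ℂ => f (T.mulVec v)) z :=
  (hf (T.mulVec z)).comp (f := fun v : κ → ℂ => T.mulVec v) (LinT_Tan T z)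

theorem LinT_form_an (c : κ → ℂ) (z : κ → ℂ) :
    AnalyticAt ℂ (fun v : κ → ℂ => ∑ b, c b * v b) z :=
  DelX_sum_an Finset.univ (f := fun b v => c b * v b)
    (fun b z => analyticAt_const.mul (DelX_coord_an b z)) z

theorem LinT_form_pd (c : κ → ℂ) (j : κ) (z : κ → ℂ) :
    pd j (fun v : κ → ℂ => ∑ b, c b * v b) z = c j := by
  rw [DelX_pd_sum Finset.univ (f := fun b v => c b * v b)
    (fun b z => analyticAt_const.mul (DelX_coord_an b z))]
  have h : ∀ b, pd j (fun v : κ → ℂ => c b * v b) z = if b = j then c b else 0 := by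
    intro b
    rw [DelX_pd_mulc (fun z => DelX_coord_an b z), GAM.DelR_pd_coord]
    split_ifs <;> simp
  rw [Finset.sum_congr rfl fun b _ => h b, Finset.sum_ite_eq', if_pos (Finset.mem_univ _)]

theorem LinT_Phi_an (δ : Derivation ℚ ℂ ℂ) (T : Matrix ι κ ℂ) {a a' : (ι → ℂ) → ℂ}
    (ha : ∀ z, AnalyticAt ℂ a z) (ha' : ∀ z, AnalyticAt ℂ a' z) (z : κ → ℂ) :
    AnalyticAt ℂ (LinT_Phi δ T a a') z := by
  refine AnalyticAt.add (LinT_comp T ha' z) ?_
  exact DelX_sum_an Finset.univ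
    (f := fun i v => (∑ b, δ (T i b) * v b) * pd i a (T.mulVec v))
    (fun i z => (LinT_form_an (fun b => δ (T i b)) z).mul
      (LinT_comp T (DelX_pd_an ha i) z)) z

theorem LinT_Phi_pd (δ : Derivation ℚ ℂ ℂ) (T : Matrix ι κ ℂ) {a a' : (ι → ℂ) → ℂ}
    (ha : ∀ z, AnalyticAt ℂ a z) (ha' : ∀ z, AnalyticAt ℂ a' z) (j : κ) (z : κ → ℂ) :
    pd j (LinT_Phi δ T a a') z = ∑ i, (T i j * LinT_Phi δ T (pd i a) (pd i a') z +
      δ (T i j) * pd i a (T.mulVec z)) := by
  have e1 : pd j (LinT_Phi δ T a a') z = pd j (fun v : κ → ℂ => a' (T.mulVec v)) z +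
      pd j (fun v => ∑ i, (∑ b, δ (T i b) * v b) * pd i a (T.mulVec v)) z :=
    DelX_pd_add (LinT_comp T ha') (fun z => DelX_sum_an Finset.univ
      (f := fun i v => (∑ b, δ (T i b) * v b) * pd i a (T.mulVec v))
      (fun i z => (LinT_form_an (fun b => δ (T i b)) z).mul
        (LinT_comp T (DelX_pd_an ha i) z)) z) j z
  have e2 : pd j (fun v => ∑ i, (∑ b, δ (T i b) * v b) * pd i a (T.mulVec v)) z =
      ∑ i, (δ (T i j) * pd i a (T.mulVec z) + (∑ b, δ (T i b) * z b) *
        ∑ k, T k j * pd k (pd i a) (T.mulVec z)) := by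
    rw [DelX_pd_sum Finset.univ
      (f := fun i v => (∑ b, δ (T i b) * v b) * pd i a (T.mulVec v))
      (fun i z => (LinT_form_an (fun b => δ (T i b)) z).mul (LinT_comp T (DelX_pd_an ha i) z))]
    refine Finset.sum_congr rfl fun i _ => ?_
    have e3 := congrFun (GAM.DelR_pd_mul (f := fun v : κ → ℂ => ∑ b, δ (T i b) * v b)
      (g := fun v : κ → ℂ => pd i a (T.mulVec v)) (LinT_form_an (fun b => δ (T i b)))
      (LinT_comp T (DelX_pd_an ha i)) j) z
    rw [e3, LinT_form_pd (fun b => δ (T i b)), GAM.DelR_pd_lin T (DelX_pd_an ha i)]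
  rw [e1, GAM.DelR_pd_lin T ha', e2]
  unfold LinT_Phi
  simp only [mul_add, Finset.sum_add_distrib]
  have e4 : ∑ i, (∑ b, δ (T i b) * z b) * ∑ k, T k j * pd k (pd i a) (T.mulVec z) =
      ∑ i, T i j * ∑ k, (∑ b, δ (T k b) * z b) * pd k (pd i a) (T.mulVec z) := by
    simp only [Finset.mul_sum]
    rw [Finset.sum_comm]
    refine Finset.sum_congr rfl fun k _ => Finset.sum_congr rfl fun i _ => ?_
    rw [GAM.EulW_comm (ha _) k i]
    ring
  rw [e4]
  ring

theorem LinT_aux (δ : Derivation ℚ ℂ ℂ) (T : Matrix ι κ ℂ) (n : ℕ) : ∀ (l : List κ),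
    l.length = n → ∀ (a a' : (ι → ℂ) → ℂ), IsDel δ a a' →
    pdl l (LinT_Phi δ T a a') 0 = δ (pdl l (fun v : κ → ℂ => a (T.mulVec v)) 0) := by
  induction n with
  | zero =>
    intro l hl a a' ha
    rw [List.length_eq_zero_iff] at hl
    subst hl
    have h2 := ha.del []
    change a' 0 = δ (a 0) at h2
    change LinT_Phi δ T a a' 0 = δ (a (T.mulVec 0))
    unfold LinT_Phi
    rw [Matrix.mulVec_zero, h2]
    simp
  | succ n ih =>
    intro l hl a a' ha
    rcases List.eq_nil_or_concat l with rfl | ⟨l', j, rfl⟩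
    · simp at hl
    · rw [List.concat_eq_append] at hl ⊢
      have hl' : l'.length = n := by simpa using hl
      have hA := GAM.DelR_an GAM.thm_Hol ha.ent
      have hA' := GAM.DelR_an GAM.thm_Hol ha.ent'
      have e1 : pd j (LinT_Phi δ T a a') = fun v => ∑ i, (T i j * LinT_Phi δ T (pd i a) (pd i a') v +
          δ (T i j) * pd i a (T.mulVec v)) := funext fun z => LinT_Phi_pd δ T hA hA' j z
      have hP := fun i z => LinT_Phi_an δ T (DelX_pd_an hA i) (DelX_pd_an hA' i) z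
      have hQ := fun i z => LinT_comp T (DelX_pd_an hA i) z
      rw [GAM.DelR_snoc, GAM.DelR_snoc, e1, GAM.DelR_pd_lin T hA,
        GAM.DelR_pdl_sum Finset.univ (f := fun i v => T i j * LinT_Phi δ T (pd i a) (pd i a') v +
          δ (T i j) * pd i a (T.mulVec v))
          (fun i z => (analyticAt_const.mul (hP i z)).add (analyticAt_const.mul (hQ i z))),
        GAM.DelR_pdl_sum Finset.univ (f := fun i v => T i j * pd i a (T.mulVec v))
          (fun i z => analyticAt_const.mul (hQ i z)), map_sum]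
      refine Finset.sum_congr rfl fun i _ => ?_
      rw [GAM.DelR_pdl_add (f := fun v => T i j * LinT_Phi δ T (pd i a) (pd i a') v)
        (g := fun v => δ (T i j) * pd i a (T.mulVec v))
        (fun z => analyticAt_const.mul (hP i z)) (fun z => analyticAt_const.mul (hQ i z)),
        GAM.DelR_pdl_mul (hP i), GAM.DelR_pdl_mul (hQ i), GAM.DelR_pdl_mul (hQ i),
        Derivation.leibniz, smul_eq_mul, smul_eq_mul,
        ih l' hl' (pd i a) (pd i a') (GAM.DelR_pd GAM.thm_Hol δ i a a' ha)]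
      ring

end

theorem thm_LinT : St_LinT := by
  intro ι κ _ _ _ _ δ T a a' ha
  have hTl : Differentiable ℂ (fun v : κ → ℂ => T.mulVec v) :=
    (LinearMap.toContinuousLinearMap (Matrix.mulVecLin T)).differentiable
  have hA := GAM.DelR_an GAM.thm_Hol ha.ent
  have hA' := GAM.DelR_an GAM.thm_Hol ha.ent'
  exact ⟨ha.ent.comp hTl, fun z => (LinT_Phi_an δ T hA hA' z).differentiableAt,
    fun l => LinT_aux δ T l.length l rfl a a' ha⟩

end PST
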