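import Pool.Agent.PST.StN
import Pool.Agent.PST.UGr
import Pool.Agent.GAM.Mink

/-!
# PST, module MinkR: Minkowski's theorem for the lattices `Λ h`
-/

set_option autoImplicit false
set_option linter.unusedVariables false

namespace PST

open scoped ComplexConjugate
open MeasureTheory

theorem MinkR_gen {V : Type} [NormedAddCommGroup V] [NormedSpace ℝ V] [FiniteDimensional ℝ V]
    [MeasurableSpace V] [BorelSpace V] {N : ℕ} (b : Module.Basis (Fin N) ℝ V) (hN : 0 < N) :
    ∃ C : ℝ, ∀ f : V →ₗ[ℝ] V, |LinearMap.det f| = 1 →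
      ∃ x ∈ Submodule.span ℤ (Set.range b), x ≠ 0 ∧ ‖f x‖ ≤ C := by
  set μ : Measure V := Measure.addHaar with hμ
  set d := Module.finrank ℝ V with hd
  have hdN : d = N := by
    rw [hd, Module.finrank_eq_card_basis b, Fintype.card_fin]
  have hd1 : 1 ≤ d := by omega
  have : Nontrivial V := Module.nontrivial_of_finrank_pos (R := ℝ) (by omega)
  have hF : μ (ZSpan.fundamentalDomain b) < ⊤ :=
    (ZSpan.fundamentalDomain_isBounded b).measure_lt_top
  have hb0 : 0 < μ (Metric.ball (0 : V) 1) := Metric.measure_ball_pos μ _ one_pos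
  have hb1 : μ (Metric.ball (0 : V) 1) < ⊤ := Metric.isBounded_ball.measure_lt_top
  have hC : μ (ZSpan.fundamentalDomain b) * 2 ^ d ≠ ⊤ := by
    exact ENNReal.mul_ne_top hF.ne (by finiteness)
  set C := (μ (ZSpan.fundamentalDomain b) * 2 ^ d).toReal with hCd
  set c := (μ (Metric.ball (0 : V) 1)).toReal with hcd
  have hc : 0 < c := ENNReal.toReal_pos hb0.ne' hb1.ne
  have hC0 : 0 ≤ C := ENNReal.toReal_nonneg
  have hR : 1 ≤ C / c + 1 := by
    have : 0 ≤ C / c := by positivity
    linarith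
  refine ⟨C / c + 1, fun f hf => ?_⟩
  set R := C / c + 1 with hRd
  set s : Set V := f ⁻¹' (Metric.closedBall 0 R) with hs
  have hdet : LinearMap.det f ≠ 0 := by
    intro h0
    rw [h0, abs_zero] at hf
    exact zero_ne_one hf
  have hms : μ s = μ (Metric.closedBall 0 R) := by
    rw [hs, Measure.addHaar_preimage_linearMap μ hdet, abs_inv, hf]
    simp
  have hlt : μ (ZSpan.fundamentalDomain b) * 2 ^ d < μ s := by
    rw [hms, Measure.addHaar_closedBall μ 0 (by linarith)]
    rw [← ENNReal.ofReal_toReal hC, ← ENNReal.ofReal_toReal hb1.ne,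
      ← ENNReal.ofReal_mul (by positivity)]
    apply (ENNReal.ofReal_lt_ofReal_iff (by positivity)).2
    calc C = C / c * c := by field_simp
      _ < R * c := by
        apply mul_lt_mul_of_pos_right _ hc
        rw [hRd]
        linarith
      _ ≤ R ^ d * c := by
        apply mul_le_mul_of_nonneg_right _ hc.le
        calc R = R ^ 1 := (pow_one R).symm
          _ ≤ R ^ d := pow_le_pow_right₀ hR hd1
  have hcount : Countable (Submodule.span ℤ (Set.range b)).toAddSubgroup :=
    inferInstanceAs (Countable (Submodule.span ℤ (Set.range b)))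
  obtain ⟨x, hx0, hx⟩ := exists_ne_zero_mem_lattice_of_measure_mul_two_pow_lt_measure
    (ZSpan.isAddFundamentalDomain' b μ) (s := s) (by
      intro x hx
      rw [hs, Set.mem_preimage, mem_closedBall_zero_iff] at hx ⊢
      rw [map_neg, norm_neg]
      exact hx) ((convex_closedBall 0 R).linear_preimage f) hlt
  refine ⟨(x : V), x.2, ?_, ?_⟩
  · intro h0
    exact hx0 (Subtype.ext h0)
  · rw [hs, Set.mem_preimage, mem_closedBall_zero_iff] at hx
    exact hx

section

variable {α β : Type} [Fintype α] [Fintype β] [DecidableEq α] [DecidableEq β]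

/-- the invariant form `Re tr (x J yᴴ)` -/
noncomputable def MinkR_B (α β : Type) [Fintype α] [Fintype β] [DecidableEq α] [DecidableEq β] :
    LinearMap.BilinForm ℝ (Matrix (α ⊕ β) (α ⊕ β) ℂ) :=
  LinearMap.mk₂ ℝ (fun x y => (x * Jm α β * y.conjTranspose).trace.re)
    (by
      intro x x' y
      rw [Matrix.add_mul, Matrix.add_mul, Matrix.trace_add, Complex.add_re])
    (by
      intro c x y
      rw [Matrix.smul_mul, Matrix.smul_mul, Matrix.trace_smul, Complex.smul_re])
    (by
      intro x y y'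
      rw [Matrix.conjTranspose_add, Matrix.mul_add, Matrix.trace_add, Complex.add_re])
    (by
      intro c x y
      rw [Matrix.conjTranspose_smul, Matrix.mul_smul, Matrix.trace_smul, star_trivial,
        Complex.smul_re])

theorem MinkR_B_apply (x y : Matrix (α ⊕ β) (α ⊕ β) ℂ) :
    MinkR_B α β x y = (x * Jm α β * y.conjTranspose).trace.re := rfl

theorem MinkR_B_nd (x : Matrix (α ⊕ β) (α ⊕ β) ℂ) (h : ∀ y, MinkR_B α β x y = 0) : x = 0 := by
  have h1 := h (x * Jm α β)
  rw [MinkR_B_apply, Matrix.conjTranspose_mul, UGr_J_star] at h1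
  have h2 : x * Jm α β * (Jm α β * x.conjTranspose) = x * x.conjTranspose := by
    calc x * Jm α β * (Jm α β * x.conjTranspose) = x * (Jm α β * Jm α β) * x.conjTranspose := by
          simp only [Matrix.mul_assoc]
      _ = x * x.conjTranspose := by rw [UGr_J_sq, Matrix.mul_one]
  rw [h2] at h1
  have h3 : (x * x.conjTranspose).trace.re = ∑ i, ∑ j, ‖x i j‖ ^ 2 := by
    rw [Matrix.trace, Complex.re_sum]
    refine Finset.sum_congr rfl fun i _ => ?_
    rw [Matrix.diag_apply, Matrix.mul_apply, Complex.re_sum]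
    refine Finset.sum_congr rfl fun j _ => ?_
    rw [Matrix.conjTranspose_apply, Complex.star_def, Complex.mul_conj, Complex.ofReal_re,
      Complex.normSq_eq_norm_sq]
  rw [h3] at h1
  have h4 : ∀ i, ∑ j, ‖x i j‖ ^ 2 = 0 := by
    intro i
    exact (Finset.sum_eq_zero_iff_of_nonneg
      (fun i _ => Finset.sum_nonneg fun j _ => sq_nonneg _)).1 h1 i (Finset.mem_univ i)
  ext i j
  have h5 := (Finset.sum_eq_zero_iff_of_nonneg (fun j _ => sq_nonneg _)).1 (h4 i) j
    (Finset.mem_univ j)
  rw [Matrix.zero_apply]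
  exact norm_eq_zero.1 (pow_eq_zero_iff two_ne_zero |>.1 h5)

/-- right multiplication, real linear -/
noncomputable def MinkR_L (h : Matrix (α ⊕ β) (α ⊕ β) ℂ) :
    Matrix (α ⊕ β) (α ⊕ β) ℂ →ₗ[ℝ] Matrix (α ⊕ β) (α ⊕ β) ℂ where
  toFun x := x * h
  map_add' x y := Matrix.add_mul x y h
  map_smul' c x := Matrix.smul_mul c x h

theorem MinkR_detL {N : ℕ} (b : Module.Basis (Fin N) ℝ (Matrix (α ⊕ β) (α ⊕ β) ℂ))
    {h : Matrix (α ⊕ β) (α ⊕ β) ℂ} (hh : IsU h) : |LinearMap.det (MinkR_L h)| = 1 := by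
  refine GAM.Mink_det b (MinkR_B α β) MinkR_B_nd (MinkR_L h) fun x y => ?_
  rw [MinkR_B_apply, MinkR_B_apply]
  show (x * h * Jm α β * (y * h).conjTranspose).trace.re = _
  rw [Matrix.conjTranspose_mul]
  have : x * h * Jm α β * (h.conjTranspose * y.conjTranspose) =
      x * (h * Jm α β * h.conjTranspose) * y.conjTranspose := by
    simp only [Matrix.mul_assoc]
  rw [this, UGr_out hh]

/-- the entries of a matrix -/
noncomputable def MinkR_e (α β : Type) :
    Matrix (α ⊕ β) (α ⊕ β) ℂ ≃ₗ[ℝ] ((α ⊕ β) × (α ⊕ β) → ℂ) where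
  toFun x p := x p.1 p.2
  invFun y := Matrix.of fun i j => y (i, j)
  left_inv x := rfl
  right_inv y := rfl
  map_add' x y := rfl
  map_smul' c x := rfl

end

theorem thm_MinkR : St_MinkR := by
  intro α β _ _ _ _ N b hN
  obtain ⟨C, hC⟩ := MinkR_gen (b.map (MinkR_e α β)) hN
  refine ⟨C, fun h hh => ?_⟩
  obtain ⟨x, hx, hx0, hxC⟩ := hC ((MinkR_e α β).toLinearMap ∘ₗ MinkR_L h ∘ₗ
    (MinkR_e α β).symm.toLinearMap) (by
      have := LinearMap.det_conj (MinkR_L h) (MinkR_e α β)
      rw [this]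
      exact MinkR_detL b hh)
  refine ⟨(MinkR_e α β).symm x, ?_, ?_, fun i j => ?_⟩
  · have h1 : Set.range (b.map (MinkR_e α β)) = (MinkR_e α β) '' Set.range b := by
      rw [← Set.range_comp]
      rfl
    rw [h1] at hx
    have h2 : (Submodule.span ℤ ((MinkR_e α β) '' Set.range b)) =
        (Submodule.span ℤ (Set.range b)).map ((MinkR_e α β).toLinearMap.toAddMonoidHom.toIntLinearMap) := by
      rw [Submodule.map_span]
      rfl
    rw [h2] at hx
    obtain ⟨y, hy, hyx⟩ := hx
    have h3 : (MinkR_e α β).symm x = y := by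
      rw [LinearEquiv.symm_apply_eq]
      exact hyx.symm
    rw [h3]
    exact hy
  · intro h0
    exact hx0 ((MinkR_e α β).symm.map_eq_zero_iff.1 h0)
  · refine le_trans ?_ hxC
    exact norm_le_pi_norm (((MinkR_e α β).toLinearMap ∘ₗ MinkR_L h ∘ₗ
      (MinkR_e α β).symm.toLinearMap) x) (i, j)

end PST
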