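import Pool.Agent.PST.StF

/-!
# PST: transitivity on the domain
-/

set_option autoImplicit false

namespace PST

open scoped ComplexConjugate ComplexOrder MatrixOrder
open GAM (H E F pd pdl PLat IsTh OddTor IsDel Gro IsLat)

theorem UTr_root {n : Type} [Fintype n] [DecidableEq n] (M : Matrix n n ℂ) (hM : M.PosDef) :
    ∃ a : Matrix n n ℂ, a.conjTranspose * M * a = 1 ∧ IsUnit a := by
  obtain ⟨B, hB⟩ := CStarAlgebra.nonneg_iff_eq_star_mul_self.mp hM.posSemidef.nonneg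
  rw [Matrix.star_eq_conjTranspose] at hB
  have hu : IsUnit B.det := by
    have h1 : IsUnit M.det := (Matrix.isUnit_iff_isUnit_det M).1 hM.isUnit
    rw [hB, Matrix.det_mul] at h1
    exact isUnit_of_mul_isUnit_right h1
  refine ⟨B⁻¹, ?_, ?_⟩
  · have h2 : B * B⁻¹ = 1 := Matrix.mul_nonsing_inv B hu
    have h3 : (B⁻¹).conjTranspose * B.conjTranspose = 1 := by
      rw [← Matrix.conjTranspose_mul, h2, Matrix.conjTranspose_one]
    rw [hB]
    calc (B⁻¹).conjTranspose * (B.conjTranspose * B) * B⁻¹ =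
          ((B⁻¹).conjTranspose * B.conjTranspose) * (B * B⁻¹) := by
          simp only [Matrix.mul_assoc]
      _ = 1 := by rw [h2, h3, Matrix.one_mul]
  · rw [Matrix.isUnit_iff_isUnit_det]
    exact Matrix.isUnit_nonsing_inv_det B hu

theorem UTr_self {n : Type} [Fintype n] (v : n → ℂ) :
    star v ⬝ᵥ v = ((∑ i, ‖v i‖ ^ 2 : ℝ) : ℂ) := by
  simp only [dotProduct, Pi.star_apply, Complex.star_def]
  push_cast
  refine Finset.sum_congr rfl fun i _ => ?_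
  rw [Complex.conj_mul']

theorem UTr_pos {m n : Type} [Fintype m] [Fintype n] [DecidableEq n] (W : Matrix m n ℂ)
    (h : ∀ y : n → ℂ, y ≠ 0 → ∑ i, ‖W.mulVec y i‖ ^ 2 < ∑ j, ‖y j‖ ^ 2) :
    (1 - W.conjTranspose * W : Matrix n n ℂ).PosDef := by
  refine Matrix.PosDef.of_dotProduct_mulVec_pos ?_ ?_
  · show (1 - W.conjTranspose * W : Matrix n n ℂ).conjTranspose = _
    rw [Matrix.conjTranspose_sub, Matrix.conjTranspose_one, Matrix.conjTranspose_mul,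
      Matrix.conjTranspose_conjTranspose]
  · intro y hy
    have h1 : star y ⬝ᵥ (1 - W.conjTranspose * W).mulVec y =
        ((∑ j, ‖y j‖ ^ 2 - ∑ i, ‖W.mulVec y i‖ ^ 2 : ℝ) : ℂ) := by
      rw [Matrix.sub_mulVec, Matrix.one_mulVec, dotProduct_sub, UTr_self, ← Matrix.mulVec_mulVec,
        Matrix.dotProduct_mulVec, ← Matrix.star_mulVec, UTr_self]
      push_cast
      rfl
    rw [h1]
    exact Complex.zero_lt_real.2 (sub_pos.2 (h y hy))

theorem UTr_nz {n : Type} [Fintype n] {y : n → ℂ} (hy : y ≠ 0) : 0 < ∑ j, ‖y j‖ ^ 2 := by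
  obtain ⟨j, hj⟩ := Function.ne_iff.1 hy
  have h1 : 0 < ‖y j‖ := norm_pos_iff.2 hj
  exact Finset.sum_pos' (fun i _ => sq_nonneg _) ⟨j, Finset.mem_univ _, by positivity⟩

/-- the adjoint has the same norm -/
theorem UTr_adj {m n : Type} [Fintype m] [Fintype n] (W : Matrix m n ℂ) (ρ : ℝ)
    (h : ∀ y : n → ℂ, ∑ i, ‖W.mulVec y i‖ ^ 2 ≤ ρ ^ 2 * ∑ j, ‖y j‖ ^ 2) (x : m → ℂ) :
    ∑ i, ‖W.conjTranspose.mulVec x i‖ ^ 2 ≤ ρ ^ 2 * ∑ j, ‖x j‖ ^ 2 := by
  obtain ⟨y, hy⟩ : ∃ y, y = W.conjTranspose.mulVec x := ⟨_, rfl⟩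
  rw [← hy]
  obtain ⟨S, hS⟩ : ∃ S : ℝ, S = ∑ i, ‖y i‖ ^ 2 := ⟨_, rfl⟩
  obtain ⟨N, hN⟩ : ∃ N : ℝ, N = ∑ j, ‖x j‖ ^ 2 := ⟨_, rfl⟩
  have hS0 : 0 ≤ S := by
    rw [hS]
    exact Finset.sum_nonneg fun i _ => sq_nonneg _
  have hN0 : 0 ≤ N := by
    rw [hN]
    exact Finset.sum_nonneg fun i _ => sq_nonneg _
  have h1 : (S : ℂ) = star (W.mulVec y) ⬝ᵥ x := by
    rw [hS, ← UTr_self, Matrix.star_mulVec, ← Matrix.dotProduct_mulVec, ← hy]
  have h2 : S ≤ ∑ i, ‖W.mulVec y i‖ * ‖x i‖ := by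
    have h3 : ‖(S : ℂ)‖ ≤ ∑ i, ‖W.mulVec y i‖ * ‖x i‖ := by
      rw [h1]
      refine (norm_sum_le _ _).trans (le_of_eq ?_)
      refine Finset.sum_congr rfl fun i _ => ?_
      rw [norm_mul, Pi.star_apply, norm_star]
    rwa [Complex.norm_real, Real.norm_eq_abs, abs_of_nonneg hS0] at h3
  have h3 : (∑ i, ‖W.mulVec y i‖ * ‖x i‖) ^ 2 ≤ (∑ i, ‖W.mulVec y i‖ ^ 2) * ∑ i, ‖x i‖ ^ 2 :=
    Finset.sum_mul_sq_le_sq_mul_sq _ _ _
  have h4 : S ^ 2 ≤ (ρ ^ 2 * S) * N := by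
    calc S ^ 2 ≤ (∑ i, ‖W.mulVec y i‖ * ‖x i‖) ^ 2 := pow_le_pow_left₀ hS0 h2 2
      _ ≤ (∑ i, ‖W.mulVec y i‖ ^ 2) * N := by rw [hN]; exact h3
      _ ≤ (ρ ^ 2 * S) * N := by
          rw [hS]
          exact mul_le_mul_of_nonneg_right (h y) hN0
  rw [← hS, ← hN]
  rcases hS0.eq_or_lt with h5 | h5
  · rw [← h5]
    positivity
  · have h6 : S * S ≤ (ρ ^ 2 * N) * S := by nlinarith
    exact le_of_mul_le_mul_right h6 h5

theorem thm_UTr : St_UTr := by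
  intro α β _ _ _ _ w hw
  obtain ⟨ρ, hρ0, hρ1, hw⟩ := hw
  obtain ⟨W, hW⟩ : ∃ W : Matrix α β ℂ, W = mt w := ⟨_, rfl⟩
  have h1 : ∀ y : β → ℂ, ∑ i, ‖W.mulVec y i‖ ^ 2 ≤ ρ ^ 2 * ∑ j, ‖y j‖ ^ 2 := by
    intro y
    rw [hW]
    exact hw y
  have hlt : ∀ N : ℝ, 0 < N → ρ ^ 2 * N < N := by
    intro N hN
    have : ρ ^ 2 < 1 := by nlinarith
    nlinarith
  have hd := UTr_pos W fun y hy => (h1 y).trans_lt (hlt _ (UTr_nz hy))
  have ha : (1 - W * W.conjTranspose : Matrix α α ℂ).PosDef := by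
    have h2 := UTr_pos W.conjTranspose fun y hy => (UTr_adj W ρ h1 y).trans_lt (hlt _ (UTr_nz hy))
    rwa [Matrix.conjTranspose_conjTranspose] at h2
  obtain ⟨a, ha1, -⟩ := UTr_root _ ha
  obtain ⟨d, hd1, hd2⟩ := UTr_root _ hd
  refine ⟨Matrix.fromBlocks a (W * d) (W.conjTranspose * a) d, ?_, ?_⟩
  · show (Matrix.fromBlocks a (W * d) (W.conjTranspose * a) d).conjTranspose * Jm α β *
      Matrix.fromBlocks a (W * d) (W.conjTranspose * a) d = Jm α β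
    unfold Jm
    rw [Matrix.fromBlocks_conjTranspose, Matrix.fromBlocks_multiply, Matrix.fromBlocks_multiply]
    have e1 : a.conjTranspose * a - a.conjTranspose * W * (W.conjTranspose * a) = 1 := by
      rw [← ha1, Matrix.mul_sub, Matrix.sub_mul]
      simp only [Matrix.mul_assoc, Matrix.one_mul]
    have e2 : d.conjTranspose * d - d.conjTranspose * W.conjTranspose * (W * d) = 1 := by
      rw [← hd1, Matrix.mul_sub, Matrix.sub_mul]
      simp only [Matrix.mul_assoc, Matrix.one_mul]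
    rw [Matrix.fromBlocks_inj]
    simp only [Matrix.conjTranspose_mul, Matrix.conjTranspose_conjTranspose, Matrix.mul_one,
      Matrix.mul_zero, add_zero, zero_add, Matrix.mul_neg, Matrix.neg_mul]
    refine ⟨?_, ?_, ?_, ?_⟩
    · rw [← sub_eq_add_neg]
      exact e1
    · simp only [Matrix.mul_assoc]
      exact add_neg_cancel _
    · simp only [Matrix.mul_assoc]
      exact add_neg_cancel _
    · rw [← e2]
      abel
  · funext p
    unfold mob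
    rw [Matrix.toBlocks_fromBlocks₁₁, Matrix.toBlocks_fromBlocks₁₂, Matrix.toBlocks_fromBlocks₂₁,
      Matrix.toBlocks_fromBlocks₂₂]
    have h0 : mt (0 : α × β → ℂ) = 0 := rfl
    rw [h0, Matrix.mul_zero, Matrix.mul_zero, zero_add, zero_add, Matrix.mul_assoc,
      Matrix.mul_nonsing_inv d ((Matrix.isUnit_iff_isUnit_det d).1 hd2), Matrix.mul_one, hW]
    rfl

end PST
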