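import Pool.Agent.PST.StN
import Pool.Agent.PST.UTr

/-!
# PST, module MobB: bounded elements of the group
-/

set_option autoImplicit false
set_option linter.unusedVariables false

namespace PST

open scoped ComplexConjugate

section

variable {α β : Type} [Fintype α] [Fintype β] [DecidableEq α] [DecidableEq β]

theorem MobB_rel {g : Matrix (α ⊕ β) (α ⊕ β) ℂ} (hg : IsU g) :
    g.toBlocks₁₂.conjTranspose * g.toBlocks₁₂ + 1 =
      g.toBlocks₂₂.conjTranspose * g.toBlocks₂₂ := by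
  have h : g.conjTranspose * Jm α β * g = Jm α β := hg
  rw [← Matrix.fromBlocks_toBlocks g] at h
  unfold Jm at h
  rw [Matrix.fromBlocks_conjTranspose, Matrix.fromBlocks_multiply, Matrix.fromBlocks_multiply] at h
  have h1 := (Matrix.fromBlocks_inj.1 h).2.2.2
  simp only [Matrix.mul_one, Matrix.mul_zero, add_zero, zero_add, Matrix.mul_neg,
    Matrix.neg_mul] at h1
  have h2 : g.toBlocks₁₂.conjTranspose * g.toBlocks₁₂ =
      -1 + g.toBlocks₂₂.conjTranspose * g.toBlocks₂₂ := by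
    rw [← h1]
    abel
  rw [h2]
  abel

theorem MobB_id {g : Matrix (α ⊕ β) (α ⊕ β) ℂ} (hg : IsU g) (y : β → ℂ) :
    ∑ i, ‖g.toBlocks₁₂.mulVec y i‖ ^ 2 + ∑ j, ‖y j‖ ^ 2 =
      ∑ j, ‖g.toBlocks₂₂.mulVec y j‖ ^ 2 := by
  have h1 := congrArg (fun M : Matrix β β ℂ => star y ⬝ᵥ M.mulVec y) (MobB_rel hg)
  rw [Matrix.add_mulVec, Matrix.one_mulVec, dotProduct_add, UTr_self, ← Matrix.mulVec_mulVec,
    Matrix.dotProduct_mulVec, ← Matrix.star_mulVec, UTr_self, ← Matrix.mulVec_mulVec,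
    Matrix.dotProduct_mulVec, ← Matrix.star_mulVec, UTr_self] at h1
  exact_mod_cast h1

theorem MobB_bd {n : Type} [Fintype n] (d : Matrix n n ℂ) (C : ℝ) (hd : ∀ i j, ‖d i j‖ ≤ C)
    (u : n → ℂ) : ∑ i, ‖d.mulVec u i‖ ^ 2 ≤
      (Fintype.card n * (Fintype.card n * C ^ 2)) * ∑ j, ‖u j‖ ^ 2 := by
  have h1 : ∀ i, ‖d.mulVec u i‖ ^ 2 ≤ (Fintype.card n * C ^ 2) * ∑ j, ‖u j‖ ^ 2 := by
    intro i
    have h2 : ‖d.mulVec u i‖ ≤ ∑ j, ‖d i j‖ * ‖u j‖ := by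
      refine (norm_sum_le _ _).trans (le_of_eq ?_)
      exact Finset.sum_congr rfl fun j _ => norm_mul _ _
    have h3 : (∑ j, ‖d i j‖ * ‖u j‖) ^ 2 ≤ (∑ j, ‖d i j‖ ^ 2) * ∑ j, ‖u j‖ ^ 2 :=
      Finset.sum_mul_sq_le_sq_mul_sq _ _ _
    have h4 : ∑ j, ‖d i j‖ ^ 2 ≤ Fintype.card n * C ^ 2 := by
      refine (Finset.sum_le_sum fun j _ => pow_le_pow_left₀ (norm_nonneg _) (hd i j) 2).trans ?_
      rw [Finset.sum_const, Finset.card_univ, nsmul_eq_mul]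
    calc ‖d.mulVec u i‖ ^ 2 ≤ (∑ j, ‖d i j‖ * ‖u j‖) ^ 2 :=
          pow_le_pow_left₀ (norm_nonneg _) h2 2
      _ ≤ (∑ j, ‖d i j‖ ^ 2) * ∑ j, ‖u j‖ ^ 2 := h3
      _ ≤ _ := mul_le_mul_of_nonneg_right h4 (Finset.sum_nonneg fun j _ => sq_nonneg _)
  refine (Finset.sum_le_sum fun i _ => h1 i).trans ?_
  rw [Finset.sum_const, Finset.card_univ, nsmul_eq_mul]
  linarith

end

theorem thm_MobB : St_MobB := by
  intro α β _ _ _ _ C
  set K : ℝ := Fintype.card β * (Fintype.card β * C ^ 2) + 1 with hK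
  have hK1 : 1 ≤ K := by
    have : (0 : ℝ) ≤ Fintype.card β * (Fintype.card β * C ^ 2) := by positivity
    linarith
  have hK0 : 0 < K := by linarith
  have hinv : 1 / K ≤ 1 := by
    rw [div_le_one hK0]
    exact hK1
  have hinv0 : 0 < 1 / K := by positivity
  refine ⟨Real.sqrt (1 - 1 / K), Real.sqrt_nonneg _, ?_, fun g hg hC => ?_⟩
  · rw [Real.sqrt_lt' one_pos]
    linarith
  · intro y
    have hdet : g.toBlocks₂₂.det ≠ 0 := by
      intro h0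
      obtain ⟨v, hv, hv0⟩ := Matrix.exists_mulVec_eq_zero_iff.2 h0
      have h1 := MobB_id hg v
      rw [hv0] at h1
      have h2 : ∑ j, ‖(0 : β → ℂ) j‖ ^ 2 = 0 := by simp
      rw [h2] at h1
      have h3 := UTr_nz hv
      have h4 : 0 ≤ ∑ i, ‖g.toBlocks₁₂.mulVec v i‖ ^ 2 :=
        Finset.sum_nonneg fun i _ => sq_nonneg _
      linarith
    have hmt : mt (0 : α × β → ℂ) = 0 := rfl
    obtain ⟨u, hu⟩ : ∃ u, u = (g.toBlocks₂₂)⁻¹.mulVec y := ⟨_, rfl⟩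
    have hdu : g.toBlocks₂₂.mulVec u = y := by
      rw [hu, Matrix.mulVec_mulVec, Matrix.mul_nonsing_inv _ (isUnit_iff_ne_zero.2 hdet),
        Matrix.one_mulVec]
    have h1 : ∀ i, ∑ j, mob g 0 (i, j) * y j = g.toBlocks₁₂.mulVec u i := by
      intro i
      have h2 : ∀ j, mob g 0 (i, j) = (g.toBlocks₁₂ * (g.toBlocks₂₂)⁻¹) i j := by
        intro j
        show ((g.toBlocks₁₁ * mt (0 : α × β → ℂ) + g.toBlocks₁₂) *
          (g.toBlocks₂₁ * mt (0 : α × β → ℂ) + g.toBlocks₂₂)⁻¹) i j = _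
        rw [hmt, Matrix.mul_zero, Matrix.mul_zero, zero_add, zero_add]
      rw [hu, Matrix.mulVec_mulVec]
      exact Finset.sum_congr rfl fun j _ => by rw [h2 j]
    have h2 := MobB_id hg u
    rw [hdu] at h2
    have h3 := MobB_bd g.toBlocks₂₂ C (fun i j => hC (Sum.inr i) (Sum.inr j)) u
    rw [hdu] at h3
    have hS : 0 ≤ ∑ j, ‖u j‖ ^ 2 := Finset.sum_nonneg fun i _ => sq_nonneg _
    have h4 : ∑ j, ‖y j‖ ^ 2 ≤ K * ∑ j, ‖u j‖ ^ 2 := by
      rw [hK]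
      linarith
    have h5 : (1 / K) * ∑ j, ‖y j‖ ^ 2 ≤ ∑ j, ‖u j‖ ^ 2 := by
      calc (1 / K) * ∑ j, ‖y j‖ ^ 2 ≤ (1 / K) * (K * ∑ j, ‖u j‖ ^ 2) :=
            mul_le_mul_of_nonneg_left h4 hinv0.le
        _ = ∑ j, ‖u j‖ ^ 2 := by
            field_simp
    rw [Real.sq_sqrt (by linarith)]
    simp only [h1]
    linarith

end PST
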