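import Pool.Agent.PST.StN

/-!
# PST, module NF: existence of the normal form (assembly)
-/

set_option autoImplicit false

namespace PST

theorem thm_NF (h1 : St_AnR) (h2 : St_NF2) (h3 : St_NF3) (h4 : St_NF4) (h5 : St_NF5) :
    St_NF := by
  intro X p d J hX
  obtain ⟨A, W, Jz, hLD, hW, hJ, hadj⟩ := h1 X p d J hX
  obtain ⟨t, P, hP⟩ := h2 X.g p d X.H A W Jz hLD
  obtain ⟨α, β, i1, i2, i3, i4, T, S, Tp, Tm, Ta, hN⟩ :=
    h4 X.g p d X.H A W Jz t P hLD hP (h3 X.g p d X.H A W Jz t P hLD hP)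
  obtain ⟨T', S', Tp', Tm', Ta', R, X₀, hF⟩ :=
    h5 X p d J A W Jz α β T S Tp Tm Ta hLD hW hJ hadj hN
  exact ⟨α, β, i1, i2, i3, i4, T', S', Tp', Tm', Ta', R, X₀, hF⟩

end PST
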