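import Pool.Agent.PST.StN

/-!
PST [NF1] (helper50).
-/

set_option autoImplicit false

namespace PST

open scoped ComplexConjugate
open Pool.Agent.GPC (hermForm)
open Module Polynomial

section NF1

variable {g : ℕ} {Hm : Matrix (Fin g) (Fin g) ℂ}

theorem NF1_add_left (z z' w : Fin g → ℂ) :
    hermForm Hm (z + z') w = hermForm Hm z w + hermForm Hm z' w := by
  unfold hermForm
  simp only [Pi.add_apply, add_mul, Finset.sum_add_distrib]

theorem NF1_add_right (z w w' : Fin g → ℂ) :
    hermForm Hm z (w + w') = hermForm Hm z w + hermForm Hm z w' := by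
  unfold hermForm
  simp only [Pi.add_apply, map_add, mul_add, Finset.sum_add_distrib]

theorem NF1_smul_left (c : ℂ) (z w : Fin g → ℂ) :
    hermForm Hm (c • z) w = c * hermForm Hm z w := by
  unfold hermForm
  simp only [Pi.smul_apply, smul_eq_mul, Finset.mul_sum]
  refine Finset.sum_congr rfl fun a _ => Finset.sum_congr rfl fun b _ => ?_
  ring

theorem NF1_smul_right (c : ℂ) (z w : Fin g → ℂ) :
    hermForm Hm z (c • w) = conj c * hermForm Hm z w := by
  unfold hermForm
  simp only [Pi.smul_apply, smul_eq_mul, Finset.mul_sum, map_mul]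
  refine Finset.sum_congr rfl fun a _ => Finset.sum_congr rfl fun b _ => ?_
  ring

theorem NF1_conj (hH : Hm.IsHermitian) (z w : Fin g → ℂ) :
    conj (hermForm Hm z w) = hermForm Hm w z := by
  unfold hermForm
  rw [map_sum]
  simp only [map_sum, map_mul, Complex.conj_conj]
  rw [Finset.sum_comm]
  refine Finset.sum_congr rfl fun a _ => Finset.sum_congr rfl fun b _ => ?_
  have h1 : conj (Hm b a) = Hm a b := by
    have := hH.apply a b
    simpa using this
  rw [h1]
  ring

/-- `m'` is the adjoint of `m` -/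
def NF1_Adj (Hm m m' : Matrix (Fin g) (Fin g) ℂ) : Prop :=
  ∀ z w, hermForm Hm (m.mulVec z) w = hermForm Hm z (m'.mulVec w)

theorem NF1_Adj.add {m m' n n' : Matrix (Fin g) (Fin g) ℂ} (h : NF1_Adj Hm m m')
    (h' : NF1_Adj Hm n n') : NF1_Adj Hm (m + n) (m' + n') := by
  intro z w
  rw [Matrix.add_mulVec, Matrix.add_mulVec, NF1_add_left, NF1_add_right, h z w, h' z w]

theorem NF1_Adj.mul {m m' n n' : Matrix (Fin g) (Fin g) ℂ} (h : NF1_Adj Hm m m')
    (h' : NF1_Adj Hm n n') : NF1_Adj Hm (m * n) (n' * m') := by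
  intro z w
  rw [← Matrix.mulVec_mulVec, ← Matrix.mulVec_mulVec, h, h']

theorem NF1_Adj.smul {m m' : Matrix (Fin g) (Fin g) ℂ} (h : NF1_Adj Hm m m') (q : ℚ) :
    NF1_Adj Hm (q • m) (q • m') := by
  intro z w
  have e1 : ∀ (M : Matrix (Fin g) (Fin g) ℂ) (v : Fin g → ℂ), (q • M).mulVec v =
      (q : ℂ) • M.mulVec v := by
    intro M v
    rw [Matrix.smul_mulVec]
    funext i
    rw [Pi.smul_apply, Pi.smul_apply, Rat.smul_def, smul_eq_mul]
  rw [e1, e1, NF1_smul_left, NF1_smul_right, h z w]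
  congr 1
  exact (Complex.conj_ofReal (q : ℝ)).symm ▸ by simp

theorem NF1_Adj.symm (hH : Hm.IsHermitian) {m m' : Matrix (Fin g) (Fin g) ℂ}
    (h : NF1_Adj Hm m m') : NF1_Adj Hm m' m := by
  intro z w
  rw [← NF1_conj hH w (m'.mulVec z), ← h w z, NF1_conj hH]

theorem NF1_Adj.uniq (hp : ∀ z, z ≠ 0 → 0 < (hermForm Hm z z).re)
    {m m' m'' : Matrix (Fin g) (Fin g) ℂ} (h : NF1_Adj Hm m m') (h' : NF1_Adj Hm m m'') :
    m' = m'' := by
  have h1 : ∀ w, (m' - m'').mulVec w = 0 := by
    intro w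
    by_contra hne
    have h2 := hp _ hne
    have h3 : hermForm Hm ((m' - m'').mulVec w) ((m' - m'').mulVec w) = 0 := by
      set z := (m' - m'').mulVec w
      have h4 : z = m'.mulVec w + (-1 : ℂ) • m''.mulVec w := by
        show (m' - m'').mulVec w = _
        rw [Matrix.sub_mulVec, neg_one_smul, sub_eq_add_neg]
      conv_lhs => rw [h4]
      have h5 : hermForm Hm z (m'.mulVec w) = hermForm Hm z (m''.mulVec w) := by
        rw [← h z w, ← h' z w]
      have h6 : hermForm Hm z z = 0 := by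
        have : hermForm Hm z z = hermForm Hm z (m'.mulVec w + (-1 : ℂ) • m''.mulVec w) := by
          rw [← h4]
        rw [this, NF1_add_right, NF1_smul_right, h5]
        simp
      rw [← h4]
      exact h6
    rw [h3] at h2
    simp at h2
  have h2 : m' - m'' = 0 := by
    ext i j
    have := congrFun (h1 (Pi.single j 1)) i
    rw [Matrix.mulVec_single_one] at this
    exact this
  exact sub_eq_zero.1 h2

theorem NF1_Adj.one : NF1_Adj Hm 1 1 := by
  intro z w
  rw [Matrix.one_mulVec, Matrix.one_mulVec]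

theorem NF1_Adj.poly {y : Matrix (Fin g) (Fin g) ℂ} (h : NF1_Adj Hm y y) (P : ℚ[X]) :
    NF1_Adj Hm (aeval y P) (aeval y P) := by
  induction P using Polynomial.induction_on' with
  | add p q hp hq => rw [map_add]; exact hp.add hq
  | monomial n a =>
    rw [aeval_monomial, ← Algebra.smul_def]
    apply NF1_Adj.smul
    induction n with
    | zero => rw [pow_zero]; exact NF1_Adj.one
    | succ n ih =>
      have h1 := ih.mul h
      rw [← pow_succ, ← pow_succ'] at h1
      exact h1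

/-- divisibility of dimensions -/
theorem NF1_dvd {S T : Type} [Ring S] [Ring T] [Algebra ℚ S] [Algebra ℚ T]
    [FiniteDimensional ℚ S] [IsDomain S] (φ : S →ₐ[ℚ] T) : finrank ℚ S ∣ finrank ℚ T := by
  letI := divisionRingOfFiniteDimensional ℚ S
  letI : Module S T := Module.compHom T φ.toRingHom
  haveI : IsScalarTower ℚ S T := ⟨fun a b c => by
    show φ (a • b) * c = a • (φ b * c)
    rw [map_smul, smul_mul_assoc]⟩
  exact ⟨finrank S T, (finrank_mul_finrank ℚ S T).symm⟩

theorem NF1_dvds {A : Type} [Ring A] [Algebra ℚ A] [FiniteDimensional ℚ A] [IsDomain A]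
    (F : Subalgebra ℚ A) : finrank ℚ F ∣ finrank ℚ A := by
  haveI : FiniteDimensional ℚ F :=
    FiniteDimensional.finiteDimensional_submodule (Subalgebra.toSubmodule F)
  exact NF1_dvd (S := F) (T := A) F.val

theorem NF1_dvdi {A : Type} [Ring A] [Algebra ℚ A] [FiniteDimensional ℚ A] [IsDomain A]
    {F C : Subalgebra ℚ A} (h : F ≤ C) : finrank ℚ F ∣ finrank ℚ C := by
  haveI : FiniteDimensional ℚ F :=
    FiniteDimensional.finiteDimensional_submodule (Subalgebra.toSubmodule F)
  exact NF1_dvd (S := F) (T := C) (Subalgebra.inclusion h)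

theorem thm_NF1 : St_NF1 := by
  intro g p d Hm A W J h
  have hp2 : 2 ≤ p := h.prime.two_le
  have hg : 0 < g := by rw [h.dim]; positivity
  haveI : Nonempty (Fin g) := ⟨⟨0, hg⟩⟩
  obtain ⟨b, -⟩ := h.basis
  haveI : FiniteDimensional ℚ W := Module.Finite.of_basis b
  have hWr : finrank ℚ W = 2 * g := by
    rw [finrank_eq_card_basis b, Fintype.card_sum, Fintype.card_fin]
    ring
  have hw0 : (b (Sum.inl ⟨0, hg⟩) : Fin g → ℂ) ≠ 0 := by
    intro h0
    exact b.ne_zero (Sum.inl ⟨0, hg⟩) (Subtype.ext h0)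
  set w₀ : W := b (Sum.inl ⟨0, hg⟩) with hw₀
  let ev : A →ₗ[ℚ] W := {
    toFun := fun m => ⟨m.1.mulVec w₀, h.stab m m.2 w₀ w₀.2⟩
    map_add' := fun m n => Subtype.ext (Matrix.add_mulVec m.1 n.1 _)
    map_smul' := fun q m => Subtype.ext (by
      show (q • m.1).mulVec (w₀ : Fin g → ℂ) = q • (m.1.mulVec (w₀ : Fin g → ℂ))
      exact Matrix.smul_mulVec q m.1 _) }
  have hinj : Function.Injective ev := by
    rw [injective_iff_map_eq_zero]
    intro m hm
    by_contra hne
    have h1 : m.1 ≠ 0 := fun h0 => hne (Subtype.ext h0)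
    apply h.div m m.2 h1
    exact Matrix.exists_mulVec_eq_zero_iff.1 ⟨w₀, hw0, congrArg Subtype.val hm⟩
  have hsurj : Function.Surjective ev := by
    intro w
    obtain ⟨m, hm, hmw⟩ := h.trans w₀ w₀.2 hw0 w w.2
    exact ⟨⟨m, hm⟩, Subtype.ext hmw⟩
  haveI : FiniteDimensional ℚ A := FiniteDimensional.of_injective ev hinj
  have hAr : finrank ℚ A = 2 * p ^ 2 := by
    rw [(LinearEquiv.ofBijective ev ⟨hinj, hsurj⟩).finrank_eq, hWr, h.dim]
  haveI : Nontrivial A := ⟨⟨0, 1, fun h0 => by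
    have h1 : (0 : Matrix (Fin g) (Fin g) ℂ) = 1 := congrArg Subtype.val h0
    exact zero_ne_one h1⟩⟩
  haveI : NoZeroDivisors A := ⟨by
    intro a c hac
    by_contra hcon
    push Not at hcon
    have h1 : a.1 ≠ 0 := fun h0 => hcon.1 (Subtype.ext h0)
    have h2 : c.1 ≠ 0 := fun h0 => hcon.2 (Subtype.ext h0)
    have h3 : a.1 * c.1 = 0 := congrArg Subtype.val hac
    have h4 : a.1.det * c.1.det = 0 := by
      rw [← Matrix.det_mul, h3, Matrix.det_zero]
    rcases mul_eq_zero.1 h4 with h5 | h5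
    · exact h.div a a.2 h1 h5
    · exact h.div c c.2 h2 h5⟩
  haveI : IsDomain A := NoZeroDivisors.to_isDomain _
  let Jr : A := ⟨J, h.JA⟩
  have hqs : ∀ (q : ℚ) (M : Matrix (Fin g) (Fin g) ℂ), (q : ℂ) • M = q • M := by
    intro q M
    ext i j
    rw [Matrix.smul_apply, Matrix.smul_apply, Rat.smul_def, smul_eq_mul]
  have hJadj : NF1_Adj Hm J ((-1 : ℚ) • J) := by
    intro z w
    rw [h.Jadj z w]
    have e1 : ((-1 : ℚ) • J).mulVec w = (-1 : ℂ) • J.mulVec w := by
      rw [← hqs, Matrix.smul_mulVec]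
      push_cast
      rfl
    rw [e1, NF1_smul_right]
    simp
  have hJJ : J * J = (-d) • (1 : Matrix (Fin g) (Fin g) ℂ) := by
    rw [h.J2, hqs, neg_smul]
  have hdne : d ≠ 0 := h.pos.ne'
  have hJ0 : J ≠ 0 := by
    intro h0
    rw [h0, zero_mul] at hJJ
    have := congrFun (congrFun hJJ ⟨0, hg⟩) ⟨0, hg⟩
    rw [Matrix.smul_apply, Matrix.one_apply_eq, Matrix.zero_apply, Rat.smul_def, mul_one] at this
    have h1 : (-d : ℚ) = 0 := by exact_mod_cast this.symm
    exact hdne (neg_eq_zero.1 h1)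
  -- if an element of Q + Q J is selfadjoint, it is rational
  have hselfQJ : ∀ a b : ℚ, NF1_Adj Hm (a • (1 : Matrix (Fin g) (Fin g) ℂ) + b • J)
      (a • (1 : Matrix (Fin g) (Fin g) ℂ) + b • J) → b = 0 := by
    intro a b hself
    have h1 : NF1_Adj Hm (a • (1 : Matrix (Fin g) (Fin g) ℂ) + b • J)
        (a • (1 : Matrix (Fin g) (Fin g) ℂ) + b • ((-1 : ℚ) • J)) :=
      (NF1_Adj.one.smul a).add (hJadj.smul b)
    have h2 := hself.uniq h.pd h1
    have h3 : b • J = b • ((-1 : ℚ) • J) := add_left_cancel h2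
    rw [smul_smul] at h3
    have h4 : (b - b * (-1)) • J = 0 := by rw [sub_smul, ← h3, sub_self]
    rcases smul_eq_zero.1 h4 with h5 | h5
    · linarith
    · exact absurd h5 hJ0
  -- a selfadjoint element which is not rational
  have hex : ∃ y : A, NF1_Adj Hm (y : Matrix (Fin g) (Fin g) ℂ) y ∧
      ¬ ∃ a : ℚ, (y : Matrix (Fin g) (Fin g) ℂ) = a • 1 := by
    by_contra hcon
    push Not at hcon
    have hall : ∀ m : A, ∃ a b : ℚ, m = a • (1 : A) + b • Jr := by
      intro m
      obtain ⟨m', hm', hadj⟩ := h.adj m m.2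
      have hadj1 : NF1_Adj Hm (m : Matrix (Fin g) (Fin g) ℂ) m' := hadj
      have hadj2 := hadj1.symm h.herm
      obtain ⟨a, ha⟩ := hcon (m + ⟨m', hm'⟩) (by
        have h1 := hadj1.add hadj2
        rw [add_comm m' m.1] at h1
        exact h1)
      obtain ⟨c, hc⟩ := hcon (Jr * (m + (-1 : ℚ) • ⟨m', hm'⟩)) (by
        have h1 : NF1_Adj Hm (m.1 + (-1 : ℚ) • m') (m' + (-1 : ℚ) • m.1) :=
          hadj1.add (hadj2.smul (-1))
        have h2 := hJadj.mul h1
        have h3 : (m' + (-1 : ℚ) • m.1) * ((-1 : ℚ) • J) = J * (m.1 + (-1 : ℚ) • m') := by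
          rw [mul_smul_comm, add_mul, smul_mul_assoc, h.Jc m' hm', h.Jc m.1 m.2, mul_add,
            mul_smul_comm, smul_add, smul_smul]
          simp only [neg_smul, one_smul, mul_neg, neg_neg, neg_mul, one_mul]
          rw [add_comm]
        rw [h3] at h2
        exact h2)
      have ha' : m + ⟨m', hm'⟩ = a • (1 : A) := Subtype.ext ha
      have hc' : Jr * (m + (-1 : ℚ) • ⟨m', hm'⟩) = c • (1 : A) := Subtype.ext hc
      have hJrJr : Jr * Jr = (-d) • (1 : A) := Subtype.ext hJJ
      have h5 : (-d) • (m + (-1 : ℚ) • (⟨m', hm'⟩ : A)) = c • Jr := by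
        have h6 : Jr * (Jr * (m + (-1 : ℚ) • (⟨m', hm'⟩ : A))) = Jr * (c • (1 : A)) := by rw [hc']
        rw [← mul_assoc, hJrJr, smul_mul_assoc, one_mul, mul_smul_comm, mul_one] at h6
        exact h6
      have h7 : m + (-1 : ℚ) • (⟨m', hm'⟩ : A) = ((-d)⁻¹ * c) • Jr := by
        rw [mul_smul, ← h5, smul_smul, inv_mul_cancel₀ (neg_ne_zero.2 hdne), one_smul]
      refine ⟨a / 2, (-d)⁻¹ * c / 2, ?_⟩
      have h8 : m = (1 / 2 : ℚ) • ((m + ⟨m', hm'⟩) + (m + (-1 : ℚ) • (⟨m', hm'⟩ : A))) := by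
        rw [neg_smul, one_smul]
        have : (m + (⟨m', hm'⟩ : A)) + (m + -(⟨m', hm'⟩ : A)) = (2 : ℚ) • m := by
          rw [two_smul]; abel
        rw [this, smul_smul]
        norm_num
      rw [h8, ha', h7, smul_add, smul_smul, smul_smul]
      congr 2 <;> ring
    let ψ : ℚ × ℚ →ₗ[ℚ] A := (LinearMap.toSpanSingleton ℚ A 1).coprod
      (LinearMap.toSpanSingleton ℚ A Jr)
    have hψ : Function.Surjective ψ := by
      intro m
      obtain ⟨a, c, hm⟩ := hall m
      refine ⟨(a, c), ?_⟩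
      rw [hm]
      simp [ψ]
    have h9 := LinearMap.finrank_le_finrank_of_surjective hψ
    rw [hAr, finrank_prod, finrank_self] at h9
    nlinarith
  obtain ⟨y, hyadj, hyq⟩ := hex
  have hint : IsIntegral ℚ y := IsIntegral.of_finite ℚ y
  have hmin : minpoly ℚ (y : Matrix (Fin g) (Fin g) ℂ) = minpoly ℚ y :=
    minpoly.algHom_eq A.val Subtype.val_injective y
  set e := (minpoly ℚ y).natDegree with he
  have hcoe : ∀ P : ℚ[X], ((aeval y P : A) : Matrix (Fin g) (Fin g) ℂ) =
      aeval (y : Matrix (Fin g) (Fin g) ℂ) P := fun P =>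
    (Polynomial.aeval_algHom_apply A.val y P).symm
  have hcommJ : ∀ m : A, m * Jr = Jr * m := fun m => Subtype.ext (h.Jc m m.2)
  have hJrJr : Jr * Jr = (-d) • (1 : A) := Subtype.ext hJJ
  -- independence of Q[y] and J Q[y]
  have hind : ∀ P Q : ℚ[X], aeval y P + Jr * aeval y Q = 0 → aeval y P = 0 ∧ aeval y Q = 0 := by
    intro P Q hPQ
    have hPa := hyadj.poly P
    have hQa := hyadj.poly Q
    have h1 : aeval (y : Matrix (Fin g) (Fin g) ℂ) P +
        J * aeval (y : Matrix (Fin g) (Fin g) ℂ) Q = 0 := by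
      have := congrArg Subtype.val hPQ
      rw [← hcoe, ← hcoe]
      exact this
    have h2 := hPa.add (hJadj.mul hQa)
    rw [h1] at h2
    have h3 : NF1_Adj Hm (0 : Matrix (Fin g) (Fin g) ℂ) 0 := by
      intro z w
      rw [Matrix.zero_mulVec, Matrix.zero_mulVec]
      unfold hermForm
      simp
    have h4 := h2.uniq h.pd h3
    rw [mul_smul_comm] at h4
    have h5 : aeval (y : Matrix (Fin g) (Fin g) ℂ) Q * J =
        J * aeval (y : Matrix (Fin g) (Fin g) ℂ) Q := by
      rw [← hcoe]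
      exact h.Jc _ (aeval y Q).2
    rw [h5, neg_smul, one_smul] at h4
    have h6 : aeval (y : Matrix (Fin g) (Fin g) ℂ) P = 0 := by
      have h7 : aeval (y : Matrix (Fin g) (Fin g) ℂ) P +
          aeval (y : Matrix (Fin g) (Fin g) ℂ) P = 0 := by
        have h8 : J * aeval (y : Matrix (Fin g) (Fin g) ℂ) Q =
          -aeval (y : Matrix (Fin g) (Fin g) ℂ) P := by
          rw [eq_neg_iff_add_eq_zero, add_comm]; exact h1
        rw [h8, neg_neg] at h4
        exact h4
      rw [← two_smul ℚ] at h7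
      rcases smul_eq_zero.1 h7 with h8 | h8
      · norm_num at h8
      · exact h8
    have h9 : (aeval y P : A) = 0 := Subtype.ext (by rw [hcoe]; exact h6)
    refine ⟨h9, ?_⟩
    rw [h9, zero_add] at hPQ
    rcases mul_eq_zero.1 hPQ with h10 | h10
    · exact absurd (congrArg Subtype.val h10) hJ0
    · exact h10
  -- the subfield
  let F : Subalgebra ℚ A := {
    carrier := {m | ∃ P Q : ℚ[X], m = aeval y P + Jr * aeval y Q}
    mul_mem' := by
      rintro _ _ ⟨P, Q, rfl⟩ ⟨P', Q', rfl⟩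
      refine ⟨P * P' + C (-d) * (Q * Q'), P * Q' + Q * P', ?_⟩
      have h1 : aeval y (C (-d) * (Q * Q')) = Jr * Jr * (aeval y Q * aeval y Q') := by
        rw [map_mul, map_mul, aeval_C, hJrJr, Algebra.algebraMap_eq_smul_one]
      rw [map_add, h1, map_mul, map_add, map_mul, map_mul]
      have h2 : aeval y P * Jr = Jr * aeval y P := hcommJ _
      have h3 : aeval y Q * Jr = Jr * aeval y Q := hcommJ _
      calc (aeval y P + Jr * aeval y Q) * (aeval y P' + Jr * aeval y Q')
          = aeval y P * aeval y P' + (aeval y P * Jr) * aeval y Q' +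
            Jr * aeval y Q * aeval y P' + Jr * (aeval y Q * Jr) * aeval y Q' := by
            noncomm_ring
        _ = _ := by
            rw [h2, h3]
            noncomm_ring
    add_mem' := by
      rintro _ _ ⟨P, Q, rfl⟩ ⟨P', Q', rfl⟩
      refine ⟨P + P', Q + Q', ?_⟩
      rw [map_add, map_add, mul_add]
      abel
    algebraMap_mem' := by
      intro r
      refine ⟨C r, 0, ?_⟩
      rw [map_zero, mul_zero, add_zero, aeval_C] }
  let Ψ : (Polynomial.degreeLT ℚ e × Polynomial.degreeLT ℚ e) →ₗ[ℚ] F := {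
    toFun := fun PQ => ⟨aeval y PQ.1.1 + Jr * aeval y PQ.2.1, PQ.1.1, PQ.2.1, rfl⟩
    map_add' := by
      intro a c
      apply Subtype.ext
      show aeval y (a.1.1 + c.1.1) + Jr * aeval y (a.2.1 + c.2.1) =
        (aeval y a.1.1 + Jr * aeval y a.2.1) + (aeval y c.1.1 + Jr * aeval y c.2.1)
      rw [map_add, map_add, mul_add]
      abel
    map_smul' := by
      intro q a
      apply Subtype.ext
      show aeval y (q • a.1.1) + Jr * aeval y (q • a.2.1) =
        q • (aeval y a.1.1 + Jr * aeval y a.2.1)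
      rw [map_smul, map_smul, mul_smul_comm, smul_add] }
  have hsmall : ∀ P : ℚ[X], P ∈ Polynomial.degreeLT ℚ e → aeval y P = 0 → P = 0 := by
    intro P hP h0
    rw [Polynomial.mem_degreeLT] at hP
    apply Polynomial.eq_zero_of_dvd_of_degree_lt (minpoly.dvd ℚ y h0)
    rw [Polynomial.degree_eq_natDegree (minpoly.ne_zero hint)]
    exact hP
  have hΨi : Function.Injective Ψ := by
    rw [injective_iff_map_eq_zero]
    rintro ⟨P, Q⟩ hPQ
    have h1 : aeval y P.1 + Jr * aeval y Q.1 = 0 := congrArg Subtype.val hPQ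
    obtain ⟨h2, h3⟩ := hind _ _ h1
    have h4 := hsmall P.1 P.2 h2
    have h5 := hsmall Q.1 Q.2 h3
    exact Prod.ext (Subtype.ext h4) (Subtype.ext h5)
  have hmod : ∀ P : ℚ[X], P %ₘ minpoly ℚ y ∈ Polynomial.degreeLT ℚ e ∧
      aeval y (P %ₘ minpoly ℚ y) = aeval y P := by
    intro P
    constructor
    · rw [Polynomial.mem_degreeLT]
      have := Polynomial.degree_modByMonic_lt P (minpoly.monic hint)
      rwa [Polynomial.degree_eq_natDegree (minpoly.ne_zero hint)] at this
    · exact Polynomial.aeval_modByMonic_eq_self_of_root (minpoly.aeval ℚ y)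
  have hΨs : Function.Surjective Ψ := by
    rintro ⟨_, P, Q, rfl⟩
    refine ⟨(⟨_, (hmod P).1⟩, ⟨_, (hmod Q).1⟩), ?_⟩
    apply Subtype.ext
    show aeval y (P %ₘ minpoly ℚ y) + Jr * aeval y (Q %ₘ minpoly ℚ y) = _
    rw [(hmod P).2, (hmod Q).2]
  have hFr : finrank ℚ F = 2 * e := by
    haveI : Module.Finite ℚ (Polynomial.degreeLT ℚ e) :=
      Module.Finite.equiv (Polynomial.degreeLTEquiv ℚ e).symm
    rw [← (LinearEquiv.ofBijective Ψ ⟨hΨi, hΨs⟩).finrank_eq, finrank_prod,
      (Polynomial.degreeLTEquiv ℚ e).finrank_eq, finrank_fin_fun]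
    ring
  -- y central is impossible
  have hcen : ¬ ∀ m : A, y * m = m * y := by
    intro hall
    obtain ⟨a, c, hac⟩ := h.cen y y.2 (fun m' hm' => congrArg Subtype.val (hall ⟨m', hm'⟩))
    rw [hqs, hqs] at hac
    have h1 := hselfQJ a c (by rw [← hac]; exact hyadj)
    apply hyq
    exact ⟨a, by rw [hac, h1, zero_smul, add_zero]⟩
  let Cz : Subalgebra ℚ A := Subalgebra.centralizer ℚ {y}
  have hFC : F ≤ Cz := by
    rintro _ ⟨P, Q, rfl⟩
    rw [Subalgebra.mem_centralizer_iff]
    intro z hz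
    rw [Set.mem_singleton_iff] at hz
    rw [hz]
    have hc : ∀ P : ℚ[X], y * aeval y P = aeval y P * y := by
      intro P
      have h1 : y * aeval y P = aeval y (X * P) := by rw [map_mul, aeval_X]
      have h2 : aeval y P * y = aeval y (P * X) := by rw [map_mul, aeval_X]
      rw [h1, h2, mul_comm]
    rw [mul_add, add_mul, hc P, ← mul_assoc, hcommJ y, mul_assoc, hc Q, mul_assoc]
  have d1 : finrank ℚ F ∣ finrank ℚ A := NF1_dvds F
  have d2 : finrank ℚ F ∣ finrank ℚ Cz := NF1_dvdi hFC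
  have d3 : finrank ℚ Cz ∣ finrank ℚ A := NF1_dvds Cz
  rw [hFr, hAr] at d1
  rw [hFr] at d2
  rw [hAr] at d3
  have d4 : e ∣ p ^ 2 := Nat.dvd_of_mul_dvd_mul_left (by norm_num) d1
  obtain ⟨k, hk, hek⟩ := (Nat.dvd_prime_pow h.prime).1 d4
  have hCtop : Cz ≠ ⊤ := by
    intro htop
    apply hcen
    intro m
    have : m ∈ Cz := by rw [htop]; trivial
    rw [Subalgebra.mem_centralizer_iff] at this
    exact this y rfl
  have htopof : ∀ S : Subalgebra ℚ A, finrank ℚ S = finrank ℚ A → S = ⊤ := by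
    intro S hS
    have h1 : Subalgebra.toSubmodule S = ⊤ := Submodule.eq_top_of_finrank_eq hS
    exact Algebra.toSubmodule_eq_top.1 h1
  have hep : e = p := by
    interval_cases k
    · exfalso
      rw [pow_zero] at hek
      obtain ⟨a, ha⟩ := (minpoly.natDegree_eq_one_iff).1 hek
      apply hyq
      refine ⟨a, ?_⟩
      rw [← ha, Algebra.algebraMap_eq_smul_one]
      rfl
    · rw [pow_one] at hek; exact hek
    · exfalso
      apply hCtop
      have h1 : F = ⊤ := htopof F (by rw [hFr, hAr, hek])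
      rw [h1] at hFC
      exact top_le_iff.1 hFC
  have hCF : Cz = F := by
    obtain ⟨a, ha⟩ := d2
    have h1 : a ∣ p := by
      rw [ha, hep] at d3
      have h2 : 2 * p * a ∣ 2 * p * p := by
        rw [show 2 * p * p = 2 * p ^ 2 by ring]
        exact d3
      exact Nat.dvd_of_mul_dvd_mul_left (by omega) h2
    rcases (Nat.dvd_prime h.prime).1 h1 with h2 | h2
    · symm
      have h3 : Subalgebra.toSubmodule F = Subalgebra.toSubmodule Cz := by
        apply Submodule.eq_of_le_of_finrank_eq (fun x hx => hFC hx)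
        show finrank ℚ F = finrank ℚ Cz
        rw [ha, h2, mul_one, hFr]
      exact Subalgebra.toSubmodule_injective h3
    · exfalso
      apply hCtop
      apply htopof
      rw [ha, h2, hep, hAr]
      ring
  refine ⟨y, y.2, hyadj, ?_, ?_, ?_⟩
  · rw [hmin, ← he, hep]
  · rw [hmin]
    exact minpoly.irreducible hint
  · intro m hm hmy
    have h1 : (⟨m, hm⟩ : A) ∈ Cz := by
      rw [Subalgebra.mem_centralizer_iff]
      intro z hz
      rw [Set.mem_singleton_iff] at hz
      rw [hz]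
      exact Subtype.ext hmy.symm
    rw [hCF] at h1
    obtain ⟨P, Q, hPQ⟩ := h1
    refine ⟨P, Q, ?_⟩
    have := congrArg Subtype.val hPQ
    rw [← hcoe, ← hcoe]
    exact this

end NF1

end PST
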