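import Pool.Agent.PST.StN

/-!
# PST [NF2]: the projectors (helper22)
-/

set_option autoImplicit false

namespace PST

open scoped ComplexConjugate
open Pool.Agent.GPC (AbVar hermForm bilForm)
open Module Polynomial

section herm

variable {g : ℕ} (H : Matrix (Fin g) (Fin g) ℂ)

private theorem NF2_ha (x y w : Fin g → ℂ) :
    hermForm H (x + y) w = hermForm H x w + hermForm H y w := by
  unfold hermForm
  rw [← Finset.sum_add_distrib]
  refine Finset.sum_congr rfl fun a _ => ?_
  rw [← Finset.sum_add_distrib]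
  refine Finset.sum_congr rfl fun b _ => ?_
  simp only [Pi.add_apply]
  ring

private theorem NF2_hs (c : ℂ) (x w : Fin g → ℂ) : hermForm H (c • x) w = c * hermForm H x w := by
  unfold hermForm
  rw [Finset.mul_sum]
  refine Finset.sum_congr rfl fun a _ => ?_
  rw [Finset.mul_sum]
  refine Finset.sum_congr rfl fun b _ => ?_
  simp only [Pi.smul_apply, smul_eq_mul]
  ring

private theorem NF2_ha' (w x y : Fin g → ℂ) :
    hermForm H w (x + y) = hermForm H w x + hermForm H w y := by
  unfold hermForm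
  rw [← Finset.sum_add_distrib]
  refine Finset.sum_congr rfl fun a _ => ?_
  rw [← Finset.sum_add_distrib]
  refine Finset.sum_congr rfl fun b _ => ?_
  simp only [Pi.add_apply, map_add]
  ring

private theorem NF2_hs' (c : ℂ) (w x : Fin g → ℂ) :
    hermForm H w (c • x) = conj c * hermForm H w x := by
  unfold hermForm
  rw [Finset.mul_sum]
  refine Finset.sum_congr rfl fun a _ => ?_
  rw [Finset.mul_sum]
  refine Finset.sum_congr rfl fun b _ => ?_
  simp only [Pi.smul_apply, smul_eq_mul, map_mul]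
  ring

private theorem NF2_rs (x : ℝ) (M : Matrix (Fin g) (Fin g) ℂ) : x • M = (x : ℂ) • M := by
  ext i j
  simp

/-- real polynomials in a selfadjoint matrix are selfadjoint -/
private theorem NF2_adj {y : Matrix (Fin g) (Fin g) ℂ}
    (hy : ∀ z w, hermForm H (y.mulVec z) w = hermForm H z (y.mulVec w)) (q : ℝ[X]) :
    ∀ z w, hermForm H ((aeval y q).mulVec z) w = hermForm H z ((aeval y q).mulVec w) := by
  induction q using Polynomial.induction_on' with
  | add p q hp hq =>
    intro z w
    rw [map_add, Matrix.add_mulVec, Matrix.add_mulVec, NF2_ha, NF2_ha', hp, hq]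
  | monomial n a =>
    have h1 : ∀ n : ℕ, ∀ z w, hermForm H ((y ^ n).mulVec z) w =
        hermForm H z ((y ^ n).mulVec w) := by
      intro n
      induction n with
      | zero =>
        intro z w
        simp
      | succ n ih =>
        intro z w
        rw [pow_succ, ← Matrix.mulVec_mulVec, ih, hy, Matrix.mulVec_mulVec, ← pow_succ', pow_succ]
    intro z w
    rw [aeval_monomial, Matrix.algebraMap_eq_diagonal]
    have h2 : ∀ v : Fin g → ℂ, (Matrix.diagonal ((algebraMap ℝ (Fin g → ℂ)) a) * y ^ n).mulVec v =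
        (a : ℂ) • (y ^ n).mulVec v := by
      intro v
      rw [← Matrix.mulVec_mulVec]
      ext i
      rw [Matrix.mulVec_diagonal]
      rfl
    rw [h2, h2, NF2_hs, NF2_hs', h1, Complex.conj_ofReal]

end herm

section dual

variable {g : ℕ}

/-- linear relations with real coefficients between elements of `W` -/
private theorem NF2_dual {W : Submodule ℚ (Fin g → ℂ)}
    (hb : ∃ b : Basis (Fin g ⊕ Fin g) ℚ W, LinearIndependent ℝ fun i => (b i : Fin g → ℂ))
    (φ : ℝ →ₗ[ℚ] ℚ) {κ : Type} (s : Finset κ) (c : κ → ℝ) (w : κ → W)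
    (h : ∑ i ∈ s, c i • (w i : Fin g → ℂ) = 0) :
    ∑ i ∈ s, φ (c i) • (w i : Fin g → ℂ) = 0 := by
  obtain ⟨b, hli⟩ := hb
  have hw : ∀ i, (w i : Fin g → ℂ) = ∑ j, b.repr (w i) j • (b j : Fin g → ℂ) := by
    intro i
    have h1 := congrArg (Subtype.val : W → Fin g → ℂ) (b.sum_repr (w i))
    rw [← h1]
    push_cast
    rfl
  have hq : ∀ (q : ℚ) (v : Fin g → ℂ), q • v = (q : ℝ) • v := by
    intro q v
    ext i
    simp [Rat.smul_def]
  have h1 : ∑ j, (∑ i ∈ s, c i * (b.repr (w i) j : ℝ)) • (b j : Fin g → ℂ) = 0 := by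
    rw [← h]
    simp_rw [Finset.sum_smul]
    rw [Finset.sum_comm]
    refine Finset.sum_congr rfl fun i _ => ?_
    conv_rhs => rw [hw i]
    rw [Finset.smul_sum]
    refine Finset.sum_congr rfl fun j _ => ?_
    rw [hq, smul_smul]
  have h2 := Fintype.linearIndependent_iff.mp hli _ h1
  have h3 : ∀ j, ∑ i ∈ s, φ (c i) * b.repr (w i) j = 0 := by
    intro j
    have h4 := congrArg φ (h2 j)
    rw [map_sum, map_zero] at h4
    rw [← h4]
    refine Finset.sum_congr rfl fun i _ => ?_
    rw [show c i * (b.repr (w i) j : ℝ) = b.repr (w i) j • c i by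
      rw [Rat.smul_def, mul_comm], map_smul, smul_eq_mul, mul_comm]
  calc ∑ i ∈ s, φ (c i) • (w i : Fin g → ℂ)
      = ∑ i ∈ s, φ (c i) • ∑ j, b.repr (w i) j • (b j : Fin g → ℂ) := by
        refine Finset.sum_congr rfl fun i _ => ?_
        rw [← hw]
    _ = ∑ j, (∑ i ∈ s, φ (c i) * b.repr (w i) j) • (b j : Fin g → ℂ) := by
        simp_rw [Finset.sum_smul, Finset.smul_sum, smul_smul]
        rw [Finset.sum_comm]
    _ = 0 := by
        simp [h3]

variable {p : ℕ} {d : ℚ} {Hm : Matrix (Fin g) (Fin g) ℂ}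
  {A : Subalgebra ℚ (Matrix (Fin g) (Fin g) ℂ)} {W : Submodule ℚ (Fin g → ℂ)}
  {J : Matrix (Fin g) (Fin g) ℂ}

/-- linear relations with real coefficients between elements of `A` -/
private theorem NF2_dualA (h : LD g p d Hm A W J) (φ : ℝ →ₗ[ℚ] ℚ) {κ : Type} (s : Finset κ)
    (c : κ → ℝ) (a : κ → Matrix (Fin g) (Fin g) ℂ) (ha : ∀ i, a i ∈ A)
    (h0 : ∑ i ∈ s, c i • a i = 0) : ∑ i ∈ s, φ (c i) • a i = 0 := by
  have hg : 0 < g := by
    rw [h.dim]
    exact pow_pos h.prime.pos 2
  obtain ⟨b, hli⟩ := h.basis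
  set w0 : W := b (Sum.inl ⟨0, hg⟩) with hw0
  have hw0' : (w0 : Fin g → ℂ) ≠ 0 := hli.ne_zero (Sum.inl ⟨0, hg⟩)
  have h1 := NF2_dual ⟨b, hli⟩ φ s c (fun i => ⟨(a i).mulVec (w0 : Fin g → ℂ),
    h.stab _ (ha i) _ w0.2⟩) (by
      have h2 := congrArg (fun M : Matrix (Fin g) (Fin g) ℂ => M.mulVec (w0 : Fin g → ℂ)) h0
      simp only [Matrix.zero_mulVec] at h2
      rw [← h2, Matrix.sum_mulVec]
      refine Finset.sum_congr rfl fun i _ => ?_
      rw [Matrix.smul_mulVec])
  have h3 : ∑ i ∈ s, φ (c i) • a i ∈ A := Subalgebra.sum_mem _ fun i _ => A.smul_mem (ha i) _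
  by_contra hne
  refine hw0' (Matrix.eq_zero_of_mulVec_eq_zero (h.div _ h3 hne) ?_)
  rw [Matrix.sum_mulVec, ← h1]
  refine Finset.sum_congr rfl fun i _ => ?_
  rw [Matrix.smul_mulVec]

/-- a basis of the real numbers over the rational numbers -/
private noncomputable abbrev NF2_B := Basis.ofVectorSpace ℚ ℝ

private theorem NF2_rec {M : Matrix (Fin g) (Fin g) ℂ}
    (hM : M ∈ Submodule.span ℝ (A : Set (Matrix (Fin g) (Fin g) ℂ))) :
    ∃ (s : Finset (Basis.ofVectorSpaceIndex ℚ ℝ))
      (a : Basis.ofVectorSpaceIndex ℚ ℝ → Matrix (Fin g) (Fin g) ℂ), (∀ i, a i ∈ A) ∧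
      (∀ i ∉ s, a i = 0) ∧ M = ∑ i ∈ s, NF2_B i • a i := by
  classical
  induction hM using Submodule.closure_induction with
  | zero => exact ⟨∅, fun _ => 0, fun _ => A.zero_mem, fun _ _ => rfl, by simp⟩
  | add x y _ _ hx hy =>
    obtain ⟨s, a, h1, h2, rfl⟩ := hx
    obtain ⟨s', a', h1', h2', rfl⟩ := hy
    refine ⟨s ∪ s', fun i => a i + a' i, fun i => A.add_mem (h1 i) (h1' i), fun i hi => ?_, ?_⟩
    · rw [Finset.mem_union, not_or] at hi
      show a i + a' i = 0
      rw [h2 i hi.1, h2' i hi.2, add_zero]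
    · simp_rw [smul_add]
      rw [Finset.sum_add_distrib]
      congr 1
      · refine Finset.sum_subset Finset.subset_union_left fun i _ hi => ?_
        rw [h2 i hi, smul_zero]
      · refine Finset.sum_subset Finset.subset_union_right fun i _ hi => ?_
        rw [h2' i hi, smul_zero]
  | smul_mem r x hx =>
    refine ⟨(NF2_B.repr r).support, fun i => NF2_B.repr r i • x, fun i => A.smul_mem hx _,
      fun i hi => ?_, ?_⟩
    · show NF2_B.repr r i • x = 0
      rw [Finsupp.notMem_support_iff.mp hi, zero_smul]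
    · conv_lhs => rw [← NF2_B.linearCombination_repr r]
      rw [Finsupp.linearCombination_apply, Finsupp.sum, Finset.sum_smul]
      refine Finset.sum_congr rfl fun i _ => ?_
      rw [smul_assoc, smul_comm]

end dual

section main

variable {g : ℕ} {p : ℕ} {d : ℚ} {Hm : Matrix (Fin g) (Fin g) ℂ}
  {A : Subalgebra ℚ (Matrix (Fin g) (Fin g) ℂ)} {W : Submodule ℚ (Fin g → ℂ)}
  {J : Matrix (Fin g) (Fin g) ℂ} {y : Matrix (Fin g) (Fin g) ℂ}

/-- real polynomials of small degree -/
private theorem NF2_low (h : LD g p d Hm A W J) (hy : y ∈ A)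
    (hdeg : (minpoly ℚ y).natDegree = p) {q : ℝ[X]} (hq : q.natDegree < p)
    (h0 : aeval y q = 0) : q = 0 := by
  have h1 : ∀ φ : ℝ →ₗ[ℚ] ℚ, ∀ j, φ (q.coeff j) = 0 := by
    intro φ j
    have h2 := NF2_dualA h φ (Finset.range p) (fun j => q.coeff j) (fun j => y ^ j)
      (fun j => A.pow_mem hy j) (by rw [← aeval_eq_sum_range' hq, h0])
    let r : ℚ[X] := ∑ j ∈ Finset.range p, monomial j (φ (q.coeff j))
    have hr : ∀ j, r.coeff j = if j < p then φ (q.coeff j) else 0 := by
      intro j
      rw [finsetSum_coeff]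
      simp only [coeff_monomial]
      rw [Finset.sum_ite_eq' (Finset.range p) j]
      simp
    have h3 : aeval y r = 0 := by
      rw [← h2, map_sum]
      refine Finset.sum_congr rfl fun j _ => ?_
      rw [aeval_monomial, Algebra.smul_def]
    have h4 : r = 0 := by
      refine eq_zero_of_dvd_of_natDegree_lt (minpoly.dvd ℚ y h3) ?_
      rw [hdeg]
      have hp := h.prime.pos
      have h5 : r.natDegree ≤ p - 1 := natDegree_le_iff_coeff_eq_zero.mpr fun N hN => by
        rw [hr, if_neg (by omega)]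
      exact lt_of_le_of_lt h5 (Nat.sub_lt hp one_pos)
    by_cases hj : j < p
    · have h5 := hr j
      rw [h4, if_pos hj, coeff_zero] at h5
      exact h5.symm
    · rw [coeff_eq_zero_of_natDegree_lt (by omega), map_zero]
  ext j
  rw [coeff_zero]
  refine (NF2_B.repr.map_eq_zero_iff).mp (Finsupp.ext fun i => ?_)
  exact h1 (NF2_B.coord i) j

/-- the roots are real -/
private theorem NF2_real (h : LD g p d Hm A W J) (hy : y ∈ A)
    (hsa : ∀ z w, hermForm Hm (y.mulVec z) w = hermForm Hm z (y.mulVec w))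
    (hdeg : (minpoly ℚ y).natDegree = p) {z : ℂ} (hz : aeval z (minpoly ℚ y) = 0) :
    z.im = 0 := by
  by_contra hne
  set fR : ℝ[X] := (minpoly ℚ y).map (algebraMap ℚ ℝ) with hfR
  have hfy : aeval y fR = 0 := by
    rw [hfR, aeval_map_algebraMap, minpoly.aeval]
  have hfz : aeval z fR = 0 := by
    rw [hfR, aeval_map_algebraMap, hz]
  have hfd : fR.natDegree = p := by
    rw [hfR, natDegree_map, hdeg]
  have hf0 : fR ≠ 0 := by
    intro h0
    rw [h0, natDegree_zero] at hfd
    exact h.prime.ne_zero hfd.symm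
  obtain ⟨q, hq⟩ := quadratic_dvd_of_aeval_eq_zero_im_ne_zero fR hfz hne
  set Q : ℝ[X] := X ^ 2 - C (2 * z.re) * X + C (‖z‖ ^ 2) with hQ
  have hQd : Q.natDegree = 2 := by
    have : Q = C 1 * X ^ 2 + C (-(2 * z.re)) * X + C (‖z‖ ^ 2) := by
      rw [hQ]
      simp only [map_one, one_mul, map_neg]
      ring
    rw [this]
    exact natDegree_quadratic one_ne_zero
  have hq0 : q ≠ 0 := by
    rintro rfl
    exact hf0 (by rw [hq, mul_zero])
  have hQ0 : Q ≠ 0 := by
    intro h0
    rw [h0, natDegree_zero] at hQd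
    exact absurd hQd (by norm_num)
  have hqd : q.natDegree < p := by
    have h1 := natDegree_mul hQ0 hq0
    rw [← hq, hfd, hQd] at h1
    omega
  have hQy : aeval y Q = (y - (z.re : ℂ) • 1) * (y - (z.re : ℂ) • 1) +
      ((z.im ^ 2 : ℝ) : ℂ) • (1 : Matrix (Fin g) (Fin g) ℂ) := by
    rw [hQ, map_add, map_sub, map_pow, aeval_X, map_mul, aeval_X, aeval_C, aeval_C,
      Algebra.algebraMap_eq_smul_one, Algebra.algebraMap_eq_smul_one, NF2_rs, NF2_rs,
      ← Complex.normSq_eq_norm_sq, Complex.normSq_apply]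
    push_cast
    rw [sub_mul, mul_sub, mul_sub]
    simp only [smul_mul_assoc, mul_smul_comm, one_mul, mul_one, smul_smul]
    rw [sq y]
    module
  have hN : ∀ x, (aeval y q).mulVec x = 0 := by
    intro x
    by_contra hx
    set v := (aeval y q).mulVec x with hv
    have h1 : (aeval y Q).mulVec v = 0 := by
      rw [hv, Matrix.mulVec_mulVec, ← map_mul, ← hq, hfy, Matrix.zero_mulVec]
    have h2 : hermForm Hm ((aeval y Q).mulVec v) v = 0 := by
      rw [h1]
      unfold hermForm
      simp
    have h3 : ∀ v w, hermForm Hm ((y - (z.re : ℂ) • 1).mulVec v) w =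
        hermForm Hm v ((y - (z.re : ℂ) • 1).mulVec w) := by
      intro v w
      have h4 := NF2_adj Hm hsa (X - C z.re) v w
      simp only [map_sub, aeval_X, aeval_C] at h4
      rwa [Algebra.algebraMap_eq_smul_one, NF2_rs] at h4
    rw [hQy, Matrix.add_mulVec, NF2_ha, ← Matrix.mulVec_mulVec, h3, Matrix.smul_mulVec,
      NF2_hs, Matrix.one_mulVec] at h2
    have h5 := congrArg Complex.re h2
    rw [Complex.add_re, Complex.re_ofReal_mul, Complex.zero_re] at h5
    have h6 := h.pd v hx
    have h7 : 0 ≤ (hermForm Hm ((y - (z.re : ℂ) • 1).mulVec v)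
        ((y - (z.re : ℂ) • 1).mulVec v)).re := by
      by_cases h8 : (y - (z.re : ℂ) • 1).mulVec v = 0
      · rw [h8]
        unfold hermForm
        simp
      · exact (h.pd _ h8).le
    have h9 : 0 < z.im ^ 2 * (hermForm Hm v v).re := by positivity
    linarith
  have hN0 : aeval y q = 0 := by
    ext i j
    have h1 := congrFun (hN (Pi.single j 1)) i
    rw [Matrix.mulVec_single_one] at h1
    simpa using h1
  exact hq0 (NF2_low h hy hdeg hqd hN0)

end main

theorem thm_NF2 (h1 : St_NF1) : St_NF2 := by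
  classical
  intro g p d Hm A W J h
  obtain ⟨y, hy, hsa, hdeg, hirr, hcom⟩ := h1 g p d Hm A W J h
  set f : ℚ[X] := minpoly ℚ y with hf
  have hp := h.prime.pos
  have hint : IsIntegral ℚ y := by
    by_contra hn
    rw [hf, minpoly.eq_zero hn, natDegree_zero] at hdeg
    omega
  have hmon : f.Monic := minpoly.monic hint
  have hcard : Fintype.card (f.rootSet ℂ) = p := by
    rw [← hdeg]
    exact card_rootSet_eq_natDegree hirr.separable (IsAlgClosed.splits _)
  let e : Fin p ≃ f.rootSet ℂ := (Fintype.equivFinOfCardEq hcard).symm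
  let t : Fin p → ℝ := fun k => (e k : ℂ).re
  have hroot : ∀ k, aeval (e k : ℂ) f = 0 := fun k => (mem_rootSet.mp (e k).2).2
  have ht : ∀ k, ((t k : ℝ) : ℂ) = e k := by
    intro k
    exact Complex.ext rfl (NF2_real h hy hsa hdeg (hroot k)).symm
  have htinj : Function.Injective t := by
    intro k l hkl
    apply e.injective
    apply Subtype.ext
    rw [← ht, ← ht, hkl]
  set fR : ℝ[X] := f.map (algebraMap ℚ ℝ) with hfR
  have hfRm : fR.Monic := hmon.map _
  have hfy : aeval y fR = 0 := by
    rw [hfR, aeval_map_algebraMap, hf, minpoly.aeval]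
  have hfRd : fR.natDegree = p := by
    rw [hfR, natDegree_map, hdeg]
  have hfRt : ∀ k, fR.eval (t k) = 0 := by
    intro k
    have h2 : aeval ((t k : ℝ) : ℂ) f = ((aeval (t k) f : ℝ) : ℂ) :=
      aeval_algebraMap_apply ℂ (t k) f
    rw [ht, hroot] at h2
    rw [hfR, eval_map_algebraMap]
    exact_mod_cast h2.symm
  -- polynomials which vanish at the points `t k`
  have hV : ∀ q : ℝ[X], (∀ k, q.eval (t k) = 0) → aeval y q = 0 := by
    intro q hq
    have h2 := modByMonic_add_div q fR
    have h3 : q %ₘ fR = 0 := by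
      refine eq_zero_of_degree_lt_of_eval_index_eq_zero (v := t) Finset.univ htinj.injOn ?_
        fun k _ => ?_
      · rw [Finset.card_univ, Fintype.card_fin, ← hfRd, ← degree_eq_natDegree hfRm.ne_zero]
        exact degree_modByMonic_lt _ hfRm
      · have h4 := congrArg (eval (t k)) h2
        rw [eval_add, eval_mul, hfRt, zero_mul, add_zero, hq] at h4
        exact h4
    rw [← h2, h3, zero_add, map_mul, hfy, zero_mul]
  let b : Fin p → ℝ[X] := fun k => Lagrange.basis Finset.univ t k
  have hbs : ∀ k, (b k).eval (t k) = 1 := fun k =>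
    Lagrange.eval_basis_self htinj.injOn (Finset.mem_univ k)
  have hbn : ∀ k l, k ≠ l → (b k).eval (t l) = 0 := fun k l hkl =>
    Lagrange.eval_basis_of_ne hkl (Finset.mem_univ l)
  have hb : ∀ k l, (b k).eval (t l) = if k = l then 1 else 0 := by
    intro k l
    split_ifs with hkl
    · rw [← hkl, hbs]
    · exact hbn k l hkl
  let P : Fin p → Matrix (Fin g) (Fin g) ℂ := fun k => aeval y (b k)
  have hPq : ∀ (q : ℝ[X]) (k : Fin p), aeval y q * P k = (q.eval (t k)) • P k := by
    intro q k
    have h2 := hV ((q - C (q.eval (t k))) * b k) (fun l => by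
      rw [eval_mul, hb]
      split_ifs with hkl
      · rw [← hkl, eval_sub, eval_C, sub_self, zero_mul]
      · rw [mul_zero])
    rw [map_mul, map_sub, aeval_C, sub_mul, sub_eq_zero] at h2
    rw [Algebra.algebraMap_eq_smul_one, smul_mul_assoc, one_mul] at h2
    exact h2
  have hyP : ∀ k, y * P k = t k • P k := by
    intro k
    have h2 := hPq X k
    rwa [aeval_X, eval_X] at h2
  have hcomm : ∀ (M : Matrix (Fin g) (Fin g) ℂ), M * y = y * M → ∀ q : ℝ[X],
      M * aeval y q = aeval y q * M := by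
    intro M hM q
    have h2 : Commute M (aeval y q) := by
      induction q using Polynomial.induction_on' with
      | add p q hp hq =>
        rw [map_add]
        exact hp.add_right hq
      | monomial n a =>
        rw [aeval_monomial]
        exact (Algebra.commute_algebraMap_right a M).mul_right (Commute.pow_right hM n)
    exact h2
  have hPy : ∀ k, P k * y = t k • P k := by
    intro k
    rw [← hyP]
    exact (hcomm y rfl (b k)).symm
  have hidem : ∀ k, P k * P k = P k := by
    intro k
    have h2 := hPq (b k) k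
    rwa [hbs, one_smul] at h2
  have hspan : ∀ q : ℝ[X],
      aeval y q ∈ Submodule.span ℝ (A : Set (Matrix (Fin g) (Fin g) ℂ)) := by
    intro q
    rw [aeval_eq_sum_range]
    exact Submodule.sum_mem _ fun i _ => Submodule.smul_mem _ _
      (Submodule.subset_span (A.pow_mem hy i))
  have hmul : ∀ M ∈ Submodule.span ℝ (A : Set (Matrix (Fin g) (Fin g) ℂ)),
      ∀ M' ∈ Submodule.span ℝ (A : Set (Matrix (Fin g) (Fin g) ℂ)),
      M * M' ∈ Submodule.span ℝ (A : Set (Matrix (Fin g) (Fin g) ℂ)) := by
    intro M hM M' hM'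
    have h2 := Submodule.mul_mem_mul hM hM'
    rw [Submodule.span_mul_span] at h2
    refine Submodule.span_mono ?_ h2
    rintro _ ⟨a, ha, b, hb, rfl⟩
    exact A.mul_mem ha hb
  refine ⟨t, P, ⟨htinj, ?_, fun k i j => ?_, fun k l => ?_, fun k hk => ?_, ?_,
    fun k z w => NF2_adj Hm hsa (b k) z w, fun k => ?_, fun k => hspan _, fun k m hm => ?_⟩⟩
  · -- the sum is `y`
    have h2 : ∑ k, (t k : ℂ) • P k = y := by
      have h3 := hV (X - ∑ k, C (t k) * b k) (fun l => by
        rw [eval_sub, eval_X, eval_finsetSum]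
        simp only [eval_mul, eval_C, hb]
        simp)
      rw [map_sub, aeval_X, map_sum, sub_eq_zero] at h3
      rw [h3]
      refine Finset.sum_congr rfl fun k _ => ?_
      rw [map_mul, aeval_C, Algebra.algebraMap_eq_smul_one, smul_mul_assoc, one_mul, NF2_rs]
    rw [h2]
    exact hy
  · -- the entries are algebraic
    have halg : ∀ k, IsAlgebraic ℚ (t k : ℂ) := by
      intro k
      rw [ht]
      exact ⟨f, hmon.ne_zero, hroot k⟩
    have h2 : ∀ q : ℝ[X], (∀ n, IsAlgebraic ℚ ((q.coeff n : ℝ) : ℂ)) →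
        ∀ i j, IsAlgebraic ℚ (aeval y q i j) := by
      intro q hq i j
      rw [aeval_eq_sum_range, Matrix.sum_apply]
      refine Finset.sum_induction _ (IsAlgebraic ℚ) (fun _ _ => IsAlgebraic.add) isAlgebraic_zero
        fun n _ => ?_
      have h3 : (q.coeff n • y ^ n) i j = ((q.coeff n : ℝ) : ℂ) * (y ^ n) i j := by
        rw [NF2_rs]
        rfl
      rw [h3]
      exact (hq n).mul (h.alg _ (A.pow_mem hy n) i j)
    refine h2 _ (fun n => ?_) i j
    have h4 : ∀ s : Finset (Fin p), ∀ n, IsAlgebraic ℚ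
        (((∏ l ∈ s, Lagrange.basisDivisor (t k) (t l)).coeff n : ℝ) : ℂ) := by
      intro s
      induction s using Finset.induction_on with
      | empty =>
        intro n
        rw [Finset.prod_empty, coeff_one]
        split_ifs
        · simpa using isAlgebraic_one
        · simpa using isAlgebraic_zero
      | insert l s hl ih =>
        intro n
        rw [Finset.prod_insert hl, Lagrange.basisDivisor, mul_assoc, coeff_C_mul, sub_mul,
          coeff_sub, coeff_C_mul]
        have h5 : IsAlgebraic ℚ (((t k - t l)⁻¹ : ℝ) : ℂ) := by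
          push_cast
          exact ((halg k).sub (halg l)).inv
        rcases n with _ | n
        · rw [coeff_X_mul_zero]
          push_cast
          push_cast at h5
          refine h5.mul (IsAlgebraic.sub ?_ ((halg l).mul (ih 0)))
          simpa using isAlgebraic_zero
        · rw [coeff_X_mul]
          push_cast
          push_cast at h5
          exact h5.mul ((ih n).sub ((halg l).mul (ih (n + 1))))
    exact h4 _ n
  · -- orthogonality
    have h2 := hPq (b k) l
    rw [hb] at h2
    split_ifs with hkl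
    · rw [if_pos hkl, one_smul] at h2
      rw [hkl] at h2 ⊢
      exact h2
    · rw [if_neg hkl, zero_smul] at h2
      exact h2
  · -- not zero
    have h2 : b k = 0 := by
      refine NF2_low h hy hdeg ?_ hk
      have h3 : (b k).degree = ((Finset.univ : Finset (Fin p)).card - 1 : ℕ) :=
        Lagrange.degree_basis htinj.injOn (Finset.mem_univ k)
      rw [natDegree_eq_of_degree_eq_some h3, Finset.card_univ, Fintype.card_fin]
      omega
    have h3 := hbs k
    rw [h2, eval_zero] at h3
    exact zero_ne_one h3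
  · -- sum
    have h2 := hV (1 - ∑ k, b k) (fun l => by
      rw [eval_sub, eval_one, eval_finsetSum]
      simp only [hb]
      simp)
    rw [map_sub, map_one, map_sum, sub_eq_zero] at h2
    exact h2.symm
  · -- `J`
    exact (hcomm J (h.Jc y hy).symm (b k)).symm
  · -- the centralizer
    have hM1 : P k * m * P k ∈ Submodule.span ℝ (A : Set (Matrix (Fin g) (Fin g) ℂ)) :=
      hmul _ (hmul _ (hspan _) _ (Submodule.subset_span hm)) _ (hspan _)
    obtain ⟨s, a, ha, -, hM⟩ := NF2_rec hM1
    have hMy : P k * m * P k * y = y * (P k * m * P k) := by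
      rw [mul_assoc, hPy, ← mul_assoc, ← mul_assoc, hyP]
      simp only [smul_mul_assoc, mul_smul_comm]
    have hay : ∀ i ∈ s, a i * y = y * a i := by
      intro j hj
      have h2 : ∑ i ∈ s, NF2_B i • (a i * y - y * a i) = 0 := by
        rw [hM, Finset.sum_mul, Finset.mul_sum] at hMy
        rw [← sub_eq_zero, ← Finset.sum_sub_distrib] at hMy
        rw [← hMy]
        refine Finset.sum_congr rfl fun i _ => ?_
        rw [smul_sub, smul_mul_assoc, mul_smul_comm]
      have h3 := NF2_dualA h (NF2_B.coord j) s (fun i => NF2_B i) _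
        (fun i => A.sub_mem (A.mul_mem (ha i) hy) (A.mul_mem hy (ha i))) h2
      rw [Finset.sum_eq_single_of_mem j hj (fun i _ hij => by
        rw [Basis.coord_apply, Basis.repr_self, Finsupp.single_eq_of_ne (by tauto), zero_smul])]
        at h3
      rw [Basis.coord_apply, Basis.repr_self, Finsupp.single_eq_same, one_smul] at h3
      exact sub_eq_zero.mp h3
    have hPQ : ∀ i, ∃ x z : ℝ, i ∈ s → a i * P k = x • P k + z • (J * P k) := by
      intro i
      by_cases hi : i ∈ s
      · obtain ⟨P', Q', h2⟩ := hcom (a i) (ha i) (hay i hi)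
        refine ⟨(P'.map (algebraMap ℚ ℝ)).eval (t k), (Q'.map (algebraMap ℚ ℝ)).eval (t k),
          fun _ => ?_⟩
        rw [h2, add_mul, mul_assoc, ← aeval_map_algebraMap ℝ y P', ← aeval_map_algebraMap ℝ y Q',
          hPq, hPq, mul_smul_comm]
      · exact ⟨0, 0, fun h => absurd h hi⟩
    choose x z hxz using hPQ
    have hs0 : Real.sqrt (d : ℝ) ≠ 0 := by
      have : (0 : ℝ) < d := by exact_mod_cast h.pos
      exact (Real.sqrt_pos.mpr this).ne'
    refine ⟨⟨∑ i ∈ s, NF2_B i * x i, (∑ i ∈ s, NF2_B i * z i) * Real.sqrt (d : ℝ)⟩, ?_⟩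
    have h2 : P k * m * P k = (P k * m * P k) * P k := by
      rw [mul_assoc (P k * m) (P k) (P k), hidem]
    rw [h2, hM, Finset.sum_mul]
    unfold scal
    rw [mul_div_assoc, div_self hs0, mul_one, add_mul, smul_mul_assoc, smul_mul_assoc, one_mul,
      ← NF2_rs, ← NF2_rs, Finset.sum_smul, Finset.sum_smul, ← Finset.sum_add_distrib]
    refine Finset.sum_congr rfl fun i hi => ?_
    rw [smul_mul_assoc, hxz i hi, smul_add, smul_smul, smul_smul]

end PST
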