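import Pool.Agent.PST.StN
import Pool.Agent.Helper7.Periods

/-!
# PST [NF3]: the algebra connects the projectors
-/

set_option autoImplicit false

namespace PST

open scoped ComplexConjugate
open GAM (H E F pd pdl PLat IsTh OddTor IsDel Gro IsLat Pre QD qd jac HasExp CMF CMT IsExp IsCM)
open Pool.Agent.GPC (AbVar hermForm bilForm)
open Module

section

variable {g p : ℕ} {d : ℚ} {Hm : Matrix (Fin g) (Fin g) ℂ}
  {A : Subalgebra ℚ (Matrix (Fin g) (Fin g) ℂ)} {W : Submodule ℚ (Fin g → ℂ)}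
  {J : Matrix (Fin g) (Fin g) ℂ}

/-- the real span of the algebra -/
noncomputable abbrev NF3_sp (A : Subalgebra ℚ (Matrix (Fin g) (Fin g) ℂ)) :
    Submodule ℝ (Matrix (Fin g) (Fin g) ℂ) :=
  Submodule.span ℝ (A : Set (Matrix (Fin g) (Fin g) ℂ))

theorem NF3_rsmul (r : ℝ) (M : Matrix (Fin g) (Fin g) ℂ) : r • M = (r : ℂ) • M := by
  ext i j
  simp [Matrix.smul_apply]

theorem NF3_qsmul (r : ℚ) (M : Matrix (Fin g) (Fin g) ℂ) : r • M = (r : ℂ) • M := by
  ext i j
  rw [Matrix.smul_apply, Matrix.smul_apply, Algebra.smul_def, smul_eq_mul]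
  rfl

theorem NF3_mem_q (hx : J ∈ A) (q : ℚ) : (q : ℂ) • J ∈ A := by
  rw [← NF3_qsmul]
  exact A.smul_mem hx q

/-- the real span is an algebra -/
theorem NF3_mul_l {x m : Matrix (Fin g) (Fin g) ℂ} (hm : m ∈ A) (hx : x ∈ NF3_sp A) :
    m * x ∈ NF3_sp A := by
  induction hx using Submodule.span_induction with
  | mem x hx => exact Submodule.subset_span (A.mul_mem hm hx)
  | zero => rw [mul_zero]; exact Submodule.zero_mem _
  | add x y _ _ hx hy => rw [mul_add]; exact Submodule.add_mem _ hx hy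
  | smul r x _ hx => rw [Matrix.mul_smul]; exact Submodule.smul_mem _ r hx

theorem NF3_mul_r {x m : Matrix (Fin g) (Fin g) ℂ} (hm : m ∈ A) (hx : x ∈ NF3_sp A) :
    x * m ∈ NF3_sp A := by
  induction hx using Submodule.span_induction with
  | mem x hx => exact Submodule.subset_span (A.mul_mem hx hm)
  | zero => rw [zero_mul]; exact Submodule.zero_mem _
  | add x y _ _ hx hy => rw [add_mul]; exact Submodule.add_mem _ hx hy
  | smul r x _ hx => rw [Matrix.smul_mul]; exact Submodule.smul_mem _ r hx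

theorem NF3_scal_add (c c' : ℂ) : scal d J (c + c') = scal d J c + scal d J c' := by
  unfold scal
  rw [Complex.add_re, Complex.add_im, add_div]
  push_cast
  rw [add_smul, add_smul]
  abel

theorem NF3_scal_smul (r : ℝ) (c : ℂ) : scal d J ((r : ℂ) * c) = (r : ℂ) • scal d J c := by
  unfold scal
  rw [Complex.re_ofReal_mul, Complex.im_ofReal_mul, smul_add, smul_smul, smul_smul]
  congr 2
  · push_cast
    rfl
  · push_cast
    ring

theorem NF3_cenR {t : Fin p → ℝ} {P : Fin p → Matrix (Fin g) (Fin g) ℂ}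
    (hP : Prj p d Hm A J t P) (k : Fin p) {x : Matrix (Fin g) (Fin g) ℂ} (hx : x ∈ NF3_sp A) :
    ∃ c : ℂ, P k * x * P k = scal d J c * P k := by
  induction hx using Submodule.span_induction with
  | mem x hx => exact hP.cen k x hx
  | zero =>
    refine ⟨0, ?_⟩
    rw [mul_zero, zero_mul]
    unfold scal
    simp
  | add x y _ _ hx hy =>
    obtain ⟨c, hc⟩ := hx
    obtain ⟨c', hc'⟩ := hy
    exact ⟨c + c', by rw [mul_add, add_mul, hc, hc', NF3_scal_add, add_mul]⟩
  | smul r x _ hx =>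
    obtain ⟨c, hc⟩ := hx
    refine ⟨(r : ℂ) * c, ?_⟩
    rw [NF3_scal_smul, NF3_rsmul, Matrix.mul_smul, Matrix.smul_mul, hc, Matrix.smul_mul]

/-- `k` and `l` are connected by `A` -/
def NF3_R (A : Subalgebra ℚ (Matrix (Fin g) (Fin g) ℂ)) (P : Fin p → Matrix (Fin g) (Fin g) ℂ)
    (k l : Fin p) : Prop := ∃ m ∈ A, P k * m * P l ≠ 0

theorem NF3_span {P : Fin p → Matrix (Fin g) (Fin g) ℂ} {k l : Fin p}
    {x : Matrix (Fin g) (Fin g) ℂ} (hx : x ∈ NF3_sp A) (h : P k * x * P l ≠ 0) :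
    NF3_R A P k l := by
  by_contra hcon
  apply h
  have h0 : ∀ m ∈ A, P k * m * P l = 0 := by
    intro m hm
    by_contra h1
    exact hcon ⟨m, hm, h1⟩
  clear h
  induction hx using Submodule.span_induction with
  | mem x hx => exact h0 x hx
  | zero => rw [mul_zero, zero_mul]
  | add x y _ _ hx hy => rw [mul_add, add_mul, hx, hy, add_zero]
  | smul r x _ hx => rw [Matrix.mul_smul, Matrix.smul_mul, hx, smul_zero]

/-- the form is determined by its values on the left -/
theorem NF3_adj_unique (hpd : ∀ z, z ≠ 0 → 0 < (hermForm Hm z z).re)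
    {M N : Matrix (Fin g) (Fin g) ℂ} (h : ∀ z w, hermForm Hm z (M.mulVec w) =
      hermForm Hm z (N.mulVec w)) : M = N := by
  have h1 : ∀ w, M.mulVec w = N.mulVec w := by
    intro w
    by_contra hne
    have h2 : M.mulVec w - N.mulVec w ≠ 0 := sub_ne_zero.mpr hne
    have h3 := hpd _ h2
    have h4 : hermForm Hm (M.mulVec w - N.mulVec w) (M.mulVec w - N.mulVec w) = 0 := by
      have e : M.mulVec w - N.mulVec w = M.mulVec w + (-1 : ℂ) • N.mulVec w := by
        rw [neg_smul, one_smul, sub_eq_add_neg]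
      conv_lhs => arg 3; rw [e]
      rw [Pool.Agent.Helper7.hermForm_add_right, Pool.Agent.Helper7.hermForm_smul_right, h]
      simp
    rw [h4] at h3
    simp at h3
  ext i j
  have h2 := congrFun (h1 (Pi.single j 1)) i
  rw [Matrix.mulVec_single_one, Matrix.mulVec_single_one] at h2
  exact h2

theorem NF3_symm (hL : LD g p d Hm A W J) {t : Fin p → ℝ}
    {P : Fin p → Matrix (Fin g) (Fin g) ℂ} (hP : Prj p d Hm A J t P) {k l : Fin p}
    (h : NF3_R A P k l) : NF3_R A P l k := by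
  obtain ⟨m, hm, hne⟩ := h
  obtain ⟨m', hm', hadj⟩ := hL.adj m hm
  refine ⟨m', hm', fun h0 => hne ?_⟩
  have h1 : ∀ z, hermForm Hm ((P k * m * P l).mulVec z) ((P k * m * P l).mulVec z) = 0 := by
    intro z
    have e1 : ∀ y, (P k * m * P l).mulVec y = (P k).mulVec (m.mulVec ((P l).mulVec y)) := by
      intro y
      rw [← Matrix.mulVec_mulVec, ← Matrix.mulVec_mulVec]
    conv_lhs => arg 2; rw [e1]
    rw [hP.adj, hadj, hP.adj]
    have e2 : (P l).mulVec (m'.mulVec ((P k).mulVec ((P k * m * P l).mulVec z))) =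
        (P l * m' * P k).mulVec ((P k * m * P l).mulVec z) := by
      generalize (P k * m * P l).mulVec z = X
      rw [Matrix.mulVec_mulVec, Matrix.mulVec_mulVec]
    rw [e2, h0, Matrix.zero_mulVec]
    unfold hermForm
    simp
  have h2 : ∀ z, (P k * m * P l).mulVec z = 0 := by
    intro z
    by_contra hz
    have h3 := hL.pd _ hz
    rw [h1 z] at h3
    simp at h3
  ext i j
  have h3 := congrFun (h2 (Pi.single j 1)) i
  rw [Matrix.mulVec_single_one] at h3
  exact h3

/-- a nonzero element of `P k A P l` is injective on the image of `P l` -/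
theorem NF3_inj (hL : LD g p d Hm A W J) {t : Fin p → ℝ}
    {P : Fin p → Matrix (Fin g) (Fin g) ℂ} (hP : Prj p d Hm A J t P) {k l : Fin p}
    {m : Matrix (Fin g) (Fin g) ℂ} (hm : m ∈ A) (hne : P k * m * P l ≠ 0) {z : Fin g → ℂ}
    (hz : (P l).mulVec z = z) (hz0 : z ≠ 0) : (P k * m * P l).mulVec z ≠ 0 := by
  obtain ⟨m', hm', hadj⟩ := hL.adj m hm
  obtain ⟨c, hc⟩ := NF3_cenR hP l (x := m' * (P k * m))
    (NF3_mul_l hm' (NF3_mul_r hm (hP.real k)))
  have hkk : P k * P k = P k := by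
    rw [hP.orth, if_pos rfl]
  have hll : P l * P l = P l := by
    rw [hP.orth, if_pos rfl]
  have hform : ∀ y : Fin g → ℂ, (P l).mulVec y = y →
      (hermForm Hm ((P k * m * P l).mulVec y) ((P k * m * P l).mulVec y)).re =
        c.re * (hermForm Hm y y).re := by
    intro y hy
    have e1 : ∀ y, (P k * m * P l).mulVec y = (P k).mulVec (m.mulVec ((P l).mulVec y)) := by
      intro y
      rw [← Matrix.mulVec_mulVec, ← Matrix.mulVec_mulVec]
    conv_lhs => arg 1; arg 2; rw [e1]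
    rw [hP.adj, hadj, hP.adj]
    have e2 : (P l).mulVec (m'.mulVec ((P k).mulVec ((P k * m * P l).mulVec y))) =
        (scal d J c).mulVec y := by
      have e3 : (P l).mulVec (m'.mulVec ((P k).mulVec ((P k * m * P l).mulVec y))) =
          (P l * (m' * (P k * m)) * P l).mulVec y := by
        rw [Matrix.mulVec_mulVec, Matrix.mulVec_mulVec, Matrix.mulVec_mulVec]
        congr 1
        have e4 : P k * (P k * m * P l) = P k * m * P l := by
          rw [← Matrix.mul_assoc, ← Matrix.mul_assoc, hkk]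
        rw [Matrix.mul_assoc (P l * m') (P k), e4]
        simp only [Matrix.mul_assoc]
      rw [e3, hc, ← Matrix.mulVec_mulVec, hy]
    rw [e2]
    unfold scal
    rw [Matrix.add_mulVec, Matrix.smul_mulVec, Matrix.smul_mulVec, Matrix.one_mulVec,
      Pool.Agent.Helper7.hermForm_add_right, Pool.Agent.Helper7.hermForm_smul_right,
      Pool.Agent.Helper7.hermForm_smul_right, Complex.conj_ofReal, Complex.conj_ofReal,
      Complex.add_re, Complex.re_ofReal_mul, Complex.re_ofReal_mul]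
    have h5 : (hermForm Hm y (J.mulVec y)).re = 0 := by
      have h6 := hL.Jadj y y
      rw [Pool.Agent.Helper7.hermForm_symm Hm hL.herm y (J.mulVec y)] at h6
      have h7 := congrArg Complex.re h6
      rw [Complex.conj_re, Complex.neg_re] at h7
      linarith
    rw [h5, mul_zero, add_zero]
  obtain ⟨y, hy⟩ : ∃ y, (P k * m * P l).mulVec y ≠ 0 := by
    by_contra hcon
    push Not at hcon
    apply hne
    ext i j
    have h3 := congrFun (hcon (Pi.single j 1)) i
    rw [Matrix.mulVec_single_one] at h3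
    exact h3
  have hyP : (P l).mulVec ((P l).mulVec y) = (P l).mulVec y := by
    rw [Matrix.mulVec_mulVec, hll]
  have hya : (P k * m * P l).mulVec ((P l).mulVec y) = (P k * m * P l).mulVec y := by
    rw [Matrix.mulVec_mulVec, Matrix.mul_assoc, hll]
  have hcpos : 0 < c.re := by
    have h6 := hform _ hyP
    rw [hya] at h6
    have h7 := hL.pd _ hy
    have h8 : (P l).mulVec y ≠ 0 := by
      intro h9
      apply hy
      rw [← hya, h9, Matrix.mulVec_zero]
    have h9 := hL.pd _ h8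
    rw [h6] at h7
    exact (pos_iff_pos_of_mul_pos h7).mpr h9
  intro h0
  have h6 := hform z hz
  rw [h0] at h6
  have h7 : (hermForm Hm (0 : Fin g → ℂ) 0).re = 0 := by
    unfold hermForm
    simp
  rw [h7] at h6
  exact absurd h6 (mul_pos hcpos (hL.pd z hz0)).ne

theorem NF3_trans (hL : LD g p d Hm A W J) {t : Fin p → ℝ}
    {P : Fin p → Matrix (Fin g) (Fin g) ℂ} (hP : Prj p d Hm A J t P) {k l r : Fin p}
    (h : NF3_R A P k l) (h' : NF3_R A P l r) : NF3_R A P k r := by
  obtain ⟨m, hm, hne⟩ := h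
  obtain ⟨m', hm', hne'⟩ := h'
  have hll : P l * P l = P l := by
    rw [hP.orth, if_pos rfl]
  obtain ⟨y, hy⟩ : ∃ y, (P l * m' * P r).mulVec y ≠ 0 := by
    by_contra hcon
    push Not at hcon
    apply hne'
    ext i j
    have h3 := congrFun (hcon (Pi.single j 1)) i
    rw [Matrix.mulVec_single_one] at h3
    exact h3
  have h1 := NF3_inj hL hP hm hne (z := (P l * m' * P r).mulVec y) (by
    rw [Matrix.mulVec_mulVec]
    congr 1
    rw [← Matrix.mul_assoc, ← Matrix.mul_assoc, hll]) hy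
  refine NF3_span (x := m * (P l * m')) (NF3_mul_l hm (NF3_mul_r hm' (hP.real l))) ?_
  intro h0
  apply h1
  rw [Matrix.mulVec_mulVec]
  have e : P k * m * P l * (P l * m' * P r) = P k * (m * (P l * m')) * P r := by
    have e4 : P l * (P l * m' * P r) = P l * m' * P r := by
      rw [← Matrix.mul_assoc, ← Matrix.mul_assoc, hll]
    rw [Matrix.mul_assoc (P k * m), e4]
    simp only [Matrix.mul_assoc]
  rw [e, h0, Matrix.zero_mulVec]

/-- a matrix of the algebra which kills a nonzero vector is zero -/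
theorem NF3_kill (hL : LD g p d Hm A W J) {m : Matrix (Fin g) (Fin g) ℂ} (hm : m ∈ A)
    {w : Fin g → ℂ} (hw : w ≠ 0) (h : m.mulVec w = 0) : m = 0 := by
  by_contra hne
  exact hw (Matrix.eq_zero_of_mulVec_eq_zero (hL.div m hm hne) h)

theorem NF3_gpos (hL : LD g p d Hm A W J) : 0 < g := by
  rw [hL.dim]
  exact pow_pos hL.prime.pos 2

/-- coordinates of a vector of `W` -/
theorem NF3_coord {ι : Type} [Fintype ι] (b : Basis ι ℚ W) (w : W) :
    (w : Fin g → ℂ) = ∑ k, ((b.repr w k : ℚ) : ℂ) • (b k : Fin g → ℂ) := by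
  conv_lhs => rw [← b.sum_repr w]
  rw [AddSubmonoidClass.coe_finsetSum]
  refine Finset.sum_congr rfl fun k _ => ?_
  rw [Submodule.coe_smul]
  funext i
  rw [Pi.smul_apply, Pi.smul_apply, Algebra.smul_def, smul_eq_mul]
  rfl

theorem NF3_H (hL : LD g p d Hm A W J) {ι : Type} [Fintype ι] (ρ : ι → ℝ)
    (y : ι → Matrix (Fin g) (Fin g) ℂ) (hy : ∀ j, y j ∈ A)
    (h0 : ∑ j, (ρ j : ℂ) • y j = 0) (f : ℝ →ₗ[ℚ] ℚ) :
    ∑ j, ((f (ρ j) : ℚ) : ℂ) • y j = 0 := by
  obtain ⟨b, hb⟩ := hL.basis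
  let i₀ : Fin g ⊕ Fin g := Sum.inl ⟨0, NF3_gpos hL⟩
  have hw0 : (b i₀ : Fin g → ℂ) ≠ 0 := hb.ne_zero i₀
  have hyW : ∀ j, (y j).mulVec (b i₀ : Fin g → ℂ) ∈ W := fun j =>
    hL.stab _ (hy j) _ (b i₀).2
  let q : ι → Fin g ⊕ Fin g → ℚ := fun j k => b.repr ⟨_, hyW j⟩ k
  have hq : ∀ j, (y j).mulVec (b i₀ : Fin g → ℂ) = ∑ k, ((q j k : ℚ) : ℂ) • (b k : Fin g → ℂ) :=
    fun j => NF3_coord b ⟨_, hyW j⟩
  have h1 : ∑ k, (∑ j, ρ j * (q j k : ℝ)) • (b k : Fin g → ℂ) = 0 := by
    have h2 := congrArg (fun M : Matrix (Fin g) (Fin g) ℂ => M.mulVec (b i₀ : Fin g → ℂ)) h0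
    simp only [Matrix.sum_mulVec, Matrix.smul_mulVec, Matrix.zero_mulVec, hq, Finset.smul_sum,
      smul_smul] at h2
    rw [Finset.sum_comm] at h2
    rw [← h2]
    refine Finset.sum_congr rfl fun k _ => ?_
    rw [Finset.sum_smul]
    refine Finset.sum_congr rfl fun j _ => ?_
    funext i
    simp [Pi.smul_apply]
  have h2 := (Fintype.linearIndependent_iff.mp hb) _ h1
  refine NF3_kill hL (A.sum_mem fun j _ => NF3_mem_q (hy j) _) hw0 ?_
  simp only [Matrix.sum_mulVec, Matrix.smul_mulVec, hq, Finset.smul_sum, smul_smul]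
  rw [Finset.sum_comm]
  refine Finset.sum_eq_zero fun k _ => ?_
  rw [← Finset.sum_smul]
  have h3 : ∑ j, f (ρ j) * q j k = 0 := by
    have h4 := congrArg f (h2 k)
    rw [map_sum, map_zero] at h4
    rw [← h4]
    refine Finset.sum_congr rfl fun j _ => ?_
    have h5 : ρ j * (q j k : ℝ) = (q j k : ℚ) • ρ j := by
      rw [Algebra.smul_def, mul_comm]
      rfl
    rw [h5, map_smul, smul_eq_mul, mul_comm]
  have h4 : ∑ j, ((f (ρ j) : ℚ) : ℂ) * ((q j k : ℚ) : ℂ) = 0 := by
    have h5 : ((∑ j, f (ρ j) * q j k : ℚ) : ℂ) = 0 := by rw [h3]; simp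
    rw [← h5]
    push_cast
    rfl
  rw [h4, zero_smul]

theorem NF3_rep (hL : LD g p d Hm A W J) : ∃ a : Fin g ⊕ Fin g → Matrix (Fin g) (Fin g) ℂ,
    (∀ j, a j ∈ A) ∧ ∀ x ∈ NF3_sp A, ∃ ρ : Fin g ⊕ Fin g → ℝ, x = ∑ j, (ρ j : ℂ) • a j := by
  obtain ⟨b, hb⟩ := hL.basis
  let i₀ : Fin g ⊕ Fin g := Sum.inl ⟨0, NF3_gpos hL⟩
  have hw0 : (b i₀ : Fin g → ℂ) ≠ 0 := hb.ne_zero i₀
  have h1 : ∀ j, ∃ m ∈ A, m.mulVec (b i₀ : Fin g → ℂ) = b j := fun j =>
    hL.trans _ (b i₀).2 hw0 _ (b j).2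
  choose a haA ha using h1
  refine ⟨a, haA, fun x hx => ?_⟩
  induction hx using Submodule.span_induction with
  | mem m hm =>
    have hmW : m.mulVec (b i₀ : Fin g → ℂ) ∈ W := hL.stab _ hm _ (b i₀).2
    refine ⟨fun j => ((b.repr ⟨_, hmW⟩ j : ℚ) : ℝ), ?_⟩
    have h2 : m - ∑ j, ((b.repr ⟨_, hmW⟩ j : ℚ) : ℂ) • a j = 0 := by
      refine NF3_kill hL (A.sub_mem hm (A.sum_mem fun j _ => NF3_mem_q (haA j) _)) hw0 ?_
      rw [Matrix.sub_mulVec, Matrix.sum_mulVec]
      simp only [Matrix.smul_mulVec, ha]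
      rw [← NF3_coord b ⟨_, hmW⟩, sub_self]
    rw [sub_eq_zero] at h2
    refine h2.trans (Finset.sum_congr rfl fun j _ => ?_)
    rw [Complex.ofReal_ratCast]
  | zero => exact ⟨0, by simp⟩
  | add x y _ _ hx hy =>
    obtain ⟨ρ, hρ⟩ := hx
    obtain ⟨ρ', hρ'⟩ := hy
    refine ⟨fun j => ρ j + ρ' j, ?_⟩
    rw [hρ, hρ', ← Finset.sum_add_distrib]
    refine Finset.sum_congr rfl fun j _ => ?_
    rw [← add_smul]
    push_cast
    rfl
  | smul r x _ hx =>
    obtain ⟨ρ, hρ⟩ := hx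
    refine ⟨fun j => r * ρ j, ?_⟩
    rw [hρ, NF3_rsmul, Finset.smul_sum]
    refine Finset.sum_congr rfl fun j _ => ?_
    rw [smul_smul]
    push_cast
    rfl

/-- the real centre -/
theorem NF3_Z (hL : LD g p d Hm A W J) {x : Matrix (Fin g) (Fin g) ℂ} (hx : x ∈ NF3_sp A)
    (hc : ∀ m ∈ A, x * m = m * x) :
    ∃ r s : ℝ, x = (r : ℂ) • (1 : Matrix (Fin g) (Fin g) ℂ) + (s : ℂ) • J := by
  classical
  obtain ⟨a, haA, ha⟩ := NF3_rep hL
  obtain ⟨ρ, hρ⟩ := ha x hx
  let B := Basis.ofVectorSpace ℚ ℝ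
  let T : Finset (Basis.ofVectorSpaceIndex ℚ ℝ) :=
    Finset.univ.biUnion fun j => (B.repr (ρ j)).support
  have hT : ∀ j, ρ j = ∑ h ∈ T, ((B.repr (ρ j) h : ℚ) : ℝ) * B h := by
    intro j
    have h1 := B.linearCombination_repr (ρ j)
    rw [Finsupp.linearCombination_apply] at h1
    have h2 : (B.repr (ρ j)).sum (fun i a => a • B i) =
        ∑ h ∈ T, (B.repr (ρ j)) h • B h := by
      refine Finsupp.sum_of_support_subset _ ?_ _ (fun i _ => zero_smul _ _)
      intro h hh
      exact Finset.mem_biUnion.mpr ⟨j, Finset.mem_univ j, hh⟩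
    rw [h2] at h1
    refine h1.symm.trans (Finset.sum_congr rfl fun h _ => ?_)
    rw [Algebra.smul_def]
    rfl
  have hcen : ∀ h : Basis.ofVectorSpaceIndex ℚ ℝ, ∃ α β : ℚ,
      ∑ j, ((B.repr (ρ j) h : ℚ) : ℂ) • a j =
        (α : ℂ) • (1 : Matrix (Fin g) (Fin g) ℂ) + (β : ℂ) • J := by
    intro h
    refine hL.cen _ (A.sum_mem fun j _ => NF3_mem_q (haA j) _) fun m hm => ?_
    have h1 : ∑ j, (ρ j : ℂ) • (a j * m - m * a j) = 0 := by
      have h2 := hc m hm
      rw [hρ, Finset.sum_mul, Finset.mul_sum, ← sub_eq_zero, ← Finset.sum_sub_distrib] at h2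
      rw [← h2]
      refine Finset.sum_congr rfl fun j _ => ?_
      rw [smul_sub, Matrix.smul_mul, Matrix.mul_smul]
    have h2 := NF3_H hL ρ (fun j => a j * m - m * a j)
      (fun j => A.sub_mem (A.mul_mem (haA j) hm) (A.mul_mem hm (haA j))) h1 (B.coord h)
    rw [Finset.sum_mul, Finset.mul_sum, ← sub_eq_zero, ← Finset.sum_sub_distrib, ← h2]
    refine Finset.sum_congr rfl fun j _ => ?_
    rw [smul_sub, Matrix.smul_mul, Matrix.mul_smul]
    rfl
  choose α β hαβ using hcen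
  refine ⟨∑ h ∈ T, B h * (α h : ℝ), ∑ h ∈ T, B h * (β h : ℝ), ?_⟩
  have h1 : x = ∑ h ∈ T, ((B h : ℝ) : ℂ) • ∑ j, ((B.repr (ρ j) h : ℚ) : ℂ) • a j := by
    rw [hρ]
    simp only [Finset.smul_sum, smul_smul]
    rw [Finset.sum_comm]
    refine Finset.sum_congr rfl fun j _ => ?_
    rw [← Finset.sum_smul]
    congr 1
    conv_lhs => rw [hT j]
    push_cast
    refine Finset.sum_congr rfl fun h _ => ?_
    rw [mul_comm]
  rw [h1]
  simp only [hαβ, smul_add, smul_smul]
  rw [Finset.sum_add_distrib, ← Finset.sum_smul, ← Finset.sum_smul]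
  push_cast
  rfl

theorem thm_NF3 : St_NF3 := by
  classical
  intro g p d Hm A W J t P hL hP k₀ l₀
  -- the relation is reflexive
  have hrefl : ∀ k, NF3_R A P k k := fun k => ⟨1, A.one_mem, by
    rw [mul_one, hP.orth, if_pos rfl]
    exact hP.ne k⟩
  let C : Finset (Fin p) := Finset.univ.filter fun k => NF3_R A P k l₀
  have hC : ∀ k, k ∈ C ↔ NF3_R A P k l₀ := fun k => by simp [C]
  set e := ∑ k ∈ C, P k with he
  have hee : e * e = e := by
    rw [he, Finset.sum_mul]
    refine Finset.sum_congr rfl fun k hk => ?_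
    rw [Finset.mul_sum]
    simp only [hP.orth]
    rw [Finset.sum_ite_eq, if_pos hk]
  have hsp : e ∈ NF3_sp A := Submodule.sum_mem _ fun k _ => hP.real k
  have hzero : ∀ m ∈ A, ∀ k ∈ C, ∀ j, j ∉ C → P k * m * P j = 0 := by
    intro m hm k hk j hj
    by_contra h
    exact hj ((hC j).mpr (NF3_trans hL hP (NF3_symm hL hP ⟨m, hm, h⟩) ((hC k).mp hk)))
  have hzero' : ∀ m ∈ A, ∀ k ∈ C, ∀ j, j ∉ C → P j * m * P k = 0 := by
    intro m hm k hk j hj
    by_contra h
    exact hj ((hC j).mpr (NF3_trans hL hP ⟨m, hm, h⟩ ((hC k).mp hk)))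
  have hcomm : ∀ m ∈ A, e * m = m * e := by
    intro m hm
    have h1 : e * m = ∑ k ∈ C, ∑ j ∈ C, P k * m * P j := by
      rw [he, Finset.sum_mul]
      refine Finset.sum_congr rfl fun k hk => ?_
      have h2 : P k * m = ∑ j, P k * m * P j := by
        rw [← Finset.mul_sum, hP.sum, mul_one]
      conv_lhs => rw [h2]
      symm
      exact Finset.sum_subset (Finset.subset_univ C) fun j _ hj => hzero m hm k hk j hj
    have h3 : m * e = ∑ k ∈ C, ∑ j ∈ C, P j * m * P k := by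
      rw [he, Finset.mul_sum]
      refine Finset.sum_congr rfl fun k hk => ?_
      have h2 : m * P k = ∑ j, P j * m * P k := by
        rw [← Finset.sum_mul, ← Finset.sum_mul, hP.sum, one_mul]
      conv_lhs => rw [h2]
      symm
      exact Finset.sum_subset (Finset.subset_univ C) fun j _ hj => hzero' m hm k hk j hj
    rw [h1, h3, Finset.sum_comm]
  obtain ⟨r, s, hrs⟩ := NF3_Z hL hsp hcomm
  -- idempotents of the centre
  have hg := NF3_gpos hL
  have hsq : ((r : ℂ) * r - (s : ℂ) * s * d - r) • (1 : Matrix (Fin g) (Fin g) ℂ) +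
      (2 * (r : ℂ) * s - s) • J = 0 := by
    have h1 := hee
    rw [hrs, add_mul, mul_add, mul_add, Matrix.smul_mul, Matrix.smul_mul, Matrix.smul_mul,
      Matrix.smul_mul, Matrix.mul_smul, Matrix.mul_smul, Matrix.mul_smul, Matrix.mul_smul,
      one_mul, one_mul, mul_one, hL.J2, ← sub_eq_zero] at h1
    rw [← h1]
    module
  have hJ1 : ∀ u v : ℝ, (u : ℂ) • (1 : Matrix (Fin g) (Fin g) ℂ) + (v : ℂ) • J = 0 →
      u = 0 ∧ v = 0 := by
    intro u v huv
    have h1 : ((u : ℂ) * u + (v : ℂ) * v * d) • (1 : Matrix (Fin g) (Fin g) ℂ) = 0 := by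
      have h2 : ((u : ℂ) • (1 : Matrix (Fin g) (Fin g) ℂ) + (v : ℂ) • J) *
          ((u : ℂ) • (1 : Matrix (Fin g) (Fin g) ℂ) + ((-v : ℝ) : ℂ) • J) = 0 := by
        rw [huv, zero_mul]
      rw [add_mul, mul_add, mul_add, Matrix.smul_mul, Matrix.smul_mul, Matrix.smul_mul,
        Matrix.smul_mul, Matrix.mul_smul, Matrix.mul_smul, Matrix.mul_smul, Matrix.mul_smul,
        one_mul, one_mul, mul_one, hL.J2] at h2
      rw [← h2]
      push_cast
      module
    have h3 : (u : ℂ) * u + (v : ℂ) * v * d = 0 := by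
      have h4 := congrFun (congrFun h1 ⟨0, hg⟩) ⟨0, hg⟩
      rw [Matrix.smul_apply, Matrix.one_apply_eq, smul_eq_mul, mul_one] at h4
      exact h4
    have h5 : u * u + v * v * (d : ℝ) = 0 := by
      exact_mod_cast h3
    have h6 : (0 : ℝ) < (d : ℝ) := by exact_mod_cast hL.pos
    constructor
    · nlinarith [mul_self_nonneg u, mul_nonneg (mul_self_nonneg v) h6.le]
    · have h7 : v * v * (d : ℝ) = 0 := by
        nlinarith [mul_self_nonneg u, mul_nonneg (mul_self_nonneg v) h6.le]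
      have h8 := (mul_eq_zero.mp h7).resolve_right h6.ne'
      exact mul_self_eq_zero.mp h8
  have h1 := hJ1 (r * r - s * s * d - r) (2 * r * s - s) (by
    rw [← hsq]
    push_cast
    rfl)
  have h6 : (0 : ℝ) < (d : ℝ) := by exact_mod_cast hL.pos
  have hs : s = 0 := by
    by_contra hs
    have h2 : r = 1 / 2 := by
      have h3 : s * (2 * r - 1) = 0 := by linarith [h1.2]
      have h4 := (mul_eq_zero.mp h3).resolve_left hs
      linarith
    have h3 := h1.1
    rw [h2] at h3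
    nlinarith [mul_nonneg (mul_self_nonneg s) h6.le]
  have hr : r = 0 ∨ r = 1 := by
    have h3 := h1.1
    rw [hs] at h3
    have h4 : r * (r - 1) = 0 := by linarith
    rcases mul_eq_zero.mp h4 with h | h
    · exact Or.inl h
    · exact Or.inr (by linarith)
  have hl₀ : l₀ ∈ C := (hC l₀).mpr (hrefl l₀)
  have heP : e * P l₀ = P l₀ := by
    rw [he, Finset.sum_mul]
    simp only [hP.orth]
    rw [Finset.sum_eq_single l₀]
    · rw [if_pos rfl]
    · intro k _ hk
      rw [if_neg hk]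
    · intro h
      exact absurd hl₀ h
  have hr1 : r = 1 := by
    rcases hr with h | h
    · exfalso
      rw [hrs, h, hs] at heP
      simp only [Complex.ofReal_zero, zero_smul, add_zero, zero_mul] at heP
      exact hP.ne l₀ heP.symm
    · exact h
  have he1 : e = 1 := by
    rw [hrs, hr1, hs]
    simp
  have hk₀ : k₀ ∈ C := by
    by_contra hk
    have h2 : e * P k₀ = 0 := by
      rw [he, Finset.sum_mul]
      refine Finset.sum_eq_zero fun k hk' => ?_
      rw [hP.orth, if_neg]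
      rintro rfl
      exact hk hk'
    rw [he1, one_mul] at h2
    exact hP.ne k₀ h2
  exact (hC k₀).mp hk₀

end

end PST
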