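import Pool.Agent.PST.StN
import Pool.Agent.PST.UTr
import Pool.Agent.GAM.Der

/-!
# PST: [NF4], adapted bases
-/

set_option autoImplicit false
set_option linter.unusedSectionVars false
set_option linter.unusedVariables false

namespace PST

open scoped ComplexConjugate Matrix ComplexOrder
open GAM (H E)
open Pool.Agent.GPC (hermForm)

section NF4

variable {g : ℕ}

/-- bases of the range of a matrix -/
theorem NF4_basis {M : Matrix (Fin g) (Fin g) ℂ} (hM : M.PosDef) (Q : Matrix (Fin g) (Fin g) ℂ)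
    (hQ : ∀ i j, IsAlgebraic ℚ (Q i j)) :
    ∃ (α : Type) (_ : Fintype α) (_ : DecidableEq α) (B : Matrix (Fin g) α ℂ)
      (X : Matrix α (Fin g) ℂ) (Y : Matrix (Fin g) α ℂ) (a : Matrix α α ℂ),
      (∀ i j, IsAlgebraic ℚ (B i j)) ∧ B * X = Q ∧ Q * Y = B ∧ IsUnit a ∧
      (B * a)ᴴ * M * (B * a) = 1 := by
  classical
  obtain ⟨κ, f, hf, hspan, hli⟩ := exists_linearIndependent' ℂ Q.col
  have : Finite κ := Finite.of_injective f hf
  let iκ : Fintype κ := Fintype.ofFinite κ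
  set B : Matrix (Fin g) κ ℂ := Matrix.of fun i j => Q i (f j) with hB
  have hBc : B.col = Q.col ∘ f := by
    funext j i
    rfl
  have hinj : Function.Injective B.mulVec := by
    rw [Matrix.mulVec_injective_iff, hBc]
    exact hli
  have hX : ∀ j, ∃ c : κ → ℂ, ∑ i, c i • (Q.col ∘ f) i = Q.col j := by
    intro j
    rw [← Submodule.mem_span_range_iff_exists_fun, hspan]
    exact Submodule.subset_span ⟨j, rfl⟩
  choose X hX using hX
  obtain ⟨a, ha, hau⟩ := UTr_root (B.conjTranspose * M * B) (hM.conjTranspose_mul_mul_same hinj)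
  refine ⟨κ, inferInstance, inferInstance, B, Matrix.of fun i j => X j i,
    Matrix.of fun i j => if i = f j then 1 else 0, a, fun i j => hQ _ _, ?_, ?_, hau, ?_⟩
  · ext i j
    have := congrFun (hX j) i
    rw [Finset.sum_apply] at this
    simp only [Matrix.mul_apply, Matrix.of_apply, hB]
    rw [show Q i j = Q.col j i from rfl, ← this]
    exact Finset.sum_congr rfl fun s _ => by
      simp only [Pi.smul_apply, smul_eq_mul, Function.comp_apply, Matrix.col_apply]
      ring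
  · ext i j
    simp only [Matrix.mul_apply, Matrix.of_apply, hB, mul_ite, mul_one, mul_zero,
      Finset.sum_ite_eq', Finset.mem_univ, if_true]
  · rw [← ha, Matrix.conjTranspose_mul]
    simp only [Matrix.mul_assoc]

/-- `2 zd ≠ 0`, `zd ^ 2 = - d` -/
theorem NF4_zd {d : ℚ} (hd : 0 < d) : zd d * zd d = -(d : ℂ) ∧ zd d ≠ 0 ∧ conj (zd d) = -zd d ∧
    IsAlgebraic ℚ (zd d) := by
  have h0 : (0 : ℝ) < (d : ℝ) := by exact_mod_cast hd
  have h1 : zd d * zd d = -(d : ℂ) := by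
    unfold zd
    have h2 : ((Real.sqrt (d : ℝ) : ℂ)) * (Real.sqrt (d : ℝ) : ℂ) = (d : ℂ) := by
      rw [← Complex.ofReal_mul, Real.mul_self_sqrt h0.le]
      push_cast
      rfl
    linear_combination (-1 : ℂ) * h2 + (Real.sqrt (d : ℝ) : ℂ) ^ 2 * Complex.I_mul_I
  refine ⟨h1, ?_, ?_, ?_⟩
  · intro h
    rw [h, mul_zero] at h1
    have : (d : ℂ) = 0 := by linear_combination h1
    exact hd.ne' (by exact_mod_cast this)
  · unfold zd
    rw [map_mul, Complex.conj_ofReal, Complex.conj_I]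
    ring
  · have h3 : IsAlgebraic ℚ (zd d ^ 2) := by
      rw [pow_two, h1]
      have := isAlgebraic_algebraMap (R := ℚ) (A := ℂ) (-d)
      simpa using this
    exact IsAlgebraic.of_pow (by norm_num) h3

/-- the real algebra map `scal` on eigenvectors -/
theorem NF4_scal {κ : Type} {d : ℚ} (hd : 0 < d) (J : Matrix (Fin g) (Fin g) ℂ) (c : ℂ)
    (X : Matrix (Fin g) κ ℂ) (i : Fin g) (s : κ) :
    ((J * X) i s = zd d * X i s → (scal d J c * X) i s = c * X i s) ∧
    ((J * X) i s = -zd d * X i s → (scal d J c * X) i s = conj c * X i s) := by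
  have h0 : (0 : ℝ) < (d : ℝ) := by exact_mod_cast hd
  have h1 : ((c.im / Real.sqrt (d : ℝ) : ℝ) : ℂ) * zd d = c.im * Complex.I := by
    unfold zd
    rw [← mul_assoc, ← Complex.ofReal_mul, div_mul_cancel₀ _ (Real.sqrt_pos.2 h0).ne']
  have h2 : (scal d J c * X) i s = c.re * X i s +
      ((c.im / Real.sqrt (d : ℝ) : ℝ) : ℂ) * (J * X) i s := by
    unfold scal
    rw [Matrix.add_mul, Matrix.smul_mul, Matrix.smul_mul, Matrix.one_mul, Matrix.add_apply,
      Matrix.smul_apply, Matrix.smul_apply, smul_eq_mul, smul_eq_mul]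
  constructor
  · intro h
    rw [h2, h]
    conv_rhs => rw [← Complex.re_add_im c]
    linear_combination X i s * h1
  · intro h
    rw [h2, h]
    have h3 : conj c = c.re - c.im * Complex.I := by
      apply Complex.ext <;> simp
    rw [h3]
    linear_combination (-X i s) * h1

/-- adapted bases of the range of `P₀` -/
theorem NF4_B {M P₀ J : Matrix (Fin g) (Fin g) ℂ} {d : ℚ} (hd : 0 < d) (hM : M.PosDef)
    (hP : P₀ * P₀ = P₀) (hPJ : P₀ * J = J * P₀) (hMP : M * P₀ = P₀ᴴ * M)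
    (hJ : J * J = -((d : ℂ) • (1 : Matrix (Fin g) (Fin g) ℂ))) (hMJ : M * J = -(Jᴴ * M))
    (hPalg : ∀ i j, IsAlgebraic ℚ (P₀ i j)) (hJalg : ∀ i j, IsAlgebraic ℚ (J i j)) :
    ∃ (α β : Type) (_ : Fintype α) (_ : Fintype β) (_ : DecidableEq α) (_ : DecidableEq β)
      (B' : Matrix (Fin g) (α ⊕ β) ℂ) (a : Matrix α α ℂ) (b : Matrix β β ℂ),
      (∀ i j, IsAlgebraic ℚ (B' i j)) ∧ IsUnit a ∧ IsUnit b ∧
      P₀ * (B' * Matrix.fromBlocks a 0 0 b) = B' * Matrix.fromBlocks a 0 0 b ∧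
      (∀ i s, (J * (B' * Matrix.fromBlocks a 0 0 b)) i (Sum.inl s) =
        zd d * (B' * Matrix.fromBlocks a 0 0 b) i (Sum.inl s)) ∧
      (∀ i s, (J * (B' * Matrix.fromBlocks a 0 0 b)) i (Sum.inr s) =
        -zd d * (B' * Matrix.fromBlocks a 0 0 b) i (Sum.inr s)) ∧
      (B' * Matrix.fromBlocks a 0 0 b)ᴴ * M * (B' * Matrix.fromBlocks a 0 0 b) = 1 ∧
      P₀ = (B' * Matrix.fromBlocks a 0 0 b) * ((B' * Matrix.fromBlocks a 0 0 b)ᴴ * M) := by
  classical
  obtain ⟨hz1, hz2, hz3, hz4⟩ := NF4_zd hd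
  set Qp : Matrix (Fin g) (Fin g) ℂ := (1 / (2 * zd d)) • (P₀ * (zd d • 1 + J)) with hQp
  set Qm : Matrix (Fin g) (Fin g) ℂ := (1 / (2 * zd d)) • (P₀ * (zd d • 1 - J)) with hQm
  have h2z : (2 : ℂ) * zd d ≠ 0 := mul_ne_zero two_ne_zero hz2
  have hsum : Qp + Qm = P₀ := by
    rw [hQp, hQm, ← smul_add, ← Matrix.mul_add]
    have : zd d • (1 : Matrix (Fin g) (Fin g) ℂ) + J + (zd d • 1 - J) = (2 * zd d) • 1 := by
      rw [two_mul, add_smul]
      abel
    rw [this, Matrix.mul_smul, Matrix.mul_one, smul_smul, one_div, inv_mul_cancel₀ h2z, one_smul]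
  have hJJ : J * J = (zd d * zd d) • (1 : Matrix (Fin g) (Fin g) ℂ) := by
    rw [hJ, hz1, neg_smul]
  have hJp : J * Qp = zd d • Qp := by
    rw [hQp, Matrix.mul_smul, smul_comm (zd d)]
    congr 1
    rw [← Matrix.mul_assoc, ← hPJ, Matrix.mul_assoc, ← Matrix.mul_smul]
    congr 1
    rw [Matrix.mul_add, hJJ, Matrix.mul_smul, Matrix.mul_one, smul_add, smul_smul]
    abel
  have hJm : J * Qm = -zd d • Qm := by
    rw [hQm, Matrix.mul_smul, smul_comm (-zd d)]
    congr 1
    rw [← Matrix.mul_assoc, ← hPJ, Matrix.mul_assoc, ← Matrix.mul_smul]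
    congr 1
    rw [Matrix.mul_sub, hJJ, Matrix.mul_smul, Matrix.mul_one, smul_sub, smul_smul, neg_mul,
      neg_smul, neg_smul]
    abel
  have hPp : P₀ * Qp = Qp := by
    rw [hQp, Matrix.mul_smul, ← Matrix.mul_assoc, hP]
  have hPm : P₀ * Qm = Qm := by
    rw [hQm, Matrix.mul_smul, ← Matrix.mul_assoc, hP]
  have halg1 : IsAlgebraic ℚ (1 / (2 * zd d)) := by
    rw [one_div]
    apply IsAlgebraic.inv
    have := isAlgebraic_algebraMap (R := ℚ) (A := ℂ) 2
    exact (by simpa using this : IsAlgebraic ℚ (2 : ℂ)).mul hz4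
  have halgZ : ∀ i j, IsAlgebraic ℚ ((zd d • (1 : Matrix (Fin g) (Fin g) ℂ)) i j) := by
    intro i j
    rw [Matrix.smul_apply, Matrix.one_apply, smul_eq_mul]
    refine hz4.mul ?_
    split_ifs
    · exact isAlgebraic_one
    · exact isAlgebraic_zero
  have halgsum : ∀ (s : Finset (Fin g)) (f : Fin g → ℂ), (∀ i, IsAlgebraic ℚ (f i)) →
      IsAlgebraic ℚ (∑ i ∈ s, f i) := by
    intro s f hf
    induction s using Finset.induction_on with
    | empty => rw [Finset.sum_empty]; exact isAlgebraic_zero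
    | insert i s hi ih => rw [Finset.sum_insert hi]; exact (hf i).add ih
  have halgp : ∀ i j, IsAlgebraic ℚ (Qp i j) := by
    intro i j
    rw [hQp, Matrix.smul_apply, smul_eq_mul, Matrix.mul_apply]
    exact halg1.mul (halgsum _ _ fun k => (hPalg _ _).mul ((halgZ _ _).add (hJalg _ _)))
  have halgm : ∀ i j, IsAlgebraic ℚ (Qm i j) := by
    intro i j
    rw [hQm, Matrix.smul_apply, smul_eq_mul, Matrix.mul_apply]
    exact halg1.mul (halgsum _ _ fun k => (hPalg _ _).mul ((halgZ _ _).sub (hJalg _ _)))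
  obtain ⟨α, i1, i2, Bp, Xp, Yp, a, hp1, hp2, hp3, hp4, hp5⟩ := NF4_basis hM Qp halgp
  obtain ⟨β, i3, i4, Bm, Xm, Ym, b, hm1, hm2, hm3, hm4, hm5⟩ := NF4_basis hM Qm halgm
  have hJBp : J * (Bp * a) = zd d • (Bp * a) := by
    rw [← hp3, ← Matrix.mul_assoc, ← Matrix.mul_assoc, hJp]
    simp only [Matrix.smul_mul]
  have hJBm : J * (Bm * b) = -zd d • (Bm * b) := by
    rw [← hm3, ← Matrix.mul_assoc, ← Matrix.mul_assoc, hJm]
    simp only [Matrix.smul_mul]
  have hPBp : P₀ * (Bp * a) = Bp * a := by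
    rw [← hp3, ← Matrix.mul_assoc, ← Matrix.mul_assoc, hPp]
  have hPBm : P₀ * (Bm * b) = Bm * b := by
    rw [← hm3, ← Matrix.mul_assoc, ← Matrix.mul_assoc, hPm]
  have hBeq : Matrix.fromCols Bp Bm * Matrix.fromBlocks a 0 0 b =
      Matrix.fromCols (Bp * a) (Bm * b) := by
    rw [Matrix.fromCols_mul_fromBlocks]
    simp
  have hcross : (Bp * a)ᴴ * M * (Bm * b) = 0 := by
    have e1 : (Bp * a)ᴴ * M * (J * (Bm * b)) = -zd d • ((Bp * a)ᴴ * M * (Bm * b)) := by
      rw [hJBm, Matrix.mul_smul]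
    have e2 : (Bp * a)ᴴ * M * (J * (Bm * b)) = zd d • ((Bp * a)ᴴ * M * (Bm * b)) := by
      calc (Bp * a)ᴴ * M * (J * (Bm * b)) = (Bp * a)ᴴ * (M * J) * (Bm * b) := by
            simp only [Matrix.mul_assoc]
        _ = -((J * (Bp * a))ᴴ * M * (Bm * b)) := by
            rw [hMJ, Matrix.conjTranspose_mul J]
            simp only [Matrix.mul_neg, Matrix.neg_mul, Matrix.mul_assoc]
        _ = zd d • ((Bp * a)ᴴ * M * (Bm * b)) := by
            rw [hJBp, Matrix.conjTranspose_smul, Matrix.smul_mul, Matrix.smul_mul]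
            have : star (zd d) = -zd d := hz3
            rw [this, neg_smul, neg_neg]
    have e3 : (2 * zd d) • ((Bp * a)ᴴ * M * (Bm * b)) = 0 := by
      have e4 := e1.symm.trans e2
      rw [two_mul, add_smul]
      nth_rewrite 1 [← e4]
      rw [← add_smul, neg_add_cancel, zero_smul]
    exact (smul_eq_zero.1 e3).resolve_left h2z
  have hcross' : (Bm * b)ᴴ * M * (Bp * a) = 0 := by
    have e1 := congrArg Matrix.conjTranspose hcross
    rw [Matrix.conjTranspose_mul ((Bp * a)ᴴ * M) (Bm * b), Matrix.conjTranspose_mul (Bp * a)ᴴ M,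
      Matrix.conjTranspose_conjTranspose, hM.isHermitian.eq, Matrix.conjTranspose_zero,
      ← Matrix.mul_assoc] at e1
    exact e1
  have hgram : (Matrix.fromCols (Bp * a) (Bm * b))ᴴ * M * Matrix.fromCols (Bp * a) (Bm * b) =
      1 := by
    rw [Matrix.conjTranspose_fromCols_eq_fromRows_conjTranspose, Matrix.fromRows_mul,
      Matrix.fromRows_mul_fromCols, hp5, hm5, hcross, hcross', Matrix.fromBlocks_one]
  have hPB : P₀ * Matrix.fromCols (Bp * a) (Bm * b) = Matrix.fromCols (Bp * a) (Bm * b) := by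
    rw [Matrix.mul_fromCols, hPBp, hPBm]
  refine ⟨α, β, i1, i3, i2, i4, Matrix.fromCols Bp Bm, a, b, ?_, hp4, hm4, ?_, ?_, ?_, ?_, ?_⟩
  · rintro i (s | s)
    · exact hp1 _ _
    · exact hm1 _ _
  · rw [hBeq, hPB]
  · intro i s
    rw [hBeq, Matrix.mul_fromCols, Matrix.fromCols_apply_inl, Matrix.fromCols_apply_inl, hJBp,
      Matrix.smul_apply, smul_eq_mul]
  · intro i s
    rw [hBeq, Matrix.mul_fromCols, Matrix.fromCols_apply_inr, Matrix.fromCols_apply_inr, hJBm,
      Matrix.smul_apply, smul_eq_mul]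
  · rw [hBeq, hgram]
  · rw [hBeq]
    set B := Matrix.fromCols (Bp * a) (Bm * b) with hBdef
    obtain ⟨ai, hai⟩ := hp4.exists_right_inv
    obtain ⟨bi, hbi⟩ := hm4.exists_right_inv
    have hX : P₀ = B * Matrix.fromRows (ai * Xp) (bi * Xm) := by
      rw [hBdef, Matrix.fromCols_mul_fromRows]
      have e1 : Bp * a * (ai * Xp) = Qp := by
        rw [← hp2]
        calc Bp * a * (ai * Xp) = Bp * (a * ai) * Xp := by simp only [Matrix.mul_assoc]
          _ = Bp * Xp := by rw [hai, Matrix.mul_one]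
      have e2 : Bm * b * (bi * Xm) = Qm := by
        rw [← hm2]
        calc Bm * b * (bi * Xm) = Bm * (b * bi) * Xm := by simp only [Matrix.mul_assoc]
          _ = Bm * Xm := by rw [hbi, Matrix.mul_one]
      rw [e1, e2, hsum]
    have hX2 : Matrix.fromRows (ai * Xp) (bi * Xm) = Bᴴ * M * P₀ := by
      conv_rhs => rw [hX]
      rw [← Matrix.mul_assoc, hgram, Matrix.one_mul]
    have hX3 : Bᴴ * M * P₀ = Bᴴ * M := by
      rw [Matrix.mul_assoc, hMP, ← Matrix.mul_assoc, ← Matrix.conjTranspose_mul, hPB]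
    rw [hX2, hX3] at hX
    exact hX

/-- the adjunction in matrix form -/
theorem NF4_adj {Hm m m' : Matrix (Fin g) (Fin g) ℂ}
    (h : ∀ z w, hermForm Hm (m.mulVec z) w = hermForm Hm z (m'.mulVec w)) :
    Hmᵀ * m = m'ᴴ * Hmᵀ := by
  ext i j
  have h1 := h (Pi.single j 1) (Pi.single i 1)
  unfold hermForm at h1
  simp only [Matrix.mulVec_single_one, Pi.single_apply, apply_ite conj, map_one, map_zero,
    mul_ite, mul_one, mul_zero, ite_mul, zero_mul, one_mul, Finset.sum_ite_eq',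
    Finset.mem_univ, if_true, Matrix.col_apply] at h1
  simp only [Matrix.mul_apply, Matrix.transpose_apply, Matrix.conjTranspose_apply]
  have h2 : ∑ x, ∑ x_1, (if x = j then Hm x x_1 * conj (m' x_1 i) else 0) =
      ∑ x_1, Hm j x_1 * conj (m' x_1 i) := by
    rw [Finset.sum_eq_single j]
    · simp
    · intro b _ hb
      simp [hb]
    · simp
  rw [h2] at h1
  calc ∑ x, Hm x i * m x j = ∑ x, m x j * Hm x i := Finset.sum_congr rfl fun x _ => mul_comm _ _
    _ = ∑ x, Hm j x * conj (m' x i) := h1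
    _ = _ := Finset.sum_congr rfl fun x _ => mul_comm _ _

/-- positivity in matrix form -/
theorem NF4_pos {Hm : Matrix (Fin g) (Fin g) ℂ} (hH : Hm.IsHermitian)
    (h : ∀ z, z ≠ 0 → 0 < (hermForm Hm z z).re) : Hmᵀ.PosDef := by
  have h1 : Hmᵀ.IsHermitian := hH.transpose
  refine Matrix.PosDef.of_dotProduct_mulVec_pos h1 fun x hx => ?_
  have h2 : star x ⬝ᵥ Hmᵀ *ᵥ x = hermForm Hm x x := by
    unfold hermForm
    simp only [dotProduct, Matrix.mulVec, Matrix.transpose_apply, Finset.mul_sum, Pi.star_apply]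
    rw [Finset.sum_comm]
    refine Finset.sum_congr rfl fun a _ => Finset.sum_congr rfl fun b _ => ?_
    rw [← starRingEnd_apply]
    ring
  have h3 := h x hx
  have h4 : (star x ⬝ᵥ Hmᵀ *ᵥ x).im = 0 := h1.im_star_dotProduct_mulVec_self x
  rw [h2] at h4 ⊢
  rw [Complex.lt_def]
  exact ⟨h3, h4.symm⟩

theorem NF4_span_mul {A : Subalgebra ℚ (Matrix (Fin g) (Fin g) ℂ)}
    {x y : Matrix (Fin g) (Fin g) ℂ}
    (hx : x ∈ Submodule.span ℝ (A : Set (Matrix (Fin g) (Fin g) ℂ)))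
    (hy : y ∈ Submodule.span ℝ (A : Set (Matrix (Fin g) (Fin g) ℂ))) :
    x * y ∈ Submodule.span ℝ (A : Set (Matrix (Fin g) (Fin g) ℂ)) := by
  have h1 := Submodule.mul_mem_mul hx hy
  rw [Submodule.span_mul_span] at h1
  refine Submodule.span_mono ?_ h1
  rintro _ ⟨a, ha, b, hb, rfl⟩
  exact A.mul_mem ha hb

theorem NF4_cen {p : ℕ} {d : ℚ} {Hm J : Matrix (Fin g) (Fin g) ℂ}
    {A : Subalgebra ℚ (Matrix (Fin g) (Fin g) ℂ)} {t : Fin p → ℝ}
    {P : Fin p → Matrix (Fin g) (Fin g) ℂ} (hPr : Prj p d Hm A J t P) (k : Fin p)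
    {x : Matrix (Fin g) (Fin g) ℂ}
    (hx : x ∈ Submodule.span ℝ (A : Set (Matrix (Fin g) (Fin g) ℂ))) :
    ∃ c : ℂ, P k * x * P k = scal d J c * P k := by
  induction hx using Submodule.span_induction with
  | mem x h => exact hPr.cen k x h
  | zero => exact ⟨0, by simp [scal]⟩
  | add x y _ _ hx hy =>
    obtain ⟨c, hc⟩ := hx
    obtain ⟨e, he⟩ := hy
    refine ⟨c + e, ?_⟩
    rw [Matrix.mul_add, Matrix.add_mul, hc, he, ← Matrix.add_mul]
    congr 1
    unfold scal
    rw [Complex.add_re, Complex.add_im, add_div]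
    push_cast
    rw [add_smul, add_smul]
    abel
  | smul r x _ hx =>
    obtain ⟨c, hc⟩ := hx
    refine ⟨r * c, ?_⟩
    rw [Matrix.mul_smul, Matrix.smul_mul, hc, ← Matrix.smul_mul]
    congr 1
    unfold scal
    rw [Complex.re_ofReal_mul, Complex.im_ofReal_mul, mul_div_assoc]
    push_cast
    rw [smul_add, mul_smul, mul_smul, ← algebraMap_smul ℂ r, ← algebraMap_smul ℂ r]
    rfl

/-- positivity of the scalar of `u* u` -/
theorem NF4_posc {M P₀ J u v : Matrix (Fin g) (Fin g) ℂ} {d : ℚ} (hd : 0 < d) (hM : M.PosDef)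
    (hP : P₀ * P₀ = P₀) (hPJ : P₀ * J = J * P₀)
    (hJ : J * J = -((d : ℂ) • (1 : Matrix (Fin g) (Fin g) ℂ))) {c : ℂ}
    (hv : uᴴ * M = M * v) (hvu : v * u = scal d J c * P₀) (huP : u * P₀ = u) (hu : u ≠ 0) :
    ∃ r : ℝ, 0 < r ∧ c = r ∧ v * u = (r : ℂ) • P₀ := by
  obtain ⟨hz1, hz2, hz3, hz4⟩ := NF4_zd hd
  have h2z : (2 : ℂ) * zd d ≠ 0 := mul_ne_zero two_ne_zero hz2
  have key : 0 < c.re ∧ c.im = 0 := by
    have main : ∀ (z : Matrix (Fin g) (Fin 1) ℂ) (c' : ℂ), P₀ * z = z → scal d J c * z = c' • z →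
        u * z ≠ 0 → 0 < c'.re ∧ c'.im = 0 := by
      intro z c' hPz hcz huz
      have e1 : (u * z)ᴴ * M * (u * z) = c' • (zᴴ * M * z) := by
        calc (u * z)ᴴ * M * (u * z) = zᴴ * (uᴴ * M) * (u * z) := by
              rw [Matrix.conjTranspose_mul]; simp only [Matrix.mul_assoc]
          _ = zᴴ * M * (v * u * z) := by rw [hv]; simp only [Matrix.mul_assoc]
          _ = c' • (zᴴ * M * z) := by
              rw [hvu, Matrix.mul_assoc (scal d J c) P₀ z, hPz, hcz, Matrix.mul_smul]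
      have hp : ∀ y : Matrix (Fin g) (Fin 1) ℂ, y ≠ 0 → 0 < (yᴴ * M * y) 0 0 := by
        intro y hy
        have h1 : (yᴴ * M * y) 0 0 = star (y.col 0) ⬝ᵥ M *ᵥ (y.col 0) := by
          rw [Matrix.mul_assoc]
          simp only [Matrix.mul_apply, dotProduct, Matrix.mulVec, Matrix.conjTranspose_apply,
            Pi.star_apply, Matrix.col_apply]
        rw [h1]
        refine hM.dotProduct_mulVec_pos ?_
        intro h
        apply hy
        ext i j
        rw [Subsingleton.elim j 0]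
        exact congrFun h i
      have hz : z ≠ 0 := by
        rintro rfl
        exact huz (Matrix.mul_zero _)
      have h1 := hp _ huz
      have h2 := hp _ hz
      rw [e1, Matrix.smul_apply, smul_eq_mul] at h1
      rw [Complex.lt_def] at h1 h2
      obtain ⟨h1a, h1b⟩ := h1
      obtain ⟨h2a, h2b⟩ := h2
      rw [Complex.mul_re, ← h2b, Complex.zero_re] at h1a
      rw [Complex.mul_im, ← h2b, Complex.zero_im] at h1b
      simp only [Complex.zero_re, Complex.zero_im, mul_zero, sub_zero, zero_add] at h1a h1b h2a h2b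
      refine ⟨(pos_iff_pos_of_mul_pos h1a).2 h2a, ?_⟩
      rcases mul_eq_zero.1 h1b.symm with h | h
      · exact h
      · exact absurd h h2a.ne'
    obtain ⟨z₀, hz₀⟩ : ∃ z : Matrix (Fin g) (Fin 1) ℂ, u * z ≠ 0 := by
      by_contra hcon
      push Not at hcon
      apply hu
      ext i j
      have := congrFun (congrFun (hcon (Matrix.of fun a _ => if a = j then 1 else 0)) i) 0
      simpa [Matrix.mul_apply] using this
    have hJJ : J * J = (zd d * zd d) • (1 : Matrix (Fin g) (Fin g) ℂ) := by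
      rw [hJ, hz1, neg_smul]
    have hJp : J * (P₀ * (zd d • z₀ + J * z₀)) = zd d • (P₀ * (zd d • z₀ + J * z₀)) := by
      rw [← Matrix.mul_assoc, ← hPJ, Matrix.mul_assoc, ← Matrix.mul_smul]
      congr 1
      rw [Matrix.mul_add, ← Matrix.mul_assoc, hJJ, Matrix.mul_smul, Matrix.smul_mul,
        Matrix.one_mul, smul_add, smul_smul]
      abel
    have hJm : J * (P₀ * (zd d • z₀ - J * z₀)) = -zd d • (P₀ * (zd d • z₀ - J * z₀)) := by
      rw [← Matrix.mul_assoc, ← hPJ, Matrix.mul_assoc, ← Matrix.mul_smul]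
      congr 1
      rw [Matrix.mul_sub, ← Matrix.mul_assoc, hJJ, Matrix.mul_smul, Matrix.smul_mul,
        Matrix.one_mul, smul_sub, smul_smul, neg_mul, neg_smul, neg_smul]
      abel
    have hsum : u * (P₀ * (zd d • z₀ + J * z₀)) + u * (P₀ * (zd d • z₀ - J * z₀)) =
        (2 * zd d) • (u * z₀) := by
      rw [← Matrix.mul_assoc, ← Matrix.mul_assoc, huP, ← Matrix.mul_add]
      have : zd d • z₀ + J * z₀ + (zd d • z₀ - J * z₀) = (2 * zd d) • z₀ := by
        rw [two_mul, add_smul]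
        abel
      rw [this, Matrix.mul_smul]
    by_cases h : u * (P₀ * (zd d • z₀ + J * z₀)) = 0
    · have h' : u * (P₀ * (zd d • z₀ - J * z₀)) ≠ 0 := by
        intro h'
        rw [h, h', add_zero] at hsum
        exact hz₀ ((smul_eq_zero.1 hsum.symm).resolve_left h2z)
      have h3 := main _ (conj c) (by rw [← Matrix.mul_assoc, hP]) (by
        ext i s
        rw [Matrix.smul_apply, smul_eq_mul]
        apply (NF4_scal hd J c _ i s).2
        rw [hJm, Matrix.smul_apply, smul_eq_mul]) h'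
      simp only [Complex.conj_re, Complex.conj_im, neg_eq_zero] at h3
      exact h3
    · exact main _ c (by rw [← Matrix.mul_assoc, hP]) (by
        ext i s
        rw [Matrix.smul_apply, smul_eq_mul]
        apply (NF4_scal hd J c _ i s).1
        rw [hJp, Matrix.smul_apply, smul_eq_mul]) h
  have hc : c = (c.re : ℂ) := by
    apply Complex.ext
    · simp
    · simpa using key.2
  refine ⟨c.re, key.1, hc, ?_⟩
  rw [hvu]
  unfold scal
  rw [key.2, zero_div, Complex.ofReal_zero, zero_smul, add_zero, Matrix.smul_mul, Matrix.one_mul]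

theorem NF4_alg_mul {κ l n : Type} [Fintype l] {X : Matrix κ l ℂ} {Y : Matrix l n ℂ}
    (hX : ∀ i j, IsAlgebraic ℚ (X i j)) (hY : ∀ i j, IsAlgebraic ℚ (Y i j)) (i : κ) (j : n) :
    IsAlgebraic ℚ ((X * Y) i j) := by
  classical
  rw [Matrix.mul_apply]
  have : ∀ s : Finset l, IsAlgebraic ℚ (∑ x ∈ s, X i x * Y x j) := by
    intro s
    induction s using Finset.induction_on with
    | empty => rw [Finset.sum_empty]; exact isAlgebraic_zero
    | insert a s ha ih => rw [Finset.sum_insert ha]; exact ((hX _ _).mul (hY _ _)).add ih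
  exact this _

/-- the maps `u_k` and their adjoints -/
theorem NF4_u {p : ℕ} {d : ℚ} {Hm J : Matrix (Fin g) (Fin g) ℂ} {W : Submodule ℚ (Fin g → ℂ)}
    {A : Subalgebra ℚ (Matrix (Fin g) (Fin g) ℂ)} {t : Fin p → ℝ}
    {P : Fin p → Matrix (Fin g) (Fin g) ℂ} (hL : LD g p d Hm A W J) (hPr : Prj p d Hm A J t P)
    (h3 : ∀ k l, ∃ m ∈ A, P k * m * P l ≠ 0) (k₀ k : Fin p) :
    ∃ m ∈ A, ∃ m' ∈ A, ∃ r : ℝ, 0 < r ∧
      (P k * m * P k₀)ᴴ * Hmᵀ = Hmᵀ * (P k₀ * m' * P k) ∧
      (P k₀ * m' * P k) * (P k * m * P k₀) = (r : ℂ) • P k₀ ∧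
      (P k * m * P k₀) * (P k₀ * m' * P k) = (r : ℂ) • P k := by
  obtain ⟨m, hm, hne⟩ := h3 k k₀
  obtain ⟨m', hm', hadj⟩ := hL.adj m hm
  have hM := NF4_pos hL.herm hL.pd
  have hPP : ∀ k, P k * P k = P k := fun k => by
    have := hPr.orth k k
    rwa [if_pos rfl] at this
  have hMP : ∀ k, Hmᵀ * P k = (P k)ᴴ * Hmᵀ := fun k => NF4_adj (hPr.adj k)
  have hMm : Hmᵀ * m = m'ᴴ * Hmᵀ := NF4_adj hadj
  have hMH : (Hmᵀ)ᴴ = Hmᵀ := hM.isHermitian
  have hMm' : mᴴ * Hmᵀ = Hmᵀ * m' := by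
    have := congrArg Matrix.conjTranspose hMm
    rw [Matrix.conjTranspose_mul, Matrix.conjTranspose_mul, Matrix.conjTranspose_conjTranspose,
      hMH] at this
    exact this
  have hswap : ∀ X Y : Matrix (Fin g) (Fin g) ℂ, Xᴴ * Hmᵀ = Hmᵀ * Y → Yᴴ * Hmᵀ = Hmᵀ * X := by
    intro X Y h
    have := congrArg Matrix.conjTranspose h
    rw [Matrix.conjTranspose_mul, Matrix.conjTranspose_mul, Matrix.conjTranspose_conjTranspose,
      hMH] at this
    exact this.symm
  have hjm : ∀ x ∈ A, x * J = J * x := hL.Jc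
  set u := P k * m * P k₀ with hu
  set v := P k₀ * m' * P k with hv
  have e1 : uᴴ * Hmᵀ = Hmᵀ * v := by
    rw [hu, hv, Matrix.conjTranspose_mul, Matrix.conjTranspose_mul]
    calc (P k₀)ᴴ * (mᴴ * (P k)ᴴ) * Hmᵀ = (P k₀)ᴴ * (mᴴ * ((P k)ᴴ * Hmᵀ)) := by
          simp only [Matrix.mul_assoc]
      _ = (P k₀)ᴴ * ((mᴴ * Hmᵀ) * P k) := by rw [← hMP]; simp only [Matrix.mul_assoc]
      _ = ((P k₀)ᴴ * Hmᵀ) * (m' * P k) := by rw [hMm']; simp only [Matrix.mul_assoc]
      _ = Hmᵀ * (P k₀ * m' * P k) := by rw [← hMP]; simp only [Matrix.mul_assoc]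
  have e1' : vᴴ * Hmᵀ = Hmᵀ * u := hswap _ _ e1
  have hsp : ∀ x ∈ A, x ∈ Submodule.span ℝ (A : Set (Matrix (Fin g) (Fin g) ℂ)) := fun x hx =>
    Submodule.subset_span hx
  obtain ⟨c, hc⟩ := NF4_cen hPr k₀ (NF4_span_mul (NF4_span_mul (hsp _ hm') (hPr.real k)) (hsp _ hm))
  obtain ⟨c', hc'⟩ := NF4_cen hPr k (NF4_span_mul (NF4_span_mul (hsp _ hm) (hPr.real k₀)) (hsp _ hm'))
  have e2 : v * u = scal d J c * P k₀ := by
    rw [← hc, hu, hv]
    calc P k₀ * m' * P k * (P k * m * P k₀) = P k₀ * (m' * (P k * P k) * m) * P k₀ := by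
          simp only [Matrix.mul_assoc]
      _ = _ := by rw [hPP]
  have e3 : u * v = scal d J c' * P k := by
    rw [← hc', hu, hv]
    calc P k * m * P k₀ * (P k₀ * m' * P k) = P k * (m * (P k₀ * P k₀) * m') * P k := by
          simp only [Matrix.mul_assoc]
      _ = _ := by rw [hPP]
  have huP : u * P k₀ = u := by rw [hu, Matrix.mul_assoc, hPP]
  have hvP : v * P k = v := by rw [hv, Matrix.mul_assoc, hPP]
  have hPu : P k * u = u := by
    rw [hu, ← Matrix.mul_assoc, ← Matrix.mul_assoc, hPP]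
  obtain ⟨r, hr, -, hvu⟩ := NF4_posc hL.pos hM (hPP k₀) (hPr.jk k₀) hL.J2 e1 e2 huP hne
  have hvne : v ≠ 0 := by
    intro h
    rw [h, Matrix.zero_mul] at hvu
    have h1 := (smul_eq_zero.1 hvu.symm).resolve_left (Complex.ofReal_ne_zero.2 hr.ne')
    exact hPr.ne k₀ h1
  obtain ⟨r', hr', -, huv⟩ := NF4_posc hL.pos hM (hPP k) (hPr.jk k) hL.J2 e1' e3 hvP hvne
  have hrr : (r' : ℂ) = r := by
    have e4 : (r' : ℂ) • u = (r : ℂ) • u := by
      calc (r' : ℂ) • u = ((r' : ℂ) • P k) * u := by rw [Matrix.smul_mul, hPu]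
        _ = u * (v * u) := by rw [← huv, Matrix.mul_assoc]
        _ = (r : ℂ) • u := by rw [hvu, Matrix.mul_smul, huP]
    have e5 : ((r' : ℂ) - r) • u = 0 := by rw [sub_smul, e4, sub_self]
    exact sub_eq_zero.1 ((smul_eq_zero.1 e5).resolve_right hne)
  refine ⟨m, hm, m', hm', r, hr, e1, hvu, ?_⟩
  rw [← hrr]
  exact huv

/-- the normalised maps -/
theorem NF4_U {p : ℕ} {d : ℚ} {Hm J : Matrix (Fin g) (Fin g) ℂ} {W : Submodule ℚ (Fin g → ℂ)}
    {A : Subalgebra ℚ (Matrix (Fin g) (Fin g) ℂ)} {t : Fin p → ℝ}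
    {P : Fin p → Matrix (Fin g) (Fin g) ℂ} (hL : LD g p d Hm A W J) (hPr : Prj p d Hm A J t P)
    (h3 : ∀ k l, ∃ m ∈ A, P k * m * P l ≠ 0) (k₀ : Fin p) :
    ∃ U w : Fin p → Matrix (Fin g) (Fin g) ℂ,
      (∀ k, (U k)ᴴ * Hmᵀ = Hmᵀ * w k) ∧ (∀ k, w k * U k = P k₀) ∧ (∀ k, U k * w k = P k) ∧
      (∀ k, P k * U k = U k) ∧ (∀ k, w k * P k = w k) ∧ (∀ k, J * U k = U k * J) ∧
      (∀ k i j, IsAlgebraic ℚ (U k i j)) ∧
      ∀ k l, ∀ m ∈ A, ∃ e : ℂ, w k * m * U l = scal d J e * P k₀ := by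
  choose m hm m' hm' r hr h1 h2 h4 using NF4_u hL hPr h3 k₀
  have hPP : ∀ k, P k * P k = P k := fun k => by
    have := hPr.orth k k
    rwa [if_pos rfl] at this
  have hs : ∀ k, (((1 / Real.sqrt (r k) : ℝ) : ℂ)) * ((1 / Real.sqrt (r k) : ℝ) : ℂ) * (r k : ℂ) =
      1 := by
    intro k
    rw [← Complex.ofReal_mul, ← Complex.ofReal_mul, ← Complex.ofReal_one]
    congr 1
    have h5 := Real.mul_self_sqrt (hr k).le
    have h6 : Real.sqrt (r k) ≠ 0 := (Real.sqrt_pos.2 (hr k)).ne'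
    field_simp
    rw [pow_two]
    exact h5.symm
  have hralg : ∀ k, IsAlgebraic ℚ (((1 / Real.sqrt (r k) : ℝ) : ℂ)) := by
    intro k
    have hmalg : ∀ x ∈ A, ∀ i j, IsAlgebraic ℚ (x i j) := hL.alg
    have e1 : ∀ i j, IsAlgebraic ℚ (((r k : ℂ) • P k₀) i j) := by
      intro i j
      rw [← h2 k]
      exact NF4_alg_mul (NF4_alg_mul (NF4_alg_mul (hPr.alg k₀) (hmalg _ (hm' k))) (hPr.alg k))
        (NF4_alg_mul (NF4_alg_mul (hPr.alg k) (hmalg _ (hm k))) (hPr.alg k₀)) i j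
    obtain ⟨i, j, hij⟩ : ∃ i j, P k₀ i j ≠ 0 := by
      by_contra hcon
      push Not at hcon
      exact hPr.ne k₀ (by ext i j; exact hcon i j)
    have e2 : IsAlgebraic ℚ (r k : ℂ) := by
      have e3 := (e1 i j).mul (hPr.alg k₀ i j).inv
      rw [Matrix.smul_apply, smul_eq_mul, mul_assoc, mul_inv_cancel₀ hij, mul_one] at e3
      exact e3
    have e3 : IsAlgebraic ℚ ((Real.sqrt (r k) : ℝ) : ℂ) := by
      refine IsAlgebraic.of_pow (n := 2) (by norm_num) ?_
      rw [← Complex.ofReal_pow, Real.sq_sqrt (hr k).le]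
      exact e2
    rw [one_div, Complex.ofReal_inv]
    exact e3.inv
  refine ⟨fun k => ((1 / Real.sqrt (r k) : ℝ) : ℂ) • (P k * m k * P k₀),
    fun k => ((1 / Real.sqrt (r k) : ℝ) : ℂ) • (P k₀ * m' k * P k), ?_, ?_, ?_, ?_, ?_, ?_, ?_, ?_⟩
  · intro k
    rw [Matrix.conjTranspose_smul, Matrix.smul_mul, h1 k, Matrix.mul_smul]
    congr 1
    exact Complex.conj_ofReal _
  · intro k
    rw [Matrix.smul_mul, Matrix.mul_smul, h2 k, smul_smul, smul_smul, hs, one_smul]
  · intro k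
    rw [Matrix.smul_mul, Matrix.mul_smul, h4 k, smul_smul, smul_smul, hs, one_smul]
  · intro k
    rw [Matrix.mul_smul, ← Matrix.mul_assoc, ← Matrix.mul_assoc, hPP]
  · intro k
    rw [Matrix.smul_mul, Matrix.mul_assoc, hPP]
  · intro k
    rw [Matrix.mul_smul, Matrix.smul_mul]
    congr 1
    calc J * (P k * m k * P k₀) = (J * P k) * m k * P k₀ := by simp only [Matrix.mul_assoc]
      _ = P k * (J * m k) * P k₀ := by rw [← hPr.jk k]; simp only [Matrix.mul_assoc]
      _ = P k * m k * (J * P k₀) := by rw [← hL.Jc _ (hm k)]; simp only [Matrix.mul_assoc]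
      _ = P k * m k * P k₀ * J := by rw [← hPr.jk k₀]; simp only [Matrix.mul_assoc]
  · intro k i j
    show IsAlgebraic ℚ ((((1 / Real.sqrt (r k) : ℝ) : ℂ) • (P k * m k * P k₀)) i j)
    rw [Matrix.smul_apply, smul_eq_mul]
    exact (hralg k).mul (NF4_alg_mul (NF4_alg_mul (hPr.alg k) (hL.alg _ (hm k))) (hPr.alg k₀) i j)
  · intro k l x hx
    have hsp : ∀ x ∈ A, x ∈ Submodule.span ℝ (A : Set (Matrix (Fin g) (Fin g) ℂ)) := fun x hx =>
      Submodule.subset_span hx
    have hmem : m' k * P k * x * P l * m l ∈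
        Submodule.span ℝ (A : Set (Matrix (Fin g) (Fin g) ℂ)) :=
      NF4_span_mul (NF4_span_mul (NF4_span_mul (NF4_span_mul (hsp _ (hm' k)) (hPr.real k))
        (hsp _ hx)) (hPr.real l)) (hsp _ (hm l))
    have hmem2 : ((1 / Real.sqrt (r k) * (1 / Real.sqrt (r l)) : ℝ)) •
        (m' k * P k * x * P l * m l) ∈ Submodule.span ℝ (A : Set (Matrix (Fin g) (Fin g) ℂ)) :=
      Submodule.smul_mem _ _ hmem
    obtain ⟨e, he⟩ := NF4_cen hPr k₀ hmem2
    refine ⟨e, ?_⟩
    rw [← he, ← algebraMap_smul ℂ (1 / Real.sqrt (r k) * (1 / Real.sqrt (r l)) : ℝ)]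
    simp only [Matrix.smul_mul, Matrix.mul_smul, smul_smul]
    have e5 : ((1 / Real.sqrt (r l) : ℝ) : ℂ) * ((1 / Real.sqrt (r k) : ℝ) : ℂ) =
        (algebraMap ℝ ℂ) (1 / Real.sqrt (r k) * (1 / Real.sqrt (r l))) := by
      rw [← Complex.ofReal_mul, mul_comm]
      rfl
    rw [e5]
    simp only [Matrix.mul_assoc]

section blk

variable {α β μ : Type} [Fintype α] [Fintype β] [Fintype μ]
  [DecidableEq α] [DecidableEq β] [DecidableEq μ]

theorem NF4_blk_mul (P P' : Matrix α α ℂ) (Q Q' : Matrix β β ℂ) :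
    blk μ P Q * blk μ P' Q' = blk μ (P * P') (Q * Q') := by
  ext ⟨s, k⟩ ⟨s', k'⟩
  rw [Matrix.mul_apply, Fintype.sum_prod_type]
  simp only [blk, Matrix.of_apply]
  have h1 : ∀ x : α ⊕ β, (∑ y : μ, (if k = y then Matrix.fromBlocks P 0 0 Q s x else 0) *
      (if y = k' then Matrix.fromBlocks P' 0 0 Q' x s' else 0)) =
      if k = k' then Matrix.fromBlocks P 0 0 Q s x * Matrix.fromBlocks P' 0 0 Q' x s' else 0 := by
    intro x
    rw [Finset.sum_eq_single k]
    · by_cases h : k = k' <;> simp [h]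
    · intro b _ hb
      rw [if_neg (Ne.symm hb), zero_mul]
    · intro h
      exact absurd (Finset.mem_univ _) h
  rw [Finset.sum_congr rfl fun x _ => h1 x]
  by_cases h : k = k'
  · simp only [h, if_true]
    rw [← Matrix.mul_apply, Matrix.fromBlocks_multiply]
    simp
  · simp [h]

theorem NF4_blk_one : blk μ (1 : Matrix α α ℂ) (1 : Matrix β β ℂ) = 1 := by
  ext ⟨s, k⟩ ⟨s', k'⟩
  simp only [blk, Matrix.of_apply, Matrix.fromBlocks_one, Matrix.one_apply, Prod.mk.injEq]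
  by_cases h : k = k' <;> by_cases h' : s = s' <;> simp [h, h']

/-- multiplication by `rgt r` from the right -/
theorem NF4_mul_rgt {n : Type} (S : Matrix n (Ix α β μ) ℂ) (r : Matrix μ μ ℂ) (i : n) (s : α ⊕ β)
    (k : μ) : (S * rgt α β r) i (s, k) =
      ∑ k', Sum.elim (fun _ => r k k') (fun _ => conj (r k k')) s * S i (s, k') := by
  rw [Matrix.mul_apply, Fintype.sum_prod_type, Finset.sum_eq_single s]
  · refine Finset.sum_congr rfl fun k' _ => ?_
    simp only [rgt, Matrix.of_apply, if_true]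
    exact mul_comm _ _
  · intro s' _ hs
    refine Finset.sum_eq_zero fun k' _ => ?_
    simp only [rgt, Matrix.of_apply]
    rw [if_neg hs, mul_zero]
  · intro h
    exact absurd (Finset.mem_univ _) h

theorem NF4_blk_rgt (P : Matrix α α ℂ) (Q : Matrix β β ℂ) (r : Matrix μ μ ℂ) :
    blk μ P Q * rgt α β r = rgt α β r * blk μ P Q := by
  ext ⟨s, k⟩ ⟨s', k'⟩
  rw [NF4_mul_rgt, Matrix.mul_apply, Fintype.sum_prod_type, Finset.sum_eq_single s]
  · simp only [blk, rgt, Matrix.of_apply, if_true]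
    rw [Finset.sum_eq_single k, Finset.sum_eq_single k']
    · simp only [if_true]
      rcases s with s | s <;> rcases s' with s' | s' <;> simp [mul_comm]
    · intro y _ hy
      rw [if_neg hy, mul_zero]
    · intro h
      exact absurd (Finset.mem_univ _) h
    · intro y _ hy
      rw [if_neg (Ne.symm hy), mul_zero]
    · intro h
      exact absurd (Finset.mem_univ _) h
  · intro s'' _ hs
    refine Finset.sum_eq_zero fun y _ => ?_
    simp only [rgt, Matrix.of_apply]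
    rw [if_neg (Ne.symm hs), zero_mul]
  · intro h
    exact absurd (Finset.mem_univ _) h

end blk

/-- inverses of algebraic matrices are algebraic -/
theorem NF4_alg_inv {κ l : Type} [Fintype κ] [Fintype l] [DecidableEq κ] [DecidableEq l]
    {X : Matrix κ l ℂ} {Y : Matrix l κ ℂ} (hX : ∀ i j, IsAlgebraic ℚ (X i j)) (h1 : X * Y = 1)
    (h2 : Y * X = 1) (i : l) (j : κ) : IsAlgebraic ℚ (Y i j) := by
  rw [GAM.thm_Der]
  intro δ
  have h3 : Y.map δ * X = 0 := by
    ext a b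
    have e1 := congrArg (fun Z : Matrix l l ℂ => δ (Z a b)) h2
    simp only [Matrix.mul_apply, map_sum, Derivation.leibniz, smul_eq_mul] at e1
    have e2 : ∀ x y, δ (X x y) = 0 := fun x y => (GAM.thm_Der _).1 (hX x y) δ
    simp only [e2, mul_zero, zero_add] at e1
    have e3 : δ ((1 : Matrix l l ℂ) a b) = 0 := by
      rw [Matrix.one_apply]
      split_ifs
      · exact Derivation.map_one_eq_zero δ
      · exact map_zero δ
    rw [e3] at e1
    rw [Matrix.mul_apply, Matrix.zero_apply, ← e1]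
    exact Finset.sum_congr rfl fun x _ => by rw [Matrix.map_apply, mul_comm]
  have h4 : Y.map δ = 0 := by
    calc Y.map δ = Y.map δ * (X * Y) := by rw [h1, Matrix.mul_one]
      _ = 0 := by rw [← Matrix.mul_assoc, h3, Matrix.zero_mul]
  exact congrFun (congrFun h4 i) j

end NF4

theorem thm_NF4 : St_NF4 := by
  intro g p d Hm A W J t P hL hPr h3
  classical
  have hM := NF4_pos hL.herm hL.pd
  have hPP : ∀ k, P k * P k = P k := fun k => by
    have := hPr.orth k k
    rwa [if_pos rfl] at this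
  have hPl : ∀ k l, k ≠ l → P k * P l = 0 := fun k l hkl => by
    have := hPr.orth k l
    rwa [if_neg hkl] at this
  have hMH : (Hmᵀ)ᴴ = Hmᵀ := hM.isHermitian
  have hMP : ∀ k, Hmᵀ * P k = (P k)ᴴ * Hmᵀ := fun k => NF4_adj (hPr.adj k)
  set k₀ : Fin p := ⟨0, hL.prime.pos⟩ with hk₀
  have hMJ : Hmᵀ * J = -(Jᴴ * Hmᵀ) := by
    have h1 : ∀ z w, hermForm Hm (J.mulVec z) w = hermForm Hm z ((-J).mulVec w) := by
      intro z w
      rw [hL.Jadj]
      unfold hermForm
      simp only [Matrix.neg_mulVec, Pi.neg_apply, map_neg, mul_neg, Finset.sum_neg_distrib]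
    have h2 := NF4_adj h1
    rw [h2, Matrix.conjTranspose_neg, Matrix.neg_mul]
  have hJalg : ∀ i j, IsAlgebraic ℚ (J i j) := hL.alg J hL.JA
  obtain ⟨U, w, hU1, hU2, hU3, hU4, hU5, hU6, hU7, hU8⟩ := NF4_U hL hPr h3 k₀
  obtain ⟨α, β, i1, i2, i3, i4, B', a, b, hB1, ha, hb, hB2, hB3, hB4, hB5, hB6⟩ :=
    NF4_B (M := Hmᵀ) (P₀ := P k₀) hL.pos hM (hPP k₀) (hPr.jk k₀) (hMP k₀) hL.J2 hMJ (hPr.alg k₀)
      hJalg
  set B := B' * Matrix.fromBlocks a 0 0 b with hB
  -- the number of coordinates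
  have hcard : Fintype.card (α ⊕ β) = p := by
    have h1 : ∀ k, (P k).trace = (P k₀).trace := by
      intro k
      rw [← hU3 k, Matrix.trace_mul_comm, hU2]
    have h2 : (P k₀).trace = (Fintype.card (α ⊕ β) : ℂ) := by
      rw [hB6, Matrix.trace_mul_comm, hB5, Matrix.trace_one]
    have h4 : ∑ k, (P k).trace = (g : ℂ) := by
      rw [← Matrix.trace_sum, hPr.sum, Matrix.trace_one, Fintype.card_fin]
    rw [Finset.sum_congr rfl fun k _ => (h1 k).trans h2, Finset.sum_const, Finset.card_univ,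
      Fintype.card_fin, nsmul_eq_mul, hL.dim] at h4
    have h5 : p * Fintype.card (α ⊕ β) = p ^ 2 := by exact_mod_cast h4
    rw [pow_two] at h5
    exact Nat.eq_of_mul_eq_mul_left hL.prime.pos h5
  let τ : α ⊕ β ≃ Fin p := Fintype.equivFinOfCardEq hcard
  set S : Matrix (Fin g) (Ix α β (α ⊕ β)) ℂ := Matrix.of fun i q => (U (τ q.2) * B) i q.1 with hS
  set Sa : Matrix (Fin g) (Ix α β (α ⊕ β)) ℂ := Matrix.of fun i q => (U (τ q.2) * B') i q.1
    with hSa
  set T : Matrix (Ix α β (α ⊕ β)) (Fin g) ℂ := Sᴴ * Hmᵀ with hT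
  have hTS : T * S = 1 := by
    ext ⟨s, κ⟩ ⟨s', κ'⟩
    have e1 : (T * S) (s, κ) (s', κ') = ((U (τ κ) * B)ᴴ * Hmᵀ * (U (τ κ') * B)) s s' := by
      rw [hT]
      simp only [Matrix.mul_apply, Matrix.conjTranspose_apply, hS, Matrix.of_apply]
    have e2 : (U (τ κ) * B)ᴴ * Hmᵀ * (U (τ κ') * B) = Bᴴ * Hmᵀ * (w (τ κ) * U (τ κ')) * B := by
      calc (U (τ κ) * B)ᴴ * Hmᵀ * (U (τ κ') * B) =
            Bᴴ * ((U (τ κ))ᴴ * Hmᵀ) * (U (τ κ') * B) := by
              rw [Matrix.conjTranspose_mul]; simp only [Matrix.mul_assoc]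
        _ = _ := by rw [hU1]; simp only [Matrix.mul_assoc]
    rw [e1, e2, Matrix.one_apply]
    by_cases h : κ = κ'
    · subst h
      rw [hU2]
      have e3 : Bᴴ * Hmᵀ * P k₀ * B = Bᴴ * Hmᵀ * B := by
        rw [Matrix.mul_assoc, hB2]
      rw [e3, hB5, Matrix.one_apply]
      simp
    · have e3 : w (τ κ) * U (τ κ') = 0 := by
        rw [← hU5, ← hU4 (τ κ'), ← Matrix.mul_assoc, Matrix.mul_assoc (w (τ κ)),
          hPl _ _ (fun h' => h (τ.injective h')), Matrix.mul_zero, Matrix.zero_mul]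
      rw [e3, Matrix.mul_zero, Matrix.zero_mul, Matrix.zero_apply, if_neg]
      rintro h'
      exact h (congrArg Prod.snd h')
  have hcardI : Fintype.card (Ix α β (α ⊕ β)) = Fintype.card (Fin g) := by
    rw [Fintype.card_prod, hcard, Fintype.card_fin, hL.dim, pow_two]
  have hST : S * T = 1 := (Matrix.mul_eq_one_comm_of_card_eq _ _ _ hcardI).1 hTS
  have hSeq : S = Sa * blk (α ⊕ β) a b := by
    ext i ⟨s, κ⟩
    rw [Matrix.mul_apply, Fintype.sum_prod_type]
    simp only [hS, hSa, Matrix.of_apply, blk]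
    rw [hB, ← Matrix.mul_assoc, Matrix.mul_apply]
    refine Finset.sum_congr rfl fun s' _ => ?_
    rw [Finset.sum_eq_single κ]
    · rw [if_pos rfl]
    · intro y _ hy
      rw [if_neg hy, mul_zero]
    · intro h
      exact absurd (Finset.mem_univ _) h
  have ha' : IsUnit a.det := (Matrix.isUnit_iff_isUnit_det a).1 ha
  have hb' : IsUnit b.det := (Matrix.isUnit_iff_isUnit_det b).1 hb
  have hblk1 : blk (α ⊕ β) a⁻¹ b⁻¹ * blk (α ⊕ β) a b = 1 := by
    rw [NF4_blk_mul, Matrix.nonsing_inv_mul _ ha', Matrix.nonsing_inv_mul _ hb', NF4_blk_one]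
  have hblk2 : blk (α ⊕ β) a b * blk (α ⊕ β) a⁻¹ b⁻¹ = 1 := by
    rw [NF4_blk_mul, Matrix.mul_nonsing_inv _ ha', Matrix.mul_nonsing_inv _ hb', NF4_blk_one]
  have hSaalg : ∀ i q, IsAlgebraic ℚ (Sa i q) := fun i q => NF4_alg_mul (hU7 _) hB1 i q.1
  have hSaeq : Sa = S * blk (α ⊕ β) a⁻¹ b⁻¹ := by
    rw [hSeq, Matrix.mul_assoc, hblk2, Matrix.mul_one]
  have hTaSa : (blk (α ⊕ β) a b * T) * Sa = 1 := by
    rw [hSaeq, Matrix.mul_assoc, ← Matrix.mul_assoc T, hTS, Matrix.one_mul, hblk2]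
  have hSaTa : Sa * (blk (α ⊕ β) a b * T) = 1 := by
    rw [← Matrix.mul_assoc, ← hSeq, hST]
  have hTaalg : ∀ q i, IsAlgebraic ℚ ((blk (α ⊕ β) a b * T) q i) :=
    NF4_alg_inv hSaalg hSaTa hTaSa
  -- endomorphisms
  have hconj : ∀ (N : Matrix (Fin g) (Fin g) ℂ) (r : Matrix (α ⊕ β) (α ⊕ β) ℂ),
      N * S = S * rgt α β r → T * N * S = rgt α β r := by
    intro N r h
    rw [Matrix.mul_assoc, h, ← Matrix.mul_assoc, hTS, Matrix.one_mul]
  have hNS : ∀ (N : Matrix (Fin g) (Fin g) ℂ) (i : Fin g) (s κ : α ⊕ β),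
      (N * S) i (s, κ) = (N * (U (τ κ) * B)) i s := by
    intro N i s κ
    simp only [Matrix.mul_apply, hS, Matrix.of_apply]
  have hJX : ∀ κ : α ⊕ β, J * (U (τ κ) * B) = U (τ κ) * (J * B) := by
    intro κ
    rw [← Matrix.mul_assoc, hU6, Matrix.mul_assoc]
  have hJXp : ∀ (κ : α ⊕ β) (i : Fin g) (s : α), (J * (U (τ κ) * B)) i (Sum.inl s) =
      zd d * (U (τ κ) * B) i (Sum.inl s) := by
    intro κ i s
    rw [hJX, Matrix.mul_apply, Matrix.mul_apply, Finset.mul_sum]
    refine Finset.sum_congr rfl fun j _ => ?_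
    rw [hB3]
    ring
  have hJXm : ∀ (κ : α ⊕ β) (i : Fin g) (s : β), (J * (U (τ κ) * B)) i (Sum.inr s) =
      -zd d * (U (τ κ) * B) i (Sum.inr s) := by
    intro κ i s
    rw [hJX, Matrix.mul_apply, Matrix.mul_apply, Finset.mul_sum]
    refine Finset.sum_congr rfl fun j _ => ?_
    rw [hB4]
    ring
  have hact : ∀ m ∈ A, ∃ r : Matrix (α ⊕ β) (α ⊕ β) ℂ, T * m * S = rgt α β r := by
    intro m hm
    choose e he using fun k l => hU8 k l m hm
    refine ⟨Matrix.of fun κ κ' => e (τ κ') (τ κ), hconj _ _ ?_⟩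
    ext i ⟨s, κ⟩
    rw [hNS, NF4_mul_rgt]
    have e1 : m * (U (τ κ) * B) = ∑ k, scal d J (e k (τ κ)) * (U k * B) := by
      calc m * (U (τ κ) * B) = (∑ k, P k) * (m * (U (τ κ) * B)) := by
            rw [hPr.sum, Matrix.one_mul]
        _ = ∑ k, P k * (m * (U (τ κ) * B)) := Matrix.sum_mul _ _ _
        _ = ∑ k, scal d J (e k (τ κ)) * (U k * B) := by
            refine Finset.sum_congr rfl fun k _ => ?_
            have hcomm : U k * scal d J (e k (τ κ)) = scal d J (e k (τ κ)) * U k := by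
              unfold scal
              rw [Matrix.mul_add, Matrix.add_mul, Matrix.mul_smul, Matrix.mul_smul,
                Matrix.smul_mul, Matrix.smul_mul, Matrix.mul_one, Matrix.one_mul, hU6]
            have hUP : U k * P k₀ = U k := by
              rw [← hU2 k, ← Matrix.mul_assoc, hU3, hU4]
            calc P k * (m * (U (τ κ) * B)) = U k * (w k * m * U (τ κ)) * B := by
                  rw [← hU3 k]; simp only [Matrix.mul_assoc]
              _ = (U k * scal d J (e k (τ κ))) * P k₀ * B := by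
                  rw [he]; simp only [Matrix.mul_assoc]
              _ = scal d J (e k (τ κ)) * (U k * P k₀) * B := by
                  rw [hcomm]; simp only [Matrix.mul_assoc]
              _ = _ := by rw [hUP]; simp only [Matrix.mul_assoc]
    rw [e1, Matrix.sum_apply, ← τ.sum_comp]
    refine Finset.sum_congr rfl fun κ' _ => ?_
    simp only [hS, Matrix.of_apply]
    rcases s with s | s
    · exact (NF4_scal hL.pos J _ _ i (Sum.inl s)).1 (hJXp κ' i s)
    · exact (NF4_scal hL.pos J _ _ i (Sum.inr s)).2 (hJXm κ' i s)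
  have hne : Nonempty (α ⊕ β) := by
    rw [← Fintype.card_pos_iff, hcard]
    exact hL.prime.pos
  refine ⟨α, β, i1, i2, i3, i4, T, S, a⁻¹, b⁻¹, blk (α ⊕ β) a b * T, ⟨?_, hTS, hST, ?_, ?_, ?_,
    ?_, hTaalg, ?_, ?_, ?_⟩⟩
  · rw [← Fintype.card_sum, hcard]
  · intro z v
    have hTH : Tᴴ = Hmᵀ * S := by
      rw [hT, Matrix.conjTranspose_mul, Matrix.conjTranspose_conjTranspose, hMH]
    have hTT : Tᴴ * T = Hmᵀ := by
      rw [hTH, Matrix.mul_assoc, hST, Matrix.mul_one]
    have hent : ∀ a b, ∑ q, T q a * conj (T q b) = Hm a b := by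
      intro a b
      have := congrFun (congrFun hTT b) a
      simp only [Matrix.mul_apply, Matrix.conjTranspose_apply, Matrix.transpose_apply] at this
      rw [← this]
      exact Finset.sum_congr rfl fun q _ => mul_comm _ _
    unfold hermForm H
    simp only [Matrix.mulVec, dotProduct, map_sum, map_mul, ← hent, Finset.mul_sum,
      Finset.sum_mul]
    calc ∑ a, ∑ b, ∑ q, z a * (T q a * conj (T q b)) * conj (v b) =
          ∑ a, ∑ q, ∑ b, z a * (T q a * conj (T q b)) * conj (v b) :=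
            Finset.sum_congr rfl fun a _ => Finset.sum_comm
      _ = ∑ q, ∑ a, ∑ b, z a * (T q a * conj (T q b)) * conj (v b) := Finset.sum_comm
      _ = _ := Finset.sum_congr rfl fun q _ => by
            rw [Finset.sum_comm]
            exact Finset.sum_congr rfl fun b _ => Finset.sum_congr rfl fun a _ => by ring
  · exact (Matrix.isUnit_nonsing_inv_det a ha').ne_zero
  · exact (Matrix.isUnit_nonsing_inv_det b hb').ne_zero
  · rw [← Matrix.mul_assoc, hblk1, Matrix.one_mul]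
  · intro m hm
    obtain ⟨r, hr⟩ := hact m hm
    refine ⟨r, ?_, hr⟩
    have e1 : (blk (α ⊕ β) a b * T) * m * Sa = rgt α β r := by
      calc (blk (α ⊕ β) a b * T) * m * Sa =
            blk (α ⊕ β) a b * (T * m * S) * blk (α ⊕ β) a⁻¹ b⁻¹ := by
              rw [hSaeq]; simp only [Matrix.mul_assoc]
        _ = rgt α β r := by
              rw [hr, NF4_blk_rgt, Matrix.mul_assoc, hblk2, Matrix.mul_one]
    have e2 : ∀ q q', IsAlgebraic ℚ ((rgt α β r) q q') := by
      intro q q'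
      rw [← e1]
      exact NF4_alg_mul (NF4_alg_mul hTaalg (hL.alg m hm)) hSaalg q q'
    intro l k
    obtain ⟨s⟩ := hne
    have e3 := e2 (s, k) (s, l)
    simp only [rgt, Matrix.of_apply, if_true] at e3
    rcases s with s | s
    · exact e3
    · have e4 : IsAlgebraic ℚ (conj (r l k)) := e3
      have e5 := e4.algHom ((starRingEnd ℂ : ℂ →+* ℂ).toRatAlgHom)
      have e6 : ((starRingEnd ℂ : ℂ →+* ℂ).toRatAlgHom) (conj (r l k)) = r l k :=
        Complex.conj_conj _
      rw [e6] at e5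
      exact e5
  · apply hconj
    ext i ⟨s, κ⟩
    rw [hNS, NF4_mul_rgt, Finset.sum_eq_single κ]
    · simp only [hS, Matrix.of_apply, Matrix.smul_apply, Matrix.one_apply_eq, smul_eq_mul,
        mul_one]
      rcases s with s | s
      · exact hJXp κ i s
      · have := hJXm κ i s
        rw [(NF4_zd hL.pos).2.2.1.symm] at this
        exact this
    · intro κ' _ hκ
      rcases s with s | s <;> simp [Matrix.one_apply_ne (Ne.symm hκ)]
    · intro h
      exact absurd (Finset.mem_univ _) h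
  · refine ⟨∑ k, (t k : ℂ) • P k, hPr.y, fun s => t (τ s), ?_, ?_⟩
    · intro x y hxy
      exact τ.injective (hPr.inj hxy)
    · apply hconj
      ext i ⟨s, κ⟩
      rw [hNS, NF4_mul_rgt, Finset.sum_eq_single κ]
      · have e1 : (∑ k, (t k : ℂ) • P k) * (U (τ κ) * B) = (t (τ κ) : ℂ) • (U (τ κ) * B) := by
          rw [Matrix.sum_mul, Finset.sum_eq_single (τ κ)]
          · rw [Matrix.smul_mul, ← Matrix.mul_assoc, hU4]
          · intro k _ hk
            have e2 : P k * (U (τ κ) * B) = 0 := by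
              rw [← Matrix.mul_assoc, ← hU4 (τ κ), ← Matrix.mul_assoc (P k), hPl _ _ hk,
                Matrix.zero_mul, Matrix.zero_mul]
            rw [Matrix.smul_mul, e2, smul_zero]
          · intro h
            exact absurd (Finset.mem_univ _) h
        rw [e1, Matrix.smul_apply, smul_eq_mul]
        simp only [hS, Matrix.of_apply, Matrix.diagonal_apply_eq]
        rcases s with s | s
        · rfl
        · simp only [Sum.elim_inr, Complex.conj_ofReal]
      · intro κ' _ hκ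
        rcases s with s | s <;> simp [Matrix.diagonal_apply_ne _ (Ne.symm hκ)]
      · intro h
        exact absurd (Finset.mem_univ _) h

end PST
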