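import Pool.Agent.PST.NF3

/-!
# PST [NF5]: from the first version to the normal form
-/

set_option autoImplicit false

namespace PST

open scoped ComplexConjugate
open GAM (H E F pd pdl PLat IsTh OddTor IsDel Gro IsLat Pre QD qd jac HasExp CMF CMT IsExp IsCM)
open Pool.Agent.GPC (AbVar hermForm bilForm)
open Module

section

variable {g p : ℕ} {d : ℚ} {Hm : Matrix (Fin g) (Fin g) ℂ}
  {A : Subalgebra ℚ (Matrix (Fin g) (Fin g) ℂ)} {W : Submodule ℚ (Fin g → ℂ)}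
  {J : Matrix (Fin g) (Fin g) ℂ}
  {α β : Type} [Fintype α] [Fintype β] [DecidableEq α] [DecidableEq β]

theorem NF5_ext (h4 : St_CorA) {M N : Matrix (Ix α β (α ⊕ β)) (Ix α β (α ⊕ β)) ℂ}
    (h : ∀ X : Matrix (α ⊕ β) (α ⊕ β) ℂ, M.mulVec (cor X) = N.mulVec (cor X)) : M = N := by
  ext i j
  obtain ⟨X, hX⟩ := (h4 α β).1.2 (Pi.single j 1)
  have h1 := congrFun (h X) i
  rw [hX, Matrix.mulVec_single_one, Matrix.mulVec_single_one] at h1
  exact h1

theorem NF5_mv (h4 : St_CorA) (r X : Matrix (α ⊕ β) (α ⊕ β) ℂ) :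
    (rgt α β r).mulVec (cor X) = cor (X * r) := (h4 α β).2.2.2.2.1 r X

theorem NF5_inj (h4 : St_CorA) {r r' : Matrix (α ⊕ β) (α ⊕ β) ℂ}
    (h : rgt α β r = rgt α β r') : r = r' := by
  have h1 := NF5_mv h4 r 1
  rw [h, NF5_mv h4, Matrix.one_mul, Matrix.one_mul] at h1
  exact ((h4 α β).1.1 h1).symm

theorem NF5_add (h4 : St_CorA) (r r' : Matrix (α ⊕ β) (α ⊕ β) ℂ) :
    rgt α β (r + r') = rgt α β r + rgt α β r' := by
  apply NF5_ext h4
  intro X
  rw [NF5_mv h4, Matrix.add_mulVec, NF5_mv h4, NF5_mv h4, Matrix.mul_add, (h4 α β).2.1]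

theorem NF5_smul (h4 : St_CorA) (s : ℝ) (r : Matrix (α ⊕ β) (α ⊕ β) ℂ) :
    rgt α β ((s : ℂ) • r) = (s : ℂ) • rgt α β r := by
  apply NF5_ext h4
  intro X
  rw [NF5_mv h4, Matrix.smul_mulVec, NF5_mv h4, Matrix.mul_smul, (h4 α β).2.2.1]

theorem NF5_one (h4 : St_CorA) : rgt α β (1 : Matrix (α ⊕ β) (α ⊕ β) ℂ) = 1 := by
  apply NF5_ext h4
  intro X
  rw [NF5_mv h4, Matrix.mul_one, Matrix.one_mulVec]

theorem NF5_qs {κ : Type} (q : ℚ) (M : Matrix κ κ ℂ) : q • M = ((q : ℝ) : ℂ) • M := by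
  ext i j
  rw [Matrix.smul_apply, Matrix.smul_apply, Algebra.smul_def, smul_eq_mul, Complex.ofReal_ratCast]
  rfl

/-- the algebra of right multiplications -/
def NF5_R (h4 : St_CorA) (T : Matrix (Ix α β (α ⊕ β)) (Fin g) ℂ)
    (S : Matrix (Fin g) (Ix α β (α ⊕ β)) ℂ) (ts : T * S = 1) (st : S * T = 1)
    (A : Subalgebra ℚ (Matrix (Fin g) (Fin g) ℂ)) :
    Subalgebra ℚ (Matrix (α ⊕ β) (α ⊕ β) ℂ) where
  carrier := {r | ∃ m ∈ A, T * m * S = rgt α β r}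
  mul_mem' := by
    rintro r r' ⟨m, hm, h⟩ ⟨m', hm', h'⟩
    refine ⟨m' * m, A.mul_mem hm' hm, ?_⟩
    rw [(h4 α β).2.2.2.2.2.2.1, ← h, ← h']
    calc T * (m' * m) * S = T * m' * (1 : Matrix (Fin g) (Fin g) ℂ) * m * S := by
          rw [Matrix.mul_one]
          simp only [Matrix.mul_assoc]
      _ = T * m' * (S * T) * m * S := by rw [st]
      _ = T * m' * S * (T * m * S) := by simp only [Matrix.mul_assoc]
  add_mem' := by
    rintro r r' ⟨m, hm, h⟩ ⟨m', hm', h'⟩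
    refine ⟨m + m', A.add_mem hm hm', ?_⟩
    rw [NF5_add h4, ← h, ← h', Matrix.mul_add, Matrix.add_mul]
  algebraMap_mem' := by
    intro q
    refine ⟨algebraMap ℚ _ q, A.algebraMap_mem q, ?_⟩
    rw [Algebra.algebraMap_eq_smul_one, Algebra.algebraMap_eq_smul_one, NF5_qs, NF5_qs,
      NF5_smul h4, NF5_one h4, Matrix.mul_smul, Matrix.smul_mul, Matrix.mul_one, ts]

variable {T : Matrix (Ix α β (α ⊕ β)) (Fin g) ℂ} {S : Matrix (Fin g) (Ix α β (α ⊕ β)) ℂ}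
  {Tp : Matrix α α ℂ} {Tm : Matrix β β ℂ} {Ta : Matrix (Ix α β (α ⊕ β)) (Fin g) ℂ}

theorem NF5_TS (ts : T * S = 1) (v : Ix α β (α ⊕ β) → ℂ) : T.mulVec (S.mulVec v) = v := by
  rw [Matrix.mulVec_mulVec, ts, Matrix.one_mulVec]

theorem NF5_ST (st : S * T = 1) (v : Fin g → ℂ) : S.mulVec (T.mulVec v) = v := by
  rw [Matrix.mulVec_mulVec, st, Matrix.one_mulVec]

theorem NF5_Tm (st : S * T = 1) {m : Matrix (Fin g) (Fin g) ℂ}
    {r : Matrix (α ⊕ β) (α ⊕ β) ℂ} (h : T * m * S = rgt α β r) (v : Fin g → ℂ) :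
    T.mulVec (m.mulVec v) = (rgt α β r).mulVec (T.mulVec v) := by
  rw [← h]
  conv_lhs => rw [← NF5_ST st v]
  simp only [Matrix.mulVec_mulVec, Matrix.mul_assoc]

/-- the members of `W` -/
theorem NF5_W (h4 : St_CorA) (hL : LD g p d Hm A W J) (hN : NFo p d Hm A J α β T S Tp Tm Ta)
    {w₀ : Fin g → ℂ} (hw : w₀ ∈ W) (hw0 : w₀ ≠ 0) {X₀ : Matrix (α ⊕ β) (α ⊕ β) ℂ}
    (hX : cor X₀ = T.mulVec w₀) (z : Fin g → ℂ) :
    z ∈ W ↔ ∃ r ∈ NF5_R h4 T S hN.ts hN.st A, T.mulVec z = cor (X₀ * r) := by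
  constructor
  · intro hz
    obtain ⟨m, hm, rfl⟩ := hL.trans w₀ hw hw0 z hz
    obtain ⟨r, -, hr⟩ := hN.act m hm
    exact ⟨r, ⟨m, hm, hr⟩, by rw [NF5_Tm hN.st hr, ← hX, NF5_mv h4]⟩
  · rintro ⟨r, ⟨m, hm, hr⟩, h⟩
    rw [← NF5_mv h4, hX, ← NF5_Tm hN.st hr] at h
    have h1 := congrArg (fun v => S.mulVec v) h
    simp only [NF5_ST hN.st] at h1
    rw [h1]
    exact hL.stab m hm w₀ hw

/-- every matrix is `X₀ M`, `M` in the real span of `R` -/
theorem NF5_sp (h4 : St_CorA) (hL : LD g p d Hm A W J)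
    (hN : NFo p d Hm A J α β T S Tp Tm Ta)
    {w₀ : Fin g → ℂ} (hw : w₀ ∈ W) (hw0 : w₀ ≠ 0) {X₀ : Matrix (α ⊕ β) (α ⊕ β) ℂ}
    (hX : cor X₀ = T.mulVec w₀) (M : Matrix (α ⊕ β) (α ⊕ β) ℂ) :
    ∃ M' ∈ Submodule.span ℝ ((NF5_R h4 T S hN.ts hN.st A : Set (Matrix (α ⊕ β) (α ⊕ β) ℂ))),
      M = X₀ * M' := by
  obtain ⟨b, hb⟩ := hL.basis
  have hfin : Fintype.card (Fin g ⊕ Fin g) = Module.finrank ℝ (Fin g → ℂ) := by
    rw [finrank_real_of_complex, Module.finrank_fin_fun, Fintype.card_sum, Fintype.card_fin]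
    ring
  have hne : Nonempty (Fin g ⊕ Fin g) := ⟨Sum.inl ⟨0, NF3_gpos hL⟩⟩
  have hspan := hb.span_eq_top_of_card_eq_finrank' hfin
  have hmem : S.mulVec (cor M) ∈ Submodule.span ℝ (Set.range fun i => (b i : Fin g → ℂ)) := by
    rw [hspan]
    exact Submodule.mem_top
  rw [Submodule.mem_span_range_iff_exists_fun] at hmem
  obtain ⟨c, hc⟩ := hmem
  have h1 : ∀ k, ∃ r ∈ NF5_R h4 T S hN.ts hN.st A, T.mulVec (b k) = cor (X₀ * r) := fun k =>
    (NF5_W h4 hL hN hw hw0 hX _).mp (b k).2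
  choose r hr hrb using h1
  refine ⟨∑ k, (c k : ℝ) • r k, Submodule.sum_mem _ fun k _ => Submodule.smul_mem _ _
    (Submodule.subset_span (hr k)), ?_⟩
  have h2 : cor M = cor (X₀ * ∑ k, (c k : ℝ) • r k) := by
    have hsum : ∀ (s : Finset (Fin g ⊕ Fin g)), cor (X₀ * ∑ k ∈ s, (c k : ℝ) • r k) =
        ∑ k ∈ s, (c k : ℂ) • cor (X₀ * r k) := by
      classical
      intro s
      induction s using Finset.induction_on with
      | empty =>
        rw [Finset.sum_empty, Finset.sum_empty, Matrix.mul_zero]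
        have h0 := (h4 α β).2.1 0 0
        rw [add_zero] at h0
        exact left_eq_add.mp h0
      | insert a s ha ih =>
        rw [Finset.sum_insert ha, Finset.sum_insert ha, Matrix.mul_add, (h4 α β).2.1, ih]
        congr 1
        rw [← (h4 α β).2.2.1]
        congr 1
        rw [Matrix.mul_smul]
        ext i j
        simp [Matrix.smul_apply]
    rw [hsum]
    rw [← NF5_TS hN.ts (cor M), ← hc]
    rw [Matrix.mulVec_sum]
    refine Finset.sum_congr rfl fun k _ => ?_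
    rw [← hrb]
    have h3 : (c k) • (b k : Fin g → ℂ) = (c k : ℂ) • (b k : Fin g → ℂ) := by
      funext i
      simp [Pi.smul_apply]
    rw [h3, Matrix.mulVec_smul]
  exact (h4 α β).1.1 h2

theorem NF5_det (h4 : St_CorA) (hL : LD g p d Hm A W J)
    (hN : NFo p d Hm A J α β T S Tp Tm Ta)
    {w₀ : Fin g → ℂ} (hw : w₀ ∈ W) (hw0 : w₀ ≠ 0) {X₀ : Matrix (α ⊕ β) (α ⊕ β) ℂ}
    (hX : cor X₀ = T.mulVec w₀) : X₀.det ≠ 0 := by
  obtain ⟨M, -, hM⟩ := NF5_sp h4 hL hN hw hw0 hX 1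
  intro h
  have h1 := congrArg Matrix.det hM
  rw [Matrix.det_one, Matrix.det_mul, h, zero_mul] at h1
  exact one_ne_zero h1

theorem NF5_spR (h4 : St_CorA) (hL : LD g p d Hm A W J)
    (hN : NFo p d Hm A J α β T S Tp Tm Ta)
    {w₀ : Fin g → ℂ} (hw : w₀ ∈ W) (hw0 : w₀ ≠ 0) {X₀ : Matrix (α ⊕ β) (α ⊕ β) ℂ}
    (hX : cor X₀ = T.mulVec w₀) :
    Submodule.span ℂ ((NF5_R h4 T S hN.ts hN.st A : Set (Matrix (α ⊕ β) (α ⊕ β) ℂ))) = ⊤ := by
  rw [eq_top_iff]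
  rintro M -
  obtain ⟨M', hM', h⟩ := NF5_sp h4 hL hN hw hw0 hX (X₀ * M)
  have hd := NF5_det h4 hL hN hw hw0 hX
  have h1 : M = M' := by
    have h2 := congrArg (fun N => X₀⁻¹ * N) h
    simp only [← Matrix.mul_assoc, Matrix.nonsing_inv_mul X₀ (isUnit_iff_ne_zero.mpr hd),
      Matrix.one_mul] at h2
    exact h2
  rw [h1]
  clear h h1
  induction hM' using Submodule.span_induction with
  | mem x hx => exact Submodule.subset_span hx
  | zero => exact Submodule.zero_mem _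
  | add x y _ _ hx hy => exact Submodule.add_mem _ hx hy
  | smul r x _ hx =>
    have h2 : r • x = (r : ℂ) • x := by
      ext i j
      simp [Matrix.smul_apply]
    rw [h2]
    exact Submodule.smul_mem _ _ hx

theorem NF5_rat (h4 : St_CorA) (hL : LD g p d Hm A W J)
    (hN : NFo p d Hm A J α β T S Tp Tm Ta)
    {w₀ : Fin g → ℂ} (hw : w₀ ∈ W) (hw0 : w₀ ≠ 0) {X₀ : Matrix (α ⊕ β) (α ⊕ β) ℂ}
    (hX : cor X₀ = T.mulVec w₀) :
    ∀ r ∈ NF5_R h4 T S hN.ts hN.st A, ∀ r' ∈ NF5_R h4 T S hN.ts hN.st A, ∃ q : ℚ,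
      ((X₀ * r').conjTranspose * Jm α β * (X₀ * r)).trace.im = q := by
  have key : ∀ r ∈ NF5_R h4 T S hN.ts hN.st A, ∃ w ∈ W, T.mulVec w = cor (X₀ * r) := by
    intro r hr
    have h1 : T.mulVec (S.mulVec (cor (X₀ * r))) = cor (X₀ * r) := NF5_TS hN.ts _
    exact ⟨_, (NF5_W h4 hL hN hw hw0 hX _).mpr ⟨r, hr, h1⟩, h1⟩
  intro r hr r' hr'
  obtain ⟨w, hwW, hwr⟩ := key r hr
  obtain ⟨w', hwW', hwr'⟩ := key r' hr'
  obtain ⟨q, hq⟩ := hL.rat w hwW w' hwW'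
  refine ⟨q, ?_⟩
  rw [← (h4 α β).2.2.2.2.2.1, ← hwr, ← hwr', ← hq, hN.herm]
  rfl

theorem NF5_star (h4 : St_CorA) (hL : LD g p d Hm A W J)
    (hN : NFo p d Hm A J α β T S Tp Tm Ta) {m m' : Matrix (Fin g) (Fin g) ℂ}
    (hadj : ∀ z w, hermForm Hm (m.mulVec z) w = hermForm Hm z (m'.mulVec w))
    {r : Matrix (α ⊕ β) (α ⊕ β) ℂ} (hr : T * m * S = rgt α β r) :
    T * m' * S = rgt α β r.conjTranspose := by
  rw [(h4 α β).2.2.2.2.2.2.2.1, ← hr]
  have key : ∀ x y : Ix α β (α ⊕ β) → ℂ, H ((T * m * S).mulVec x) y =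
      H x ((T * m' * S).mulVec y) := by
    intro x y
    have h1 := hadj (S.mulVec x) (S.mulVec y)
    rw [hN.herm, hN.herm, NF5_TS hN.ts, NF5_TS hN.ts] at h1
    simp only [Matrix.mulVec_mulVec, ← Matrix.mul_assoc] at h1
    exact h1
  ext i j
  rw [Matrix.conjTranspose_apply]
  have h1 := key (Pi.single i 1) (Pi.single j 1)
  rw [Matrix.mulVec_single_one, Matrix.mulVec_single_one] at h1
  unfold H at h1
  simp only [Pi.single_apply, Matrix.col_apply, ite_mul, one_mul, zero_mul,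
    Finset.sum_ite_eq', Finset.mem_univ, if_true, apply_ite (starRingEnd ℂ), map_one, map_zero,
    mul_ite, mul_one, mul_zero] at h1
  rw [h1]
  simp

/-- a change of phases -/
theorem NF5_ph (hN : NFo p d Hm A J α β T S Tp Tm Ta) (v : α ⊕ β → ℂ)
    (hv : ∀ s, v s * conj (v s) = 1) :
    NFo p d Hm A J α β ((Matrix.diagonal fun q : Ix α β (α ⊕ β) => v q.1) * T)
      (S * Matrix.diagonal fun q : Ix α β (α ⊕ β) => conj (v q.1))
      (Matrix.diagonal (fun i => v (Sum.inl i)) * Tp)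
      (Matrix.diagonal (fun i => v (Sum.inr i)) * Tm) Ta := by
  have hv' : ∀ s, conj (v s) * v s = 1 := fun s => by rw [mul_comm]; exact hv s
  have hne : ∀ s, v s ≠ 0 := fun s h => by
    have := hv s
    rw [h, zero_mul] at this
    exact zero_ne_one this
  have hDD : (Matrix.diagonal fun q : Ix α β (α ⊕ β) => v q.1) *
      (Matrix.diagonal fun q : Ix α β (α ⊕ β) => conj (v q.1)) = 1 := by
    rw [Matrix.diagonal_mul_diagonal]
    simp only [hv]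
    exact Matrix.diagonal_one
  have hDD' : (Matrix.diagonal fun q : Ix α β (α ⊕ β) => conj (v q.1)) *
      (Matrix.diagonal fun q : Ix α β (α ⊕ β) => v q.1) = 1 := by
    rw [Matrix.diagonal_mul_diagonal]
    simp only [hv']
    exact Matrix.diagonal_one
  have hrg : ∀ r : Matrix (α ⊕ β) (α ⊕ β) ℂ,
      (Matrix.diagonal fun q : Ix α β (α ⊕ β) => v q.1) * rgt α β r *
      (Matrix.diagonal fun q : Ix α β (α ⊕ β) => conj (v q.1)) = rgt α β r := by
    intro r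
    ext i j
    rw [Matrix.mul_diagonal, Matrix.diagonal_mul]
    unfold rgt
    rw [Matrix.of_apply]
    split_ifs with h
    · rw [← h, mul_comm (v i.1), mul_assoc, hv, mul_one]
    · rw [mul_zero, zero_mul]
  have hcj : ∀ m : Matrix (Fin g) (Fin g) ℂ, ∀ r : Matrix (α ⊕ β) (α ⊕ β) ℂ,
      T * m * S = rgt α β r →
      (Matrix.diagonal fun q : Ix α β (α ⊕ β) => v q.1) * T * m *
        (S * Matrix.diagonal fun q : Ix α β (α ⊕ β) => conj (v q.1)) = rgt α β r := by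
    intro m r h
    rw [← hrg r, ← h]
    simp only [Matrix.mul_assoc]
  refine
    { card := hN.card
      ts := ?_
      st := ?_
      herm := ?_
      dp := ?_
      dm := ?_
      fac := ?_
      alg := hN.alg
      act := ?_
      jj := ?_
      y := ?_ }
  · calc _ = (Matrix.diagonal fun q : Ix α β (α ⊕ β) => v q.1) * (T * S) *
          (Matrix.diagonal fun q : Ix α β (α ⊕ β) => conj (v q.1)) := by
            simp only [Matrix.mul_assoc]
      _ = 1 := by rw [hN.ts, Matrix.mul_one, hDD]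
  · calc _ = S * ((Matrix.diagonal fun q : Ix α β (α ⊕ β) => conj (v q.1)) *
          (Matrix.diagonal fun q : Ix α β (α ⊕ β) => v q.1)) * T := by
            simp only [Matrix.mul_assoc]
      _ = 1 := by rw [hDD', Matrix.mul_one, hN.st]
  · intro z w
    rw [hN.herm]
    unfold H
    refine Finset.sum_congr rfl fun q _ => ?_
    rw [← Matrix.mulVec_mulVec, ← Matrix.mulVec_mulVec, Matrix.mulVec_diagonal,
      Matrix.mulVec_diagonal, map_mul]
    calc _ = (v q.1 * conj (v q.1)) * (T.mulVec z q * conj (T.mulVec w q)) := by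
            rw [hv, one_mul]
      _ = _ := by ring
  · rw [Matrix.det_mul, Matrix.det_diagonal]
    exact mul_ne_zero (Finset.prod_ne_zero_iff.mpr fun i _ => hne _) hN.dp
  · rw [Matrix.det_mul, Matrix.det_diagonal]
    exact mul_ne_zero (Finset.prod_ne_zero_iff.mpr fun i _ => hne _) hN.dm
  · conv_lhs => rw [hN.fac]
    rw [← Matrix.mul_assoc]
    congr 1
    ext i j
    rw [Matrix.diagonal_mul]
    unfold blk
    rw [Matrix.of_apply, Matrix.of_apply]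
    split_ifs with h
    · rcases hi : i.1 with a | a <;> rcases hj : j.1 with b | b <;>
        simp [Matrix.fromBlocks, Matrix.diagonal_mul]
    · rw [mul_zero]
  · intro m hm
    obtain ⟨r, hr, h⟩ := hN.act m hm
    exact ⟨r, hr, hcj m r h⟩
  · exact hcj _ _ hN.jj
  · obtain ⟨y, hy, t, ht, h⟩ := hN.y
    exact ⟨y, hy, t, ht, hcj _ _ h⟩

theorem NF5_dc (u : α ⊕ β → ℂ) (X : Matrix (α ⊕ β) (α ⊕ β) ℂ) :
    cor (Matrix.diagonal u * X) = (Matrix.diagonal fun q : Ix α β (α ⊕ β) =>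
      Sum.elim (fun i => u (Sum.inl i)) (fun j => conj (u (Sum.inr j))) q.1).mulVec
        (cor X) := by
  funext q
  rw [Matrix.mulVec_diagonal]
  unfold cor sw
  rcases hq : q.1 with a | a <;> simp [Matrix.diagonal_mul]

theorem NF5_alg (h4 : St_CorA) (hN : NFo p d Hm A J α β T S Tp Tm Ta) :
    ∀ r ∈ NF5_R h4 T S hN.ts hN.st A, ∀ i j, IsAlgebraic ℚ (r i j) := by
  rintro r ⟨m, hm, h⟩
  obtain ⟨r', hr', h'⟩ := hN.act m hm
  rw [NF5_inj h4 (h.symm.trans h')]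
  exact hr'

private lemma NF5_det_alg {n : Type} [Fintype n] [DecidableEq n] (M : Matrix n n ℂ)
    (h : ∀ i j, IsAlgebraic ℚ (M i j)) : IsAlgebraic ℚ M.det := by
  have e : ∀ z : ℂ, z ∈ algebraicClosure ℚ ℂ ↔ IsAlgebraic ℚ z := fun z => by
    rw [mem_algebraicClosure_iff]
  rw [← e, Matrix.det_apply]
  refine Subalgebra.sum_mem (algebraicClosure ℚ ℂ).toSubalgebra fun σ _ => ?_
  refine Subalgebra.zsmul_mem _ (Subalgebra.prod_mem _ fun i _ => ?_) _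
  exact (e _).2 (h _ _)

theorem NF5_detA (h4 : St_CorA) (h5 : St_GramA) (hL : LD g p d Hm A W J)
    (hN : NFo p d Hm A J α β T S Tp Tm Ta)
    {w₀ : Fin g → ℂ} (hw : w₀ ∈ W) (hw0 : w₀ ≠ 0) {X₀ : Matrix (α ⊕ β) (α ⊕ β) ℂ}
    (hX : cor X₀ = T.mulVec w₀) (hr : X₀.det = (‖X₀.det‖ : ℂ)) : IsAlgebraic ℚ X₀.det := by
  have hG := h5 α β (NF5_R h4 T S hN.ts hN.st A) X₀ d hL.pos (NF5_alg h4 hN)
    (NF5_spR h4 hL hN hw hw0 hX) ⟨J, hL.JA, hN.jj⟩ (NF5_rat h4 hL hN hw hw0 hX)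
  have h1 := NF5_det_alg _ hG
  unfold Gm at h1
  rw [Matrix.det_mul, Matrix.det_mul, Matrix.det_conjTranspose] at h1
  have hJJ : Jm α β * Jm α β = 1 := by
    unfold Jm
    rw [Matrix.fromBlocks_multiply]
    simp
  have hJd : (Jm α β).det * (Jm α β).det = 1 := by
    rw [← Matrix.det_mul, hJJ, Matrix.det_one]
  have hJa : IsAlgebraic ℚ (Jm α β).det := by
    have : IsAlgebraic ℚ ((Jm α β).det ^ 2) := by
      rw [sq, hJd]
      exact isAlgebraic_one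
    exact this.of_pow two_pos
  have h2 : X₀.det ^ 2 = (star X₀.det * (Jm α β).det * X₀.det) * (Jm α β).det := by
    have h3 : star X₀.det = X₀.det := by
      conv_lhs => rw [hr]
      conv_rhs => rw [hr]
      exact Complex.conj_ofReal _
    rw [h3]
    calc _ = X₀.det ^ 2 * ((Jm α β).det * (Jm α β).det) := by rw [hJd, mul_one]
      _ = _ := by ring
  have h3 : IsAlgebraic ℚ (X₀.det ^ 2) := by
    rw [h2]
    exact h1.mul hJa
  exact h3.of_pow two_pos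

theorem NF5_finrank (h4 : St_CorA) (hL : LD g p d Hm A W J)
    (hN : NFo p d Hm A J α β T S Tp Tm Ta)
    {w₀ : Fin g → ℂ} (hw : w₀ ∈ W) (hw0 : w₀ ≠ 0) {X₀ : Matrix (α ⊕ β) (α ⊕ β) ℂ}
    (hX : cor X₀ = T.mulVec w₀) :
    Module.finrank ℚ (NF5_R h4 T S hN.ts hN.st A) =
      2 * (Fintype.card α + Fintype.card β) ^ 2 := by
  have hd := NF5_det h4 hL hN hw hw0 hX
  have hmem : ∀ r : NF5_R h4 T S hN.ts hN.st A,
      S.mulVec (cor (X₀ * (r : Matrix (α ⊕ β) (α ⊕ β) ℂ))) ∈ W := fun r =>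
    (NF5_W h4 hL hN hw hw0 hX _).mpr ⟨r, r.2, NF5_TS hN.ts _⟩
  let f : NF5_R h4 T S hN.ts hN.st A →ₗ[ℚ] W :=
    { toFun := fun r => ⟨S.mulVec (cor (X₀ * (r : Matrix (α ⊕ β) (α ⊕ β) ℂ))), hmem r⟩
      map_add' := fun r r' => Subtype.ext (by
        show S.mulVec (cor (X₀ * ((r : Matrix (α ⊕ β) (α ⊕ β) ℂ) + r'))) =
          S.mulVec (cor (X₀ * (r : Matrix (α ⊕ β) (α ⊕ β) ℂ))) + S.mulVec (cor (X₀ * r'))
        rw [Matrix.mul_add, (h4 α β).2.1, Matrix.mulVec_add])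
      map_smul' := fun q r => Subtype.ext (by
        show S.mulVec (cor (X₀ * (q • (r : Matrix (α ⊕ β) (α ⊕ β) ℂ)))) =
          q • S.mulVec (cor (X₀ * (r : Matrix (α ⊕ β) (α ⊕ β) ℂ)))
        rw [NF5_qs, Matrix.mul_smul, (h4 α β).2.2.1, Matrix.mulVec_smul]
        funext i
        rw [Pi.smul_apply, Pi.smul_apply, Complex.ofReal_ratCast, smul_eq_mul,
          Algebra.smul_def]
        rfl) }
  have hinj : Function.Injective f := by
    intro r r' h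
    have h1 : S.mulVec (cor (X₀ * (r : Matrix (α ⊕ β) (α ⊕ β) ℂ))) =
      S.mulVec (cor (X₀ * (r' : Matrix (α ⊕ β) (α ⊕ β) ℂ))) := congrArg Subtype.val h
    have h2 := congrArg (fun v => T.mulVec v) h1
    simp only [NF5_TS hN.ts] at h2
    have h3 := (h4 α β).1.1 h2
    have h5 := congrArg (fun N => X₀⁻¹ * N) h3
    simp only [← Matrix.mul_assoc, Matrix.nonsing_inv_mul X₀ (isUnit_iff_ne_zero.mpr hd),
      Matrix.one_mul] at h5
    exact Subtype.ext h5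
  have hsur : Function.Surjective f := by
    intro z
    obtain ⟨r, hr, h⟩ := (NF5_W h4 hL hN hw hw0 hX _).mp z.2
    refine ⟨⟨r, hr⟩, Subtype.ext ?_⟩
    show S.mulVec (cor (X₀ * r)) = z
    rw [← h, NF5_ST hN.st]
  obtain ⟨b, -⟩ := hL.basis
  rw [(LinearEquiv.ofBijective f ⟨hinj, hsur⟩).finrank_eq, Module.finrank_eq_card_basis b,
    Fintype.card_sum, Fintype.card_fin, hN.card, hL.dim]
  ring

theorem NF5_div (h4 : St_CorA) (hL : LD g p d Hm A W J)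
    (hN : NFo p d Hm A J α β T S Tp Tm Ta) :
    ∀ r ∈ NF5_R h4 T S hN.ts hN.st A, r ≠ 0 → r.det ≠ 0 := by
  rintro r ⟨m, hm, h⟩ hr0 hd
  have hm0 : m ≠ 0 := by
    rintro rfl
    rw [Matrix.mul_zero, Matrix.zero_mul] at h
    have h0 := NF5_smul h4 0 r
    rw [Complex.ofReal_zero, zero_smul, zero_smul] at h0
    exact hr0 (NF5_inj h4 (h.symm.trans h0.symm))
  have hmd := hL.div m hm hm0
  have hcd : Fintype.card (Ix α β (α ⊕ β)) = Fintype.card (Fin g) := by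
    rw [Fintype.card_prod, Fintype.card_sum, Fintype.card_fin, hN.card, hL.dim]
    ring
  have h1 : (T * m * S).det = m.det := by
    exact Matrix.det_conj_of_mul_eq_one hN.ts hN.st
  rw [h, (h4 α β).2.2.2.2.2.2.2.2, hd] at h1
  have hpp := hL.prime.pos
  have hcard := hN.card
  apply hmd
  rw [← h1]
  rcases Nat.eq_zero_or_pos (Fintype.card α) with ha | ha
  · have hb : Fintype.card β ≠ 0 := by omega
    rw [map_zero, zero_pow hb, mul_zero]
  · rw [zero_pow ha.ne', zero_mul]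

end

theorem NF5_form (h1 : St_CorA) (h2 : St_GramA) (X : AbVar) (p : ℕ) (d : ℚ)
    (J : Module.End ℂ X.H1)
    (A : Subalgebra ℚ (Matrix (Fin X.g) (Fin X.g) ℂ)) (W : Submodule ℚ (Fin X.g → ℂ))
    (Jz : Matrix (Fin X.g) (Fin X.g) ℂ)
    (α β : Type) [Fintype α] [Fintype β] [DecidableEq α] [DecidableEq β]
    (T : Matrix (Ix α β (α ⊕ β)) (Fin X.g) ℂ) (S : Matrix (Fin X.g) (Ix α β (α ⊕ β)) ℂ)
    (Tp : Matrix α α ℂ) (Tm : Matrix β β ℂ) (Ta : Matrix (Ix α β (α ⊕ β)) (Fin X.g) ℂ)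
    (hL : LD X.g p d X.H A W Jz) (hW : ∀ z, z ∈ W ↔ ∃ n : ℕ, n ≠ 0 ∧ (n : ℤ) • z ∈ X.Λ)
    (hJ : ∀ v, X.zz (J v) = Jz.mulVec (X.zz v))
    (hE : ∀ m ∈ A, ∀ m' ∈ A,
      (∀ z w, hermForm X.H (m.mulVec z) w = hermForm X.H z (m'.mulVec w)) →
      ∃ f f' : X.H1 → X.H1, X.IsEnd f ∧ X.IsEnd f' ∧ X.IsAdjoint f f' ∧
        (∀ v, X.zz (f v) = m.mulVec (X.zz v)) ∧ ∀ v, X.zz (f' v) = m'.mulVec (X.zz v))
    (hN : NFo p d X.H A Jz α β T S Tp Tm Ta)
    {w₀ : Fin X.g → ℂ} (hw : w₀ ∈ W) (hw0 : w₀ ≠ 0) {X₀ : Matrix (α ⊕ β) (α ⊕ β) ℂ}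
    (hX : cor X₀ = T.mulVec w₀) (hr : X₀.det = (‖X₀.det‖ : ℂ)) :
    NForm X p d J α β T S Tp Tm Ta (NF5_R h1 T S hN.ts hN.st A) X₀ := by
  refine
    { card := hN.card
      ts := hN.ts
      st := hN.st
      herm := hN.herm
      dp := hN.dp
      dm := hN.dm
      fac := hN.fac
      alg := hN.alg
      dat := ?_
      lat := fun z => (hW z).symm.trans (NF5_W h1 hL hN hw hw0 hX z)
      jj := fun v => by rw [hJ, NF5_Tm hN.st hN.jj]
      act := ?_ }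
  · refine
      { prime := by rw [hN.card]; exact hL.prime
        two := by rw [hN.card]; exact hL.two
        pos := hL.pos
        alg := NF5_alg h1 hN
        star := ?_
        div := NF5_div h1 hL hN
        dim := NF5_finrank h1 hL hN hw hw0 hX
        span := NF5_spR h1 hL hN hw hw0 hX
        jj := ⟨Jz, hL.JA, hN.jj⟩
        y := ?_
        det := NF5_det h1 hL hN hw hw0 hX
        detA := NF5_detA h1 h2 hL hN hw hw0 hX hr
        rat := NF5_rat h1 hL hN hw hw0 hX }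
    · rintro r ⟨m, hm, h⟩
      obtain ⟨m', hm', hadj⟩ := hL.adj m hm
      exact ⟨m', hm', NF5_star h1 hL hN hadj h⟩
    · obtain ⟨y, hy, t, ht, h⟩ := hN.y
      exact ⟨t, ht, y, hy, h⟩
  · rintro r ⟨m, hm, h⟩
    obtain ⟨m', hm', hadj⟩ := hL.adj m hm
    obtain ⟨f, f', hf, hf', ha, hz, hz'⟩ := hE m hm m' hm' hadj
    refine ⟨f, f', hf, hf', ha, fun v => ?_, fun v => ?_⟩
    · rw [hz, NF5_Tm hN.st h]
    · rw [hz', NF5_Tm hN.st (NF5_star h1 hL hN hadj h)]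

theorem thm_NF5 (h1 : St_CorA) (h2 : St_GramA) : St_NF5 := by
  intro X p d J A W Jz α β _ _ _ _ T S Tp Tm Ta hL hW hJ hE hN
  obtain ⟨b, hb⟩ := hL.basis
  have hw : (b (Sum.inl ⟨0, NF3_gpos hL⟩) : Fin X.g → ℂ) ∈ W := (b _).2
  have hw0 : (b (Sum.inl ⟨0, NF3_gpos hL⟩) : Fin X.g → ℂ) ≠ 0 := hb.ne_zero _
  generalize (b (Sum.inl ⟨0, NF3_gpos hL⟩) : Fin X.g → ℂ) = w₀ at hw hw0
  obtain ⟨X₀, hX⟩ := (h1 α β).1.2 (T.mulVec w₀)
  have hd := NF5_det h1 hL hN hw hw0 hX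
  have hne : Nonempty (α ⊕ β) := by
    rw [← Fintype.card_pos_iff, Fintype.card_sum, hN.card]
    exact hL.prime.pos
  obtain ⟨s₀⟩ := hne
  have hnd : (‖X₀.det‖ : ℂ) ≠ 0 := by
    rw [Complex.ofReal_ne_zero]
    exact norm_ne_zero_iff.mpr hd
  have hsq : conj X₀.det * X₀.det = (‖X₀.det‖ : ℂ) ^ 2 := by
    rw [mul_comm, Complex.mul_conj, Complex.normSq_eq_norm_sq]
    push_cast
    ring
  have hζ : conj X₀.det / (‖X₀.det‖ : ℂ) * conj (conj X₀.det / (‖X₀.det‖ : ℂ)) = 1 := by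
    rw [map_div₀, Complex.conj_conj, Complex.conj_ofReal, div_mul_div_comm, hsq, sq]
    exact div_self (mul_ne_zero hnd hnd)
  obtain ⟨u, hu, hu'⟩ : ∃ u : α ⊕ β → ℂ, (∀ s, u s * conj (u s) = 1) ∧
      (∏ s, u s) * X₀.det = (‖X₀.det‖ : ℂ) := by
    refine ⟨Function.update (fun _ => 1) s₀ (conj X₀.det / (‖X₀.det‖ : ℂ)), ?_, ?_⟩
    · intro s
      by_cases h : s = s₀
      · subst h
        rw [Function.update_self]
        exact hζ
      · rw [Function.update_of_ne h, map_one, mul_one]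
    · rw [Finset.prod_update_of_mem (Finset.mem_univ _), Finset.prod_const_one, mul_one,
        div_mul_eq_mul_div, hsq, sq, mul_div_assoc, div_self hnd, mul_one]
  have hv : ∀ s, (fun s => Sum.elim (fun i => u (Sum.inl i)) (fun j => conj (u (Sum.inr j))) s) s *
      conj ((fun s => Sum.elim (fun i => u (Sum.inl i)) (fun j => conj (u (Sum.inr j))) s) s) =
      (1 : ℂ) := by
    rintro (s | s)
    · exact hu _
    · show conj (u (Sum.inr s)) * conj (conj (u (Sum.inr s))) = 1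
      rw [Complex.conj_conj, mul_comm]
      exact hu _
  have hN' := NF5_ph hN _ hv
  have hdet : (Matrix.diagonal u * X₀).det = (‖X₀.det‖ : ℂ) := by
    rw [Matrix.det_mul, Matrix.det_diagonal, hu']
  refine ⟨_, _, _, _, _, _, Matrix.diagonal u * X₀, NF5_form h1 h2 X p d J A W Jz α β _ _ _ _ _
    hL hW hJ hE hN' hw hw0 ?_ ?_⟩
  · rw [NF5_dc, hX, Matrix.mulVec_mulVec]
  · rw [hdet, Complex.norm_real, norm_norm]

end PST
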