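import Pool.Agent.PST.Pts
import Pool.Agent.GAM.ThEx

/-!
# PST, module NonM: the determinants are not identically zero
-/

set_option autoImplicit false

namespace PST

open scoped ComplexConjugate
open GAM (H E F pd pdl PLat IsTh OddTor IsDel Gro IsLat)

theorem NonM_zero (α β : Type) [Fintype α] [Fintype β] : (0 : α × β → ℂ) ∈ Om α β := by
  refine ⟨0, le_rfl, zero_lt_one, fun y => ?_⟩
  simp

theorem thm_NonM (h1 : St_Equi) (h2 : St_UTr) (_ : St_UAl) (h4 : St_MapE) (h5 : St_EllZ)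
    (h6 : St_DetPt) : St_NonM := by
  classical
  intro α β μ _ _ _ _ _ _ L χ θ hP hT hne w hw k
  obtain ⟨g, hg, hg0⟩ := h2 α β w hw
  obtain ⟨L', χ', hP', hM⟩ := h4 α β μ g L χ hg hP
  obtain ⟨θ', hT', hne'⟩ := GAM.thm_ThEx (Ix α β μ) L' χ' hP'
  obtain ⟨j, mp, mm, hj, hmp, hmm, -, -, -, h7⟩ := h1 α β μ g L L' χ θ χ' θ' hP hP' hT hT' hne
    hne' hM 0 (NonM_zero α β)
  obtain ⟨x, -, hx⟩ := Pts_fm h6 h5 L' χ' θ' hP' hT' hne' k
  refine ⟨fun b => act g (x b), ?_⟩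
  rw [hg0] at h7
  intro h0
  have h8 := h7 k x
  rw [h0, mul_zero] at h8
  exact mul_ne_zero (pow_ne_zero _ hj) hx h8.symm

end PST
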