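import Pool.Agent.PST.StF

/-!
# PST [OmT]: the topology of the domain, the maps `Uw w` are bijective
-/

set_option autoImplicit false

namespace PST

open scoped ComplexConjugate
open GAM (H E F pd pdl PLat IsTh OddTor IsDel Gro IsLat)

section OmT

/-- The Euclidean norm. -/
noncomputable def OmT_n {ι : Type} [Fintype ι] (x : ι → ℂ) : ℝ :=
  ‖(WithLp.toLp 2 x : EuclideanSpace ℂ ι)‖

variable {ι : Type} [Fintype ι]

lemma OmT_n_nonneg (x : ι → ℂ) : 0 ≤ OmT_n x := norm_nonneg _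

lemma OmT_n_sq (x : ι → ℂ) : OmT_n x ^ 2 = ∑ i, ‖x i‖ ^ 2 :=
  EuclideanSpace.norm_sq_eq _

lemma OmT_n_add (x y : ι → ℂ) : OmT_n (fun i => x i + y i) ≤ OmT_n x + OmT_n y :=
  norm_add_le (WithLp.toLp 2 x : EuclideanSpace ℂ ι) (WithLp.toLp 2 y)

lemma OmT_n_smul (c : ℂ) (x : ι → ℂ) : OmT_n (fun i => c * x i) = ‖c‖ * OmT_n x :=
  norm_smul c (WithLp.toLp 2 x : EuclideanSpace ℂ ι)

lemma OmT_le_n (x : ι → ℂ) (i : ι) : ‖x i‖ ≤ OmT_n x := by
  refine le_of_sq_le_sq ?_ (OmT_n_nonneg x)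
  rw [OmT_n_sq]
  exact Finset.single_le_sum (f := fun i => ‖x i‖ ^ 2) (fun i _ => sq_nonneg _)
    (Finset.mem_univ i)

lemma OmT_n_le (x : ι → ℂ) : OmT_n x ≤ ∑ i, ‖x i‖ := by
  refine le_of_sq_le_sq ?_ (Finset.sum_nonneg fun i _ => norm_nonneg _)
  rw [OmT_n_sq]
  exact Finset.sum_sq_le_sq_sum_of_nonneg fun i _ => norm_nonneg _

variable {α β : Type} [Fintype α] [Fintype β]

lemma OmT_mem {ρ : ℝ} (hρ : 0 ≤ ρ) (w : α × β → ℂ) :
    w ∈ OmC α β ρ ↔ ∀ y : β → ℂ, OmT_n (fun i => ∑ j, w (i, j) * y j) ≤ ρ * OmT_n y := by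
  refine forall_congr' fun y => ?_
  rw [← OmT_n_sq y, ← mul_pow, ← OmT_n_sq (fun i => ∑ j, w (i, j) * y j)]
  exact ⟨fun h => le_of_sq_le_sq h (mul_nonneg hρ (OmT_n_nonneg y)),
    fun h => pow_le_pow_left₀ (OmT_n_nonneg _) h 2⟩

lemma OmT_mono {ρ ρ' : ℝ} (hρ : 0 ≤ ρ) (h : ρ ≤ ρ') : OmC α β ρ ⊆ OmC α β ρ' := by
  intro w hw
  rw [OmT_mem hρ] at hw
  rw [OmT_mem (hρ.trans h)]
  exact fun y => (hw y).trans (mul_le_mul_of_nonneg_right h (OmT_n_nonneg y))

lemma OmT_pert (v : α × β → ℂ) (y : β → ℂ) :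
    OmT_n (fun i => ∑ j, v (i, j) * y j) ≤
      Fintype.card α * Fintype.card β * ‖v‖ * OmT_n y := by
  refine (OmT_n_le _).trans ?_
  have h1 : ∀ i, ‖∑ j, v (i, j) * y j‖ ≤ Fintype.card β * (‖v‖ * OmT_n y) := by
    intro i
    refine (norm_sum_le _ _).trans ?_
    have h2 : ∀ j ∈ Finset.univ, ‖v (i, j) * y j‖ ≤ ‖v‖ * OmT_n y := by
      intro j _
      rw [norm_mul]
      exact mul_le_mul (norm_le_pi_norm v (i, j)) (OmT_le_n y j) (norm_nonneg _) (norm_nonneg _)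
    refine (Finset.sum_le_sum h2).trans ?_
    rw [Finset.sum_const, Finset.card_univ, nsmul_eq_mul]
  refine (Finset.sum_le_sum fun i _ => h1 i).trans ?_
  rw [Finset.sum_const, Finset.card_univ, nsmul_eq_mul]
  apply le_of_eq
  ring

lemma OmT_nhds (w : α × β → ℂ) (ρ : ℝ) (h0 : 0 ≤ ρ) (h1 : ρ < 1) (hw : w ∈ OmC α β ρ) :
    ∃ ρ' : ℝ, 0 ≤ ρ' ∧ ρ' < 1 ∧ OmC α β ρ' ∈ nhds w := by
  refine ⟨(1 + ρ) / 2, by linarith, by linarith, ?_⟩
  have hK : (0 : ℝ) < Fintype.card α * Fintype.card β + 1 := by positivity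
  have hδ : 0 < (1 - ρ) / 2 / (Fintype.card α * Fintype.card β + 1) :=
    div_pos (by linarith) hK
  refine Filter.mem_of_superset (Metric.ball_mem_nhds w hδ) ?_
  intro w' hw'
  rw [OmT_mem h0] at hw
  rw [OmT_mem (by linarith)]
  intro y
  have e : (fun i => ∑ j, w' (i, j) * y j) =
      fun i => (fun i => ∑ j, w (i, j) * y j) i + (fun i => ∑ j, (w' - w) (i, j) * y j) i := by
    funext i
    simp only [Pi.sub_apply]
    rw [← Finset.sum_add_distrib]
    exact Finset.sum_congr rfl fun j _ => by ring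
  rw [e]
  refine (OmT_n_add _ _).trans ?_
  have h2 := OmT_pert (w' - w) y
  have h3 : ‖w' - w‖ < (1 - ρ) / 2 / (Fintype.card α * Fintype.card β + 1) := by
    rwa [Metric.mem_ball, dist_eq_norm] at hw'
  rw [lt_div_iff₀ hK] at h3
  have h4 : (Fintype.card α * Fintype.card β : ℝ) * ‖w' - w‖ ≤ (1 - ρ) / 2 := by
    have := norm_nonneg (w' - w)
    nlinarith
  have h5 := mul_le_mul_of_nonneg_right h4 (OmT_n_nonneg y)
  have h6 := hw y
  linarith

lemma OmT_closed (ρ : ℝ) : IsClosed (OmC α β ρ) := by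
  have e : OmC α β ρ = ⋂ y : β → ℂ,
      {w | ∑ i, ‖∑ j, w (i, j) * y j‖ ^ 2 ≤ ρ ^ 2 * ∑ j, ‖y j‖ ^ 2} := by
    ext w
    rw [Set.mem_iInter]
    rfl
  rw [e]
  refine isClosed_iInter fun y => isClosed_le ?_ continuous_const
  exact continuous_finsetSum _ fun i _ => ((continuous_finsetSum _ fun j _ =>
    (continuous_apply (i, j)).mul continuous_const).norm).pow 2

lemma OmT_bdd [DecidableEq β] {ρ : ℝ} (h0 : 0 ≤ ρ) :
    OmC α β ρ ⊆ Metric.closedBall 0 ρ := by
  intro w hw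
  rw [mem_closedBall_zero_iff, pi_norm_le_iff_of_nonneg h0]
  rintro ⟨i, j⟩
  rw [OmT_mem h0] at hw
  have h1 := hw (Pi.single j 1)
  have h2 : OmT_n (Pi.single j 1 : β → ℂ) = 1 := by
    have h3 := OmT_n_sq (Pi.single j 1 : β → ℂ)
    rw [Finset.sum_eq_single j] at h3
    · rw [Pi.single_eq_same, norm_one, one_pow] at h3
      have h4 := OmT_n_nonneg (Pi.single j 1 : β → ℂ)
      nlinarith
    · intro k _ hk
      rw [Pi.single_eq_of_ne hk, norm_zero]
      norm_num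
    · intro h
      exact absurd (Finset.mem_univ j) h
  rw [h2, mul_one] at h1
  refine le_trans ?_ ((OmT_le_n _ i).trans h1)
  apply le_of_eq
  rw [Finset.sum_eq_single j]
  · rw [Pi.single_eq_same, mul_one]
  · intro k _ hk
    rw [Pi.single_eq_of_ne hk, mul_zero]
  · intro h
    exact absurd (Finset.mem_univ j) h

/-- `Uw w` as a real linear map. -/
noncomputable def OmT_lin {μ : Type} [Fintype μ] (w : α × β → ℂ) :
    (Ix α β μ → ℂ) →ₗ[ℝ] (Ix α β μ → ℂ) where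
  toFun := Uw w
  map_add' x y := by
    funext p
    obtain ⟨i | j, k⟩ := p
    · simp only [Uw, Pi.add_apply, Sum.elim_inl, map_add, mul_add, Finset.sum_add_distrib]
      ring
    · simp only [Uw, Pi.add_apply, Sum.elim_inr, map_add, mul_add, Finset.sum_add_distrib]
      ring
  map_smul' r x := by
    funext p
    obtain ⟨i | j, k⟩ := p
    · simp only [Uw, Pi.smul_apply, Sum.elim_inl, Complex.real_smul, map_mul, RingHom.id_apply,
        Complex.conj_ofReal, mul_sub, Finset.mul_sum]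
      rw [sub_right_inj]
      exact Finset.sum_congr rfl fun _ _ => by ring
    · simp only [Uw, Pi.smul_apply, Sum.elim_inr, Complex.real_smul, map_mul, RingHom.id_apply,
        Complex.conj_ofReal, mul_sub, Finset.mul_sum]
      rw [sub_right_inj]
      exact Finset.sum_congr rfl fun _ _ => by ring

lemma OmT_inj {μ : Type} [Fintype μ] {ρ : ℝ} (h0 : 0 ≤ ρ) (h1 : ρ < 1) (w : α × β → ℂ)
    (hw : w ∈ OmC α β ρ) (x : Ix α β μ → ℂ) (hx : Uw w x = 0) : x = 0 := by
  have hp : ∀ i k, x (Sum.inl i, k) = ∑ j, w (i, j) * conj (x (Sum.inr j, k)) := by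
    intro i k
    have h := congrFun hx (Sum.inl i, k)
    simp only [Uw, Sum.elim_inl, Pi.zero_apply] at h
    exact sub_eq_zero.1 h
  have hm : ∀ j k, x (Sum.inr j, k) = ∑ i, w (i, j) * conj (x (Sum.inl i, k)) := by
    intro j k
    have h := congrFun hx (Sum.inr j, k)
    simp only [Uw, Sum.elim_inr, Pi.zero_apply] at h
    exact sub_eq_zero.1 h
  rw [OmT_mem h0] at hw
  have key : ∀ k, OmT_n (fun i => x (Sum.inl i, k)) = 0 ∧
      OmT_n (fun j => x (Sum.inr j, k)) = 0 := by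
    intro k
    have e1 : ∑ i, x (Sum.inl i, k) * conj (x (Sum.inl i, k)) =
        ∑ j, x (Sum.inr j, k) * conj (x (Sum.inr j, k)) := by
      have e2 : ∀ i, x (Sum.inl i, k) * conj (x (Sum.inl i, k)) =
          ∑ j, w (i, j) * conj (x (Sum.inr j, k)) * conj (x (Sum.inl i, k)) := by
        intro i
        rw [← Finset.sum_mul, ← hp]
      have e3 : ∀ j, x (Sum.inr j, k) * conj (x (Sum.inr j, k)) =
          ∑ i, w (i, j) * conj (x (Sum.inl i, k)) * conj (x (Sum.inr j, k)) := by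
        intro j
        rw [← Finset.sum_mul, ← hm]
      rw [Finset.sum_congr rfl fun i _ => e2 i, Finset.sum_congr rfl fun j _ => e3 j,
        Finset.sum_comm]
      exact Finset.sum_congr rfl fun i _ => Finset.sum_congr rfl fun j _ => by ring
    have e4 : OmT_n (fun i => x (Sum.inl i, k)) ^ 2 = OmT_n (fun j => x (Sum.inr j, k)) ^ 2 := by
      rw [OmT_n_sq, OmT_n_sq]
      simp only [Complex.mul_conj, Complex.normSq_eq_norm_sq] at e1
      exact_mod_cast e1
    have h2 := hw (fun j => conj (x (Sum.inr j, k)))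
    have e5 : (fun i => ∑ j, w (i, j) * conj (x (Sum.inr j, k))) =
        fun i => x (Sum.inl i, k) := by
      funext i
      exact (hp i k).symm
    have e6 : OmT_n (fun j => conj (x (Sum.inr j, k))) = OmT_n (fun j => x (Sum.inr j, k)) := by
      have e7 := OmT_n_sq (fun j => conj (x (Sum.inr j, k)))
      simp only [RCLike.norm_conj] at e7
      rw [← OmT_n_sq] at e7
      exact (pow_left_inj₀ (OmT_n_nonneg _) (OmT_n_nonneg _) two_ne_zero).1 e7
    rw [e5, e6] at h2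
    have e8 := (pow_left_inj₀ (OmT_n_nonneg _) (OmT_n_nonneg _) two_ne_zero).1 e4
    have h3 := OmT_n_nonneg (fun j => x (Sum.inr j, k))
    have e9 : OmT_n (fun j => x (Sum.inr j, k)) = 0 := by
      rw [e8] at h2
      nlinarith
    exact ⟨by rw [e8, e9], e9⟩
  funext p
  obtain ⟨i | j, k⟩ := p
  · have h := OmT_le_n (fun i => x (Sum.inl i, k)) i
    rw [(key k).1] at h
    exact norm_le_zero_iff.1 h
  · have h := OmT_le_n (fun j => x (Sum.inr j, k)) j
    rw [(key k).2] at h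
    exact norm_le_zero_iff.1 h

end OmT

theorem thm_OmT : St_OmT := by
  intro α β _ _ _ _
  refine ⟨?_, ?_, ?_, ?_, ?_, ?_⟩
  · rw [isOpen_iff_mem_nhds]
    rintro w ⟨ρ, h0, h1, hw⟩
    obtain ⟨ρ', h0', h1', h⟩ := OmT_nhds w ρ h0 h1 hw
    exact Filter.mem_of_superset h fun w' hw' => ⟨ρ', h0', h1', hw'⟩
  · rintro w ⟨ρ, h0, h1, hw⟩ w' ⟨ρ', h0', h1', hw'⟩ a b ha hb hab
    have g0 : 0 ≤ max ρ ρ' := h0.trans (le_max_left _ _)
    refine ⟨max ρ ρ', g0, max_lt h1 h1', ?_⟩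
    rw [OmT_mem g0]
    rw [OmT_mem h0] at hw
    rw [OmT_mem h0'] at hw'
    intro y
    have e : (fun i => ∑ j, (a • w + b • w') (i, j) * y j) =
        fun i => (fun i => (a : ℂ) * (fun i => ∑ j, w (i, j) * y j) i) i +
          (fun i => (b : ℂ) * (fun i => ∑ j, w' (i, j) * y j) i) i := by
      funext i
      simp only [Pi.add_apply, Pi.smul_apply, Complex.real_smul]
      rw [Finset.mul_sum, Finset.mul_sum, ← Finset.sum_add_distrib]
      exact Finset.sum_congr rfl fun j _ => by ring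
    rw [e]
    refine (OmT_n_add _ _).trans ?_
    rw [OmT_n_smul, OmT_n_smul, Complex.norm_real, Complex.norm_real, Real.norm_of_nonneg ha,
      Real.norm_of_nonneg hb]
    have hy := OmT_n_nonneg y
    have f1 := mul_le_mul_of_nonneg_left (hw y) ha
    have f2 := mul_le_mul_of_nonneg_left (hw' y) hb
    have f3 : a * (ρ * OmT_n y) ≤ a * (max ρ ρ' * OmT_n y) :=
      mul_le_mul_of_nonneg_left (mul_le_mul_of_nonneg_right (le_max_left _ _) hy) ha
    have f4 : b * (ρ' * OmT_n y) ≤ b * (max ρ ρ' * OmT_n y) :=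
      mul_le_mul_of_nonneg_left (mul_le_mul_of_nonneg_right (le_max_right _ _) hy) hb
    have f5 : a * (max ρ ρ' * OmT_n y) + b * (max ρ ρ' * OmT_n y) = max ρ ρ' * OmT_n y := by
      rw [← add_mul, hab, one_mul]
    linarith
  · refine ⟨0, le_refl _, zero_lt_one, ?_⟩
    intro y
    simp
  · intro ρ h0 h1
    exact ⟨(isCompact_closedBall (0 : α × β → ℂ) ρ).of_isClosed_subset (OmT_closed ρ)
      (OmT_bdd h0), fun w hw => ⟨ρ, h0, h1, hw⟩⟩
  · rintro w ⟨ρ, h0, h1, hw⟩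
    exact OmT_nhds w ρ h0 h1 hw
  · rintro μ _ _ w ⟨ρ, h0, h1, hw⟩
    have hinj : Function.Injective (OmT_lin (μ := μ) w) := by
      rw [injective_iff_map_eq_zero]
      intro x hx
      exact OmT_inj h0 h1 w hw x hx
    exact ⟨hinj, LinearMap.injective_iff_surjective.1 hinj⟩

end PST
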