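import Pool.Agent.PST.StN
import Pool.Agent.GAM.TorP
import Pool.Agent.GAM.Symp
import Pool.Agent.GAM.ChiB

/-!
# PST: a principal lattice
-/

set_option autoImplicit false

namespace PST

open scoped ComplexConjugate
open GAM (H E PLat E_zero_right E_zero_left E_add_left E_add_right E_zsmul_left E_zsmul_right
  E_rsmul_left E_symm E_self TorP_nondeg)
open Module

/-- the principal lattice attached to an alternating form over `ℚ` -/
private theorem Prin_gen {ι V : Type} [Fintype ι] [AddCommGroup V] [Module ℚ V]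
    (C : V →+ (ι → ℂ)) (hCq : ∀ (q : ℚ) (x : V), C (q • x) = (q : ℝ) • C x) {n : ℕ}
    (e : Basis (Fin n) ℚ V) (hn : n = 2 * Fintype.card ι)
    (hli : LinearIndependent ℝ fun i => C (e i))
    (hsp : Submodule.span ℝ (Set.range fun i => C (e i)) = ⊤)
    (B : V →ₗ[ℚ] V →ₗ[ℚ] ℚ) (hE : ∀ x y, E (C x) (C y) = ((B x y : ℚ) : ℝ))
    (hint : ∀ i j, ∃ m : ℤ, B (e i) (e j) = m)
    (hself : ∀ x, (∀ j, ∃ m : ℤ, B x (e j) = m) → x ∈ Submodule.span ℤ (Set.range e))
    (χ : V → ℂ) (hpm : ∀ x ∈ Submodule.span ℤ (Set.range e), χ x = 1 ∨ χ x = -1)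
    (hadd : ∀ x ∈ Submodule.span ℤ (Set.range e), ∀ y ∈ Submodule.span ℤ (Set.range e),
      χ (x + y) = χ x * χ y * Complex.exp (Real.pi * Complex.I * (B x y : ℚ))) :
    ∃ (L : Submodule ℤ (ι → ℂ)) (χ' : (ι → ℂ) → ℂ), PLat L χ' ∧
      ∀ v, v ∈ L ↔ ∃ x ∈ Submodule.span ℤ (Set.range e), C x = v := by
  classical
  set b0 : Module.Basis (Fin n) ℝ (ι → ℂ) := Module.Basis.mk hli hsp.ge with hb0
  have hb0a : ∀ i, b0 i = C (e i) := fun i => by rw [hb0, Module.Basis.mk_apply]
  -- coordinates of rational combinations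
  have hsum : ∀ q : Fin n → ℚ, C (∑ i, q i • e i) = ∑ i, (q i : ℝ) • b0 i := by
    intro q
    rw [map_sum]
    refine Finset.sum_congr rfl fun i _ => ?_
    rw [hb0a]
    exact hCq (q i) (e i)
  have hinj : Function.Injective C := by
    intro x y hxy
    have h3 : C (x - y) = 0 := by rw [map_sub, hxy, sub_self]
    have h5 := e.sum_repr (x - y)
    rw [← h5, hsum] at h3
    have h6 := Fintype.linearIndependent_iff.1 b0.linearIndependent
      (fun i => (e.repr (x - y) i : ℝ)) h3
    have h7 : e.repr (x - y) = 0 := by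
      ext i
      have h9 : ((e.repr (x - y) i : ℚ) : ℝ) = 0 := h6 i
      have h10 : e.repr (x - y) i = 0 := by exact_mod_cast h9
      rw [h10]; rfl
    have h8 : x - y = 0 := by
      rw [← e.repr.map_eq_zero_iff]; exact h7
    exact sub_eq_zero.1 h8
  set L : Submodule ℤ (ι → ℂ) :=
    (Submodule.span ℤ (Set.range e)).map C.toIntLinearMap with hL
  have hmem : ∀ v, v ∈ L ↔ ∃ x ∈ Submodule.span ℤ (Set.range e), C x = v := by
    intro v
    rw [hL, Submodule.mem_map]
    rfl
  have hLspan : L = Submodule.span ℤ (Set.range b0) := by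
    rw [hL, Submodule.map_span]
    congr 1
    ext v
    constructor
    · rintro ⟨_, ⟨i, rfl⟩, rfl⟩
      exact ⟨i, hb0a i⟩
    · rintro ⟨i, rfl⟩
      exact ⟨e i, ⟨i, rfl⟩, (hb0a i).symm⟩
  have hbL : ∀ i, b0 i ∈ L := fun i => by rw [hLspan]; exact Submodule.subset_span ⟨i, rfl⟩
  -- integrality
  have hg : ∀ i j, ∃ m : ℤ, E (b0 i) (b0 j) = m := by
    intro i j
    obtain ⟨m, hm⟩ := hint i j
    refine ⟨m, ?_⟩
    rw [hb0a, hb0a]
    have h3 := hE (e i) (e j)
    rw [hm] at h3
    rw [h3]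
    push_cast
    rfl
  have hintL : ∀ l ∈ L, ∀ m ∈ L, ∃ k : ℤ, E l m = k := by
    intro l hl m hm
    rw [hLspan] at hl hm
    induction hl using Submodule.span_induction with
    | mem x hx =>
      obtain ⟨i, rfl⟩ := hx
      induction hm using Submodule.span_induction with
      | mem y hy =>
        obtain ⟨j, rfl⟩ := hy
        exact hg i j
      | zero => exact ⟨0, by rw [E_zero_right]; simp⟩
      | add y z _ _ hy hz =>
        obtain ⟨p, hp⟩ := hy
        obtain ⟨q, hq⟩ := hz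
        exact ⟨p + q, by rw [E_add_right, hp, hq]; push_cast; rfl⟩
      | smul a y _ hy =>
        obtain ⟨p, hp⟩ := hy
        exact ⟨a * p, by rw [E_zsmul_right, hp]; push_cast; rfl⟩
    | zero => exact ⟨0, by rw [E_zero_left]; simp⟩
    | add y z _ _ hy hz =>
      obtain ⟨p, hp⟩ := hy
      obtain ⟨q, hq⟩ := hz
      exact ⟨p + q, by rw [E_add_left, hp, hq]; push_cast; rfl⟩
    | smul a y _ hy =>
      obtain ⟨p, hp⟩ := hy
      exact ⟨a * p, by rw [E_zsmul_left, hp]; push_cast; rfl⟩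
  -- the Gram matrix
  choose g hg' using hg
  set G : Matrix (Fin n) (Fin n) ℚ := Matrix.of fun i j => (g i j : ℚ) with hG
  have hEsum : ∀ (t : Fin n → ℝ) (w : ι → ℂ), E (∑ i, t i • b0 i) w =
      ∑ i, t i * E (b0 i) w := by
    intro t w
    have h3 : ∀ s : Finset (Fin n), E (∑ i ∈ s, t i • b0 i) w = ∑ i ∈ s, t i * E (b0 i) w := by
      intro s
      induction s using Finset.induction_on with
      | empty => simp [E_zero_left]
      | insert a s ha ih =>
        rw [Finset.sum_insert ha, Finset.sum_insert ha, E_add_left, E_rsmul_left, ih]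
    exact h3 Finset.univ
  have hEsumr : ∀ (t : Fin n → ℝ) (w : ι → ℂ), E w (∑ i, t i • b0 i) =
      ∑ i, t i * E w (b0 i) := by
    intro t w
    rw [E_symm, hEsum, ← Finset.sum_neg_distrib]
    refine Finset.sum_congr rfl fun i _ => ?_
    rw [E_symm w (b0 i)]; ring
  have hdet : G.det ≠ 0 := by
    intro h0
    have h3 : ((G.map (fun q : ℚ => (q : ℝ))).det) = 0 := by
      have h4 := (Rat.castHom ℝ).map_det G
      rw [h0, map_zero] at h4
      exact h4.symm
    obtain ⟨t, ht, ht0⟩ := Matrix.exists_vecMul_eq_zero_iff.2 h3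
    apply ht
    have h5 : (∑ i, t i • b0 i) = 0 := by
      apply TorP_nondeg
      intro w
      have h6 : ∀ j, E (∑ i, t i • b0 i) (b0 j) = 0 := by
        intro j
        rw [hEsum]
        have h7 := congrFun ht0 j
        simp only [Matrix.vecMul, dotProduct, Matrix.map_apply, hG, Matrix.of_apply,
          Pi.zero_apply] at h7
        rw [← h7]
        refine Finset.sum_congr rfl fun i _ => ?_
        rw [hg' i j]; push_cast; rfl
      have h8 := b0.sum_repr w
      rw [← h8, hEsumr]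
      exact Finset.sum_eq_zero fun i _ => by rw [h6, mul_zero]
    exact funext (Fintype.linearIndependent_iff.1 b0.linearIndependent t h5)
  have hselfL : ∀ v, (∀ l ∈ L, ∃ k : ℤ, E v l = k) → v ∈ L := by
    intro v hv
    have h3 : ∀ j, ∃ k : ℤ, E v (b0 j) = k := fun j => hv _ (hbL j)
    choose m hm using h3
    set t : Fin n → ℝ := fun i => b0.repr v i with ht
    have hvt : v = ∑ i, t i • b0 i := (b0.sum_repr v).symm
    -- the rational solution
    set q : Fin n → ℚ := Matrix.vecMul (fun j => (m j : ℚ)) G⁻¹ with hq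
    have hqG : Matrix.vecMul q G = fun j => (m j : ℚ) := by
      rw [hq, Matrix.vecMul_vecMul, Matrix.nonsing_inv_mul _ (isUnit_iff_ne_zero.2 hdet),
        Matrix.vecMul_one]
    have htq : t = fun i => (q i : ℝ) := by
      have h4 : (∑ i, (t i - (q i : ℝ)) • b0 i) = 0 := by
        apply TorP_nondeg
        intro w
        have h6 : ∀ j, E (∑ i, (t i - (q i : ℝ)) • b0 i) (b0 j) = 0 := by
          intro j
          rw [hEsum]
          simp only [sub_mul, Finset.sum_sub_distrib]
          rw [← hEsum t, ← hvt, hm j]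
          have h7 := congrFun hqG j
          simp only [Matrix.vecMul, dotProduct, hG, Matrix.of_apply] at h7
          have h8 : (∑ i, (q i : ℝ) * (g i j : ℝ)) = (m j : ℝ) := by exact_mod_cast h7
          rw [← h8, sub_eq_zero]
          refine Finset.sum_congr rfl fun i _ => ?_
          rw [hg' i j]
        have h8 := b0.sum_repr w
        rw [← h8, hEsumr]
        exact Finset.sum_eq_zero fun i _ => by rw [h6, mul_zero]
      have h5 := Fintype.linearIndependent_iff.1 b0.linearIndependent _ h4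
      funext i
      exact sub_eq_zero.1 (h5 i)
    set x : V := ∑ i, q i • e i with hx
    have hCx : C x = v := by
      rw [hx, hsum, hvt]
      refine Finset.sum_congr rfl fun i _ => ?_
      rw [htq]
    rw [hmem]
    refine ⟨x, hself x fun j => ⟨m j, ?_⟩, hCx⟩
    have h9 := hE x (e j)
    have h10 : C (e j) = b0 j := (hb0a j).symm
    rw [hCx, h10, hm j] at h9
    exact_mod_cast h9.symm
  -- the semicharacter
  have hinv : ∀ x, Function.invFun C (C x) = x := Function.leftInverse_invFun hinj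
  refine ⟨L, fun v => χ (Function.invFun C v), ⟨?_, hintL, hselfL, ?_, ?_⟩, hmem⟩
  · have hcard : Fintype.card (Fin n) = Fintype.card (ι ⊕ ι) := by
      rw [Fintype.card_fin, hn, Fintype.card_sum]; ring
    refine ⟨b0.reindex (Fintype.equivOfCardEq hcard), ?_⟩
    rw [Module.Basis.range_reindex, hLspan]
  · intro l hl
    obtain ⟨x, hx, rfl⟩ := (hmem l).1 hl
    rw [hinv]
    exact hpm x hx
  · intro l hl m hm
    obtain ⟨x, hx, rfl⟩ := (hmem l).1 hl
    obtain ⟨y, hy, rfl⟩ := (hmem m).1 hm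
    have h3 : C x + C y = C (x + y) := (map_add C x y).symm
    rw [h3, hinv, hinv, hinv, hadd x hx y hy, hE x y]
    push_cast
    rfl

theorem thm_Prin (h1 : St_RBas) (h2 : St_CorA) : St_Prin := by
  intro α β _ _ _ _ R X₀ d hD
  classical
  obtain ⟨-, hca, hcs, -, -, hcE, -, -, -⟩ := h2 α β
  obtain ⟨⟨e0⟩, hB⟩ := h1 α β R X₀ d hD
  have hfd : FiniteDimensional ℚ R := Module.Finite.of_basis e0
  have hc0 : cor (0 : Matrix (α ⊕ β) (α ⊕ β) ℂ) = 0 := by
    have h := hca 0 0
    rw [add_zero] at h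
    exact left_eq_add.1 h
  let C : R →+ (Ix α β (α ⊕ β) → ℂ) :=
    { toFun := fun r => cor (X₀ * (r : Matrix (α ⊕ β) (α ⊕ β) ℂ))
      map_zero' := by
        change cor (X₀ * 0) = 0
        rw [mul_zero, hc0]
      map_add' := fun x y => by
        change cor (X₀ * ((x : Matrix (α ⊕ β) (α ⊕ β) ℂ) +
          (y : Matrix (α ⊕ β) (α ⊕ β) ℂ))) = _
        rw [mul_add, hca] }
  have hCv : ∀ r : R, C r = cor (X₀ * (r : Matrix (α ⊕ β) (α ⊕ β) ℂ)) := fun _ => rfl
  have hCq : ∀ (q : ℚ) (x : R), C (q • x) = (q : ℝ) • C x := by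
    intro q x
    rw [hCv, hCv]
    have h3 : X₀ * ((q • x : R) : Matrix (α ⊕ β) (α ⊕ β) ℂ) =
        (((q : ℝ)) : ℂ) • (X₀ * (x : Matrix (α ⊕ β) (α ⊕ β) ℂ)) := by
      have h4 : ((q • x : R) : Matrix (α ⊕ β) (α ⊕ β) ℂ) =
          (((q : ℝ)) : ℂ) • (x : Matrix (α ⊕ β) (α ⊕ β) ℂ) := by
        ext i j
        change q • ((x : Matrix (α ⊕ β) (α ⊕ β) ℂ) i j) = _
        rw [Rat.smul_def, Matrix.smul_apply, smul_eq_mul]
        push_cast
        rfl
      rw [h4, Matrix.mul_smul]
    rw [h3, hcs]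
    funext p
    rw [Pi.smul_apply, Pi.smul_apply, smul_eq_mul, Complex.real_smul]
  have hq : ∀ r r' : R, ∃ q : ℚ, E (C r) (C r') = q := by
    intro r r'
    obtain ⟨q, hq⟩ := hD.rat r r.2 r' r'.2
    exact ⟨q, by rw [hCv, hCv, hcE, hq]⟩
  choose b hb using hq
  let B : R →ₗ[ℚ] R →ₗ[ℚ] ℚ := LinearMap.mk₂ ℚ b
    (fun x y z => by
      have h : ((b (x + y) z : ℚ) : ℝ) = ((b x z + b y z : ℚ) : ℝ) := by
        push_cast
        rw [← hb, ← hb, ← hb, map_add, E_add_left]
      exact_mod_cast h)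
    (fun c x y => by
      have h : ((b (c • x) y : ℚ) : ℝ) = ((c * b x y : ℚ) : ℝ) := by
        push_cast
        rw [← hb, ← hb, hCq, E_rsmul_left]
      rw [smul_eq_mul]
      exact_mod_cast h)
    (fun x y z => by
      have h : ((b x (y + z) : ℚ) : ℝ) = ((b x y + b x z : ℚ) : ℝ) := by
        push_cast
        rw [← hb, ← hb, ← hb, map_add, E_add_right]
      exact_mod_cast h)
    (fun c x y => by
      have h : ((b x (c • y) : ℚ) : ℝ) = ((c * b x y : ℚ) : ℝ) := by
        push_cast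
        rw [← hb, ← hb, hCq, E_symm, E_rsmul_left, E_symm (C y)]
        ring
      rw [smul_eq_mul]
      exact_mod_cast h)
  have hBE : ∀ x y, E (C x) (C y) = ((B x y : ℚ) : ℝ) := fun x y => hb x y
  have hB0 : ∀ x, B x x = 0 := by
    intro x
    have h := hBE x x
    rw [E_self] at h
    exact_mod_cast h.symm
  have hBn : ∀ x, (∀ y, B x y = 0) → x = 0 := by
    intro x hx
    obtain ⟨hN, -, -, hli, hsp⟩ := hB _ e0
    have h0 : C x = 0 := by
      apply TorP_nondeg
      intro w
      have hw : w ∈ Submodule.span ℝ (Set.range fun i => cor (X₀ *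
          (e0 i : Matrix (α ⊕ β) (α ⊕ β) ℂ))) := by
        rw [hsp]
        exact Submodule.mem_top
      induction hw using Submodule.span_induction with
      | mem y hy =>
        obtain ⟨i, rfl⟩ := hy
        have h := hBE x (e0 i)
        rw [hx] at h
        rw [hCv (e0 i)] at h
        rw [h]
        exact Rat.cast_zero
      | zero => exact E_zero_right _
      | add y z _ _ hy hz => rw [E_add_right, hy, hz, add_zero]
      | smul a y _ hy => rw [E_symm, E_rsmul_left, E_symm y, hy]; simp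
    have h5 : C x = ∑ i, (e0.repr x i : ℝ) • C (e0 i) := by
      conv_lhs => rw [← e0.sum_repr x]
      rw [map_sum]
      exact Finset.sum_congr rfl fun i _ => hCq _ _
    rw [h5] at h0
    have h6 := Fintype.linearIndependent_iff.1 hli (fun i => (e0.repr x i : ℝ)) h0
    rw [← e0.repr.map_eq_zero_iff]
    ext i
    have h9 : ((e0.repr x i : ℚ) : ℝ) = 0 := h6 i
    have h10 : e0.repr x i = 0 := by exact_mod_cast h9
    rw [h10]
    rfl
  obtain ⟨N, e, hint, hself⟩ := GAM.thm_Symp R B hB0 hBn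
  obtain ⟨χ, hpm, hadd⟩ := GAM.thm_ChiB R B N e hB0 hint
  obtain ⟨hN, -, -, hli, hsp⟩ := hB N e
  obtain ⟨L, χ', hL, hmem⟩ := Prin_gen C hCq e (by
    rw [hN, Fintype.card_prod, Fintype.card_sum]
    ring) hli hsp B hBE hint hself χ hpm hadd
  refine ⟨N, e, L, χ', hL, fun v => ?_⟩
  rw [hmem]
  have hlat : ∀ r, r ∈ lat e ↔ ∃ x ∈ Submodule.span ℤ (Set.range e),
      ((x : R) : Matrix (α ⊕ β) (α ⊕ β) ℂ) = r := by
    intro r
    let f : R →+ Matrix (α ⊕ β) (α ⊕ β) ℂ := R.val.toAddMonoidHom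
    have h7 : lat e = (Submodule.span ℤ (Set.range e)).map f.toIntLinearMap := by
      rw [Submodule.map_span, ← Set.range_comp]
      rfl
    rw [h7, Submodule.mem_map]
    rfl
  constructor
  · rintro ⟨x, hx, rfl⟩
    exact ⟨_, (hlat _).mpr ⟨x, hx, rfl⟩, rfl⟩
  · rintro ⟨r, hr, rfl⟩
    obtain ⟨x, hx, rfl⟩ := (hlat r).mp hr
    exact ⟨x, hx, rfl⟩

end PST
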