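import Pool.Agent.PST.StF

/-!
# PST [PsiC]: closed formula for the Fock vector
-/

set_option autoImplicit false
set_option linter.unusedSectionVars false

namespace PST

open scoped ComplexConjugate
open MeasureTheory
open GAM (H E F pd pdl PLat IsTh OddTor IsDel Gro IsLat)

section

variable {α β μ : Type} [Fintype α] [Fintype β] [Fintype μ] [DecidableEq α]
  [DecidableEq β] [DecidableEq μ]

/-- the form as a sum over `β × μ` -/
lemma PsiC_H (w : α × β → ℂ) (ξ : β × μ → ℂ) (x : Ix α β μ → ℂ) :
    H (emb w ξ) x = ∑ q : β × μ, ((∑ i, w (i, q.1) * conj (ξ q) * conj (x (Sum.inl i, q.2))) +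
      ξ q * conj (x (Sum.inr q.1, q.2))) := by
  unfold H
  rw [Fintype.sum_prod_type, Fintype.sum_sum_type, Finset.sum_add_distrib]
  congr 1
  · rw [Fintype.sum_prod_type]
    simp only [emb, Sum.elim_inl, Finset.sum_mul]
    rw [Finset.sum_comm]
    have h1 : ∀ k : μ, ∑ i : α, ∑ j : β, w (i, j) * conj (ξ (j, k)) * conj (x (Sum.inl i, k)) =
        ∑ j : β, ∑ i : α, w (i, j) * conj (ξ (j, k)) * conj (x (Sum.inl i, k)) :=
      fun k => Finset.sum_comm
    rw [Finset.sum_congr rfl fun k _ => h1 k, Finset.sum_comm]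
  · rw [Fintype.sum_prod_type]
    simp only [emb, Sum.elim_inr]

lemma PsiC_qf (w : α × β → ℂ) (x : Ix α β μ → ℂ) :
    qf (mt w) (star x) (star x) = ∑ q : β × μ, ∑ i, w (i, q.1) *
      conj (x (Sum.inl i, q.2)) * conj (x (Sum.inr q.1, q.2)) := by
  unfold qf mt
  rw [Fintype.sum_prod_type, Finset.sum_comm]
  refine Finset.sum_congr rfl fun j _ => ?_
  rw [Finset.sum_comm]
  rfl

end

theorem thm_PsiC : St_PsiC := by
  intro α β μ _ _ _ _ _ _ θ w x
  unfold psi ell ex Phi
  rw [← integral_sub_right_eq_self _ (fun q : β × μ => x (Sum.inr q.1, q.2)),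
    ← integral_const_mul]
  refine integral_congr_ae (ae_of_all _ fun y => ?_)
  simp only
  unfold F gw
  have harg : x + emb w (y - fun q : β × μ => x (Sum.inr q.1, q.2)) = emU w (Uw w x) y := by
    funext p
    obtain ⟨s, k⟩ := p
    cases s with
    | inl i =>
      simp only [Pi.add_apply, emb, emU, Uw, Sum.elim_inl, Pi.sub_apply, map_sub, mul_sub,
        Finset.sum_sub_distrib]
      ring
    | inr j =>
      simp only [Pi.add_apply, emb, emU, Sum.elim_inr, Pi.sub_apply]
      ring
  rw [harg]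
  have hexp : Complex.exp (-(Real.pi * H (emb w (y - fun q : β × μ => x (Sum.inr q.1, q.2))) x) -
        Real.pi / 2 * H x x) *
      Complex.exp (-(Real.pi * ∑ p, (y - fun q : β × μ => x (Sum.inr q.1, q.2)) p *
        conj ((y - fun q : β × μ => x (Sum.inr q.1, q.2)) p))) =
      Complex.exp (-(Real.pi / 2 * H x x) + Real.pi * qf (mt w) (star x) (star x)) *
      (Complex.exp (Real.pi * ∑ q : β × μ, conj (y q) * Uw w x (Sum.inr q.1, q.2)) *
        Complex.exp (-(Real.pi * ∑ p, y p * conj (y p)))) := by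
    rw [← Complex.exp_add, ← Complex.exp_add, ← Complex.exp_add]
    congr 1
    rw [PsiC_H, PsiC_qf]
    have h1 : ∑ q : β × μ, ((∑ i, w (i, q.1) *
          conj ((y - fun q : β × μ => x (Sum.inr q.1, q.2)) q) * conj (x (Sum.inl i, q.2))) +
          (y - fun q : β × μ => x (Sum.inr q.1, q.2)) q * conj (x (Sum.inr q.1, q.2))) +
        ∑ p, (y - fun q : β × μ => x (Sum.inr q.1, q.2)) p *
          conj ((y - fun q : β × μ => x (Sum.inr q.1, q.2)) p) +
        ∑ q : β × μ, ∑ i, w (i, q.1) *
          conj (x (Sum.inl i, q.2)) * conj (x (Sum.inr q.1, q.2)) +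
        ∑ q : β × μ, conj (y q) * Uw w x (Sum.inr q.1, q.2) - ∑ p, y p * conj (y p) = 0 := by
      rw [← Finset.sum_add_distrib, ← Finset.sum_add_distrib, ← Finset.sum_add_distrib,
        ← Finset.sum_sub_distrib]
      refine Finset.sum_eq_zero fun q _ => ?_
      have h2 : ∑ i, w (i, q.1) *
          conj ((y - fun q : β × μ => x (Sum.inr q.1, q.2)) q) * conj (x (Sum.inl i, q.2)) =
          (conj (y q) - conj (x (Sum.inr q.1, q.2))) * ∑ i, w (i, q.1) *
            conj (x (Sum.inl i, q.2)) := by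
        rw [Finset.mul_sum]
        refine Finset.sum_congr rfl fun i _ => ?_
        rw [Pi.sub_apply, map_sub]
        ring
      have h3 : ∑ i, w (i, q.1) *
          conj (x (Sum.inl i, q.2)) * conj (x (Sum.inr q.1, q.2)) =
          conj (x (Sum.inr q.1, q.2)) * ∑ i, w (i, q.1) * conj (x (Sum.inl i, q.2)) := by
        rw [Finset.mul_sum]
        refine Finset.sum_congr rfl fun i _ => ?_
        ring
      have h4 : Uw w x (Sum.inr q.1, q.2) = x (Sum.inr q.1, q.2) -
          ∑ i, w (i, q.1) * conj (x (Sum.inl i, q.2)) := rfl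
      rw [h2, h3, h4, Pi.sub_apply, map_sub]
      ring
    linear_combination (-(Real.pi : ℂ)) * h1
  linear_combination (θ (emU w (Uw w x) y)) * hexp

end PST
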