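import Pool.Agent.PST.PsiE

/-!
# PST [PsiD]: the derivatives of the Fock vector by the derivatives of its holomorphic form
-/

set_option autoImplicit false

namespace PST

open scoped ComplexConjugate
open GAM (H E F pd pdl PLat IsTh OddTor IsDel Gro IsLat)
open MeasureTheory

section PsiD

variable {α β μ : Type} [Fintype α] [Fintype β] [Fintype μ]

/-- The plus part, complex linear. -/
noncomputable def PsiD_Lp : (Ix α β μ → ℂ) →L[ℂ] (Ix α β μ → ℂ) :=
  LinearMap.toContinuousLinearMap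
    { toFun := fun U p => Sum.elim (fun i => U (Sum.inl i, p.2)) (fun _ => 0) p.1
      map_add' := by
        intro x y
        funext p
        obtain ⟨i | j, k⟩ := p
        · rfl
        · exact (add_zero 0).symm
      map_smul' := by
        intro c x
        funext p
        obtain ⟨i | j, k⟩ := p
        · rfl
        · exact (mul_zero c).symm }

/-- The linear form `∑ conj y_q h_q`. -/
noncomputable def PsiD_Lm (y : β × μ → ℂ) : (Ix α β μ → ℂ) →L[ℂ] ℂ :=
  LinearMap.toContinuousLinearMap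
    { toFun := fun U => ∑ q : β × μ, conj (y q) * U (Sum.inr q.1, q.2)
      map_add' := by
        intro x z
        rw [← Finset.sum_add_distrib]
        exact Finset.sum_congr rfl fun q _ => mul_add _ _ _
      map_smul' := by
        intro c x
        rw [RingHom.id_apply, smul_eq_mul, Finset.mul_sum]
        exact Finset.sum_congr rfl fun q _ => by
          rw [Pi.smul_apply, smul_eq_mul]
          ring }

/-- `emb w` is real linear. -/
noncomputable def PsiD_Le (w : α × β → ℂ) : (β × μ → ℂ) →L[ℝ] (Ix α β μ → ℂ) :=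
  LinearMap.toContinuousLinearMap
    { toFun := emb w
      map_add' := by
        intro x y
        funext p
        obtain ⟨i | j, k⟩ := p
        · simp only [emb, Sum.elim_inl, Pi.add_apply, map_add, mul_add, Finset.sum_add_distrib]
        · rfl
      map_smul' := by
        intro c x
        funext p
        obtain ⟨i | j, k⟩ := p
        · simp only [emb, Sum.elim_inl, Pi.smul_apply, Complex.real_smul, map_mul,
            Complex.conj_ofReal, RingHom.id_apply, Finset.mul_sum]
          exact Finset.sum_congr rfl fun _ _ => by ring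
        · rfl }

lemma PsiD_Le_apply (w : α × β → ℂ) (y : β × μ → ℂ) : PsiD_Le w y = emb w y := rfl

lemma PsiD_emU1 (w : α × β → ℂ) (U : Ix α β μ → ℂ) (y : β × μ → ℂ) :
    emU w U y = PsiD_Lp U + emb w y := by
  funext p
  obtain ⟨i | j, k⟩ := p
  · rfl
  · exact (zero_add (y (j, k))).symm

lemma PsiD_Lp_inl [DecidableEq α] [DecidableEq β] [DecidableEq μ] (i : α) (k : μ) :
    PsiD_Lp (Pi.single (Sum.inl i, k) 1 : Ix α β μ → ℂ) = Pi.single (Sum.inl i, k) 1 := by
  funext p
  obtain ⟨i' | j, k'⟩ := p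
  · rfl
  · show (0 : ℂ) = _
    rw [Pi.single_eq_of_ne]
    simp

lemma PsiD_Lp_inr [DecidableEq α] [DecidableEq β] [DecidableEq μ] (j : β) (k : μ) :
    PsiD_Lp (Pi.single (Sum.inr j, k) 1 : Ix α β μ → ℂ) = 0 := by
  funext p
  obtain ⟨i' | j', k'⟩ := p
  · show (Pi.single (Sum.inr j, k) 1 : Ix α β μ → ℂ) (Sum.inl i', k') = 0
    rw [Pi.single_eq_of_ne]
    simp
  · rfl

lemma PsiD_Lm_inl [DecidableEq α] [DecidableEq β] [DecidableEq μ] (y : β × μ → ℂ) (i : α) (k : μ) :
    PsiD_Lm y (Pi.single (Sum.inl i, k) 1 : Ix α β μ → ℂ) = 0 := by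
  show ∑ q : β × μ, conj (y q) * (Pi.single (Sum.inl i, k) 1 : Ix α β μ → ℂ) (Sum.inr q.1, q.2) = 0
  refine Finset.sum_eq_zero fun q _ => ?_
  rw [Pi.single_eq_of_ne, mul_zero]
  simp

lemma PsiD_Lm_inr [DecidableEq α] [DecidableEq β] [DecidableEq μ] (y : β × μ → ℂ) (j : β) (k : μ) :
    PsiD_Lm y (Pi.single (Sum.inr j, k) 1 : Ix α β μ → ℂ) = conj (y (j, k)) := by
  show ∑ q : β × μ, conj (y q) * (Pi.single (Sum.inr j, k) 1 : Ix α β μ → ℂ) (Sum.inr q.1, q.2) = _
  rw [Finset.sum_eq_single (j, k)]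
  · rw [Pi.single_eq_same, mul_one]
  · rintro ⟨j', k'⟩ _ hne
    rw [Pi.single_eq_of_ne, mul_zero]
    intro h
    apply hne
    simpa using h
  · intro h
    exact absurd (Finset.mem_univ _) h

/-- Derivative of the integrand in `U`. -/
lemma PsiD_dU {G : (Ix α β μ → ℂ) → ℂ} (hG : Differentiable ℂ G) (w : α × β → ℂ)
    (U : Ix α β μ → ℂ) (y : β × μ → ℂ) (h : Ix α β μ → ℂ) :
    fderiv ℂ (fun U => PsiE_int G w U y) U h =
      (fderiv ℂ G (emU w U y) (PsiD_Lp h) + G (emU w U y) * (Real.pi * PsiD_Lm y h)) *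
        Complex.exp (Real.pi * ∑ q : β × μ, conj (y q) * U (Sum.inr q.1, q.2)) * gw y := by
  have h1 : HasFDerivAt (fun U : Ix α β μ → ℂ => G (emU w U y))
      ((fderiv ℂ G (emU w U y)).comp PsiD_Lp) U := by
    have h2 : HasFDerivAt (fun U : Ix α β μ → ℂ => emU w U y) (PsiD_Lp : (Ix α β μ → ℂ) →L[ℂ] _) U := by
      have h3 := (PsiD_Lp (α := α) (β := β) (μ := μ)).hasFDerivAt (x := U)
      have h4 := h3.add_const (emb w y)
      have e : (fun U : Ix α β μ → ℂ => emU w U y) = fun U => PsiD_Lp U + emb w y :=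
        funext fun U => PsiD_emU1 w U y
      rw [e]
      exact h4
    exact (hG (emU w U y)).hasFDerivAt.comp U h2
  have h5 : HasFDerivAt (fun U : Ix α β μ → ℂ =>
      Complex.exp (Real.pi * ∑ q : β × μ, conj (y q) * U (Sum.inr q.1, q.2)))
      (Complex.exp (Real.pi * ∑ q : β × μ, conj (y q) * U (Sum.inr q.1, q.2)) •
        ((Real.pi : ℂ) • PsiD_Lm y)) U :=
    (((PsiD_Lm (α := α) y).hasFDerivAt (x := U)).const_mul (Real.pi : ℂ)).cexp
  have h6 := (h1.mul h5).mul_const (gw y)
  have h7 : fderiv ℂ (fun U => PsiE_int G w U y) U = _ := h6.fderiv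
  rw [h7]
  simp only [smul_apply, add_apply,
    ContinuousLinearMap.comp_apply, smul_eq_mul]
  ring

lemma PsiD_pdl [DecidableEq α] [DecidableEq β] [DecidableEq μ] {G : (Ix α β μ → ℂ) → ℂ}
    (hG : Differentiable ℂ G) (w : α × β → ℂ) (U : Ix α β μ → ℂ) (y : β × μ → ℂ) (i : α) (k : μ) :
    pd (Sum.inl i, k) (fun U => PsiE_int G w U y) U = PsiE_int (pd (Sum.inl i, k) G) w U y := by
  unfold GAM.pd
  rw [PsiD_dU hG, PsiD_Lp_inl, PsiD_Lm_inl, mul_zero, mul_zero, add_zero]
  rfl

lemma PsiD_pdr [DecidableEq α] [DecidableEq β] [DecidableEq μ] {G : (Ix α β μ → ℂ) → ℂ}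
    (hG : Differentiable ℂ G) (w : α × β → ℂ) (U : Ix α β μ → ℂ) (y : β × μ → ℂ) (j : β) (k : μ) :
    pd (Sum.inr j, k) (fun U => PsiE_int G w U y) U =
      (Real.pi * conj (y (j, k))) * PsiE_int G w U y := by
  unfold GAM.pd
  rw [PsiD_dU hG, PsiD_Lp_inr, PsiD_Lm_inr, map_zero, zero_add]
  unfold PsiE_int
  ring

/-- Derivative of the integrand in `y`. -/
lemma PsiD_dy {G : (Ix α β μ → ℂ) → ℂ} (hG : Differentiable ℂ G) (w : α × β → ℂ)
    (U : Ix α β μ → ℂ) (y : β × μ → ℂ) : ∃ D : (β × μ → ℂ) →L[ℝ] ℂ,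
    HasFDerivAt (fun y => PsiE_int G w U y) D y ∧ ∀ h : β × μ → ℂ, D h =
      fderiv ℂ G (emU w U y) (emb w h) *
        Complex.exp (Real.pi * ∑ q : β × μ, conj (y q) * U (Sum.inr q.1, q.2)) * gw y +
      (Real.pi * ∑ q : β × μ, (conj (h q) * U (Sum.inr q.1, q.2) -
        (h q * conj (y q) + y q * conj (h q)))) * PsiE_int G w U y := by
  have h1 : HasFDerivAt (fun y : β × μ → ℂ => G (emU w U y))
      (((fderiv ℂ G (emU w U y)).restrictScalars ℝ).comp (PsiD_Le w)) y := by
    have h2 : HasFDerivAt (fun y : β × μ → ℂ => emU w U y) (PsiD_Le w) y := by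
      have h3 := ((PsiD_Le w).hasFDerivAt (x := y)).const_add (PsiD_Lp U)
      have e : (fun y : β × μ → ℂ => emU w U y) = fun y => PsiD_Lp U + PsiD_Le w y :=
        funext fun y => PsiD_emU1 w U y
      rw [e]
      exact h3
    have h4 : HasFDerivAt G ((fderiv ℂ G (emU w U y)).restrictScalars ℝ) (emU w U y) :=
      (hG (emU w U y)).hasFDerivAt.restrictScalars ℝ
    exact h4.comp y h2
  have hc : ∀ q : β × μ, HasFDerivAt (fun y : β × μ → ℂ => conj (y q))
      ((Complex.conjCLE : ℂ →L[ℝ] ℂ).comp (ContinuousLinearMap.proj q)) y := fun q =>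
    (Complex.conjCLE : ℂ →L[ℝ] ℂ).hasFDerivAt.comp y (hasFDerivAt_apply q y)
  have h5 : HasFDerivAt (fun y : β × μ → ℂ => ∑ q : β × μ, conj (y q) * U (Sum.inr q.1, q.2))
      (∑ q : β × μ, U (Sum.inr q.1, q.2) •
        ((Complex.conjCLE : ℂ →L[ℝ] ℂ).comp (ContinuousLinearMap.proj q))) y :=
    HasFDerivAt.fun_sum fun q _ => (hc q).mul_const (U (Sum.inr q.1, q.2))
  have h6 : HasFDerivAt (fun y : β × μ → ℂ => ∑ q : β × μ, y q * conj (y q))
      (∑ q : β × μ, (y q • ((Complex.conjCLE : ℂ →L[ℝ] ℂ).comp (ContinuousLinearMap.proj q)) +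
        conj (y q) • (ContinuousLinearMap.proj (R := ℝ) q))) y :=
    HasFDerivAt.fun_sum fun q _ => (hasFDerivAt_apply q y).mul (hc q)
  have h7 := (h5.const_mul (Real.pi : ℂ)).cexp
  have h8 := ((h6.const_mul (Real.pi : ℂ)).neg).cexp
  have h9 := (h1.mul h7).mul h8
  refine ⟨_, h9, fun h => ?_⟩
  simp only [Pi.mul_apply, Pi.neg_apply, smul_apply, add_apply, neg_apply,
    ContinuousLinearMap.comp_apply, smul_eq_mul, sum_apply,
    ContinuousLinearMap.proj_apply, ContinuousLinearEquiv.coe_coe, Complex.conjCLE_apply,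
    ContinuousLinearMap.coe_restrictScalars', PsiD_Le_apply]
  unfold PsiE_int gw
  rw [Finset.sum_sub_distrib]
  have e1 : ∑ q : β × μ, conj (h q) * U (Sum.inr q.1, q.2) =
      ∑ q : β × μ, U (Sum.inr q.1, q.2) * conj (h q) :=
    Finset.sum_congr rfl fun q _ => mul_comm _ _
  have e2 : ∑ q : β × μ, (h q * conj (y q) + y q * conj (h q)) =
      ∑ q : β × μ, (y q * conj (h q) + conj (y q) * h q) :=
    Finset.sum_congr rfl fun q _ => by ring
  rw [e1, e2]
  ring

/-- The integral of a derivative is zero. -/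
lemma PsiD_int_zero {κ : Type} [Fintype κ] (Φ : (κ → ℂ) → ℂ) (h : κ → ℂ) (f : (κ → ℂ) → ℂ)
    (hD : ∀ ξ, ∃ D : (κ → ℂ) →L[ℝ] ℂ, HasFDerivAt Φ D ξ ∧ D h = f ξ)
    (hΦ : Integrable Φ) (hf : Integrable f) : ∫ ξ, f ξ = 0 := by
  choose D hD1 hD2 using hD
  have h1 := integral_bilinear_hasFDerivAt_right_eq_neg_left_of_integrable
    (μ := (volume : Measure (κ → ℂ))) (f := fun _ => (1 : ℂ)) (f' := fun _ => 0) (g := Φ) (g' := D)
    (v := h) (B := ContinuousLinearMap.mul ℝ ℂ) (by simp) (by simpa [hD2] using hf)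
    (by simpa using hΦ) (fun ξ _ => hasFDerivAt_const _ _) (fun ξ _ => hD1 ξ)
  simpa [hD2] using h1

variable [DecidableEq α] [DecidableEq β] [DecidableEq μ]

lemma PsiD_fd (G : (Ix α β μ → ℂ) → ℂ) (V v : Ix α β μ → ℂ) :
    fderiv ℂ G V v = ∑ p, v p * pd p G V := by
  have h1 : v = ∑ p, v p • (Pi.single p 1 : Ix α β μ → ℂ) := by
    refine (pi_eq_sum_univ v).trans (Finset.sum_congr rfl fun p _ => ?_)
    congr 1
    funext q
    simp [Pi.single_apply, eq_comm]
  conv_lhs => rw [h1]
  rw [map_sum]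
  exact Finset.sum_congr rfl fun p _ => by rw [map_smul]; rfl

/-- Integration by parts for the integrand. -/
lemma PsiD_parts (hGau : St_Gau) {G : (Ix α β μ → ℂ) → ℂ} (hG : Gro G) {w : α × β → ℂ}
    (hw : w ∈ Om α β) (U : Ix α β μ → ℂ) (q : β × μ) :
    ∫ y : β × μ → ℂ, (Real.pi * conj (y q)) * PsiE_int G w U y =
      ∫ y, PsiE_int (pd (Sum.inr q.1, q.2) G) w U y := by
  have hpi := Real.pi_pos
  -- the derivative in the direction `h`
  let f : (β × μ → ℂ) → (β × μ → ℂ) → ℂ := fun h y =>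
    (∑ p, emb w h p * PsiE_int (pd p G) w U y) +
      (Real.pi * ∑ q : β × μ, (conj (h q) * U (Sum.inr q.1, q.2) -
        (h q * conj (y q) + y q * conj (h q)))) * PsiE_int G w U y
  have hf1 : ∀ h, Integrable (f h) := by
    intro h
    refine Integrable.add (integrable_finsetSum _ fun p _ =>
      (PsiE_integrable0 hGau ((GAM.thm_GroC (Ix α β μ)).1 G hG p) hw U).const_mul _) ?_
    refine PsiE_integrable hGau hG hw U _ (continuous_const.mul (continuous_finsetSum _ fun q _ =>
      continuous_const.sub ((continuous_const.mul (Complex.continuous_conj.comp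
        (continuous_apply q))).add ((continuous_apply q).mul continuous_const))))
      (Real.pi * (Fintype.card (β × μ) * (‖h‖ * ‖U‖) + 2 * ‖h‖)) fun y => ?_
    rw [norm_mul, Complex.norm_real, Real.norm_of_nonneg hpi.le, mul_assoc]
    refine mul_le_mul_of_nonneg_left ?_ hpi.le
    have g1 : ∀ q : β × μ, ‖conj (h q) * U (Sum.inr q.1, q.2) -
        (h q * conj (y q) + y q * conj (h q))‖ ≤ ‖h‖ * ‖U‖ + 2 * ‖h‖ * ‖y q‖ := by
      intro q
      refine (norm_sub_le _ _).trans (add_le_add ?_ ?_)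
      · rw [norm_mul, RCLike.norm_conj]
        exact mul_le_mul (norm_le_pi_norm h q) (norm_le_pi_norm U _) (norm_nonneg _)
          (norm_nonneg _)
      · refine (norm_add_le _ _).trans ?_
        rw [norm_mul, norm_mul, RCLike.norm_conj, RCLike.norm_conj]
        have := mul_le_mul_of_nonneg_right (norm_le_pi_norm h q) (norm_nonneg (y q))
        linarith
    refine (norm_sum_le _ _).trans ((Finset.sum_le_sum fun q _ => g1 q).trans ?_)
    rw [Finset.sum_add_distrib, Finset.sum_const, Finset.card_univ, nsmul_eq_mul,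
      ← Finset.mul_sum]
    have g2 : 0 ≤ ∑ q, ‖y q‖ := Finset.sum_nonneg fun _ _ => norm_nonneg _
    have g3 : 0 ≤ (Fintype.card (β × μ) * (‖h‖ * ‖U‖) : ℝ) * ∑ q, ‖y q‖ := by positivity
    have g4 : 0 ≤ 2 * ‖h‖ := by positivity
    nlinarith
  have hf0 : ∀ h, ∫ y, f h y = 0 := by
    intro h
    refine PsiD_int_zero (fun y => PsiE_int G w U y) h (f h) (fun y => ?_)
      (PsiE_integrable0 hGau hG hw U) (hf1 h)
    obtain ⟨D, hD1, hD2⟩ := PsiD_dy hG.ent w U y
    refine ⟨D, hD1, ?_⟩
    rw [hD2, PsiD_fd]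
    show _ = (∑ p, emb w h p * PsiE_int (pd p G) w U y) + _
    congr 1
    rw [Finset.sum_mul, Finset.sum_mul]
    refine Finset.sum_congr rfl fun p _ => ?_
    unfold PsiE_int
    ring
  -- the Wirtinger combination
  have key : ∀ y, f (Pi.single q 1) y - Complex.I * f (Pi.single q Complex.I) y =
      2 * (PsiE_int (pd (Sum.inr q.1, q.2) G) w U y -
        (Real.pi * conj (y q)) * PsiE_int G w U y) := by
    intro y
    have e1 : ∀ p : Ix α β μ, emb w (Pi.single q 1 : β × μ → ℂ) p -
        Complex.I * emb w (Pi.single q Complex.I : β × μ → ℂ) p =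
        if p = (Sum.inr q.1, q.2) then 2 else 0 := by
      rintro ⟨i | j, k⟩
      · rw [if_neg (by simp)]
        simp only [emb, Sum.elim_inl]
        rw [Finset.mul_sum, ← Finset.sum_sub_distrib]
        refine Finset.sum_eq_zero fun j _ => ?_
        by_cases hjk : (j, k) = q
        · rw [← hjk, Pi.single_eq_same, Pi.single_eq_same, map_one, Complex.conj_I]
          linear_combination w (i, j) * Complex.I_mul_I
        · rw [Pi.single_eq_of_ne hjk, Pi.single_eq_of_ne hjk, map_zero]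
          ring
      · simp only [emb, Sum.elim_inr]
        by_cases hjk : (j, k) = q
        · rw [← hjk, Pi.single_eq_same, Pi.single_eq_same, if_pos rfl, Complex.I_mul_I]
          ring
        · rw [Pi.single_eq_of_ne hjk, Pi.single_eq_of_ne hjk, if_neg]
          · ring
          · intro h
            apply hjk
            rw [Prod.ext_iff] at h ⊢
            exact ⟨Sum.inr_injective h.1, h.2⟩
    have e2 : ∑ p, emb w (Pi.single q 1 : β × μ → ℂ) p * PsiE_int (pd p G) w U y -
        Complex.I * ∑ p, emb w (Pi.single q Complex.I : β × μ → ℂ) p * PsiE_int (pd p G) w U y =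
        2 * PsiE_int (pd (Sum.inr q.1, q.2) G) w U y := by
      rw [Finset.mul_sum, ← Finset.sum_sub_distrib]
      have e3 : ∀ p, emb w (Pi.single q 1 : β × μ → ℂ) p * PsiE_int (pd p G) w U y -
          Complex.I * (emb w (Pi.single q Complex.I : β × μ → ℂ) p * PsiE_int (pd p G) w U y) =
          (if p = (Sum.inr q.1, q.2) then 2 else 0) * PsiE_int (pd p G) w U y := by
        intro p
        rw [← e1 p]
        ring
      rw [Finset.sum_congr rfl fun p _ => e3 p, Finset.sum_eq_single (Sum.inr q.1, q.2)]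
      · rw [if_pos rfl]
      · intro p _ hp
        rw [if_neg hp, zero_mul]
      · intro h
        exact absurd (Finset.mem_univ _) h
    have e4 : ∀ c : ℂ, ∑ q' : β × μ, (conj ((Pi.single q c : β × μ → ℂ) q') *
        U (Sum.inr q'.1, q'.2) - ((Pi.single q c : β × μ → ℂ) q' * conj (y q') +
          y q' * conj ((Pi.single q c : β × μ → ℂ) q'))) =
        conj c * U (Sum.inr q.1, q.2) - (c * conj (y q) + y q * conj c) := by
      intro c
      rw [Finset.sum_eq_single q]
      · rw [Pi.single_eq_same]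
      · intro q' _ hne
        rw [Pi.single_eq_of_ne hne, map_zero]
        ring
      · intro h
        exact absurd (Finset.mem_univ _) h
    show (∑ p, emb w (Pi.single q 1 : β × μ → ℂ) p * PsiE_int (pd p G) w U y) + _ -
      Complex.I * ((∑ p, emb w (Pi.single q Complex.I : β × μ → ℂ) p *
        PsiE_int (pd p G) w U y) + _) = _
    rw [e4, e4, map_one, Complex.conj_I]
    linear_combination e2 + (Real.pi * (U (Sum.inr q.1, q.2) - y q + conj (y q))) *
      PsiE_int G w U y * Complex.I_mul_I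
  have hfin : ∫ y, (2 * (PsiE_int (pd (Sum.inr q.1, q.2) G) w U y -
        (Real.pi * conj (y q)) * PsiE_int G w U y)) = 0 := by
    have e5 : ∫ y, (f (Pi.single q 1) y - Complex.I * f (Pi.single q Complex.I) y) = 0 := by
      rw [integral_sub (hf1 _) ((hf1 _).const_mul _), integral_const_mul, hf0, hf0]
      ring
    rw [← e5]
    exact integral_congr_ae (Filter.Eventually.of_forall fun y => (key y).symm)
  have hi1 := PsiE_integrable0 hGau ((GAM.thm_GroC (Ix α β μ)).1 G hG (Sum.inr q.1, q.2)) hw U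
  have hi2 := PsiE_integrable hGau hG hw U (fun y => Real.pi * conj (y q))
    (continuous_const.mul (Complex.continuous_conj.comp (continuous_apply q))) Real.pi
    (fun y => by
      rw [norm_mul, Complex.norm_real, Real.norm_of_nonneg hpi.le, RCLike.norm_conj]
      refine mul_le_mul_of_nonneg_left ?_ hpi.le
      have g1 : ‖y q‖ ≤ ∑ q, ‖y q‖ := Finset.single_le_sum (f := fun q => ‖y q‖)
        (fun _ _ => norm_nonneg _) (Finset.mem_univ q)
      linarith)
  rw [integral_const_mul, integral_sub hi1 hi2] at hfin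
  have h3 := (mul_eq_zero.1 hfin).resolve_left two_ne_zero
  exact (sub_eq_zero.1 h3).symm

/-- The derivatives of the holomorphic form. -/
lemma PsiD_key (hHol : St_HolP) (hGau : St_Gau) {G : (Ix α β μ → ℂ) → ℂ} (hG : Gro G)
    {w : α × β → ℂ} (hw : w ∈ Om α β) (U : Ix α β μ → ℂ) (p : Ix α β μ) :
    pd p (Phi G w) U = Phi (pd p G) w U := by
  rw [(PsiE_hol hHol hGau hG hw).2 U p]
  obtain ⟨i | j, k⟩ := p
  · exact integral_congr_ae (Filter.Eventually.of_forall fun y => PsiD_pdl hG.ent w U y i k)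
  · refine Eq.trans ?_ (PsiD_parts hGau hG hw U (j, k))
    exact integral_congr_ae (Filter.Eventually.of_forall fun y => PsiD_pdr hG.ent w U y j k)

/-- The derivatives of the translates. -/
lemma PsiD_pdF {ι : Type} [Fintype ι] [DecidableEq ι] {θ : (ι → ℂ) → ℂ}
    (hθ : Differentiable ℂ θ) (x v : ι → ℂ) (p : ι) :
    pd p (F θ x) v = F (pd p θ) x v - Real.pi * conj (x p) * F θ x v := by
  have h1 : HasFDerivAt (fun v => θ (x + v)) (fderiv ℂ θ (x + v)) v := by
    have h2 := (hθ (x + v)).hasFDerivAt.comp v ((hasFDerivAt_id v).const_add x)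
    exact h2
  let Lx : (ι → ℂ) →L[ℂ] ℂ := LinearMap.toContinuousLinearMap
    { toFun := fun v => H v x
      map_add' := by
        intro a b
        unfold GAM.H
        rw [← Finset.sum_add_distrib]
        exact Finset.sum_congr rfl fun q _ => add_mul _ _ _
      map_smul' := by
        intro c a
        unfold GAM.H
        rw [RingHom.id_apply, smul_eq_mul, Finset.mul_sum]
        exact Finset.sum_congr rfl fun q _ => by
          rw [Pi.smul_apply, smul_eq_mul, mul_assoc] }
  have h3 : HasFDerivAt (fun v => Complex.exp (-(Real.pi * H v x) - Real.pi / 2 * H x x))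
      (Complex.exp (-(Real.pi * H v x) - Real.pi / 2 * H x x) • (-((Real.pi : ℂ) • Lx))) v :=
    ((((Lx.hasFDerivAt (x := v)).const_mul (Real.pi : ℂ)).neg).sub_const _).cexp
  have h4 := h1.mul h3
  have h5 : fderiv ℂ (F θ x) v = _ := h4.fderiv
  have h6 : Lx (Pi.single p 1) = conj (x p) := by
    show ∑ q, (Pi.single p 1 : ι → ℂ) q * conj (x q) = _
    rw [Finset.sum_eq_single p]
    · rw [Pi.single_eq_same, one_mul]
    · intro q _ hq
      rw [Pi.single_eq_of_ne hq, zero_mul]
    · intro h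
      exact absurd (Finset.mem_univ _) h
  unfold GAM.pd
  rw [h5]
  simp only [add_apply, smul_apply, neg_apply, smul_eq_mul, h6]
  unfold GAM.F
  ring

end PsiD

theorem thm_PsiD (h1 : St_HolP) (h2 : St_Gau) (h3 : St_EllI) (h4 : St_PsiC) : St_PsiD := by
  intro α β μ _ _ _ _ _ _ L χ θ hP hT w hw x p
  have hθ := PsiE_gro hP hT
  obtain ⟨c1, c2, c3, c4⟩ := GAM.thm_GroC (Ix α β μ)
  have hFx : Gro (F θ x) := (GAM.thm_GroF GAM.thm_GroU GAM.thm_GroC (Ix α β μ)).1 L χ θ hP hT x
  have e1 : F (pd p θ) x = fun v => pd p (F θ x) v + (Real.pi * conj (x p)) * F θ x v := by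
    funext v
    rw [PsiD_pdF hT.ent x v p]
    ring
  have hFp : Gro (F (pd p θ) x) := by
    rw [e1]
    exact c4 _ _ (c1 _ hFx p) (c3 _ hFx _)
  have hI : ∀ G : (Ix α β μ → ℂ) → ℂ, Gro G →
      Integrable fun ξ : β × μ → ℂ => G (emb w ξ) * gw ξ := by
    intro G hG
    obtain ⟨ρ, g0, g1, hwρ⟩ := hw
    obtain ⟨C, c, hC, hc, hb⟩ := h3 α β μ G hG ρ g0 g1
    refine (((h2 (β × μ)).1 c hc).const_mul C).mono' ?_ (Filter.Eventually.of_forall (hb w hwρ))
    exact ((hG.ent.continuous.comp (PsiD_Le w).continuous).mul PsiE_gw_cont).aestronglyMeasurable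
  have e2 : dpsi p θ w x = psi (pd p θ) w x - Real.pi * conj (x p) * psi θ w x := by
    unfold dpsi psi ell
    rw [← integral_const_mul, ← integral_sub (hI _ hFp) ((hI _ hFx).const_mul _)]
    refine integral_congr_ae (Filter.Eventually.of_forall fun ξ => ?_)
    show pd p (F θ x) (emb w ξ) * gw ξ = _
    rw [PsiD_pdF hT.ent]
    ring
  rw [e2, h4, h4, PsiD_key h1 h2 hθ hw]
  ring

end PST
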