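import Pool.Agent.PST.OmT
import Pool.Agent.GAM.GroU
import Pool.Agent.GAM.GroC
import Pool.Agent.GAM.GroF

/-!
# PST [PsiE]: the holomorphic form of the Fock vector is entire
-/

set_option autoImplicit false

namespace PST

open scoped ComplexConjugate
open GAM (H E F pd pdl PLat IsTh OddTor IsDel Gro IsLat)
open MeasureTheory

section PsiE

variable {α β μ : Type} [Fintype α] [Fintype β] [Fintype μ]

/-- The integrand of the holomorphic form. -/
noncomputable def PsiE_int (G : (Ix α β μ → ℂ) → ℂ) (w : α × β → ℂ) (U : Ix α β μ → ℂ)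
    (y : β × μ → ℂ) : ℂ :=
  G (emU w U y) * Complex.exp (Real.pi * ∑ q : β × μ, conj (y q) * U (Sum.inr q.1, q.2)) * gw y

lemma PsiE_Phi (G : (Ix α β μ → ℂ) → ℂ) (w : α × β → ℂ) (U : Ix α β μ → ℂ) :
    Phi G w U = ∫ y, PsiE_int G w U y := rfl

lemma PsiE_H (V : Ix α β μ → ℂ) : (H V V).re = ∑ p, ‖V p‖ ^ 2 := by
  unfold GAM.H
  rw [Complex.re_sum]
  refine Finset.sum_congr rfl fun p _ => ?_
  rw [Complex.mul_conj, Complex.ofReal_re, Complex.normSq_eq_norm_sq]

/-- The size of the argument. -/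
lemma PsiE_size {ρ : ℝ} (h0 : 0 ≤ ρ) (h1 : ρ < 1) {w : α × β → ℂ} (hw : w ∈ OmC α β ρ)
    {M : ℝ} (hM : 0 ≤ M) {U : Ix α β μ → ℂ} (hU : ‖U‖ ≤ M) (y : β × μ → ℂ) :
    (H (emU w U y) (emU w U y)).re ≤ Fintype.card μ * (Fintype.card α * M) ^ 2 +
      2 * (Fintype.card α * M) * (∑ q, ‖y q‖) + (1 + ρ ^ 2) * ∑ q, ‖y q‖ ^ 2 := by
  rw [OmT_mem h0] at hw
  have hUp : ∀ p, ‖U p‖ ≤ M := fun p => (norm_le_pi_norm U p).trans hU
  set K : ℝ := Fintype.card α * M with hK
  have hK0 : 0 ≤ K := by positivity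
  rw [PsiE_H, Fintype.sum_prod_type, Fintype.sum_sum_type, Finset.sum_comm,
    ← Fintype.sum_prod_type (f := fun p : β × μ => ‖emU w U y (Sum.inr p.1, p.2)‖ ^ 2)]
  have e1 : ∑ p : β × μ, ‖emU w U y (Sum.inr p.1, p.2)‖ ^ 2 = ∑ q, ‖y q‖ ^ 2 := rfl
  rw [e1]
  have e2 : ∀ k : μ, ∑ i, ‖emU w U y (Sum.inl i, k)‖ ^ 2 ≤
      K ^ 2 + 2 * K * (∑ j, ‖y (j, k)‖) + ρ ^ 2 * ∑ j, ‖y (j, k)‖ ^ 2 := by
    intro k
    have f1 : OmT_n (fun i => emU w U y (Sum.inl i, k)) ≤
        K + ρ * OmT_n (fun j => y (j, k)) := by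
      have f2 : (fun i => emU w U y (Sum.inl i, k)) =
          fun i => (fun i => U (Sum.inl i, k)) i + (fun i => ∑ j, w (i, j) * conj (y (j, k))) i := rfl
      rw [f2]
      refine (OmT_n_add _ _).trans ?_
      have f3 : OmT_n (fun i => U (Sum.inl i, k)) ≤ K := by
        refine (OmT_n_le _).trans ?_
        refine (Finset.sum_le_sum fun i _ => hUp (Sum.inl i, k)).trans ?_
        rw [Finset.sum_const, Finset.card_univ, nsmul_eq_mul]
      have f4 := hw (fun j => conj (y (j, k)))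
      have f5 : OmT_n (fun j => conj (y (j, k))) = OmT_n (fun j => y (j, k)) := by
        have f6 := OmT_n_sq (fun j => conj (y (j, k)))
        simp only [RCLike.norm_conj] at f6
        rw [← OmT_n_sq] at f6
        exact (pow_left_inj₀ (OmT_n_nonneg _) (OmT_n_nonneg _) two_ne_zero).1 f6
      rw [f5] at f4
      exact add_le_add f3 f4
    have f7 := pow_le_pow_left₀ (OmT_n_nonneg _) f1 2
    rw [OmT_n_sq] at f7
    refine f7.trans ?_
    have f8 := OmT_n_nonneg (fun j => y (j, k))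
    have f9 := OmT_n_le (fun j => y (j, k))
    have f10 := OmT_n_sq (fun j => y (j, k))
    rw [← f10]
    have f11 : ρ * (K * OmT_n (fun j => y (j, k))) ≤ 1 * (K * OmT_n (fun j => y (j, k))) :=
      mul_le_mul_of_nonneg_right h1.le (mul_nonneg hK0 f8)
    have f12 := mul_le_mul_of_nonneg_left f9 hK0
    nlinarith
  have e3 : ∑ k : μ, ∑ i, ‖emU w U y (Sum.inl i, k)‖ ^ 2 ≤ Fintype.card μ * K ^ 2 +
      2 * K * (∑ q, ‖y q‖) + ρ ^ 2 * ∑ q, ‖y q‖ ^ 2 := by
    refine (Finset.sum_le_sum fun k _ => e2 k).trans (le_of_eq ?_)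
    rw [Finset.sum_add_distrib, Finset.sum_add_distrib, Finset.sum_const, Finset.card_univ,
      nsmul_eq_mul, ← Finset.mul_sum, ← Finset.mul_sum, Fintype.sum_prod_type_right,
      Fintype.sum_prod_type_right]
  linarith

/-- Gaussian bound for the integrand. -/
lemma PsiE_bd (hGau : St_Gau) {G : (Ix α β μ → ℂ) → ℂ} (hG : Gro G) {ρ : ℝ} (h0 : 0 ≤ ρ)
    (h1 : ρ < 1) {M : ℝ} (hM : 0 ≤ M) : ∃ C c : ℝ, 0 < C ∧ 0 < c ∧ ∀ w ∈ OmC α β ρ,
      ∀ U : Ix α β μ → ℂ, ‖U‖ ≤ M → ∀ y : β × μ → ℂ,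
        (1 + ∑ q, ‖y q‖) * ‖PsiE_int G w U y‖ ≤ C * Real.exp (-(c * ∑ q, ‖y q‖ ^ 2)) := by
  obtain ⟨gau1, gau2, gau3, -⟩ := hGau (β × μ)
  have hpi := Real.pi_pos
  have hρ2 : ρ ^ 2 < 1 := by nlinarith
  set ε : ℝ := Real.pi * (1 - ρ ^ 2) / 8 with hε
  have hε0 : 0 < ε := by
    rw [hε]
    have : 0 < 1 - ρ ^ 2 := by linarith
    positivity
  obtain ⟨C0, hC0⟩ := hG.bd ε hε0
  set K : ℝ := Fintype.card α * M with hK
  have hK0 : 0 ≤ K := by positivity
  set A : ℝ := (Real.pi / 2 + ε) * (2 * K) + Real.pi * M with hA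
  have hc : 0 < 2 * ε := by linarith
  obtain ⟨C2, hC2, hC2b⟩ := gau2 (2 * ε) A hc
  refine ⟨(|C0| + 1) * Real.exp ((Real.pi / 2 + ε) * (Fintype.card μ * K ^ 2)) * C2, 2 * ε / 2,
    by positivity, by positivity, ?_⟩
  intro w hw U hU y
  have hUp : ∀ p, ‖U p‖ ≤ M := fun p => (norm_le_pi_norm U p).trans hU
  have hsize := PsiE_size h0 h1 hw hM hU y
  rw [← hK] at hsize
  set s : ℝ := ∑ q, ‖y q‖ with hs
  set t : ℝ := ∑ q, ‖y q‖ ^ 2 with ht
  have hs0 : 0 ≤ s := Finset.sum_nonneg fun _ _ => norm_nonneg _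
  have ht0 : 0 ≤ t := Finset.sum_nonneg fun _ _ => sq_nonneg _
  have e1 : ‖Complex.exp (Real.pi * ∑ q : β × μ, conj (y q) * U (Sum.inr q.1, q.2))‖ ≤
      Real.exp (Real.pi * M * s) := by
    refine (Complex.norm_exp_le_exp_norm _).trans (Real.exp_le_exp.2 ?_)
    rw [norm_mul, Complex.norm_real, Real.norm_of_nonneg hpi.le, mul_assoc]
    refine mul_le_mul_of_nonneg_left ?_ hpi.le
    refine (norm_sum_le _ _).trans ?_
    rw [hs, Finset.mul_sum]
    refine Finset.sum_le_sum fun q _ => ?_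
    rw [norm_mul, RCLike.norm_conj, mul_comm]
    exact mul_le_mul_of_nonneg_right (hUp _) (norm_nonneg _)
  have e0 : ‖G (emU w U y)‖ ≤ (|C0| + 1) * Real.exp ((Real.pi / 2 + ε) *
      (Fintype.card μ * K ^ 2 + 2 * K * s + (1 + ρ ^ 2) * t)) := by
    refine (hC0 _).trans ?_
    have g1 : C0 ≤ |C0| + 1 := by linarith [le_abs_self C0]
    refine mul_le_mul g1 (Real.exp_le_exp.2 (mul_le_mul_of_nonneg_left hsize (by positivity)))
      (Real.exp_pos _).le (by positivity)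
  have e2 : ‖PsiE_int G w U y‖ ≤ (|C0| + 1) * Real.exp ((Real.pi / 2 + ε) *
      (Fintype.card μ * K ^ 2 + 2 * K * s + (1 + ρ ^ 2) * t)) * Real.exp (Real.pi * M * s) *
      Real.exp (-(Real.pi * t)) := by
    unfold PsiE_int
    rw [norm_mul, norm_mul, gau3]
    exact mul_le_mul_of_nonneg_right (mul_le_mul e0 e1 (norm_nonneg _) (by positivity))
      (Real.exp_pos _).le
  have e3 : (Real.pi / 2 + ε) * (Fintype.card μ * K ^ 2 + 2 * K * s + (1 + ρ ^ 2) * t) +
      Real.pi * M * s + -(Real.pi * t) ≤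
      (Real.pi / 2 + ε) * (Fintype.card μ * K ^ 2) + (A * s - 2 * ε * t) := by
    have g1 : (Real.pi / 2 + ε) * (1 + ρ ^ 2) - Real.pi ≤ -(2 * ε) := by
      rw [hε]
      nlinarith
    have g2 := mul_le_mul_of_nonneg_right g1 ht0
    rw [hA]
    nlinarith
  have e4 := hC2b y
  rw [← hs, ← ht] at e4
  calc (1 + s) * ‖PsiE_int G w U y‖
      ≤ (1 + s) * ((|C0| + 1) * Real.exp ((Real.pi / 2 + ε) *
        (Fintype.card μ * K ^ 2 + 2 * K * s + (1 + ρ ^ 2) * t)) * Real.exp (Real.pi * M * s) *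
        Real.exp (-(Real.pi * t))) := mul_le_mul_of_nonneg_left e2 (by linarith)
    _ = (1 + s) * (|C0| + 1) * Real.exp ((Real.pi / 2 + ε) *
        (Fintype.card μ * K ^ 2 + 2 * K * s + (1 + ρ ^ 2) * t) + Real.pi * M * s +
        -(Real.pi * t)) := by
        rw [Real.exp_add, Real.exp_add]
        ring
    _ ≤ (1 + s) * (|C0| + 1) * Real.exp ((Real.pi / 2 + ε) * (Fintype.card μ * K ^ 2) +
        (A * s - 2 * ε * t)) :=
        mul_le_mul_of_nonneg_left (Real.exp_le_exp.2 e3) (by positivity)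
    _ = (|C0| + 1) * Real.exp ((Real.pi / 2 + ε) * (Fintype.card μ * K ^ 2)) *
        ((1 + s) * Real.exp (A * s - 2 * ε * t)) := by
        rw [Real.exp_add]
        ring
    _ ≤ (|C0| + 1) * Real.exp ((Real.pi / 2 + ε) * (Fintype.card μ * K ^ 2)) *
        (C2 * Real.exp (-(2 * ε / 2 * t))) :=
        mul_le_mul_of_nonneg_left e4 (by positivity)
    _ = _ := by ring

lemma PsiE_emU_cont (w : α × β → ℂ) :
    Continuous fun p : (Ix α β μ → ℂ) × (β × μ → ℂ) => emU w p.1 p.2 := by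
  refine continuous_pi fun p => ?_
  obtain ⟨i | j, k⟩ := p
  · exact ((continuous_apply (Sum.inl i, k)).comp continuous_fst).add
      (continuous_finsetSum _ fun j _ => continuous_const.mul (Complex.continuous_conj.comp
        ((continuous_apply (j, k)).comp continuous_snd)))
  · exact (continuous_apply (j, k)).comp continuous_snd

lemma PsiE_gw_cont {κ : Type} [Fintype κ] : Continuous (gw : (κ → ℂ) → ℂ) := by
  unfold gw
  exact Complex.continuous_exp.comp (continuous_const.mul (continuous_finsetSum _ fun q _ =>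
    (continuous_apply q).mul (Complex.continuous_conj.comp (continuous_apply q)))).neg

lemma PsiE_int_cont {G : (Ix α β μ → ℂ) → ℂ} (hG : Continuous G) (w : α × β → ℂ) :
    Continuous fun p : (Ix α β μ → ℂ) × (β × μ → ℂ) => PsiE_int G w p.1 p.2 := by
  unfold PsiE_int
  refine ((hG.comp (PsiE_emU_cont w)).mul (Complex.continuous_exp.comp (continuous_const.mul
    (continuous_finsetSum _ fun q _ => (Complex.continuous_conj.comp ((continuous_apply q).comp
      continuous_snd)).mul ((continuous_apply _).comp continuous_fst))))).mul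
    (PsiE_gw_cont.comp continuous_snd)

lemma PsiE_emU_diff (w : α × β → ℂ) (y : β × μ → ℂ) :
    Differentiable ℂ fun U : Ix α β μ → ℂ => emU w U y := by
  rw [differentiable_pi]
  rintro ⟨i | j, k⟩
  · exact (differentiable_apply (𝕜 := ℂ) (Sum.inl i, k)).add (differentiable_const _)
  · exact differentiable_const _

lemma PsiE_int_diff {G : (Ix α β μ → ℂ) → ℂ} (hG : Differentiable ℂ G) (w : α × β → ℂ)
    (y : β × μ → ℂ) : Differentiable ℂ fun U => PsiE_int G w U y := by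
  unfold PsiE_int
  refine ((hG.comp (PsiE_emU_diff w y)).mul (Differentiable.cexp ?_)).mul
    (differentiable_const _)
  exact (Differentiable.fun_sum fun q _ => (differentiable_apply
    (𝕜 := ℂ) (Sum.inr q.1, q.2)).const_mul _).const_mul _

/-- Integrability with a factor of linear growth. -/
lemma PsiE_integrable (hGau : St_Gau) {G : (Ix α β μ → ℂ) → ℂ} (hG : Gro G) {w : α × β → ℂ}
    (hw : w ∈ Om α β) (U : Ix α β μ → ℂ) (m : (β × μ → ℂ) → ℂ) (hm : Continuous m) (B : ℝ)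
    (hB : ∀ y, ‖m y‖ ≤ B * (1 + ∑ q, ‖y q‖)) :
    Integrable fun y => m y * PsiE_int G w U y := by
  obtain ⟨ρ, h0, h1, hw⟩ := hw
  obtain ⟨C, c, hC, hc, hb⟩ := PsiE_bd (μ := μ) hGau hG h0 h1 (norm_nonneg U)
  refine (((hGau (β × μ)).1 c hc).const_mul (|B| * C)).mono'
    (hm.mul ((PsiE_int_cont hG.ent.continuous w).comp (Continuous.prodMk_right U))).aestronglyMeasurable
    (Filter.Eventually.of_forall fun y => ?_)
  have hs : (0 : ℝ) ≤ 1 + ∑ q, ‖y q‖ :=
    add_nonneg zero_le_one (Finset.sum_nonneg fun _ _ => norm_nonneg _)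
  rw [norm_mul]
  calc ‖m y‖ * ‖PsiE_int G w U y‖ ≤ (|B| * (1 + ∑ q, ‖y q‖)) * ‖PsiE_int G w U y‖ :=
        mul_le_mul_of_nonneg_right ((hB y).trans (mul_le_mul_of_nonneg_right (le_abs_self B) hs))
          (norm_nonneg _)
    _ = |B| * ((1 + ∑ q, ‖y q‖) * ‖PsiE_int G w U y‖) := by ring
    _ ≤ |B| * (C * Real.exp (-(c * ∑ q, ‖y q‖ ^ 2))) :=
        mul_le_mul_of_nonneg_left (hb w hw U le_rfl y) (abs_nonneg _)
    _ = _ := by ring

lemma PsiE_integrable0 (hGau : St_Gau) {G : (Ix α β μ → ℂ) → ℂ} (hG : Gro G) {w : α × β → ℂ}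
    (hw : w ∈ Om α β) (U : Ix α β μ → ℂ) : Integrable fun y => PsiE_int G w U y := by
  have h := PsiE_integrable hGau hG hw U (fun _ => 1) continuous_const 1 (fun y => by
    rw [norm_one, one_mul]
    have : 0 ≤ ∑ q, ‖y q‖ := Finset.sum_nonneg fun _ _ => norm_nonneg _
    linarith)
  simpa only [one_mul] using h

/-- The holomorphic form is entire, and its derivatives. -/
lemma PsiE_hol [DecidableEq α] [DecidableEq β] [DecidableEq μ] (hHol : St_HolP) (hGau : St_Gau)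
    {G : (Ix α β μ → ℂ) → ℂ} (hG : Gro G) {w : α × β → ℂ} (hw : w ∈ Om α β) :
    Differentiable ℂ (Phi G w) ∧ ∀ (U : Ix α β μ → ℂ) (p : Ix α β μ),
      pd p (Phi G w) U = ∫ y, pd p (fun U => PsiE_int G w U y) U := by
  obtain ⟨ρ, h0, h1, hwρ⟩ := hw
  have key := hHol (Ix α β μ) (β × μ) Set.univ (fun U y => PsiE_int G w U y) isOpen_univ
    (PsiE_int_cont hG.ent.continuous w) (PsiE_int_diff hG.ent w) (by
      intro U₀ _
      obtain ⟨C, c, hC, hc, hb⟩ := PsiE_bd (μ := μ) hGau hG h0 h1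
        (by positivity : 0 ≤ ‖U₀‖ + 1)
      refine ⟨1, fun y => C * Real.exp (-(c * ∑ q, ‖y q‖ ^ 2)), one_pos,
        ((hGau (β × μ)).1 c hc).const_mul C, fun U hU y => ?_⟩
      have huM : ‖U‖ ≤ ‖U₀‖ + 1 := by
        have h4 := norm_add_le (U - U₀) U₀
        rw [sub_add_cancel] at h4
        linarith
      refine le_trans ?_ (hb w hwρ U huM y)
      have hs : (0 : ℝ) ≤ ∑ q, ‖y q‖ := Finset.sum_nonneg fun _ _ => norm_nonneg _
      nlinarith [norm_nonneg (PsiE_int G w U y)])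
  exact ⟨differentiableOn_univ.1 key.1, fun U p => (key.2 U (Set.mem_univ _) p).2⟩

end PsiE

lemma PsiE_gro {ι : Type} [Fintype ι] [DecidableEq ι] {L : Submodule ℤ (ι → ℂ)}
    {χ θ : (ι → ℂ) → ℂ} (hP : PLat L χ) (hT : IsTh L χ θ) : Gro θ := by
  have h := (GAM.thm_GroF GAM.thm_GroU GAM.thm_GroC ι).1 L χ θ hP hT 0
  have e : F θ 0 = θ := by
    funext v
    unfold GAM.F GAM.H
    simp
  rwa [e] at h

theorem thm_PsiE (h1 : St_HolP) (h2 : St_Gau) : St_PsiE := by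
  intro α β μ _ _ _ _ _ _ L χ θ hP hT w hw
  exact (PsiE_hol h1 h2 (PsiE_gro hP hT) hw).1

end PST
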