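import Pool.Agent.PST.PsiN
import Pool.Agent.GAM.GroC
import Pool.Agent.GAM.Ind2

/-!
# PST, module PsiJ: joint continuity of `psi` and `dpsi`
-/

set_option autoImplicit false
set_option linter.unusedSectionVars false

namespace PST

open scoped ComplexConjugate Topology
open GAM (H E F pd pdl PLat IsTh OddTor IsDel Gro IsLat)
open MeasureTheory Filter

section psiJ

variable {α β μ : Type} [Fintype α] [Fintype β] [Fintype μ] [DecidableEq α] [DecidableEq β]
  [DecidableEq μ]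

/-- joint continuity for a family of functions of uniform growth -/
theorem PsiJ_gen (h1 : St_OmT) (h2 : St_Gau) (G : (Ix α β μ → ℂ) → (Ix α β μ → ℂ) → ℂ)
    (hG : Continuous fun p : (Ix α β μ → ℂ) × (Ix α β μ → ℂ) => G p.1 p.2)
    (hb : ∀ ε : ℝ, 0 < ε → ∃ C : ℝ, 0 < C ∧ ∀ x v,
      ‖G x v‖ ≤ C * Real.exp ((Real.pi / 2 + ε) * (H v v).re)) :
    ContinuousOn (fun p : (α × β → ℂ) × (Ix α β μ → ℂ) => ell p.1 (G p.2))
      (Om α β ×ˢ Set.univ) := by
  obtain ⟨-, -, -, -, hloc, -⟩ := h1 α β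
  obtain ⟨hint, -, hgw, -⟩ := h2 (β × μ)
  rintro ⟨w₀, x₀⟩ ⟨hw₀, -⟩
  obtain ⟨ρ, hρ0, hρ1, hρ⟩ := hloc w₀ hw₀
  have hpi := Real.pi_pos
  have hρ2 : 0 < 1 - ρ ^ 2 := by nlinarith
  set ε : ℝ := Real.pi / 8 * (1 - ρ ^ 2) with hε
  have hε0 : 0 < ε := by positivity
  obtain ⟨C, hC, hCb⟩ := hb ε hε0
  set c : ℝ := Real.pi / 4 * (1 - ρ ^ 2) with hc
  have hc0 : 0 < c := by positivity
  have hcε : (Real.pi / 2 + ε) * (1 + ρ ^ 2) - Real.pi ≤ -c := by
    have h3 : 0 ≤ Real.pi / 8 * (1 - ρ ^ 2) * (1 - ρ ^ 2) := by positivity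
    have h4 : (Real.pi / 2 + ε) * (1 + ρ ^ 2) - Real.pi =
        -c - Real.pi / 8 * (1 - ρ ^ 2) * (1 - ρ ^ 2) := by
      rw [hε, hc]
      ring
    rw [h4]
    linarith
  refine ContinuousAt.continuousWithinAt ?_
  have hcont : Continuous fun q : ((α × β → ℂ) × (Ix α β μ → ℂ)) × (β × μ → ℂ) =>
      G q.1.2 (emb q.1.1 q.2) * gw q.2 := by
    refine Continuous.mul ?_ (PsiN_gw_cont.comp continuous_snd)
    have h3 : Continuous fun q : ((α × β → ℂ) × (Ix α β μ → ℂ)) × (β × μ → ℂ) =>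
        (emb q.1.1 q.2 : Ix α β μ → ℂ) :=
      PsiN_emb_cont.comp ((continuous_fst.comp continuous_fst).prodMk continuous_snd)
    exact hG.comp ((continuous_snd.comp continuous_fst).prodMk h3)
  show ContinuousAt (fun p : (α × β → ℂ) × (Ix α β μ → ℂ) =>
    ∫ ξ : β × μ → ℂ, G p.2 (emb p.1 ξ) * gw ξ) (w₀, x₀)
  refine continuousAt_of_dominated
    (bound := fun ξ => C * Real.exp (-(c * ∑ q, ‖ξ q‖ ^ 2))) ?_ ?_ ?_ ?_
  · refine Eventually.of_forall fun p => Continuous.aestronglyMeasurable ?_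
    exact hcont.comp (continuous_const.prodMk continuous_id)
  · have hnh : ∀ᶠ p : (α × β → ℂ) × (Ix α β μ → ℂ) in 𝓝 (w₀, x₀), p.1 ∈ OmC α β ρ := by
      have h3 : Filter.Tendsto (fun p : (α × β → ℂ) × (Ix α β μ → ℂ) => p.1) (𝓝 (w₀, x₀))
          (𝓝 w₀) := continuous_fst.tendsto _
      exact h3 hρ
    filter_upwards [hnh] with p hp
    refine Eventually.of_forall fun ξ => ?_
    rw [norm_mul, hgw]
    have hS : 0 ≤ ∑ q, ‖ξ q‖ ^ 2 := Finset.sum_nonneg fun q _ => by positivity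
    have h3 := hCb p.2 (emb p.1 ξ)
    have h4 : (Real.pi / 2 + ε) * (H (emb p.1 ξ : Ix α β μ → ℂ) (emb p.1 ξ)).re -
        Real.pi * ∑ q, ‖ξ q‖ ^ 2 ≤ -(c * ∑ q, ‖ξ q‖ ^ 2) := by
      have h5 := mul_le_mul_of_nonneg_left (PsiN_H hp ξ)
        (by positivity : (0 : ℝ) ≤ Real.pi / 2 + ε)
      have h6 := mul_le_mul_of_nonneg_right hcε hS
      nlinarith
    calc ‖G p.2 (emb p.1 ξ)‖ * Real.exp (-(Real.pi * ∑ q, ‖ξ q‖ ^ 2))
        ≤ C * Real.exp ((Real.pi / 2 + ε) *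
            (H (emb p.1 ξ : Ix α β μ → ℂ) (emb p.1 ξ)).re) *
            Real.exp (-(Real.pi * ∑ q, ‖ξ q‖ ^ 2)) :=
          mul_le_mul_of_nonneg_right h3 (Real.exp_pos _).le
      _ = C * Real.exp ((Real.pi / 2 + ε) *
            (H (emb p.1 ξ : Ix α β μ → ℂ) (emb p.1 ξ)).re - Real.pi * ∑ q, ‖ξ q‖ ^ 2) := by
          rw [mul_assoc, ← Real.exp_add, ← sub_eq_add_neg]
      _ ≤ C * Real.exp (-(c * ∑ q, ‖ξ q‖ ^ 2)) :=
          mul_le_mul_of_nonneg_left (Real.exp_le_exp.2 h4) hC.le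
  · exact (hint c hc0).const_mul C
  · refine Eventually.of_forall fun ξ => Continuous.continuousAt ?_
    exact hcont.comp (continuous_id.prodMk continuous_const)

end psiJ

/-- uniform growth of the derivatives -/
theorem PsiJ_pd {ι : Type} [Fintype ι] [DecidableEq ι] {L : Submodule ℤ (ι → ℂ)}
    {χ θ : (ι → ℂ) → ℂ} (hP : PLat L χ) (hT : IsTh L χ θ) (q : ι) (ε : ℝ) (hε : 0 < ε) :
    ∃ C : ℝ, 0 < C ∧ ∀ x v,
      ‖pd q (F θ x) v‖ ≤ C * Real.exp ((Real.pi / 2 + ε) * (H v v).re) := by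
  obtain ⟨C, hC, hCF⟩ := GAM.thm_GroU _ L χ θ hP hT
  have hpi := Real.pi_pos
  set η : ℝ := 2 * ε / Real.pi with hη
  have hη0 : 0 < η := by positivity
  have hA : Real.pi / 2 * (1 + η) = Real.pi / 2 + ε := by
    rw [hη]
    field_simp
  refine ⟨C * Real.exp (Real.pi / 2 * (1 + 1 / η)), by positivity, fun x v => ?_⟩
  exact Pool.Agent.Squeeze.norm_fderiv_apply_le (U := Set.univ) (f := F θ x)
    (x := v) (v := Pi.single q 1) (GAM.F_diff hT.ent x).differentiableOn isOpen_univ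
    (fun t _ => Set.mem_univ _)
    (C := C * Real.exp (Real.pi / 2 * (1 + 1 / η)) *
      Real.exp ((Real.pi / 2 + ε) * (H v v).re)) (fun t ht => by
        refine (hCF x _).trans ?_
        rw [mul_assoc, ← Real.exp_add]
        refine mul_le_mul_of_nonneg_left (Real.exp_le_exp.2 ?_) hC.le
        have h4 := GAM.GroC_shift v q t ht hη0
        calc Real.pi / 2 * (H (v + t • Pi.single q 1) (v + t • Pi.single q 1)).re
            ≤ Real.pi / 2 * ((1 + η) * (H v v).re + (1 + 1 / η)) :=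
              mul_le_mul_of_nonneg_left h4 (by positivity)
          _ = Real.pi / 2 * (1 + 1 / η) + Real.pi / 2 * (1 + η) * (H v v).re := by ring
          _ = _ := by rw [hA])

/-- joint continuity of the derivatives -/
theorem PsiJ_cont {ι : Type} [Fintype ι] [DecidableEq ι] {L : Submodule ℤ (ι → ℂ)}
    {χ θ : (ι → ℂ) → ℂ} (hT : IsTh L χ θ) (q : ι) :
    Continuous fun p : (ι → ℂ) × (ι → ℂ) => pd q (F θ p.1) p.2 := by
  have h1 : ∀ x : ι → ℂ, pd q (F θ x) = fun v => (pd q θ (x + v) -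
      Real.pi * conj (x q) * θ (x + v)) *
        Complex.exp (-(Real.pi * H v x) - Real.pi / 2 * H x x) := fun x =>
    GAM.Ind2_pd hT.ent x q
  simp only [h1]
  have c1 : Continuous fun p : (ι → ℂ) × (ι → ℂ) => pd q θ (p.1 + p.2) :=
    (GAM.pd_diff hT.ent q).continuous.comp (continuous_fst.add continuous_snd)
  have c2 : Continuous fun p : (ι → ℂ) × (ι → ℂ) => θ (p.1 + p.2) :=
    hT.ent.continuous.comp (continuous_fst.add continuous_snd)
  have c3 : Continuous fun p : (ι → ℂ) × (ι → ℂ) => H p.2 p.1 :=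
    GAM.continuous_H.comp (continuous_snd.prodMk continuous_fst)
  have c4 : Continuous fun p : (ι → ℂ) × (ι → ℂ) => H p.1 p.1 :=
    GAM.continuous_H.comp (continuous_fst.prodMk continuous_fst)
  have c5 : Continuous fun p : (ι → ℂ) × (ι → ℂ) => conj (p.1 q) :=
    Complex.continuous_conj.comp ((continuous_apply q).comp continuous_fst)
  refine Continuous.mul (c1.sub ((continuous_const.mul c5).mul c2)) ?_
  exact Complex.continuous_exp.comp ((continuous_const.mul c3).neg.sub (continuous_const.mul c4))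

theorem thm_PsiJ (h1 : St_OmT) (h2 : St_Gau) : St_PsiJ := by
  intro α β μ _ _ _ _ _ _ L χ θ hP hT
  have hpi := Real.pi_pos
  refine ⟨?_, fun q => ?_⟩
  · refine PsiJ_gen h1 h2 (fun x => F θ x) (GAM.F_continuous hT) fun ε hε => ?_
    obtain ⟨C, hC, hCF⟩ := GAM.thm_GroU _ L χ θ hP hT
    refine ⟨C, hC, fun x v => (hCF x v).trans ?_⟩
    refine mul_le_mul_of_nonneg_left (Real.exp_le_exp.2 ?_) hC.le
    exact mul_le_mul_of_nonneg_right (by linarith) (GAM.H_self_nonneg v)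
  · exact PsiJ_gen h1 h2 (fun x => pd q (F θ x)) (PsiJ_cont hT q) (PsiJ_pd hP hT q)

end PST
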