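import Pool.Agent.PST.StF
import Pool.Agent.GAM.Bas

/-!
# PST, module PsiL: quasi-periodicity of the Fock vectors
-/

set_option autoImplicit false

namespace PST

open scoped ComplexConjugate
open GAM (H E F pd pdl PLat IsTh OddTor IsDel Gro IsLat)

private lemma PsiL_ell {α β μ : Type} [Fintype α] [Fintype β] [Fintype μ] (w : α × β → ℂ)
    (G : (Ix α β μ → ℂ) → ℂ) (c : ℂ) : ell w (fun u => c * G u) = c * ell w G := by
  unfold ell
  rw [← MeasureTheory.integral_const_mul]
  refine MeasureTheory.integral_congr_ae (Filter.Eventually.of_forall fun ξ => ?_)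
  dsimp only
  ring

theorem thm_PsiL : St_PsiL := by
  intro α β μ _ _ _ _ _ _ L χ θ _ hT w l hl x
  have h1 : F θ (x + l) = fun u => χ l * Complex.exp (Real.pi * Complex.I * E x l) * F θ x u :=
    funext fun u => GAM.F_add_lat hT hl x u
  refine ⟨?_, fun p => ?_⟩
  · unfold psi
    rw [h1, PsiL_ell]
  · unfold dpsi
    have h2 : pd p (F θ (x + l)) =
        fun t => χ l * Complex.exp (Real.pi * Complex.I * E x l) * pd p (F θ x) t := by
      funext t
      unfold pd
      rw [h1, fderiv_const_mul (GAM.F_differentiable hT x t)]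
      rfl
    rw [h2, PsiL_ell]

end PST
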