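import Pool.Agent.PST.StF
import Pool.Agent.GAM.PsiN
import Pool.Agent.GAM.Avg
import Pool.Agent.GAM.Shift
import Pool.Agent.GAM.GroU

/-!
# PST, module PsiN: the Fock vectors are not zero
-/

set_option autoImplicit false
set_option linter.unusedSectionVars false

namespace PST

open scoped ComplexConjugate
open GAM (H E F pd pdl PLat IsTh OddTor IsDel Gro IsLat avg)
open MeasureTheory

section psiN

variable {α β μ : Type} [Fintype α] [Fintype β] [Fintype μ]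

/-- the norm of the point `(w conj ξ, ξ)` -/
theorem PsiN_H {ρ : ℝ} {w : α × β → ℂ} (hw : w ∈ OmC α β ρ) (ξ : β × μ → ℂ) :
    (H (emb w ξ) (emb w ξ)).re ≤ (1 + ρ ^ 2) * ∑ q, ‖ξ q‖ ^ 2 := by
  have h1 : ∑ q : β × μ, ‖ξ q‖ ^ 2 = ∑ j, ∑ k, ‖ξ (j, k)‖ ^ 2 := Fintype.sum_prod_type _
  rw [GAM.H_self_re, Fintype.sum_prod_type, Fintype.sum_sum_type, h1, add_mul, one_mul, add_comm]
  have h2 : ∑ j : β, ∑ k : μ, ‖emb w ξ (Sum.inr j, k)‖ ^ 2 = ∑ j, ∑ k, ‖ξ (j, k)‖ ^ 2 := rfl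
  rw [h2]
  refine add_le_add le_rfl ?_
  rw [Finset.sum_comm, Finset.sum_comm (f := fun j k => ‖ξ (j, k)‖ ^ 2), Finset.mul_sum]
  refine Finset.sum_le_sum fun k _ => ?_
  have h3 := hw (fun j => conj (ξ (j, k)))
  simp only [RCLike.norm_conj] at h3
  exact h3

/-- continuity of `emb` -/
theorem PsiN_emb_cont : Continuous fun p : (α × β → ℂ) × (β × μ → ℂ) =>
    (emb p.1 p.2 : Ix α β μ → ℂ) := by
  refine continuous_pi ?_
  rintro ⟨i | j, k⟩
  · show Continuous fun p : (α × β → ℂ) × (β × μ → ℂ) => ∑ j, p.1 (i, j) * conj (p.2 (j, k))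
    refine continuous_finsetSum _ fun j _ => ?_
    refine Continuous.mul ?_ (Complex.continuous_conj.comp ?_)
    · exact (continuous_apply _).comp continuous_fst
    · exact (continuous_apply _).comp continuous_snd
  · show Continuous fun p : (α × β → ℂ) × (β × μ → ℂ) => p.2 (j, k)
    exact (continuous_apply _).comp continuous_snd

/-- continuity of the Gaussian weight -/
theorem PsiN_gw_cont {κ : Type} [Fintype κ] : Continuous (gw : (κ → ℂ) → ℂ) := by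
  unfold gw
  refine Complex.continuous_exp.comp (Continuous.neg (continuous_const.mul ?_))
  refine continuous_finsetSum _ fun j _ => ?_
  exact (continuous_apply j).mul (Complex.continuous_conj.comp (continuous_apply j))

end psiN

theorem thm_PsiN (h : St_Gau) : St_PsiN := by
  intro α β μ _ _ _ _ _ _ L χ θ hP hT hne w hwO
  by_contra hcon
  push Not at hcon
  obtain ⟨ρ, hρ0, hρ1, hw⟩ := hwO
  obtain ⟨b, hb⟩ := hP.basis
  obtain ⟨C, hC, hCF⟩ := GAM.thm_GroU _ L χ θ hP hT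
  obtain ⟨g1, -, g3, g4⟩ := h (β × μ)
  have hA := GAM.psiN_avg_ne hP hb hT hne
  set A : ℂ := avg b (fun x => F θ x 0 * conj (F θ x 0)) with hAdef
  have hsh : ∀ v', avg b (fun x => F θ x v' * conj (F θ x 0)) = A :=
    GAM.thm_Shift GAM.thm_Avg _ L χ θ b hP hb hT
  have hX := GAM.psiN_cont b
  set X : (Ix α β μ ⊕ Ix α β μ → ℝ) → (Ix α β μ → ℂ) := fun t => ∑ i, t i • b i with hXdef
  set c : ℝ := Real.pi / 2 * (1 - ρ ^ 2) with hc
  have hcpos : 0 < c := by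
    have h1 := Real.pi_pos
    have h2 : 0 < 1 - ρ ^ 2 := by nlinarith
    positivity
  have hgauss := g1 c hcpos
  let f : (Ix α β μ ⊕ Ix α β μ → ℝ) → (β × μ → ℂ) → ℂ := fun t ξ =>
    F θ (X t) (emb w ξ) * gw ξ * conj (F θ (X t) 0)
  have hfc : Continuous fun p : (Ix α β μ ⊕ Ix α β μ → ℝ) × (β × μ → ℂ) => f p.1 p.2 := by
    have c0 : Continuous fun p : (Ix α β μ ⊕ Ix α β μ → ℝ) × (β × μ → ℂ) =>
        (emb w p.2 : Ix α β μ → ℂ) :=
      PsiN_emb_cont.comp (continuous_const.prodMk continuous_snd)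
    have c1 : Continuous fun p : (Ix α β μ ⊕ Ix α β μ → ℝ) × (β × μ → ℂ) =>
        F θ (X p.1) (emb w p.2) :=
      (GAM.F_continuous hT).comp ((hX.comp continuous_fst).prodMk c0)
    have c2 : Continuous fun p : (Ix α β μ ⊕ Ix α β μ → ℝ) × (β × μ → ℂ) =>
        F θ (X p.1) 0 :=
      (GAM.F_continuous hT).comp ((hX.comp continuous_fst).prodMk continuous_const)
    have c3 : Continuous fun p : (Ix α β μ ⊕ Ix α β μ → ℝ) × (β × μ → ℂ) => gw p.2 :=
      PsiN_gw_cont.comp continuous_snd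
    exact (c1.mul c3).mul (Complex.continuous_conj.comp c2)
  have : IsFiniteMeasure (volume.restrict (Set.Icc (0 : Ix α β μ ⊕ Ix α β μ → ℝ) 1)) :=
    ⟨by rw [Measure.restrict_apply_univ]; exact isCompact_Icc.measure_lt_top⟩
  have hint : Integrable (Function.uncurry f)
      ((volume.restrict (Set.Icc (0 : Ix α β μ ⊕ Ix α β μ → ℝ) 1)).prod volume) := by
    have hb' : Integrable (fun p : (Ix α β μ ⊕ Ix α β μ → ℝ) × (β × μ → ℂ) =>
        (C * C) * Real.exp (-(c * ∑ q, ‖p.2 q‖ ^ 2)))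
        ((volume.restrict (Set.Icc (0 : Ix α β μ ⊕ Ix α β μ → ℝ) 1)).prod volume) :=
      Integrable.mul_prod (f := fun _ => C * C)
        (g := fun ξ : β × μ → ℂ => Real.exp (-(c * ∑ q, ‖ξ q‖ ^ 2)))
        (integrable_const _) hgauss
    refine hb'.mono' hfc.aestronglyMeasurable (Filter.Eventually.of_forall ?_)
    rintro ⟨t, ξ⟩
    show ‖F θ (X t) (emb w ξ) * gw ξ * conj (F θ (X t) 0)‖ ≤
      (C * C) * Real.exp (-(c * ∑ q, ‖ξ q‖ ^ 2))
    rw [norm_mul, norm_mul, RCLike.norm_conj, g3]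
    have e0 : Real.exp (Real.pi / 2 * (H (emb w ξ : Ix α β μ → ℂ) (emb w ξ)).re) ≤
        Real.exp (Real.pi / 2 * ((1 + ρ ^ 2) * ∑ q, ‖ξ q‖ ^ 2)) := by
      have := Real.pi_pos
      exact Real.exp_le_exp.2 (mul_le_mul_of_nonneg_left (PsiN_H hw ξ) (by positivity))
    have e1 : ‖F θ (X t) (emb w ξ)‖ ≤
        C * Real.exp (Real.pi / 2 * ((1 + ρ ^ 2) * ∑ q, ‖ξ q‖ ^ 2)) :=
      (hCF (X t) (emb w ξ)).trans (mul_le_mul_of_nonneg_left e0 hC.le)
    have e2 := hCF (X t) 0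
    rw [GAM.H_zero_left, Complex.zero_re, mul_zero, Real.exp_zero, mul_one] at e2
    have e3 : Real.exp (Real.pi / 2 * ((1 + ρ ^ 2) * ∑ q, ‖ξ q‖ ^ 2)) *
        Real.exp (-(Real.pi * ∑ q, ‖ξ q‖ ^ 2)) = Real.exp (-(c * ∑ q, ‖ξ q‖ ^ 2)) := by
      rw [← Real.exp_add, hc]
      ring_nf
    calc ‖F θ (X t) (emb w ξ)‖ * Real.exp (-(Real.pi * ∑ q, ‖ξ q‖ ^ 2)) *
          ‖F θ (X t) 0‖
        ≤ (C * Real.exp (Real.pi / 2 * ((1 + ρ ^ 2) * ∑ q, ‖ξ q‖ ^ 2))) *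
          Real.exp (-(Real.pi * ∑ q, ‖ξ q‖ ^ 2)) * C := by
          apply mul_le_mul _ e2 (norm_nonneg _) (by positivity)
          exact mul_le_mul_of_nonneg_right e1 (by positivity)
      _ = (C * C) * (Real.exp (Real.pi / 2 * ((1 + ρ ^ 2) * ∑ q, ‖ξ q‖ ^ 2)) *
          Real.exp (-(Real.pi * ∑ q, ‖ξ q‖ ^ 2))) := by ring
      _ = (C * C) * Real.exp (-(c * ∑ q, ‖ξ q‖ ^ 2)) := by rw [e3]
  have hswap := integral_integral_swap hint
  have hl : ∫ t in Set.Icc (0 : Ix α β μ ⊕ Ix α β μ → ℝ) 1, ∫ ξ : β × μ → ℂ, f t ξ = 0 := by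
    have : ∀ t, ∫ ξ : β × μ → ℂ, f t ξ = 0 := by
      intro t
      show ∫ ξ : β × μ → ℂ, F θ (X t) (emb w ξ) * gw ξ * conj (F θ (X t) 0) = 0
      rw [integral_mul_const]
      have h0 : ∫ ξ : β × μ → ℂ, F θ (X t) (emb w ξ) * gw ξ = 0 := hcon (X t)
      rw [h0, zero_mul]
    simp only [this, integral_zero]
  have hr' : ∫ ξ : β × μ → ℂ, ∫ t in Set.Icc (0 : Ix α β μ ⊕ Ix α β μ → ℝ) 1, f t ξ = A := by
    have : ∀ ξ : β × μ → ℂ, ∫ t in Set.Icc (0 : Ix α β μ ⊕ Ix α β μ → ℝ) 1, f t ξ =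
        gw ξ * A := by
      intro ξ
      rw [← hsh (emb w ξ)]
      unfold avg
      rw [← integral_const_mul]
      refine integral_congr_ae (Filter.Eventually.of_forall fun t => ?_)
      show F θ (X t) (emb w ξ) * gw ξ * conj (F θ (X t) 0) =
        gw ξ * (F θ (X t) (emb w ξ) * conj (F θ (X t) 0))
      ring
    simp only [this]
    rw [integral_mul_const, g4, one_mul]
  rw [hl, hr'] at hswap
  exact hA hswap.symm

end PST
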