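import Pool.Agent.PST.StF

/-!
# PST PsiT: the Fock vector at `g 0` is a theta function for `g⁻¹ L`
-/

set_option autoImplicit false

namespace PST

open scoped ComplexConjugate
open GAM (H E F pd pdl PLat IsTh OddTor IsDel Gro IsLat)

section

variable {α β μ : Type} [Fintype α] [Fintype β] [Fintype μ] [DecidableEq α] [DecidableEq β]
  [DecidableEq μ]

omit [Fintype μ] [DecidableEq α] [DecidableEq β] [DecidableEq μ] in
private theorem PsiT_Uw (u : Ix α β μ → ℂ) : Uw (0 : α × β → ℂ) u = u := by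
  funext p
  obtain ⟨i | j, k⟩ := p <;> simp [Uw]

omit [DecidableEq α] [DecidableEq β] [DecidableEq μ] in
private theorem PsiT_qf (x y : Ix α β μ → ℂ) : qf (mt (0 : α × β → ℂ)) x y = 0 := by
  simp [qf, mt]

omit [DecidableEq α] [DecidableEq β] [DecidableEq μ] in
private theorem PsiT_qf_diff (M : Matrix α β ℂ) :
    Differentiable ℂ fun u : Ix α β μ → ℂ => qf M u u := by
  unfold qf
  fun_prop

omit [DecidableEq α] [DecidableEq μ] in
private theorem PsiT_Cm_diff (g : Matrix (α ⊕ β) (α ⊕ β) ℂ) (w : α × β → ℂ) :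
    Differentiable ℂ fun u : Ix α β μ → ℂ => Cm g w u := by
  rw [differentiable_pi]
  rintro ⟨i | j, k⟩
  · simp only [Cm, Sum.elim_inl]
    fun_prop
  · simp only [Cm, Sum.elim_inr]
    fun_prop

end

theorem thm_PsiT (h1 : St_UGr) (h2 : St_UAl) (h3 : St_OmT) (h4 : St_PsiC) (h5 : St_PsiE)
    (h6 : St_PsiL) : St_PsiT := by
  intro α β μ _ _ _ _ _ _ g L L' χ χ' θ hP hT hM
  obtain ⟨-, -, -, hadd, -, -, hE⟩ := h1 α β μ
  obtain ⟨-, -, h0, -⟩ := h3 α β
  obtain ⟨hm, -, -, -, hU, hH, -⟩ := h2 α β μ g hM.uni 0 h0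
  constructor
  · have e : (fun u => psi θ (mob g 0) (act g u) * Complex.exp (Real.pi / 2 * H u u)) =
        fun u : Ix α β μ → ℂ => Complex.exp (-(Real.pi * qf (Mq g 0) u u)) *
          Phi θ (mob g 0) (Cm g 0 u) := by
      funext u
      have k1 := h4 α β μ θ (mob g 0) (act g u)
      have k2 := hH u
      rw [PsiT_Uw, PsiT_qf] at k2
      rw [k1, hU u, PsiT_Uw, ex]
      have k3 : Complex.exp (-(Real.pi / 2 * H (act g u) (act g u)) +
          Real.pi * qf (mt (mob g 0)) (star (act g u)) (star (act g u))) *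
          Complex.exp (Real.pi / 2 * H u u) = Complex.exp (-(Real.pi * qf (Mq g 0) u u)) := by
        rw [← Complex.exp_add]
        congr 1
        linear_combination (-(Real.pi : ℂ) / 2) * k2
      linear_combination Phi θ (mob g 0) (Cm g 0 u) * k3
    rw [e]
    refine Differentiable.mul ?_ ?_
    · exact (((PsiT_qf_diff _).const_mul _).neg).cexp
    · exact (h5 α β μ L χ θ hP hT (mob g 0) hm).comp (PsiT_Cm_diff g 0)
  · intro l hl u
    have hgl : act g l ∈ L := (hM.lat l).mp hl
    obtain ⟨k1, -⟩ := h6 α β μ L χ θ hP hT (mob g 0) (act g l) hgl (act g u)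
    have k2 := GAM.H_sub_H u l
    have k3 : act g (u + l) = act g u + act g l := (hadd g u l 0).1
    show psi θ (mob g 0) (act g (u + l)) * Complex.exp (Real.pi / 2 * H (u + l) (u + l)) = _
    rw [k3, k1, hM.chi l hl, hE g hM.uni]
    have k4 : Complex.exp (Real.pi * Complex.I * E u l) *
        Complex.exp (Real.pi / 2 * H (u + l) (u + l)) =
        Complex.exp (Real.pi * H u l + Real.pi / 2 * H l l) *
        Complex.exp (Real.pi / 2 * H u u) := by
      rw [← Complex.exp_add, ← Complex.exp_add]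
      congr 1
      simp only [GAM.H_add_left, GAM.H_add_right]
      linear_combination (-(Real.pi : ℂ) / 2) * k2
    linear_combination (χ' l * psi θ (mob g 0) (act g u)) * k4

end PST
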