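import Pool.Agent.PST.StF
import Pool.Agent.GAM.Ind1
import Pool.Agent.GAM.OddD
import Pool.Agent.GAM.GroF
import Pool.Agent.GAM.GroU
import Pool.Agent.GAM.GroC

/-!
# PST, module Pts: choice of the points of odd order
-/

set_option autoImplicit false

namespace PST

open scoped ComplexConjugate
open GAM (H E F pd pdl PLat IsTh OddTor IsDel Gro IsLat)

theorem Pts_gro (ι : Type) [Fintype ι] [DecidableEq ι] :
    (∀ (L : Submodule ℤ (ι → ℂ)) (χ θ : (ι → ℂ) → ℂ), PLat L χ → IsTh L χ θ →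
      ∀ x, Gro (F θ x)) ∧ ∀ G : (ι → ℂ) → ℂ, Gro G → ∀ j, Gro (pd j G) := by
  obtain ⟨g1, g2, -⟩ := GAM.thm_GroF GAM.thm_GroU GAM.thm_GroC ι
  exact ⟨g1, g2⟩

/-- the determinant of first derivatives is not zero for suitable points -/
theorem Pts_det1 (hD : St_DetPt) {κ ι : Type} [Fintype κ] [DecidableEq κ] [Fintype ι]
    [DecidableEq ι] (L : Submodule ℤ (ι → ℂ)) (χ θ : (ι → ℂ) → ℂ) (hP : PLat L χ)
    (hT : IsTh L χ θ) (hne : ∃ v, θ v ≠ 0) (e : κ → ι) (he : Function.Injective e) :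
    ∃ x : κ → ι → ℂ, (∀ b, OddTor L (x b)) ∧
      (Matrix.of fun i b : κ => pd (e i) (F θ (x b)) 0).det ≠ 0 := by
  obtain ⟨x, hx, hd⟩ := hD (ι → ℂ) κ {x | OddTor L x} (fun i x => pd (e i) (F θ x) 0) (by
    intro c hc
    obtain ⟨i0, hi0⟩ : ∃ i, c i ≠ 0 := by
      by_contra hno
      push Not at hno
      exact hc (funext hno)
    set t : ι → ℂ := ∑ i, c i • (Pi.single (e i) (1 : ℂ) : ι → ℂ) with ht
    have ht0 : t ≠ 0 := by
      intro h0
      have h1 := congrFun h0 (e i0)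
      rw [ht, Finset.sum_apply, Finset.sum_eq_single i0] at h1
      · rw [Pi.smul_apply, Pi.single_eq_same, smul_eq_mul, mul_one] at h1
        exact hi0 h1
      · intro i _ hi
        rw [Pi.smul_apply, Pi.single_eq_of_ne (fun h => hi (he h).symm), smul_zero]
      · intro h
        exact absurd (Finset.mem_univ _) h
    obtain ⟨x, hx, hx'⟩ := GAM.thm_Ind1 GAM.thm_OddD ι L χ θ hP hT hne t 0 ht0
    refine ⟨x, hx, ?_⟩
    rw [zero_mul] at hx'
    intro h2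
    apply hx'
    have h3 : GAM.dd t (F θ x) 0 = ∑ i, c i * pd (e i) (F θ x) 0 := by
      unfold GAM.dd pd
      rw [ht, map_sum]
      refine Finset.sum_congr rfl fun i _ => ?_
      rw [map_smul, smul_eq_mul]
    rw [h3]
    exact h2)
  refine ⟨x, hx, ?_⟩
  rw [← Matrix.det_transpose]
  exact hd

section

variable {α β μ : Type} [Fintype α] [Fintype β] [Fintype μ] [DecidableEq α] [DecidableEq β]
  [DecidableEq μ]

theorem Pts_psi (hE : St_EllZ) (L : Submodule ℤ (Ix α β μ → ℂ)) (χ θ : (Ix α β μ → ℂ) → ℂ)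
    (hP : PLat L χ) (hT : IsTh L χ θ) (y : Ix α β μ → ℂ) : psi θ 0 y = F θ y 0 :=
  hE α β μ (F θ y) ((Pts_gro (Ix α β μ)).1 L χ θ hP hT y)

theorem Pts_dpsi (hE : St_EllZ) (L : Submodule ℤ (Ix α β μ → ℂ)) (χ θ : (Ix α β μ → ℂ) → ℂ)
    (hP : PLat L χ) (hT : IsTh L χ θ) (p : Ix α β μ) (y : Ix α β μ → ℂ) :
    dpsi p θ 0 y = pd p (F θ y) 0 :=
  hE α β μ (pd p (F θ y)) ((Pts_gro (Ix α β μ)).2 _ ((Pts_gro (Ix α β μ)).1 L χ θ hP hT y) p)

theorem Pts_fp (hD : St_DetPt) (hE : St_EllZ) (L : Submodule ℤ (Ix α β μ → ℂ))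
    (χ θ : (Ix α β μ → ℂ) → ℂ) (hP : PLat L χ) (hT : IsTh L χ θ) (hne : ∃ v, θ v ≠ 0) (k : μ) :
    ∃ x : α → Ix α β μ → ℂ, (∀ b, OddTor L (x b)) ∧ fp k θ 0 x ≠ 0 := by
  obtain ⟨x, hx, hd⟩ := Pts_det1 hD L χ θ hP hT hne (fun i : α => ((Sum.inl i, k) : Ix α β μ))
    (fun i i' h => Sum.inl_injective (congrArg Prod.fst h))
  refine ⟨x, hx, ?_⟩
  unfold fp
  have h1 : (Matrix.of fun i b : α => dpsi (Sum.inl i, k) θ 0 (x b)) =
      Matrix.of fun i b : α => pd ((Sum.inl i, k) : Ix α β μ) (F θ (x b)) 0 := by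
    ext i b
    exact Pts_dpsi hE L χ θ hP hT _ _
  rw [h1]
  exact hd

theorem Pts_fm (hD : St_DetPt) (hE : St_EllZ) (L : Submodule ℤ (Ix α β μ → ℂ))
    (χ θ : (Ix α β μ → ℂ) → ℂ) (hP : PLat L χ) (hT : IsTh L χ θ) (hne : ∃ v, θ v ≠ 0) (k : μ) :
    ∃ x : β → Ix α β μ → ℂ, (∀ b, OddTor L (x b)) ∧ fm k θ 0 x ≠ 0 := by
  obtain ⟨x, hx, hd⟩ := Pts_det1 hD L χ θ hP hT hne (fun j : β => ((Sum.inr j, k) : Ix α β μ))
    (fun i i' h => Sum.inr_injective (congrArg Prod.fst h))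
  refine ⟨x, hx, ?_⟩
  unfold fm
  have h1 : (Matrix.of fun j b : β => dpsi (Sum.inr j, k) θ 0 (x b)) =
      Matrix.of fun j b : β => pd ((Sum.inr j, k) : Ix α β μ) (F θ (x b)) 0 := by
    ext i b
    exact Pts_dpsi hE L χ θ hP hT _ _
  rw [h1]
  exact hd

end

/-- a row with non zero first entry can be moved to the first place -/
theorem Pts_swap {κ X : Type} [Fintype κ] [DecidableEq κ] (f : X → Option κ → ℂ)
    (y : Option κ → X) (hd : (Matrix.of fun i j : Option κ => f (y i) j).det ≠ 0) :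
    ∃ s : Equiv.Perm (Option κ), f (y (s none)) none ≠ 0 ∧
      (Matrix.of fun i j : Option κ => f (y (s i)) j).det ≠ 0 := by
  obtain ⟨i0, hi0⟩ : ∃ i, f (y i) none ≠ 0 := by
    by_contra hno
    push Not at hno
    exact hd (Matrix.det_eq_zero_of_column_eq_zero none hno)
  refine ⟨Equiv.swap none i0, by rwa [Equiv.swap_apply_left], ?_⟩
  have h1 : (Matrix.of fun i j : Option κ => f (y (Equiv.swap none i0 i)) j) =
      (Matrix.of fun i j : Option κ => f (y i) j).submatrix (Equiv.swap none i0) id := rfl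
  rw [h1, Matrix.det_permute]
  refine mul_ne_zero ?_ hd
  exact_mod_cast (Equiv.Perm.sign (Equiv.swap none i0)).ne_zero

theorem thm_Pts (h1 : St_DetPt) (h2 : St_Ind3) (h3 : St_EllZ) : St_Pts := by
  classical
  intro α β μ _ _ _ _ _ _ L χ θ k hP hT hne
  obtain ⟨x, hx, hxd⟩ := Pts_fp h1 h3 L χ θ hP hT hne k
  obtain ⟨x', hx', hxd'⟩ := Pts_fm h1 h3 L χ θ hP hT hne k
  obtain ⟨y, hy, hyd⟩ := h1 (Ix α β μ → ℂ) (Option (α × β)) {x | OddTor L x}
    (fun j x => Option.elim j (F θ x 0) fun p => Dij p (F θ x) 0) (by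
    intro c hc
    obtain ⟨x, hx, hx'⟩ := h2 α β μ L χ θ ⟨k⟩ hP hT hne (c none) (fun p => c (some p)) (by
      rintro ⟨h4, h5⟩
      apply hc
      funext o
      cases o with
      | none => exact h4
      | some p => exact congrFun h5 p)
    refine ⟨x, hx, ?_⟩
    rw [Fintype.sum_option]
    exact hx')
  obtain ⟨s, hs1, hs2⟩ := Pts_swap (fun (x : Ix α β μ → ℂ) (j : Option (α × β)) =>
    Option.elim j (F θ x 0) fun p => Dij p (F θ x) 0) y hyd
  refine ⟨fun i => y (s i), x, x', fun i => hy _, hx, hx', ?_, hxd, hxd', hs2⟩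
  rw [Pts_psi h3 L χ θ hP hT]
  exact hs1

end PST
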