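import Pool.Agent.PST.StH

/-!
# PST, module QRel: the normalising form and the endomorphisms
-/

set_option autoImplicit false

namespace PST

open scoped ComplexConjugate
open Pool.Agent.GPC (AbVar hermForm bilForm period_zero period_rsmul real_span_betti
  hermForm_single bilForm_single)

/-- an endomorphism maps periods to periods -/
theorem QRel_per (X : AbVar) (f : X.H1 → X.H1) (M : Matrix (Fin X.g) (Fin X.g) ℂ)
    (hf : X.IsEnd f) (hM : ∀ v, X.zz (f v) = M.mulVec (X.zz v)) (z : Fin X.g → ℂ) :
    f (X.period z) = X.period (M.mulVec z) := by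
  have hz : z ∈ Submodule.span ℝ (X.Λ : Set (Fin X.g → ℂ)) := by
    rw [X.lattice.spans]; trivial
  induction hz using Submodule.span_induction with
  | mem l hl =>
    have h1 : X.IsBetti (X.period l) := ⟨1, one_ne_zero, l, hl, by simp⟩
    have h2 := real_span_betti X (Submodule.subset_span (hf.betti _ h1))
    rw [h2, hM, AbVar.zz_period]
  | zero =>
    rw [period_zero, hf.linear.map_zero, Matrix.mulVec_zero, period_zero]
  | add x y _ _ hx hy =>
    rw [Pool.Agent.Helper7.period_add, hf.linear.map_add, hx, hy, Matrix.mulVec_add,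
      Pool.Agent.Helper7.period_add]
  | smul r x _ hx =>
    have h1 : ∀ v : X.H1, r • v = (r : ℂ) • v := by
      intro v
      funext j
      rw [Pi.smul_apply, Pi.smul_apply, Complex.real_smul, smul_eq_mul]
    have h2 : ∀ v : Fin X.g → ℂ, r • v = (r : ℂ) • v := by
      intro v
      funext j
      rw [Pi.smul_apply, Pi.smul_apply, Complex.real_smul, smul_eq_mul]
    rw [period_rsmul, h1, hf.linear.map_smul, hx, h2, Matrix.mulVec_smul, ← h2, period_rsmul, h1]

theorem thm_QRel : St_QRel := by
  classical
  intro X f f' M M' hf hf' hadj hM hM'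
  -- the standard basis is rational for the de Rham structure
  have hdr : ∀ s : Fin X.g ⊕ Fin X.g, X.IsDeRham (Pi.single s 1) := by
    intro s t
    rw [Pi.single_apply]
    split
    · exact isAlgebraic_one
    · exact isAlgebraic_zero
  refine ⟨fun i j => ?_, fun i j => ?_⟩
  · have h1 := hf.deRham _ (hdr (Sum.inl j)) (Sum.inl i)
    have h2 := congrFun (hM (Pi.single (Sum.inl j) 1)) i
    rw [AbVar.zz_apply] at h2
    rw [h2] at h1
    have h3 : X.zz (Pi.single (Sum.inl j) 1) = Pi.single j 1 := by
      funext a
      rw [AbVar.zz_apply, Pi.single_apply, Pi.single_apply]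
      simp
    rw [h3, Matrix.mulVec_single_one] at h1
    exact h1
  · -- matrix of `f`
    set P : Matrix (Fin X.g) (Fin X.g) ℂ := Matrix.of fun a b =>
      f (Pi.single (Sum.inl b) 1) (Sum.inr a) with hP
    have hR : ∀ a b, f (Pi.single (Sum.inr b) 1) (Sum.inr a) = M' b a := by
      intro a b
      have h1 := hadj (Pi.single (Sum.inr b) 1) (Pi.single (Sum.inl a) 1)
      have h2 := congrFun (hM' (Pi.single (Sum.inl a) 1)) b
      rw [AbVar.zz_apply] at h2
      have h3 : X.zz (Pi.single (Sum.inl a) 1) = Pi.single a 1 := by
        funext c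
        rw [AbVar.zz_apply, Pi.single_apply, Pi.single_apply]
        simp
      rw [h3, Matrix.mulVec_single_one] at h2
      simp only [AbVar.pol, Pi.single_apply] at h1
      simp at h1
      rw [h1, h2]
      rfl
    have hexp : ∀ v : X.H1, ∀ a, f v (Sum.inr a) =
        ∑ b, P a b * v (Sum.inl b) + ∑ b, M' b a * v (Sum.inr b) := by
      intro v a
      have h1 : v = ∑ s, v s • (Pi.single s (1 : ℂ) : X.H1) := by
        funext t
        rw [Finset.sum_apply]
        simp [Pi.single_apply]
      let F : X.H1 →ₗ[ℂ] X.H1 := hf.linear.mk' f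
      have h2 : f v = ∑ s, v s • f (Pi.single s (1 : ℂ)) := by
        conv_lhs => rw [h1]
        show F _ = _
        rw [map_sum]
        refine Finset.sum_congr rfl fun s _ => ?_
        rw [map_smul]
        rfl
      rw [h2, Finset.sum_apply, Fintype.sum_sum_type]
      congr 1
      · refine Finset.sum_congr rfl fun b _ => ?_
        rw [Pi.smul_apply, smul_eq_mul, mul_comm]
        rfl
      · refine Finset.sum_congr rfl fun b _ => ?_
        rw [Pi.smul_apply, smul_eq_mul, hR, mul_comm]
    -- comparison of the two expressions for the quasi-periods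
    have key : ∀ z : Fin X.g → ℂ, ∀ a, Real.pi * (∑ b, X.H a b * conj (M.mulVec z b)) +
        ∑ b, X.q a b * M.mulVec z b = ∑ b, P a b * z b +
        ∑ b, M' b a * (Real.pi * (∑ c, X.H b c * conj (z c)) + ∑ c, X.q b c * z c) := by
      intro z a
      have h1 := congrFun (QRel_per X f M hf hM z) (Sum.inr a)
      rw [hexp] at h1
      simp only [AbVar.period, Sum.elim_inl, Sum.elim_inr, AbVar.eta, hermForm_single,
        bilForm_single] at h1
      exact h1.symm
    have key2 : ∀ z : Fin X.g → ℂ, ∀ a, ∑ b, X.q a b * M.mulVec z b = ∑ b, P a b * z b +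
        ∑ b, M' b a * (∑ c, X.q b c * z c) := by
      intro z a
      have h1 := key z a
      have h2 := key (Complex.I • z) a
      have a1 : ∑ b, X.H a b * conj (M.mulVec (Complex.I • z) b) =
          -Complex.I * ∑ b, X.H a b * conj (M.mulVec z b) := by
        rw [Finset.mul_sum]
        refine Finset.sum_congr rfl fun b _ => ?_
        rw [Matrix.mulVec_smul, Pi.smul_apply, smul_eq_mul, map_mul, Complex.conj_I]
        ring
      have a2 : ∑ b, X.q a b * M.mulVec (Complex.I • z) b =
          Complex.I * ∑ b, X.q a b * M.mulVec z b := by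
        rw [Finset.mul_sum]
        refine Finset.sum_congr rfl fun b _ => ?_
        rw [Matrix.mulVec_smul, Pi.smul_apply, smul_eq_mul]
        ring
      have a3 : ∑ b, P a b * (Complex.I • z) b = Complex.I * ∑ b, P a b * z b := by
        rw [Finset.mul_sum]
        refine Finset.sum_congr rfl fun b _ => ?_
        rw [Pi.smul_apply, smul_eq_mul]
        ring
      have a4 : ∀ b, ∑ c, X.H b c * conj ((Complex.I • z) c) =
          -Complex.I * ∑ c, X.H b c * conj (z c) := by
        intro b
        rw [Finset.mul_sum]
        refine Finset.sum_congr rfl fun c _ => ?_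
        rw [Pi.smul_apply, smul_eq_mul, map_mul, Complex.conj_I]
        ring
      have a5 : ∀ b, ∑ c, X.q b c * (Complex.I • z) c = Complex.I * ∑ c, X.q b c * z c := by
        intro b
        rw [Finset.mul_sum]
        refine Finset.sum_congr rfl fun c _ => ?_
        rw [Pi.smul_apply, smul_eq_mul]
        ring
      have a6 : ∑ b, M' b a * (Real.pi * (∑ c, X.H b c * conj ((Complex.I • z) c)) +
          ∑ c, X.q b c * (Complex.I • z) c) =
          -Complex.I * ∑ b, M' b a * (Real.pi * (∑ c, X.H b c * conj (z c))) +
          Complex.I * ∑ b, M' b a * (∑ c, X.q b c * z c) := by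
        rw [Finset.mul_sum, Finset.mul_sum, ← Finset.sum_add_distrib]
        refine Finset.sum_congr rfl fun b _ => ?_
        rw [a4, a5]
        ring
      have a7 : ∑ b, M' b a * (Real.pi * (∑ c, X.H b c * conj (z c)) + ∑ c, X.q b c * z c) =
          ∑ b, M' b a * (Real.pi * (∑ c, X.H b c * conj (z c))) +
          ∑ b, M' b a * (∑ c, X.q b c * z c) := by
        rw [← Finset.sum_add_distrib]
        refine Finset.sum_congr rfl fun b _ => ?_
        ring
      rw [a1, a2, a3, a6] at h2
      rw [a7] at h1
      have hI : (2 * Complex.I) ≠ 0 := mul_ne_zero two_ne_zero Complex.I_ne_zero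
      apply mul_left_cancel₀ hI
      linear_combination Complex.I * h1 + h2
    have h3 : X.q * M - M'.transpose * X.q = P := by
      ext a b
      have h4 := key2 (Pi.single b 1) a
      rw [Matrix.mulVec_single_one] at h4
      simp only [Pi.single_apply, mul_ite, mul_one, mul_zero, Finset.sum_ite_eq',
        Finset.mem_univ, if_true] at h4
      rw [Matrix.sub_apply, Matrix.mul_apply, Matrix.mul_apply]
      simp only [Matrix.transpose_apply]
      rw [sub_eq_iff_eq_add]
      exact h4
    rw [h3]
    exact hf.deRham _ (hdr (Sum.inl j)) (Sum.inr i)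

end PST
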