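import Pool.Agent.PST.StH
import Pool.Agent.GAM.DelR
import Pool.Agent.GAM.Hol
import Pool.Agent.GAM.C3
import Pool.Agent.GAM.ExpU
import Pool.Agent.GAM.FCalc

/-!
# PST: [QuC] the quadratic part of the operator
-/

set_option autoImplicit false

namespace PST

open scoped ComplexConjugate
open GAM (H E F pd pdl PLat IsTh OddTor IsDel QD qd jac IsLat Fac HasFac bil)

section

variable {ι : Type} [Fintype ι] [DecidableEq ι]

/-- the part of the operator with derivatives -/
noncomputable def QuC_E (B : Matrix ι ι ℂ) (G : (ι → ℂ) → ℂ) (v : ι → ℂ) : ℂ :=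
  ∑ a, ∑ b, B a b * (v b * pd a G v)

theorem QuC_gop (k : ℂ) (B C : Matrix ι ι ℂ) (G : (ι → ℂ) → ℂ) (v : ι → ℂ) :
    gop k B C G v = k * G v + QuC_E B G v + 1 / 2 * bil C v v * G v := rfl

theorem QuC_E_div (B : Matrix ι ι ℂ) {t f : (ι → ℂ) → ℂ} (ht : Differentiable ℂ t)
    (hf : Differentiable ℂ f) (v : ι → ℂ) (hv : f v ≠ 0) :
    QuC_E B (fun z => t z / f z ^ 2) v =
      (QuC_E B t v * f v ^ 2 - t v * (2 * f v * QuC_E B f v)) / (f v ^ 2) ^ 2 := by
  have h1 : ∀ a, pd a (fun z => t z / f z ^ 2) v =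
      (pd a t v * f v ^ 2 - t v * (2 * f v * pd a f v)) / (f v ^ 2) ^ 2 := by
    intro a
    have h2 : DifferentiableAt ℂ (fun z => f z ^ 2) v := (hf v).pow 2
    have h3 := GAM.pd_div (ht v) h2 (pow_ne_zero 2 hv) a
    rw [h3, GAM.pd_pow (hf v)]
    norm_num
  unfold QuC_E
  simp only [h1]
  rw [Finset.sum_mul, Finset.mul_sum, Finset.mul_sum, ← Finset.sum_sub_distrib, Finset.sum_div]
  refine Finset.sum_congr rfl fun a _ => ?_
  rw [Finset.sum_mul, Finset.mul_sum, Finset.mul_sum, ← Finset.sum_sub_distrib, Finset.sum_div]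
  exact Finset.sum_congr rfl fun b _ => by ring

theorem QuC_qd (k k' : ℂ) (B C C' : Matrix ι ι ℂ) {t f : (ι → ℂ) → ℂ}
    (ht : Differentiable ℂ t) (hf : Differentiable ℂ f) (v : ι → ℂ) (hv : f v ≠ 0) :
    qd t (fun z => f z ^ 2) (gop k' B C' t)
      (fun z => ((2 : ℕ) : ℂ) * f z ^ (2 - 1) * gop k B C f z) v =
      (k' - 2 * k + (1 / 2 * bil C' v v - bil C v v)) * (t v / f v ^ 2) +
        QuC_E B (fun z => t z / f z ^ 2) v := by
  rw [QuC_E_div B ht hf v hv]
  unfold qd
  simp only [QuC_gop]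
  norm_num
  field_simp
  ring

theorem QuC_E_add (B : Matrix ι ι ℂ) {f : (ι → ℂ) → ℂ} (v l : ι → ℂ)
    (h : ∀ a, pd a f (v + l) = pd a f v) :
    QuC_E B f (v + l) = QuC_E B f v + ∑ a, B.mulVec l a * pd a f v := by
  unfold QuC_E
  rw [← Finset.sum_add_distrib]
  refine Finset.sum_congr rfl fun a _ => ?_
  change _ = _ + (∑ b, B a b * l b) * pd a f v
  rw [Finset.sum_mul, ← Finset.sum_add_distrib]
  refine Finset.sum_congr rfl fun b _ => ?_
  rw [h, Pi.add_apply]
  ring

end

theorem thm_QuC (h : St_LdG) : St_QuC := by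
  intro ι _ _ δ L Λ χ θ k k' B C C' t hP hT h0 hG hΛ hΛL ht0 hC' ht hq
  have hR := GAM.thm_DelR GAM.thm_Hol ι δ
  have hf : Differentiable ℂ (F θ 0) := GAM.F_differentiable hT 0
  have hfd := hG.del 0 GAM.OddTor.zero
  have hte := ht.ent
  -- the factors of automorphy
  have hfac : ∀ l ∈ Λ, ∀ v, GAM.fx χ 2 l v =
      Complex.exp (2 * Real.pi * H v l + Real.pi * H l l) := by
    intro l hl v
    unfold GAM.fx
    rw [mul_pow, pow_two (χ l), hP.chi_sq (hΛL l hl), one_mul, ← Complex.exp_nat_mul]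
    congr 1
    push_cast
    ring
  have hQ : QD δ Λ t (fun z => F θ 0 z ^ 2) (gop k' B C' t)
      (fun z => ((2 : ℕ) : ℂ) * F θ 0 z ^ (2 - 1) * gop k B C (F θ 0) z) := by
    refine ⟨ht, hfd.pow hR 2, ?_, GAM.fx χ 2, _, ⟨(GAM.fac_fx hP 2).cont,
      fun l hl => (GAM.fac_fx hP 2).hol l (hΛL l hl),
      fun l hl => (GAM.fac_fx hP 2).norm l (hΛL l hl)⟩, fun l hl v => ?_, fun l hl v => ?_⟩
    · obtain ⟨v, hv⟩ := GAM.F_nz h0 0
      exact ⟨v, pow_ne_zero 2 hv⟩
    · rw [hfac l hl v]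
      exact hq l hl v
    · exact GAM.hasFac_fx hP hT (n := 2) (x := 0) (by simp) l (hΛL l hl) v
  -- the quadratic part is periodic
  have hper : ∀ l ∈ Λ, ∀ v, 1 / 2 * bil C' (v + l) (v + l) - bil C (v + l) (v + l) -
      (1 / 2 * bil C' v v - bil C v v) = 0 := by
    intro l hl
    have e1 : Differentiable ℂ fun v => 1 / 2 * bil C' (v + l) (v + l) -
        bil C (v + l) (v + l) - (1 / 2 * bil C' v v - bil C v v) := by
      have a1 := GAM.bil_diff C
      have a2 := GAM.bil_diff C'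
      have a3 : Differentiable ℂ fun v : ι → ℂ => bil C (v + l) (v + l) :=
        a1.comp (differentiable_id.add_const l)
      have a4 : Differentiable ℂ fun v : ι → ℂ => bil C' (v + l) (v + l) :=
        a2.comp (differentiable_id.add_const l)
      exact ((a4.const_mul _).sub a3).sub ((a2.const_mul _).sub a1)
    have e2 : ∀ v, F θ 0 v * (t v * (1 / 2 * bil C' (v + l) (v + l) -
        bil C (v + l) (v + l) - (1 / 2 * bil C' v v - bil C v v))) = 0 := by
      intro v
      by_cases hv : F θ 0 v = 0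
      · rw [hv, zero_mul]
      have hvl : F θ 0 (v + l) ≠ 0 := GAM.F_ne_lat hP hT (hΛL l hl) hv
      have h1 := h ι δ L χ θ k B C hP hT h0 hG Λ hΛ hΛL _ _ _ _ hQ l hl v (pow_ne_zero 2 hv)
      rw [QuC_qd k k' B C C' hte hf v hv, QuC_qd k k' B C C' hte hf (v + l) hvl] at h1
      have h2 : t (v + l) / F θ 0 (v + l) ^ 2 = t v / F θ 0 v ^ 2 := hQ.per hl v
      have h3 : ∀ a, pd a (fun z => t z / F θ 0 z ^ 2) (v + l) =
          pd a (fun z => t z / F θ 0 z ^ 2) v := by
        intro a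
        have h4 := GAM.pd_comp_add (fun z => t z / F θ 0 z ^ 2) l v a
        rw [← h4]
        have h5 : (fun z => t (z + l) / F θ 0 (z + l) ^ 2) = fun z => t z / F θ 0 z ^ 2 :=
          funext fun z => hQ.per hl z
        rw [h5]
      rw [QuC_E_add B v l h3, h2] at h1
      have h6 : (1 / 2 * bil C' (v + l) (v + l) - bil C (v + l) (v + l) -
          (1 / 2 * bil C' v v - bil C v v)) * (t v / F θ 0 v ^ 2) = 0 := by
        linear_combination h1
      rcases mul_eq_zero.1 h6 with h7 | h7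
      · rw [h7, mul_zero, mul_zero]
      · rcases div_eq_zero_iff.1 h7 with h8 | h8
        · rw [h8, zero_mul, mul_zero]
        · exact absurd h8 (pow_ne_zero 2 hv)
    exact GAM.ent_mul hte e1 (GAM.ent_mul hf (hte.mul e1) e2 (GAM.F_nz h0 0)) ht0
  -- linear algebra
  ext a b
  rw [Matrix.smul_apply, smul_eq_mul]
  have h1 : (fun b => C' a b - 2 * C a b) = 0 := by
    refine (GAM.lat_zero hΛ (p := fun b => C' a b - 2 * C a b) (q := 0) fun l hl => ?_).1
    have e0 := hper l hl 0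
    have e1 := hper l hl (Pi.single a 1)
    have z0 : ∀ M : Matrix ι ι ℂ, bil M 0 0 = 0 := by
      intro M
      simp [GAM.bil]
    rw [zero_add, z0, z0] at e0
    have z1 : ∀ M : Matrix ι ι ℂ, bil M (Pi.single a 1) l = ∑ b, M a b * l b := by
      intro M
      unfold GAM.bil
      rw [Finset.sum_eq_single a]
      · simp
      · intro i _ hi
        simp [hi]
      · simp
    have z2 : ∀ M : Matrix ι ι ℂ, M.transpose = M → bil M (Pi.single a 1 + l)
        (Pi.single a 1 + l) = bil M (Pi.single a 1) (Pi.single a 1) +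
          2 * (∑ b, M a b * l b) + bil M l l := by
      intro M hM
      rw [GAM.bil_add_left, GAM.bil_add_right, GAM.bil_add_right, GAM.bil_symm hM l, z1]
      ring
    rw [z2 C' hC', z2 C hG.symm] at e1
    have e2 : ∑ b, C' a b * l b - 2 * ∑ b, C a b * l b = 0 := by
      linear_combination e1 - e0
    simp only [Pi.zero_apply, zero_mul, Finset.sum_const_zero, add_zero]
    rw [← e2, Finset.mul_sum, ← Finset.sum_sub_distrib]
    exact Finset.sum_congr rfl fun b _ => by ring
  have h2 := congrFun h1 b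
  simp only [Pi.zero_apply] at h2
  linear_combination h2

end PST
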