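import Pool.Agent.PST.StN

/-!
# PST [RAdj]: the Gram matrix is algebraic, `R` is stable under the adjunction
-/

set_option autoImplicit false

namespace PST

open scoped ComplexConjugate ComplexOrder
open GAM (H E F pd pdl PLat IsTh OddTor IsDel Gro IsLat Pre QD qd jac HasExp CMF CMT IsExp IsCM)
open Pool.Agent.GPC (AbVar hermForm bilForm)
open Module

section

variable {n : Type} [Fintype n] [DecidableEq n]

/-- the form `b ↦ Im tr(aᴴ G b)` -/
private noncomputable def RAdj_R (G a : Matrix n n ℂ) : Matrix n n ℂ →ₗ[ℝ] ℝ where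
  toFun b := (a.conjTranspose * G * b).trace.im
  map_add' b b' := by rw [Matrix.mul_add, Matrix.trace_add, Complex.add_im]
  map_smul' s b := by
    rw [Matrix.mul_smul, Matrix.trace_smul, Complex.smul_im, RingHom.id_apply]

/-- the form `a ↦ Im tr(aᴴ G b)` -/
private noncomputable def RAdj_L (G b : Matrix n n ℂ) : Matrix n n ℂ →+ ℝ where
  toFun a := (a.conjTranspose * G * b).trace.im
  map_zero' := by
    rw [Matrix.conjTranspose_zero, Matrix.zero_mul, Matrix.zero_mul, Matrix.trace_zero,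
      Complex.zero_im]
  map_add' a a' := by
    rw [Matrix.conjTranspose_add, Matrix.add_mul, Matrix.add_mul, Matrix.trace_add,
      Complex.add_im]

private theorem RAdj_zero {N : ℕ} {G : Matrix n n ℂ} (hG : G.det ≠ 0) {e : Fin N → Matrix n n ℂ}
    (he : Submodule.span ℝ (Set.range e) = ⊤) (a : Matrix n n ℂ)
    (ha : ∀ i, (a.conjTranspose * G * e i).trace.im = 0) : a = 0 := by
  have h1 : RAdj_R G a = 0 := by
    apply LinearMap.ext_on he
    rintro _ ⟨i, rfl⟩
    exact ha i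
  have h2 : ∀ b, (a.conjTranspose * G * b).trace.im = 0 := fun b =>
    congrArg (fun f : Matrix n n ℂ →ₗ[ℝ] ℝ => f b) h1
  have h3 : ∀ b, (a.conjTranspose * G * b).trace = 0 := by
    intro b
    apply Complex.ext
    · have h4 := h2 (Complex.I • b)
      rw [Matrix.mul_smul, Matrix.trace_smul, smul_eq_mul, Complex.I_mul_im] at h4
      rw [h4, Complex.zero_re]
    · rw [h2 b, Complex.zero_im]
  have h5 : a.conjTranspose * G = 0 :=
    Matrix.trace_mul_conjTranspose_self_eq_zero_iff.1 (h3 _)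
  have h6 : a.conjTranspose = 0 := by
    have h7 : a.conjTranspose * G * G⁻¹ = 0 := by rw [h5, Matrix.zero_mul]
    rwa [Matrix.mul_assoc, Matrix.mul_nonsing_inv _ (isUnit_iff_ne_zero.2 hG),
      Matrix.mul_one] at h7
  rwa [Matrix.conjTranspose_eq_zero] at h6

private theorem RAdj_mem {N : ℕ} {G : Matrix n n ℂ} (hG : G.det ≠ 0) (hG' : G.conjTranspose = G)
    (R : Subalgebra ℚ (Matrix n n ℂ)) (e : Basis (Fin N) ℚ R)
    (he : Submodule.span ℝ (Set.range fun i => (e i : Matrix n n ℂ)) = ⊤)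
    (hr : ∀ a ∈ R, ∀ b ∈ R, ∃ q : ℚ, (a.conjTranspose * G * b).trace.im = q)
    (r : Matrix n n ℂ) (hrR : r ∈ R) : G⁻¹ * r.conjTranspose * G ∈ R := by
  choose Q hQ using fun i j : Fin N => hr (e i) (e i).2 (e j) (e j).2
  have hl : ∀ j : Fin N, ∃ q : ℚ, (G * r * (e j : Matrix n n ℂ)).trace.im = q := by
    intro j
    obtain ⟨q, hq⟩ := hr 1 R.one_mem (r * e j) (R.mul_mem hrR (e j).2)
    refine ⟨q, ?_⟩
    rw [← hq, Matrix.conjTranspose_one, Matrix.one_mul, Matrix.mul_assoc]
  choose l hl using hl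
  have hsum : ∀ (x : Fin N → ℚ) (j : Fin N),
      ((((∑ i, x i • e i : R) : Matrix n n ℂ)).conjTranspose * G * (e j : Matrix n n ℂ)).trace.im =
        ((Matrix.vecMul x (Matrix.of Q) j : ℚ) : ℝ) := by
    intro x j
    have h1 : (((∑ i, x i • e i : R) : Matrix n n ℂ)) = ∑ i, x i • (e i : Matrix n n ℂ) := by
      rw [AddSubmonoidClass.coe_finsetSum]
      rfl
    rw [h1]
    change RAdj_L G (e j : Matrix n n ℂ) (∑ i, x i • (e i : Matrix n n ℂ)) = _
    rw [map_sum, Matrix.vecMul, dotProduct, Rat.cast_sum]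
    refine Finset.sum_congr rfl fun i _ => ?_
    rw [map_rat_smul]
    change x i • ((e i : Matrix n n ℂ).conjTranspose * G * (e j : Matrix n n ℂ)).trace.im = _
    rw [hQ i j, Rat.cast_mul, Rat.smul_def]
    rfl
  have hdet : (Matrix.of Q).det ≠ 0 := by
    intro h0
    obtain ⟨x, hx0, hx⟩ := Matrix.exists_vecMul_eq_zero_iff.2 h0
    apply hx0
    have h2 : ((∑ i, x i • e i : R) : Matrix n n ℂ) = 0 := by
      apply RAdj_zero hG he
      intro j
      rw [hsum x j, hx, Pi.zero_apply, Rat.cast_zero]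
    have h3 : (∑ i, x i • e i : R) = 0 := Subtype.ext h2
    funext i
    exact Fintype.linearIndependent_iff.1 e.linearIndependent x h3 i
  let x : Fin N → ℚ := Matrix.vecMul l (Matrix.of Q)⁻¹
  have hx : Matrix.vecMul x (Matrix.of Q) = l := by
    rw [Matrix.vecMul_vecMul, Matrix.nonsing_inv_mul _ (isUnit_iff_ne_zero.2 hdet),
      Matrix.vecMul_one]
  have hadj : (G⁻¹ * r.conjTranspose * G).conjTranspose * G = G * r := by
    rw [Matrix.conjTranspose_mul, Matrix.conjTranspose_mul, Matrix.conjTranspose_conjTranspose,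
      Matrix.conjTranspose_nonsing_inv, hG', ← Matrix.mul_assoc, Matrix.mul_assoc (G * r),
      Matrix.nonsing_inv_mul _ (isUnit_iff_ne_zero.2 hG), Matrix.mul_one]
  have h4 : G⁻¹ * r.conjTranspose * G - ((∑ i, x i • e i : R) : Matrix n n ℂ) = 0 := by
    apply RAdj_zero hG he
    intro j
    rw [Matrix.conjTranspose_sub, Matrix.sub_mul, Matrix.sub_mul, Matrix.trace_sub,
      Complex.sub_im, hsum x j, hx, hadj, hl j, sub_self]
  rw [sub_eq_zero.1 h4]
  exact (∑ i, x i • e i : R).2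

end

theorem thm_RAdj (h1 : St_RBas) (h2 : St_GramA) : St_RAdj := by
  intro α β _ _ _ _ R X₀ d hD
  obtain ⟨⟨e⟩, he⟩ := h1 α β R X₀ d hD
  have hJ : (Jm α β).conjTranspose = Jm α β := by
    unfold Jm
    rw [Matrix.fromBlocks_conjTranspose]
    simp
  have hJ2 : (Jm α β).det ≠ 0 := by
    unfold Jm
    rw [Matrix.det_fromBlocks_zero₂₁, Matrix.det_one, one_mul, Matrix.det_neg, Matrix.det_one,
      mul_one]
    exact pow_ne_zero _ (by norm_num)
  have hdet : (Gm X₀).det ≠ 0 := by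
    unfold Gm
    rw [Matrix.det_mul, Matrix.det_mul, Matrix.det_conjTranspose]
    exact mul_ne_zero (mul_ne_zero (star_ne_zero.2 hD.det) hJ2) hD.det
  have hH : (Gm X₀).conjTranspose = Gm X₀ := by
    unfold Gm
    rw [Matrix.conjTranspose_mul, Matrix.conjTranspose_mul, Matrix.conjTranspose_conjTranspose,
      hJ, Matrix.mul_assoc]
  refine ⟨h2 α β R X₀ d hD.pos hD.alg hD.span hD.jj hD.rat, hdet, hH, fun r hr => ?_⟩
  refine RAdj_mem hdet hH R e (he _ e).2.2.1 (fun a ha b hb => ?_) r hr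
  obtain ⟨q, hq⟩ := hD.rat b hb a ha
  refine ⟨q, ?_⟩
  rw [← hq]
  unfold Gm
  rw [Matrix.conjTranspose_mul]
  simp only [Matrix.mul_assoc]

end PST
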