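import Pool.Agent.PST.StN

set_option autoImplicit false

namespace PST

open scoped ComplexConjugate
open Module

variable {α β : Type} [Fintype α] [Fintype β] [DecidableEq α] [DecidableEq β]

/-- `cor` as a real linear equivalence -/
noncomputable def RBas_corE : Matrix (α ⊕ β) (α ⊕ β) ℂ ≃ₗ[ℝ] (Ix α β (α ⊕ β) → ℂ) where
  toFun X := cor X
  invFun x := Matrix.of fun i k => sw x (i, k)
  map_add' X Y := by
    funext ⟨s, k⟩
    cases s <;> simp [cor, sw]
  map_smul' c X := by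
    funext ⟨s, k⟩
    cases s <;> simp [cor, sw]
  left_inv X := by
    ext i k
    cases i <;> simp [cor, sw]
  right_inv x := by
    funext ⟨s, k⟩
    cases s <;> simp [cor, sw]

/-- the real span of `R` is stable under multiplication by `i` -/
theorem RBas_span (R : Subalgebra ℚ (Matrix (α ⊕ β) (α ⊕ β) ℂ)) (d : ℚ) (hd : 0 < d)
    (hspan : Submodule.span ℂ (R : Set (Matrix (α ⊕ β) (α ⊕ β) ℂ)) = ⊤)
    (hjj : zd d • (1 : Matrix (α ⊕ β) (α ⊕ β) ℂ) ∈ R) :
    Submodule.span ℝ (R : Set (Matrix (α ⊕ β) (α ⊕ β) ℂ)) = ⊤ := by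
  have hI : ∀ x ∈ Submodule.span ℝ (R : Set (Matrix (α ⊕ β) (α ⊕ β) ℂ)),
      Complex.I • x ∈ Submodule.span ℝ (R : Set (Matrix (α ⊕ β) (α ⊕ β) ℂ)) := by
    intro x hx
    induction hx using Submodule.span_induction with
    | mem x hx =>
      have h1 : zd d • x ∈ R := by
        have := R.mul_mem hjj hx
        rwa [smul_mul_assoc, one_mul] at this
      have hs : (0 : ℝ) < Real.sqrt (d : ℝ) := Real.sqrt_pos.2 (by exact_mod_cast hd)
      have h2 : Complex.I • x = ((Real.sqrt (d : ℝ))⁻¹ : ℝ) • (zd d • x) := by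
        rw [← Complex.coe_smul, smul_smul, zd, ← mul_assoc, Complex.ofReal_inv, inv_mul_cancel₀, one_mul]
        exact_mod_cast hs.ne'
      rw [h2]
      exact Submodule.smul_mem _ _ (Submodule.subset_span h1)
    | zero => simp
    | add x y _ _ hx hy => rw [smul_add]; exact add_mem hx hy
    | smul a x _ hx => rw [smul_comm]; exact Submodule.smul_mem _ _ hx
  rw [eq_top_iff]
  intro x _
  have hx : x ∈ Submodule.span ℂ (R : Set (Matrix (α ⊕ β) (α ⊕ β) ℂ)) := by rw [hspan]; trivial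
  induction hx using Submodule.span_induction with
  | mem x hx => exact Submodule.subset_span hx
  | zero => exact zero_mem _
  | add x y _ _ hx hy => exact add_mem (hx trivial) (hy trivial)
  | smul a x _ hx =>
    have h3 : a • x = a.re • x + a.im • (Complex.I • x) := by
      rw [← Complex.coe_smul, ← Complex.coe_smul a.im, smul_smul, ← add_smul, Complex.re_add_im]
    rw [h3]
    exact add_mem (Submodule.smul_mem _ _ (hx trivial)) (Submodule.smul_mem _ _ (hI _ (hx trivial)))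

theorem RBas_finrank : Module.finrank ℝ (Matrix (α ⊕ β) (α ⊕ β) ℂ) =
    2 * (Fintype.card α + Fintype.card β) ^ 2 := by
  rw [← Module.finrank_mul_finrank ℝ ℂ (Matrix (α ⊕ β) (α ⊕ β) ℂ), Complex.finrank_real_complex,
    Module.finrank_matrix, Module.finrank_self, Fintype.card_sum]
  ring

theorem thm_RBas : St_RBas := by
  intro α β _ _ _ _ R X₀ d hD
  have hspan := RBas_span R d hD.pos hD.span hD.jj
  have hpos : 0 < Module.finrank ℚ R := by
    rw [hD.dim]
    have := hD.prime.pos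
    positivity
  haveI : Module.Finite ℚ R := Module.finite_of_finrank_pos hpos
  refine ⟨⟨Module.finBasisOfFinrankEq ℚ R hD.dim⟩, ?_⟩
  intro N e
  have hN : N = 2 * (Fintype.card α + Fintype.card β) ^ 2 := by
    rw [← hD.dim, Module.finrank_eq_card_basis e, Fintype.card_fin]
  have htop : Submodule.span ℝ (Set.range fun i => (e i : Matrix (α ⊕ β) (α ⊕ β) ℂ)) = ⊤ := by
    rw [eq_top_iff, ← hspan, Submodule.span_le]
    intro r hr
    have h1 := e.sum_repr ⟨r, hr⟩
    have h2 : r = ∑ i, (e.repr ⟨r, hr⟩ i) • (e i : Matrix (α ⊕ β) (α ⊕ β) ℂ) := by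
      refine (congrArg R.val h1).symm.trans ?_
      rw [map_sum]
      rfl
    rw [h2]
    refine Submodule.sum_mem _ fun i _ => ?_
    have h3 : (e.repr ⟨r, hr⟩ i) • (e i : Matrix (α ⊕ β) (α ⊕ β) ℂ) =
        ((e.repr ⟨r, hr⟩ i : ℚ) : ℝ) • (e i : Matrix (α ⊕ β) (α ⊕ β) ℂ) := by
      rw [Rat.cast_smul_eq_qsmul]
    rw [h3]
    exact Submodule.smul_mem _ _ (Submodule.subset_span ⟨i, rfl⟩)
  have hli : LinearIndependent ℝ (fun i => (e i : Matrix (α ⊕ β) (α ⊕ β) ℂ)) := by
    apply linearIndependent_of_top_le_span_of_card_eq_finrank htop.ge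
    rw [Fintype.card_fin, RBas_finrank, hN]
  have hU : IsUnit X₀ := (Matrix.isUnit_iff_isUnit_det _).2 (isUnit_iff_ne_zero.2 hD.det)
  let ℓ : Matrix (α ⊕ β) (α ⊕ β) ℂ →ₗ[ℝ] (Ix α β (α ⊕ β) → ℂ) :=
    RBas_corE.toLinearMap ∘ₗ (LinearMap.mulLeft ℝ X₀)
  have hinj : Function.Injective ℓ := by
    intro x y hxy
    have h1 : X₀ * x = X₀ * y := RBas_corE.injective hxy
    exact hU.mul_left_cancel h1
  have hsurj : Function.Surjective ℓ := by
    intro y
    obtain ⟨z, hz⟩ := RBas_corE.surjective y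
    obtain ⟨u, hu⟩ := hU
    refine ⟨(↑(u⁻¹) : Matrix (α ⊕ β) (α ⊕ β) ℂ) * z, ?_⟩
    show RBas_corE (X₀ * ((↑(u⁻¹) : Matrix (α ⊕ β) (α ⊕ β) ℂ) * z)) = y
    rw [← hu, ← mul_assoc, Units.mul_inv, one_mul, hz]
  refine ⟨hN, hli, htop, ?_, ?_⟩
  · exact hli.map' ℓ (LinearMap.ker_eq_bot.2 hinj)
  · have h1 : (Set.range fun i => cor (X₀ * (e i : Matrix (α ⊕ β) (α ⊕ β) ℂ))) =
        ℓ '' (Set.range fun i => (e i : Matrix (α ⊕ β) (α ⊕ β) ℂ)) := by
      rw [← Set.range_comp]
      rfl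
    rw [h1, Submodule.span_image, htop, Submodule.map_top, LinearMap.range_eq_top.2 hsurj]

end PST
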