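import Pool.Agent.PST.StF
import Pool.Agent.GAM.GroF
import Pool.Agent.GAM.GroU
import Pool.Agent.GAM.GroC
import Pool.Agent.GAM.Rel

/-!
# PST [Rel]: the algebraic relation
-/

set_option autoImplicit false

namespace PST

open scoped ComplexConjugate
open GAM (H E F pd pdl PLat IsTh OddTor IsDel Gro IsLat)

section

variable {α β μ : Type} [Fintype α] [Fintype β] [Fintype μ] [DecidableEq α] [DecidableEq β]
  [DecidableEq μ]

theorem Rel_gro_sum {ι κ : Type} [Fintype ι] [DecidableEq ι] (s : Finset κ)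
    {f : κ → (ι → ℂ) → ℂ} (hf : ∀ k, Gro (f k)) : Gro fun v => ∑ k ∈ s, f k v := by
  classical
  obtain ⟨-, -, -, h4⟩ := GAM.thm_GroC ι
  induction s using Finset.induction_on with
  | empty =>
    simp only [Finset.sum_empty]
    refine ⟨differentiable_const _, fun ε _ => ⟨0, fun v => ?_⟩⟩
    simp
  | insert k s hk ih =>
    simp only [Finset.sum_insert hk]
    exact h4 _ _ (hf k) ih

theorem Rel_gro_Dij {G : (Ix α β μ → ℂ) → ℂ} (hG : Gro G) (p : α × β) : Gro (Dij p G) := by
  have h1 := (GAM.thm_GroC (Ix α β μ)).1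
  exact Rel_gro_sum Finset.univ fun k => h1 _ (h1 G hG _) _

/-- continuity at zero of the determinant -/
theorem Rel_fm (h4 : St_Ell) (h5 : St_OmT) {L : Submodule ℤ (Ix α β μ → ℂ)}
    {χ θ : (Ix α β μ → ℂ) → ℂ} (hP : PLat L χ) (hT : IsTh L χ θ) (k : μ)
    (x' : β → Ix α β μ → ℂ) : ContinuousAt (fun w : α × β → ℂ => fm k θ w x') 0 := by
  obtain ⟨ho, -, h0, -⟩ := h5 α β
  obtain ⟨g1, g2, -⟩ := GAM.thm_GroF GAM.thm_GroU GAM.thm_GroC (Ix α β μ)
  have hG : ∀ x, Gro (F θ x) := g1 L χ θ hP hT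
  have h1 : ContinuousAt (fun w : α × β → ℂ =>
      (Matrix.of fun j b : β => dpsi (Sum.inr j, k) θ w (x' b) : Matrix β β ℂ)) 0 := by
    refine continuousAt_pi.2 fun j => continuousAt_pi.2 fun b => ?_
    have h2 := (h4 α β μ (pd (Sum.inr j, k) (F θ (x' b))) (g2 _ (hG _) _)).1
    exact ((h2 0 h0).differentiableAt (ho.mem_nhds h0)).continuousAt
  exact ContinuousAt.comp (g := fun M : Matrix β β ℂ => M.det)
    (f := fun w : α × β → ℂ =>
      (Matrix.of fun j b : β => dpsi (Sum.inr j, k) θ w (x' b) : Matrix β β ℂ))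
    (Continuous.matrix_det continuous_id).continuousAt h1

end

theorem thm_Rel (h1 : St_SieR) (h2 : St_MinP) (h3 : St_HomI) (h4 : St_Ell) (h5 : St_OmT)
    (_h6 : St_EllZ) : St_Rel := by
  classical
  intro α β μ _ _ _ _ _ _ L χ θ e k y x x' hP hT hne hC hy hx hx' hy0 hfp hfm hdet
  obtain ⟨ho, -, h0, -⟩ := h5 α β
  obtain ⟨g1, g2, -⟩ := GAM.thm_GroF GAM.thm_GroU GAM.thm_GroC (Ix α β μ)
  have hG : ∀ x, Gro (F θ x) := g1 L χ θ hP hT
  have hE := fun i => h4 α β μ (F θ (y i)) (hG (y i))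
  have hz : ∀ G : (Ix α β μ → ℂ) → ℂ, Gro G → ell 0 G = G 0 :=
    fun G hG => (h4 α β μ G hG).2.1
  have han : ∀ i, AnalyticAt ℂ (fun w => psi θ w (y i)) 0 := fun i =>
    GAM.analyticOnNhd_of_differentiableOn ho (hE i).1 0 h0
  have hM := h1 α β μ L χ θ e k y x x' hP hT hne hC hy hx hx'
  refine h2 (α × β → ℂ) (Option (α × β)) (fun i w => XF e k θ y x x' w i) (Om α β) ?_ hM
  intro m P hPm hPz
  refine h3 (α × β) (fun i w => psi θ w (y i)) han ?_ m P hPm ?_
  · -- the determinant
    have e1 : (Matrix.of fun i j : Option (α × β) =>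
        Option.elim j (psi θ 0 (y i)) fun p => pd p (fun w => psi θ w (y i)) 0) =
        Matrix.of fun i j : Option (α × β) =>
          (Option.elim j 1 fun _ => (1 / Real.pi : ℂ)) * (Matrix.of fun i j : Option (α × β) =>
            Option.elim j (F θ (y i) 0) fun p => Dij p (F θ (y i)) 0) i j := by
      ext i j
      cases j with
      | none =>
        show psi θ 0 (y i) = 1 * F θ (y i) 0
        rw [one_mul]
        exact hz _ (hG (y i))
      | some p =>
        show pd p (fun w => psi θ w (y i)) 0 = (1 / Real.pi : ℂ) * Dij p (F θ (y i)) 0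
        rw [← hz _ (Rel_gro_Dij (hG (y i)) p)]
        exact ((hE i).2.2 0 h0).1 p
    rw [e1, Matrix.det_mul_row]
    refine mul_ne_zero ?_ hdet
    refine Finset.prod_ne_zero_iff.mpr fun j _ => ?_
    cases j with
    | none => exact one_ne_zero
    | some p =>
      show (1 / Real.pi : ℂ) ≠ 0
      exact one_div_ne_zero (by exact_mod_cast Real.pi_ne_zero)
  · -- the relation near zero
    have hnz : ∀ᶠ w in nhds (0 : α × β → ℂ), psi θ w (y none) ≠ 0 :=
      (han none).continuousAt.eventually_ne hy0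
    have hnz' : ∀ᶠ w in nhds (0 : α × β → ℂ), fm k θ w x' ≠ 0 :=
      (Rel_fm h4 h5 hP hT k x').eventually_ne hfm
    filter_upwards [hnz, hnz', ho.mem_nhds h0] with w hw1 hw2 hw3
    have h := hPz w hw3
    have h' : (fun i : Option (α × β) => XF e k θ y x x' w (some i)) = fun i =>
        (psi θ w (y none) ^ (e * Fintype.card α) * fm k θ w x' ^ e) * psi θ w (y i) := by
      funext i
      show psi θ w (y i) * psi θ w (y none) ^ (e * Fintype.card α) * fm k θ w x' ^ e = _
      ring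
    rw [h', GAM.Rel_scale hPm] at h
    exact (mul_eq_zero.mp h).resolve_left
      (pow_ne_zero _ (mul_ne_zero (pow_ne_zero _ hw1) (pow_ne_zero _ hw2)))

end PST
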