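import Pool.Agent.PST.StF
import Pool.Agent.GAM.GroF
import Pool.Agent.GAM.GroC
import Pool.Agent.GAM.GroU
import Pool.Agent.GAM.Sieg

/-!
# PST [SieR]: existence of an algebraic relation
-/

set_option autoImplicit false

namespace PST

open scoped ComplexConjugate
open GAM (H E F pd pdl PLat IsTh OddTor IsDel Gro IsLat)

section

variable {α β μ : Type} [Fintype α] [Fintype β] [Fintype μ]
  [DecidableEq α] [DecidableEq β] [DecidableEq μ]

private theorem SieR_F {L : Submodule ℤ (Ix α β μ → ℂ)} {χ θ : (Ix α β μ → ℂ) → ℂ}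
    (hL : PLat L χ) (hθ : IsTh L χ θ) (x : Ix α β μ → ℂ) : Gro (F θ x) :=
  (GAM.thm_GroF GAM.thm_GroU GAM.thm_GroC (Ix α β μ)).1 L χ θ hL hθ x

private theorem SieR_psi (h3 : St_Ell) {L : Submodule ℤ (Ix α β μ → ℂ)}
    {χ θ : (Ix α β μ → ℂ) → ℂ} (hL : PLat L χ) (hθ : IsTh L χ θ) (x : Ix α β μ → ℂ) :
    DifferentiableOn ℂ (fun w => psi θ w x) (Om α β) :=
  (h3 α β μ (F θ x) (SieR_F hL hθ x)).1

private theorem SieR_dpsi (h3 : St_Ell) {L : Submodule ℤ (Ix α β μ → ℂ)}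
    {χ θ : (Ix α β μ → ℂ) → ℂ} (hL : PLat L χ) (hθ : IsTh L χ θ) (p : Ix α β μ)
    (x : Ix α β μ → ℂ) : DifferentiableOn ℂ (fun w => dpsi p θ w x) (Om α β) :=
  (h3 α β μ (pd p (F θ x)) ((GAM.thm_GroC (Ix α β μ)).1 _ (SieR_F hL hθ x) p)).1

private theorem SieR_prod {V : Type} [NormedAddCommGroup V] [NormedSpace ℂ V] {S : Set V}
    {γ : Type} [DecidableEq γ] (s : Finset γ) (M : γ → V → ℂ)
    (hM : ∀ i, DifferentiableOn ℂ (M i) S) :
    DifferentiableOn ℂ (fun w => ∏ i ∈ s, M i w) S := by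
  induction s using Finset.induction_on with
  | empty => simp
  | insert a s ha ih =>
    simp only [Finset.prod_insert ha]
    exact (hM a).fun_mul ih

private theorem SieR_det {V : Type} [NormedAddCommGroup V] [NormedSpace ℂ V] {S : Set V}
    {γ : Type} [Fintype γ] [DecidableEq γ] (M : γ → γ → V → ℂ)
    (hM : ∀ i j, DifferentiableOn ℂ (M i j) S) :
    DifferentiableOn ℂ (fun w => (Matrix.of fun i j => M i j w).det) S := by
  simp only [Matrix.det_apply, Matrix.of_apply]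
  refine DifferentiableOn.fun_sum fun σ _ => ?_
  refine DifferentiableOn.const_smul ?_ _
  exact SieR_prod _ _ fun i => hM _ _

private theorem SieR_XF (h3 : St_Ell) {L : Submodule ℤ (Ix α β μ → ℂ)}
    {χ θ : (Ix α β μ → ℂ) → ℂ} (hL : PLat L χ) (hθ : IsTh L χ θ) (e : ℕ) (k : μ)
    (y : Option (α × β) → Ix α β μ → ℂ) (x : α → Ix α β μ → ℂ) (x' : β → Ix α β μ → ℂ)
    (o : Option (Option (α × β))) :
    DifferentiableOn ℂ (fun w => XF e k θ y x x' w o) (Om α β) := by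
  have hp := SieR_psi h3 hL hθ
  have hd := SieR_dpsi h3 hL hθ
  rcases o with _ | i
  · show DifferentiableOn ℂ (fun w => psi θ w (y none) *
      psi θ w (y none) ^ (e * Fintype.card β) * fp k θ w x ^ e) (Om α β)
    refine ((hp _).fun_mul ((hp _).fun_pow _)).fun_mul (DifferentiableOn.fun_pow ?_ _)
    exact SieR_det (fun i b w => dpsi (Sum.inl i, k) θ w (x b)) fun i b => hd _ _
  · show DifferentiableOn ℂ (fun w => psi θ w (y i) *
      psi θ w (y none) ^ (e * Fintype.card α) * fm k θ w x' ^ e) (Om α β)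
    refine ((hp _).fun_mul ((hp _).fun_pow _)).fun_mul (DifferentiableOn.fun_pow ?_ _)
    exact SieR_det (fun i b w => dpsi (Sum.inr i, k) θ w (x' b)) fun i b => hd _ _

/-- the action is surjective -/
private theorem SieR_surj (h5 : St_UGr) {g : Matrix (α ⊕ β) (α ⊕ β) ℂ} (hg : IsU g)
    (x : Ix α β μ → ℂ) : ∃ y : Ix α β μ → ℂ, act g y = x := by
  obtain ⟨-, hmul, hone, -, -, hinv, -⟩ := h5 α β μ
  obtain ⟨-, -, hr, -, -⟩ := hinv g hg
  exact ⟨act (Jm α β * g.conjTranspose * Jm α β) x, by rw [← hmul, hr, hone]⟩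

end

/-- comparison of suprema -/
private theorem SieR_lub {X : Type} (f f' : X → ℂ) (s : X → X) (hs : Function.Surjective s)
    (a b : ℂ) (ha : a ≠ 0) (h : ∀ x, a * f' (s x) = b * f x) {M M' : ℝ}
    (hM : IsLUB (Set.range fun x => ‖f x‖) M) (hM' : IsLUB (Set.range fun x => ‖f' x‖) M')
    (hb : b ≠ 0) : ‖a‖ * M' = ‖b‖ * M := by
  have ha' : 0 < ‖a‖ := norm_pos_iff.2 ha
  have hb' : 0 < ‖b‖ := norm_pos_iff.2 hb
  apply le_antisymm
  · rw [← le_div_iff₀' ha']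
    apply hM'.2
    rintro _ ⟨t, rfl⟩
    obtain ⟨t, rfl⟩ := hs t
    show ‖f' (s t)‖ ≤ _
    rw [le_div_iff₀' ha', ← norm_mul, h, norm_mul]
    exact mul_le_mul_of_nonneg_left (hM.1 ⟨t, rfl⟩) hb'.le
  · rw [← le_div_iff₀' hb']
    apply hM.2
    rintro _ ⟨t, rfl⟩
    show ‖f t‖ ≤ _
    rw [le_div_iff₀' hb', ← norm_mul, ← h, norm_mul]
    exact mul_le_mul_of_nonneg_left (hM'.1 ⟨s t, rfl⟩) ha'.le

theorem thm_SieR (h1 : St_GamI) (h2 : St_Sup) (h3 : St_Ell) (h4 : St_OmT) (h5 : St_UGr)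
    (_h6 : St_UAl) : St_SieR := by
  intro α β μ _ _ _ _ _ _ L χ θ e k y x x' hL hθ hne hcoc hy hx hx'
  classical
  -- the common order
  obtain ⟨n, hn, hc⟩ := GAM.exists_common_order (L := L) (κ := (Option (α × β)) ⊕ (α ⊕ β))
    (Sum.elim y (Sum.elim x x')) (by
      rintro (o | i | j)
      · exact hy o
      · exact hx i
      · exact hx' j)
  have hn0 : n ≠ 0 := by
    rintro rfl
    simp at hn
  obtain ⟨ρ, hρ, hρ1, hcoc⟩ := hcoc (2 * n ^ 2) (by positivity)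
  obtain ⟨⟨NP, hNP, hlubP⟩, hM⟩ := h2 α β μ L χ θ hL hθ hne
  obtain ⟨NM, hNM, hlubM⟩ := hM k
  obtain ⟨hopen, -, -, hcomp, -, -⟩ := h4 α β
  obtain ⟨hK, hKΩ⟩ := hcomp ρ hρ hρ1
  refine GAM.thm_Sieg (α × β) (Option (Option (α × β))) (by simp) (Om α β) (OmC α β ρ)
    (fun w => (1 + e * Fintype.card α : ℕ) * NP w + (e : ℕ) * NM w)
    (fun i w => XF e k θ y x x' w i) hopen
    ((continuousOn_const.mul hNP).add (continuousOn_const.mul hNM))
    hK hKΩ (fun i => SieR_XF h3 hL hθ e k y x x' i) ?_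
  intro w hw
  obtain ⟨g, hg, hdet, hgL, hgn, hgρ⟩ := hcoc w hw
  obtain ⟨j, mm, hj0, hm0, hj1, hj2, hj3⟩ := h1 α β μ g L χ θ n e k y x x' hL hθ hne
    (fun i => hc (Sum.inl i)) (fun i => hc (Sum.inr (Sum.inl i)))
    (fun i => hc (Sum.inr (Sum.inr i))) hn0 hg hdet hgL hgn w hw
  have hsurj : Function.Surjective (fun t : Ix α β μ → ℂ => act g t) :=
    fun t => SieR_surj h5 hg t
  have hsurjβ : Function.Surjective (fun (t : β → Ix α β μ → ℂ) (b : β) => act g (t b)) := by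
    intro t
    choose t' ht' using fun b => SieR_surj h5 hg (t b)
    exact ⟨t', funext ht'⟩
  refine ⟨mob g w, hgρ, mm ^ e * (j ^ (1 + e * (Fintype.card α + Fintype.card β)))⁻¹, ?_, ?_⟩
  · have h7 := SieR_lub (fun t => psi θ w t) (fun t => psi θ (mob g w) t) _ hsurj 1 j one_ne_zero
      (fun t => by rw [one_mul]; exact hj1 t) (hlubP w hw) (hlubP _ (hKΩ hgρ)) hj0
    have h8 := SieR_lub (fun t => fm k θ w t) (fun t => fm k θ (mob g w) t) _ hsurjβ mm
      (j ^ Fintype.card β) hm0 hj2 (hlubM w hw) (hlubM _ (hKΩ hgρ)) (pow_ne_zero _ hj0)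
    rw [norm_one, one_mul] at h7
    rw [norm_pow] at h8
    have hjn : 0 < ‖j‖ := norm_pos_iff.2 hj0
    have hmn : 0 < ‖mm‖ := norm_pos_iff.2 hm0
    rw [Real.exp_add, Real.exp_add, Real.exp_nat_mul, Real.exp_nat_mul, Real.exp_nat_mul,
      Real.exp_nat_mul, h7]
    have h9 : Real.exp (NM (mob g w)) = ‖j‖ ^ Fintype.card β * Real.exp (NM w) / ‖mm‖ := by
      rw [eq_div_iff hmn.ne', mul_comm, h8]
    rw [h9, norm_mul, norm_inv, norm_pow, norm_pow, mul_pow, div_pow, mul_pow, ← pow_mul]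
    have e1 : 1 + e * (Fintype.card α + Fintype.card β) =
        (1 + e * Fintype.card α) + Fintype.card β * e := by ring
    rw [e1, pow_add]
    field_simp
  · intro i
    have h7 := hj3 i
    have hj' : j ^ (1 + e * (Fintype.card α + Fintype.card β)) ≠ 0 := pow_ne_zero _ hj0
    show XF e k θ y x x' w i = _ * XF e k θ y x x' (mob g w) i
    rw [mul_right_comm, h7]
    field_simp

end PST
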