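import Pool.Agent.PST.StF

/-!
# PST, module UAl: the action on the domain
-/

set_option autoImplicit false

namespace PST

open scoped ComplexConjugate Matrix
open GAM (H E F pd pdl PLat IsTh OddTor IsDel Gro IsLat)
open Matrix

/-! ### matrix algebra -/

section alg

variable {α β μ : Type} [Fintype α] [Fintype β] [DecidableEq α] [DecidableEq β]
  {a : Matrix α α ℂ} {b : Matrix α β ℂ} {c : Matrix β α ℂ} {d : Matrix β β ℂ}

/-- the relations between the blocks -/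
private structure UAl_R (a : Matrix α α ℂ) (b : Matrix α β ℂ) (c : Matrix β α ℂ)
    (d : Matrix β β ℂ) : Prop where
  r1 : aᴴ * a = 1 + cᴴ * c
  r2 : aᴴ * b = cᴴ * d
  r3 : bᴴ * a = dᴴ * c
  r4 : dᴴ * d = 1 + bᴴ * b
  s1 : a * aᴴ = 1 + b * bᴴ
  s3 : c * aᴴ = d * bᴴ

private theorem UAl_rel (h : IsU (fromBlocks a b c d))
    (h' : fromBlocks a b c d * Jm α β * (fromBlocks a b c d)ᴴ = Jm α β) : UAl_R a b c d := by
  unfold IsU at h
  unfold Jm at h h'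
  rw [fromBlocks_conjTranspose, fromBlocks_multiply, fromBlocks_multiply] at h
  rw [fromBlocks_conjTranspose, fromBlocks_multiply, fromBlocks_multiply] at h'
  obtain ⟨h1, h2, h3, h4⟩ := fromBlocks_inj.1 h
  obtain ⟨k1, k2, k3, k4⟩ := fromBlocks_inj.1 h'
  simp only [Matrix.mul_one, Matrix.mul_zero, add_zero, zero_add, Matrix.mul_neg,
    Matrix.neg_mul] at h1 h2 h3 h4 k1 k2 k3 k4
  refine ⟨?_, ?_, ?_, ?_, ?_, ?_⟩
  · rw [← h1]; abel
  · rw [← sub_eq_zero, ← h2]; abel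
  · rw [← sub_eq_zero, ← h3]; abel
  · have h5 : (1 : Matrix β β ℂ) = -(bᴴ * b + -(dᴴ * d)) := by rw [h4, neg_neg]
    rw [h5]; abel
  · rw [← k1]; abel
  · rw [← sub_eq_zero, ← k3]; abel

/-- the norm identity -/
private theorem UAl_norm (R : UAl_R a b c d) (W : Matrix α β ℂ) :
    (c * W + d)ᴴ * (c * W + d) - (a * W + b)ᴴ * (a * W + b) = 1 - Wᴴ * W := by
  have e1 : aᴴ * (a * W) = W + cᴴ * (c * W) := by
    rw [← Matrix.mul_assoc, R.r1, Matrix.add_mul, Matrix.one_mul, Matrix.mul_assoc]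
  have e3 : bᴴ * (a * W) = dᴴ * (c * W) := by
    rw [← Matrix.mul_assoc, R.r3, Matrix.mul_assoc]
  simp only [conjTranspose_add, conjTranspose_mul, Matrix.add_mul, Matrix.mul_add,
    Matrix.mul_assoc]
  rw [e1, e3, R.r2, R.r4, Matrix.mul_add]
  abel

variable {W W' : Matrix α β ℂ} {D : Matrix β β ℂ} {A : Matrix α α ℂ}

omit [DecidableEq α] [DecidableEq β] in
private theorem UAl_AW (hD : D = c * W + d) (hW : W' * D = a * W + b) (hA : A = a - W' * c) :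
    A * W = W' * d - b := by
  have h1 : W' * (c * W) + W' * d = a * W + b := by rw [← Matrix.mul_add, ← hD, hW]
  rw [hA, Matrix.sub_mul, Matrix.mul_assoc]
  rw [sub_eq_sub_iff_add_eq_add, ← h1]
  abel

private theorem UAl_A1 (R : UAl_R a b c d) (hD : D = c * W + d) (hW : W' * D = a * W + b)
    (hA : A = a - W' * c) : A * (aᴴ + W * bᴴ) = 1 := by
  rw [Matrix.mul_add, ← Matrix.mul_assoc A W, UAl_AW hD hW hA, hA, Matrix.sub_mul,
    Matrix.sub_mul, Matrix.mul_assoc, Matrix.mul_assoc, R.s3, R.s1]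
  abel

private theorem UAl_A2 (R : UAl_R a b c d) (hD : D = c * W + d) (hW : W' * D = a * W + b)
    (hA : A = a - W' * c) : (aᴴ + W * bᴴ) * A = 1 :=
  mul_eq_one_comm.1 (UAl_A1 R hD hW hA)

private theorem UAl_A3 (R : UAl_R a b c d) (hD : D = c * W + d) (hW : W' * D = a * W + b)
    (hA : A = a - W' * c) : Aᴴ * (a + b * Wᴴ) = 1 := by
  have h1 := congrArg conjTranspose (UAl_A2 R hD hW hA)
  rw [conjTranspose_mul, conjTranspose_add, conjTranspose_mul, conjTranspose_conjTranspose,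
    conjTranspose_conjTranspose, conjTranspose_one] at h1
  exact h1

private theorem UAl_Dc (R : UAl_R a b c d) (hD : D = c * W + d) (hW : W' * D = a * W + b)
    (hA : A = a - W' * c) : D * (bᴴ * A) = c := by
  have h1 : D * bᴴ = c * (aᴴ + W * bᴴ) := by
    rw [hD, Matrix.add_mul, Matrix.mul_add, R.s3, Matrix.mul_assoc, add_comm]
  rw [← Matrix.mul_assoc, h1, Matrix.mul_assoc, UAl_A2 R hD hW hA, Matrix.mul_one]

private theorem UAl_det (hD : D = c * W + d) (hW : W' * D = a * W + b) (hA : A = a - W' * c) :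
    A.det * D.det = (fromBlocks a b c d).det := by
  have h1 : fromBlocks 1 (-W') 0 1 * (fromBlocks a b c d * fromBlocks 1 W 0 1) =
      fromBlocks A 0 c D := by
    rw [fromBlocks_multiply, fromBlocks_multiply]
    simp only [Matrix.mul_one, Matrix.mul_zero, add_zero, zero_add, Matrix.one_mul,
      Matrix.zero_mul, Matrix.neg_mul]
    rw [← hD, ← hW, hA]
    congr 1
    abel
  have h2 := congrArg Matrix.det h1
  rw [Matrix.det_mul, Matrix.det_mul, Matrix.det_fromBlocks_zero₂₁,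
    Matrix.det_fromBlocks_zero₂₁, Matrix.det_fromBlocks_zero₁₂] at h2
  simp only [Matrix.det_one, one_mul, mul_one] at h2
  exact h2.symm

variable (X : Matrix α μ ℂ) (Y : Matrix β μ ℂ)

omit [DecidableEq α] [DecidableEq β] in
private theorem UAl_E1 (hD : D = c * W + d) (hW : W' * D = a * W + b) (hA : A = a - W' * c) :
    (a * X + b * Y) - W' * (c * X + d * Y) = A * (X - W * Y) := by
  rw [Matrix.mul_sub, ← Matrix.mul_assoc A W, UAl_AW hD hW hA, hA, Matrix.sub_mul,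
    Matrix.sub_mul, Matrix.mul_add, Matrix.mul_assoc, Matrix.mul_assoc]
  abel

private theorem UAl_E2 (R : UAl_R a b c d) (hD : D = c * W + d) (hW : W' * D = a * W + b)
    (hu : D * D⁻¹ = 1) :
    (c * X + d * Y) - W'ᴴ * (a * X + b * Y) = (D⁻¹)ᴴ * (Y - Wᴴ * X) := by
  have h1 : Dᴴ * ((c * X + d * Y) - W'ᴴ * (a * X + b * Y)) = Y - Wᴴ * X := by
    have h2 : Dᴴ * W'ᴴ = (a * W + b)ᴴ := by rw [← hW, conjTranspose_mul]
    rw [Matrix.mul_sub, ← Matrix.mul_assoc, h2, hD]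
    have e1 : aᴴ * (a * X) = X + cᴴ * (c * X) := by
      rw [← Matrix.mul_assoc, R.r1, Matrix.add_mul, Matrix.one_mul, Matrix.mul_assoc]
    have e2 : aᴴ * (b * Y) = cᴴ * (d * Y) := by
      rw [← Matrix.mul_assoc, R.r2, Matrix.mul_assoc]
    have e3 : bᴴ * (a * X) = dᴴ * (c * X) := by
      rw [← Matrix.mul_assoc, R.r3, Matrix.mul_assoc]
    have e4 : dᴴ * (d * Y) = Y + bᴴ * (b * Y) := by
      rw [← Matrix.mul_assoc, R.r4, Matrix.add_mul, Matrix.one_mul, Matrix.mul_assoc]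
    simp only [conjTranspose_add, conjTranspose_mul, Matrix.add_mul, Matrix.mul_add,
      Matrix.mul_assoc]
    rw [e1, e2, e3, e4, Matrix.mul_add]
    abel
  have h3 : (D⁻¹)ᴴ * Dᴴ = 1 := by rw [← conjTranspose_mul, hu, conjTranspose_one]
  rw [← h1, ← Matrix.mul_assoc, h3, Matrix.one_mul]

private theorem UAl_E3 (R : UAl_R a b c d) (hD : D = c * W + d) (hW : W' * D = a * W + b)
    (hA : A = a - W' * c) :
    (a * X + b * Y)ᴴ * A = (Y - Wᴴ * X)ᴴ * (bᴴ * A) + Xᴴ := by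
  have h1 : Aᴴ * (a * X + b * Y) = Aᴴ * (b * (Y - Wᴴ * X)) + X := by
    have h2 : X = Aᴴ * ((a + b * Wᴴ) * X) := by
      rw [← Matrix.mul_assoc, UAl_A3 R hD hW hA, Matrix.one_mul]
    conv_rhs => rw [h2]
    rw [← Matrix.mul_add]
    congr 1
    have h3 : b * (Wᴴ * (Aᴴ * ((a + b * Wᴴ) * X))) = b * (Wᴴ * X) := by rw [← h2]
    rw [Matrix.mul_sub, h3, Matrix.add_mul, Matrix.mul_assoc]
    abel
  have h4 : (a * X + b * Y)ᴴ * A = (Aᴴ * (a * X + b * Y))ᴴ := by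
    rw [conjTranspose_mul, conjTranspose_conjTranspose]
  rw [h4, h1, conjTranspose_add, conjTranspose_mul, conjTranspose_mul,
    conjTranspose_conjTranspose, Matrix.mul_assoc]

private theorem UAl_E4 (R : UAl_R a b c d) (hD : D = c * W + d) (hW : W' * D = a * W + b)
    (hA : A = a - W' * c) (hu : D⁻¹ * D = 1) :
    D⁻¹ * (c * X + d * Y) = bᴴ * A * (X - W * Y) + Y := by
  have h1 : D⁻¹ * c = bᴴ * A := by
    conv_lhs => rw [← UAl_Dc R hD hW hA]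
    rw [← Matrix.mul_assoc, hu, Matrix.one_mul]
  have h2 : c * X + d * Y = c * (X - W * Y) + D * Y := by
    rw [hD, Matrix.mul_sub, Matrix.add_mul, Matrix.mul_assoc]
    abel
  rw [h2, Matrix.mul_add, ← Matrix.mul_assoc, ← Matrix.mul_assoc, h1, hu, Matrix.one_mul]

end alg

/-! ### norms -/

section nrm

variable {α β : Type} [Fintype α] [Fintype β]

private theorem UAl_ns (v : β → ℂ) : star v ⬝ᵥ v = ((∑ j, ‖v j‖ ^ 2 : ℝ) : ℂ) := by
  unfold dotProduct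
  push_cast
  refine Finset.sum_congr rfl fun j _ => ?_
  rw [Pi.star_apply]
  exact Complex.conj_mul' (v j)

private theorem UAl_ns2 (M : Matrix α β ℂ) (v : β → ℂ) :
    star v ⬝ᵥ ((Mᴴ * M) *ᵥ v) = ((∑ i, ‖(M *ᵥ v) i‖ ^ 2 : ℝ) : ℂ) := by
  rw [← UAl_ns, star_mulVec, ← dotProduct_mulVec, mulVec_mulVec]

private theorem UAl_cs (M : Matrix α β ℂ) : ∃ C : ℝ, 1 ≤ C ∧ ∀ v : β → ℂ,
    ∑ i, ‖(M *ᵥ v) i‖ ^ 2 ≤ C * ∑ j, ‖v j‖ ^ 2 := by
  refine ⟨1 + ∑ i, ∑ j, ‖M i j‖ ^ 2, ?_, fun v => ?_⟩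
  · have := Finset.sum_nonneg fun (i : α) (_ : i ∈ Finset.univ) =>
      Finset.sum_nonneg fun (j : β) (_ : j ∈ Finset.univ) => sq_nonneg ‖M i j‖
    linarith
  · have h1 : ∀ i, ‖(M *ᵥ v) i‖ ^ 2 ≤ (∑ j, ‖M i j‖ ^ 2) * ∑ j, ‖v j‖ ^ 2 := by
      intro i
      have h2 : ‖(M *ᵥ v) i‖ ≤ ∑ j, ‖M i j‖ * ‖v j‖ := by
        refine (norm_sum_le _ _).trans (le_of_eq (Finset.sum_congr rfl fun j _ => ?_))
        rw [norm_mul]
      exact (pow_le_pow_left₀ (norm_nonneg _) h2 2).trans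
        (Finset.sum_mul_sq_le_sq_mul_sq _ _ _)
    have h3 := Finset.sum_le_sum fun (i : α) (_ : i ∈ Finset.univ) => h1 i
    rw [← Finset.sum_mul] at h3
    have h4 := Finset.sum_nonneg fun (j : β) (_ : j ∈ Finset.univ) => sq_nonneg ‖v j‖
    linarith

private theorem UAl_key [DecidableEq α] [DecidableEq β] {a : Matrix α α ℂ} {b : Matrix α β ℂ}
    {c : Matrix β α ℂ} {d : Matrix β β ℂ} (R : UAl_R a b c d) (W : Matrix α β ℂ) (z : β → ℂ) :
    ∑ j, ‖((c * W + d) *ᵥ z) j‖ ^ 2 - ∑ i, ‖((a * W + b) *ᵥ z) i‖ ^ 2 =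
      ∑ j, ‖z j‖ ^ 2 - ∑ i, ‖(W *ᵥ z) i‖ ^ 2 := by
  have h1 := congrArg (fun M : Matrix β β ℂ => star z ⬝ᵥ (M *ᵥ z)) (UAl_norm R W)
  simp only [sub_mulVec, dotProduct_sub, one_mulVec, UAl_ns2, UAl_ns] at h1
  exact_mod_cast h1

private theorem UAl_dom [DecidableEq α] [DecidableEq β] {a : Matrix α α ℂ} {b : Matrix α β ℂ}
    {c : Matrix β α ℂ} {d : Matrix β β ℂ} (R : UAl_R a b c d) (W : Matrix α β ℂ) {ρ : ℝ}
    (h0 : 0 ≤ ρ) (h1 : ρ < 1)
    (hW : ∀ y : β → ℂ, ∑ i, ‖(W *ᵥ y) i‖ ^ 2 ≤ ρ ^ 2 * ∑ j, ‖y j‖ ^ 2) :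
    (c * W + d).det ≠ 0 ∧ ∀ W' : Matrix α β ℂ, W' * (c * W + d) = a * W + b →
      ∃ ρ' : ℝ, 0 ≤ ρ' ∧ ρ' < 1 ∧
        ∀ y : β → ℂ, ∑ i, ‖(W' *ᵥ y) i‖ ^ 2 ≤ ρ' ^ 2 * ∑ j, ‖y j‖ ^ 2 := by
  have hρ : ρ ^ 2 < 1 := by nlinarith
  have hnn : ∀ z : β → ℂ, 0 ≤ ∑ j, ‖z j‖ ^ 2 := fun z =>
    Finset.sum_nonneg fun j _ => sq_nonneg _
  have hdet : (c * W + d).det ≠ 0 := by
    intro hdet
    obtain ⟨z, hz, hz0⟩ := Matrix.exists_mulVec_eq_zero_iff.2 hdet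
    have h2 := UAl_key R W z
    rw [hz0] at h2
    have h3 : ∑ j : β, ‖(0 : β → ℂ) j‖ ^ 2 = 0 := by simp
    rw [h3] at h2
    have h4 := Finset.sum_nonneg fun (i : α) (_ : i ∈ Finset.univ) =>
      sq_nonneg ‖((a * W + b) *ᵥ z) i‖
    have h5 := hW z
    have h6 : ∑ j, ‖z j‖ ^ 2 = 0 := by
      have h7 := hnn z
      nlinarith
    apply hz
    funext j
    have h8 := (Finset.sum_eq_zero_iff_of_nonneg fun (j : β) _ => sq_nonneg ‖z j‖).1 h6 j
      (Finset.mem_univ j)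
    exact norm_eq_zero.1 (pow_eq_zero_iff two_ne_zero |>.1 h8)
  refine ⟨hdet, fun W' hW' => ?_⟩
  have hu : IsUnit (c * W + d).det := isUnit_iff_ne_zero.2 hdet
  obtain ⟨C, hC1, hC⟩ := UAl_cs (c * W + d)
  have hC0 : 0 < C := by linarith
  have hq : (1 - ρ ^ 2) / C ≤ 1 := by
    rw [div_le_one hC0]
    nlinarith [sq_nonneg ρ]
  have hq0 : 0 < (1 - ρ ^ 2) / C := div_pos (by linarith) hC0
  refine ⟨Real.sqrt (1 - (1 - ρ ^ 2) / C), Real.sqrt_nonneg _, ?_, fun y => ?_⟩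
  · rw [Real.sqrt_lt' one_pos]
    linarith
  · rw [Real.sq_sqrt (by linarith)]
    obtain ⟨z, hz⟩ : ∃ z : β → ℂ, z = (c * W + d)⁻¹ *ᵥ y := ⟨_, rfl⟩
    have hDz : (c * W + d) *ᵥ z = y := by
      rw [hz, mulVec_mulVec, Matrix.mul_nonsing_inv _ hu, one_mulVec]
    have hPz : W' *ᵥ y = (a * W + b) *ᵥ z := by
      rw [← hDz, mulVec_mulVec, hW']
    have h2 := UAl_key R W z
    have h3 := hC z
    rw [hDz] at h2 h3
    rw [hPz]
    have h4 := hW z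
    have h5 : (1 - ρ ^ 2) / C * ∑ j, ‖y j‖ ^ 2 ≤ (1 - ρ ^ 2) * ∑ j, ‖z j‖ ^ 2 := by
      rw [div_mul_eq_mul_div, div_le_iff₀ hC0]
      have h6 := mul_le_mul_of_nonneg_left h3 (by linarith : (0 : ℝ) ≤ 1 - ρ ^ 2)
      linarith
    linarith

end nrm

/-! ### coordinates -/

section crd

variable {α β μ : Type}

/-- the coordinates of the first kind -/
private def UAl_X (x : Ix α β μ → ℂ) : Matrix α μ ℂ := Matrix.of fun i k => x (Sum.inl i, k)

/-- the conjugates of the coordinates of the second kind -/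
private def UAl_Y (x : Ix α β μ → ℂ) : Matrix β μ ℂ :=
  Matrix.of fun j k => conj (x (Sum.inr j, k))

private theorem UAl_ext {x y : Ix α β μ → ℂ} (h1 : UAl_X x = UAl_X y) (h2 : UAl_Y x = UAl_Y y) :
    x = y := by
  funext p
  obtain ⟨i | j, k⟩ := p
  · exact congrFun (congrFun h1 i) k
  · have h3 : conj (x (Sum.inr j, k)) = conj (y (Sum.inr j, k)) := congrFun (congrFun h2 j) k
    exact (starRingEnd ℂ).injective h3

variable [Fintype α] [Fintype β]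

private theorem UAl_actX (g : Matrix (α ⊕ β) (α ⊕ β) ℂ) (x : Ix α β μ → ℂ) :
    UAl_X (act g x) = g.toBlocks₁₁ * UAl_X x + g.toBlocks₁₂ * UAl_Y x := by
  ext i k
  show ∑ q, g (Sum.inl i) q * sw x (q, k) = _
  rw [Fintype.sum_sum_type, Matrix.add_apply, Matrix.mul_apply, Matrix.mul_apply]
  rfl

private theorem UAl_actY (g : Matrix (α ⊕ β) (α ⊕ β) ℂ) (x : Ix α β μ → ℂ) :
    UAl_Y (act g x) = g.toBlocks₂₁ * UAl_X x + g.toBlocks₂₂ * UAl_Y x := by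
  ext j k
  show conj (conj (∑ q, g (Sum.inr j) q * sw x (q, k))) = _
  rw [Complex.conj_conj, Fintype.sum_sum_type, Matrix.add_apply, Matrix.mul_apply,
    Matrix.mul_apply]
  rfl

private theorem UAl_UwX (w : α × β → ℂ) (x : Ix α β μ → ℂ) :
    UAl_X (Uw w x) = UAl_X x - mt w * UAl_Y x := by
  ext i k
  rw [Matrix.sub_apply, Matrix.mul_apply]
  rfl

private theorem UAl_UwY (w : α × β → ℂ) (x : Ix α β μ → ℂ) :
    UAl_Y (Uw w x) = UAl_Y x - (mt w)ᴴ * UAl_X x := by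
  ext j k
  rw [Matrix.sub_apply, Matrix.mul_apply]
  show conj (x (Sum.inr j, k) - ∑ i, w (i, j) * conj (x (Sum.inl i, k))) = _
  rw [map_sub, map_sum]
  congr 1
  refine Finset.sum_congr rfl fun i _ => ?_
  rw [map_mul, Complex.conj_conj]
  rfl

variable [DecidableEq β]

private theorem UAl_CmX (g : Matrix (α ⊕ β) (α ⊕ β) ℂ) (w : α × β → ℂ) (U : Ix α β μ → ℂ) :
    UAl_X (Cm g w U) = ca g w * UAl_X U := by
  ext i k
  rw [Matrix.mul_apply]
  rfl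

private theorem UAl_CmY (g : Matrix (α ⊕ β) (α ⊕ β) ℂ) (w : α × β → ℂ) (U : Ix α β μ → ℂ) :
    UAl_Y (Cm g w U) = ((cd g w)⁻¹)ᴴ * UAl_Y U := by
  ext j k
  rw [Matrix.mul_apply]
  show conj (∑ j', ((cd g w)⁻¹) j' j * U (Sum.inr j', k)) = _
  rw [map_sum]
  refine Finset.sum_congr rfl fun j' _ => ?_
  rw [map_mul]
  rfl

variable [Fintype μ]

omit [DecidableEq β] in
private theorem UAl_H (x y : Ix α β μ → ℂ) : ∑ p, x p * conj (y p) =
    ((UAl_X y)ᴴ * UAl_X x).trace + ((UAl_Y x)ᴴ * UAl_Y y).trace := by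
  rw [Fintype.sum_prod_type, Fintype.sum_sum_type]
  congr 1
  · rw [Finset.sum_comm]
    refine Finset.sum_congr rfl fun k _ => ?_
    rw [Matrix.diag_apply, Matrix.mul_apply]
    refine Finset.sum_congr rfl fun i _ => ?_
    rw [mul_comm]
    rfl
  · rw [Finset.sum_comm]
    refine Finset.sum_congr rfl fun k _ => ?_
    rw [Matrix.diag_apply, Matrix.mul_apply]
    refine Finset.sum_congr rfl fun j _ => ?_
    show _ = star (conj (x (Sum.inr j, k))) * conj (y (Sum.inr j, k))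
    congr 1
    exact (Complex.conj_conj _).symm

omit [DecidableEq β] in
private theorem UAl_qf (M : Matrix α β ℂ) (h z : Ix α β μ → ℂ) :
    qf M h z = ((UAl_Y z)ᴴ * (Mᵀ * UAl_X h)).trace := by
  unfold qf
  have h1 : ((UAl_Y z)ᴴ * (Mᵀ * UAl_X h)).trace =
      ∑ k, ∑ j, ∑ i, M i j * h (Sum.inl i, k) * z (Sum.inr j, k) := by
    refine Finset.sum_congr rfl fun k _ => ?_
    rw [Matrix.diag_apply, Matrix.mul_apply]
    refine Finset.sum_congr rfl fun j _ => ?_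
    rw [Matrix.mul_apply, Finset.mul_sum]
    refine Finset.sum_congr rfl fun i _ => ?_
    show star (conj (z (Sum.inr j, k))) * (M i j * h (Sum.inl i, k)) = _
    have h2 : star (conj (z (Sum.inr j, k))) = z (Sum.inr j, k) := Complex.conj_conj _
    rw [h2]
    ring
  rw [h1]
  have h3 : ∀ i, ∑ j, ∑ k, M i j * h (Sum.inl i, k) * z (Sum.inr j, k) =
      ∑ k, ∑ j, M i j * h (Sum.inl i, k) * z (Sum.inr j, k) := fun i => Finset.sum_comm
  rw [Finset.sum_congr rfl fun i _ => h3 i, Finset.sum_comm]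
  exact Finset.sum_congr rfl fun k _ => Finset.sum_comm

omit [DecidableEq β] in
private theorem UAl_qs (M : Matrix α β ℂ) (x : Ix α β μ → ℂ) :
    qf M (star x) (star x) = ((UAl_X x)ᴴ * (M * UAl_Y x)).trace := by
  unfold qf
  have h1 : ((UAl_X x)ᴴ * (M * UAl_Y x)).trace =
      ∑ k, ∑ i, ∑ j, M i j * star x (Sum.inl i, k) * star x (Sum.inr j, k) := by
    refine Finset.sum_congr rfl fun k _ => ?_
    rw [Matrix.diag_apply, Matrix.mul_apply]
    refine Finset.sum_congr rfl fun i _ => ?_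
    rw [Matrix.mul_apply, Finset.mul_sum]
    refine Finset.sum_congr rfl fun j _ => ?_
    show star (x (Sum.inl i, k)) * (M i j * star (x (Sum.inr j, k))) =
      M i j * star (x (Sum.inl i, k)) * star (x (Sum.inr j, k))
    ring
  rw [h1]
  have h3 : ∀ i, ∑ j, ∑ k, M i j * star x (Sum.inl i, k) * star x (Sum.inr j, k) =
      ∑ k, ∑ j, M i j * star x (Sum.inl i, k) * star x (Sum.inr j, k) := fun i =>
    Finset.sum_comm
  rw [Finset.sum_congr rfl fun i _ => h3 i, Finset.sum_comm]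

end crd

/-! ### traces -/

section trc

variable {α β μ : Type} [Fintype α] [Fintype β] [Fintype μ] [DecidableEq α] [DecidableEq β]
  {a : Matrix α α ℂ} {b : Matrix α β ℂ} {c : Matrix β α ℂ} {d : Matrix β β ℂ}
  {W W' : Matrix α β ℂ} {D : Matrix β β ℂ} {A : Matrix α α ℂ}
  (X : Matrix α μ ℂ) (Y : Matrix β μ ℂ)

private theorem UAl_F (R : UAl_R a b c d) (hD : D = c * W + d) (hW : W' * D = a * W + b)
    (hA : A = a - W' * c) (hu : D * D⁻¹ = 1) (hu' : D⁻¹ * D = 1) :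
    ((a * X + b * Y)ᴴ * (a * X + b * Y)).trace + ((c * X + d * Y)ᴴ * (c * X + d * Y)).trace -
      2 * ((a * X + b * Y)ᴴ * (W' * (c * X + d * Y))).trace =
    (Xᴴ * X).trace + (Yᴴ * Y).trace - 2 * (Xᴴ * (W * Y)).trace +
      2 * ((Y - Wᴴ * X)ᴴ * (bᴴ * A * (X - W * Y))).trace := by
  have e1 := UAl_E1 X Y hD hW hA
  have e2 := UAl_E2 X Y R hD hW hu
  have e3 := UAl_E3 X Y R hD hW hA
  have e4 := UAl_E4 X Y R hD hW hA hu'
  have f1 : ∀ (W : Matrix α β ℂ) (X : Matrix α μ ℂ) (Y : Matrix β μ ℂ),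
      (Yᴴ * Y).trace - (Xᴴ * (W * Y)).trace = ((Y - Wᴴ * X)ᴴ * Y).trace := by
    intro W X Y
    rw [conjTranspose_sub, conjTranspose_mul, conjTranspose_conjTranspose, Matrix.sub_mul,
      trace_sub, Matrix.mul_assoc]
  have f2 : ∀ (W : Matrix α β ℂ) (X : Matrix α μ ℂ) (Y : Matrix β μ ℂ),
      (Xᴴ * X).trace - (Xᴴ * (W * Y)).trace = (Xᴴ * (X - W * Y)).trace := by
    intro W X Y
    rw [Matrix.mul_sub, trace_sub]
  have g1 := f1 W' (a * X + b * Y) (c * X + d * Y)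
  have g2 := f2 W' (a * X + b * Y) (c * X + d * Y)
  have g3 := f1 W X Y
  have g4 := f2 W X Y
  have h1 : ((D⁻¹)ᴴ * (Y - Wᴴ * X))ᴴ * (c * X + d * Y) =
      (Y - Wᴴ * X)ᴴ * (bᴴ * A * (X - W * Y)) + (Y - Wᴴ * X)ᴴ * Y := by
    rw [conjTranspose_mul, conjTranspose_conjTranspose, Matrix.mul_assoc, e4, Matrix.mul_add]
  have h2 : (a * X + b * Y)ᴴ * (A * (X - W * Y)) =
      (Y - Wᴴ * X)ᴴ * (bᴴ * A * (X - W * Y)) + Xᴴ * (X - W * Y) := by
    rw [← Matrix.mul_assoc, e3, Matrix.add_mul, Matrix.mul_assoc]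
  rw [e2, h1, trace_add] at g1
  rw [e1, h2, trace_add] at g2
  linear_combination g1 + g2 - g3 - g4

private theorem UAl_G (R : UAl_R a b c d) (hD : D = c * W + d) (hW : W' * D = a * W + b)
    (hA : A = a - W' * c) (hu' : D⁻¹ * D = 1) (X₁ : Matrix α μ ℂ) (Y₁ : Matrix β μ ℂ) :
    ((a * X + b * Y)ᴴ * (A * X₁)).trace + (((D⁻¹)ᴴ * Y₁)ᴴ * (c * X + d * Y)).trace =
      (Xᴴ * X₁).trace + (Y₁ᴴ * Y).trace + ((Y - Wᴴ * X)ᴴ * (bᴴ * A * X₁)).trace +
        (Y₁ᴴ * (bᴴ * A * (X - W * Y))).trace := by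
  have e3 := UAl_E3 X Y R hD hW hA
  have e4 := UAl_E4 X Y R hD hW hA hu'
  rw [conjTranspose_mul, conjTranspose_conjTranspose, Matrix.mul_assoc, e4, Matrix.mul_add,
    trace_add, ← Matrix.mul_assoc _ A, e3, Matrix.add_mul, trace_add, Matrix.mul_assoc]
  ring

end trc

theorem thm_UAl (hU : St_UGr) : St_UAl := by
  intro α β μ _ _ _ _ _ _ g hg w hw
  obtain ⟨ρ, hρ0, hρ1, hρ⟩ := hw
  obtain ⟨-, -, -, -, -, hinv, -⟩ := hU α β μ
  obtain ⟨-, -, -, hdet, hgJ⟩ := hinv g hg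
  have hgb := fromBlocks_toBlocks g
  have R : UAl_R g.toBlocks₁₁ g.toBlocks₁₂ g.toBlocks₂₁ g.toBlocks₂₂ :=
    UAl_rel (by rw [hgb]; exact hg) (by rw [hgb]; exact hgJ)
  obtain ⟨hD0, hdom⟩ := UAl_dom R (mt w) hρ0 hρ1 hρ
  have hD : cd g w = g.toBlocks₂₁ * mt w + g.toBlocks₂₂ := rfl
  have hu : IsUnit (cd g w).det := isUnit_iff_ne_zero.2 hD0
  have hu1 : cd g w * (cd g w)⁻¹ = 1 := Matrix.mul_nonsing_inv _ hu
  have hu2 : (cd g w)⁻¹ * cd g w = 1 := Matrix.nonsing_inv_mul _ hu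
  have hmt : mt (mob g w) = (g.toBlocks₁₁ * mt w + g.toBlocks₁₂) * (cd g w)⁻¹ := rfl
  have hW : mt (mob g w) * cd g w = g.toBlocks₁₁ * mt w + g.toBlocks₁₂ := by
    rw [hmt, Matrix.mul_assoc, hu2, Matrix.mul_one]
  have hA : ca g w = g.toBlocks₁₁ - mt (mob g w) * g.toBlocks₂₁ := rfl
  have hdetA : (ca g w).det * (cd g w).det = g.det := by
    rw [UAl_det hD hW hA, hgb]
  have hM : (Mq g w)ᵀ = g.toBlocks₁₂ᴴ * ca g w := by
    unfold Mq
    rw [Matrix.transpose_mul, Matrix.transpose_transpose]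
    rfl
  obtain ⟨ρ', h0', h1', h2'⟩ := hdom _ hW
  refine ⟨⟨ρ', h0', h1', h2'⟩, hu, ?_, hdetA, fun x => ?_, fun x => ?_, fun h x => ?_,
    fun h hh => ?_⟩
  · rw [isUnit_iff_ne_zero]
    intro h0
    rw [h0, zero_mul] at hdetA
    rw [← hdetA, norm_zero] at hdet
    exact zero_ne_one hdet
  · apply UAl_ext
    · rw [UAl_UwX, UAl_CmX, UAl_UwX, UAl_actX, UAl_actY, UAl_E1 _ _ hD hW hA]
    · rw [UAl_UwY, UAl_CmY, UAl_UwY, UAl_actX, UAl_actY, UAl_E2 _ _ R hD hW hu1]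
  · show ∑ p, act g x p * conj (act g x p) - 2 * _ = ∑ p, x p * conj (x p) - 2 * _ + 2 * _
    rw [UAl_H, UAl_H, UAl_qs, UAl_qs, UAl_qf, hM, UAl_actX, UAl_actY, UAl_UwX, UAl_UwY]
    exact UAl_F _ _ R hD hW hA hu1 hu2
  · rw [UAl_H, UAl_H, UAl_qf, UAl_qf, hM, UAl_CmX, UAl_CmY, UAl_actX, UAl_actY, UAl_UwX,
      UAl_UwY]
    exact UAl_G _ _ R hD hW hA hu2 _ _
  · have hb : h * g = fromBlocks
        (h.toBlocks₁₁ * g.toBlocks₁₁ + h.toBlocks₁₂ * g.toBlocks₂₁)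
        (h.toBlocks₁₁ * g.toBlocks₁₂ + h.toBlocks₁₂ * g.toBlocks₂₂)
        (h.toBlocks₂₁ * g.toBlocks₁₁ + h.toBlocks₂₂ * g.toBlocks₂₁)
        (h.toBlocks₂₁ * g.toBlocks₁₂ + h.toBlocks₂₂ * g.toBlocks₂₂) := by
      rw [← fromBlocks_multiply, fromBlocks_toBlocks, fromBlocks_toBlocks]
    have hrow : ∀ (σ : Type) (p : Matrix σ α ℂ) (q : Matrix σ β ℂ),
        (p * g.toBlocks₁₁ + q * g.toBlocks₂₁) * mt w + (p * g.toBlocks₁₂ + q * g.toBlocks₂₂) =
          (p * mt (mob g w) + q) * cd g w := by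
      intro σ p q
      rw [Matrix.add_mul, Matrix.add_mul, Matrix.mul_assoc p (mt (mob g w)), hW, hD,
        Matrix.mul_add, Matrix.mul_add, Matrix.mul_assoc, Matrix.mul_assoc]
      abel
    have key : ((h * g).toBlocks₁₁ * mt w + (h * g).toBlocks₁₂) *
        ((h * g).toBlocks₂₁ * mt w + (h * g).toBlocks₂₂)⁻¹ =
        (h.toBlocks₁₁ * mt (mob g w) + h.toBlocks₁₂) *
          (h.toBlocks₂₁ * mt (mob g w) + h.toBlocks₂₂)⁻¹ := by
      rw [hb, toBlocks_fromBlocks₁₁, toBlocks_fromBlocks₁₂, toBlocks_fromBlocks₂₁,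
        toBlocks_fromBlocks₂₂, hrow, hrow, Matrix.mul_inv_rev, Matrix.mul_assoc,
        ← Matrix.mul_assoc (cd g w), hu1, Matrix.one_mul]
    funext p
    exact congrFun (congrFun key p.1) p.2

end PST
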