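import Pool.Agent.PST.AVT
import Pool.Agent.PST.AnR
import Pool.Agent.PST.C2g
import Pool.Agent.PST.C3g
import Pool.Agent.PST.C5g
import Pool.Agent.PST.CMF
import Pool.Agent.PST.CML
import Pool.Agent.PST.CMP
import Pool.Agent.PST.ClsR
import Pool.Agent.PST.CocR
import Pool.Agent.PST.CorA
import Pool.Agent.PST.Core
import Pool.Agent.PST.DelE
import Pool.Agent.PST.DelGR
import Pool.Agent.PST.DelPG
import Pool.Agent.PST.DelX
import Pool.Agent.PST.DenS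
import Pool.Agent.PST.Det
import Pool.Agent.PST.DetPt
import Pool.Agent.PST.DetU
import Pool.Agent.PST.DiaN
import Pool.Agent.PST.Ell
import Pool.Agent.PST.EllB
import Pool.Agent.PST.EllH
import Pool.Agent.PST.EllI
import Pool.Agent.PST.EllW
import Pool.Agent.PST.EllZ
import Pool.Agent.PST.EquD
import Pool.Agent.PST.EquP
import Pool.Agent.PST.Equi
import Pool.Agent.PST.ExpD
import Pool.Agent.PST.ExpP
import Pool.Agent.PST.ExpQ
import Pool.Agent.PST.ExpS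
import Pool.Agent.PST.Fin
import Pool.Agent.PST.FinQ
import Pool.Agent.PST.GalC
import Pool.Agent.PST.GamI
import Pool.Agent.PST.Gau
import Pool.Agent.PST.GopE
import Pool.Agent.PST.GopR
import Pool.Agent.PST.GramA
import Pool.Agent.PST.HatA
import Pool.Agent.PST.HatC
import Pool.Agent.PST.HatE
import Pool.Agent.PST.HatN
import Pool.Agent.PST.HolP
import Pool.Agent.PST.HomI
import Pool.Agent.PST.Ind3
import Pool.Agent.PST.LdA
import Pool.Agent.PST.LdB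
import Pool.Agent.PST.LdG
import Pool.Agent.PST.LevE
import Pool.Agent.PST.LinS
import Pool.Agent.PST.LinT
import Pool.Agent.PST.MapE
import Pool.Agent.PST.MinP
import Pool.Agent.PST.MinkR
import Pool.Agent.PST.MobB
import Pool.Agent.PST.NF
import Pool.Agent.PST.NF1
import Pool.Agent.PST.NF2
import Pool.Agent.PST.NF3
import Pool.Agent.PST.NF4
import Pool.Agent.PST.NF5
import Pool.Agent.PST.NonM
import Pool.Agent.PST.OmT
import Pool.Agent.PST.OrdN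
import Pool.Agent.PST.Prin
import Pool.Agent.PST.PsiC
import Pool.Agent.PST.PsiD
import Pool.Agent.PST.PsiE
import Pool.Agent.PST.PsiJ
import Pool.Agent.PST.PsiL
import Pool.Agent.PST.PsiN
import Pool.Agent.PST.PsiT
import Pool.Agent.PST.Pts
import Pool.Agent.PST.QRel
import Pool.Agent.PST.QuC
import Pool.Agent.PST.RAdj
import Pool.Agent.PST.RBas
import Pool.Agent.PST.Rel
import Pool.Agent.PST.SieR
import Pool.Agent.PST.Sup
import Pool.Agent.PST.TrN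
import Pool.Agent.PST.UAl
import Pool.Agent.PST.UGr
import Pool.Agent.PST.UTr

/-!
# PST: assembly of the torus part
-/

set_option autoImplicit false

namespace PST

namespace All

theorem LinT_ : St_LinT := thm_LinT 
theorem LinS_ : St_LinS := thm_LinS LinT_
theorem ExpQ_ : St_ExpQ := thm_ExpQ 
theorem AVT_ : St_AVT := thm_AVT LinS_ ExpQ_
theorem AnR_ : St_AnR := thm_AnR 
theorem C2g_ : St_C2g := thm_C2g 
theorem C3g_ : St_C3g := thm_C3g 
theorem C5g_ : St_C5g := thm_C5g 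
theorem RBas_ : St_RBas := thm_RBas 
theorem CMF_ : St_CMF := thm_CMF RBas_
theorem OrdN_ : St_OrdN := thm_OrdN 
theorem CorA_ : St_CorA := thm_CorA 
theorem CML_ : St_CML := thm_CML OrdN_ CorA_
theorem GramA_ : St_GramA := thm_GramA 
theorem RAdj_ : St_RAdj := thm_RAdj RBas_ GramA_
theorem DenS_ : St_DenS := thm_DenS RBas_ RAdj_
theorem DiaN_ : St_DiaN := thm_DiaN 
theorem CMP_ : St_CMP := thm_CMP DenS_ DiaN_ RAdj_
theorem ClsR_ : St_ClsR := thm_ClsR RBas_ RAdj_ OrdN_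
theorem UGr_ : St_UGr := thm_UGr 
theorem UAl_ : St_UAl := thm_UAl UGr_
theorem UTr_ : St_UTr := thm_UTr 
theorem DetU_ : St_DetU := thm_DetU 
theorem MinkR_ : St_MinkR := thm_MinkR 
theorem MobB_ : St_MobB := thm_MobB 
theorem CocR_ : St_CocR := thm_CocR UGr_ UAl_ UTr_ CorA_ RBas_ RAdj_ OrdN_ DetU_ MinkR_ ClsR_ MobB_
theorem MapE_ : St_MapE := thm_MapE UGr_
theorem OmT_ : St_OmT := thm_OmT 
theorem PsiC_ : St_PsiC := thm_PsiC 
theorem HolP_ : St_HolP := thm_HolP 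
theorem Gau_ : St_Gau := thm_Gau 
theorem PsiE_ : St_PsiE := thm_PsiE HolP_ Gau_
theorem PsiL_ : St_PsiL := thm_PsiL 
theorem PsiT_ : St_PsiT := thm_PsiT UGr_ UAl_ OmT_ PsiC_ PsiE_ PsiL_
theorem PsiN_ : St_PsiN := thm_PsiN Gau_
theorem EquP_ : St_EquP := thm_EquP UGr_ UAl_ UTr_ MapE_ PsiT_ PsiN_
theorem EllI_ : St_EllI := thm_EllI 
theorem PsiD_ : St_PsiD := thm_PsiD HolP_ Gau_ EllI_ PsiC_
theorem EquD_ : St_EquD := thm_EquD UAl_ OmT_ PsiC_ PsiE_ PsiD_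
theorem Equi_ : St_Equi := thm_Equi UAl_ EquP_ EquD_
theorem GamI_ : St_GamI := thm_GamI UGr_ UAl_ Equi_ PsiL_
theorem PsiJ_ : St_PsiJ := thm_PsiJ OmT_ Gau_
theorem EllB_ : St_EllB := thm_EllB Gau_ EllI_
theorem EllZ_ : St_EllZ := thm_EllZ Gau_ EllI_ EllB_
theorem DetPt_ : St_DetPt := thm_DetPt 
theorem NonM_ : St_NonM := thm_NonM Equi_ UTr_ UAl_ MapE_ EllZ_ DetPt_
theorem Sup_ : St_Sup := thm_Sup PsiJ_ PsiL_ PsiN_ NonM_ OmT_
theorem EllH_ : St_EllH := thm_EllH OmT_ HolP_ Gau_ EllI_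
theorem Ell_ : St_Ell := thm_Ell EllH_ EllB_ EllZ_ EllI_ Gau_
theorem SieR_ : St_SieR := thm_SieR GamI_ Sup_ Ell_ OmT_ UGr_ UAl_
theorem MinP_ : St_MinP := thm_MinP 
theorem HomI_ : St_HomI := thm_HomI 
theorem Rel_ : St_Rel := thm_Rel SieR_ MinP_ HomI_ Ell_ OmT_ EllZ_
theorem Ind3_ : St_Ind3 := thm_Ind3 
theorem Pts_ : St_Pts := thm_Pts DetPt_ Ind3_ EllZ_
theorem EllW_ : St_EllW := thm_EllW Ell_ OmT_
theorem DelE_ : St_DelE := thm_DelE Ell_ EllW_ OmT_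
theorem HatE_ : St_HatE := thm_HatE Ell_
theorem DelGR_ : St_DelGR := thm_DelGR 
theorem DelX_ : St_DelX := thm_DelX Ell_ OmT_ DelE_ HatE_ DelGR_
theorem DelPG_ : St_DelPG := thm_DelPG DelGR_
theorem Core_ : St_Core := thm_Core Rel_ Pts_ DelX_ DelPG_ DelGR_ Equi_ UGr_ UAl_ UTr_ Ell_ OmT_ EllZ_
theorem NF1_ : St_NF1 := thm_NF1 
theorem NF2_ : St_NF2 := thm_NF2 NF1_
theorem NF3_ : St_NF3 := thm_NF3 
theorem NF4_ : St_NF4 := thm_NF4 
theorem NF5_ : St_NF5 := thm_NF5 CorA_ GramA_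
theorem NF_ : St_NF := thm_NF AnR_ NF2_ NF3_ NF4_ NF5_
theorem Prin_ : St_Prin := thm_Prin RBas_ CorA_
theorem LdB_ : St_LdB := thm_LdB 
theorem LdA_ : St_LdA := thm_LdA LinS_ LdB_
theorem GopE_ : St_GopE := thm_GopE C2g_ C3g_ C5g_
theorem LdG_ : St_LdG := thm_LdG 
theorem QuC_ : St_QuC := thm_QuC LdG_
theorem HatA_ : St_HatA := thm_HatA LdA_ GopE_ QuC_ AVT_
theorem QRel_ : St_QRel := thm_QRel 
theorem HatC_ : St_HatC := thm_HatC 
theorem HatN_ : St_HatN := thm_HatN HatA_ QRel_ HatC_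
theorem LevE_ : St_LevE := thm_LevE OrdN_ CorA_
theorem GopR_ : St_GopR := thm_GopR LdG_
theorem ExpD_ : St_ExpD := thm_ExpD GopR_
theorem ExpS_ : St_ExpS := thm_ExpS 
theorem ExpP_ : St_ExpP := thm_ExpP CML_ CMF_ LevE_ ExpD_ ExpS_ OrdN_ CorA_
theorem GalC_ : St_GalC := thm_GalC 
theorem FinQ_ : St_FinQ := thm_FinQ GalC_
theorem Fin_ : St_Fin := thm_Fin Core_ Prin_ HatN_ CMP_ MapE_ ExpP_ CocR_ FinQ_ UGr_ CorA_
theorem TrN_ : St_TrN := thm_TrN CorA_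
theorem Det_ : Pool.Agent.GPC.St_Det := thm_Det NF_ Fin_ TrN_

end All

end PST
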