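import Pool.Agent.PST.StH
import Pool.Agent.GAM.ExpT
import Pool.Agent.GAM.GenY
import Pool.Agent.GAM.Imm
import Pool.Agent.GAM.Ind1
import Pool.Agent.GAM.OddD
import Pool.Agent.GAM.DelR
import Pool.Agent.GAM.Hol

/-!
# PST / ExpS: exponents from theta functions of a power of a CM torus
-/

set_option autoImplicit false
set_option linter.unusedSectionVars false

namespace PST

open scoped ComplexConjugate
open GAM (H E F pd pdl PLat IsTh OddTor IsDel Gro IsLat Pre QD qd jac HasExp)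

section exps

variable {ι S : Type} [Fintype ι] [DecidableEq ι] [Fintype S] [DecidableEq S]

/-- The matrix of the map `v ↦ (r_p v_(j p))_p`. -/
noncomputable def ExpS_T (j : ι → S) (r : ι → ℂ) : Matrix ι S ℂ :=
  Matrix.of fun p s => if j p = s then r p else 0

theorem ExpS_mulVec (j : ι → S) (r : ι → ℂ) (v : S → ℂ) :
    (ExpS_T j r).mulVec v = fun p => r p * v (j p) := by
  funext p
  simp only [Matrix.mulVec, dotProduct, ExpS_T, Matrix.of_apply]
  rw [Finset.sum_eq_single (j p)]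
  · rw [if_pos rfl]
  · intro s _ hs
    rw [if_neg (Ne.symm hs), zero_mul]
  · intro h
    exact absurd (Finset.mem_univ _) h

theorem ExpS_alg (j : ι → S) (r : ι → ℂ) (hr : ∀ p, IsAlgebraic ℚ (r p)) (p : ι) (s : S) :
    IsAlgebraic ℚ (ExpS_T j r p s) := by
  unfold ExpS_T
  rw [Matrix.of_apply]
  split_ifs
  · exact hr p
  · exact isAlgebraic_zero

/-- The map as a continuous linear map. -/
noncomputable def ExpS_L (j : ι → S) (r : ι → ℂ) : (S → ℂ) →L[ℂ] (ι → ℂ) :=
  LinearMap.toContinuousLinearMap (Matrix.mulVecLin (ExpS_T j r))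

theorem ExpS_L_apply (j : ι → S) (r : ι → ℂ) (v : S → ℂ) :
    ExpS_L j r v = (ExpS_T j r).mulVec v := rfl

/-- chain rule -/
theorem ExpS_pd (j : ι → S) (r : ι → ℂ) (f : (ι → ℂ) → ℂ) (v : S → ℂ)
    (hf : DifferentiableAt ℂ f ((ExpS_T j r).mulVec v)) (s : S) :
    pd s (fun z => f ((ExpS_T j r).mulVec z)) v =
      ∑ p, pd p f ((ExpS_T j r).mulVec v) * ExpS_T j r p s := by
  have h1 : HasFDerivAt (fun z => f ((ExpS_T j r).mulVec z))
      ((fderiv ℂ f ((ExpS_T j r).mulVec v)).comp (ExpS_L j r)) v :=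
    HasFDerivAt.comp v (g := f) (f := fun z => (ExpS_T j r).mulVec z) hf.hasFDerivAt
      (ExpS_L j r).hasFDerivAt
  have h2 : (ExpS_T j r).mulVec (Pi.single s 1) =
      ∑ p, ExpS_T j r p s • (Pi.single p (1 : ℂ) : ι → ℂ) := by
    rw [Matrix.mulVec_single_one]
    exact pi_eq_sum_univ' _
  unfold pd
  rw [h1.fderiv, ContinuousLinearMap.comp_apply, ExpS_L_apply, h2, map_sum]
  refine Finset.sum_congr rfl fun p _ => ?_
  rw [map_smul, smul_eq_mul, mul_comm]

/-- Euler operators -/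
theorem ExpS_eul (j : ι → S) (r : ι → ℂ) (A : S → ℂ) (f : (ι → ℂ) → ℂ)
    (hf : Differentiable ℂ f) (v : S → ℂ) :
    GAM.eul A (fun z => f ((ExpS_T j r).mulVec z)) v =
      GAM.eul (fun p => A (j p)) f ((ExpS_T j r).mulVec v) := by
  unfold GAM.eul
  have h1 : ∀ s : S, A s * v s * pd s (fun z => f ((ExpS_T j r).mulVec z)) v =
      ∑ p, if j p = s then A (j p) * (r p * v (j p)) * pd p f ((ExpS_T j r).mulVec v)
        else 0 := by
    intro s
    rw [ExpS_pd j r f v (hf _) s, Finset.mul_sum]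
    refine Finset.sum_congr rfl fun p _ => ?_
    simp only [ExpS_T, Matrix.of_apply]
    by_cases h : j p = s
    · subst h
      rw [if_pos rfl, if_pos rfl]
      ring
    · rw [if_neg h, if_neg h]
      ring
  rw [Finset.sum_congr rfl fun s _ => h1 s, Finset.sum_comm]
  refine Finset.sum_congr rfl fun p _ => ?_
  rw [Finset.sum_ite_eq Finset.univ (j p), if_pos (Finset.mem_univ _), ExpS_mulVec]

/-- the numerators and denominators -/
theorem ExpS_del {δ : Derivation ℚ ℂ ℂ} (hR : GAM.DelRules ι δ) (A : S → ℂ) (k : ℂ)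
    (j : ι → S) (r : ι → ℂ) (f : (ι → ℂ) → ℂ)
    (hf : IsDel δ f (fun v => k * f v + GAM.eul (fun p => A (j p)) f v)) (n : ℕ)
    (hr : ∀ p, IsAlgebraic ℚ (r p)) :
    IsDel δ (fun v : S → ℂ => f ((ExpS_T j r).mulVec v) ^ n)
      (fun v => (n : ℂ) * k * f ((ExpS_T j r).mulVec v) ^ n +
        GAM.eul A (fun v : S → ℂ => f ((ExpS_T j r).mulVec v) ^ n) v) := by
  have h1 := hR.lin S (ExpS_T j r) _ _ (ExpS_alg j r hr) (GAM.ExpT_pow hR _ k f hf n)
  have h2 : (fun v : S → ℂ => (n : ℂ) * k * f ((ExpS_T j r).mulVec v) ^ n +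
      GAM.eul A (fun v : S → ℂ => f ((ExpS_T j r).mulVec v) ^ n) v) =
      fun v => (n : ℂ) * k * f ((ExpS_T j r).mulVec v) ^ n +
        GAM.eul (fun p => A (j p)) (fun v => f v ^ n) ((ExpS_T j r).mulVec v) := by
    funext v
    rw [← ExpS_eul j r A (fun v => f v ^ n) (hf.ent.pow n) v]
  rw [h2]
  exact h1

/-- the point of the lattice -/
theorem ExpS_lat {K : Type} [Field K] [NumberField K] (φ : S → K →+* ℂ) (M : ℕ)
    (L : Submodule ℤ (ι → ℂ)) (j : ι → S) (r : ι → ℂ)
    (h : ∀ x : NumberField.RingOfIntegers K,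
      (fun p => r p * φ (j p) ((M : K) * (x : K))) ∈ L) (l : S → ℂ)
    (hl : l ∈ GAM.latK K φ M) : (ExpS_T j r).mulVec l ∈ L := by
  unfold GAM.latK at hl
  induction hl using Submodule.span_induction with
  | mem x hx =>
    obtain ⟨y, rfl⟩ := hx
    rw [ExpS_mulVec]
    exact h y
  | zero => rw [Matrix.mulVec_zero]; exact L.zero_mem
  | add x y _ _ hx hy => rw [Matrix.mulVec_add]; exact L.add_mem hx hy
  | smul n x _ hx =>
    have h1 : (ExpS_T j r).mulVec (n • x) = n • (ExpS_T j r).mulVec x := by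
      rw [← ExpS_L_apply, ← ExpS_L_apply, map_zsmul]
    rw [h1]
    exact L.smul_mem n hx

theorem ExpS_fac {K : Type} [Field K] [NumberField K] (φ : S → K →+* ℂ) (M : ℕ)
    {L : Submodule ℤ (ι → ℂ)} {χ : (ι → ℂ) → ℂ} (hP : PLat L χ) (j : ι → S) (r : ι → ℂ)
    (h : ∀ x : NumberField.RingOfIntegers K,
      (fun p => r p * φ (j p) ((M : K) * (x : K))) ∈ L) (n : ℕ) :
    GAM.Fac (GAM.latK K φ M) (fun l v => χ ((ExpS_T j r).mulVec l) ^ n *
      Complex.exp ((n : ℂ) * (Real.pi * H ((ExpS_T j r).mulVec v) ((ExpS_T j r).mulVec l) +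
        Real.pi / 2 * H ((ExpS_T j r).mulVec l) ((ExpS_T j r).mulVec l))))
      (fun v => n * (Real.pi / 2 *
        (H ((ExpS_T j r).mulVec v) ((ExpS_T j r).mulVec v)).re)) where
  cont := by
    have h1 : Continuous fun v : S → ℂ => (ExpS_T j r).mulVec v := (ExpS_L j r).continuous
    have h2 : Continuous fun u : ι → ℂ => H u u := by
      unfold GAM.H
      fun_prop
    exact continuous_const.mul (continuous_const.mul
      (Complex.continuous_re.comp (h2.comp h1)))
  hol := by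
    intro l _
    have h1 : Differentiable ℂ fun v : S → ℂ => (ExpS_T j r).mulVec v :=
      (ExpS_L j r).differentiable
    have h2 : Differentiable ℂ fun v : S → ℂ =>
        H ((ExpS_T j r).mulVec v) ((ExpS_T j r).mulVec l) := by
      have h3 : Differentiable ℂ fun u : ι → ℂ => H u ((ExpS_T j r).mulVec l) := by
        unfold GAM.H
        fun_prop
      exact h3.comp h1
    fun_prop
  norm := by
    intro l hl v
    have h1 := ExpS_lat φ M L j r h l hl
    rw [norm_mul, norm_pow, hP.chi_norm h1, one_pow, one_mul, Complex.norm_exp, GAM.ExpT_re,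
      Matrix.mulVec_add]

/-- the matrix of an injective map is injective on vectors -/
theorem ExpS_inj (j : ι → S) (r : ι → ℂ) (hr : ∀ s, ∃ p, j p = s ∧ r p ≠ 0) (v : S → ℂ)
    (hv : (ExpS_T j r).mulVec v = 0) : v = 0 := by
  funext s
  obtain ⟨p, hp, hrp⟩ := hr s
  have h1 := congrFun hv p
  rw [ExpS_mulVec] at h1
  simp only [Pi.zero_apply] at h1
  rw [hp] at h1
  exact (mul_eq_zero.1 h1).resolve_left hrp

/-- choice of rows of a matrix which is injective on vectors -/
theorem ExpS_rows (N : Matrix ι S ℂ) (hN : ∀ v : S → ℂ, N.mulVec v = 0 → v = 0) :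
    ∃ i : S → ι, (Matrix.of fun a b : S => N (i a) b).det ≠ 0 := by
  have h0 : Function.Injective N.mulVec := by
    intro v w hvw
    have h : N.mulVec (v - w) = 0 := by
      rw [Matrix.mulVec_sub, hvw, sub_self]
    exact sub_eq_zero.1 (hN _ h)
  have h2 : LinearIndependent ℂ N.transpose.row := Matrix.mulVec_injective_iff.1 h0
  have h3 : N.rank = Fintype.card S := by
    rw [← Matrix.rank_transpose]
    exact h2.rank_matrix
  have h4 : Module.finrank ℂ (Submodule.span ℂ (Set.range N.row)) = Fintype.card S := by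
    rw [← Matrix.rank_eq_finrank_span_row, h3]
  obtain ⟨f, hf, -, hfl⟩ := Submodule.exists_fun_fin_finrank_span_eq ℂ (Set.range N.row)
  let e : S ≃ Fin (Module.finrank ℂ (Submodule.span ℂ (Set.range N.row))) :=
    Fintype.equivOfCardEq (by rw [Fintype.card_fin, h4])
  choose g hg using hf
  refine ⟨fun a => g (e a), ?_⟩
  have h5 : LinearIndependent ℂ (Matrix.of fun a b : S => N (g (e a)) b).row := by
    have h6 : (Matrix.of fun a b : S => N (g (e a)) b).row = f ∘ e := by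
      funext a
      exact hg (e a)
    rw [h6]
    exact hfl.comp e e.injective
  rw [Matrix.linearIndependent_rows_iff_isUnit, Matrix.isUnit_iff_isUnit_det] at h5
  exact h5.ne_zero

/-- the Jacobian matrix of the compositions -/
theorem ExpS_jac (j : ι → S) (r : ι → ℂ) {a b : ι → (ι → ℂ) → ℂ} (v₀ : S → ℂ)
    (ha : ∀ i, Differentiable ℂ (a i)) (hb : ∀ i, Differentiable ℂ (b i))
    (hb0 : ∀ i, b i ((ExpS_T j r).mulVec v₀) ≠ 0) (i : S → ι) :
    jac (fun s v => a (i s) ((ExpS_T j r).mulVec v))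
        (fun s v => b (i s) ((ExpS_T j r).mulVec v)) v₀ =
      Matrix.of fun s t : S =>
        (jac a b ((ExpS_T j r).mulVec v₀) * ExpS_T j r) (i s) t := by
  ext s t
  rw [Matrix.of_apply, Matrix.mul_apply]
  simp only [jac, Matrix.of_apply]
  have hd : DifferentiableAt ℂ (fun z => a (i s) z / b (i s) z) ((ExpS_T j r).mulVec v₀) := by
    have e5 : DifferentiableAt ℂ (fun z => (b (i s) z)⁻¹) ((ExpS_T j r).mulVec v₀) :=
      DifferentiableAt.fun_inv (hb (i s) _) (hb0 (i s))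
    have e4 : DifferentiableAt ℂ (fun z => a (i s) z * (b (i s) z)⁻¹)
      ((ExpS_T j r).mulVec v₀) := (ha (i s) _).mul e5
    simp only [div_eq_mul_inv]
    exact e4
  exact ExpS_pd j r (fun z => a (i s) z / b (i s) z) v₀ hd t

end exps

theorem thm_ExpS : St_ExpS := by
  intro K _ _ c S ι _ _ _ _ φ δ L χ θ A k j r M _ _ hP hT hne hE hralg hr hM hlat
  have h4 : GAM.St_DelR := GAM.thm_DelR GAM.thm_Hol
  have h2 : GAM.St_Imm := GAM.thm_Imm (GAM.thm_Ind1 GAM.thm_OddD) GAM.thm_OddD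
  have h1 : GAM.St_GenY := GAM.thm_GenY GAM.thm_OddD
  refine ⟨M, hM, ?_⟩
  intro P v₀
  classical
  obtain ⟨y, hy, hyP⟩ := h1 ι L χ θ hP hT hne
    (insert ((ExpS_T j r).mulVec v₀) (P.image fun p => (ExpS_T j r).mulVec p))
  have hy0 : F θ y ((ExpS_T j r).mulVec v₀) ≠ 0 := hyP _ (Finset.mem_insert_self _ _)
  obtain ⟨n, cc, hn, hny, hnc, hdet⟩ := h2 ι L χ θ hP hT hne y ((ExpS_T j r).mulVec v₀) hy hy0
  have hinj : ∀ v : S → ℂ, (jac (fun i z => F θ (cc i) z ^ n) (fun _ z => F θ y z ^ n)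
      ((ExpS_T j r).mulVec v₀) * ExpS_T j r).mulVec v = 0 → v = 0 := by
    intro v hv
    rw [← Matrix.mulVec_mulVec] at hv
    exact ExpS_inj j r hr v (Matrix.eq_zero_of_mulVec_eq_zero hdet hv)
  obtain ⟨i, hi⟩ := ExpS_rows _ hinj
  have hcodd : ∀ i, OddTor L (cc i) := fun i => ⟨n, hn, hnc i⟩
  have hR : GAM.DelRules ι δ := h4 ι δ
  refine ⟨fun s v => F θ (cc (i s)) ((ExpS_T j r).mulVec v) ^ n,
    fun _ v => F θ y ((ExpS_T j r).mulVec v) ^ n, (n : ℂ) * k, ?_, ?_, ?_, ?_⟩
  · intro s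
    refine ⟨ExpS_del hR A k j r _ (hE _ (hcodd (i s))) n hralg,
      ExpS_del hR A k j r _ (hE _ hy) n hralg, ⟨v₀, pow_ne_zero _ hy0⟩,
      ⟨_, _, ExpS_fac φ M hP j r hlat n, ?_, ?_⟩⟩
    · intro l hl v
      simp only
      rw [Matrix.mulVec_add]
      exact GAM.ExpT_quasi hP hT _ n (hnc (i s)) _ (ExpS_lat φ M L j r hlat l hl) _
    · intro l hl v
      simp only
      rw [Matrix.mulVec_add]
      exact GAM.ExpT_quasi hP hT _ n hny _ (ExpS_lat φ M L j r hlat l hl) _
  · intro _ p hp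
    exact pow_ne_zero _ (hyP _ (Finset.mem_insert_of_mem (Finset.mem_image_of_mem _ hp)))
  · intro _
    exact pow_ne_zero _ hy0
  · rw [ExpS_jac j r (a := fun i z => F θ (cc i) z ^ n) (b := fun _ z => F θ y z ^ n) v₀
      (fun i => (GAM.F_differentiable hT (cc i)).pow n)
      (fun _ => (GAM.F_differentiable hT y).pow n) (fun _ => pow_ne_zero _ hy0) i]
    exact hi

end PST
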