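import Pool.Agent.PST.StH
import Pool.Agent.GAM.AVDel
import Pool.Agent.GAM.DelR
import Pool.Agent.GAM.Hol
import Pool.Agent.Helper7.Periods

/-!
# PST [AVT]: an even theta function of an abelian variety with algebraic Taylor coefficients
-/

set_option autoImplicit false

namespace PST

open scoped ComplexConjugate
open GAM (IsDel pd)
open Pool.Agent.GPC (AbVar hermForm bilForm)

section lin

variable {ι : Type} [Fintype ι]

private lemma AVT_quad (M : Matrix ι ι ℂ) (v : ι → ℂ) :
    ∑ a, ∑ b, M a b * v a * v b = v ⬝ᵥ M.mulVec v := by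
  unfold dotProduct Matrix.mulVec dotProduct
  refine Finset.sum_congr rfl fun a _ => ?_
  rw [Finset.mul_sum]
  exact Finset.sum_congr rfl fun b _ => by ring

private lemma AVT_map_mul {α β γ : Type} [Fintype β] (δ : Derivation ℚ ℂ ℂ)
    (A : Matrix α β ℂ) (B : Matrix β γ ℂ) :
    (A * B).map δ = A.map δ * B + A * B.map δ := by
  ext a b
  rw [Matrix.map_apply, Matrix.mul_apply, map_sum, Matrix.add_apply, Matrix.mul_apply,
    Matrix.mul_apply, ← Finset.sum_add_distrib]
  refine Finset.sum_congr rfl fun c _ => ?_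
  rw [Derivation.leibniz, Matrix.map_apply, Matrix.map_apply, smul_eq_mul, smul_eq_mul]
  ring

private lemma AVT_pd_exp [DecidableEq ι] (Q : Matrix ι ι ℂ) (hQ : Q.transpose = Q) (a : ι) (v : ι → ℂ) :
    pd a (fun v : ι → ℂ => Complex.exp (∑ a, ∑ b, Q a b * v a * v b)) v =
      2 * Q.mulVec v a * Complex.exp (∑ a, ∑ b, Q a b * v a * v b) := by
  have h1 : HasFDerivAt (fun v : ι → ℂ => ∑ a, ∑ b, Q a b * v a * v b)
      (∑ a, ∑ b, ((Q a b * v a) • ContinuousLinearMap.proj (R := ℂ) (φ := fun _ : ι => ℂ) b +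
        v b • (Q a b • ContinuousLinearMap.proj (R := ℂ) (φ := fun _ : ι => ℂ) a))) v := by
    refine HasFDerivAt.fun_sum fun a _ => HasFDerivAt.fun_sum fun b _ => ?_
    have e1 : HasFDerivAt (fun v : ι → ℂ => v a)
        (ContinuousLinearMap.proj (R := ℂ) (φ := fun _ : ι => ℂ) a) v :=
      (ContinuousLinearMap.proj (R := ℂ) (φ := fun _ : ι => ℂ) a).hasFDerivAt
    have e2 : HasFDerivAt (fun v : ι → ℂ => v b)
        (ContinuousLinearMap.proj (R := ℂ) (φ := fun _ : ι => ℂ) b) v :=
      (ContinuousLinearMap.proj (R := ℂ) (φ := fun _ : ι => ℂ) b).hasFDerivAt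
    exact (e1.const_mul (Q a b)).mul e2
  unfold pd
  rw [h1.cexp.fderiv]
  have e3 : (∑ a, ∑ b, ((Q a b * v a) • ContinuousLinearMap.proj (R := ℂ)
      (φ := fun _ : ι => ℂ) b + v b • (Q a b • ContinuousLinearMap.proj (R := ℂ)
        (φ := fun _ : ι => ℂ) a)) : (ι → ℂ) →L[ℂ] ℂ) (Pi.single a 1) = 2 * Q.mulVec v a := by
    have e4 : ∀ x y : ι, (Pi.single a (1 : ℂ) : ι → ℂ) y = if y = a then 1 else 0 := by
      intro _ y
      rw [Pi.single_apply]
    simp only [sum_apply, add_apply, smul_apply, ContinuousLinearMap.proj_apply, smul_eq_mul,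
      Pi.single_apply, mul_ite, mul_one, mul_zero, Finset.sum_add_distrib, Finset.sum_ite_eq',
      Finset.mem_univ, if_true]
    have e5 : ∑ x, ∑ y, (if x = a then v y * Q x y else 0) = Q.mulVec v a := by
      rw [Finset.sum_eq_single a]
      · unfold Matrix.mulVec dotProduct
        exact Finset.sum_congr rfl fun y _ => by rw [if_pos rfl]; ring
      · intro b _ hb
        exact Finset.sum_eq_zero fun y _ => by rw [if_neg hb]
      · intro h
        exact absurd (Finset.mem_univ _) h
    have e6 : ∑ x, Q x a * v x = Q.mulVec v a := by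
      unfold Matrix.mulVec dotProduct
      refine Finset.sum_congr rfl fun y _ => ?_
      rw [← Matrix.transpose_apply Q a y, hQ]
    rw [e5, e6]
    ring
  rw [smul_apply, e3, smul_eq_mul]
  ring

end lin

private lemma AVT_chi (X : AbVar) (l : Fin X.g → ℂ) (hl : l ∈ X.Λ) : X.χ l * X.χ (-l) = 1 := by
  have h0 : X.χ 0 = 1 := by
    have h1 := X.appellHumbert.add 0 (zero_mem _) 0 (zero_mem _)
    have h2 : hermForm X.H 0 0 = 0 := by simp [hermForm]
    have h3 : X.χ 0 ≠ 0 := by
      intro h
      have := X.appellHumbert.norm 0 (zero_mem _)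
      rw [h, norm_zero] at this
      exact zero_ne_one this
    rw [add_zero, h2, Complex.zero_im, Complex.ofReal_zero, mul_zero, Complex.exp_zero,
      mul_one] at h1
    exact (mul_right_cancel₀ h3 (by rw [one_mul]; exact h1)).symm
  have h1 := X.appellHumbert.add l hl (-l) (neg_mem hl)
  have h2 : hermForm X.H l (-l) = -hermForm X.H l l := by
    simp [hermForm]
  have h3 : (hermForm X.H l l).im = 0 := by
    have := Pool.Agent.Helper7.hermForm_symm X.H X.appellHumbert.herm l l
    have h4 := congrArg Complex.im this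
    rw [Complex.conj_im] at h4
    linarith
  rw [add_neg_cancel, h0, h2, Complex.neg_im, h3, neg_zero, Complex.ofReal_zero, mul_zero,
    Complex.exp_zero, mul_one] at h1
  exact h1.symm

theorem thm_AVT (h1 : St_LinS) (h2 : St_ExpQ) : St_AVT := by
  intro X ι _ _ δ S T hST hTS
  obtain ⟨i₀, c, hd, hdel⟩ := GAM.thm_AVDel GAM.thm_Hol X
  have R := GAM.thm_DelR GAM.thm_Hol (Fin X.g) δ
  have R' := GAM.thm_DelR GAM.thm_Hol ι δ
  have hu := hdel i₀ δ
  set w : (Fin X.g → ℂ) → ℂ := fun z => X.θ i₀ z * X.θ i₀ (-z) / X.θ i₀ 0 ^ 2 with hw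
  have hwd : IsDel δ w (fun _ => 0) := by
    have e1 := R.lin (Fin X.g) (-1) _ _ (fun i k => by
      rw [Matrix.neg_apply, Matrix.one_apply]
      split_ifs
      · exact isAlgebraic_one.neg
      · exact isAlgebraic_zero.neg) hu
    have e2 := R.mul _ _ _ _ hu e1
    have e3 : (fun z : Fin X.g → ℂ => Complex.exp (-∑ a, c a * z a) * X.θ i₀ z / X.θ i₀ 0 *
        (Complex.exp (-∑ a, c a * ((-1 : Matrix (Fin X.g) (Fin X.g) ℂ).mulVec z) a) *
          X.θ i₀ ((-1 : Matrix (Fin X.g) (Fin X.g) ℂ).mulVec z) / X.θ i₀ 0)) = w := by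
      funext z
      have e4 : (-1 : Matrix (Fin X.g) (Fin X.g) ℂ).mulVec z = -z := by
        rw [Matrix.neg_mulVec, Matrix.one_mulVec]
      rw [e4, hw]
      have e5 : Complex.exp (-∑ a, c a * z a) * Complex.exp (-∑ a, c a * (-z) a) = 1 := by
        rw [← Complex.exp_add]
        have : -∑ a, c a * z a + -∑ a, c a * (-z) a = 0 := by
          simp
        rw [this, Complex.exp_zero]
      calc _ = (Complex.exp (-∑ a, c a * z a) * Complex.exp (-∑ a, c a * (-z) a)) *
            (X.θ i₀ z * X.θ i₀ (-z) / X.θ i₀ 0 ^ 2) := by ring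
        _ = _ := by rw [e5, one_mul]
    rw [e3] at e2
    simpa using e2
  have hW := h1 ι (Fin X.g) δ S T w hST hwd
  set Q : Matrix ι ι ℂ := -(S.transpose * X.q * S) with hQ
  have hqs : X.q.transpose = X.q := X.q_symm
  have hQs : Q.transpose = Q := by
    rw [hQ, Matrix.transpose_neg, Matrix.transpose_mul, Matrix.transpose_mul,
      Matrix.transpose_transpose, hqs, Matrix.mul_assoc]
  have hE := h2 ι δ Q
  have hQv : ∀ v : ι → ℂ, Q.mulVec v = -(S.transpose.mulVec (X.q.mulVec (S.mulVec v))) := by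
    intro v
    rw [hQ, Matrix.neg_mulVec, ← Matrix.mulVec_mulVec, ← Matrix.mulVec_mulVec]
  have hQq : ∀ v : ι → ℂ, ∑ a, ∑ b, Q a b * v a * v b =
      -(S.mulVec v ⬝ᵥ X.q.mulVec (S.mulVec v)) := by
    intro v
    rw [AVT_quad, hQv, dotProduct_neg, Matrix.dotProduct_mulVec, Matrix.vecMul_transpose]
  have hT := R'.mul _ _ _ _ hW hE
  set W : (ι → ℂ) → ℂ := fun v => w (S.mulVec v) with hWdef
  set e : (ι → ℂ) → ℂ := fun v => Complex.exp (∑ a, ∑ b, Q a b * v a * v b) with hedef
  refine ⟨fun v => W v * e v, ⟨0, ?_⟩, ?_, ?_⟩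
  · have h3 : W 0 = 1 := by
      rw [hWdef, hw]
      simp only [Matrix.mulVec_zero, neg_zero]
      field_simp
    have h4 : e 0 = 1 := by
      rw [hedef]
      simp
    show W 0 * e 0 ≠ 0
    rw [h3, h4, one_mul]
    exact one_ne_zero
  · have key : (gop 0 (T * S.map δ) (-(2 : ℂ) • (S.transpose * X.q.map δ * S))
        fun v => W v * e v) = fun v => gop 0 (T * S.map δ) 0 W v * e v +
          W v * ((∑ a, ∑ b, δ (Q a b) * v a * v b) * e v) := by
      funext v
      have hpd : ∀ a, pd a (fun v => W v * e v) v = pd a W v * e v +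
          W v * (2 * Q.mulVec v a * e v) := by
        intro a
        rw [GAM.pd_mul' (hW.ent v) (hE.ent v), AVT_pd_exp Q hQs a v]
      unfold gop
      simp only [hpd, Matrix.zero_apply, zero_mul, Finset.sum_const_zero, mul_zero, zero_add,
        add_zero]
      set B : Matrix ι ι ℂ := T * S.map δ with hB
      have a1 : ∑ a, ∑ b, B a b * (v b * (pd a W v * e v + W v * (2 * Q.mulVec v a * e v))) =
          (∑ a, ∑ b, B a b * (v b * pd a W v)) * e v +
            W v * (2 * (B.mulVec v ⬝ᵥ Q.mulVec v) * e v) := by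
        have b1 : W v * (2 * (B.mulVec v ⬝ᵥ Q.mulVec v) * e v) =
            ∑ a, (∑ b, B a b * v b) * (W v * (2 * Q.mulVec v a * e v)) := by
          have b2 : B.mulVec v ⬝ᵥ Q.mulVec v = ∑ a, (∑ b, B a b * v b) * Q.mulVec v a := rfl
          rw [b2, Finset.mul_sum, Finset.sum_mul, Finset.mul_sum]
          exact Finset.sum_congr rfl fun a _ => by ring
        rw [b1, Finset.sum_mul, ← Finset.sum_add_distrib]
        refine Finset.sum_congr rfl fun x _ => ?_
        rw [Finset.sum_mul, Finset.sum_mul, ← Finset.sum_add_distrib]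
        refine Finset.sum_congr rfl fun y _ => ?_
        ring
      rw [a1]
      have hBv : S.mulVec (B.mulVec v) = (S.map δ).mulVec v := by
        rw [hB, Matrix.mulVec_mulVec, ← Matrix.mul_assoc, hST, Matrix.one_mul]
      have a2 : B.mulVec v ⬝ᵥ Q.mulVec v =
          -((S.map δ).mulVec v ⬝ᵥ X.q.mulVec (S.mulVec v)) := by
        rw [hQv, dotProduct_neg, Matrix.dotProduct_mulVec, Matrix.vecMul_transpose, hBv]
      have a3 : ∑ a, ∑ b, δ (Q a b) * v a * v b =
          -(2 * ((S.map δ).mulVec v ⬝ᵥ X.q.mulVec (S.mulVec v)) +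
            S.mulVec v ⬝ᵥ (X.q.map δ).mulVec (S.mulVec v)) := by
        have b1 : Q.map δ = -((S.map δ).transpose * X.q * S + S.transpose * X.q.map δ * S +
            S.transpose * X.q * S.map δ) := by
          have b2 : Q.map δ = -((S.transpose * X.q * S).map δ) := by
            ext a b
            rw [hQ, Matrix.map_apply, Matrix.neg_apply, map_neg, Matrix.neg_apply,
              Matrix.map_apply]
          rw [b2, AVT_map_mul, AVT_map_mul, Matrix.transpose_map, Matrix.add_mul]
        have b3 : ∑ a, ∑ b, δ (Q a b) * v a * v b = v ⬝ᵥ (Q.map δ).mulVec v := by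
          rw [← AVT_quad]
          rfl
        rw [b3, b1, Matrix.neg_mulVec, dotProduct_neg, Matrix.add_mulVec, Matrix.add_mulVec,
          dotProduct_add, dotProduct_add]
        have b4 : v ⬝ᵥ ((S.map δ).transpose * X.q * S).mulVec v =
            (S.map δ).mulVec v ⬝ᵥ X.q.mulVec (S.mulVec v) := by
          rw [← Matrix.mulVec_mulVec, ← Matrix.mulVec_mulVec, Matrix.dotProduct_mulVec,
            Matrix.vecMul_transpose]
        have b5 : v ⬝ᵥ (S.transpose * X.q.map δ * S).mulVec v =
            S.mulVec v ⬝ᵥ (X.q.map δ).mulVec (S.mulVec v) := by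
          rw [← Matrix.mulVec_mulVec, ← Matrix.mulVec_mulVec, Matrix.dotProduct_mulVec,
            Matrix.vecMul_transpose]
        have b6 : v ⬝ᵥ (S.transpose * X.q * S.map δ).mulVec v =
            (S.map δ).mulVec v ⬝ᵥ X.q.mulVec (S.mulVec v) := by
          rw [← Matrix.mulVec_mulVec, ← Matrix.mulVec_mulVec, Matrix.dotProduct_mulVec,
            Matrix.vecMul_transpose, Matrix.dotProduct_mulVec, dotProduct_comm,
            ← Matrix.mulVec_transpose, hqs]
        rw [b4, b5, b6]
        ring
      have a4 : ∑ a, ∑ b, (-(2 : ℂ) • (S.transpose * X.q.map δ * S)) a b * v a * v b =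
          -2 * (S.mulVec v ⬝ᵥ (X.q.map δ).mulVec (S.mulVec v)) := by
        rw [AVT_quad, Matrix.smul_mulVec, dotProduct_smul, smul_eq_mul,
          ← Matrix.mulVec_mulVec, ← Matrix.mulVec_mulVec, Matrix.dotProduct_mulVec v,
          Matrix.vecMul_transpose]
      rw [a2, a3, a4]
      ring
    rw [key]
    exact hT
  · intro z l hl
    have hSz : ∀ z, S.mulVec (T.mulVec z) = z := by
      intro z
      rw [Matrix.mulVec_mulVec, hST, Matrix.one_mulVec]
    have hbf : ∀ x y : Fin X.g → ℂ, x ⬝ᵥ X.q.mulVec y = bilForm X.q x y := by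
      intro x y
      unfold bilForm dotProduct Matrix.mulVec dotProduct
      refine Finset.sum_congr rfl fun a _ => ?_
      rw [Finset.mul_sum]
      exact Finset.sum_congr rfl fun b _ => by ring
    show W (T.mulVec (z + l)) * e (T.mulVec (z + l)) = _ * (W (T.mulVec z) * e (T.mulVec z))
    simp only [hWdef, hedef, hQq, hSz, hw, hbf]
    have c1 := (X.theta i₀).quasi l hl z
    have c2 := (X.theta i₀).quasi (-l) (neg_mem hl) (-z)
    have c3 : -(z + l) = -z + -l := by rw [neg_add]
    rw [c3, c1, c2]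
    have n1 : hermForm X.H (-z) (-l) = hermForm X.H z l := by simp [hermForm]
    have n2 : hermForm X.H (-l) (-l) = hermForm X.H l l := by simp [hermForm]
    have n3 : bilForm X.q (-z) (-l) = bilForm X.q z l := by simp [bilForm]
    have n4 : bilForm X.q (-l) (-l) = bilForm X.q l l := by simp [bilForm]
    rw [n1, n2, n3, n4]
    have n5 : bilForm X.q (z + l) (z + l) = bilForm X.q z z + 2 * bilForm X.q z l +
        bilForm X.q l l := by
      have m1 : bilForm X.q (z + l) (z + l) = bilForm X.q z (z + l) + bilForm X.q l (z + l) := by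
        simp only [bilForm, Pi.add_apply, ← Finset.sum_add_distrib]
        exact Finset.sum_congr rfl fun a _ => Finset.sum_congr rfl fun b _ => by ring
      rw [m1, Pool.Agent.Helper7.bilForm_add_right, Pool.Agent.Helper7.bilForm_add_right,
        Pool.Agent.Helper7.bilForm_symm X.q X.q_symm l z]
      ring
    rw [n5]
    set A : ℂ := Real.pi * hermForm X.H z l + Real.pi / 2 * hermForm X.H l l +
      bilForm X.q z l + 1 / 2 * bilForm X.q l l with hA
    have m2 : Complex.exp A * Complex.exp A *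
        Complex.exp (-(bilForm X.q z z + 2 * bilForm X.q z l + bilForm X.q l l)) =
        Complex.exp (2 * Real.pi * hermForm X.H z l + Real.pi * hermForm X.H l l) *
          Complex.exp (-bilForm X.q z z) := by
      rw [← Complex.exp_add, ← Complex.exp_add, ← Complex.exp_add, hA]
      congr 1
      ring
    calc _ = (X.χ l * X.χ (-l)) * (Complex.exp A * Complex.exp A *
          Complex.exp (-(bilForm X.q z z + 2 * bilForm X.q z l + bilForm X.q l l))) *
          (X.θ i₀ z * X.θ i₀ (-z) / X.θ i₀ 0 ^ 2) := by ring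
      _ = _ := by rw [AVT_chi X l hl, m2]; ring

end PST
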