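import Pool.Agent.PST.StH
import Pool.Agent.GAM.Per
import Pool.Agent.GAM.Imm
import Pool.Agent.GAM.C2
import Pool.Agent.GAM.QDF
import Pool.Agent.GAM.DelR
import Pool.Agent.GAM.TorD
import Pool.Agent.GAM.Sieg
import Pool.Agent.GAM.Ind1
import Pool.Agent.GAM.OddD
import Pool.Agent.GAM.Hol
import Pool.Agent.GAM.ExpU

/-!
# PST / LdB: `ld` is determined by a system of coordinates on a sublattice
-/

set_option autoImplicit false

namespace PST

open scoped ComplexConjugate
open GAM (H E F pd pdl PLat IsTh OddTor IsDel Gro IsLat Pre QD qd jac HasExp)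

section LdB

variable {ι : Type} [Fintype ι] [DecidableEq ι]

/-- two vectors which agree on the differentials of a system of coordinates -/
theorem LdB_det {a b : ι → (ι → ℂ) → ℂ} {v : ι → ℂ} (h : (jac a b v).det ≠ 0)
    {p q : ι → ℂ} (hpq : ∀ i, ∑ j, p j * pd j (fun z => a i z / b i z) v =
      ∑ j, q j * pd j (fun z => a i z / b i z) v) : p = q := by
  have h1 : p - q = 0 := by
    apply Matrix.eq_zero_of_mulVec_eq_zero h
    funext i
    have h2 := hpq i
    simp only [Matrix.mulVec, dotProduct, jac, Matrix.of_apply, Pi.zero_apply, Pi.sub_apply]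
    have h3 : ∑ x, pd x (fun z => a i z / b i z) v * (p x - q x) =
        ∑ j, p j * pd j (fun z => a i z / b i z) v -
          ∑ j, q j * pd j (fun z => a i z / b i z) v := by
      rw [← Finset.sum_sub_distrib]
      exact Finset.sum_congr rfl fun j _ => by ring
    rw [h3, h2, sub_self]
  exact sub_eq_zero.1 h1

/-- the difference of an Euler type operator applied to a periodic function -/
theorem LdB_eul (B : Matrix ι ι ℂ) {f : (ι → ℂ) → ℂ} {l v : ι → ℂ}
    (hf : ∀ z, f (z + l) = f z) :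
    ∑ c, ∑ e, B c e * ((v + l) e * pd c f (v + l)) - ∑ c, ∑ e, B c e * (v e * pd c f v) =
      ∑ c, B.mulVec l c * pd c f v := by
  have hper : ∀ c, pd c f (v + l) = pd c f v := by
    intro c
    rw [← GAM.pd_shift' f l v c]
    congr 1
    funext z
    exact hf z
  rw [← Finset.sum_sub_distrib]
  refine Finset.sum_congr rfl fun c _ => ?_
  rw [hper c, ← Finset.sum_sub_distrib]
  simp only [Matrix.mulVec, dotProduct]
  rw [Finset.sum_mul]
  refine Finset.sum_congr rfl fun e _ => ?_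
  rw [Pi.add_apply]
  ring

end LdB

theorem thm_LdB : St_LdB := by
  intro ι _ _ δ L Λ χ θ G ld β₀ β B M a b a' b' v₀ hP hT h0 hPre hΛ hΛL hM hML hQ hb0 hJ hE
  have hDel : GAM.St_DelR := GAM.thm_DelR GAM.thm_Hol
  have hPer : GAM.St_Per := GAM.thm_Per (GAM.thm_TorD GAM.thm_Sieg) hDel
  have hImm : GAM.St_Imm := GAM.thm_Imm (GAM.thm_Ind1 GAM.thm_OddD) GAM.thm_OddD
  have hC2a : GAM.St_C2a := GAM.thm_C2a GAM.thm_Lin
  have hR := hDel ι δ
  obtain ⟨ld', hld'⟩ := hPer ι δ Λ a b a' b' v₀ hΛ hQ hb0 hJ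
  -- the values of ld' on the sublattice
  have h1 : ∀ l ∈ Λ, ld' l = B.mulVec l := by
    intro l hl
    refine LdB_det hJ fun i => ?_
    rw [← hld' _ _ _ _ (hQ i) l hl v₀ (hb0 i), hE i _ ((hQ i).ne hl (hb0 i)), hE i _ (hb0 i)]
    exact LdB_eul B fun z => (hQ i).per hl z
  -- comparison with ld
  have h2 : ∀ l ∈ Λ, ld l = ld' l := by
    intro l hl
    obtain ⟨v, hv⟩ := GAM.F_nz h0 (0 : ι → ℂ)
    have hy0 : OddTor L (0 : ι → ℂ) := ⟨1, odd_one, by simp⟩
    obtain ⟨n, c, hn, hny, hnc, hdet⟩ := hImm ι L χ θ hP hT h0 0 v hy0 hv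
    refine LdB_det hdet fun i => ?_
    have hQi := GAM.QD_pow hR hP hT h0 (hnc i) hny (hPre.del (c i) ⟨n, hn, hnc i⟩)
      (hPre.del 0 hy0)
    have e1 := hPre.per _ _ _ _ hQi l (hΛL l hl) v (pow_ne_zero n hv)
    have e2 := hld' _ _ _ _ (GAM.ExpU_mono hΛL hQi) l hl v (pow_ne_zero n hv)
    exact e1.symm.trans e2
  -- additivity
  have hadd : ∀ l ∈ L, ∀ m ∈ L, ld (l + m) = ld l + ld m := fun l hl m hm =>
    (hC2a ι δ L χ θ G ld β₀ β hP hT h0 hPre l hl m hm).1
  intro l hl
  have h3 : ∀ k : ℕ, ld ((k : ℤ) • l) = (k : ℂ) • ld l := by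
    intro k
    induction k with
    | zero =>
      have h4 := hadd 0 L.zero_mem 0 L.zero_mem
      rw [add_zero] at h4
      rw [Nat.cast_zero, Nat.cast_zero, zero_smul, zero_smul]
      exact left_eq_add.1 h4
    | succ k ih =>
      rw [Nat.cast_succ, add_smul, one_smul, hadd _ (L.smul_mem _ hl) l hl, ih, Nat.cast_succ,
        add_smul, one_smul]
  have h5 := h1 _ (hML l hl)
  rw [← h2 _ (hML l hl), h3 M] at h5
  have h6 : B.mulVec ((M : ℤ) • l) = (M : ℂ) • B.mulVec l := by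
    have h7 : ((M : ℤ) • l) = (M : ℂ) • l := by
      funext j
      simp
    rw [h7, Matrix.mulVec_smul]
  rw [h6] at h5
  exact smul_right_injective _ (Nat.cast_ne_zero.2 hM) h5

end PST
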