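import Pool.Agent.PST.StF
import Pool.Agent.GAM.StC
import Pool.Agent.Helper7.Bridge3

/-!
# PST: frozen statements, the action of derivations on theta functions of abelian varieties
-/

set_option autoImplicit false

namespace PST

open scoped ComplexConjugate
open GAM (H E F pd pdl PLat IsTh OddTor IsDel Gro IsLat Pre QD qd jac HasExp)
open Pool.Agent.GPC (AbVar hermForm bilForm)

section defs

variable {ι : Type} [Fintype ι] [DecidableEq ι]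

/-- The operator `k + ∑ B_ab v_b ∂_a + 1/2 ∑ C_ab v_a v_b`. -/
noncomputable def gop (k : ℂ) (B C : Matrix ι ι ℂ) (G : (ι → ℂ) → ℂ) (v : ι → ℂ) : ℂ :=
  k * G v + ∑ a, ∑ b, B a b * (v b * pd a G v) +
    1 / 2 * (∑ a, ∑ b, C a b * v a * v b) * G v

/-- `δ` acts on the functions `F_x`, `x` of odd order, by the operator `gop`. -/
structure HasGop (δ : Derivation ℚ ℂ ℂ) (L : Submodule ℤ (ι → ℂ)) (θ : (ι → ℂ) → ℂ) (k : ℂ)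
    (B C : Matrix ι ι ℂ) : Prop where
  symm : C.transpose = C
  del : ∀ x, OddTor L x → IsDel δ (F θ x) (gop k B C (F θ x))

variable {α β μ : Type} [Fintype α] [Fintype β] [Fintype μ]
  [DecidableEq α] [DecidableEq β] [DecidableEq μ]

/-- The matrix on `ℂ^((α ⊕ β) × μ)` of the right multiplication `X ↦ X r`. -/
def rgt (α β : Type) [DecidableEq α] [DecidableEq β] (r : Matrix μ μ ℂ) :
    Matrix (Ix α β μ) (Ix α β μ) ℂ :=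
  Matrix.of fun p q => if p.1 = q.1 then
    Sum.elim (fun _ => r q.2 p.2) (fun _ => conj (r q.2 p.2)) p.1 else 0

/-- The matrix of a pair `(P, Q)` acting on the first index. -/
def blk (μ : Type) [DecidableEq μ] (P : Matrix α α ℂ) (Q : Matrix β β ℂ) :
    Matrix (Ix α β μ) (Ix α β μ) ℂ :=
  Matrix.of fun p q => if p.2 = q.2 then Matrix.fromBlocks P 0 0 Q p.1 q.1 else 0

end defs

/-! ## Tools -/

/-- [LinT] `δ` and linear substitutions -/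
def St_LinT : Prop := ∀ (ι κ : Type) [Fintype ι] [DecidableEq ι] [Fintype κ] [DecidableEq κ]
  (δ : Derivation ℚ ℂ ℂ) (T : Matrix ι κ ℂ) (a a' : (ι → ℂ) → ℂ), IsDel δ a a' →
  IsDel δ (fun v : κ → ℂ => a (T.mulVec v)) (fun v => a' (T.mulVec v) +
    ∑ i, (∑ b, δ (T i b) * v b) * pd i a (T.mulVec v))

/-- [LinS] the same for a bijective substitution and a function with `δ a = 0` -/
def St_LinS : Prop := ∀ (ι κ : Type) [Fintype ι] [DecidableEq ι] [Fintype κ] [DecidableEq κ]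
  (δ : Derivation ℚ ℂ ℂ) (S : Matrix κ ι ℂ) (T : Matrix ι κ ℂ) (a : (κ → ℂ) → ℂ),
  S * T = 1 → IsDel δ a (fun _ => 0) →
  IsDel δ (fun v : ι → ℂ => a (S.mulVec v)) (gop 0 (T * S.map δ) 0 fun v => a (S.mulVec v))

/-- [ExpQ] `δ` and exponentials of quadratic forms -/
def St_ExpQ : Prop := ∀ (ι : Type) [Fintype ι] [DecidableEq ι] (δ : Derivation ℚ ℂ ℂ)
  (Q : Matrix ι ι ℂ), IsDel δ (fun v : ι → ℂ => Complex.exp (∑ a, ∑ b, Q a b * v a * v b))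
    (fun v => (∑ a, ∑ b, δ (Q a b) * v a * v b) *
      Complex.exp (∑ a, ∑ b, Q a b * v a * v b))

/-! ## Operators attached to a principal lattice -/

/-- [C2g] linear algebra -/
def St_C2g : Prop := ∀ (ι : Type) [Fintype ι] [DecidableEq ι] (L : Submodule ℤ (ι → ℂ))
  (B : Matrix ι ι ℂ) (ld β : (ι → ℂ) → ι → ℂ), IsLat L →
  (∀ l ∈ L, ∀ m ∈ L, ld (l + m) = ld l + ld m ∧ β (l + m) = β l + β m ∧
    ∑ j, β l j * m j + Real.pi * ∑ j, ld l j * conj (m j) =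
      ∑ j, β m j * l j + Real.pi * ∑ j, ld m j * conj (l j)) →
  (∀ l ∈ L, ld l = B.mulVec l) →
  ∃ C : Matrix ι ι ℂ, C.transpose = C ∧ ∀ l ∈ L, ∀ j, β l j =
    ∑ i, C j i * l i + Real.pi * ∑ i, B i j * conj (l i)

/-- [C3g] -/
def St_C3g : Prop := ∀ (ι : Type) [Fintype ι] [DecidableEq ι] (δ : Derivation ℚ ℂ ℂ)
  (L : Submodule ℤ (ι → ℂ)) (χ θ : (ι → ℂ) → ℂ) (G : (ι → ℂ) → (ι → ℂ) → ℂ)
  (ld : (ι → ℂ) → ι → ℂ) (β₀ : (ι → ℂ) → ℂ) (β : (ι → ℂ) → ι → ℂ) (B C : Matrix ι ι ℂ),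
  PLat L χ → IsTh L χ θ → (∃ v, θ v ≠ 0) → Pre δ L θ G ld β₀ β → C.transpose = C →
  (∀ l ∈ L, ld l = B.mulVec l) → (∀ l ∈ L, ∀ j, β l j =
    ∑ i, C j i * l i + Real.pi * ∑ i, B i j * conj (l i)) →
  ∃ k : (ι → ℂ) → ℂ, ∀ x, OddTor L x → ∀ v, G x v = gop (k x) B C (F θ x) v

/-- [C5g] -/
def St_C5g : Prop := ∀ (ι : Type) [Fintype ι] [DecidableEq ι] (δ : Derivation ℚ ℂ ℂ)
  (L : Submodule ℤ (ι → ℂ)) (χ θ : (ι → ℂ) → ℂ) (B C : Matrix ι ι ℂ) (k : (ι → ℂ) → ℂ),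
  PLat L χ → IsTh L χ θ → (∃ v, θ v ≠ 0) →
  (∀ x, OddTor L x → IsDel δ (F θ x) (gop (k x) B C (F θ x))) →
  ∀ x y, OddTor L x → OddTor L y → k x = k y

/-- [GopE] existence of the operator -/
def St_GopE : Prop := ∀ (ι : Type) [Fintype ι] [DecidableEq ι] (δ : Derivation ℚ ℂ ℂ)
  (L : Submodule ℤ (ι → ℂ)) (χ θ : (ι → ℂ) → ℂ) (G : (ι → ℂ) → (ι → ℂ) → ℂ)
  (ld : (ι → ℂ) → ι → ℂ) (β₀ : (ι → ℂ) → ℂ) (β : (ι → ℂ) → ι → ℂ) (B : Matrix ι ι ℂ),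
  PLat L χ → IsTh L χ θ → (∃ v, θ v ≠ 0) → Pre δ L θ G ld β₀ β →
  (∀ l ∈ L, ld l = B.mulVec l) → ∃ (k : ℂ) (C : Matrix ι ι ℂ), HasGop δ L θ k B C

/-- [LdB] `ld` is determined by a system of coordinates on a sublattice -/
def St_LdB : Prop := ∀ (ι : Type) [Fintype ι] [DecidableEq ι] (δ : Derivation ℚ ℂ ℂ)
  (L Λ : Submodule ℤ (ι → ℂ)) (χ θ : (ι → ℂ) → ℂ) (G : (ι → ℂ) → (ι → ℂ) → ℂ)
  (ld : (ι → ℂ) → ι → ℂ) (β₀ : (ι → ℂ) → ℂ) (β : (ι → ℂ) → ι → ℂ) (B : Matrix ι ι ℂ)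
  (M : ℕ) (a b a' b' : ι → (ι → ℂ) → ℂ) (v₀ : ι → ℂ),
  PLat L χ → IsTh L χ θ → (∃ v, θ v ≠ 0) → Pre δ L θ G ld β₀ β →
  IsLat Λ → (∀ l ∈ Λ, l ∈ L) → M ≠ 0 → (∀ l ∈ L, (M : ℤ) • l ∈ Λ) →
  (∀ i, QD δ Λ (a i) (b i) (a' i) (b' i)) → (∀ i, b i v₀ ≠ 0) → (jac a b v₀).det ≠ 0 →
  (∀ i v, b i v ≠ 0 → qd (a i) (b i) (a' i) (b' i) v =
    ∑ c, ∑ e, B c e * (v e * pd c (fun z => a i z / b i z) v)) →
  ∀ l ∈ L, ld l = B.mulVec l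

/-- [LdG] `ld` from the operator -/
def St_LdG : Prop := ∀ (ι : Type) [Fintype ι] [DecidableEq ι] (δ : Derivation ℚ ℂ ℂ)
  (L : Submodule ℤ (ι → ℂ)) (χ θ : (ι → ℂ) → ℂ) (k : ℂ) (B C : Matrix ι ι ℂ),
  PLat L χ → IsTh L χ θ → (∃ v, θ v ≠ 0) → HasGop δ L θ k B C → ∀ Λ : Submodule ℤ (ι → ℂ),
  IsLat Λ → (∀ l ∈ Λ, l ∈ L) → ∀ a b a' b' : (ι → ℂ) → ℂ, QD δ Λ a b a' b' → ∀ l ∈ Λ, ∀ v,
    b v ≠ 0 → qd a b a' b' (v + l) - qd a b a' b' v =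
      ∑ j, B.mulVec l j * pd j (fun z => a z / b z) v

/-- [GopR] the operator and endomorphisms -/
def St_GopR : Prop := ∀ (ι : Type) [Fintype ι] [DecidableEq ι] (δ : Derivation ℚ ℂ ℂ)
  (L : Submodule ℤ (ι → ℂ)) (χ θ : (ι → ℂ) → ℂ) (k : ℂ) (B C R : Matrix ι ι ℂ),
  PLat L χ → IsTh L χ θ → (∃ v, θ v ≠ 0) → HasGop δ L θ k B C → R.det ≠ 0 →
  (∀ a b, IsAlgebraic ℚ (R a b)) → (∀ l ∈ L, R.mulVec l ∈ L) → R * B = B * R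

/-- [QuC] the quadratic part -/
def St_QuC : Prop := ∀ (ι : Type) [Fintype ι] [DecidableEq ι] (δ : Derivation ℚ ℂ ℂ)
  (L Λ : Submodule ℤ (ι → ℂ)) (χ θ : (ι → ℂ) → ℂ) (k k' : ℂ) (B C C' : Matrix ι ι ℂ)
  (t : (ι → ℂ) → ℂ), PLat L χ → IsTh L χ θ → (∃ v, θ v ≠ 0) → HasGop δ L θ k B C →
  IsLat Λ → (∀ l ∈ Λ, l ∈ L) → (∃ v, t v ≠ 0) → C'.transpose = C' →
  IsDel δ t (gop k' B C' t) →
  (∀ l ∈ Λ, ∀ v, t (v + l) = Complex.exp (2 * Real.pi * H v l + Real.pi * H l l) * t v) →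
  C' = (2 : ℂ) • C

/-! ## Abelian varieties -/

/-- [AVT] an even theta function with algebraic Taylor coefficients -/
def St_AVT : Prop := ∀ (X : AbVar) (ι : Type) [Fintype ι] [DecidableEq ι]
  (δ : Derivation ℚ ℂ ℂ) (S : Matrix (Fin X.g) ι ℂ) (T : Matrix ι (Fin X.g) ℂ),
  S * T = 1 → T * S = 1 → ∃ t : (ι → ℂ) → ℂ, (∃ v, t v ≠ 0) ∧
  IsDel δ t (gop 0 (T * S.map δ) (-(2 : ℂ) • (S.transpose * X.q.map δ * S)) t) ∧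
  ∀ z, ∀ l ∈ X.Λ, t (T.mulVec (z + l)) =
    Complex.exp (2 * Real.pi * hermForm X.H z l + Real.pi * hermForm X.H l l) * t (T.mulVec z)

/-- [LdA] `ld` for the lattice of an abelian variety -/
def St_LdA : Prop := ∀ (X : AbVar) (ι : Type) [Fintype ι] [DecidableEq ι]
  (δ : Derivation ℚ ℂ ℂ) (S : Matrix (Fin X.g) ι ℂ) (T : Matrix ι (Fin X.g) ℂ)
  (L : Submodule ℤ (ι → ℂ)) (χ θ : (ι → ℂ) → ℂ) (G : (ι → ℂ) → (ι → ℂ) → ℂ)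
  (ld : (ι → ℂ) → ι → ℂ) (β₀ : (ι → ℂ) → ℂ) (β : (ι → ℂ) → ι → ℂ),
  S * T = 1 → T * S = 1 → PLat L χ → IsTh L χ θ → (∃ v, θ v ≠ 0) → Pre δ L θ G ld β₀ β →
  (∀ l ∈ L, ∃ n : ℕ, n ≠ 0 ∧ S.mulVec ((n : ℤ) • l) ∈ X.Λ) →
  ∀ l ∈ L, ld l = (T * S.map δ).mulVec l

/-- [HatA] the operator for the lattice of an abelian variety -/
def St_HatA : Prop := ∀ (X : AbVar) (ι : Type) [Fintype ι] [DecidableEq ι]
  (δ : Derivation ℚ ℂ ℂ) (S : Matrix (Fin X.g) ι ℂ) (T : Matrix ι (Fin X.g) ℂ)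
  (L : Submodule ℤ (ι → ℂ)) (χ θ : (ι → ℂ) → ℂ),
  S * T = 1 → T * S = 1 → PLat L χ → IsTh L χ θ → (∃ v, θ v ≠ 0) →
  (∀ z w, hermForm X.H z w = H (T.mulVec z) (T.mulVec w)) →
  (∀ l ∈ L, ∃ n : ℕ, n ≠ 0 ∧ S.mulVec ((n : ℤ) • l) ∈ X.Λ) →
  ∃ k : ℂ, HasGop δ L θ k (T * S.map δ) (-(S.transpose * X.q.map δ * S))

/-- [QRel] the normalising form and the endomorphisms -/
def St_QRel : Prop := ∀ (X : AbVar) (f f' : X.H1 → X.H1) (M M' : Matrix (Fin X.g) (Fin X.g) ℂ),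
  X.IsEnd f → X.IsEnd f' → X.IsAdjoint f f' → (∀ v, X.zz (f v) = M.mulVec (X.zz v)) →
  (∀ v, X.zz (f' v) = M'.mulVec (X.zz v)) →
  (∀ i j, IsAlgebraic ℚ (M i j)) ∧ ∀ i j, IsAlgebraic ℚ ((X.q * M - M'.transpose * X.q) i j)

/-- [HatC] the quadratic part in block form -/
def St_HatC : Prop := ∀ (α β μ : Type) [Fintype α] [Fintype β] [Fintype μ] [DecidableEq α]
  [DecidableEq β] [DecidableEq μ] (C : Matrix (Ix α β μ) (Ix α β μ) ℂ)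
  (R : Set (Matrix μ μ ℂ)) (s : ℝ), C.transpose = C → s ≠ 0 → Submodule.span ℂ R = ⊤ →
  ((s * Complex.I : ℂ) • (1 : Matrix μ μ ℂ)) ∈ R →
  (∀ r ∈ R, C * rgt α β r = (rgt α β r.conjTranspose).transpose * C) →
  ∃ c : Matrix α β ℂ, ∀ (k : ℂ) (Bp : Matrix α α ℂ) (Bm : Matrix β β ℂ)
    (G : (Ix α β μ → ℂ) → ℂ), gop k (blk μ Bp Bm) C G = hop k Bp Bm c G

/-! ## Exponents of the CM point -/

/-- [ExpS] exponents from theta functions of a power of a CM torus -/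
def St_ExpS : Prop := ∀ (K : Type) [Field K] [NumberField K] (c : K →+* K) (S ι : Type)
  [Fintype S] [DecidableEq S] [Fintype ι] [DecidableEq ι] (φ : S → K →+* ℂ)
  (δ : Derivation ℚ ℂ ℂ) (L : Submodule ℤ (ι → ℂ)) (χ θ : (ι → ℂ) → ℂ) (A : S → ℂ) (k : ℂ)
  (j : ι → S) (r : ι → ℂ) (M : ℕ), GAM.CMF K c → GAM.CMT K c φ → PLat L χ → IsTh L χ θ →
  (∃ v, θ v ≠ 0) → HasExp δ L θ (fun p => A (j p)) k → (∀ p, IsAlgebraic ℚ (r p)) →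
  (∀ s, ∃ p, j p = s ∧ r p ≠ 0) → M ≠ 0 →
  (∀ x : NumberField.RingOfIntegers K, (fun p => r p * φ (j p) ((M : K) * (x : K))) ∈ L) →
  GAM.IsExp δ K φ A

/-- [ExpD] the operator of a CM point is a scalar on the blocks -/
def St_ExpD : Prop := ∀ (α β μ : Type) [Fintype α] [Fintype β] [Fintype μ] [DecidableEq α]
  [DecidableEq β] [DecidableEq μ] (δ : Derivation ℚ ℂ ℂ) (L : Submodule ℤ (Ix α β μ → ℂ))
  (χ θ : (Ix α β μ → ℂ) → ℂ) (A : Ix α β μ → ℂ) (k : ℂ) (R : Set (Matrix μ μ ℂ)),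
  PLat L χ → IsTh L χ θ → (∃ v, θ v ≠ 0) → HasExp δ L θ A k → Submodule.span ℂ R = ⊤ →
  (∀ r ∈ R, ∀ i j, IsAlgebraic ℚ (r i j)) → (∀ r ∈ R, r ≠ 0 → r.det ≠ 0) →
  (∀ r ∈ R, ∀ l ∈ L, (rgt α β r).mulVec l ∈ L) → Nonempty μ →
  ∃ A' : α ⊕ β → ℂ, (∀ p, A p = A' p.1) ∧
    HasHat δ L θ k (Matrix.diagonal fun i => A' (Sum.inl i))
      (Matrix.diagonal fun j => A' (Sum.inr j)) 0

end PST
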