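import Pool.Agent.GAM.Defs

/-!
# PST: theta functions and the domain of type `I_{r,q}` (definitions)

Campaign PSQ (simple abelian varieties of dimension `p ^ 2` with non commutative endomorphisms),
torus part. The index set of the coordinates is `(α ⊕ β) × μ`.
-/

set_option autoImplicit false

namespace PST

open scoped ComplexConjugate
open GAM (H E F pd pdl PLat IsTh OddTor IsDel Gro IsLat)

section defs

variable {α β μ : Type} [Fintype α] [Fintype β] [Fintype μ]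
  [DecidableEq α] [DecidableEq β] [DecidableEq μ]

/-- The index set. -/
abbrev Ix (α β μ : Type) : Type := (α ⊕ β) × μ

/-- Conjugation of the coordinates of the second kind; `x ↦ X = sw x` is an involution. -/
def sw (x : Ix α β μ → ℂ) : Ix α β μ → ℂ := fun p =>
  Sum.elim (fun i => x (Sum.inl i, p.2)) (fun j => conj (x (Sum.inr j, p.2))) p.1

/-- The matrix `diag (1, -1)`. -/
def Jm (α β : Type) [DecidableEq α] [DecidableEq β] : Matrix (α ⊕ β) (α ⊕ β) ℂ :=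
  Matrix.fromBlocks 1 0 0 (-1)

/-- Complex linear action of a matrix on the coordinates `X`. -/
def mu (g : Matrix (α ⊕ β) (α ⊕ β) ℂ) (X : Ix α β μ → ℂ) : Ix α β μ → ℂ := fun p =>
  ∑ q, g p.1 q * X (q, p.2)

/-- The (real linear) action of a matrix on `ℂ^((α ⊕ β) × μ)`. -/
def act (g : Matrix (α ⊕ β) (α ⊕ β) ℂ) (x : Ix α β μ → ℂ) : Ix α β μ → ℂ := sw (mu g (sw x))

/-- The indefinite unitary group. -/
def IsU (g : Matrix (α ⊕ β) (α ⊕ β) ℂ) : Prop := g.conjTranspose * Jm α β * g = Jm α β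

/-- A point of the domain as a matrix. -/
def mt (w : α × β → ℂ) : Matrix α β ℂ := Matrix.of fun i j => w (i, j)

/-- The closed part of the domain of norm at most `ρ`. -/
def OmC (α β : Type) [Fintype α] [Fintype β] (ρ : ℝ) : Set (α × β → ℂ) :=
  {w | ∀ y : β → ℂ, ∑ i, ‖∑ j, w (i, j) * y j‖ ^ 2 ≤ ρ ^ 2 * ∑ j, ‖y j‖ ^ 2}

/-- The domain. -/
def Om (α β : Type) [Fintype α] [Fintype β] : Set (α × β → ℂ) :=
  {w | ∃ ρ : ℝ, 0 ≤ ρ ∧ ρ < 1 ∧ w ∈ OmC α β ρ}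

/-- The action of a matrix on the domain, `w ↦ (a w + b) (c w + d)⁻¹`. -/
noncomputable def mob (g : Matrix (α ⊕ β) (α ⊕ β) ℂ) (w : α × β → ℂ) : α × β → ℂ := fun p =>
  ((g.toBlocks₁₁ * mt w + g.toBlocks₁₂) * (g.toBlocks₂₁ * mt w + g.toBlocks₂₂)⁻¹) p.1 p.2

/-- The automorphy factor `c w + d`. -/
def cd (g : Matrix (α ⊕ β) (α ⊕ β) ℂ) (w : α × β → ℂ) : Matrix β β ℂ :=
  g.toBlocks₂₁ * mt w + g.toBlocks₂₂

/-- The factor `a - w' c`, `w' = g w`. -/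
noncomputable def ca (g : Matrix (α ⊕ β) (α ⊕ β) ℂ) (w : α × β → ℂ) : Matrix α α ℂ :=
  g.toBlocks₁₁ - mt (mob g w) * g.toBlocks₂₁

/-- The complex linear map `C(g, w)` given by `a - w' c` and the inverse transpose of `c w + d`. -/
noncomputable def Cm (g : Matrix (α ⊕ β) (α ⊕ β) ℂ) (w : α × β → ℂ) (U : Ix α β μ → ℂ) :
    Ix α β μ → ℂ := fun p =>
  Sum.elim (fun i => ∑ i', ca g w i i' * U (Sum.inl i', p.2))
    (fun j => ∑ j', ((cd g w)⁻¹) j' j * U (Sum.inr j', p.2)) p.1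

/-- The holomorphic coordinates `U = (x⁺ - w conj x⁻, x⁻ - wᵀ conj x⁺)`. -/
def Uw (w : α × β → ℂ) (x : Ix α β μ → ℂ) : Ix α β μ → ℂ := fun p =>
  Sum.elim (fun i => x (Sum.inl i, p.2) - ∑ j, w (i, j) * conj (x (Sum.inr j, p.2)))
    (fun j => x (Sum.inr j, p.2) - ∑ i, w (i, j) * conj (x (Sum.inl i, p.2))) p.1

/-- The bilinear form `∑ w_ij x_ik y_jk`. -/
def wb (w : α × β → ℂ) (x y : Ix α β μ → ℂ) : ℂ :=
  ∑ i, ∑ j, ∑ k, w (i, j) * x (Sum.inl i, k) * y (Sum.inr j, k)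

/-- The point `(w conj ξ, ξ)`. -/
def emb (w : α × β → ℂ) (ξ : β × μ → ℂ) : Ix α β μ → ℂ := fun p =>
  Sum.elim (fun i => ∑ j, w (i, j) * conj (ξ (j, p.2))) (fun j => ξ (j, p.2)) p.1

/-- The Gaussian weight. -/
noncomputable def gw {κ : Type} [Fintype κ] (ξ : κ → ℂ) : ℂ :=
  Complex.exp (-(Real.pi * ∑ p, ξ p * conj (ξ p)))

/-- The Fock functional. -/
noncomputable def ell (w : α × β → ℂ) (G : (Ix α β μ → ℂ) → ℂ) : ℂ :=
  ∫ ξ : β × μ → ℂ, G (emb w ξ) * gw ξ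

/-- The Fock vector at the point `w` of the domain. -/
noncomputable def psi (θ : (Ix α β μ → ℂ) → ℂ) (w : α × β → ℂ) (x : Ix α β μ → ℂ) : ℂ :=
  ell w (F θ x)

/-- Its derivatives. -/
noncomputable def dpsi (p : Ix α β μ) (θ : (Ix α β μ → ℂ) → ℂ) (w : α × β → ℂ)
    (x : Ix α β μ → ℂ) : ℂ := ell w (pd p (F θ x))

/-- The derivative in the direction `h`. -/
noncomputable def Dpsi (h : Ix α β μ → ℂ) (θ : (Ix α β μ → ℂ) → ℂ) (w : α × β → ℂ)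
    (x : Ix α β μ → ℂ) : ℂ := ∑ p, h p * dpsi p θ w x

/-- The determinant of derivatives, first kind. -/
noncomputable def fp (k : μ) (θ : (Ix α β μ → ℂ) → ℂ) (w : α × β → ℂ)
    (x : α → Ix α β μ → ℂ) : ℂ :=
  (Matrix.of fun i b : α => dpsi (Sum.inl i, k) θ w (x b)).det

/-- The determinant of derivatives, second kind. -/
noncomputable def fm (k : μ) (θ : (Ix α β μ → ℂ) → ℂ) (w : α × β → ℂ)
    (x : β → Ix α β μ → ℂ) : ℂ :=
  (Matrix.of fun j b : β => dpsi (Sum.inr j, k) θ w (x b)).det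

/-- `g` maps `L₁` onto `L₀` and `χ₁` to `χ₀`. -/
structure Maps (g : Matrix (α ⊕ β) (α ⊕ β) ℂ) (L₁ L₀ : Submodule ℤ (Ix α β μ → ℂ))
    (χ₁ χ₀ : (Ix α β μ → ℂ) → ℂ) : Prop where
  uni : IsU g
  lat : ∀ x, x ∈ L₁ ↔ act g x ∈ L₀
  chi : ∀ l ∈ L₁, χ₀ (act g l) = χ₁ l

/-- Cocompactness, for all congruence subgroups of the automorphism group of `L`. -/
def Coc (e : ℕ) (L : Submodule ℤ (Ix α β μ → ℂ)) : Prop :=
  ∀ n : ℕ, n ≠ 0 → ∃ ρ : ℝ, 0 ≤ ρ ∧ ρ < 1 ∧ ∀ w ∈ Om α β, ∃ g : Matrix (α ⊕ β) (α ⊕ β) ℂ,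
    IsU g ∧ g.det ^ e = 1 ∧ (∀ x : Ix α β μ → ℂ, x ∈ L ↔ act g x ∈ L) ∧
    (∀ l ∈ L, ∃ m ∈ L, act g l = l + (n : ℤ) • m) ∧ mob g w ∈ OmC α β ρ

/-- The operator `k + ∑ B⁺_ii' v_i'k ∂_ik + ∑ B⁻_jj' v_j'k ∂_jk + ∑ c_ij v_ik v_jk`. -/
noncomputable def hop (k : ℂ) (Bp : Matrix α α ℂ) (Bm : Matrix β β ℂ) (c : Matrix α β ℂ)
    (G : (Ix α β μ → ℂ) → ℂ) (v : Ix α β μ → ℂ) : ℂ :=
  k * G v + ∑ m, ∑ i, ∑ i', Bp i i' * (v (Sum.inl i', m) * pd (Sum.inl i, m) G v) +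
    ∑ m, ∑ j, ∑ j', Bm j j' * (v (Sum.inr j', m) * pd (Sum.inr j, m) G v) +
    ∑ m, ∑ i, ∑ j, c i j * (v (Sum.inl i, m) * (v (Sum.inr j, m) * G v))

/-- `δ` acts on the functions `F_x`, `x` of odd order, by the operator `hop`. -/
def HasHat (δ : Derivation ℚ ℂ ℂ) (L : Submodule ℤ (Ix α β μ → ℂ))
    (θ : (Ix α β μ → ℂ) → ℂ) (k : ℂ) (Bp : Matrix α α ℂ) (Bm : Matrix β β ℂ)
    (c : Matrix α β ℂ) : Prop :=
  ∀ x, OddTor L x → IsDel δ (F θ x) (hop k Bp Bm c (F θ x))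

/-- `b` has the Taylor coefficients `δ(a_n)` at `0` (germs). -/
structure IsDelG {κ : Type} [Fintype κ] [DecidableEq κ] (δ : Derivation ℚ ℂ ℂ)
    (a b : (κ → ℂ) → ℂ) : Prop where
  an : AnalyticAt ℂ a 0
  an' : AnalyticAt ℂ b 0
  del : ∀ l : List κ, pdl l b 0 = δ (pdl l a 0)

/-- The operator `∑_k ∂_jk ∂_ik`. -/
noncomputable def Dij (p : α × β) (G : (Ix α β μ → ℂ) → ℂ) (v : Ix α β μ → ℂ) : ℂ :=
  ∑ k : μ, pd (Sum.inr p.2, k) (pd (Sum.inl p.1, k) G) v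

/-- Its iterations. -/
noncomputable def Dw (l : List (α × β)) (G : (Ix α β μ → ℂ) → ℂ) : (Ix α β μ → ℂ) → ℂ :=
  l.foldr Dij G

/-- The functions to which Siegel's lemma is applied: `ψ(y_i) ψ(y)^(e|α|) f_-^e` for
`i ≠ ∗`, and `ψ(y) ψ(y)^(e|β|) f_+^e`. -/
noncomputable def XF (e : ℕ) (k : μ) (θ : (Ix α β μ → ℂ) → ℂ)
    (y : Option (α × β) → Ix α β μ → ℂ) (x : α → Ix α β μ → ℂ) (x' : β → Ix α β μ → ℂ)
    (w : α × β → ℂ) : Option (Option (α × β)) → ℂ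
  | some i => psi θ w (y i) * psi θ w (y none) ^ (e * Fintype.card α) * fm k θ w x' ^ e
  | none => psi θ w (y none) * psi θ w (y none) ^ (e * Fintype.card β) * fp k θ w x ^ e

end defs

end PST
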