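import Pool.Agent.PST.StN
import Pool.Agent.PST.UGr

/-!
# PST [DenS]: density of the selfadjoint elements of `R`
-/

set_option autoImplicit false

namespace PST

open scoped ComplexConjugate
open Module

private theorem DenS_gram {α β : Type} [Fintype α] [Fintype β] [DecidableEq α] [DecidableEq β]
    {X₀ Z : Matrix (α ⊕ β) (α ⊕ β) ℂ} (hX : X₀.det ≠ 0)
    (hZ : Jm α β * Z.conjTranspose * Jm α β = Z) (hG : (Gm X₀).det ≠ 0) :
    (Gm X₀)⁻¹ * (X₀⁻¹ * Z * X₀).conjTranspose * Gm X₀ = X₀⁻¹ * Z * X₀ := by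
  have h1 : X₀⁻¹ * X₀ = 1 := Matrix.nonsing_inv_mul _ (isUnit_iff_ne_zero.mpr hX)
  have h1' : X₀ * X₀⁻¹ = 1 := Matrix.mul_nonsing_inv _ (isUnit_iff_ne_zero.mpr hX)
  have h2 : (Gm X₀)⁻¹ * Gm X₀ = 1 := Matrix.nonsing_inv_mul _ (isUnit_iff_ne_zero.mpr hG)
  have h3 : X₀⁻¹.conjTranspose * X₀.conjTranspose = 1 := by
    rw [← Matrix.conjTranspose_mul, h1', Matrix.conjTranspose_one]
  have h5 : Z.conjTranspose * Jm α β = Jm α β * Z := by
    calc Z.conjTranspose * Jm α β = (Jm α β * Jm α β) * (Z.conjTranspose * Jm α β) := by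
          rw [UGr_J_sq, Matrix.one_mul]
      _ = Jm α β * (Jm α β * Z.conjTranspose * Jm α β) := by simp only [Matrix.mul_assoc]
      _ = Jm α β * Z := by rw [hZ]
  have h4 : (X₀⁻¹ * Z * X₀).conjTranspose * Gm X₀ = Gm X₀ * (X₀⁻¹ * Z * X₀) := by
    rw [Matrix.conjTranspose_mul, Matrix.conjTranspose_mul]
    unfold Gm
    calc X₀.conjTranspose * (Z.conjTranspose * X₀⁻¹.conjTranspose) *
          (X₀.conjTranspose * Jm α β * X₀)
        = X₀.conjTranspose * Z.conjTranspose * (X₀⁻¹.conjTranspose * X₀.conjTranspose) *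
          Jm α β * X₀ := by simp only [Matrix.mul_assoc]
      _ = X₀.conjTranspose * (Z.conjTranspose * Jm α β) * X₀ := by
          rw [h3]
          simp only [Matrix.mul_assoc, Matrix.one_mul]
      _ = X₀.conjTranspose * Jm α β * (X₀ * X₀⁻¹) * Z * X₀ := by
          rw [h5, h1']
          simp only [Matrix.mul_assoc, Matrix.one_mul]
      _ = X₀.conjTranspose * Jm α β * X₀ * (X₀⁻¹ * Z * X₀) := by simp only [Matrix.mul_assoc]
  rw [Matrix.mul_assoc, h4, ← Matrix.mul_assoc, h2, Matrix.one_mul]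

theorem thm_DenS (h1 : St_RBas) (h2 : St_RAdj) : St_DenS := by
  intro α β _ _ _ _ R X₀ d Z ε hD hZ hε
  obtain ⟨⟨e⟩, hb⟩ := h1 α β R X₀ d hD
  obtain ⟨-, -, hspan, -, -⟩ := hb _ e
  obtain ⟨-, hGd, hGs, hGR⟩ := h2 α β R X₀ d hD
  have hX : X₀ * X₀⁻¹ = 1 := Matrix.mul_nonsing_inv _ (isUnit_iff_ne_zero.mpr hD.det)
  have hG : Gm X₀ * (Gm X₀)⁻¹ = 1 := Matrix.mul_nonsing_inv _ (isUnit_iff_ne_zero.mpr hGd)
  have hG' : (Gm X₀)⁻¹ * Gm X₀ = 1 := Matrix.nonsing_inv_mul _ (isUnit_iff_ne_zero.mpr hGd)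
  -- symmetrisation
  let Ψ : Matrix (α ⊕ β) (α ⊕ β) ℂ → Matrix (α ⊕ β) (α ⊕ β) ℂ := fun r =>
    (1 / 2 : ℝ) • (r + (Gm X₀)⁻¹ * r.conjTranspose * Gm X₀)
  let m : (Fin (2 * (Fintype.card α + Fintype.card β) ^ 2) → ℝ) →
      Matrix (α ⊕ β) (α ⊕ β) ℂ := fun c => ∑ i, c i • (e i : Matrix (α ⊕ β) (α ⊕ β) ℂ)
  have hm : Continuous m := by
    refine continuous_finsetSum _ fun i _ => ?_
    exact (continuous_apply i).smul continuous_const
  have hΨ : Continuous Ψ := by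
    have h5 : Continuous fun r : Matrix (α ⊕ β) (α ⊕ β) ℂ => r.conjTranspose :=
      continuous_id.matrix_conjTranspose
    have h6 : Continuous fun r : Matrix (α ⊕ β) (α ⊕ β) ℂ =>
        r + (Gm X₀)⁻¹ * r.conjTranspose * Gm X₀ :=
      continuous_id.add ((continuous_const.matrix_mul h5).matrix_mul continuous_const)
    exact h6.const_smul (1 / 2 : ℝ)
  have hΦ : Continuous fun c => X₀ * Ψ (m c) * X₀⁻¹ :=
    (continuous_const.matrix_mul (hΨ.comp hm)).matrix_mul continuous_const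
  obtain ⟨c₀, hc₀⟩ : ∃ c, m c = X₀⁻¹ * Z * X₀ := by
    have : X₀⁻¹ * Z * X₀ ∈ Submodule.span ℝ
        (Set.range fun i => (e i : Matrix (α ⊕ β) (α ⊕ β) ℂ)) := by
      rw [hspan]
      exact Submodule.mem_top
    obtain ⟨c, hc⟩ := (Submodule.mem_span_range_iff_exists_fun ℝ).mp this
    exact ⟨c, hc⟩
  have hZ' : X₀ * Ψ (m c₀) * X₀⁻¹ = Z := by
    have h3 : Ψ (m c₀) = X₀⁻¹ * Z * X₀ := by
      show (1 / 2 : ℝ) • (m c₀ + (Gm X₀)⁻¹ * (m c₀).conjTranspose * Gm X₀) = _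
      rw [hc₀, DenS_gram hD.det hZ hGd, ← two_smul ℝ, smul_smul]
      norm_num
    rw [h3]
    calc X₀ * (X₀⁻¹ * Z * X₀) * X₀⁻¹ = (X₀ * X₀⁻¹) * Z * (X₀ * X₀⁻¹) := by
          simp only [Matrix.mul_assoc]
      _ = Z := by rw [hX, Matrix.one_mul, Matrix.mul_one]
  -- rational points are dense
  let O : Set (Fin (2 * (Fintype.card α + Fintype.card β) ^ 2) → ℝ) :=
    {c | ∀ i j, ‖(X₀ * Ψ (m c) * X₀⁻¹ - Z) i j‖ < ε}
  have hO : IsOpen O := by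
    have : O = ⋂ i, ⋂ j, {c | ‖(X₀ * Ψ (m c) * X₀⁻¹ - Z) i j‖ < ε} := by
      ext c
      simp [O]
    rw [this]
    refine isOpen_iInter_of_finite fun i => isOpen_iInter_of_finite fun j => ?_
    refine isOpen_lt ?_ continuous_const
    exact ((hΦ.sub continuous_const).matrix_elem i j).norm
  have hdense : DenseRange (Pi.map fun (_ : Fin (2 * (Fintype.card α + Fintype.card β) ^ 2))
      (q : ℚ) => (q : ℝ)) := DenseRange.piMap fun _ => Rat.denseRange_cast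
  obtain ⟨q, hq⟩ := hdense.exists_mem_open hO ⟨c₀, fun i j => by
    show ‖(X₀ * Ψ (m c₀) * X₀⁻¹ - Z) i j‖ < ε
    rw [hZ', sub_self]
    simpa using hε⟩
  let r₁ : R := ∑ i, q i • e i
  have hr₁ : m (Pi.map (fun _ (q : ℚ) => (q : ℝ)) q) = (r₁ : Matrix (α ⊕ β) (α ⊕ β) ℂ) := by
    simp only [m, r₁, Pi.map_apply]
    rw [AddSubmonoidClass.coe_finsetSum]
    refine Finset.sum_congr rfl fun i _ => ?_
    ext a b
    simp [Matrix.smul_apply, Rat.smul_def]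
  refine ⟨Ψ r₁, ?_, ?_, ?_⟩
  · have h3 : (r₁ : Matrix (α ⊕ β) (α ⊕ β) ℂ) +
        (Gm X₀)⁻¹ * (r₁ : Matrix (α ⊕ β) (α ⊕ β) ℂ).conjTranspose * Gm X₀ ∈ R :=
      R.add_mem r₁.2 (hGR _ r₁.2)
    have h4 : Ψ r₁ = (1 / 2 : ℚ) • ((r₁ : Matrix (α ⊕ β) (α ⊕ β) ℂ) +
        (Gm X₀)⁻¹ * (r₁ : Matrix (α ⊕ β) (α ⊕ β) ℂ).conjTranspose * Gm X₀) := by
      ext a b
      simp [Ψ, Rat.smul_def]
    rw [h4]
    exact R.smul_mem h3 _
  · simp only [Ψ]
    rw [Matrix.conjTranspose_smul, Matrix.mul_smul, Matrix.smul_mul, star_trivial,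
      Matrix.conjTranspose_add, Matrix.mul_add, Matrix.add_mul]
    have h3 : Gm X₀ * ((Gm X₀)⁻¹ * (r₁ : Matrix (α ⊕ β) (α ⊕ β) ℂ).conjTranspose * Gm X₀) =
        (r₁ : Matrix (α ⊕ β) (α ⊕ β) ℂ).conjTranspose * Gm X₀ := by
      rw [Matrix.mul_assoc, ← Matrix.mul_assoc, hG, Matrix.one_mul]
    have h4 : ((Gm X₀)⁻¹ * (r₁ : Matrix (α ⊕ β) (α ⊕ β) ℂ).conjTranspose *
        Gm X₀).conjTranspose * Gm X₀ = Gm X₀ * (r₁ : Matrix (α ⊕ β) (α ⊕ β) ℂ) := by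
      rw [Matrix.conjTranspose_mul, Matrix.conjTranspose_mul, Matrix.conjTranspose_conjTranspose,
        Matrix.conjTranspose_nonsing_inv, hGs]
      calc Gm X₀ * ((r₁ : Matrix (α ⊕ β) (α ⊕ β) ℂ) * (Gm X₀)⁻¹) * Gm X₀
          = Gm X₀ * (r₁ : Matrix (α ⊕ β) (α ⊕ β) ℂ) * ((Gm X₀)⁻¹ * Gm X₀) := by
            simp only [Matrix.mul_assoc]
        _ = _ := by rw [hG', Matrix.mul_one]
    rw [h3, h4, add_comm]
  · intro i j
    have h3 := hq i j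
    rw [hr₁] at h3
    exact h3

end PST
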