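import Pool.Agent.PST.StN

/-!
# PST, module OrdN: multiples of elements of `R` preserve the lattice
-/

set_option autoImplicit false
set_option linter.unusedVariables false

namespace PST

open Module

/-- common multiples -/
theorem OrdN_fin {M ι : Type} [AddCommGroup M] [Fintype ι] (L : Submodule ℤ M) (a : ι → M)
    (h : ∀ i, ∃ n : ℕ, n ≠ 0 ∧ (n : ℤ) • a i ∈ L) :
    ∃ n : ℕ, n ≠ 0 ∧ ∀ i, (n : ℤ) • a i ∈ L := by
  classical
  choose n hn hL using h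
  refine ⟨∏ i, n i, Finset.prod_ne_zero_iff.2 fun i _ => hn i, fun i => ?_⟩
  obtain ⟨c, hc⟩ := Finset.dvd_prod_of_mem n (Finset.mem_univ i)
  have h1 : ((∏ i, n i : ℕ) : ℤ) • a i = (c : ℤ) • ((n i : ℤ) • a i) := by
    rw [smul_smul, hc]
    push_cast
    rw [mul_comm]
  rw [h1]
  exact L.smul_mem _ (hL i)

section

variable {α β : Type} [Fintype α] [Fintype β] [DecidableEq α] [DecidableEq β]
  {R : Subalgebra ℚ (Matrix (α ⊕ β) (α ⊕ β) ℂ)} {N : ℕ}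

theorem OrdN_mem (e : Basis (Fin N) ℚ R) (i : Fin N) :
    (e i : Matrix (α ⊕ β) (α ⊕ β) ℂ) ∈ lat e := Submodule.subset_span ⟨i, rfl⟩

theorem OrdN_one (e : Basis (Fin N) ℚ R) (r : Matrix (α ⊕ β) (α ⊕ β) ℂ) (hr : r ∈ R) :
    ∃ n : ℕ, n ≠ 0 ∧ (n : ℤ) • r ∈ lat e := by
  have h1 : r = ∑ i, e.repr ⟨r, hr⟩ i • (e i : Matrix (α ⊕ β) (α ⊕ β) ℂ) := by
    have h2 := congrArg (fun x : R => (x : Matrix (α ⊕ β) (α ⊕ β) ℂ)) (e.sum_repr ⟨r, hr⟩)
    have h3 : ((∑ i, e.repr ⟨r, hr⟩ i • e i : R) : Matrix (α ⊕ β) (α ⊕ β) ℂ) =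
        ∑ i, e.repr ⟨r, hr⟩ i • (e i : Matrix (α ⊕ β) (α ⊕ β) ℂ) := by
      exact map_sum R.val.toLinearMap (fun i => e.repr ⟨r, hr⟩ i • e i) Finset.univ
    rw [← h3]
    exact h2.symm
  obtain ⟨n, hn, hL⟩ := OrdN_fin (lat e)
    (fun i => e.repr ⟨r, hr⟩ i • (e i : Matrix (α ⊕ β) (α ⊕ β) ℂ)) fun i =>
      ⟨(e.repr ⟨r, hr⟩ i).den, (e.repr ⟨r, hr⟩ i).den_nz, by
        have h4 : (((e.repr ⟨r, hr⟩ i).den : ℤ)) •
            (e.repr ⟨r, hr⟩ i • (e i : Matrix (α ⊕ β) (α ⊕ β) ℂ)) =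
            (e.repr ⟨r, hr⟩ i).num • (e i : Matrix (α ⊕ β) (α ⊕ β) ℂ) := by
          rw [← Int.cast_smul_eq_zsmul ℚ, ← Int.cast_smul_eq_zsmul ℚ, smul_smul]
          congr 1
          rw [Int.cast_natCast, mul_comm]
          exact Rat.mul_den_eq_num _
        rw [h4]
        exact (lat e).smul_mem _ (OrdN_mem e i)⟩
  refine ⟨n, hn, ?_⟩
  rw [h1, Finset.smul_sum]
  exact Submodule.sum_mem _ fun i _ => hL i

theorem OrdN_left (e : Basis (Fin N) ℚ R) (L : Submodule ℤ (Matrix (α ⊕ β) (α ⊕ β) ℂ))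
    (a : Matrix (α ⊕ β) (α ⊕ β) ℂ) (h : ∀ i, a * (e i : Matrix (α ⊕ β) (α ⊕ β) ℂ) ∈ L)
    (x : Matrix (α ⊕ β) (α ⊕ β) ℂ) (hx : x ∈ lat e) : a * x ∈ L := by
  unfold lat at hx
  induction hx using Submodule.span_induction with
  | mem x hx =>
    obtain ⟨i, rfl⟩ := hx
    exact h i
  | zero =>
    rw [Matrix.mul_zero]
    exact L.zero_mem
  | add x y _ _ hx hy =>
    rw [Matrix.mul_add]
    exact L.add_mem hx hy
  | smul c x _ hx =>
    rw [Matrix.mul_smul]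
    exact L.smul_mem c hx

theorem OrdN_right (e : Basis (Fin N) ℚ R) (L : Submodule ℤ (Matrix (α ⊕ β) (α ⊕ β) ℂ))
    (a : Matrix (α ⊕ β) (α ⊕ β) ℂ) (h : ∀ i, (e i : Matrix (α ⊕ β) (α ⊕ β) ℂ) * a ∈ L)
    (x : Matrix (α ⊕ β) (α ⊕ β) ℂ) (hx : x ∈ lat e) : x * a ∈ L := by
  unfold lat at hx
  induction hx using Submodule.span_induction with
  | mem x hx =>
    obtain ⟨i, rfl⟩ := hx
    exact h i
  | zero =>
    rw [Matrix.zero_mul]
    exact L.zero_mem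
  | add x y _ _ hx hy =>
    rw [Matrix.add_mul]
    exact L.add_mem hx hy
  | smul c x _ hx =>
    rw [Matrix.smul_mul]
    exact L.smul_mem c hx

end

theorem thm_OrdN : St_OrdN := by
  intro α β _ _ _ _ R N e
  refine ⟨OrdN_one e, fun r hr => ?_, fun r hr => ?_, ?_⟩
  · obtain ⟨n, hn, h⟩ := OrdN_fin (lat e)
      (fun i => r * (e i : Matrix (α ⊕ β) (α ⊕ β) ℂ)) fun i =>
        OrdN_one e _ (R.mul_mem hr (e i).2)
    refine ⟨n, hn, fun x hx => OrdN_left e (lat e) _ (fun i => ?_) x hx⟩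
    rw [Matrix.smul_mul]
    exact h i
  · obtain ⟨n, hn, h⟩ := OrdN_fin (lat e)
      (fun i => (e i : Matrix (α ⊕ β) (α ⊕ β) ℂ) * r) fun i =>
        OrdN_one e _ (R.mul_mem (e i).2 hr)
    refine ⟨n, hn, fun x hx => OrdN_right e (lat e) _ (fun i => ?_) x hx⟩
    rw [Matrix.mul_smul]
    exact h i
  · obtain ⟨n, hn, h⟩ := OrdN_fin (lat e)
      (fun p : Fin N × Fin N => (e p.1 : Matrix (α ⊕ β) (α ⊕ β) ℂ) * (e p.2)) fun p =>
        OrdN_one e _ (R.mul_mem (e p.1).2 (e p.2).2)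
    have hu : ∀ i : Fin N, IsUnit ((fun _ : Fin N => (n : ℚ)) i) := fun i =>
      isUnit_iff_ne_zero.2 (Nat.cast_ne_zero.2 hn)
    have hf : ∀ i, ((e.isUnitSMul hu i : R) : Matrix (α ⊕ β) (α ⊕ β) ℂ) =
        (n : ℤ) • (e i : Matrix (α ⊕ β) (α ⊕ β) ℂ) := by
      intro i
      rw [Module.Basis.isUnitSMul_apply]
      show ((n : ℚ)) • (e i : Matrix (α ⊕ β) (α ⊕ β) ℂ) = _
      rw [← Int.cast_smul_eq_zsmul ℚ, Int.cast_natCast]
    refine ⟨e.isUnitSMul hu, fun r hr x hx => ?_⟩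
    constructor
    · refine OrdN_left e (lat e) r (fun j => ?_) x hx
      refine OrdN_right (e.isUnitSMul hu) (lat e) _ (fun i => ?_) r hr
      rw [hf, Matrix.smul_mul]
      exact h (i, j)
    · refine OrdN_right e (lat e) r (fun j => ?_) x hx
      refine OrdN_left (e.isUnitSMul hu) (lat e) _ (fun i => ?_) r hr
      rw [hf, Matrix.mul_smul]
      exact h (j, i)

end PST
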