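import Pool.Agent.PST.StH
import Pool.Agent.PSQ.Types

/-!
# PST: frozen statements, arithmetic of the division algebra and the final step
-/

set_option autoImplicit false

namespace PST

open scoped ComplexConjugate
open GAM (H E F pd pdl PLat IsTh OddTor IsDel Gro IsLat Pre QD qd jac HasExp CMF CMT IsExp IsCM)
open Pool.Agent.GPC (AbVar hermForm bilForm)
open Module

section defs

variable {α β : Type} [Fintype α] [Fintype β] [DecidableEq α] [DecidableEq β]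

/-- The vector with the coordinates of the matrix `X`. -/
def cor (X : Matrix (α ⊕ β) (α ⊕ β) ℂ) : Ix α β (α ⊕ β) → ℂ := sw fun p => X p.1 p.2

/-- `i √d` -/
noncomputable def zd (d : ℚ) : ℂ := (Real.sqrt (d : ℝ) : ℂ) * Complex.I

/-- The algebra `R` of right multiplications of the lattice `X₀ R`. -/
structure Dat (R : Subalgebra ℚ (Matrix (α ⊕ β) (α ⊕ β) ℂ)) (X₀ : Matrix (α ⊕ β) (α ⊕ β) ℂ)
    (d : ℚ) : Prop where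
  prime : (Fintype.card α + Fintype.card β).Prime
  two : Fintype.card α + Fintype.card β ≠ 2
  pos : 0 < d
  alg : ∀ r ∈ R, ∀ i j, IsAlgebraic ℚ (r i j)
  star : ∀ r ∈ R, r.conjTranspose ∈ R
  div : ∀ r ∈ R, r ≠ 0 → r.det ≠ 0
  dim : Module.finrank ℚ R = 2 * (Fintype.card α + Fintype.card β) ^ 2
  span : Submodule.span ℂ (R : Set (Matrix (α ⊕ β) (α ⊕ β) ℂ)) = ⊤
  jj : zd d • (1 : Matrix (α ⊕ β) (α ⊕ β) ℂ) ∈ R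
  y : ∃ t : α ⊕ β → ℝ, Function.Injective t ∧ (Matrix.diagonal fun k => (t k : ℂ)) ∈ R
  det : X₀.det ≠ 0
  detA : IsAlgebraic ℚ X₀.det
  rat : ∀ r ∈ R, ∀ r' ∈ R, ∃ q : ℚ,
    ((X₀ * r').conjTranspose * Jm α β * (X₀ * r)).trace.im = q

/-- The Gram matrix. -/
def Gm (X₀ : Matrix (α ⊕ β) (α ⊕ β) ℂ) : Matrix (α ⊕ β) (α ⊕ β) ℂ :=
  X₀.conjTranspose * Jm α β * X₀

/-- The lattice spanned by a basis of `R`. -/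
def lat {R : Subalgebra ℚ (Matrix (α ⊕ β) (α ⊕ β) ℂ)} {N : ℕ} (e : Basis (Fin N) ℚ R) :
    Submodule ℤ (Matrix (α ⊕ β) (α ⊕ β) ℂ) :=
  Submodule.span ℤ (Set.range fun i => (e i : Matrix (α ⊕ β) (α ⊕ β) ℂ))

/-- `L` is the lattice of the `cor (X₀ r)`, `r` in the lattice of `e`. -/
def IsL {R : Subalgebra ℚ (Matrix (α ⊕ β) (α ⊕ β) ℂ)} {N : ℕ} (e : Basis (Fin N) ℚ R)
    (X₀ : Matrix (α ⊕ β) (α ⊕ β) ℂ) (L : Submodule ℤ (Ix α β (α ⊕ β) → ℂ)) : Prop :=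
  ∀ v, v ∈ L ↔ ∃ r ∈ lat e, cor (X₀ * r) = v

end defs

/-! ## The algebra and its lattices -/

/-- [RBas] a rational basis of `R` is a real basis of the matrix algebra -/
def St_RBas : Prop := ∀ (α β : Type) [Fintype α] [Fintype β] [DecidableEq α] [DecidableEq β]
  (R : Subalgebra ℚ (Matrix (α ⊕ β) (α ⊕ β) ℂ)) (X₀ : Matrix (α ⊕ β) (α ⊕ β) ℂ) (d : ℚ),
  Dat R X₀ d → Nonempty (Basis (Fin (2 * (Fintype.card α + Fintype.card β) ^ 2)) ℚ R) ∧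
  ∀ (N : ℕ) (e : Basis (Fin N) ℚ R), N = 2 * (Fintype.card α + Fintype.card β) ^ 2 ∧
    LinearIndependent ℝ (fun i => (e i : Matrix (α ⊕ β) (α ⊕ β) ℂ)) ∧
    Submodule.span ℝ (Set.range fun i => (e i : Matrix (α ⊕ β) (α ⊕ β) ℂ)) = ⊤ ∧
    LinearIndependent ℝ (fun i => cor (X₀ * (e i : Matrix (α ⊕ β) (α ⊕ β) ℂ))) ∧
    Submodule.span ℝ (Set.range fun i => cor (X₀ * (e i : Matrix (α ⊕ β) (α ⊕ β) ℂ))) = ⊤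

/-- [CorA] coordinates and actions -/
def St_CorA : Prop := ∀ (α β : Type) [Fintype α] [Fintype β] [DecidableEq α] [DecidableEq β],
  Function.Bijective (cor : Matrix (α ⊕ β) (α ⊕ β) ℂ → Ix α β (α ⊕ β) → ℂ) ∧
  (∀ X Y : Matrix (α ⊕ β) (α ⊕ β) ℂ, cor (X + Y) = cor X + cor Y) ∧
  (∀ (s : ℝ) (X : Matrix (α ⊕ β) (α ⊕ β) ℂ), cor ((s : ℂ) • X) = (s : ℂ) • cor X) ∧
  (∀ g X : Matrix (α ⊕ β) (α ⊕ β) ℂ, act g (cor X) = cor (g * X)) ∧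
  (∀ r X : Matrix (α ⊕ β) (α ⊕ β) ℂ, (rgt α β r).mulVec (cor X) = cor (X * r)) ∧
  (∀ X Y : Matrix (α ⊕ β) (α ⊕ β) ℂ,
    E (cor X) (cor Y) = (Y.conjTranspose * Jm α β * X).trace.im) ∧
  (∀ r r' : Matrix (α ⊕ β) (α ⊕ β) ℂ, rgt α β (r * r') = rgt α β r' * rgt α β r) ∧
  (∀ r : Matrix (α ⊕ β) (α ⊕ β) ℂ, rgt α β r.conjTranspose = (rgt α β r).conjTranspose) ∧
  (∀ r : Matrix (α ⊕ β) (α ⊕ β) ℂ, (rgt α β r).det =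
    r.det ^ Fintype.card α * (conj r.det) ^ Fintype.card β)

/-- [GramA] the Gram matrix is algebraic -/
def St_GramA : Prop := ∀ (α β : Type) [Fintype α] [Fintype β] [DecidableEq α] [DecidableEq β]
  (R : Subalgebra ℚ (Matrix (α ⊕ β) (α ⊕ β) ℂ)) (X₀ : Matrix (α ⊕ β) (α ⊕ β) ℂ) (d : ℚ),
  0 < d → (∀ r ∈ R, ∀ i j, IsAlgebraic ℚ (r i j)) →
  Submodule.span ℂ (R : Set (Matrix (α ⊕ β) (α ⊕ β) ℂ)) = ⊤ →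
  zd d • (1 : Matrix (α ⊕ β) (α ⊕ β) ℂ) ∈ R →
  (∀ r ∈ R, ∀ r' ∈ R, ∃ q : ℚ, ((X₀ * r').conjTranspose * Jm α β * (X₀ * r)).trace.im = q) →
  ∀ i j, IsAlgebraic ℚ (Gm X₀ i j)

/-- [RAdj] the Gram matrix is algebraic, and `R` is stable under the adjunction -/
def St_RAdj : Prop := ∀ (α β : Type) [Fintype α] [Fintype β] [DecidableEq α] [DecidableEq β]
  (R : Subalgebra ℚ (Matrix (α ⊕ β) (α ⊕ β) ℂ)) (X₀ : Matrix (α ⊕ β) (α ⊕ β) ℂ) (d : ℚ),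
  Dat R X₀ d → (∀ i j, IsAlgebraic ℚ (Gm X₀ i j)) ∧ (Gm X₀).det ≠ 0 ∧
    (Gm X₀).conjTranspose = Gm X₀ ∧
    ∀ r ∈ R, (Gm X₀)⁻¹ * r.conjTranspose * Gm X₀ ∈ R

/-- [Prin] a principal lattice -/
def St_Prin : Prop := ∀ (α β : Type) [Fintype α] [Fintype β] [DecidableEq α] [DecidableEq β]
  (R : Subalgebra ℚ (Matrix (α ⊕ β) (α ⊕ β) ℂ)) (X₀ : Matrix (α ⊕ β) (α ⊕ β) ℂ) (d : ℚ),
  Dat R X₀ d → ∃ (N : ℕ) (e : Basis (Fin N) ℚ R) (L : Submodule ℤ (Ix α β (α ⊕ β) → ℂ))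
    (χ : (Ix α β (α ⊕ β) → ℂ) → ℂ), PLat L χ ∧ IsL e X₀ L

/-- [OrdN] multiples of elements of `R` preserve the lattice -/
def St_OrdN : Prop := ∀ (α β : Type) [Fintype α] [Fintype β] [DecidableEq α] [DecidableEq β]
  (R : Subalgebra ℚ (Matrix (α ⊕ β) (α ⊕ β) ℂ)) (N : ℕ) (e : Basis (Fin N) ℚ R),
  (∀ r ∈ R, ∃ n : ℕ, n ≠ 0 ∧ (n : ℤ) • r ∈ lat e) ∧
  (∀ r ∈ R, ∃ n : ℕ, n ≠ 0 ∧ ∀ x ∈ lat e, ((n : ℤ) • r) * x ∈ lat e) ∧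
  (∀ r ∈ R, ∃ n : ℕ, n ≠ 0 ∧ ∀ x ∈ lat e, x * ((n : ℤ) • r) ∈ lat e) ∧
  ∃ f : Basis (Fin N) ℚ R, ∀ r ∈ lat f, ∀ x ∈ lat e, r * x ∈ lat e ∧ x * r ∈ lat e

/-! ## Cocompactness -/

/-- [DetU] determinants of units -/
def St_DetU : Prop := ∀ (α β : Type) [Fintype α] [Fintype β] [DecidableEq α] [DecidableEq β]
  (R : Subalgebra ℚ (Matrix (α ⊕ β) (α ⊕ β) ℂ)) (X₀ : Matrix (α ⊕ β) (α ⊕ β) ℂ) (d : ℚ)
  (N : ℕ) (e : Basis (Fin N) ℚ R) (r : Matrix (α ⊕ β) (α ⊕ β) ℂ), Dat R X₀ d → r ∈ R →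
  (∀ x ∈ lat e, r * x ∈ lat e) → ‖r.det‖ = 1 →
  r.det ^ (12 * (Fintype.card α + Fintype.card β)) = 1

/-- [MinkR] Minkowski's theorem for the lattices `Λ h` -/
def St_MinkR : Prop := ∀ (α β : Type) [Fintype α] [Fintype β] [DecidableEq α] [DecidableEq β]
  (N : ℕ) (b : Basis (Fin N) ℝ (Matrix (α ⊕ β) (α ⊕ β) ℂ)), 0 < N → ∃ C : ℝ,
  ∀ h : Matrix (α ⊕ β) (α ⊕ β) ℂ, IsU h →
  ∃ x ∈ Submodule.span ℤ (Set.range b), x ≠ 0 ∧ ∀ i j, ‖(x * h) i j‖ ≤ C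

/-- [ClsR] finitely many classes -/
def St_ClsR : Prop := ∀ (α β : Type) [Fintype α] [Fintype β] [DecidableEq α] [DecidableEq β]
  (R : Subalgebra ℚ (Matrix (α ⊕ β) (α ⊕ β) ℂ)) (X₀ : Matrix (α ⊕ β) (α ⊕ β) ℂ) (d : ℚ)
  (N : ℕ) (e : Basis (Fin N) ℚ R) (n : ℕ) (C : ℝ), Dat R X₀ d → n ≠ 0 →
  ∃ T : Finset (Matrix (α ⊕ β) (α ⊕ β) ℂ), (∀ b ∈ T, b ∈ R ∧ b ≠ 0) ∧
    ∀ b ∈ R, b ≠ 0 → (∀ x ∈ lat e, b * x ∈ lat e) →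
      (∀ i j, ‖(b * (Gm X₀)⁻¹ * b.conjTranspose) i j‖ ≤ C) →
      ∃ b' ∈ T, ∃ γ ∈ R, b = b' * γ ∧ γ.conjTranspose * Gm X₀ * γ = Gm X₀ ∧
        (∀ x, x ∈ lat e ↔ γ * x ∈ lat e) ∧
        ∀ x ∈ lat e, ∃ y ∈ lat e, γ * x = x + (n : ℤ) • y

/-- [MobB] bounded elements of the group -/
def St_MobB : Prop := ∀ (α β : Type) [Fintype α] [Fintype β] [DecidableEq α] [DecidableEq β]
  (C : ℝ), ∃ ρ : ℝ, 0 ≤ ρ ∧ ρ < 1 ∧ ∀ g : Matrix (α ⊕ β) (α ⊕ β) ℂ, IsU g →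
    (∀ i j, ‖g i j‖ ≤ C) → mob g 0 ∈ OmC α β ρ

/-- [CocR] cocompactness -/
def St_CocR : Prop := ∀ (α β : Type) [Fintype α] [Fintype β] [DecidableEq α] [DecidableEq β]
  (R : Subalgebra ℚ (Matrix (α ⊕ β) (α ⊕ β) ℂ)) (X₀ : Matrix (α ⊕ β) (α ⊕ β) ℂ) (d : ℚ)
  (N : ℕ) (e : Basis (Fin N) ℚ R) (L : Submodule ℤ (Ix α β (α ⊕ β) → ℂ)), Dat R X₀ d →
  IsL e X₀ L → Coc (12 * (Fintype.card α + Fintype.card β)) L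

/-! ## The CM point -/

/-- [DenS] density of the selfadjoint elements -/
def St_DenS : Prop := ∀ (α β : Type) [Fintype α] [Fintype β] [DecidableEq α] [DecidableEq β]
  (R : Subalgebra ℚ (Matrix (α ⊕ β) (α ⊕ β) ℂ)) (X₀ : Matrix (α ⊕ β) (α ⊕ β) ℂ) (d : ℚ)
  (Z : Matrix (α ⊕ β) (α ⊕ β) ℂ) (ε : ℝ), Dat R X₀ d →
  Jm α β * Z.conjTranspose * Jm α β = Z → 0 < ε →
  ∃ r ∈ R, Gm X₀ * r = r.conjTranspose * Gm X₀ ∧ ∀ i j, ‖(X₀ * r * X₀⁻¹ - Z) i j‖ < ε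

/-- [DiaN] diagonalisation near a diagonal matrix -/
def St_DiaN : Prop := ∀ (α β : Type) [Fintype α] [Fintype β] [DecidableEq α] [DecidableEq β]
  (t₀ : α ⊕ β → ℝ), Function.Injective t₀ → ∃ ε : ℝ, 0 < ε ∧
  ∀ Z : Matrix (α ⊕ β) (α ⊕ β) ℂ, Jm α β * Z.conjTranspose * Jm α β = Z →
    (∀ i j, ‖(Z - Matrix.diagonal fun k => (t₀ k : ℂ)) i j‖ < ε) →
    ∃ (g : Matrix (α ⊕ β) (α ⊕ β) ℂ) (t : α ⊕ β → ℝ), IsU g ∧ Function.Injective t ∧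
      Z * g = g * Matrix.diagonal fun k => (t k : ℂ)

/-- The CM point `g` : `X₀ = g P`, `P` algebraic, and `r` in `R` becomes diagonal. -/
structure CMp {α β : Type} [Fintype α] [Fintype β] [DecidableEq α] [DecidableEq β]
    (R : Subalgebra ℚ (Matrix (α ⊕ β) (α ⊕ β) ℂ)) (X₀ g P r : Matrix (α ⊕ β) (α ⊕ β) ℂ)
    (t : α ⊕ β → ℝ) : Prop where
  mem : r ∈ R
  uni : IsU g
  eq : X₀ = g * P
  alg : ∀ i j, IsAlgebraic ℚ (P i j)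
  det : P.det ≠ 0
  inj : Function.Injective t
  rel : P * r = (Matrix.diagonal fun k => (t k : ℂ)) * P

/-- [CMP] existence of the CM point -/
def St_CMP : Prop := ∀ (α β : Type) [Fintype α] [Fintype β] [DecidableEq α] [DecidableEq β]
  (R : Subalgebra ℚ (Matrix (α ⊕ β) (α ⊕ β) ℂ)) (X₀ : Matrix (α ⊕ β) (α ⊕ β) ℂ) (d : ℚ),
  Dat R X₀ d → ∃ (g P r : Matrix (α ⊕ β) (α ⊕ β) ℂ) (t : α ⊕ β → ℝ), CMp R X₀ g P r t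

/-- [CML] complex multiplication at the CM point -/
def St_CML : Prop := ∀ (α β : Type) [Fintype α] [Fintype β] [DecidableEq α] [DecidableEq β]
  (R : Subalgebra ℚ (Matrix (α ⊕ β) (α ⊕ β) ℂ)) (X₀ : Matrix (α ⊕ β) (α ⊕ β) ℂ) (d : ℚ)
  (g P r : Matrix (α ⊕ β) (α ⊕ β) ℂ) (t : α ⊕ β → ℝ) (N : ℕ) (e : Basis (Fin N) ℚ R)
  (L : Submodule ℤ (Ix α β (α ⊕ β) → ℂ)), Dat R X₀ d → CMp R X₀ g P r t → IsL e P L →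
  ∃ s, IsCM L s

/-- [CMF] the CM field -/
def St_CMF : Prop := ∀ (α β : Type) [Fintype α] [Fintype β] [DecidableEq α] [DecidableEq β]
  (R : Subalgebra ℚ (Matrix (α ⊕ β) (α ⊕ β) ℂ)) (X₀ : Matrix (α ⊕ β) (α ⊕ β) ℂ) (d : ℚ)
  (g P r : Matrix (α ⊕ β) (α ⊕ β) ℂ) (t : α ⊕ β → ℝ), Dat R X₀ d → CMp R X₀ g P r t →
  ∃ (K : Type) (_ : Field K) (_ : NumberField K) (c : K →+* K) (φ : α ⊕ β → K →+* ℂ) (J₀ : K)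
    (j : K →+* Matrix (α ⊕ β) (α ⊕ β) ℂ), CMF K c ∧ CMT K c φ ∧
    (∀ i, φ (Sum.inl i) J₀ = zd d) ∧ (∀ i, φ (Sum.inr i) J₀ = -zd d) ∧ (∀ x, j x ∈ R) ∧
    ∀ x, P * j x = (Matrix.diagonal (Sum.elim (fun i => φ (Sum.inl i) x)
      fun i => conj (φ (Sum.inr i) x))) * P

/-- [GalC] the Galois closure of a CM field -/
def St_GalC : Prop := ∀ (K : Type) [Field K] [NumberField K] (c : K →+* K), CMF K c →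
  ∃ (L : Type) (_ : Field L) (_ : NumberField L) (_ : Algebra K L) (c' : L →+* L),
    CMF L c' ∧ IsGalois ℚ L

/-- [FinQ] the exponents do not satisfy the relation -/
def St_FinQ : Prop := ∀ (K : Type) [Field K] [NumberField K] (c : K →+* K) (α β : Type)
  [Fintype α] [Fintype β] [DecidableEq α] [DecidableEq β] (φ : α ⊕ β → K →+* ℂ) (J₀ : K) (d : ℚ)
  (A : Derivation ℚ ℂ ℂ → α ⊕ β → ℂ), CMF K c → CMT K c φ → 0 < d →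
  (∀ i, φ (Sum.inl i) J₀ = zd d) → (∀ i, φ (Sum.inr i) J₀ = -zd d) →
  Fintype.card α ≠ Fintype.card β → (∀ δ, IsExp δ K φ (A δ)) →
  ¬ ∀ δ : Derivation ℚ ℂ ℂ, ∑ i, (A δ (Sum.inl i) - δ Real.pi / (2 * Real.pi)) -
    ∑ j, (A δ (Sum.inr j) - δ Real.pi / (2 * Real.pi)) = 0

/-! ## Normal form of the abelian variety -/

/-- The analytic representation of the endomorphism algebra. -/
structure LD (g p : ℕ) (d : ℚ) (Hm : Matrix (Fin g) (Fin g) ℂ)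
    (A : Subalgebra ℚ (Matrix (Fin g) (Fin g) ℂ)) (W : Submodule ℚ (Fin g → ℂ))
    (J : Matrix (Fin g) (Fin g) ℂ) : Prop where
  prime : p.Prime
  two : p ≠ 2
  dim : g = p ^ 2
  pos : 0 < d
  herm : Hm.IsHermitian
  pd : ∀ z, z ≠ 0 → 0 < (hermForm Hm z z).re
  alg : ∀ m ∈ A, ∀ i j, IsAlgebraic ℚ (m i j)
  JA : J ∈ A
  J2 : J * J = -((d : ℂ) • (1 : Matrix (Fin g) (Fin g) ℂ))
  Jadj : ∀ z w, hermForm Hm (J.mulVec z) w = -hermForm Hm z (J.mulVec w)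
  Jc : ∀ m ∈ A, m * J = J * m
  adj : ∀ m ∈ A, ∃ m' ∈ A, ∀ z w, hermForm Hm (m.mulVec z) w = hermForm Hm z (m'.mulVec w)
  cen : ∀ m ∈ A, (∀ m' ∈ A, m * m' = m' * m) →
    ∃ a b : ℚ, m = (a : ℂ) • (1 : Matrix (Fin g) (Fin g) ℂ) + (b : ℂ) • J
  div : ∀ m ∈ A, m ≠ 0 → m.det ≠ 0
  stab : ∀ m ∈ A, ∀ w ∈ W, m.mulVec w ∈ W
  trans : ∀ w ∈ W, w ≠ 0 → ∀ w' ∈ W, ∃ m ∈ A, m.mulVec w = w'
  basis : ∃ b : Basis (Fin g ⊕ Fin g) ℚ W, LinearIndependent ℝ fun i => (b i : Fin g → ℂ)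
  rat : ∀ w ∈ W, ∀ w' ∈ W, ∃ q : ℚ, (hermForm Hm w w').im = q

/-- [AnR] the analytic representation of `End(A)` -/
def St_AnR : Prop := ∀ (X : AbVar) (p : ℕ) (d : ℚ) (J : Module.End ℂ X.H1), X.IsPSq p d J →
  ∃ (A : Subalgebra ℚ (Matrix (Fin X.g) (Fin X.g) ℂ)) (W : Submodule ℚ (Fin X.g → ℂ))
    (Jz : Matrix (Fin X.g) (Fin X.g) ℂ), LD X.g p d X.H A W Jz ∧
    (∀ z, z ∈ W ↔ ∃ n : ℕ, n ≠ 0 ∧ (n : ℤ) • z ∈ X.Λ) ∧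
    (∀ v, X.zz (J v) = Jz.mulVec (X.zz v)) ∧
    ∀ m ∈ A, ∀ m' ∈ A, (∀ z w, hermForm X.H (m.mulVec z) w = hermForm X.H z (m'.mulVec w)) →
      ∃ f f' : X.H1 → X.H1, X.IsEnd f ∧ X.IsEnd f' ∧ X.IsAdjoint f f' ∧
        (∀ v, X.zz (f v) = m.mulVec (X.zz v)) ∧ ∀ v, X.zz (f' v) = m'.mulVec (X.zz v)

/-- `c ↦ Re c + Im c J / √d` -/
noncomputable def scal {g : ℕ} (d : ℚ) (J : Matrix (Fin g) (Fin g) ℂ) (c : ℂ) :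
    Matrix (Fin g) (Fin g) ℂ :=
  (c.re : ℂ) • (1 : Matrix (Fin g) (Fin g) ℂ) + ((c.im / Real.sqrt (d : ℝ) : ℝ) : ℂ) • J

/-- [NF1] a maximal subfield generated by a selfadjoint element -/
def St_NF1 : Prop := ∀ (g p : ℕ) (d : ℚ) (Hm : Matrix (Fin g) (Fin g) ℂ)
  (A : Subalgebra ℚ (Matrix (Fin g) (Fin g) ℂ)) (W : Submodule ℚ (Fin g → ℂ))
  (J : Matrix (Fin g) (Fin g) ℂ), LD g p d Hm A W J →
  ∃ y ∈ A, (∀ z w, hermForm Hm (y.mulVec z) w = hermForm Hm z (y.mulVec w)) ∧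
    (minpoly ℚ y).natDegree = p ∧ Irreducible (minpoly ℚ y) ∧
    ∀ m ∈ A, m * y = y * m → ∃ P Q : Polynomial ℚ,
      m = Polynomial.aeval y P + J * Polynomial.aeval y Q

/-- Projectors. -/
structure Prj {g : ℕ} (p : ℕ) (d : ℚ) (Hm : Matrix (Fin g) (Fin g) ℂ)
    (A : Subalgebra ℚ (Matrix (Fin g) (Fin g) ℂ)) (J : Matrix (Fin g) (Fin g) ℂ)
    (t : Fin p → ℝ) (P : Fin p → Matrix (Fin g) (Fin g) ℂ) : Prop where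
  inj : Function.Injective t
  y : (∑ k, (t k : ℂ) • P k) ∈ A
  alg : ∀ k i j, IsAlgebraic ℚ (P k i j)
  orth : ∀ k l, P k * P l = if k = l then P k else 0
  ne : ∀ k, P k ≠ 0
  sum : ∑ k, P k = 1
  adj : ∀ k z w, hermForm Hm ((P k).mulVec z) w = hermForm Hm z ((P k).mulVec w)
  jk : ∀ k, P k * J = J * P k
  real : ∀ k, P k ∈ Submodule.span ℝ (A : Set (Matrix (Fin g) (Fin g) ℂ))
  cen : ∀ k, ∀ m ∈ A, ∃ c : ℂ, P k * m * P k = scal d J c * P k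

/-- [NF2] the projectors -/
def St_NF2 : Prop := ∀ (g p : ℕ) (d : ℚ) (Hm : Matrix (Fin g) (Fin g) ℂ)
  (A : Subalgebra ℚ (Matrix (Fin g) (Fin g) ℂ)) (W : Submodule ℚ (Fin g → ℂ))
  (J : Matrix (Fin g) (Fin g) ℂ), LD g p d Hm A W J →
  ∃ (t : Fin p → ℝ) (P : Fin p → Matrix (Fin g) (Fin g) ℂ), Prj p d Hm A J t P

/-- [NF3] `A` connects the projectors -/
def St_NF3 : Prop := ∀ (g p : ℕ) (d : ℚ) (Hm : Matrix (Fin g) (Fin g) ℂ)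
  (A : Subalgebra ℚ (Matrix (Fin g) (Fin g) ℂ)) (W : Submodule ℚ (Fin g → ℂ))
  (J : Matrix (Fin g) (Fin g) ℂ) (t : Fin p → ℝ) (P : Fin p → Matrix (Fin g) (Fin g) ℂ),
  LD g p d Hm A W J → Prj p d Hm A J t P → ∀ k l, ∃ m ∈ A, P k * m * P l ≠ 0

/-- Normal form, first version. -/
structure NFo {g : ℕ} (p : ℕ) (d : ℚ) (Hm : Matrix (Fin g) (Fin g) ℂ)
    (A : Subalgebra ℚ (Matrix (Fin g) (Fin g) ℂ)) (J : Matrix (Fin g) (Fin g) ℂ)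
    (α β : Type) [Fintype α] [Fintype β] [DecidableEq α] [DecidableEq β]
    (T : Matrix (Ix α β (α ⊕ β)) (Fin g) ℂ) (S : Matrix (Fin g) (Ix α β (α ⊕ β)) ℂ)
    (Tp : Matrix α α ℂ) (Tm : Matrix β β ℂ) (Ta : Matrix (Ix α β (α ⊕ β)) (Fin g) ℂ) :
    Prop where
  card : Fintype.card α + Fintype.card β = p
  ts : T * S = 1
  st : S * T = 1
  herm : ∀ z w, hermForm Hm z w = H (T.mulVec z) (T.mulVec w)
  dp : Tp.det ≠ 0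
  dm : Tm.det ≠ 0
  fac : T = blk (α ⊕ β) Tp Tm * Ta
  alg : ∀ q a, IsAlgebraic ℚ (Ta q a)
  act : ∀ m ∈ A, ∃ r : Matrix (α ⊕ β) (α ⊕ β) ℂ, (∀ i j, IsAlgebraic ℚ (r i j)) ∧
    T * m * S = rgt α β r
  jj : T * J * S = rgt α β (zd d • (1 : Matrix (α ⊕ β) (α ⊕ β) ℂ))
  y : ∃ y ∈ A, ∃ t : α ⊕ β → ℝ, Function.Injective t ∧
    T * y * S = rgt α β (Matrix.diagonal fun k => (t k : ℂ))

/-- [NF4] adapted bases -/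
def St_NF4 : Prop := ∀ (g p : ℕ) (d : ℚ) (Hm : Matrix (Fin g) (Fin g) ℂ)
  (A : Subalgebra ℚ (Matrix (Fin g) (Fin g) ℂ)) (W : Submodule ℚ (Fin g → ℂ))
  (J : Matrix (Fin g) (Fin g) ℂ) (t : Fin p → ℝ) (P : Fin p → Matrix (Fin g) (Fin g) ℂ),
  LD g p d Hm A W J → Prj p d Hm A J t P → (∀ k l, ∃ m ∈ A, P k * m * P l ≠ 0) →
  ∃ (α β : Type) (_ : Fintype α) (_ : Fintype β) (_ : DecidableEq α) (_ : DecidableEq β)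
    (T : Matrix (Ix α β (α ⊕ β)) (Fin g) ℂ) (S : Matrix (Fin g) (Ix α β (α ⊕ β)) ℂ)
    (Tp : Matrix α α ℂ) (Tm : Matrix β β ℂ) (Ta : Matrix (Ix α β (α ⊕ β)) (Fin g) ℂ),
    NFo p d Hm A J α β T S Tp Tm Ta

/-- Normal form. -/
structure NForm (X : AbVar) (p : ℕ) (d : ℚ) (J : Module.End ℂ X.H1)
    (α β : Type) [Fintype α] [Fintype β] [DecidableEq α] [DecidableEq β]
    (T : Matrix (Ix α β (α ⊕ β)) (Fin X.g) ℂ) (S : Matrix (Fin X.g) (Ix α β (α ⊕ β)) ℂ)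
    (Tp : Matrix α α ℂ) (Tm : Matrix β β ℂ) (Ta : Matrix (Ix α β (α ⊕ β)) (Fin X.g) ℂ)
    (R : Subalgebra ℚ (Matrix (α ⊕ β) (α ⊕ β) ℂ)) (X₀ : Matrix (α ⊕ β) (α ⊕ β) ℂ) :
    Prop where
  card : Fintype.card α + Fintype.card β = p
  ts : T * S = 1
  st : S * T = 1
  herm : ∀ z w, hermForm X.H z w = H (T.mulVec z) (T.mulVec w)
  dp : Tp.det ≠ 0
  dm : Tm.det ≠ 0
  fac : T = blk (α ⊕ β) Tp Tm * Ta
  alg : ∀ q a, IsAlgebraic ℚ (Ta q a)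
  dat : Dat R X₀ d
  lat : ∀ z, (∃ n : ℕ, n ≠ 0 ∧ (n : ℤ) • z ∈ X.Λ) ↔ ∃ r ∈ R, T.mulVec z = cor (X₀ * r)
  jj : ∀ v, T.mulVec (X.zz (J v)) = (rgt α β (zd d • 1)).mulVec (T.mulVec (X.zz v))
  act : ∀ r ∈ R, ∃ (f f' : X.H1 → X.H1), X.IsEnd f ∧ X.IsEnd f' ∧ X.IsAdjoint f f' ∧
    (∀ v, T.mulVec (X.zz (f v)) = (rgt α β r).mulVec (T.mulVec (X.zz v))) ∧
    ∀ v, T.mulVec (X.zz (f' v)) = (rgt α β r.conjTranspose).mulVec (T.mulVec (X.zz v))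

/-- [NF5] from the first version to the normal form -/
def St_NF5 : Prop := ∀ (X : AbVar) (p : ℕ) (d : ℚ) (J : Module.End ℂ X.H1)
  (A : Subalgebra ℚ (Matrix (Fin X.g) (Fin X.g) ℂ)) (W : Submodule ℚ (Fin X.g → ℂ))
  (Jz : Matrix (Fin X.g) (Fin X.g) ℂ)
  (α β : Type) [Fintype α] [Fintype β] [DecidableEq α] [DecidableEq β]
  (T : Matrix (Ix α β (α ⊕ β)) (Fin X.g) ℂ) (S : Matrix (Fin X.g) (Ix α β (α ⊕ β)) ℂ)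
  (Tp : Matrix α α ℂ) (Tm : Matrix β β ℂ) (Ta : Matrix (Ix α β (α ⊕ β)) (Fin X.g) ℂ),
  LD X.g p d X.H A W Jz → (∀ z, z ∈ W ↔ ∃ n : ℕ, n ≠ 0 ∧ (n : ℤ) • z ∈ X.Λ) →
  (∀ v, X.zz (J v) = Jz.mulVec (X.zz v)) →
  (∀ m ∈ A, ∀ m' ∈ A, (∀ z w, hermForm X.H (m.mulVec z) w = hermForm X.H z (m'.mulVec w)) →
      ∃ f f' : X.H1 → X.H1, X.IsEnd f ∧ X.IsEnd f' ∧ X.IsAdjoint f f' ∧
        (∀ v, X.zz (f v) = m.mulVec (X.zz v)) ∧ ∀ v, X.zz (f' v) = m'.mulVec (X.zz v)) →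
  NFo p d X.H A Jz α β T S Tp Tm Ta →
  ∃ (T : Matrix (Ix α β (α ⊕ β)) (Fin X.g) ℂ) (S : Matrix (Fin X.g) (Ix α β (α ⊕ β)) ℂ)
    (Tp : Matrix α α ℂ) (Tm : Matrix β β ℂ) (Ta : Matrix (Ix α β (α ⊕ β)) (Fin X.g) ℂ)
    (R : Subalgebra ℚ (Matrix (α ⊕ β) (α ⊕ β) ℂ)) (X₀ : Matrix (α ⊕ β) (α ⊕ β) ℂ),
    NForm X p d J α β T S Tp Tm Ta R X₀

/-- [NF] the normal form exists -/
def St_NF : Prop := ∀ (X : AbVar) (p : ℕ) (d : ℚ) (J : Module.End ℂ X.H1), X.IsPSq p d J →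
  ∃ (α β : Type) (_ : Fintype α) (_ : Fintype β) (_ : DecidableEq α) (_ : DecidableEq β)
    (T : Matrix (Ix α β (α ⊕ β)) (Fin X.g) ℂ) (S : Matrix (Fin X.g) (Ix α β (α ⊕ β)) ℂ)
    (Tp : Matrix α α ℂ) (Tm : Matrix β β ℂ) (Ta : Matrix (Ix α β (α ⊕ β)) (Fin X.g) ℂ)
    (R : Subalgebra ℚ (Matrix (α ⊕ β) (α ⊕ β) ℂ)) (X₀ : Matrix (α ⊕ β) (α ⊕ β) ℂ),
    NForm X p d J α β T S Tp Tm Ta R X₀

/-- [HatN] the operator in the normal form -/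
def St_HatN : Prop := ∀ (X : AbVar) (p : ℕ) (d : ℚ) (J : Module.End ℂ X.H1)
  (α β : Type) [Fintype α] [Fintype β] [DecidableEq α] [DecidableEq β]
  (T : Matrix (Ix α β (α ⊕ β)) (Fin X.g) ℂ) (S : Matrix (Fin X.g) (Ix α β (α ⊕ β)) ℂ)
  (Tp : Matrix α α ℂ) (Tm : Matrix β β ℂ) (Ta : Matrix (Ix α β (α ⊕ β)) (Fin X.g) ℂ)
  (R : Subalgebra ℚ (Matrix (α ⊕ β) (α ⊕ β) ℂ)) (X₀ : Matrix (α ⊕ β) (α ⊕ β) ℂ)
  (N : ℕ) (e : Basis (Fin N) ℚ R) (L : Submodule ℤ (Ix α β (α ⊕ β) → ℂ))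
  (χ θ : (Ix α β (α ⊕ β) → ℂ) → ℂ) (δ : Derivation ℚ ℂ ℂ),
  NForm X p d J α β T S Tp Tm Ta R X₀ → PLat L χ → IsTh L χ θ → (∃ v, θ v ≠ 0) →
  IsL e X₀ L → ∃ (k : ℂ) (c : Matrix α β ℂ),
    HasHat δ L θ k (Tp * Tp⁻¹.map δ) (Tm * Tm⁻¹.map δ) c

/-- [TrN] the trace of the comparison operator -/
def St_TrN : Prop := ∀ (X : AbVar) (p : ℕ) (d : ℚ) (J : Module.End ℂ X.H1)
  (α β : Type) [Fintype α] [Fintype β] [DecidableEq α] [DecidableEq β]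
  (T : Matrix (Ix α β (α ⊕ β)) (Fin X.g) ℂ) (S : Matrix (Fin X.g) (Ix α β (α ⊕ β)) ℂ)
  (Tp : Matrix α α ℂ) (Tm : Matrix β β ℂ) (Ta : Matrix (Ix α β (α ⊕ β)) (Fin X.g) ℂ)
  (R : Subalgebra ℚ (Matrix (α ⊕ β) (α ⊕ β) ℂ)) (X₀ : Matrix (α ⊕ β) (α ⊕ β) ℂ)
  (δ : Derivation ℚ ℂ ℂ), X.IsPSq p d J → NForm X p d J α β T S Tp Tm Ta R X₀ →
  LinearMap.trace ℂ X.H1 ((Pool.Agent.Helper7.pData X).N δ * J) =
    2 * p * zd d * ((Tp * Tp⁻¹.map δ).trace - (Tm * Tm⁻¹.map δ).trace -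
      ((Fintype.card α : ℂ) - Fintype.card β) / 2 * (δ Real.pi / Real.pi))

/-- [LevE] the torus of the field in the torus of the CM point -/
def St_LevE : Prop := ∀ (α β : Type) [Fintype α] [Fintype β] [DecidableEq α] [DecidableEq β]
  (R : Subalgebra ℚ (Matrix (α ⊕ β) (α ⊕ β) ℂ)) (P : Matrix (α ⊕ β) (α ⊕ β) ℂ)
  (N : ℕ) (e : Basis (Fin N) ℚ R) (L : Submodule ℤ (Ix α β (α ⊕ β) → ℂ))
  (K : Type) [Field K] [NumberField K] (φ : α ⊕ β → K →+* ℂ)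
  (j : K →+* Matrix (α ⊕ β) (α ⊕ β) ℂ), IsL e P L → P.det ≠ 0 →
  (∀ i k, IsAlgebraic ℚ (P i k)) → (∀ x, j x ∈ R) →
  (∀ x, P * j x = (Matrix.diagonal (Sum.elim (fun i => φ (Sum.inl i) x)
      fun i => conj (φ (Sum.inr i) x))) * P) →
  ∃ (M : ℕ) (r : Ix α β (α ⊕ β) → ℂ), M ≠ 0 ∧ (∀ q, IsAlgebraic ℚ (r q)) ∧
    (∀ s, ∃ q : Ix α β (α ⊕ β), q.1 = s ∧ r q ≠ 0) ∧
    ∀ x : NumberField.RingOfIntegers K, (fun q => r q * φ q.1 ((M : K) * (x : K))) ∈ L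

/-- [ExpP] the exponents of the CM point -/
def St_ExpP : Prop := ∀ (α β : Type) [Fintype α] [Fintype β] [DecidableEq α] [DecidableEq β]
  (R : Subalgebra ℚ (Matrix (α ⊕ β) (α ⊕ β) ℂ)) (X₀ : Matrix (α ⊕ β) (α ⊕ β) ℂ) (d : ℚ)
  (g P r : Matrix (α ⊕ β) (α ⊕ β) ℂ) (t : α ⊕ β → ℝ) (N : ℕ) (e : Basis (Fin N) ℚ R)
  (L₁ : Submodule ℤ (Ix α β (α ⊕ β) → ℂ)) (χ₁ θ₁ : (Ix α β (α ⊕ β) → ℂ) → ℂ),
  Dat R X₀ d → CMp R X₀ g P r t → PLat L₁ χ₁ → IsTh L₁ χ₁ θ₁ → (∃ v, θ₁ v ≠ 0) → IsL e P L₁ →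
  ∃ (K : Type) (_ : Field K) (_ : NumberField K) (c : K →+* K) (φ : α ⊕ β → K →+* ℂ) (J₀ : K)
    (A : Derivation ℚ ℂ ℂ → α ⊕ β → ℂ), CMF K c ∧ CMT K c φ ∧
    (∀ i, φ (Sum.inl i) J₀ = zd d) ∧ (∀ i, φ (Sum.inr i) J₀ = -zd d) ∧
    (∀ δ, IsExp δ K φ (A δ)) ∧ ∀ δ, ∃ k : ℂ, HasHat δ L₁ θ₁ k
      (Matrix.diagonal fun i => A δ (Sum.inl i)) (Matrix.diagonal fun j => A δ (Sum.inr j)) 0

/-- [Fin] from a normal form -/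
def St_Fin : Prop := ∀ (X : AbVar) (p : ℕ) (d : ℚ) (J : Module.End ℂ X.H1)
  (α β : Type) [Fintype α] [Fintype β] [DecidableEq α] [DecidableEq β]
  (T : Matrix (Ix α β (α ⊕ β)) (Fin X.g) ℂ) (S : Matrix (Fin X.g) (Ix α β (α ⊕ β)) ℂ)
  (Tp : Matrix α α ℂ) (Tm : Matrix β β ℂ) (Ta : Matrix (Ix α β (α ⊕ β)) (Fin X.g) ℂ)
  (R : Subalgebra ℚ (Matrix (α ⊕ β) (α ⊕ β) ℂ)) (X₀ : Matrix (α ⊕ β) (α ⊕ β) ℂ),
  NForm X p d J α β T S Tp Tm Ta R X₀ → ∃ δ : Derivation ℚ ℂ ℂ,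
    (Tp * Tp⁻¹.map δ).trace - (Tm * Tm⁻¹.map δ).trace -
      ((Fintype.card α : ℂ) - Fintype.card β) / 2 * (δ Real.pi / Real.pi) ≠ 0

end PST
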