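import Pool.Agent.PST.AnR

/-!
# PST: the trace of the comparison operator
-/

set_option autoImplicit false
set_option linter.unusedSectionVars false

namespace PST

open scoped ComplexConjugate
open GAM (H E F pd pdl PLat IsTh OddTor IsDel Gro IsLat Pre QD qd jac HasExp CMF CMT IsExp IsCM)
open Pool.Agent.GPC (AbVar hermForm bilForm)
open Module
open Pool.Agent.Helper7 (PData pData isAlg_sum periodHom period_add isBetti_iff mem_pData_Q
  derivation_eq_zero nabla_eq_zero opN_apply)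
open Pool.Agent.Helper71.AF (VR zz_period period_VR VR_period VR_map)

/-! ## Derivations and determinants -/

section det

variable {ν : Type} [Fintype ν] [DecidableEq ν] (δ : Derivation ℚ ℂ ℂ)

private theorem TrN_prod (s : Finset ν) (g : ν → ℂ) :
    δ (∏ i ∈ s, g i) = ∑ b ∈ s, ∏ i ∈ s, if i = b then δ (g i) else g i := by
  induction s using Finset.induction_on with
  | empty => simp
  | insert a s ha ih =>
    rw [Finset.prod_insert ha, Derivation.leibniz, ih, Finset.sum_insert ha,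
      Finset.prod_insert ha, if_pos rfl, smul_eq_mul, smul_eq_mul, add_comm, Finset.mul_sum,
      mul_comm (δ (g a))]
    congr 1
    · congr 1
      refine Finset.prod_congr rfl fun i hi => ?_
      rw [if_neg]
      rintro rfl
      exact ha hi
    · refine Finset.sum_congr rfl fun b hb => ?_
      rw [Finset.prod_insert ha, if_neg]
      rintro rfl
      exact ha hb

private theorem TrN_adj (M V : Matrix ν ν ℂ) :
    ∑ σ : Equiv.Perm ν, ((Equiv.Perm.sign σ : ℤ) : ℂ) *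
      ∑ b, ∏ i, (if i = b then V (σ i) i else M (σ i) i) = (M.adjugate * V).trace := by
  have h1 : ∀ b, (M.adjugate * V) b b = ∑ σ : Equiv.Perm ν, ((Equiv.Perm.sign σ : ℤ) : ℂ) *
      ∏ i, (if i = b then V (σ i) i else M (σ i) i) := by
    intro b
    have h2 : (M.adjugate * V) b b = (M.adjugate.mulVec fun i => V i b) b := rfl
    rw [h2, ← Matrix.cramer_eq_adjugate_mulVec, Matrix.cramer_apply, Matrix.det_apply']
    refine Finset.sum_congr rfl fun σ _ => ?_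
    congr 1
    refine Finset.prod_congr rfl fun i _ => ?_
    rw [Matrix.updateCol_apply]
    split_ifs with h
    · rw [h]
    · rfl
  unfold Matrix.trace
  simp only [Matrix.diag_apply]
  rw [Finset.sum_congr rfl fun b _ => h1 b, Finset.sum_comm]
  refine Finset.sum_congr rfl fun σ _ => ?_
  rw [Finset.mul_sum]

private theorem TrN_det (M : Matrix ν ν ℂ) : δ M.det = (M.adjugate * M.map δ).trace := by
  rw [← TrN_adj, Matrix.det_apply', map_sum]
  refine Finset.sum_congr rfl fun σ _ => ?_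
  rw [Derivation.leibniz, TrN_prod, derivation_eq_zero δ _ (isAlgebraic_intCast _), smul_zero,
    add_zero, smul_eq_mul]
  rfl

private theorem TrN_tr (M : Matrix ν ν ℂ) (h : IsAlgebraic ℚ M.det) :
    (M.map δ * M⁻¹).trace = 0 := by
  rw [Matrix.inv_def, Matrix.mul_smul, Matrix.trace_smul, Matrix.trace_mul_comm, ← TrN_det,
    derivation_eq_zero δ _ h, smul_zero]

private theorem TrN_conj (x : ℂ) (h : IsAlgebraic ℚ x) : IsAlgebraic ℚ (conj x) :=
  h.algHom (Complex.conjAe.toAlgHom.restrictScalars ℚ)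

end det

/-! ## Leibniz rules for matrices -/

section mat

variable {l m n : Type} [Fintype l] [Fintype m] [Fintype n] (δ : Derivation ℚ ℂ ℂ)

private theorem TrN_mul (M : Matrix l m ℂ) (N : Matrix m n ℂ) :
    (M * N).map δ = M.map δ * N + M * N.map δ := by
  ext i j
  simp only [Matrix.map_apply, Matrix.mul_apply, Matrix.add_apply, map_sum,
    ← Finset.sum_add_distrib]
  refine Finset.sum_congr rfl fun k _ => ?_
  rw [Derivation.leibniz, smul_eq_mul, smul_eq_mul]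
  ring

private theorem TrN_mulVec (M : Matrix l m ℂ) (v : m → ℂ) :
    (fun i => δ (M.mulVec v i)) = (M.map δ).mulVec v + M.mulVec fun i => δ (v i) := by
  funext i
  simp only [Matrix.mulVec, dotProduct, Matrix.map_apply, Pi.add_apply, map_sum,
    ← Finset.sum_add_distrib]
  refine Finset.sum_congr rfl fun k _ => ?_
  rw [Derivation.leibniz, smul_eq_mul, smul_eq_mul]
  ring

private theorem TrN_trB (A : Matrix l l ℂ) (B : Matrix l m ℂ) (C : Matrix m l ℂ)
    (D : Matrix m m ℂ) : (Matrix.fromBlocks A B C D).trace = A.trace + D.trace := by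
  simp only [Matrix.trace, Matrix.diag_apply, Fintype.sum_sum_type]
  rfl

private theorem TrN_alg (M : Matrix l m ℂ) (h : ∀ i j, IsAlgebraic ℚ (M i j)) : M.map δ = 0 := by
  ext i j
  exact derivation_eq_zero δ _ (h i j)

end mat

/-! ## Coordinates -/

section coord

variable {α β : Type} [Fintype α] [Fintype β] [DecidableEq α] [DecidableEq β]

/-- exchange of the coordinates of the second kind -/
private def TrN_pi : Ix α β (α ⊕ β) ⊕ Ix α β (α ⊕ β) → Ix α β (α ⊕ β) ⊕ Ix α β (α ⊕ β)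
  | Sum.inl (Sum.inl i, k) => Sum.inl (Sum.inl i, k)
  | Sum.inl (Sum.inr j, k) => Sum.inr (Sum.inr j, k)
  | Sum.inr (Sum.inl i, k) => Sum.inr (Sum.inl i, k)
  | Sum.inr (Sum.inr j, k) => Sum.inl (Sum.inr j, k)

private theorem TrN_pi2 (s : Ix α β (α ⊕ β) ⊕ Ix α β (α ⊕ β)) : TrN_pi (TrN_pi s) = s := by
  rcases s with ⟨i | j, k⟩ | ⟨i | j, k⟩ <;> rfl

/-- the same as a permutation -/
private def TrN_e : (Ix α β (α ⊕ β) ⊕ Ix α β (α ⊕ β)) ≃ (Ix α β (α ⊕ β) ⊕ Ix α β (α ⊕ β)) :=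
  ⟨TrN_pi, TrN_pi, TrN_pi2, TrN_pi2⟩

/-- left multiplication -/
private def TrN_lm (A : Matrix (α ⊕ β) (α ⊕ β) ℂ) :
    Matrix (Ix α β (α ⊕ β)) (Ix α β (α ⊕ β)) ℂ :=
  Matrix.of fun p q => if p.2 = q.2 then A p.1 q.1 else 0

private theorem TrN_lm_mulVec (A Y : Matrix (α ⊕ β) (α ⊕ β) ℂ) :
    (TrN_lm A).mulVec (fun p => Y p.1 p.2) = fun p => (A * Y) p.1 p.2 := by
  funext p
  simp only [Matrix.mulVec, dotProduct, TrN_lm, Matrix.of_apply, Matrix.mul_apply,
    Fintype.sum_prod_type]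
  refine Finset.sum_congr rfl fun s _ => ?_
  rw [Finset.sum_eq_single p.2 (fun k _ hk => by rw [if_neg (Ne.symm hk), zero_mul])
    (fun h => absurd (Finset.mem_univ _) h), if_pos rfl]

/-- the signs of the coordinates -/
private noncomputable def TrN_sg (d : ℚ) (p : Ix α β (α ⊕ β)) : ℂ :=
  Sum.elim (fun _ => zd d) (fun _ => -zd d) p.1

/-- the same as a matrix -/
private noncomputable def TrN_Ds (d : ℚ) : Matrix (Ix α β (α ⊕ β)) (Ix α β (α ⊕ β)) ℂ :=
  Matrix.diagonal (TrN_sg d)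

private theorem TrN_conj_zd (d : ℚ) : conj (zd d) = -zd d := by
  unfold zd
  rw [map_mul, Complex.conj_ofReal, Complex.conj_I]
  ring

private theorem TrN_rgt (d : ℚ) (x : Ix α β (α ⊕ β) → ℂ) (p : Ix α β (α ⊕ β)) :
    (rgt α β (zd d • (1 : Matrix (α ⊕ β) (α ⊕ β) ℂ))).mulVec x p = TrN_sg d p * x p := by
  simp only [Matrix.mulVec, dotProduct, rgt, Matrix.of_apply]
  rw [Finset.sum_eq_single p]
  · obtain ⟨i | j, k⟩ := p
    · simp [TrN_sg]
    · simp [TrN_sg, TrN_conj_zd]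
  · intro q _ hq
    by_cases h1 : p.1 = q.1
    · have h2 : q.2 ≠ p.2 := fun h2 => hq (Prod.ext h1.symm h2)
      rw [if_pos h1]
      obtain ⟨i | j, k⟩ := p
      · simp [h2]
      · simp [h2]
    · rw [if_neg h1, zero_mul]
  · intro h
    exact absurd (Finset.mem_univ _) h

private theorem TrN_blk_mul (P P' : Matrix α α ℂ) (Q Q' : Matrix β β ℂ) :
    blk (α ⊕ β) P Q * blk (α ⊕ β) P' Q' = blk (α ⊕ β) (P * P') (Q * Q') := by
  ext p q
  have h1 : Matrix.fromBlocks (P * P') 0 0 (Q * Q') =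
      Matrix.fromBlocks P 0 0 Q * Matrix.fromBlocks P' 0 0 Q' := by
    rw [Matrix.fromBlocks_multiply]
    simp
  simp only [blk, Matrix.of_apply, Matrix.mul_apply, Fintype.sum_prod_type, h1]
  by_cases hpq : p.2 = q.2
  · rw [if_pos hpq]
    refine Finset.sum_congr rfl fun s _ => ?_
    rw [Finset.sum_eq_single p.2 (fun k _ hk => by rw [if_neg (Ne.symm hk), zero_mul])
      (fun h => absurd (Finset.mem_univ _) h), if_pos rfl, if_pos hpq]
  · rw [if_neg hpq]
    refine Finset.sum_eq_zero fun s _ => Finset.sum_eq_zero fun k _ => ?_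
    by_cases h2 : p.2 = k
    · rw [if_neg (fun h3 => hpq (h2.trans h3)), mul_zero]
    · rw [if_neg h2, zero_mul]

private theorem TrN_blk_one :
    blk (α ⊕ β) (1 : Matrix α α ℂ) (1 : Matrix β β ℂ) = 1 := by
  ext p q
  simp only [blk, Matrix.of_apply, Matrix.fromBlocks_one, Matrix.one_apply]
  by_cases h : p = q
  · rw [if_pos h, if_pos (by rw [h]), if_pos (by rw [h])]
  · rw [if_neg h]
    by_cases h2 : p.2 = q.2
    · rw [if_pos h2, if_neg fun h1 => h (Prod.ext h1 h2)]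
    · rw [if_neg h2]

private theorem TrN_blk_map (δ : Derivation ℚ ℂ ℂ) (P : Matrix α α ℂ) (Q : Matrix β β ℂ) :
    (blk (α ⊕ β) P Q).map δ = blk (α ⊕ β) (P.map δ) (Q.map δ) := by
  ext p q
  obtain ⟨i | i, k⟩ := p <;> obtain ⟨j | j, l⟩ := q <;> by_cases h : k = l <;>
    simp [blk, h]

private theorem TrN_blk_tr (d : ℚ) (P : Matrix α α ℂ) (Q : Matrix β β ℂ) :
    (blk (α ⊕ β) P Q * TrN_Ds d).trace =
      zd d * ((Fintype.card α : ℂ) + Fintype.card β) * (P.trace - Q.trace) := by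
  have h1 : ∀ p : Ix α β (α ⊕ β), (blk (α ⊕ β) P Q * TrN_Ds d :
      Matrix (Ix α β (α ⊕ β)) (Ix α β (α ⊕ β)) ℂ) p p =
      Matrix.fromBlocks P 0 0 Q p.1 p.1 * TrN_sg d p := by
    intro p
    rw [TrN_Ds, Matrix.mul_diagonal]
    simp [blk]
  rw [Matrix.trace]
  simp only [Matrix.diag_apply, h1, Fintype.sum_prod_type]
  have h2 : ∀ s : α ⊕ β, ∑ k : α ⊕ β, Matrix.fromBlocks P 0 0 Q s s *
      TrN_sg d ((s, k) : Ix α β (α ⊕ β)) = ((Fintype.card α : ℂ) + Fintype.card β) *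
        (Matrix.fromBlocks P 0 0 Q s s * Sum.elim (fun _ => zd d) (fun _ => -zd d) s) := by
    intro s
    simp only [TrN_sg]
    rw [Finset.sum_const, Finset.card_univ, Fintype.card_sum, nsmul_eq_mul]
    push_cast
    ring
  simp only [h2]
  rw [← Finset.mul_sum, Fintype.sum_sum_type]
  simp only [Matrix.fromBlocks_apply₁₁, Matrix.fromBlocks_apply₂₂, Sum.elim_inl, Sum.elim_inr]
  rw [← Finset.sum_mul, ← Finset.sum_mul]
  simp only [Matrix.trace, Matrix.diag_apply]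
  ring

private theorem TrN_sg_tr (d : ℚ) :
    (TrN_Ds d : Matrix (Ix α β (α ⊕ β)) (Ix α β (α ⊕ β)) ℂ).trace =
      zd d * ((Fintype.card α : ℂ) + Fintype.card β) *
        ((Fintype.card α : ℂ) - Fintype.card β) := by
  have h := TrN_blk_tr d (1 : Matrix α α ℂ) (1 : Matrix β β ℂ)
  rwa [TrN_blk_one, Matrix.one_mul, Matrix.trace_one, Matrix.trace_one] at h

/-- the derivation of the lattice vectors -/
private noncomputable def TrN_N (δ : Derivation ℚ ℂ ℂ) (X₀ : Matrix (α ⊕ β) (α ⊕ β) ℂ) :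
    Matrix (Ix α β (α ⊕ β) ⊕ Ix α β (α ⊕ β)) (Ix α β (α ⊕ β) ⊕ Ix α β (α ⊕ β)) ℂ :=
  (Matrix.fromBlocks (TrN_lm (X₀.map δ * X₀⁻¹)) 0 0
    (TrN_lm ((X₀.map conj).map δ * (X₀.map conj)⁻¹))).submatrix TrN_e TrN_e

/-- the diagonal matrix of `J` -/
private noncomputable def TrN_J (d : ℚ) : Ix α β (α ⊕ β) ⊕ Ix α β (α ⊕ β) → ℂ :=
  Sum.elim (TrN_sg d) fun p => -TrN_sg d p

/-- the same as a matrix -/
private noncomputable def TrN_D (d : ℚ) :
    Matrix (Ix α β (α ⊕ β) ⊕ Ix α β (α ⊕ β)) (Ix α β (α ⊕ β) ⊕ Ix α β (α ⊕ β)) ℂ :=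
  Matrix.diagonal (TrN_J d)

private theorem TrN_N_tr (δ : Derivation ℚ ℂ ℂ) (d : ℚ) (X₀ : Matrix (α ⊕ β) (α ⊕ β) ℂ)
    (h : IsAlgebraic ℚ X₀.det) : (TrN_N δ X₀ * TrN_D d).trace = 0 := by
  have hA := TrN_tr δ X₀ h
  have hB : ((X₀.map conj).map δ * (X₀.map conj)⁻¹).trace = 0 := by
    apply TrN_tr
    have h1 : (X₀.map conj).det = conj X₀.det := (RingHom.map_det _ _).symm
    rw [h1]
    exact TrN_conj _ h
  obtain ⟨g, hg⟩ : ∃ g : Ix α β (α ⊕ β) ⊕ Ix α β (α ⊕ β) → ℂ, g =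
      fun t => (Matrix.fromBlocks (TrN_lm (X₀.map δ * X₀⁻¹)) 0 0
        (TrN_lm ((X₀.map conj).map δ * (X₀.map conj)⁻¹)) :
        Matrix (Ix α β (α ⊕ β) ⊕ Ix α β (α ⊕ β)) (Ix α β (α ⊕ β) ⊕ Ix α β (α ⊕ β)) ℂ) t t *
        (Sum.elim (fun _ => zd d) (fun _ => -zd d) t : ℂ) := ⟨_, rfl⟩
  have h1 : ∀ s, (TrN_N δ X₀ * TrN_D d :
      Matrix (Ix α β (α ⊕ β) ⊕ Ix α β (α ⊕ β)) (Ix α β (α ⊕ β) ⊕ Ix α β (α ⊕ β)) ℂ) s s =
      g (TrN_e s) := by
    intro s
    rw [TrN_D, Matrix.mul_diagonal, hg]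
    show _ * TrN_J d s = _ * _
    congr 1
    rcases s with ⟨i | j, k⟩ | ⟨i | j, k⟩
    · rfl
    · rfl
    · rfl
    · exact neg_neg _
  have h3 : (TrN_N δ X₀ * TrN_D d).trace = ∑ t, g t :=
    (Finset.sum_congr rfl fun s _ => h1 s).trans (Equiv.sum_comp TrN_e g)
  rw [h3, Fintype.sum_sum_type, hg]
  simp only [Matrix.fromBlocks_apply₁₁, Matrix.fromBlocks_apply₂₂, Sum.elim_inl, Sum.elim_inr,
    Fintype.sum_prod_type]
  have h2 : ∀ Y : Matrix (α ⊕ β) (α ⊕ β) ℂ, Y.trace = 0 →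
      ∑ s : α ⊕ β, ∑ k : α ⊕ β, TrN_lm Y (s, k) (s, k) = 0 := by
    intro Y hY
    have h3 : ∀ s k : α ⊕ β, TrN_lm Y (s, k) (s, k) = Y s s := by
      intro s k
      simp [TrN_lm]
    simp only [h3]
    rw [Finset.sum_comm]
    refine Finset.sum_eq_zero fun k _ => hY
  simp only [← Finset.sum_mul]
  rw [h2 _ hA, h2 _ hB, zero_mul, zero_mul, add_zero]

/-- the vector of the coordinates and their conjugates -/
private def TrN_v (x : Ix α β (α ⊕ β) → ℂ) : Ix α β (α ⊕ β) ⊕ Ix α β (α ⊕ β) → ℂ :=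
  Sum.elim x fun p => conj (x p)

private theorem TrN_del (δ : Derivation ℚ ℂ ℂ) (X₀ r : Matrix (α ⊕ β) (α ⊕ β) ℂ)
    (h0 : X₀.det ≠ 0) (hr : ∀ i j, IsAlgebraic ℚ (r i j)) :
    (fun s => δ (TrN_v (cor (X₀ * r)) s)) = (TrN_N δ X₀).mulVec (TrN_v (cor (X₀ * r))) := by
  have hY : ∀ (Y r : Matrix (α ⊕ β) (α ⊕ β) ℂ), Y.det ≠ 0 → (∀ i j, IsAlgebraic ℚ (r i j)) →
      Y.map δ * Y⁻¹ * (Y * r) = (Y * r).map δ := by
    intro Y r h1 h2
    rw [TrN_mul, TrN_alg δ r h2, Matrix.mul_zero, add_zero, Matrix.mul_assoc,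
      ← Matrix.mul_assoc Y⁻¹, Matrix.nonsing_inv_mul Y (IsUnit.mk0 _ h1), Matrix.one_mul]
  have h1 : TrN_v (cor (X₀ * r)) ∘ TrN_e.symm =
      Sum.elim (fun p : Ix α β (α ⊕ β) => (X₀ * r) p.1 p.2)
        (fun p => (X₀.map conj * r.map conj) p.1 p.2) := by
    have hc : ∀ i j, (X₀.map conj * r.map conj) i j = conj ((X₀ * r) i j) := by
      intro i j
      simp only [Matrix.mul_apply, Matrix.map_apply, map_sum, map_mul]
    funext s
    rcases s with ⟨i | j, k⟩ | ⟨i | j, k⟩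
    · rfl
    · show conj (conj ((X₀ * r) (Sum.inr j) k)) = _
      rw [Complex.conj_conj]
      rfl
    · show conj ((X₀ * r) (Sum.inl i) k) = _
      rw [Sum.elim_inr, hc]
    · show conj ((X₀ * r) (Sum.inr j) k) = _
      rw [Sum.elim_inr, hc]
  have h0' : (X₀.map conj).det ≠ 0 := by
    have h2 : (X₀.map conj).det = conj X₀.det := (RingHom.map_det _ _).symm
    rw [h2]
    exact fun h3 => h0 ((map_eq_zero _).mp h3)
  rw [TrN_N, Matrix.submatrix_mulVec_equiv, h1, Matrix.fromBlocks_mulVec]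
  simp only [Sum.elim_comp_inl, Sum.elim_comp_inr, Matrix.zero_mulVec, add_zero, zero_add]
  rw [TrN_lm_mulVec, TrN_lm_mulVec, hY X₀ r h0 hr,
    hY (X₀.map conj) (r.map conj) h0' fun i j => TrN_conj _ (hr i j)]
  funext s
  have h2 := congrFun h1 (TrN_e s)
  rw [Function.comp_apply, Equiv.symm_apply_apply] at h2
  rw [h2, Function.comp_apply]
  rcases TrN_e s with t | t
  · rfl
  · rfl

end coord

/-! ## The comparison operator on periods -/

section per

variable (X : AbVar)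

private theorem TrN_per (δ : Derivation ℚ ℂ ℂ) (u : X.H1) (hu : X.IsBetti u) :
    (pData X).N δ u = fun j => δ (u j) := by
  have h1 : (pData X).N δ u = Pool.Agent.Helper7.nabla (Pi.basisFun ℂ (Fin X.g ⊕ Fin X.g)) δ u -
      Pool.Agent.Helper7.nabla (pData X).bB δ u := rfl
  rw [h1, nabla_eq_zero (pData X).bB δ u (fun k => by
    obtain ⟨q, hq⟩ := (pData X).repr_rat u ((mem_pData_Q X u).mpr hu) k
    rw [hq]
    exact isAlgebraic_ratCast ℚ q), sub_zero]
  funext j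
  have h2 := Pool.Agent.Helper7.repr_nabla (Pi.basisFun ℂ (Fin X.g ⊕ Fin X.g)) δ u j
  rwa [Pi.basisFun_repr, Pi.basisFun_repr] at h2

variable {α β : Type} [Fintype α] [Fintype β] [DecidableEq α] [DecidableEq β]
  (T : Matrix (Ix α β (α ⊕ β)) (Fin X.g) ℂ) (S : Matrix (Fin X.g) (Ix α β (α ⊕ β)) ℂ)

/-- the period matrix in the coordinates -/
private noncomputable def TrN_Phi :
    Matrix (Fin X.g ⊕ Fin X.g) (Ix α β (α ⊕ β) ⊕ Ix α β (α ⊕ β)) ℂ :=
  Matrix.fromBlocks S 0 (X.q * S) ((Real.pi : ℂ) • T.transpose)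

/-- its inverse -/
private noncomputable def TrN_Psi :
    Matrix (Ix α β (α ⊕ β) ⊕ Ix α β (α ⊕ β)) (Fin X.g ⊕ Fin X.g) ℂ :=
  Matrix.fromBlocks T 0 (-((Real.pi : ℂ)⁻¹ • (S.transpose * X.q)))
    ((Real.pi : ℂ)⁻¹ • S.transpose)

private theorem TrN_pi0 : (Real.pi : ℂ) ≠ 0 := by exact_mod_cast Real.pi_ne_zero

private theorem TrN_PsiPhi (hts : T * S = 1) : TrN_Psi X T S * TrN_Phi X T S = 1 := by
  rw [TrN_Psi, TrN_Phi, Matrix.fromBlocks_multiply, ← Matrix.fromBlocks_one]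
  have h1 : S.transpose * T.transpose = 1 := by
    rw [← Matrix.transpose_mul, hts, Matrix.transpose_one]
  congr 1
  · rw [hts, Matrix.zero_mul, add_zero]
  · rw [Matrix.mul_zero, Matrix.zero_mul, add_zero]
  · rw [Matrix.neg_mul, Matrix.smul_mul, Matrix.smul_mul, Matrix.mul_assoc, neg_add_cancel]
  · rw [Matrix.mul_zero, zero_add, Matrix.smul_mul, Matrix.mul_smul, smul_smul,
      inv_mul_cancel₀ TrN_pi0, one_smul, h1]

private theorem TrN_PhiPsi (hst : S * T = 1) : TrN_Phi X T S * TrN_Psi X T S = 1 := by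
  rw [TrN_Psi, TrN_Phi, Matrix.fromBlocks_multiply, ← Matrix.fromBlocks_one]
  have h1 : T.transpose * S.transpose = 1 := by
    rw [← Matrix.transpose_mul, hst, Matrix.transpose_one]
  congr 1
  · rw [hst, Matrix.zero_mul, add_zero]
  · rw [Matrix.mul_zero, Matrix.zero_mul, add_zero]
  · rw [Matrix.mul_assoc, hst, Matrix.mul_one, Matrix.mul_neg, Matrix.smul_mul, Matrix.mul_smul,
      smul_smul, mul_inv_cancel₀ TrN_pi0, one_smul, ← Matrix.mul_assoc, h1, Matrix.one_mul,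
      add_neg_cancel]
  · rw [Matrix.mul_zero, zero_add, Matrix.smul_mul, Matrix.mul_smul, smul_smul,
      mul_inv_cancel₀ TrN_pi0, one_smul, h1]

private theorem TrN_period (hst : S * T = 1)
    (hherm : ∀ z w, hermForm X.H z w = H (T.mulVec z) (T.mulVec w)) (z : Fin X.g → ℂ) :
    X.period z = (TrN_Phi X T S).mulVec (TrN_v (T.mulVec z)) := by
  rw [TrN_Phi, Matrix.fromBlocks_mulVec]
  have e1 : TrN_v (T.mulVec z) ∘ Sum.inl = T.mulVec z := rfl
  have e2 : TrN_v (T.mulVec z) ∘ Sum.inr = fun p => conj (T.mulVec z p) := rfl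
  rw [e1, e2, Matrix.zero_mulVec, add_zero, Matrix.mulVec_mulVec, Matrix.mulVec_mulVec, hst,
    Matrix.one_mulVec, Matrix.mul_assoc, hst, Matrix.mul_one]
  funext j
  rcases j with a | a
  · rfl
  · show X.eta z a = (X.q.mulVec z + ((Real.pi : ℂ) • T.transpose).mulVec _) a
    rw [AbVar.eta, hherm, Pool.Agent.Helper7.bilForm_single, Matrix.smul_mulVec, Pi.add_apply,
      Pi.smul_apply, smul_eq_mul, add_comm]
    congr 1
    congr 1
    rw [H, Matrix.mulVec_single_one]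
    rfl

private theorem TrN_span (hts : T * S = 1) (hst : S * T = 1)
    (hherm : ∀ z w, hermForm X.H z w = H (T.mulVec z) (T.mulVec w))
    (M : Matrix (Fin X.g ⊕ Fin X.g) (Ix α β (α ⊕ β) ⊕ Ix α β (α ⊕ β)) ℂ)
    (hM : ∀ z, X.IsBetti (X.period z) → M.mulVec (TrN_v (T.mulVec z)) = 0) : M = 0 := by
  have h1 : M * TrN_Psi X T S = 0 := by
    apply Matrix.toLin'.injective
    rw [map_zero]
    apply LinearMap.ext
    intro u
    rw [Matrix.toLin'_apply, LinearMap.zero_apply]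
    have hu := Pool.Agent.GPC.span_betti X u
    induction hu using Submodule.span_induction with
    | mem u hu =>
      have h2 := VR_period X (Pool.Agent.Helper71.AF.betti_VR X hu)
      rw [← h2] at hu
      rw [← h2, TrN_period X T S hst hherm, Matrix.mulVec_mulVec, Matrix.mul_assoc,
        TrN_PsiPhi X T S hts, Matrix.mul_one]
      exact hM _ hu
    | zero => exact Matrix.mulVec_zero _
    | add x y _ _ hx hy => rw [Matrix.mulVec_add, hx, hy, add_zero]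
    | smul c x _ hx => rw [Matrix.mulVec_smul, hx, smul_zero]
  rw [← Matrix.mul_one M, ← TrN_PsiPhi X T S hts, ← Matrix.mul_assoc, h1, Matrix.zero_mul]

private theorem TrN_sgconj (d : ℚ) (p : Ix α β (α ⊕ β)) : conj (TrN_sg d p) = -TrN_sg d p := by
  obtain ⟨i | j, k⟩ := p
  · exact TrN_conj_zd d
  · show conj (-zd d) = -(-zd d)
    rw [map_neg, TrN_conj_zd]

private theorem TrN_fac (δ : Derivation ℚ ℂ ℂ) (Tp : Matrix α α ℂ) (Tm : Matrix β β ℂ)
    (Ta : Matrix (Ix α β (α ⊕ β)) (Fin X.g) ℂ) (hts : T * S = 1) (dp : Tp.det ≠ 0)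
    (dm : Tm.det ≠ 0) (fac : T = blk (α ⊕ β) Tp Tm * Ta) (alg : ∀ q a, IsAlgebraic ℚ (Ta q a)) :
    T * S.map δ = blk (α ⊕ β) (Tp * Tp⁻¹.map δ) (Tm * Tm⁻¹.map δ) := by
  have hb : blk (α ⊕ β) Tp Tm * blk (α ⊕ β) Tp⁻¹ Tm⁻¹ = 1 := by
    rw [TrN_blk_mul, Matrix.mul_nonsing_inv _ (IsUnit.mk0 _ dp),
      Matrix.mul_nonsing_inv _ (IsUnit.mk0 _ dm), TrN_blk_one]
  have hb' : blk (α ⊕ β) Tp⁻¹ Tm⁻¹ * blk (α ⊕ β) Tp Tm = 1 := by
    rw [TrN_blk_mul, Matrix.nonsing_inv_mul _ (IsUnit.mk0 _ dp),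
      Matrix.nonsing_inv_mul _ (IsUnit.mk0 _ dm), TrN_blk_one]
  -- `Ta S = blk⁻¹`
  have h1 : Ta * S = blk (α ⊕ β) Tp⁻¹ Tm⁻¹ := by
    have h2 : blk (α ⊕ β) Tp⁻¹ Tm⁻¹ * (T * S) = Ta * S := by
      rw [fac, ← Matrix.mul_assoc, ← Matrix.mul_assoc, hb', Matrix.one_mul]
    rw [← h2, hts, Matrix.mul_one]
  -- `Ta δS = δ (blk⁻¹)`
  have h3 : Ta * S.map δ = (blk (α ⊕ β) Tp⁻¹ Tm⁻¹).map δ := by
    rw [← h1, TrN_mul, TrN_alg δ Ta alg, Matrix.zero_mul, zero_add]
  rw [fac, Matrix.mul_assoc, h3, TrN_blk_map, TrN_blk_mul]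

private theorem TrN_main (d : ℚ) (δ : Derivation ℚ ℂ ℂ) (hts : T * S = 1) :
    (TrN_Psi X T S * (TrN_Phi X T S).map δ * TrN_D d).trace =
      2 * (T * S.map δ * TrN_Ds d).trace -
        δ Real.pi / Real.pi * (TrN_Ds d : Matrix (Ix α β (α ⊕ β)) (Ix α β (α ⊕ β)) ℂ).trace := by
  have h0 : S.transpose * T.transpose = 1 := by
    rw [← Matrix.transpose_mul, hts, Matrix.transpose_one]
  have hD : (TrN_D d : Matrix (Ix α β (α ⊕ β) ⊕ Ix α β (α ⊕ β))
      (Ix α β (α ⊕ β) ⊕ Ix α β (α ⊕ β)) ℂ) = Matrix.fromBlocks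
      (TrN_Ds d : Matrix (Ix α β (α ⊕ β)) (Ix α β (α ⊕ β)) ℂ) 0 0
      (-(TrN_Ds d : Matrix (Ix α β (α ⊕ β)) (Ix α β (α ⊕ β)) ℂ)) := by
    rw [TrN_Ds, Matrix.diagonal_neg, Matrix.fromBlocks_diagonal]
    rfl
  have hT : (T.map δ) * S = -(T * S.map δ) := by
    have h1 := TrN_mul δ T S
    rw [hts] at h1
    have h2 : (1 : Matrix (Ix α β (α ⊕ β)) (Ix α β (α ⊕ β)) ℂ).map δ = 0 := by
      apply TrN_alg
      intro i j
      by_cases h : i = j
      · subst h
        rw [Matrix.one_apply_eq]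
        exact isAlgebraic_one
      · rw [Matrix.one_apply_ne h]
        exact isAlgebraic_zero
    rw [h2] at h1
    exact eq_neg_of_add_eq_zero_left h1.symm
  have h4 : ((Real.pi : ℂ)⁻¹ • S.transpose) * ((Real.pi : ℂ) • T.transpose).map δ =
      (δ Real.pi / Real.pi) • 1 - (T * S.map δ).transpose := by
    have h5 : ((Real.pi : ℂ) • T.transpose).map δ =
        (δ Real.pi) • T.transpose + (Real.pi : ℂ) • (T.map δ).transpose := by
      ext i j
      simp only [Matrix.map_apply, Matrix.smul_apply, Matrix.transpose_apply, Matrix.add_apply,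
        smul_eq_mul, Derivation.leibniz]
      ring
    rw [h5, Matrix.mul_add, Matrix.smul_mul, Matrix.mul_smul, h0, Matrix.smul_mul,
      Matrix.mul_smul, smul_smul, smul_smul, inv_mul_cancel₀ TrN_pi0, one_smul,
      ← Matrix.transpose_mul, hT, Matrix.transpose_neg, ← sub_eq_add_neg, mul_comm, div_eq_mul_inv]
  rw [hD, TrN_Psi, TrN_Phi, Matrix.fromBlocks_map, Matrix.fromBlocks_multiply,
    Matrix.fromBlocks_multiply, TrN_trB, h4]
  simp only [Matrix.zero_mul, Matrix.mul_zero, add_zero, zero_add]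
  have h6 : (0 : Matrix (Fin X.g) (Ix α β (α ⊕ β)) ℂ).map δ = 0 :=
    TrN_alg δ _ fun i j => isAlgebraic_zero
  rw [h6, Matrix.mul_zero, zero_add, Matrix.mul_neg, Matrix.sub_mul, Matrix.smul_mul,
    Matrix.one_mul, Matrix.trace_neg, Matrix.trace_sub, Matrix.trace_smul, smul_eq_mul]
  have h7 : ((T * S.map δ).transpose * TrN_Ds d).trace =
      (T * S.map δ * TrN_Ds d).trace := by
    rw [← Matrix.trace_transpose, Matrix.transpose_mul, Matrix.transpose_transpose, TrN_Ds,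
      Matrix.diagonal_transpose, Matrix.trace_mul_comm]
  rw [h7]
  ring

end per

theorem thm_TrN (_h : St_CorA) : St_TrN := by
  intro X p d J α β _ _ _ _ T S Tp Tm Ta R X₀ δ hJ hN
  have hts := hN.ts
  have hst := hN.st
  have hherm := hN.herm
  have hper := TrN_period X T S hst hherm
  obtain ⟨Nm, hNm⟩ : ∃ Nm, Nm = LinearMap.toMatrix' ((pData X).N δ) := ⟨_, rfl⟩
  obtain ⟨Jm', hJm⟩ : ∃ Jm', Jm' = LinearMap.toMatrix' J := ⟨_, rfl⟩
  obtain ⟨Dm, hDm⟩ : ∃ Dm : Matrix (Ix α β (α ⊕ β) ⊕ Ix α β (α ⊕ β))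
      (Ix α β (α ⊕ β) ⊕ Ix α β (α ⊕ β)) ℂ, Dm = TrN_D d := ⟨_, rfl⟩
  -- the operator in the coordinates
  have hE1 : Nm * TrN_Phi X T S = (TrN_Phi X T S).map δ + TrN_Phi X T S * TrN_N δ X₀ := by
    rw [← sub_eq_zero]
    apply TrN_span X T S hts hst hherm
    intro z hz
    obtain ⟨r, hr, hzr⟩ := (hN.lat z).1 ((AnR_W_iff X z).1 ((AnR_memW X z).2 hz))
    have h1 : Nm.mulVec (X.period z) = fun j => δ (X.period z j) := by
      rw [hNm, LinearMap.toMatrix'_mulVec]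
      exact TrN_per X δ _ hz
    rw [Matrix.sub_mulVec, Matrix.add_mulVec, ← Matrix.mulVec_mulVec, ← Matrix.mulVec_mulVec,
      ← hper, h1]
    have h2 : (fun j => δ (X.period z j)) =
        fun j => δ ((TrN_Phi X T S).mulVec (TrN_v (T.mulVec z)) j) := by
      rw [← hper]
    rw [h2, TrN_mulVec, hzr, TrN_del δ X₀ r hN.dat.det (hN.dat.alg r hr), sub_self]
  have hE2 : Jm' * TrN_Phi X T S = TrN_Phi X T S * Dm := by
    rw [← sub_eq_zero]
    apply TrN_span X T S hts hst hherm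
    intro z hz
    rw [Matrix.sub_mulVec, ← Matrix.mulVec_mulVec, ← Matrix.mulVec_mulVec, ← hper, hJm,
      LinearMap.toMatrix'_mulVec]
    have h1 := VR_map X J hJ.endo.betti (period_VR X z)
    rw [← VR_period X h1, hper]
    have h2 : T.mulVec (X.zz (J (X.period z))) = fun q => TrN_sg d q * T.mulVec z q := by
      rw [hN.jj, zz_period]
      funext q
      exact TrN_rgt d _ q
    have h3 : TrN_v (T.mulVec (X.zz (J (X.period z)))) =
        Dm.mulVec (TrN_v (T.mulVec z)) := by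
      rw [h2]
      funext s
      rw [hDm, TrN_D, Matrix.mulVec_diagonal]
      rcases s with s | s
      · rfl
      · show conj (TrN_sg d s * T.mulVec z s) = -TrN_sg d s * conj (T.mulVec z s)
        rw [map_mul, TrN_sgconj]
    rw [h3, sub_self]
  have hF := TrN_PhiPsi X T S hst
  have hG := TrN_PsiPhi X T S hts
  have htr : LinearMap.trace ℂ X.H1 ((pData X).N δ * J) = (Nm * Jm').trace := by
    rw [LinearMap.trace_eq_matrix_trace ℂ (Pi.basisFun ℂ (Fin X.g ⊕ Fin X.g)),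
      LinearMap.toMatrix_eq_toMatrix', LinearMap.toMatrix'_mul, hNm, hJm]
  have h1 : (Nm * Jm').trace = ((TrN_Psi X T S * (TrN_Phi X T S).map δ *
      Dm).trace + (TrN_N δ X₀ * Dm).trace) := by
    have h2 : Nm * Jm' = ((TrN_Phi X T S).map δ + TrN_Phi X T S * TrN_N δ X₀) *
        Dm * TrN_Psi X T S := by
      rw [← hE1, Matrix.mul_assoc Nm, ← hE2, Matrix.mul_assoc, Matrix.mul_assoc, hF,
        Matrix.mul_one]
    rw [h2, Matrix.trace_mul_comm, ← Matrix.mul_assoc, Matrix.mul_add, ← Matrix.mul_assoc, hG,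
      Matrix.one_mul, Matrix.add_mul, Matrix.trace_add]
  rw [htr, h1, hDm, TrN_N_tr δ d X₀ hN.dat.detA, add_zero, TrN_main X T S d δ hts,
    TrN_fac X T S δ Tp Tm Ta hts hN.dp hN.dm hN.fac hN.alg, TrN_blk_tr, TrN_sg_tr]
  have hc : ((Fintype.card α : ℂ) + Fintype.card β) = (p : ℂ) := by
    rw [← hN.card]
    push_cast
    rfl
  rw [hc]
  ring

end PST
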